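import Pool.Agent.Lib.MP_ac5134_an.STK.KTower

/-!
# STK-KAvgEx: upper bound for the average excess

Write `ρ n = ∑_{i<l1} tres (i0+i) (i0+i+n)`, `g n = ρ (n+D) - ρ n`, `cb = (cW + cX) D`,
`h_n i = tres (i0+i) (i0+i+n+D) - tres (i0+i) (i0+i+n)`; `|h_n i| ≤ cb` (upper bound by `tres_sub`, lower
bound: `tres i q ≥ H(W_a | X_q, W_i) ≥ tres i a - H(X_q | X_a, W_i)`).
By `tA_excess` and `tA_anti` (`tA (i+1) a b ≤ tA i a b`, `a = i+n+1`, `b = a + D`):
`tres i b - tres i a ≤ tres (i+1) b - tres (i+1) a`, so summing over `i < l1`: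
`g (n+1) ≤ g n + 2 cb`, hence `g (n+k) ≤ g n + 2 k cb`.
`ρ (2 J D) = ∑_{j<2J} g (j D) ≤ J (g 0 + 4 J D cb) + J (g n + 4 J D cb)` for `n ≤ J D`, so
`g n ≥ ρ (2JD) / J - g 0 - 8 J D cb`.  Finally by `tA_excess` the left side is
`∑ tres (i+n) (i+n+D) - g n ≤ ρ D + n cW D - g n`.
-/

namespace STK
open Finset RFold
variable {Ω : Type*} [Fintype Ω] {γ δ : Type*} {p : Ω → ℝ} {W : ℕ → Ω → γ} {X : ℕ → Ω → δ}

/-- the increment of the residual entropy -/
private noncomputable def inc (p : Ω → ℝ) (W : ℕ → Ω → γ) (X : ℕ → Ω → δ) (D n i : ℕ) : ℝ :=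
  tres p W X i (i + n + D) - tres p W X i (i + n)

private theorem inc_le (hp : IsPr p) (hW : Nest p W) (hX : Nest p X) {cW : ℝ}
    (hc : ∀ k, cent p (W (k + 1)) (W k) ≤ cW) (D n i : ℕ) : inc p W X D n i ≤ cW * D := by
  unfold inc
  have h1 := tres_sub (W := W) (X := X) hp hW hX (Nat.le_add_right i n) (Nat.le_add_right (i + n) D)
  have h2 := tdeep_le (X := X) hp hW hc (Nat.le_add_right (i + n) D) (i + n + D)
  have h3 : tdeep p W X (i + n) (i + n + D) (i + n + D) = tres p W X (i + n) (i + n + D) := rfl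
  push_cast at h2
  have h4 : cW * ((i : ℝ) + n + D - (i + n)) = cW * D := by ring
  linarith

private theorem le_inc (hp : IsPr p) (hW : Nest p W) (hX : Nest p X) {cX : ℝ}
    (hc : ∀ k, cent p (X (k + 1)) (X k) ≤ cX) (D n i : ℕ) : -(cX * D) ≤ inc p W X D n i := by
  unfold inc
  have h1 := tA_excess (W := W) (X := X) hp hW hX (Nat.le_add_right i n)
    (Nat.le_add_right (i + n) D)
  have h2 := tA_le (W := W) hp hX hc i (Nat.le_add_right (i + n) D)
  have h3 : 0 ≤ tA p W X (i + n) (i + n) (i + n + D) := tA_nonneg hp _ _ _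
  have h4 : 0 ≤ tres p W X (i + n) (i + n + D) := tdeep_nonneg hp _ _ _
  push_cast at h2
  have h5 : cX * ((i : ℝ) + n + D - (i + n)) = cX * D := by ring
  linarith

private theorem inc_succ (hp : IsPr p) (hW : Nest p W) (hX : Nest p X) (D n i : ℕ) :
    inc p W X D (n + 1) i ≤ inc p W X D n (i + 1) := by
  unfold inc
  have h1 := tA_excess (W := W) (X := X) hp hW hX (i := i) (a := i + (n + 1))
    (b := i + (n + 1) + D) (by omega) (by omega)
  have h2 := tA_excess (W := W) (X := X) hp hW hX (i := i + 1) (a := i + (n + 1))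
    (b := i + (n + 1) + D) (by omega) (by omega)
  have h3 := tA_anti (X := X) hp hW (Nat.le_succ i) (i + (n + 1)) (i + (n + 1) + D)
  have e1 : i + 1 + n = i + (n + 1) := by omega
  rw [e1]
  have h4 : tA p W X i.succ (i + (n + 1)) (i + (n + 1) + D) =
    tA p W X (i + 1) (i + (n + 1)) (i + (n + 1) + D) := rfl
  linarith

private theorem sum_window (T : ℕ → ℝ) (i0 l1 : ℕ) :
    ∑ i ∈ range l1, T (i0 + i + 1) = ∑ i ∈ range l1, T (i0 + i) + T (i0 + l1) - T i0 := by
  have h1 := Finset.sum_range_succ (fun i => T (i0 + i)) l1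
  have h2 := Finset.sum_range_succ' (fun i => T (i0 + i)) l1
  have h3 : ∑ i ∈ range l1, T (i0 + (i + 1)) = ∑ i ∈ range l1, T (i0 + i + 1) := rfl
  simp only [add_zero] at h2
  linarith

private theorem ginc_succ (hp : IsPr p) (hW : Nest p W) (hX : Nest p X) {cW cX : ℝ}
    (hc : ∀ k, cent p (W (k + 1)) (W k) ≤ cW) (hcX : ∀ k, cent p (X (k + 1)) (X k) ≤ cX)
    (i0 l1 D n : ℕ) :
    ∑ i ∈ range l1, inc p W X D (n + 1) (i0 + i) ≤
      ∑ i ∈ range l1, inc p W X D n (i0 + i) + (cW + cX) * D := by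
  have h1 : ∑ i ∈ range l1, inc p W X D (n + 1) (i0 + i) ≤
      ∑ i ∈ range l1, inc p W X D n (i0 + i + 1) :=
    Finset.sum_le_sum fun i _ => inc_succ hp hW hX D n (i0 + i)
  have h2 := sum_window (fun k => inc p W X D n k) i0 l1
  have h3 := inc_le hp hW hX hc D n (i0 + l1)
  have h4 := le_inc hp hW hX hcX D n i0
  linarith [add_mul cW cX (D : ℝ)]

private theorem ginc_add (hp : IsPr p) (hW : Nest p W) (hX : Nest p X) {cW cX : ℝ}
    (hc : ∀ k, cent p (W (k + 1)) (W k) ≤ cW) (hcX : ∀ k, cent p (X (k + 1)) (X k) ≤ cX)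
    (i0 l1 D n k : ℕ) :
    ∑ i ∈ range l1, inc p W X D (n + k) (i0 + i) ≤
      ∑ i ∈ range l1, inc p W X D n (i0 + i) + (cW + cX) * D * k := by
  induction k with
  | zero => simp
  | succ k ih =>
    have h1 := ginc_succ hp hW hX hc hcX i0 l1 D (n + k)
    have e : n + (k + 1) = n + k + 1 := by omega
    rw [e]
    push_cast
    linarith

private theorem rho_tel (i0 l1 D m : ℕ) (hp : IsPr p) :
    ∑ i ∈ range l1, tres p W X (i0 + i) (i0 + i + m * D) =
      ∑ j ∈ range m, ∑ i ∈ range l1, inc p W X D (j * D) (i0 + i) := by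
  induction m with
  | zero => simp [tres_self hp]
  | succ m ih =>
    rw [Finset.sum_range_succ, ← ih, ← Finset.sum_add_distrib]
    refine Finset.sum_congr rfl fun i _ => ?_
    unfold inc
    have e : i0 + i + (m + 1) * D = i0 + i + m * D + D := by ring
    rw [e]
    ring

private theorem sum_shift (T : ℕ → ℝ) {c : ℝ} (h0 : ∀ k, 0 ≤ T k) (h1 : ∀ k, T k ≤ c)
    (i0 l1 n : ℕ) :
    ∑ i ∈ range l1, T (i0 + i + n) ≤ ∑ i ∈ range l1, T (i0 + i) + n * c := by
  induction n with
  | zero => simp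
  | succ n ih =>
    have h2 := sum_window (fun k => T (k + n)) i0 l1
    have h3 : ∑ i ∈ range l1, T (i0 + i + (n + 1)) = ∑ i ∈ range l1, T (i0 + i + 1 + n) :=
      Finset.sum_congr rfl fun i _ => by congr 1; omega
    have h4 := h0 (i0 + n)
    have h5 := h1 (i0 + l1 + n)
    rw [h3, h2]
    push_cast
    linarith

theorem excess_avg (hp : IsPr p) (hW : Nest p W) (hX : Nest p X) {cW cX : ℝ} (h0 : 0 ≤ cW)
    (h1 : 0 ≤ cX) (hc : ∀ k, cent p (W (k + 1)) (W k) ≤ cW)
    (hcX : ∀ k, cent p (X (k + 1)) (X k) ≤ cX) (i0 l1 : ℕ) {D J n : ℕ} (hJ : 1 ≤ J) (hD : 1 ≤ D)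
    (hn : n ≤ J * D) :
    ∑ i ∈ range l1, (tA p W X (i0 + i) (i0 + i + n) (i0 + i + n + D) -
        tA p W X (i0 + i + n) (i0 + i + n) (i0 + i + n + D)) ≤
      2 * ∑ i ∈ range l1, tres p W X (i0 + i) (i0 + i + D) -
        (∑ i ∈ range l1, tres p W X (i0 + i) (i0 + i + 2 * J * D)) / J +
        9 * J * D * D * (cW + cX) := by
  have hJ0 : (0 : ℝ) < J := by exact_mod_cast hJ
  set g : ℕ → ℝ := fun n => ∑ i ∈ range l1, inc p W X D n (i0 + i) with hg
  set cb : ℝ := (cW + cX) * D with hcb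
  have hD0 : (0 : ℝ) ≤ D := Nat.cast_nonneg D
  have hcb0 : 0 ≤ cb := mul_nonneg (add_nonneg h0 h1) hD0
  have hgadd : ∀ n k, g (n + k) ≤ g n + cb * k := fun n k => ginc_add hp hW hX hc hcX i0 l1 D n k
  -- the left side
  have hL : ∑ i ∈ range l1, (tA p W X (i0 + i) (i0 + i + n) (i0 + i + n + D) -
        tA p W X (i0 + i + n) (i0 + i + n) (i0 + i + n + D)) =
      ∑ i ∈ range l1, tres p W X (i0 + i + n) (i0 + i + n + D) - g n := by
    rw [hg]
    simp only
    rw [← Finset.sum_sub_distrib]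
    refine Finset.sum_congr rfl fun i _ => ?_
    rw [tA_excess hp hW hX (Nat.le_add_right _ _) (Nat.le_add_right _ _)]
    unfold inc
    ring
  have hS : ∑ i ∈ range l1, tres p W X (i0 + i + n) (i0 + i + n + D) ≤
      ∑ i ∈ range l1, tres p W X (i0 + i) (i0 + i + D) + n * (cW * D) := by
    refine sum_shift (fun k => tres p W X k (k + D)) (fun k => tdeep_nonneg hp _ _ _)
      (fun k => ?_) i0 l1 n
    have h2 := tdeep_le (X := X) hp hW hc (Nat.le_add_right k D) (k + D)
    have h3 : tdeep p W X k (k + D) (k + D) = tres p W X k (k + D) := rfl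
    push_cast at h2
    have h4 : cW * ((k : ℝ) + D - k) = cW * D := by ring
    linarith
  have hg0 : g 0 = ∑ i ∈ range l1, tres p W X (i0 + i) (i0 + i + D) := by
    have h2 := rho_tel (W := W) (X := X) i0 l1 D 1 hp
    simp only [Finset.sum_range_one, zero_mul, one_mul] at h2
    exact h2.symm
  have hR : ∑ i ∈ range l1, tres p W X (i0 + i) (i0 + i + 2 * J * D) ≤
      J * (g 0 + cb * (J * D)) + J * (g n + cb * (2 * J * D)) := by
    rw [rho_tel i0 l1 D (2 * J) hp]
    have e : 2 * J = J + J := by ring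
    rw [e, Finset.sum_range_add]
    refine add_le_add ?_ ?_
    · have h2 : ∑ j ∈ range J, g (j * D) ≤ ∑ _j ∈ range J, (g 0 + cb * (J * D)) := by
        refine Finset.sum_le_sum fun j hj => ?_
        have h3 := hgadd 0 (j * D)
        rw [zero_add] at h3
        have h4 : (j : ℝ) * D ≤ J * D := by
          have : (j : ℝ) ≤ J := by exact_mod_cast (Finset.mem_range.1 hj).le
          exact mul_le_mul_of_nonneg_right this hD0
        have h5 := mul_le_mul_of_nonneg_left h4 hcb0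
        push_cast at h3
        linarith
      rw [Finset.sum_const, Finset.card_range, nsmul_eq_mul] at h2
      exact h2
    · have h2 : ∑ j ∈ range J, g ((J + j) * D) ≤ ∑ _j ∈ range J, (g n + cb * (2 * J * D)) := by
        refine Finset.sum_le_sum fun j hj => ?_
        have h6 : n ≤ (J + j) * D := hn.trans (Nat.mul_le_mul_right D (Nat.le_add_right J j))
        obtain ⟨k, hk⟩ := Nat.exists_eq_add_of_le h6
        have h3 := hgadd n k
        rw [hk]
        have h4 : (k : ℝ) ≤ 2 * J * D := by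
          have h7 : k ≤ (J + j) * D := by omega
          have h8 : (J + j) * D ≤ 2 * J * D :=
            Nat.mul_le_mul_right D (by have := Finset.mem_range.1 hj; omega)
          exact_mod_cast h7.trans h8
        have h5 := mul_le_mul_of_nonneg_left h4 hcb0
        linarith
      rw [Finset.sum_const, Finset.card_range, nsmul_eq_mul] at h2
      exact h2
  rw [hL]
  have hR2 : (∑ i ∈ range l1, tres p W X (i0 + i) (i0 + i + 2 * J * D)) / J ≤
      (g 0 + cb * (J * D)) + (g n + cb * (2 * J * D)) := by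
    rw [div_le_iff₀ hJ0]
    linarith
  have hn' : (n : ℝ) ≤ J * D := by exact_mod_cast hn
  have h7 : (n : ℝ) * (cW * D) ≤ J * D * cb := by
    have h8 : cW * D ≤ cb := by
      rw [hcb]
      nlinarith [mul_nonneg h1 hD0]
    have h9 : (0 : ℝ) ≤ n := Nat.cast_nonneg n
    calc (n : ℝ) * (cW * D) ≤ n * cb := mul_le_mul_of_nonneg_left h8 h9
      _ ≤ J * D * cb := mul_le_mul_of_nonneg_right hn' hcb0
  have h10 : 9 * (J : ℝ) * D * D * (cW + cX) = 9 * (J * D * cb) := by rw [hcb]; ring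
  have h11 : 0 ≤ (J : ℝ) * D * cb := mul_nonneg (mul_nonneg hJ0.le hD0) hcb0
  rw [h10]
  have h12 : cb * (J * D) = J * D * cb := by ring
  have h13 : cb * (2 * J * D) = 2 * (J * D * cb) := by ring
  linarith

end STK
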