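import Pool.Agent.Lib.MP_ac5134_an.STK.KDefs

/-!
# STK-KZ: averages over the shifts of the grid, neighbourhoods of the cell boundaries

`avz_shift`: one coordinate at a time (or: the translation by `a` modulo `N` is a bijection of
`Zb b N`, and `G` only depends on `z` modulo `N`).
`avz_near`: for one coordinate: among `N/B^c` consecutive shifts `z` (one period `B^(-c)`) at most
`2 ρ N + 1` have `dist (y + z/N, B^(-c) ℤ) ≤ ρ`; there are `B^c` periods; union bound over `j`.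
-/

namespace STK
open Finset

/-- `y` is within `ρ` of a wall of the grid of level `c`. -/
def NearWall {b : ℕ} (B c : ℕ) (ρ : ℝ) (y : Fin b → ℝ) : Prop :=
  ∃ j, ∃ m : ℤ, |y j - m * ((B : ℝ) ^ c)⁻¹| ≤ ρ

/-- periodicity with period `N` in every coordinate -/
def Per {b : ℕ} (N : ℕ) (G : (Fin b → ℤ) → ℝ) : Prop :=
  ∀ z j, G (z + Pi.single j (N : ℤ)) = G z

theorem Per.single {b N : ℕ} {G : (Fin b → ℤ) → ℝ} (hG : Per N G) (j : Fin b) (m : ℤ) :
    ∀ z, G (z + Pi.single j ((N : ℤ) * m)) = G z := by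
  induction m using Int.induction_on with
  | zero => intro z; simp
  | succ m ih =>
    intro z
    have h : z + Pi.single j ((N : ℤ) * (m + 1)) =
        (z + Pi.single j ((N : ℤ) * m)) + Pi.single j (N : ℤ) := by
      rw [add_assoc, ← Pi.single_add, mul_add, mul_one]
    rw [h, hG, ih]
  | pred m ih =>
    intro z
    have h : z + Pi.single j ((N : ℤ) * (-m)) =
        (z + Pi.single j ((N : ℤ) * (-m - 1))) + Pi.single j (N : ℤ) := by
      have e : (N : ℤ) * (-m - 1) + N = N * (-m) := by ring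
      rw [add_assoc, ← Pi.single_add, e]
    have h2 := hG (z + Pi.single j ((N : ℤ) * (-m - 1))) j
    rw [← h2, ← h, ih]

theorem Per.all {b N : ℕ} {G : (Fin b → ℤ) → ℝ} (hG : Per N G) (z k : Fin b → ℤ) :
    G (fun r => z r + N * k r) = G z := by
  classical
  have key : ∀ s : Finset (Fin b), G (z + ∑ j ∈ s, Pi.single j ((N : ℤ) * k j)) = G z := by
    intro s
    induction s using Finset.induction_on with
    | empty => simp
    | insert a s ha ih =>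
      rw [Finset.sum_insert ha, add_comm (Pi.single a _), ← add_assoc, hG.single, ih]
  have h := key Finset.univ
  rw [Finset.univ_sum_single (fun j => (N : ℤ) * k j)] at h
  exact h

theorem avz_shift {b N : ℕ} (hN : 0 < N) {G : (Fin b → ℤ) → ℝ} (hG : Per N G) (a : Fin b → ℤ) :
    avz N (fun z => G (z + a)) = avz N G := by
  have hN' : (0 : ℤ) < N := by exact_mod_cast hN
  unfold avz
  congr 1
  refine Finset.sum_nbij' (fun z r => (z r + a r) % (N : ℤ)) (fun z r => (z r - a r) % (N : ℤ))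
    ?_ ?_ ?_ ?_ ?_
  · intro z _
    simp only [Zb, Fintype.mem_piFinset, Finset.mem_Ico]
    intro r
    exact ⟨Int.emod_nonneg _ hN'.ne', Int.emod_lt_of_pos _ hN'⟩
  · intro z _
    simp only [Zb, Fintype.mem_piFinset, Finset.mem_Ico]
    intro r
    exact ⟨Int.emod_nonneg _ hN'.ne', Int.emod_lt_of_pos _ hN'⟩
  · intro z hz
    simp only [Zb, Fintype.mem_piFinset, Finset.mem_Ico] at hz
    funext r
    simp only [Int.emod_sub_emod]
    rw [add_sub_cancel_right]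
    exact Int.emod_eq_of_lt (hz r).1 (hz r).2
  · intro z hz
    simp only [Zb, Fintype.mem_piFinset, Finset.mem_Ico] at hz
    funext r
    simp only [Int.emod_add_emod]
    rw [sub_add_cancel]
    exact Int.emod_eq_of_lt (hz r).1 (hz r).2
  · intro z _
    have h := hG.all (fun r => (z r + a r) % (N : ℤ)) (fun r => (z r + a r) / (N : ℤ))
    simp only [Int.emod_add_mul_ediv] at h
    exact h

theorem card_Zb (b N : ℕ) : ((Zb b N).card : ℝ) = (N : ℝ) ^ b := by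
  unfold Zb
  rw [Fintype.card_piFinset_const, Int.card_Ico]
  simp

theorem avz_const {b N : ℕ} (hN : 0 < N) (c : ℝ) : avz (b := b) N (fun _ => c) = c := by
  have hN' : (N : ℝ) ^ b ≠ 0 := by positivity
  unfold avz
  rw [Finset.sum_const, nsmul_eq_mul, card_Zb]
  field_simp

theorem avz_mono {b N : ℕ} {G H : (Fin b → ℤ) → ℝ} (h : ∀ z, G z ≤ H z) : avz N G ≤ avz N H := by
  unfold avz
  exact div_le_div_of_nonneg_right (Finset.sum_le_sum fun z _ => h z) (by positivity)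

theorem avz_add {b N : ℕ} (G H : (Fin b → ℤ) → ℝ) :
    avz N (fun z => G z + H z) = avz N G + avz N H := by
  unfold avz
  rw [Finset.sum_add_distrib, add_div]

theorem avz_mul {b N : ℕ} (c : ℝ) (G : (Fin b → ℤ) → ℝ) :
    avz N (fun z => c * G z) = c * avz N G := by
  unfold avz
  rw [← Finset.mul_sum, mul_div_assoc]

theorem avz_sum {b N : ℕ} {ι : Type*} (s : Finset ι) (G : ι → (Fin b → ℤ) → ℝ) :
    avz N (fun z => ∑ i ∈ s, G i z) = ∑ i ∈ s, avz N (G i) := by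
  unfold avz
  rw [Finset.sum_comm, Finset.sum_div]

/-- Jensen for the square root -/
theorem avz_sqrt {b N : ℕ} (hN : 0 < N) {G : (Fin b → ℤ) → ℝ} (h : ∀ z, 0 ≤ G z) :
    avz N (fun z => √(G z)) ≤ √(avz N G) := by
  have hN' : (0 : ℝ) < (N : ℝ) ^ b := by positivity
  apply Real.le_sqrt_of_sq_le
  unfold avz
  have h1 : (∑ z ∈ Zb b N, √(G z)) ^ 2 ≤ (Zb b N).card * ∑ z ∈ Zb b N, (√(G z)) ^ 2 :=
    sq_sum_le_card_mul_sum_sq
  rw [card_Zb] at h1
  have h2 : ∑ z ∈ Zb b N, (√(G z)) ^ 2 = ∑ z ∈ Zb b N, G z :=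
    Finset.sum_congr rfl fun z _ => Real.sq_sqrt (h z)
  rw [h2] at h1
  rw [div_pow, div_le_div_iff₀ (by positivity) hN']
  nlinarith [hN'.le]

/-- average of a function of one coordinate -/
theorem avz_coord {b N : ℕ} (hN : 0 < N) (f : ℤ → ℝ) (j : Fin b) :
    avz N (fun z => f (z j)) = (∑ t ∈ Finset.Ico (0 : ℤ) N, f t) / N := by
  classical
  have h1 : ∑ z ∈ Zb b N, f (z j) =
      ∏ r : Fin b, ∑ t ∈ Finset.Ico (0 : ℤ) N, (if r = j then f t else 1) := by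
    rw [Finset.prod_univ_sum]
    refine Finset.sum_congr rfl fun z _ => ?_
    rw [Finset.prod_ite_eq']
    simp
  have h2 : ∏ r : Fin b, ∑ t ∈ Finset.Ico (0 : ℤ) N, (if r = j then f t else 1) =
      (∑ t ∈ Finset.Ico (0 : ℤ) N, f t) * (N : ℝ) ^ (b - 1) := by
    rw [← Finset.mul_prod_erase Finset.univ _ (Finset.mem_univ j)]
    congr 1
    · exact Finset.sum_congr rfl fun t _ => by rw [if_pos rfl]
    · rw [Finset.prod_congr rfl (g := fun _ => (N : ℝ)), Finset.prod_const,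
        Finset.card_erase_of_mem (Finset.mem_univ j), Finset.card_univ, Fintype.card_fin]
      intro r hr
      rw [Finset.sum_congr rfl (g := fun _ => (1 : ℝ)) (fun t _ => by
        rw [if_neg (Finset.ne_of_mem_erase hr)])]
      simp
  have hb : 0 < b := j.pos
  have hN' : (N : ℝ) ≠ 0 := by positivity
  unfold avz
  rw [h1, h2]
  obtain ⟨e, rfl⟩ : ∃ e, b = e + 1 := ⟨b - 1, by omega⟩
  rw [Nat.add_sub_cancel, pow_succ]
  field_simp

theorem count_near {B c N : ℕ} (hB : 0 < B) (hN : 0 < N) (hdiv : B ^ c ∣ N) {ρ : ℝ} (hρ : 0 ≤ ρ)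
    (y : ℝ) (s : Finset ℤ) (hs : ∀ t ∈ s, (0 ≤ t ∧ t < N) ∧
      ∃ m : ℤ, |y + (t : ℝ) / N - m * ((B : ℝ) ^ c)⁻¹| ≤ ρ) :
    (s.card : ℝ) ≤ (B : ℝ) ^ c * (2 * (ρ * N) + 1) := by
  classical
  obtain ⟨L, hL⟩ := hdiv
  have hBc : 0 < B ^ c := by positivity
  have hLpos : 0 < L := by
    rcases Nat.eq_zero_or_pos L with h | h
    · rw [h] at hL; omega
    · exact h
  have hBr : (0 : ℝ) < (B : ℝ) ^ c := by positivity
  have hNr : (N : ℝ) = (B : ℝ) ^ c * L := by exact_mod_cast hL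
  have hNpos : (0 : ℝ) < N := by exact_mod_cast hN
  have hNz : (N : ℤ) = (B ^ c : ℕ) * L := by exact_mod_cast hL
  choose! m hm using fun t ht => (hs t ht).2
  set a : ℝ := -(N * y) with ha
  set R : ℝ := ρ * N with hR
  have hRn : 0 ≤ R := by positivity
  have hkey : ∀ t ∈ s, a - R ≤ (t : ℝ) - m t * L ∧ (t : ℝ) - m t * L ≤ a + R := by
    intro t ht
    have h1 := abs_le.1 (hm t ht)
    have h2 : N * (y + (t : ℝ) / N - m t * ((B : ℝ) ^ c)⁻¹) = N * y + t - m t * L := by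
      rw [hNr]
      have hL0 : (L : ℝ) ≠ 0 := by positivity
      field_simp
    have h3 : N * (-ρ) ≤ N * (y + (t : ℝ) / N - m t * ((B : ℝ) ^ c)⁻¹) :=
      mul_le_mul_of_nonneg_left h1.1 hNpos.le
    have h4 : N * (y + (t : ℝ) / N - m t * ((B : ℝ) ^ c)⁻¹) ≤ N * ρ :=
      mul_le_mul_of_nonneg_left h1.2 hNpos.le
    rw [h2] at h3 h4
    constructor
    · rw [ha, hR]; linarith
    · rw [ha, hR]; linarith
  have hcard : s.card ≤
      ((Finset.Ico (0 : ℤ) ((B ^ c : ℕ) : ℤ)) ×ˢ (Finset.Icc ⌈a - R⌉ ⌊a + R⌋)).card := by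
    refine Finset.card_le_card_of_injOn (fun t => (t / (L : ℤ), t - m t * (L : ℤ))) ?_ ?_
    · intro t ht
      have h1 := (hs t ht).1
      have h2 := hkey t ht
      have hLz : (0 : ℤ) < L := by exact_mod_cast hLpos
      simp only [Finset.coe_product, Finset.coe_Ico, Finset.coe_Icc, Set.mem_prod, Set.mem_Ico,
        Set.mem_Icc]
      refine ⟨⟨Int.ediv_nonneg h1.1 hLz.le, ?_⟩, ?_, ?_⟩
      · rw [Int.ediv_lt_iff_lt_mul hLz, ← hNz]
        exact h1.2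
      · rw [Int.ceil_le]
        push_cast
        exact h2.1
      · rw [Int.le_floor]
        push_cast
        exact h2.2
    · intro t _ t' _ h
      simp only [Prod.mk.injEq] at h
      obtain ⟨h1, h2⟩ := h
      have h3 : t % (L : ℤ) = t' % (L : ℤ) := by
        have h4 : (t - m t * (L : ℤ)) % (L : ℤ) = (t' - m t' * (L : ℤ)) % (L : ℤ) := by rw [h2]
        rwa [Int.sub_mul_emod_self_right, Int.sub_mul_emod_self_right] at h4
      have h5 := Int.emod_add_mul_ediv t (L : ℤ)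
      have h6 := Int.emod_add_mul_ediv t' (L : ℤ)
      rw [← h5, ← h6, h1, h3]
  rw [Finset.card_product, Int.card_Ico, Int.card_Icc] at hcard
  have h7 : ((⌊a + R⌋ + 1 - ⌈a - R⌉).toNat : ℝ) ≤ 2 * R + 1 := by
    have h8 : (⌊a + R⌋ : ℝ) ≤ a + R := Int.floor_le _
    have h9 : a - R ≤ (⌈a - R⌉ : ℝ) := Int.le_ceil _
    rcases le_or_gt (⌊a + R⌋ + 1 - ⌈a - R⌉) 0 with h10 | h10
    · rw [Int.toNat_of_nonpos h10]
      push_cast
      linarith
    · have h11 : (((⌊a + R⌋ + 1 - ⌈a - R⌉).toNat : ℤ) : ℝ) = ((⌊a + R⌋ + 1 - ⌈a - R⌉ : ℤ) : ℝ) := by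
        rw [Int.toNat_of_nonneg h10.le]
      have h12 : ((⌊a + R⌋ + 1 - ⌈a - R⌉).toNat : ℝ) = ((⌊a + R⌋ + 1 - ⌈a - R⌉ : ℤ) : ℝ) := by
        rw [← h11]
        norm_cast
      rw [h12]
      push_cast
      linarith
  have h13 : (s.card : ℝ) ≤ (((B ^ c : ℕ) : ℤ) - 0).toNat * ((⌊a + R⌋ + 1 - ⌈a - R⌉).toNat : ℝ) := by
    exact_mod_cast hcard
  have h14 : (((((B ^ c : ℕ) : ℤ) - 0).toNat : ℕ) : ℝ) = (B : ℝ) ^ c := by
    rw [sub_zero, Int.toNat_natCast]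
    push_cast
    rfl
  rw [h14] at h13
  exact h13.trans (mul_le_mul_of_nonneg_left h7 hBr.le)

open Classical in
theorem avz_near {b B c N : ℕ} (hB : 0 < B) (hN : 0 < N) (hdiv : B ^ c ∣ N) {ρ : ℝ} (hρ : 0 ≤ ρ)
    (y : Fin b → ℝ) :
    avz N (fun z => if NearWall B c ρ (fun r => y r + sh N z r) then (1 : ℝ) else 0) ≤
      b * ((B : ℝ) ^ c * (2 * ρ + 1 / N)) := by
  have hNpos : (0 : ℝ) < N := by exact_mod_cast hN
  have h1 : avz N (fun z => if NearWall B c ρ (fun r => y r + sh N z r) then (1 : ℝ) else 0) ≤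
      avz N (fun z : Fin b → ℤ => ∑ j : Fin b,
        (if ∃ m : ℤ, |y j + ((z j : ℤ) : ℝ) / N - m * ((B : ℝ) ^ c)⁻¹| ≤ ρ then (1 : ℝ) else 0)) := by
    apply avz_mono
    intro z
    have hnn : ∀ j : Fin b, (0 : ℝ) ≤
        (if ∃ m : ℤ, |y j + ((z j : ℤ) : ℝ) / N - m * ((B : ℝ) ^ c)⁻¹| ≤ ρ then (1 : ℝ) else 0) := by
      intro j
      split_ifs <;> norm_num
    by_cases h : NearWall B c ρ (fun r => y r + sh N z r)
    · rw [if_pos h]
      obtain ⟨j, m, hm⟩ := h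
      have h2 : (if ∃ m : ℤ, |y j + ((z j : ℤ) : ℝ) / N - m * ((B : ℝ) ^ c)⁻¹| ≤ ρ
          then (1 : ℝ) else 0) = 1 := if_pos ⟨m, hm⟩
      refine le_trans (le_of_eq h2.symm) ?_
      exact Finset.single_le_sum (f := fun j : Fin b =>
        (if ∃ m : ℤ, |y j + ((z j : ℤ) : ℝ) / N - m * ((B : ℝ) ^ c)⁻¹| ≤ ρ then (1 : ℝ) else 0))
        (fun j _ => hnn j) (Finset.mem_univ j)
    · rw [if_neg h]
      exact Finset.sum_nonneg fun j _ => hnn j
  refine h1.trans ?_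
  rw [avz_sum]
  have h3 : ∀ j : Fin b, avz N (fun z : Fin b → ℤ =>
      (if ∃ m : ℤ, |y j + ((z j : ℤ) : ℝ) / N - m * ((B : ℝ) ^ c)⁻¹| ≤ ρ then (1 : ℝ) else 0)) ≤
      (B : ℝ) ^ c * (2 * ρ + 1 / N) := by
    intro j
    rw [avz_coord hN (fun t : ℤ =>
      (if ∃ m : ℤ, |y j + (t : ℝ) / N - m * ((B : ℝ) ^ c)⁻¹| ≤ ρ then (1 : ℝ) else 0)) j]
    rw [← Finset.sum_filter, Finset.sum_const, nsmul_eq_mul, mul_one]
    have h4 := count_near hB hN hdiv hρ (y j) ((Finset.Ico (0 : ℤ) N).filter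
      (fun t : ℤ => ∃ m : ℤ, |y j + (t : ℝ) / N - m * ((B : ℝ) ^ c)⁻¹| ≤ ρ)) (by
        intro t ht
        rw [Finset.mem_filter, Finset.mem_Ico] at ht
        exact ht)
    rw [div_le_iff₀ hNpos]
    refine h4.trans (le_of_eq ?_)
    field_simp
  refine (Finset.sum_le_sum fun j _ => h3 j).trans (le_of_eq ?_)
  simp

/-- away from the walls a small displacement does not change the cell -/
theorem floor_eq_of_not_near {b B c : ℕ} (hB : 0 < B) {ρ : ℝ} {y y' : Fin b → ℝ}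
    (hn : ¬ NearWall B c ρ y) (h : ∀ r, |y' r - y r| ≤ ρ) (r : Fin b) :
    ⌊(B : ℝ) ^ c * y' r⌋ = ⌊(B : ℝ) ^ c * y r⌋ := by
  have hBr : (0 : ℝ) < (B : ℝ) ^ c := by positivity
  by_contra hne
  apply hn
  have hr := abs_le.1 (h r)
  rcases lt_or_gt_of_ne hne with h1 | h1
  · refine ⟨r, ⌊(B : ℝ) ^ c * y r⌋, ?_⟩
    have h2 : (B : ℝ) ^ c * y' r < ⌊(B : ℝ) ^ c * y r⌋ := Int.floor_lt.1 h1
    have h3 : (⌊(B : ℝ) ^ c * y r⌋ : ℝ) ≤ (B : ℝ) ^ c * y r := Int.floor_le _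
    have h4 : y' r < ⌊(B : ℝ) ^ c * y r⌋ * ((B : ℝ) ^ c)⁻¹ := by
      rw [← div_eq_mul_inv, lt_div_iff₀ hBr]
      linarith
    have h5 : ⌊(B : ℝ) ^ c * y r⌋ * ((B : ℝ) ^ c)⁻¹ ≤ y r := by
      rw [← div_eq_mul_inv, div_le_iff₀ hBr]
      linarith
    rw [abs_le]
    constructor <;> linarith
  · refine ⟨r, ⌊(B : ℝ) ^ c * y r⌋ + 1, ?_⟩
    have h2 : (B : ℝ) ^ c * y r < ⌊(B : ℝ) ^ c * y r⌋ + 1 := Int.lt_floor_add_one _
    have h3 : ((⌊(B : ℝ) ^ c * y r⌋ + 1 : ℤ) : ℝ) ≤ (B : ℝ) ^ c * y' r := Int.le_floor.1 h1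
    push_cast at h3
    have h4 : y r < (⌊(B : ℝ) ^ c * y r⌋ + 1) * ((B : ℝ) ^ c)⁻¹ := by
      rw [← div_eq_mul_inv, lt_div_iff₀ hBr]
      linarith
    have h5 : (⌊(B : ℝ) ^ c * y r⌋ + 1) * ((B : ℝ) ^ c)⁻¹ ≤ y' r := by
      rw [← div_eq_mul_inv, div_le_iff₀ hBr]
      linarith
    push_cast
    rw [abs_le]
    constructor <;> linarith

/-- a displacement `≤ B^(-c)` changes the cell by at most one in every coordinate -/
theorem floor_nbr {b B c : ℕ} (hB : 0 < B) {y y' : Fin b → ℝ}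
    (h : ∀ r, |y' r - y r| ≤ ((B : ℝ) ^ c)⁻¹) (r : Fin b) :
    |⌊(B : ℝ) ^ c * y' r⌋ - ⌊(B : ℝ) ^ c * y r⌋| ≤ 1 := by
  have hBr : (0 : ℝ) < (B : ℝ) ^ c := by positivity
  have hr := abs_le.1 (h r)
  have h1 : (B : ℝ) ^ c * (y' r - y r) ≤ 1 := by
    have := mul_le_mul_of_nonneg_left hr.2 hBr.le
    rwa [mul_inv_cancel₀ hBr.ne'] at this
  have h2 : -1 ≤ (B : ℝ) ^ c * (y' r - y r) := by
    have := mul_le_mul_of_nonneg_left hr.1 hBr.le
    rw [mul_neg, mul_inv_cancel₀ hBr.ne'] at this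
    exact this
  have f1 := Int.floor_le ((B : ℝ) ^ c * y' r)
  have f2 := Int.lt_floor_add_one ((B : ℝ) ^ c * y' r)
  have f3 := Int.floor_le ((B : ℝ) ^ c * y r)
  have f4 := Int.lt_floor_add_one ((B : ℝ) ^ c * y r)
  rw [mul_sub] at h1 h2
  have g1 : (⌊(B : ℝ) ^ c * y' r⌋ : ℝ) < ⌊(B : ℝ) ^ c * y r⌋ + 2 := by linarith
  have g2 : (⌊(B : ℝ) ^ c * y r⌋ : ℝ) < ⌊(B : ℝ) ^ c * y' r⌋ + 2 := by linarith
  have g3 : ⌊(B : ℝ) ^ c * y' r⌋ < ⌊(B : ℝ) ^ c * y r⌋ + 2 := by exact_mod_cast g1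
  have g4 : ⌊(B : ℝ) ^ c * y r⌋ < ⌊(B : ℝ) ^ c * y' r⌋ + 2 := by exact_mod_cast g2
  rw [abs_le]
  omega

/-- shifting `z` by one period translates the cells of level `q` by `B^q` -/
theorem Xc_period {Ω : Type*} {b B q N : ℕ} (hB : 0 < B) (hN : 0 < N) (z : Fin b → ℤ) (j : Fin b)
    (x : Ω → Fin b → ℝ) (ω : Ω) :
    Xc B q (sh N (z + Pi.single j (N : ℤ))) x ω =
      Xc B q (sh N z) x ω + Pi.single j ((B : ℤ) ^ q) := by
  have hN' : (N : ℝ) ≠ 0 := by positivity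
  funext r
  simp only [Xc, sh, Pi.add_apply]
  by_cases h : r = j
  · subst h
    rw [Pi.single_eq_same, Pi.single_eq_same]
    have h1 : (B : ℝ) ^ q * (x ω r + ((z r + (N : ℤ) : ℤ) : ℝ) / N) =
        (B : ℝ) ^ q * (x ω r + (z r : ℝ) / N) + (((B : ℤ) ^ q : ℤ) : ℝ) := by
      push_cast
      field_simp
      ring
    rw [h1, Int.floor_add_intCast]
  · rw [Pi.single_eq_of_ne h, Pi.single_eq_of_ne h]
    simp

end STK
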