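import Pool.Agent.Lib.MP_ac5134_an.STK.KLow
import Pool.Agent.Lib.MP_ac5134_an.STK.KAvgEx
import Pool.Agent.Lib.MP_ac5134_an.STK.KZ

/-!
# STK-KExc: the average of the excess of the coarse cells at the nodes (paper (3.3), second part)

`h2q` is the quantity bounded by `h2` in the hypothesis (H2) of the core lemma, at the node of level `i` of
`ω`, with `c = i + n`, `q = c + D`, `V = W_{c + s0}`.

`exc_avg`.  Fix `z`.  With the towers `W k = Wc B k Y`, `X k = Xc B k (sh N z) (obs P Y)`: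
(1) `excess_avg` (`cW = d LB`, `cX = b LB`), divided by `l1`;
(2) `tres` for the shift `z` and for the shift `0` differ by `≤ b log 2` (`cent_shift` with the condition
    `(X_j, W_i)`), so `(1/l1) ∑ tres_z i (i+D) ≤ avp (nres D D) + b log 2` and
    `(1/l1) ∑ tres_z i (i+2JD) ≥ avp (nres (2JD) (2JD)) - b log 2`;
(3) `avp (nres D D) ≤ Ab D LB + π d D LB` (`nres_le` on the bad event), `avp (nres (2JD)(2JD)) ≥ A 2JD LB`;
(4) `tA (i+n) (i+n) (i+n+D) ≤ d LB s0 + cent p X_q^z (W (i+n+s0))` (`tA_self_le`), and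
    `cent p X_q^z (W ..) ≤ cent p X_q^0 (W ..) + b log 2` (`cent_shift_left`);
(5) `avp (cent (nd i ω) X_q^0 W_{c+s0}) = avl (cent p X_q^0 (W_{c+s0}, W_i)) = avl (cent p X_q^0 W_{c+s0})`.
Averaging over `z` (the bound does not depend on `z`; exchange `avz` and `avp`).
`h2q_ge`: for a system of level `i`: `cent X_q^z X_c^z ≥ cent X_q^z (X_c^z, V) ≥ cent X_q^z V - cent X_c^z V`,
`cent X_c^z V ≤ cent X_c^z W_c ≤ b log (2 C1 + 5)` (`LipX.cent_le`, `C1 = 2 d M C0`), `cent_shift_left`.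
-/

namespace STK
open Finset RFold Pool.Agent.MPac5134.SD

variable {Ω : Type} [Fintype Ω]

/-- the quantity of (H2) at the node of level `i` of `ω` -/
noncomputable def h2q (B : ℕ) {b d : ℕ} (p : Ω → ℝ) (Y : Ω → Co d → ℝ)
    (P : Matrix (Fin b) (Co d) ℝ) (N n D s0 i : ℕ) (ω : Ω) : ℝ :=
  avz N (fun z => cent (nd B p Y i ω) (Xc B (i + n + D) (sh N z) (obs P Y))
      (Xc B (i + n) (sh N z) (obs P Y))) -
    cent (nd B p Y i ω) (Xc B (i + n + D) 0 (obs P Y)) (Wc B (i + n + s0) Y)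

theorem h2q_ge {B b d : ℕ} (hB : 2 ≤ B) {C0 M : ℝ} (hC0 : 0 ≤ C0) (hM : 0 ≤ M) {i0 : ℕ}
    {p : Ω → ℝ} {Y : Ω → Co d → ℝ} (hsys : IsSys B d C0 i0 p Y) {P : Matrix (Fin b) (Co d) ℝ}
    (hP : ∀ r c, |P r c| ≤ M) {N : ℕ} (hN : 0 < N) (n D s0 : ℕ) {i : ℕ} (hi : i0 ≤ i) {ω : Ω}
    (h0 : p ω ≠ 0) :
    -(b * Real.log 2 + b * Real.log (2 * (2 * d * M * C0) + 5)) ≤ h2q B p Y P N n D s0 i ω := by
  have hB0 : 0 < B := by omega
  have hnode := hsys.node hi h0
  have hp' := hnode.pr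
  have hlip := hnode.lipX hC0 P hP
  have hC1 : (0 : ℝ) ≤ 2 * d * M * C0 := by positivity
  have hnest := nest_W hB0 (fib p (Wc B i Y) ω) Y
  have key : ∀ z : Fin b → ℤ,
      cent (nd B p Y i ω) (Xc B (i + n + D) 0 (obs P Y)) (Wc B (i + n + s0) Y) -
        (b * Real.log 2 + b * Real.log (2 * (2 * d * M * C0) + 5)) ≤
      cent (nd B p Y i ω) (Xc B (i + n + D) (sh N z) (obs P Y))
        (Xc B (i + n) (sh N z) (obs P Y)) := by
    intro z
    have s1 := cent_shift_left (B := B) hp' (q := i + n + D) 0 (sh N z) (obs P Y)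
      (Wc B (i + n + s0) Y)
    have s2 : cent (nd B p Y i ω) (Xc B (i + n + D) (sh N z) (obs P Y)) (Wc B (i + n + s0) Y) ≤
        cent (nd B p Y i ω) (fun ω => (Xc B (i + n) (sh N z) (obs P Y) ω,
          Xc B (i + n + D) (sh N z) (obs P Y) ω)) (Wc B (i + n + s0) Y) :=
      cent_mono hp' (Det.fst (Det.snd (Det.refl _))) (Det.refl _)
    have s3 := cent_chain hp' (Xc B (i + n) (sh N z) (obs P Y))
      (Xc B (i + n + D) (sh N z) (obs P Y)) (Wc B (i + n + s0) Y)
    have s4 : cent (nd B p Y i ω) (Xc B (i + n + D) (sh N z) (obs P Y))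
        (fun ω => (Xc B (i + n) (sh N z) (obs P Y) ω, Wc B (i + n + s0) Y ω)) ≤
        cent (nd B p Y i ω) (Xc B (i + n + D) (sh N z) (obs P Y))
        (Xc B (i + n) (sh N z) (obs P Y)) := cent_anti hp' _ (Det.fst (Det.refl _))
    have s5 : cent (nd B p Y i ω) (Xc B (i + n) (sh N z) (obs P Y)) (Wc B (i + n + s0) Y) ≤
        cent (nd B p Y i ω) (Xc B (i + n) (sh N z) (obs P Y)) (Wc B (i + n) Y) :=
      cent_anti hp' _ (hnest.det (Nat.le_add_right (i + n) s0))
    have s6 := LipX.cent_le hB0 hp' hlip hC1 (Nat.le_add_right i n) (sh N z)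
    linarith
  have h1 := avz_mono (N := N) key
  rw [avz_const hN] at h1
  unfold h2q
  linarith

/-- exchange of the averages -/
theorem avp_avz {b N : ℕ} (p : Ω → ℝ) (i0 l1 : ℕ) (F : (Fin b → ℤ) → ℕ → Ω → ℝ) :
    avp p i0 l1 (fun i ω => avz N (fun z => F z i ω)) = avz N (fun z => avp p i0 l1 (F z)) := by
  unfold avp avl avz
  have h : ∀ i ω, p ω * ((∑ z ∈ Zb b N, F z i ω) / (N : ℝ) ^ b) =
      (∑ z ∈ Zb b N, p ω * F z i ω) / (N : ℝ) ^ b := by
    intro i ω
    rw [← mul_div_assoc, Finset.mul_sum]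
  simp_rw [h, ← Finset.sum_div]
  rw [div_right_comm]
  congr 2
  have h2 : ∀ i, ∑ ω, ∑ z ∈ Zb b N, p ω * F z i ω = ∑ z ∈ Zb b N, ∑ ω, p ω * F z i ω :=
    fun i => Finset.sum_comm
  simp_rw [h2]
  exact Finset.sum_comm

theorem nres_up {B b d : ℕ} (hB : 2 ≤ B) {C0 : ℝ} {i0 : ℕ} {p : Ω → ℝ} {Y : Ω → Co d → ℝ}
    (hsys : IsSys B d C0 i0 p Y) (P : Matrix (Fin b) (Co d) ℝ)
    {l1 D : ℕ} (hl1 : 0 < l1) {Ab π : ℝ} (hAb : 0 ≤ Ab)
    (hup : prl p i0 l1 (fun i ω => Ab * D * Real.log B ≤ nres B p Y P D D i ω) ≤ π) :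
    avp p i0 l1 (nres B p Y P D D) ≤ (Ab + d * π) * (D * Real.log B) := by
  classical
  have hp := hsys.pr
  have hLB : 0 ≤ Real.log B := Real.log_natCast_nonneg B
  have hDLB : 0 ≤ (D : ℝ) * Real.log B := mul_nonneg (Nat.cast_nonneg _) hLB
  have h1 : avp p i0 l1 (nres B p Y P D D) ≤ avp p i0 l1 (fun i ω => Ab * (D * Real.log B) +
      (d * (D * Real.log B)) *
        (if Ab * D * Real.log B ≤ nres B p Y P D D i ω then (1 : ℝ) else 0)) := by
    refine avp_mono hp fun i hi _ ω hω => ?_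
    by_cases h : Ab * D * Real.log B ≤ nres B p Y P D D i ω
    · rw [if_pos h]
      have h2 := nres_le (by omega : 1 ≤ B) hsys P D D hi hω
      have h3 : 0 ≤ Ab * (D * Real.log B) := mul_nonneg hAb hDLB
      linarith
    · rw [if_neg h]
      push Not at h
      have e : Ab * D * Real.log B = Ab * (D * Real.log B) := by ring
      linarith
  rw [avp_add, avp_const hp hl1, avp_mul, avp_ite] at h1
  have h4 : d * (D * Real.log B) * prl p i0 l1
      (fun i ω => Ab * D * Real.log B ≤ nres B p Y P D D i ω) ≤ d * (D * Real.log B) * π :=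
    mul_le_mul_of_nonneg_left hup (mul_nonneg (Nat.cast_nonneg _) hDLB)
  calc avp p i0 l1 (nres B p Y P D D) ≤ _ := h1
    _ ≤ Ab * (D * Real.log B) + d * (D * Real.log B) * π := by linarith
    _ = (Ab + d * π) * (D * Real.log B) := by ring

theorem exc_avg {B b d : ℕ} (hB : 2 ≤ B) {C0 : ℝ} {i0 : ℕ} {p : Ω → ℝ} {Y : Ω → Co d → ℝ}
    (hsys : IsSys B d C0 i0 p Y) (P : Matrix (Fin b) (Co d) ℝ) {N : ℕ} (hN : 0 < N)
    {l1 n D J s0 : ℕ} (hl1 : 0 < l1) (hD : 1 ≤ D) (hJ : 1 ≤ J) (hn : n ≤ J * D) {A Ab π : ℝ}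
    (hAb : 0 ≤ Ab)
    (hlow : A * (2 * J * D : ℕ) * Real.log B ≤ avp p i0 l1 (nres B p Y P (2 * J * D) (2 * J * D)))
    (hup : prl p i0 l1 (fun i ω => Ab * D * Real.log B ≤ nres B p Y P D D i ω) ≤ π) :
    avp p i0 l1 (h2q B p Y P N n D s0) ≤
      2 * (Ab + d * π - A) * (D * Real.log B) + 4 * (b * Real.log 2) + d * Real.log B * s0 +
        9 * J * D * D * (d * Real.log B + b * Real.log B) / l1 := by
  have hB0 : 0 < B := by omega
  have hp := hsys.pr
  have hLB : 0 ≤ Real.log B := Real.log_natCast_nonneg B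
  have hl1' : (0 : ℝ) < l1 := by exact_mod_cast hl1
  have hJ' : (0 : ℝ) < J := by exact_mod_cast hJ
  have hJ1 : (1 : ℝ) ≤ J := by exact_mod_cast hJ
  have hW := nest_W hB0 p Y
  have hL2 : 0 ≤ b * Real.log 2 := mul_nonneg (Nat.cast_nonneg _) (Real.log_nonneg (by norm_num))
  have hnup := nres_up hB hsys P hl1 hAb hup
  -- the second term of `h2q`
  have e2 : avp p i0 l1 (fun i ω => cent (nd B p Y i ω) (Xc B (i + n + D) 0 (obs P Y))
      (Wc B (i + n + s0) Y)) =
      avl i0 l1 (fun i => cent p (Xc B (i + n + D) 0 (obs P Y)) (Wc B (i + n + s0) Y)) := by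
    rw [avp_cent hp]
    unfold avl
    congr 1
    refine Finset.sum_congr rfl fun i _ => ?_
    exact cent_congr hp (Det.fst (Det.refl _))
      (Det.pair (Det.refl _) (hW.det (by omega)))
      (Det.fst (Det.refl _)) (Det.fst (Det.refl _))
  have e1 : avp p i0 l1 (h2q B p Y P N n D s0) =
      avz N (fun z => avp p i0 l1 (fun i ω => cent (nd B p Y i ω)
        (Xc B (i + n + D) (sh N z) (obs P Y)) (Xc B (i + n) (sh N z) (obs P Y)))) -
      avl i0 l1 (fun i => cent p (Xc B (i + n + D) 0 (obs P Y)) (Wc B (i + n + s0) Y)) := by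
    rw [← e2, ← avp_avz]
    have h := avp_add (p := p) (i0 := i0) (l1 := l1)
      (fun i ω => avz N (fun z => cent (nd B p Y i ω)
        (Xc B (i + n + D) (sh N z) (obs P Y)) (Xc B (i + n) (sh N z) (obs P Y))))
      (fun i ω => (-1) * cent (nd B p Y i ω) (Xc B (i + n + D) 0 (obs P Y))
      (Wc B (i + n + s0) Y))
    rw [avp_mul] at h
    have h' : avp p i0 l1 (h2q B p Y P N n D s0) = avp p i0 l1 (fun i ω =>
        avz N (fun z => cent (nd B p Y i ω)
        (Xc B (i + n + D) (sh N z) (obs P Y)) (Xc B (i + n) (sh N z) (obs P Y))) +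
        (-1) * cent (nd B p Y i ω) (Xc B (i + n + D) 0 (obs P Y))
      (Wc B (i + n + s0) Y)) := by
      congr 1
      funext i ω
      unfold h2q
      ring
    rw [h', h]
    ring
  rw [e1]
  set T : ℝ := avl i0 l1 (fun i => cent p (Xc B (i + n + D) 0 (obs P Y)) (Wc B (i + n + s0) Y))
    with hT
  set Bd : ℝ := 2 * (Ab + d * π - A) * (D * Real.log B) + 4 * (b * Real.log 2) +
    d * Real.log B * s0 + 9 * J * D * D * (d * Real.log B + b * Real.log B) / l1 with hBd
  have key : ∀ z : Fin b → ℤ, avp p i0 l1 (fun i ω => cent (nd B p Y i ω)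
        (Xc B (i + n + D) (sh N z) (obs P Y)) (Xc B (i + n) (sh N z) (obs P Y))) ≤ T + Bd := by
    intro z
    have hX := nest_X hB0 p (sh N z) (obs P Y)
    have e3 : avp p i0 l1 (fun i ω => cent (nd B p Y i ω)
        (Xc B (i + n + D) (sh N z) (obs P Y)) (Xc B (i + n) (sh N z) (obs P Y))) =
        avl i0 l1 (fun i => tA p (fun k => Wc B k Y) (fun k => Xc B k (sh N z) (obs P Y))
          i (i + n) (i + n + D)) := by
      rw [avp_cent hp]
      rfl
    have x1 := excess_avg hp hW hX (cW := d * Real.log B) (cX := b * Real.log B)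
      (mul_nonneg (Nat.cast_nonneg _) hLB) (mul_nonneg (Nat.cast_nonneg _) hLB)
      (cW_le hB0 hp Y) (cX_le hB0 hp (sh N z) (obs P Y)) i0 l1 hJ hD hn
    have x2 : ∀ i, tres p (fun k => Wc B k Y) (fun k => Xc B k (sh N z) (obs P Y)) i (i + D) ≤
        tdeep p (fun k => Wc B k Y) (fun k => Xc B k 0 (obs P Y)) i (i + D) (i + D) +
          b * Real.log 2 := fun i =>
      cent_shift hp (sh N z) 0 (obs P Y) (Wc B (i + D) Y) (Wc B i Y)
    have x3 : ∀ i, tdeep p (fun k => Wc B k Y) (fun k => Xc B k 0 (obs P Y)) i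
        (i + 2 * J * D) (i + 2 * J * D) ≤
        tres p (fun k => Wc B k Y) (fun k => Xc B k (sh N z) (obs P Y)) i (i + 2 * J * D) +
          b * Real.log 2 := fun i =>
      cent_shift hp 0 (sh N z) (obs P Y) (Wc B (i + 2 * J * D) Y) (Wc B i Y)
    have x4 : ∀ i, tA p (fun k => Wc B k Y) (fun k => Xc B k (sh N z) (obs P Y))
        (i + n) (i + n) (i + n + D) ≤ d * Real.log B * s0 +
          (cent p (Xc B (i + n + D) 0 (obs P Y)) (Wc B (i + n + s0) Y) + b * Real.log 2) := by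
      intro i
      have y1 := tA_self_le (X := fun k => Xc B k (sh N z) (obs P Y)) hp hW (cW_le hB0 hp Y)
        (i + n) (i + n + D) s0
      have y2 := cent_shift_left (B := B) hp (q := i + n + D) (sh N z) 0 (obs P Y)
        (Wc B (i + n + s0) Y)
      linarith
    -- sums
    have z2 : ∑ i ∈ range l1, tres p (fun k => Wc B k Y) (fun k => Xc B k (sh N z) (obs P Y))
        (i0 + i) (i0 + i + D) ≤ ∑ i ∈ range l1, tdeep p (fun k => Wc B k Y)
          (fun k => Xc B k 0 (obs P Y)) (i0 + i) (i0 + i + D) (i0 + i + D) +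
          l1 * (b * Real.log 2) := by
      refine (Finset.sum_le_sum fun i _ => x2 (i0 + i)).trans (le_of_eq ?_)
      rw [Finset.sum_add_distrib, Finset.sum_const, card_range, nsmul_eq_mul]
    have z3 : ∑ i ∈ range l1, tdeep p (fun k => Wc B k Y) (fun k => Xc B k 0 (obs P Y)) (i0 + i)
        (i0 + i + 2 * J * D) (i0 + i + 2 * J * D) ≤
        ∑ i ∈ range l1, tres p (fun k => Wc B k Y) (fun k => Xc B k (sh N z) (obs P Y))
          (i0 + i) (i0 + i + 2 * J * D) + l1 * (b * Real.log 2) := by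
      refine (Finset.sum_le_sum fun i _ => x3 (i0 + i)).trans (le_of_eq ?_)
      rw [Finset.sum_add_distrib, Finset.sum_const, card_range, nsmul_eq_mul]
    have z4 : ∑ i ∈ range l1, tA p (fun k => Wc B k Y) (fun k => Xc B k (sh N z) (obs P Y))
        (i0 + i + n) (i0 + i + n) (i0 + i + n + D) ≤ l1 * (d * Real.log B * s0) +
          (l1 * T + l1 * (b * Real.log 2)) := by
      refine (Finset.sum_le_sum fun i _ => x4 (i0 + i)).trans (le_of_eq ?_)
      rw [Finset.sum_add_distrib, Finset.sum_add_distrib, Finset.sum_const, Finset.sum_const,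
        card_range, nsmul_eq_mul, nsmul_eq_mul, hT, avl]
      field_simp
    have a1 := nres_avg (B := B) hp Y P i0 l1 D D
    have a2 := nres_avg (B := B) hp Y P i0 l1 (2 * J * D) (2 * J * D)
    rw [a1] at hnup
    rw [a2] at hlow
    unfold avl at hnup hlow
    rw [div_le_iff₀ hl1'] at hnup
    rw [le_div_iff₀ hl1'] at hlow
    have ea : ∀ i : ℕ, i + 2 * J * D = i + (2 * J * D) := fun i => rfl
    rw [Finset.sum_sub_distrib] at x1
    rw [e3]
    unfold avl
    rw [div_le_iff₀ hl1']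
    -- division by `J`
    have q1 : (A * ((2 * J * D : ℕ) : ℝ) * Real.log B * l1 - l1 * (b * Real.log 2)) / J ≤
        (∑ i ∈ range l1, tres p (fun k => Wc B k Y) (fun k => Xc B k (sh N z) (obs P Y))
          (i0 + i) (i0 + i + 2 * J * D)) / J := by
      apply div_le_div_of_nonneg_right _ hJ'.le
      linarith
    have q2 : (A * ((2 * J * D : ℕ) : ℝ) * Real.log B * l1 - l1 * (b * Real.log 2)) / J =
        2 * A * (D * Real.log B) * l1 - l1 * (b * Real.log 2) / J := by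
      push_cast
      field_simp
    have q3 : l1 * (b * Real.log 2) / J ≤ l1 * (b * Real.log 2) :=
      div_le_self (mul_nonneg hl1'.le hL2) hJ1
    have q4 : (T + Bd) * l1 = T * l1 + 2 * (Ab + d * π - A) * (D * Real.log B) * l1 +
        4 * (b * Real.log 2) * l1 + d * Real.log B * s0 * l1 +
        9 * J * D * D * (d * Real.log B + b * Real.log B) := by
      rw [hBd]
      field_simp
      ring
    rw [q4]
    linarith
  have h1 := avz_mono (N := N) key
  rw [avz_const hN] at h1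
  linarith

end STK
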