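import Pool.Agent.Lib.MP_ac5134_an.STK.KTower

/-!
# STK-KAvgPer: persistence from the monotonicity of the local entropies

`a n = ∑_{i<l1} tA (i0+i) (i0+i+n) (i0+i+n+D)`.  `tA_anti` gives
`tA (i+1) (i+1+n) (i+1+n+D) ≤ tA i (i+n+1) (i+n+1+D)`, so `a n ≤ a (n+1) + cX D` (shift of the sum by one).
`tMI` with `a = i+n`, `b = i+n+D` and `∑_{i<l1} tA (i+u) (i+n) (i+n+D) ≥ a (n-u) - u cX D`.
-/

namespace STK
open Finset RFold
variable {Ω : Type*} [Fintype Ω] {γ δ : Type*}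

/-- the sum of the local entropies at relative depth `n` -/
noncomputable def aSum (p : Ω → ℝ) (W : ℕ → Ω → γ) (X : ℕ → Ω → δ) (i0 l1 D n : ℕ) : ℝ :=
  ∑ i ∈ range l1, tA p W X (i0 + i) (i0 + i + n) (i0 + i + n + D)

variable {p : Ω → ℝ} {W : ℕ → Ω → γ} {X : ℕ → Ω → δ}

theorem aSum_nonneg (hp : IsPr p) (i0 l1 D n : ℕ) : 0 ≤ aSum p W X i0 l1 D n :=
  sum_nonneg fun _ _ => tA_nonneg hp _ _ _

private theorem tA_leD (hp : IsPr p) (hX : Nest p X) {cX : ℝ}
    (hcX : ∀ k, cent p (X (k + 1)) (X k) ≤ cX) (i a D : ℕ) : tA p W X i a (a + D) ≤ cX * D := by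
  have h := tA_le (W := W) hp hX hcX i (Nat.le_add_right a D)
  have e : (((a + D : ℕ) : ℝ) - (a : ℝ)) = D := by push_cast; ring
  rwa [e] at h

theorem aSum_le (hp : IsPr p) (hX : Nest p X) {cX : ℝ} (hcX : ∀ k, cent p (X (k + 1)) (X k) ≤ cX)
    (i0 l1 D n : ℕ) : aSum p W X i0 l1 D n ≤ l1 * (cX * D) := by
  unfold aSum
  refine (sum_le_sum fun i _ => tA_leD hp hX hcX (i0 + i) (i0 + i + n) D).trans (le_of_eq ?_)
  rw [sum_const, card_range, nsmul_eq_mul]

private theorem aSum_step (hp : IsPr p) (hW : Nest p W) (hX : Nest p X) {cX : ℝ} (h1 : 0 ≤ cX)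
    (hcX : ∀ k, cent p (X (k + 1)) (X k) ≤ cX) (i0 l1 D n : ℕ) :
    aSum p W X i0 l1 D n ≤ aSum p W X i0 l1 D (n + 1) + cX * D := by
  have h0 : 0 ≤ cX * (D : ℝ) := mul_nonneg h1 (Nat.cast_nonneg _)
  cases l1 with
  | zero =>
    unfold aSum
    simpa using h0
  | succ l =>
    unfold aSum
    rw [sum_range_succ', sum_range_succ]
    have hA : ∀ i, tA p W X (i0 + (i + 1)) (i0 + (i + 1) + n) (i0 + (i + 1) + n + D) ≤
        tA p W X (i0 + i) (i0 + i + (n + 1)) (i0 + i + (n + 1) + D) := by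
      intro i
      have e1 : i0 + (i + 1) + n = i0 + i + (n + 1) := by omega
      rw [e1]
      exact tA_anti hp hW (by omega) _ _
    have hB := tA_leD (W := W) hp hX hcX (i0 + 0) (i0 + 0 + n) D
    have hC := tA_nonneg (W := W) (X := X) hp (i0 + l) (i0 + l + (n + 1)) (i0 + l + (n + 1) + D)
    have hS := sum_le_sum fun i (_ : i ∈ range l) => hA i
    linarith

theorem aSum_mono (hp : IsPr p) (hW : Nest p W) (hX : Nest p X) {cX : ℝ} (h1 : 0 ≤ cX)
    (hcX : ∀ k, cent p (X (k + 1)) (X k) ≤ cX) (i0 l1 D : ℕ) {n n' : ℕ} (h : n ≤ n') :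
    aSum p W X i0 l1 D n ≤ aSum p W X i0 l1 D n' + (n' - n : ℕ) * (cX * D) := by
  induction n', h using Nat.le_induction with
  | base => simp
  | succ k hk ih =>
    have h2 := aSum_step hp hW hX h1 hcX i0 l1 D k
    have e : ((k + 1 - n : ℕ) : ℝ) = (k - n : ℕ) + 1 := by
      rw [Nat.sub_add_comm hk]
      push_cast
      ring
    rw [e]
    linarith

theorem pers_sum (hp : IsPr p) (hW : Nest p W) (hX : Nest p X) {cX : ℝ} (h1 : 0 ≤ cX)
    (hcX : ∀ k, cent p (X (k + 1)) (X k) ≤ cX) (i0 l1 D : ℕ) {u t n T : ℕ} (hut : u ≤ t)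
    (htn : t ≤ n) (hnT : n ≤ T) :
    ∑ i ∈ range l1, (tdeep p W X (i0 + i) (i0 + i + u) (i0 + i + n) -
        tdeep p W X (i0 + i) (i0 + i + u) (i0 + i + n + D)) ≤
      aSum p W X i0 l1 D T - aSum p W X i0 l1 D (t - u) + (T - t + u : ℕ) * (cX * D) := by
  have hmi : ∀ i, tdeep p W X (i0 + i) (i0 + i + u) (i0 + i + n) -
      tdeep p W X (i0 + i) (i0 + i + u) (i0 + i + n + D) =
      tA p W X (i0 + i) (i0 + i + n) (i0 + i + n + D) -
        tA p W X (i0 + (i + u)) (i0 + (i + u) + (n - u)) (i0 + (i + u) + (n - u) + D) := by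
    intro i
    have e1 : i0 + (i + u) = i0 + i + u := by omega
    have e2 : i0 + i + u + (n - u) = i0 + i + n := by omega
    rw [e1, e2]
    exact (tMI hp hW hX (i0 + i) u (Nat.le_add_right _ D)).symm
  rw [sum_congr rfl fun i _ => hmi i, sum_sub_distrib]
  set f : ℕ → ℝ := fun j => tA p W X (i0 + j) (i0 + j + (n - u)) (i0 + j + (n - u) + D) with hf
  have hsh : aSum p W X i0 l1 D (n - u) - u * (cX * D) ≤ ∑ i ∈ range l1, f (i + u) := by
    have e1 : ∑ i ∈ range l1, f (i + u) + ∑ i ∈ range u, f i = ∑ i ∈ range (u + l1), f i := by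
      rw [sum_range_add, add_comm]
      congr 1
      exact sum_congr rfl fun i _ => by rw [add_comm]
    have e2 : ∑ i ∈ range l1, f i ≤ ∑ i ∈ range (u + l1), f i :=
      sum_le_sum_of_subset_of_nonneg (range_mono (by omega)) fun i _ _ => tA_nonneg hp _ _ _
    have e3 : ∑ i ∈ range u, f i ≤ u * (cX * D) := by
      refine (sum_le_sum fun i _ => tA_leD (W := W) hp hX hcX (i0 + i) (i0 + i + (n - u)) D).trans
        (le_of_eq ?_)
      rw [sum_const, card_range, nsmul_eq_mul]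
    have e4 : aSum p W X i0 l1 D (n - u) = ∑ i ∈ range l1, f i := rfl
    linarith
  have ha := aSum_mono hp hW hX h1 hcX i0 l1 D hnT
  have hb := aSum_mono hp hW hX h1 hcX i0 l1 D (Nat.sub_le_sub_right htn u)
  have e5 : (n - u - (t - u) : ℕ) = n - t := by omega
  rw [e5] at hb
  have e6 : ((T - t + u : ℕ) : ℝ) = (T - n : ℕ) + (n - t : ℕ) + u := by
    have : T - t + u = (T - n) + (n - t) + u := by omega
    rw [this]
    push_cast
    ring
  rw [e6]
  have e7 : ∑ i ∈ range l1, tA p W X (i0 + i) (i0 + i + n) (i0 + i + n + D) =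
    aSum p W X i0 l1 D n := rfl
  rw [e7]
  have e8 : ∑ i ∈ range l1, tA p W X (i0 + (i + u)) (i0 + (i + u) + (n - u))
    (i0 + (i + u) + (n - u) + D) = ∑ i ∈ range l1, f (i + u) := rfl
  rw [e8]
  nlinarith [ha, hb, hsh]

/-- pigeonhole over the ranges `[t r, T r]` for an averaged monotone quantity -/
theorem range_pigeon {a : ℕ → ℝ} {A0 e : ℝ} (he : 0 ≤ e) (ha0 : ∀ n, 0 ≤ a n) (haA : ∀ n, a n ≤ A0)
    (hm : ∀ n n', n ≤ n' → a n ≤ a n' + (n' - n : ℕ) * e) {u : ℕ} {t T : ℕ → ℕ}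
    (htT : ∀ r, t r ≤ T r) (hut : ∀ r, u ≤ t r) (hnext : ∀ r, T r + u ≤ t (r + 1)) {R0 : ℕ}
    (hR : 0 < R0) : ∃ r < R0, (a (T r) - a (t r - u)) * R0 ≤ A0 + T R0 * e := by
  by_contra hcon
  push Not at hcon
  have hRR : (0 : ℝ) < R0 := by exact_mod_cast hR
  have hstep : ∀ r, a (T r) - a (t r - u) ≤
      (a (t (r + 1) - u) + t (r + 1) * e) - (a (t r - u) + t r * e) := by
    intro r
    have h1 := hm (T r) (t (r + 1) - u) (by have := hnext r; omega)
    have h2 : ((t (r + 1) - u - T r : ℕ) : ℝ) ≤ (t (r + 1) : ℝ) - t r := by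
      have h3 : t (r + 1) - u - T r + t r ≤ t (r + 1) := by
        have := hnext r; have := htT r; omega
      have h4 : ((t (r + 1) - u - T r : ℕ) : ℝ) + t r ≤ t (r + 1) := by exact_mod_cast h3
      linarith
    have h5 := mul_le_mul_of_nonneg_right h2 he
    linarith
  have hsum : ∑ r ∈ range R0, (a (T r) - a (t r - u)) ≤ A0 + T R0 * e := by
    refine (sum_le_sum fun r _ => hstep r).trans ?_
    rw [sum_range_sub (fun r => a (t r - u) + t r * e)]
    have h1 := haA (t R0 - u)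
    have h2 := ha0 (t 0 - u)
    have h3 : (t R0 : ℝ) * e ≤ T R0 * e :=
      mul_le_mul_of_nonneg_right (by exact_mod_cast htT R0) he
    have h4 : 0 ≤ (t 0 : ℝ) * e := mul_nonneg (Nat.cast_nonneg _) he
    linarith
  have hlt : ∑ r ∈ range R0, (A0 + T R0 * e) < ∑ r ∈ range R0, (a (T r) - a (t r - u)) * R0 :=
    sum_lt_sum_of_nonempty ⟨0, mem_range.2 hR⟩ fun r hr => hcon r (mem_range.1 hr)
  rw [sum_const, card_range, nsmul_eq_mul, ← sum_mul] at hlt
  have := mul_le_mul_of_nonneg_right hsum hRR.le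
  linarith

end STK
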