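import Pool.Agent.Lib.MP_ac5134_an.STK.KLow
import Pool.Agent.Lib.MP_ac5134_an.STK.KAvgPer
import Pool.Agent.Lib.MP_ac5134_an.STK.KZ

/-!
# STK-KPersN: persistence at the nodes (paper (3.4))

`h1q` is the quantity bounded by `ε0` in the hypothesis (H1) of the core lemma, at the node of level `i` of
`ω`, with `c = i + n`, `q = c + D`, `E = W_{i+u}`.

`pers_step`: for `h` let `a_h n = avz N (fun z => aSum p W X^z i0 l1 D n)` with `X^z k = Xc B k (sh N z) (obs (P h) Y)`,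
and `a n = ∑_h σ h 1_S(h) a_h n`.  By `aSum_nonneg`, `aSum_le`, `aSum_mono` (`cX = b LB`, `e = b LB D`):
`0 ≤ a n ≤ l1 b LB D`, `a n ≤ a n' + (n' - n) e`; `range_pigeon` gives `r < R0` with
`(a (T r) - a (t r - u)) R0 ≤ l1 b LB D + T R0 * e`.
`pers_sum` (average over `z`, `avp_cent`): `l1 * avp (h1q (P h) u n D) ≤ Δ_h := a_h (T r) - a_h (t r - u) +
(T r - t r + u) e` for `t r ≤ n ≤ T r`, and `Δ_h ≥ 0` (`aSum_mono`).  `hts_markov` for `Δ_h` with the bound
`l1 e1`: `l1 e1 pr σ (..) ≤ ∑ σ 1_S Δ_h ≤ (l1 b LB D + T R0 e)/R0 + (T r - t r + u) e`, and `T r ≤ T R0`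
(`htT`, `hnext`), `T r - t r + u ≤ T R0` (`u ≤ t r`).
-/

namespace STK
open Finset RFold Pool.Agent.MPac5134.SD

variable {Ω : Type} [Fintype Ω]

/-- the quantity of (H1) at the node of level `i` of `ω` -/
noncomputable def h1q (B : ℕ) {b d : ℕ} (p : Ω → ℝ) (Y : Ω → Co d → ℝ)
    (P : Matrix (Fin b) (Co d) ℝ) (N u n D i : ℕ) (ω : Ω) : ℝ :=
  avz N (fun z => cent (nd B p Y i ω) (Wc B (i + u) Y) (Xc B (i + n) (sh N z) (obs P Y)) -
    cent (nd B p Y i ω) (Wc B (i + u) Y) (Xc B (i + n + D) (sh N z) (obs P Y)))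

theorem h1q_nonneg {B b d : ℕ} (hB : 0 < B) {p : Ω → ℝ} (hp : IsPr p) (Y : Ω → Co d → ℝ)
    (P : Matrix (Fin b) (Co d) ℝ) (N u n D i : ℕ) (ω : Ω) : 0 ≤ h1q B p Y P N u n D i ω := by
  unfold h1q avz
  refine div_nonneg (Finset.sum_nonneg fun z _ => ?_) (by positivity)
  have hq : IsPr (nd B p Y i ω) := isPr_fib hp _ _
  have h := cent_anti hq (Wc B (i + u) Y)
    ((nest_X hB (nd B p Y i ω) (sh N z) (obs P Y)).det (Nat.le_add_right (i + n) D))
  linarith

/-- the averaged sum of the local entropies of the observable `P Y` -/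
private noncomputable def aH (B : ℕ) {b d : ℕ} (p : Ω → ℝ) (Y : Ω → Co d → ℝ)
    (P : Matrix (Fin b) (Co d) ℝ) (N i0 l1 D n : ℕ) : ℝ :=
  avz N (fun z => aSum p (fun k => Wc B k Y) (fun k => Xc B k (sh N z) (obs P Y)) i0 l1 D n)

private theorem aH_nonneg {B b d : ℕ} {p : Ω → ℝ} (hp : IsPr p) (Y : Ω → Co d → ℝ)
    (P : Matrix (Fin b) (Co d) ℝ) (N i0 l1 D n : ℕ) : 0 ≤ aH B p Y P N i0 l1 D n := by
  unfold aH avz
  exact div_nonneg (Finset.sum_nonneg fun z _ => aSum_nonneg hp _ _ _ _) (by positivity)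

private theorem aH_le {B b d : ℕ} (hB : 0 < B) {p : Ω → ℝ} (hp : IsPr p) (Y : Ω → Co d → ℝ)
    (P : Matrix (Fin b) (Co d) ℝ) {N : ℕ} (hN : 0 < N) (i0 l1 D n : ℕ) :
    aH B p Y P N i0 l1 D n ≤ l1 * (b * Real.log B * D) := by
  unfold aH
  refine (avz_mono (H := fun _ => l1 * (b * Real.log B * D)) fun z => ?_).trans
    (avz_const hN _).le
  exact aSum_le hp (nest_X hB p _ _) (fun k => cX_le hB hp _ _ k) _ _ _ _

private theorem aH_mono {B b d : ℕ} (hB : 0 < B) {p : Ω → ℝ} (hp : IsPr p) (Y : Ω → Co d → ℝ)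
    (P : Matrix (Fin b) (Co d) ℝ) {N : ℕ} (hN : 0 < N) (i0 l1 D : ℕ) {n n' : ℕ} (h : n ≤ n') :
    aH B p Y P N i0 l1 D n ≤
      aH B p Y P N i0 l1 D n' + (n' - n : ℕ) * (b * Real.log B * D) := by
  have hc : (0 : ℝ) ≤ b * Real.log B := by positivity
  unfold aH
  rw [← avz_const (b := b) hN ((n' - n : ℕ) * (b * Real.log B * D)), ← avz_add]
  exact avz_mono fun z =>
    aSum_mono hp (nest_W hB p Y) (nest_X hB p _ _) hc (fun k => cX_le hB hp _ _ k) _ _ _ h

private theorem h1q_sum {B b d : ℕ} (hB : 0 < B) {p : Ω → ℝ} (hp : IsPr p) (Y : Ω → Co d → ℝ)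
    (P : Matrix (Fin b) (Co d) ℝ) {N : ℕ} (hN : 0 < N) {i0 l1 : ℕ} (hl1 : 0 < l1) (D : ℕ)
    {u t n T : ℕ} (hut : u ≤ t) (htn : t ≤ n) (hnT : n ≤ T) :
    l1 * avp p i0 l1 (h1q B p Y P N u n D) ≤
      aH B p Y P N i0 l1 D T - aH B p Y P N i0 l1 D (t - u) +
        (T - t + u : ℕ) * (b * Real.log B * D) := by
  have hc : (0 : ℝ) ≤ b * Real.log B := by positivity
  have hl : (l1 : ℝ) ≠ 0 := by positivity
  have h1 : l1 * avp p i0 l1 (h1q B p Y P N u n D) =
      avz N (fun z : Fin b → ℤ => ∑ i ∈ range l1,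
        (tdeep p (fun k => Wc B k Y) (fun k => Xc B k (sh N z) (obs P Y)) (i0 + i) (i0 + i + u)
          (i0 + i + n) -
        tdeep p (fun k => Wc B k Y) (fun k => Xc B k (sh N z) (obs P Y)) (i0 + i) (i0 + i + u)
          (i0 + i + n + D))) := by
    rw [avz_sum]
    unfold avp avl
    rw [mul_div_cancel₀ _ hl]
    refine Finset.sum_congr rfl fun i _ => ?_
    have h2 : ∀ ω, p ω * h1q B p Y P N u n D (i0 + i) ω = avz N (fun z : Fin b → ℤ =>
        p ω * (cent (nd B p Y (i0 + i) ω) (Wc B (i0 + i + u) Y)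
            (Xc B (i0 + i + n) (sh N z) (obs P Y)) -
          cent (nd B p Y (i0 + i) ω) (Wc B (i0 + i + u) Y)
            (Xc B (i0 + i + n + D) (sh N z) (obs P Y)))) := by
      intro ω
      unfold h1q
      rw [avz_mul]
    change ∑ ω, p ω * h1q B p Y P N u n D (i0 + i) ω = _
    rw [Finset.sum_congr rfl fun ω _ => h2 ω, ← avz_sum]
    congr 1
    funext z
    simp only [mul_sub, Finset.sum_sub_distrib]
    rw [← cent_eq_fib2 hp, ← cent_eq_fib2 hp]
    rfl
  rw [h1]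
  have h3 : aH B p Y P N i0 l1 D T - aH B p Y P N i0 l1 D (t - u) +
        (T - t + u : ℕ) * (b * Real.log B * D) =
      avz N (fun z : Fin b → ℤ =>
        (aSum p (fun k => Wc B k Y) (fun k => Xc B k (sh N z) (obs P Y)) i0 l1 D T +
          (-1) * aSum p (fun k => Wc B k Y) (fun k => Xc B k (sh N z) (obs P Y)) i0 l1 D (t - u)) +
        (T - t + u : ℕ) * (b * Real.log B * D)) := by
    rw [avz_add, avz_add, avz_mul, avz_const hN]
    unfold aH
    ring
  rw [h3]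
  refine avz_mono fun z => ?_
  have h4 := pers_sum hp (nest_W hB p Y) (nest_X hB p (sh N z) (obs P Y)) hc
    (fun k => cX_le hB hp _ _ k) i0 l1 D hut htn hnT
  linarith

theorem pers_step {B b d : ℕ} (hB : 2 ≤ B) {C0 : ℝ} {i0 : ℕ} {p : Ω → ℝ} {Y : Ω → Co d → ℝ}
    (hsys : IsSys B d C0 i0 p Y) {N : ℕ} (hN : 0 < N) {H : Type} [Fintype H] {σ : H → ℝ}
    (hσ : IsPr σ) (S : H → Prop) (P : H → Matrix (Fin b) (Co d) ℝ) {l1 D u : ℕ} (hl1 : 0 < l1)
    {t T : ℕ → ℕ} (htT : ∀ r, t r ≤ T r) (hut : ∀ r, u ≤ t r) (hnext : ∀ r, T r + u ≤ t (r + 1))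
    {R0 : ℕ} (hR : 0 < R0) {e1 : ℝ} (he1 : 0 < e1) :
    ∃ r < R0, l1 * e1 * pr σ (fun h => S h ∧ ∃ n, t r ≤ n ∧ n ≤ T r ∧
        e1 < avp p i0 l1 (h1q B p Y (P h) N u n D)) ≤
      l1 * (b * Real.log B * D) / R0 + 2 * (T R0 * (b * Real.log B * D)) := by
  classical
  have hp := hsys.pr
  have hB0 : 0 < B := by omega
  have hc : (0 : ℝ) ≤ b * Real.log B := by positivity
  set e : ℝ := b * Real.log B * D with he
  have he0 : 0 ≤ e := by positivity
  set aa : H → ℕ → ℝ := fun h n => aH B p Y (P h) N i0 l1 D n with haa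
  set a : ℕ → ℝ := fun n => ∑ h, σ h * (if S h then aa h n else 0) with ha
  have haa0 : ∀ h n, 0 ≤ aa h n := fun h n => aH_nonneg hp _ _ _ _ _ _ _
  have haaA : ∀ h n, aa h n ≤ l1 * e := fun h n => aH_le hB0 hp _ _ hN _ _ _ _
  have haam : ∀ h n n', n ≤ n' → aa h n ≤ aa h n' + (n' - n : ℕ) * e :=
    fun h n n' hn => aH_mono hB0 hp _ _ hN _ _ _ hn
  have ha0 : ∀ n, 0 ≤ a n := by
    intro n
    refine Finset.sum_nonneg fun h _ => mul_nonneg (hσ.nonneg h) ?_
    split_ifs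
    · exact haa0 h n
    · exact le_rfl
  have hwt : ∀ c : ℝ, 0 ≤ c → ∑ h, σ h * (if S h then c else 0) ≤ c := by
    intro c hc0
    have h1 : ∑ h, σ h * (if S h then c else 0) ≤ ∑ h, σ h * c := by
      refine Finset.sum_le_sum fun h _ => mul_le_mul_of_nonneg_left ?_ (hσ.nonneg h)
      split_ifs
      · exact le_rfl
      · exact hc0
    rw [← Finset.sum_mul, hσ.sum_eq, one_mul] at h1
    exact h1
  have haA : ∀ n, a n ≤ l1 * e := by
    intro n
    refine le_trans (Finset.sum_le_sum fun h _ => mul_le_mul_of_nonneg_left ?_ (hσ.nonneg h))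
      (hwt (l1 * e) (by positivity))
    split_ifs
    · exact haaA h n
    · exact le_rfl
  have ham : ∀ n n', n ≤ n' → a n ≤ a n' + (n' - n : ℕ) * e := by
    intro n n' hn
    have h1 : a n ≤ ∑ h, σ h * (if S h then aa h n' + (n' - n : ℕ) * e else 0) := by
      refine Finset.sum_le_sum fun h _ => mul_le_mul_of_nonneg_left ?_ (hσ.nonneg h)
      split_ifs
      · exact haam h n n' hn
      · exact le_rfl
    have h2 : ∑ h, σ h * (if S h then aa h n' + (n' - n : ℕ) * e else 0) =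
        a n' + ∑ h, σ h * (if S h then ((n' - n : ℕ) : ℝ) * e else 0) := by
      rw [ha, ← Finset.sum_add_distrib]
      refine Finset.sum_congr rfl fun h _ => ?_
      split_ifs
      · ring
      · ring
    rw [h2] at h1
    exact h1.trans (add_le_add le_rfl (hwt _ (by positivity)))
  obtain ⟨r, hr, hpig⟩ := range_pigeon he0 ha0 haA ham htT hut hnext hR
  refine ⟨r, hr, ?_⟩
  set m : ℕ := T r - t r + u with hm
  have htr := htT r
  have hur := hut r
  have hm' : T r - (t r - u) = m := by omega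
  set Δ : H → ℝ := fun h => aa h (T r) - aa h (t r - u) + (m : ℝ) * e with hΔ
  have hΔ0 : ∀ h, S h → 0 ≤ Δ h := by
    intro h _
    have h1 := haam h (t r - u) (T r) (by omega)
    rw [hm'] at h1
    simp only [hΔ]
    linarith
  have hMk := hts_markov hσ S Δ hΔ0 (l1 * e1)
  have hsub : pr σ (fun h => S h ∧ ∃ n, t r ≤ n ∧ n ≤ T r ∧
        e1 < avp p i0 l1 (h1q B p Y (P h) N u n D)) ≤ pr σ (fun h => S h ∧ l1 * e1 < Δ h) := by
    refine pr_mono hσ fun h _ hh => ⟨hh.1, ?_⟩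
    obtain ⟨_, n, hn1, hn2, hn3⟩ := hh
    have h1 := h1q_sum hB0 hp Y (P h) hN (i0 := i0) hl1 D hur hn1 hn2
    have hl : (0 : ℝ) < l1 := by exact_mod_cast hl1
    exact lt_of_lt_of_le (mul_lt_mul_of_pos_left hn3 hl) h1
  have hTm : ∀ k, r ≤ k → T r ≤ T k := by
    intro k hk
    induction k, hk using Nat.le_induction with
    | base => exact le_rfl
    | succ k _ ih =>
      have h1 := hnext k
      have h2 := htT (k + 1)
      omega
  have hTR := hTm R0 hr.le
  have hmT : (m : ℝ) ≤ T R0 := by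
    have : m ≤ T R0 := by omega
    exact_mod_cast this
  have hsum : ∑ h, σ h * (if S h then Δ h else 0) ≤ a (T r) - a (t r - u) + m * e := by
    have h2 : ∑ h, σ h * (if S h then Δ h else 0) =
        a (T r) - a (t r - u) + ∑ h, σ h * (if S h then (m : ℝ) * e else 0) := by
      rw [ha]
      simp only
      rw [← Finset.sum_sub_distrib, ← Finset.sum_add_distrib]
      refine Finset.sum_congr rfl fun h _ => ?_
      simp only [hΔ]
      split_ifs
      · ring
      · ring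
    rw [h2]
    exact add_le_add le_rfl (hwt _ (by positivity))
  have hR' : (0 : ℝ) < R0 := by exact_mod_cast hR
  have hR1 : (1 : ℝ) ≤ R0 := by exact_mod_cast hR
  have h5 : a (T r) - a (t r - u) ≤ (l1 * e + T R0 * e) / R0 := by
    rw [le_div_iff₀ hR']
    exact hpig
  have h6 : (l1 * e + T R0 * e) / R0 ≤ l1 * e / R0 + T R0 * e := by
    rw [add_div]
    have h7 : (T R0 : ℝ) * e / R0 ≤ T R0 * e := div_le_self (by positivity) hR1
    linarith
  have h8 : (m : ℝ) * e ≤ T R0 * e := mul_le_mul_of_nonneg_right hmT he0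
  have hl : (0 : ℝ) < l1 := by exact_mod_cast hl1
  have h9 : l1 * e1 * pr σ (fun h => S h ∧ ∃ n, t r ≤ n ∧ n ≤ T r ∧
        e1 < avp p i0 l1 (h1q B p Y (P h) N u n D)) ≤
      l1 * e1 * pr σ (fun h => S h ∧ l1 * e1 < Δ h) :=
    mul_le_mul_of_nonneg_left hsub (by positivity)
  have h10 : ∑ h, σ h * (open Classical in if S h then Δ h else 0) =
      ∑ h, σ h * (if S h then Δ h else 0) := by
    refine Finset.sum_congr rfl fun h _ => ?_
    congr
  rw [h10] at hMk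
  linarith

end STK
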