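import Pool.Agent.Lib.MP_ac5134_an.STK.KNode1
import Pool.Agent.Lib.MP_ac5134_an.STK.KPersN
import Pool.Agent.Lib.MP_ac5134_an.STK.KExc

/-!
# STK-KCase1: Case I for one pair of heights, averaged over the nodes

Proof.  Let `κ = κ1^2/2`, `F i ω = avz (A1 ..) ≤ 1`.  `prl_rev` (`t = κ1^2/2`): `P(F ≥ κ1^2/2) ≥ κ1^2/2`.
`prl_markov`: `P(h1q P > ε0) ≤ e1/ε0 ≤ κ1^2/32`, the same for `P'` (`h1q_nonneg`); with
`c2 = b log 2 + b log (2 C1 + 5)`, `h2q + c2 ≥ 0` (`h2q_ge`): `P(h2q > h2) ≤ (h2a + c2)/(h2 + c2) ≤ κ1^2/16`.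
So with probability `≥ κ1^2/2 - κ1^2/16 - κ1^2/16 ≥ κ1^2/4` the node `(i, ω)` satisfies the hypotheses of
`node_core` (`IsSys.node`), and then `pr (nd i ω) (Drop of the node) ≥ κ1^2/8`.  In `Drop` of the node
`nd B (nd B p Y i ω) Y (i+n+s0) ω' = nd B p Y (i+n+s0) ω'` for `ω'` in the support of the node (`fib_fib`,
`Wc_nest`).  So `avp (pr (nd i ω) (Drop B p Y P th2 (D-s0) (i+n+s0))) ≥ κ1^2/4 * κ1^2/8`, and `avp_node`.
-/

namespace STK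
open Finset RFold Pool.Agent.MPac5134.SD

variable {Ω : Type} [Fintype Ω]

private theorem avz_A1_le_one {B b d : ℕ} (hB : 0 < B) {q0 : ℕ} {p : Ω → ℝ} (hp : IsPr p)
    (Y : Ω → Co d → ℝ) (P P' : Matrix (Fin b) (Co d) ℝ) (c q : ℕ) :
    avz (B ^ q0) (fun z => A1 B (B ^ q0) p Y P P' c q z) ≤ 1 := by
  have hN : 0 < B ^ q0 := Nat.pow_pos hB
  refine (avz_mono (H := fun _ => (1 : ℝ)) fun z => ?_).trans (avz_const hN 1).le
  exact pr_le_one (isPr_gl hp hp (fun _ => rfl)) _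

private theorem node_drop {B b d : ℕ} (hB : 0 < B) {p : Ω → ℝ} (hp : IsPr p)
    (Y : Ω → Co d → ℝ) (P : Matrix (Fin b) (Co d) ℝ) (th2 : ℝ) (D i j : ℕ) (hij : i ≤ j) {ω : Ω}
    (h0 : p ω ≠ 0) :
    pr (nd B p Y i ω) (Drop B (nd B p Y i ω) Y P th2 D j) ≤
      pr (nd B p Y i ω) (Drop B p Y P th2 D j) := by
  have hp' : IsPr (nd B p Y i ω) := isPr_fib hp _ _
  refine pr_mono hp' fun ω' h1 h => ?_
  have e : nd B (nd B p Y i ω) Y j ω' = nd B p Y j ω' :=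
    fib_fib hp (Wc_nest hB hij Y) h0 h1
  unfold Drop at h ⊢
  rw [e] at h
  exact h

theorem case_one {B b d : ℕ} (hB : 2 ≤ B) {C0 M : ℝ} (hC0 : 0 ≤ C0) (hM : 0 ≤ M) {i0 : ℕ}
    {p : Ω → ℝ} {Y : Ω → Co d → ℝ} (hsys : IsSys B d C0 i0 p Y) {P P' : Matrix (Fin b) (Co d) ℝ}
    (hP : ∀ r c, |P r c| ≤ M) {l1 n D Dm s0 u g K q0 : ℕ} {ρ0 β τ0 ε0 h2 x4 th2 κ1 e1 h2a : ℝ}
    (hl1 : 0 < l1) (hκ1 : 0 < κ1) (hε0 : 0 < ε0)
    (hnum : Num B d b C0 M ρ0 β τ0 ε0 h2 x4 (κ1 ^ 2 / 2) th2 D Dm s0 u g K)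
    (hη : Near (B * ((B : ℝ) ^ (n + Dm))⁻¹) P P') (hq0 : i0 + l1 + n + D + g ≤ q0)
    (hA : κ1 ^ 2 ≤ avp p i0 l1 (fun i ω => avz (B ^ q0)
      (fun z => A1 B (B ^ q0) (nd B p Y i ω) Y P P' (i + n) (i + n + D) z)))
    (he : 32 * e1 ≤ ε0 * κ1 ^ 2)
    (hper : avp p i0 l1 (h1q B p Y P (B ^ q0) u n D) ≤ e1)
    (hper' : avp p i0 l1 (h1q B p Y P' (B ^ q0) u n D) ≤ e1)
    (hexc : avp p i0 l1 (h2q B p Y P (B ^ q0) n D s0) ≤ h2a)
    (hh : 0 < h2 + (b * Real.log 2 + b * Real.log (2 * (2 * d * M * C0) + 5)))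
    (hh2 : 16 * (h2a + (b * Real.log 2 + b * Real.log (2 * (2 * d * M * C0) + 5))) ≤
      κ1 ^ 2 * (h2 + (b * Real.log 2 + b * Real.log (2 * (2 * d * M * C0) + 5)))) :
    κ1 ^ 4 / 32 ≤ prl p i0 l1 (fun i ω => Drop B p Y P th2 (D - s0) (i + (n + s0)) ω) := by
  classical
  have hB0 : 0 < B := by omega
  have hp : IsPr p := hsys.pr
  have hN : 0 < B ^ q0 := Nat.pow_pos hB0
  have hκ2 : 0 < κ1 ^ 2 := by positivity
  obtain ⟨c2, hc2⟩ : ∃ c2 : ℝ, c2 = b * Real.log 2 + b * Real.log (2 * (2 * d * M * C0) + 5) :=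
    ⟨_, rfl⟩
  rw [← hc2] at hh hh2
  obtain ⟨F, hF⟩ : ∃ F : ℕ → Ω → ℝ, F = fun i ω => avz (B ^ q0)
      (fun z => A1 B (B ^ q0) (nd B p Y i ω) Y P P' (i + n) (i + n + D) z) := ⟨_, rfl⟩
  rw [← hF] at hA
  have hF1 : ∀ i ω, F i ω ≤ 1 := by
    intro i ω
    rw [hF]
    exact avz_A1_le_one hB0 (isPr_fib hp _ _) Y P P' _ _
  -- the four events
  have e1' : κ1 ^ 2 / 2 ≤ prl p i0 l1 (fun i ω => κ1 ^ 2 / 2 ≤ F i ω) := by
    have h := prl_rev (i0 := i0) (l1 := l1) hp (F := F) (t := κ1 ^ 2 / 2) (by positivity)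
      (fun i _ _ ω _ => hF1 i ω)
    linarith
  have hm : ∀ Q : Matrix (Fin b) (Co d) ℝ, avp p i0 l1 (h1q B p Y Q (B ^ q0) u n D) ≤ e1 →
      prl p i0 l1 (fun i ω => ε0 < h1q B p Y Q (B ^ q0) u n D i ω) ≤ κ1 ^ 2 / 32 := by
    intro Q hQ
    have h := prl_markov (i0 := i0) (l1 := l1) hp (F := h1q B p Y Q (B ^ q0) u n D) ε0
      (fun i _ _ ω _ => h1q_nonneg hB0 hp Y Q (B ^ q0) u n D i ω)
    have h2 : ε0 * prl p i0 l1 (fun i ω => ε0 < h1q B p Y Q (B ^ q0) u n D i ω) ≤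
        ε0 * (κ1 ^ 2 / 32) := by linarith
    exact le_of_mul_le_mul_left h2 hε0
  have e2 := hm P hper
  have e3 := hm P' hper'
  have e4 : prl p i0 l1 (fun i ω => h2 < h2q B p Y P (B ^ q0) n D s0 i ω) ≤ κ1 ^ 2 / 16 := by
    have h := prl_markov (i0 := i0) (l1 := l1) hp
      (F := fun i ω => h2q B p Y P (B ^ q0) n D s0 i ω + c2) (h2 + c2)
      (fun i hi _ ω h0 => by
        have := h2q_ge hB hC0 hM hsys hP hN n D s0 hi h0
        rw [← hc2] at this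
        linarith)
    have h3 : avp p i0 l1 (fun i ω => h2q B p Y P (B ^ q0) n D s0 i ω + c2) =
        avp p i0 l1 (h2q B p Y P (B ^ q0) n D s0) + c2 := by
      rw [avp_add, avp_const hp hl1]
    rw [h3] at h
    have h4 : prl p i0 l1 (fun i ω => h2 < h2q B p Y P (B ^ q0) n D s0 i ω) ≤
        prl p i0 l1 (fun i ω => h2 + c2 < h2q B p Y P (B ^ q0) n D s0 i ω + c2) :=
      prl_mono hp fun i _ _ ω _ h5 => by
        have h5' : h2 < h2q B p Y P (B ^ q0) n D s0 i ω := h5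
        show h2 + c2 < h2q B p Y P (B ^ q0) n D s0 i ω + c2
        linarith
    have h6 : (h2 + c2) * prl p i0 l1
        (fun i ω => h2 + c2 < h2q B p Y P (B ^ q0) n D s0 i ω + c2) ≤
        (h2 + c2) * (κ1 ^ 2 / 16) := by linarith
    exact h4.trans (le_of_mul_le_mul_left h6 hh)
  -- the good event
  obtain ⟨G, hG⟩ : ∃ G : ℕ → Ω → Prop, G = fun i ω => ¬ (ε0 < h1q B p Y P (B ^ q0) u n D i ω) ∧
      ¬ (ε0 < h1q B p Y P' (B ^ q0) u n D i ω) ∧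
      ¬ (h2 < h2q B p Y P (B ^ q0) n D s0 i ω) := ⟨_, rfl⟩
  have e5 : prl p i0 l1 (fun i ω => ¬ G i ω) ≤ κ1 ^ 2 / 8 := by
    have h1 : prl p i0 l1 (fun i ω => ¬ G i ω) ≤ prl p i0 l1 (fun i ω =>
        (ε0 < h1q B p Y P (B ^ q0) u n D i ω ∨ ε0 < h1q B p Y P' (B ^ q0) u n D i ω) ∨
          h2 < h2q B p Y P (B ^ q0) n D s0 i ω) := by
      refine prl_mono hp fun i _ _ ω _ h => ?_
      rw [hG] at h
      by_contra hcon
      push Not at hcon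
      exact h ⟨not_lt.2 hcon.1.1, not_lt.2 hcon.1.2, not_lt.2 hcon.2⟩
    have h2' := prl_or_le (i0 := i0) (l1 := l1) hp (fun i ω =>
        (ε0 < h1q B p Y P (B ^ q0) u n D i ω ∨ ε0 < h1q B p Y P' (B ^ q0) u n D i ω))
        (fun i ω => h2 < h2q B p Y P (B ^ q0) n D s0 i ω)
    have h3' := prl_or_le (i0 := i0) (l1 := l1) hp (fun i ω =>
        ε0 < h1q B p Y P (B ^ q0) u n D i ω) (fun i ω => ε0 < h1q B p Y P' (B ^ q0) u n D i ω)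
    linarith
  have e6 : κ1 ^ 2 / 4 ≤ prl p i0 l1 (fun i ω => κ1 ^ 2 / 2 ≤ F i ω ∧ G i ω) := by
    have h := prl_and_ge (i0 := i0) (l1 := l1) hp (fun i ω => κ1 ^ 2 / 2 ≤ F i ω) G
    linarith
  obtain ⟨A, hAd⟩ : ∃ A : ℕ → Ω → Prop, A = fun i ω => κ1 ^ 2 / 2 ≤ F i ω ∧ G i ω := ⟨_, rfl⟩
  rw [← hAd] at e6
  -- the nodes
  have key : ∀ i, i0 ≤ i → i < i0 + l1 → ∀ ω, p ω ≠ 0 →
      κ1 ^ 2 / 8 * (if A i ω then (1 : ℝ) else 0) ≤
        pr (nd B p Y i ω) (Drop B p Y P th2 (D - s0) (i + (n + s0))) := by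
    intro i hi hi' ω h0
    have hp' : IsPr (nd B p Y i ω) := isPr_fib hp _ _
    split_ifs with hc
    · rw [hAd] at hc
      obtain ⟨hc1, hc3⟩ := hc
      rw [hG] at hc3
      obtain ⟨hc3, hc4, hc5⟩ := hc3
      have hnode := hsys.node hi h0
      have hcore := node_core hB hC0 hM hnode hP hnum hη (q0 := q0) (by omega)
        (not_lt.1 hc3) (not_lt.1 hc4) (not_lt.1 hc5) (by rw [hF] at hc1; exact hc1)
      have hd := node_drop hB0 hp Y P th2 (D - s0) i (i + n + s0) (by omega) h0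
      rw [show i + (n + s0) = i + n + s0 by omega]
      have hcore' : κ1 ^ 2 / 2 / 4 ≤ pr (nd B p Y i ω)
          (Drop B (nd B p Y i ω) Y P th2 (D - s0) (i + n + s0)) := hcore
      linarith
    · rw [mul_zero]
      exact pr_nonneg hp' _
  have e7 := avp_mono (i0 := i0) (l1 := l1) hp key
  rw [avp_mul, avp_ite] at e7
  have e8 : avp p i0 l1 (fun i ω => pr (nd B p Y i ω)
      (Drop B p Y P th2 (D - s0) (i + (n + s0)))) =
      prl p i0 l1 (fun i ω => Drop B p Y P th2 (D - s0) (i + (n + s0)) ω) :=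
    avp_node hp Y (fun i ω => Drop B p Y P th2 (D - s0) (i + (n + s0)) ω)
  rw [← e8]
  refine le_trans ?_ e7
  calc κ1 ^ 4 / 32 = κ1 ^ 2 / 8 * (κ1 ^ 2 / 4) := by ring
    _ ≤ _ := mul_le_mul_of_nonneg_left e6 (by positivity)

end STK
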