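import Pool.Agent.Lib.MP_ac5134_an.STK.KTower

/-!
# STK-KAvgDeep: lower bound for the average of the deep residuals

`l1 = D K`.  For every residue `r < D`: by `tdeep_chain` with the levels
`i0 ≤ i0 + r ≤ i0 + r + D ≤ … ≤ i0 + r + K D ≤ i0 + l` and `n = i0 + l`,
`tdeep i0 (i0+l) (i0+l) ≤ cW r + ∑_{k<K} tdeep (i0+r+kD) (i0+r+kD+D) (i0+l) + cW (l - l1 - r)`, and
`tdeep i (i+D) (i0+l) ≤ tdeep i (i+D) (i+n)` because `i + n ≤ i0 + l` (`i < i0 + l1`, `l1 + n ≤ l`).
Sum over `r < D`; the levels `r + kD` are all the numbers `< l1`.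
-/

namespace STK
open Finset RFold
variable {Ω : Type*} [Fintype Ω] {γ δ : Type*} {p : Ω → ℝ} {W : ℕ → Ω → γ} {X : ℕ → Ω → δ}

/-- the numbers `< K D` are the `k D + r` with `k < K`, `r < D` -/
theorem deep_avg_sum (t : ℕ → ℝ) (D : ℕ) (K : ℕ) :
    ∑ i ∈ range (K * D), t i = ∑ r ∈ range D, ∑ k ∈ range K, t (k * D + r) := by
  induction K with
  | zero => simp
  | succ K ih =>
    rw [Nat.succ_mul, Finset.sum_range_add, ih, ← Finset.sum_add_distrib]
    refine Finset.sum_congr rfl fun r _ => ?_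
    rw [Finset.sum_range_succ]

/-- chain along the levels `a + k D`, `k ≤ K` -/
theorem deep_avg_chain (hp : IsPr p) (hW : Nest p W) (a D N : ℕ) (K : ℕ) :
    tdeep p W X a (a + K * D) N =
      tdeep p W X a a N + ∑ k ∈ range K, tdeep p W X (a + k * D) (a + k * D + D) N := by
  induction K with
  | zero => simp
  | succ K ih =>
    have h1 : a ≤ a + K * D := Nat.le_add_right _ _
    have h2 : a + K * D ≤ a + (K + 1) * D := by
      have : K * D ≤ (K + 1) * D := Nat.mul_le_mul_right _ (Nat.le_succ _)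
      omega
    rw [tdeep_chain hp hW h1 h2 N, ih, Finset.sum_range_succ, add_assoc]
    have h3 : a + (K + 1) * D = a + K * D + D := by rw [Nat.succ_mul]; omega
    rw [h3]

theorem deep_avg (hp : IsPr p) (hW : Nest p W) (hX : Nest p X) {cW : ℝ} (h0 : 0 ≤ cW)
    (hc : ∀ k, cent p (W (k + 1)) (W k) ≤ cW) {i0 l l1 n D : ℕ} (hD : 1 ≤ D) (hdiv : D ∣ l1)
    (hl : l1 + n ≤ l) (hDn : D ≤ n) :
    D * (tdeep p W X i0 (i0 + l) (i0 + l) - cW * (l - l1)) ≤
      ∑ i ∈ range l1, tdeep p W X (i0 + i) (i0 + i + D) (i0 + i + n) := by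
  obtain ⟨K, hK⟩ := hdiv
  have hK' : l1 = K * D := by rw [hK, Nat.mul_comm]
  subst hK'
  rw [deep_avg_sum]
  have hmain : ∀ r ∈ range D, tdeep p W X i0 (i0 + l) (i0 + l) - cW * ((l : ℝ) - ((K * D : ℕ) : ℝ)) ≤
      ∑ k ∈ range K, tdeep p W X (i0 + (k * D + r)) (i0 + (k * D + r) + D)
        (i0 + (k * D + r) + n) := by
    intro r hr
    have hr' : r < D := Finset.mem_range.mp hr
    have e1 : i0 ≤ i0 + r := Nat.le_add_right _ _
    have e2 : i0 + r ≤ i0 + r + K * D := Nat.le_add_right _ _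
    have e3 : i0 + r + K * D ≤ i0 + l := by omega
    have s1 := tdeep_chain (X := X) hp hW e1 (e2.trans e3) (i0 + l)
    have s2 := tdeep_chain (X := X) hp hW e2 e3 (i0 + l)
    have s3 := deep_avg_chain (X := X) hp hW (i0 + r) D (i0 + l) K
    have b1 := tdeep_le (X := X) hp hW hc e1 (i0 + l)
    have b2 := tdeep_le (X := X) hp hW hc e3 (i0 + l)
    have b3 := tdeep_le (X := X) hp hW hc (le_refl (i0 + r)) (i0 + l)
    have hsum : ∑ k ∈ range K, tdeep p W X (i0 + r + k * D) (i0 + r + k * D + D) (i0 + l) ≤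
        ∑ k ∈ range K, tdeep p W X (i0 + (k * D + r)) (i0 + (k * D + r) + D)
          (i0 + (k * D + r) + n) := by
      refine Finset.sum_le_sum fun k hk => ?_
      have hk' : k < K := Finset.mem_range.mp hk
      have hle : (k + 1) * D ≤ K * D := Nat.mul_le_mul_right _ hk'
      rw [Nat.succ_mul] at hle
      have e4 : i0 + r + k * D = i0 + (k * D + r) := by omega
      rw [e4]
      exact tdeep_anti hp hX _ _ (by omega)
    have hb : tdeep p W X i0 (i0 + l) (i0 + l) ≤
        cW * ((l : ℝ) - ((K * D : ℕ) : ℝ)) +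
        ∑ k ∈ range K, tdeep p W X (i0 + r + k * D) (i0 + r + k * D + D) (i0 + l) := by
      rw [s1, s2, s3]
      push_cast at b1 b2 b3 ⊢
      have c1 : cW * ((i0 : ℝ) + r - i0) + cW * ((i0 : ℝ) + l - (i0 + r + K * D)) +
          cW * ((i0 : ℝ) + r - (i0 + r)) = cW * ((l : ℝ) - K * D) := by ring
      linarith
    linarith
  have h := Finset.sum_le_sum hmain
  rw [Finset.sum_const, Finset.card_range, nsmul_eq_mul] at h
  exact h

end STK
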