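import Pool.Agent.Lib.MP_ac5134_an.STK.KCell

/-!
# STK-KSup: the extremal exponent, trivial cases

* `Bad.mono`: smaller `α`, smaller `δ`, larger `M`.
* `Bad.le`: if `Bad` holds with `δ > 0`, some `h` has `S h`; `cent ≤ d l log B` (`cent_le_ent`, `W_i` constant on
  the support and `cent_W_W`), so `(m0 + α) l log B ≤ d l log B`, `α ≤ b - R` if `l ≥ 1`.
* `exists_sup`: `a = sSup {α | ∃ δ > 0, ∀ L, ∃ l ≥ L, ∃ Q ≥ L, Bad M α δ l Q}` (contains `α0 > 0`, bounded above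
  by `b - R`).
* `prop_of_le`: `b ≤ R`: `Bad.le` gives `α ≤ b - R ≤ 0`.
* `prop_of_gt`: `b > 2 d`: there is no injection `Fin b → Co d`.
-/

namespace STK
open Finset RFold

theorem Bad.mono {B d : ℕ} {C0 : ℝ} {φ : ℕ → ℝ} {R b : ℕ} {M α α' δ δ' : ℝ} {l Q : ℕ}
    (hB : 1 ≤ B) (hα : α' ≤ α) (hδ : δ' ≤ δ) (h : Bad B d C0 φ R b M α δ l Q) :
    Bad B d C0 φ R b M α' δ' l Q := by
  obtain ⟨H, hH, σ, s, Ω, hΩ, p, Y, i, S, P, h1, h2, h3, h4⟩ := h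
  refine ⟨H, hH, σ, s, Ω, hΩ, p, Y, i, S, P, h1, h2, hδ.trans h3, fun h hh => ?_⟩
  obtain ⟨h5, h6, h7⟩ := h4 h hh
  refine ⟨h5, h6, le_trans ?_ h7⟩
  have hlog : 0 ≤ Real.log B := Real.log_nonneg (by exact_mod_cast hB)
  have hl : (0 : ℝ) ≤ l := Nat.cast_nonneg l
  gcongr

private theorem cent_unit' {Ω : Type*} [Fintype Ω] {p : Ω → ℝ} {α : Type*} (hp : IsPr p)
    (f : Ω → α) : cent p f (fun _ => ()) = ent p f := by
  unfold cent
  rw [ent_const hp, sub_zero]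
  exact ent_congr hp (Det.fst (Det.refl f)) (Det.pair (Det.refl f) (fun _ _ _ _ _ => rfl))

theorem sys_cent_le {Ω : Type} [Fintype Ω] {B d b : ℕ} (hB : 1 ≤ B) {C0 : ℝ} {i : ℕ} {p : Ω → ℝ}
    {Y : Ω → Co d → ℝ} (h : IsSys B d C0 i p Y) (l : ℕ) {β : Type*} (g : Ω → β) :
    cent p (Wc B (i + l) Y) g ≤ d * (l * Real.log B) := by
  have hp := h.pr
  have h1 : cent p (Wc B (i + l) Y) g ≤ ent p (Wc B (i + l) Y) := cent_le_ent hp _ _
  have h2 : ent p (Wc B (i + l) Y) ≤ cent p (Wc B (i + l) Y) (Wc B i Y) := by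
    rw [← cent_unit' hp (Wc B (i + l) Y)]
    refine cent_anti hp _ ?_
    intro ω ω' h3 h4 _
    exact h.base ω ω' h3 h4
  have h3 := cent_W_W (d := d) (by omega : 0 < B) hp (Nat.le_add_right i l) Y
  rw [Nat.add_sub_cancel_left] at h3
  exact (h1.trans h2).trans h3

private theorem exists_of_pr {H : Type} [Fintype H] {σ : H → ℝ} {S : H → Prop} {δ : ℝ}
    (hδ : 0 < δ) (h : δ ≤ pr σ S) : ∃ x, S x := by
  by_contra hcon
  push Not at hcon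
  have : pr σ S = 0 := by
    unfold pr
    refine Finset.sum_eq_zero fun x _ => ?_
    rw [if_neg (hcon x)]
  linarith

theorem Bad.le {B d : ℕ} (hB : 2 ≤ B) {C0 : ℝ} {φ : ℕ → ℝ} {R b : ℕ} {M α δ : ℝ} {l Q : ℕ}
    (hl : 1 ≤ l) (hδ : 0 < δ) (h : Bad B d C0 φ R b M α δ l Q) : α ≤ (b : ℝ) - R := by
  obtain ⟨H, hH, σ, s, Ω, hΩ, p, Y, i, S, P, h1, h2, h3, h4⟩ := h
  obtain ⟨x, hx⟩ := exists_of_pr hδ h3
  obtain ⟨_, _, h5⟩ := h4 x hx
  have h6 := sys_cent_le (b := b) (by omega : 1 ≤ B) h2 l (Xc B (i + l) 0 (obs (P x) Y))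
  have h7 := h5.trans h6
  have hlog : 0 < Real.log B := Real.log_pos (by exact_mod_cast hB)
  have hl' : (0 : ℝ) < l := by exact_mod_cast hl
  have h8 : 0 < (l : ℝ) * Real.log B := mul_pos hl' hlog
  have h9 : m0 d b R + α ≤ d := by
    refine le_of_mul_le_mul_right ?_ h8
    rw [← mul_assoc]
    exact h7
  unfold m0 at h9
  linarith

theorem exists_sup {B d : ℕ} (hB : 2 ≤ B) {C0 : ℝ} {φ : ℕ → ℝ} {R b : ℕ}
    (h : ¬ PropRb B d C0 φ R b) :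
    ∃ M a : ℝ, 1 ≤ M ∧ 0 < a ∧ a ≤ (b : ℝ) - R ∧
      (∀ ε, 0 < ε → ∃ δ0, 0 < δ0 ∧ δ0 ≤ 1 ∧ ∀ L : ℕ, ∃ l Q : ℕ, L ≤ l ∧ L ≤ Q ∧
        Bad B d C0 φ R b M (a - ε) δ0 l Q) ∧
      (∀ ε, 0 < ε → ∀ δ1, 0 < δ1 → ∃ L : ℕ, ∀ l Q : ℕ, L ≤ l → L ≤ Q →
        ¬ Bad B d C0 φ R b M (a + ε) δ1 l Q) := by
  unfold PropRb at h
  push Not at h
  obtain ⟨M, hM, α0, hα0, δ, hδ, hbad⟩ := h
  set A : Set ℝ := {α | ∃ δ, 0 < δ ∧ ∀ L : ℕ, ∃ l Q : ℕ, L ≤ l ∧ L ≤ Q ∧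
    Bad B d C0 φ R b M α δ l Q} with hA
  have hmem : α0 ∈ A := ⟨δ, hδ, fun L => by
    obtain ⟨l, Q, h1, h2, h3⟩ := hbad L
    exact ⟨l, Q, h1, h2, h3⟩⟩
  have hub : ∀ α ∈ A, α ≤ (b : ℝ) - R := by
    rintro α ⟨δ', hδ', hall⟩
    obtain ⟨l, Q, h1, _, h3⟩ := hall 1
    exact Bad.le hB h1 hδ' h3
  have hbdd : BddAbove A := ⟨_, hub⟩
  have hne : A.Nonempty := ⟨α0, hmem⟩
  refine ⟨M, sSup A, hM, lt_of_lt_of_le hα0 (le_csSup hbdd hmem), csSup_le hne hub, ?_, ?_⟩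
  · intro ε hε
    obtain ⟨α, hαA, hα⟩ := exists_lt_of_lt_csSup hne (sub_lt_self (sSup A) hε)
    obtain ⟨δ', hδ', hall⟩ := hαA
    refine ⟨min δ' 1, lt_min hδ' one_pos, min_le_right _ _, fun L => ?_⟩
    obtain ⟨l, Q, h1, h2, h3⟩ := hall L
    exact ⟨l, Q, h1, h2, h3.mono (by omega) hα.le (min_le_left _ _)⟩
  · intro ε hε δ1 hδ1
    by_contra hcon
    push Not at hcon
    have h1 : sSup A + ε ∈ A := ⟨δ1, hδ1, fun L => by
      obtain ⟨l, Q, h1, h2, h3⟩ := hcon L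
      exact ⟨l, Q, h1, h2, h3⟩⟩
    have h2 := le_csSup hbdd h1
    linarith

theorem prop_of_le {B d : ℕ} (hB : 2 ≤ B) (C0 : ℝ) (φ : ℕ → ℝ) {R b : ℕ} (h : b ≤ R) :
    PropRb B d C0 φ R b := by
  intro M _ α hα δ hδ
  refine ⟨1, fun l Q hl _ hbad => ?_⟩
  have h1 := Bad.le hB hl hδ hbad
  have h2 : (b : ℝ) ≤ R := by exact_mod_cast h
  linarith

theorem prop_of_gt {B d : ℕ} (hB : 2 ≤ B) (C0 : ℝ) (φ : ℕ → ℝ) {R b : ℕ} (h : 2 * d < b) :
    PropRb B d C0 φ R b := by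
  intro M _ α _ δ hδ
  refine ⟨0, fun l Q _ _ hbad => ?_⟩
  obtain ⟨H, hH, σ, s, Ω, hΩ, p, Y, i, S, P, h1, h2, h3, h4⟩ := hbad
  obtain ⟨x, hx⟩ := exists_of_pr hδ h3
  obtain ⟨⟨J, hJ⟩, _, _⟩ := h4 x hx
  have h5 := Fintype.card_le_of_injective J hJ.inj
  simp only [Fintype.card_fin, Fintype.card_sum] at h5
  omega

/-- The induction over `(b - R)(2d+2) + (2d - b)`. -/
theorem prop_all {B d : ℕ} (hB : 2 ≤ B) (C0 : ℝ) (φ : ℕ → ℝ)
    (step : ∀ R b : ℕ, R < b + 1 → b + 1 ≤ 2 * d → PropRb B d C0 φ R b →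
      PropRb B d C0 φ (R + 1) (b + 2) → PropRb B d C0 φ R (b + 1)) :
    ∀ R b : ℕ, PropRb B d C0 φ R b := by
  have key : ∀ n : ℕ, ∀ R b : ℕ, (b - R) * (2 * d + 2) + (2 * d - b) < n →
      PropRb B d C0 φ R b := by
    intro n
    induction n with
    | zero => intro R b h; omega
    | succ n ih =>
      intro R b hlt
      rcases Nat.lt_or_ge R b with hRb | hRb
      · rcases Nat.lt_or_ge (2 * d) b with hd | hd
        · exact prop_of_gt hB C0 φ hd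
        · obtain ⟨b', rfl⟩ : ∃ b', b = b' + 1 := ⟨b - 1, by omega⟩
          obtain ⟨e, he⟩ : ∃ e, b' = R + e := ⟨b' - R, by omega⟩
          subst he
          have e1 : R + e + 1 - R = e + 1 := by omega
          rw [e1] at hlt
          have e2 : (e + 1) * (2 * d + 2) = e * (2 * d + 2) + (2 * d + 2) := by ring
          rw [e2] at hlt
          refine step R (R + e) (by omega) hd (ih _ _ ?_) ?_
          · have e3 : R + e - R = e := by omega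
            rw [e3]
            omega
          · rcases Nat.lt_or_ge (2 * d) (R + e + 2) with hd2 | hd2
            · exact prop_of_gt hB C0 φ hd2
            · refine ih _ _ ?_
              have e3 : R + e + 2 - (R + 1) = e + 1 := by omega
              rw [e3, e2]
              omega
      · exact prop_of_le hB C0 φ hRb
  intro R b
  exact key _ R b (Nat.lt_succ_self _)

end STK
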