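import Pool.Agent.Lib.MP_ac5134_an.STK.KPrl
import Pool.Agent.Lib.MP_ac5134_an.STK.KAvgDeep
import Pool.Agent.Lib.MP_ac5134_an.STK.KSup

/-!
# STK-KLow: node residuals, lower bounds (paper (3.1), (3.2), (3.3) first part)

`nres P D n i ω` = residual entropy of `W_{i+D}` given `X_{i+n}` in the node of level `i` of `ω`.
* `nest_W`, `nest_X`, `cW_le`, `cX_le`: the hypotheses of KTower for `W k = Wc B k Y`, `X k = Xc B k z (obs P Y)`.
* `nres_avg`: `avp_cent`.
* `low_avg`: `deep_avg` with `cW = d log B`; `tdeep i0 (i0+l) (i0+l) = cent p W X` because `W_{i0}` is constant on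
  the support (`cent_pair_const`); `l A ≥ l1 A`.
* `nres_le`: `nres D n ≤ nres D D` for `D ≤ n` (`cent_anti`), `nres ≤ d D log B` (`IsSys.node`, `sys_cent_le`).
* `res_low`: pointwise
  `nres D n ≤ Ab D LB - (Ab - Θ) D LB 1[nres D n < Θ D LB] + d D LB 1[Ab D LB ≤ nres D D]`; take averages.
* `hup`: for every `(i, ω)`, `p ω ≠ 0`, the set of `h` with `S h` and the big residual at the node has weight
  `< δ1` (otherwise `Bad` for the node, `IsSys.node`); average over `(i, ω)`, exchange the sums, `hts_markov`.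
-/

namespace STK
open Finset RFold Pool.Agent.MPac5134.SD

variable {Ω : Type} [Fintype Ω]

/-- residual entropy at the node of level `i` of `ω` -/
noncomputable def nres (B : ℕ) {b d : ℕ} (p : Ω → ℝ) (Y : Ω → Co d → ℝ)
    (P : Matrix (Fin b) (Co d) ℝ) (D n i : ℕ) (ω : Ω) : ℝ :=
  cent (nd B p Y i ω) (Wc B (i + D) Y) (Xc B (i + n) 0 (obs P Y))

theorem nest_W {B d : ℕ} (hB : 0 < B) (p : Ω → ℝ) (Y : Ω → Co d → ℝ) :
    Nest p (fun k => Wc B k Y) := fun k => Wc_nest hB (Nat.le_succ k) Y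

theorem nest_X {B b : ℕ} (hB : 0 < B) (p : Ω → ℝ) (z : Fin b → ℝ) (x : Ω → Fin b → ℝ) :
    Nest p (fun k => Xc B k z x) := fun k => Xc_nest hB (Nat.le_succ k) z x

theorem cW_le {B d : ℕ} (hB : 0 < B) {p : Ω → ℝ} (hp : IsPr p) (Y : Ω → Co d → ℝ) (k : ℕ) :
    cent p (Wc B (k + 1) Y) (Wc B k Y) ≤ d * Real.log B := by
  have h := cent_W_W hB hp (Nat.le_succ k) Y
  have e : k.succ - k = 1 := by omega
  rw [e, Nat.cast_one, one_mul] at h
  exact h

theorem cX_le {B b : ℕ} (hB : 0 < B) {p : Ω → ℝ} (hp : IsPr p) (z : Fin b → ℝ)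
    (x : Ω → Fin b → ℝ) (k : ℕ) :
    cent p (Xc B (k + 1) z x) (Xc B k z x) ≤ b * Real.log B := by
  have h := cent_X_X hB hp (Nat.le_succ k) z x
  have e : k.succ - k = 1 := by omega
  rw [e, Nat.cast_one, one_mul] at h
  exact h

theorem nres_avg {B b d : ℕ} {p : Ω → ℝ} (hp : IsPr p) (Y : Ω → Co d → ℝ)
    (P : Matrix (Fin b) (Co d) ℝ) (i0 l1 D n : ℕ) :
    avp p i0 l1 (nres B p Y P D n) = avl i0 l1 (fun i =>
      tdeep p (fun k => Wc B k Y) (fun k => Xc B k 0 (obs P Y)) i (i + D) (i + n)) :=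
  avp_cent hp Y (fun i => Wc B (i + D) Y) (fun i => Xc B (i + n) 0 (obs P Y))

theorem nres_nonneg {B b d : ℕ} {p : Ω → ℝ} (hp : IsPr p) (Y : Ω → Co d → ℝ)
    (P : Matrix (Fin b) (Co d) ℝ) (D n i : ℕ) (ω : Ω) : 0 ≤ nres B p Y P D n i ω :=
  cent_nonneg (isPr_fib hp _ _) _ _

theorem nres_mono {B b d : ℕ} (hB : 0 < B) {p : Ω → ℝ} (hp : IsPr p) (Y : Ω → Co d → ℝ)
    (P : Matrix (Fin b) (Co d) ℝ) {D n n' : ℕ} (h : n ≤ n') (i : ℕ) (ω : Ω) :
    nres B p Y P D n' i ω ≤ nres B p Y P D n i ω :=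
  cent_anti (isPr_fib hp _ _) _ (Xc_nest hB (by omega) _ _)

theorem nres_le {B b d : ℕ} (hB : 1 ≤ B) {C0 : ℝ} {i0 : ℕ} {p : Ω → ℝ} {Y : Ω → Co d → ℝ}
    (hsys : IsSys B d C0 i0 p Y) (P : Matrix (Fin b) (Co d) ℝ) (D n : ℕ) {i : ℕ} (hi : i0 ≤ i)
    {ω : Ω} (h0 : p ω ≠ 0) : nres B p Y P D n i ω ≤ d * (D * Real.log B) := by
  exact sys_cent_le (b := b) hB (hsys.node hi h0) D _

theorem low_avg {B b d : ℕ} (hB : 2 ≤ B) {C0 : ℝ} {i0 : ℕ} {p : Ω → ℝ} {Y : Ω → Co d → ℝ}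
    (hsys : IsSys B d C0 i0 p Y) (P : Matrix (Fin b) (Co d) ℝ) {l l1 n D : ℕ} (hD : 1 ≤ D)
    (hl1 : 0 < l1) (hdiv : D ∣ l1) (hl : l1 + n ≤ l) (hDn : D ≤ n) {A ε : ℝ} (hA : 0 ≤ A)
    (hε : d * ((l : ℝ) - l1) ≤ ε * l1)
    (hlow : A * l * Real.log B ≤ cent p (Wc B (i0 + l) Y) (Xc B (i0 + l) 0 (obs P Y))) :
    (A - ε) * D * Real.log B ≤ avp p i0 l1 (nres B p Y P D n) := by
  have hp := hsys.pr
  have hB0 : 0 < B := by omega
  have hLB : 0 ≤ Real.log B := Real.log_natCast_nonneg B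
  have hl1R : (0 : ℝ) < l1 := by exact_mod_cast hl1
  have key := deep_avg hp (nest_W hB0 p Y) (nest_X hB0 p 0 (obs P Y)) (cW := d * Real.log B)
    (mul_nonneg (Nat.cast_nonneg d) hLB) (cW_le hB0 hp Y) (i0 := i0) hD hdiv hl hDn
  rw [nres_avg hp]
  unfold avl
  rw [le_div_iff₀ hl1R]
  have e1 : tdeep p (fun k => Wc B k Y) (fun k => Xc B k 0 (obs P Y)) i0 (i0 + l) (i0 + l) =
      cent p (Wc B (i0 + l) Y) (Xc B (i0 + l) 0 (obs P Y)) := by
    unfold tdeep
    exact cent_pair_const hp _ _ hsys.base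
  rw [e1] at key
  refine le_trans ?_ key
  have hll : (l1 : ℝ) ≤ l := by
    have : l1 ≤ l := by omega
    exact_mod_cast this
  have h1 : A * l1 * Real.log B ≤ A * l * Real.log B := by gcongr
  have h2 : (d : ℝ) * Real.log B * (l - l1) ≤ ε * l1 * Real.log B := by
    calc (d : ℝ) * Real.log B * (l - l1) = d * ((l : ℝ) - l1) * Real.log B := by ring
      _ ≤ ε * l1 * Real.log B := mul_le_mul_of_nonneg_right hε hLB
  have h3 : (A - ε) * l1 * Real.log B ≤ cent p (Wc B (i0 + l) Y) (Xc B (i0 + l) 0 (obs P Y)) -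
      d * Real.log B * (l - l1) := by
    have : (A - ε) * l1 * Real.log B = A * l1 * Real.log B - ε * l1 * Real.log B := by ring
    linarith
  have h4 := mul_le_mul_of_nonneg_left h3 (Nat.cast_nonneg (α := ℝ) D)
  refine le_trans (le_of_eq ?_) h4
  ring

theorem res_low {B b d : ℕ} (hB : 2 ≤ B) {C0 : ℝ} {i0 : ℕ} {p : Ω → ℝ} {Y : Ω → Co d → ℝ}
    (hsys : IsSys B d C0 i0 p Y) (P : Matrix (Fin b) (Co d) ℝ) {l1 n D : ℕ} (hD : 1 ≤ D)
    (hl1 : 0 < l1) (hDn : D ≤ n) {A Ab Θ π : ℝ} (hΘ0 : 0 ≤ Θ) (hΘ : Θ ≤ Ab)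
    (hlow : A * D * Real.log B ≤ avp p i0 l1 (nres B p Y P D n))
    (hup : prl p i0 l1 (fun i ω => Ab * D * Real.log B ≤ nres B p Y P D D i ω) ≤ π) :
    (Ab - Θ) * prl p i0 l1 (fun i ω => nres B p Y P D n i ω < Θ * D * Real.log B) ≤
      Ab - A + d * π := by
  classical
  have hp := hsys.pr
  have hB0 : 0 < B := by omega
  have hLB : 0 < Real.log B := Real.log_pos (by exact_mod_cast (show 1 < B by omega))
  have hD0 : (0 : ℝ) < D := by exact_mod_cast hD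
  obtain ⟨T, hT⟩ : ∃ T : ℝ, T = D * Real.log B := ⟨_, rfl⟩
  have hT0 : 0 < T := by rw [hT]; positivity
  have e1 : Θ * D * Real.log B = Θ * T := by rw [hT]; ring
  have e2 : Ab * D * Real.log B = Ab * T := by rw [hT]; ring
  have e3 : A * D * Real.log B = A * T := by rw [hT]; ring
  rw [e1]
  rw [e2] at hup
  rw [e3] at hlow
  have key : avp p i0 l1 (nres B p Y P D n) ≤ avp p i0 l1 (fun i ω =>
      (Ab * T + (-((Ab - Θ) * T)) * (if nres B p Y P D n i ω < Θ * T then (1 : ℝ) else 0)) +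
        d * T * (if Ab * T ≤ nres B p Y P D D i ω then (1 : ℝ) else 0)) := by
    refine avp_mono hp fun i hi _ ω h0 => ?_
    have h1 := nres_mono (D := D) hB0 hp Y P hDn i ω
    have h2 := nres_le (by omega) hsys P D n hi h0
    rw [← hT] at h2
    have h3 : 0 ≤ (d : ℝ) * T := by positivity
    by_cases hb : Ab * T ≤ nres B p Y P D D i ω
    · rw [if_pos hb]
      by_cases hs : nres B p Y P D n i ω < Θ * T
      · rw [if_pos hs]
        nlinarith
      · rw [if_neg hs]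
        have : 0 ≤ Ab * T := mul_nonneg (by linarith) hT0.le
        nlinarith
    · rw [if_neg hb]
      rw [not_le] at hb
      by_cases hs : nres B p Y P D n i ω < Θ * T
      · rw [if_pos hs]
        nlinarith
      · rw [if_neg hs]
        nlinarith
  rw [avp_add, avp_add, avp_const hp hl1, avp_mul, avp_mul] at key
  have f1 : avp p i0 l1 (fun i ω => if nres B p Y P D n i ω < Θ * T then (1 : ℝ) else 0) =
      prl p i0 l1 (fun i ω => nres B p Y P D n i ω < Θ * T) := by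
    rw [← avp_ite]
  have f2 : avp p i0 l1 (fun i ω => if Ab * T ≤ nres B p Y P D D i ω then (1 : ℝ) else 0) =
      prl p i0 l1 (fun i ω => Ab * T ≤ nres B p Y P D D i ω) := by
    rw [← avp_ite]
  rw [f1, f2] at key
  have h5 : (d : ℝ) * T * prl p i0 l1 (fun i ω => Ab * T ≤ nres B p Y P D D i ω) ≤ d * T * π :=
    mul_le_mul_of_nonneg_left hup (by positivity)
  obtain ⟨q, hq⟩ : ∃ q, q = prl p i0 l1 (fun i ω => nres B p Y P D n i ω < Θ * T) := ⟨_, rfl⟩
  rw [← hq] at key ⊢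
  have h6 : T * ((Ab - Θ) * q) ≤ T * (Ab - A + d * π) := by nlinarith
  exact le_of_mul_le_mul_left h6 hT0

theorem hup {B b d R : ℕ} (hB : 2 ≤ B) {C0 : ℝ} {φ : ℕ → ℝ} {M α δ1 : ℝ} {D Q : ℕ}
    (hnb : ¬ Bad B d C0 φ R b M α δ1 D Q) {H : Type} [Fintype H] {σ s : H → ℝ}
    (hH : IsHts φ Q σ s) {i0 : ℕ} {p : Ω → ℝ} {Y : Ω → Co d → ℝ} (hsys : IsSys B d C0 i0 p Y)
    (S : H → Prop) (P : H → Matrix (Fin b) (Co d) ℝ)
    (hS : ∀ h, S h → (∃ J, Chart M (P h) J) ∧ (kmat (P h) (s h)).rank ≤ R) {l1 : ℕ} (hl1 : 0 < l1)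
    {π : ℝ} (hπ : 0 < π) :
    π * pr σ (fun h => S h ∧ π < prl p i0 l1 (fun i ω =>
      (m0 d b R + α) * D * Real.log B ≤ nres B p Y (P h) D D i ω)) ≤ δ1 := by
  classical
  have hp := hsys.pr
  have hσ := hH.isPr
  obtain ⟨A, hA⟩ : ∃ A : H → ℕ → Ω → Prop, A = fun h i ω =>
    (m0 d b R + α) * D * Real.log B ≤ nres B p Y (P h) D D i ω := ⟨_, rfl⟩
  have hmk := hts_markov hσ S (fun h => prl p i0 l1 (A h)) (fun h _ => prl_nonneg hp _) π
  have h1 : π * pr σ (fun h => S h ∧ π < prl p i0 l1 (A h)) ≤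
      ∑ h, σ h * (if S h then prl p i0 l1 (A h) else 0) := by
    refine hmk.trans (le_of_eq ?_)
    refine sum_congr rfl fun h _ => ?_
    congr
  have h2 : ∀ i, i0 ≤ i → ∀ ω, p ω ≠ 0 → pr σ (fun h => S h ∧ A h i ω) ≤ δ1 := by
    intro i hi ω h0
    by_contra hcon
    rw [not_le] at hcon
    refine hnb ⟨H, inferInstance, σ, s, Ω, inferInstance, nd B p Y i ω, Y, i,
      fun h => S h ∧ A h i ω, P, hH, hsys.node hi h0, hcon.le, ?_⟩
    rintro h ⟨hs, ha⟩
    rw [hA] at ha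
    exact ⟨(hS h hs).1, (hS h hs).2, ha⟩
  have h3 : ∑ h, σ h * (if S h then prl p i0 l1 (A h) else 0) =
      avp p i0 l1 (fun i ω => pr σ (fun h => S h ∧ A h i ω)) := by
    have e1 : ∀ h, σ h * (if S h then prl p i0 l1 (A h) else 0) =
        (∑ i ∈ range l1, ∑ ω, p ω * (if S h ∧ A h (i0 + i) ω then σ h else 0)) / l1 := by
      intro h
      by_cases hs : S h
      · rw [if_pos hs]
        unfold prl avl pr
        rw [← mul_div_assoc, mul_sum]
        congr 1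
        refine sum_congr rfl fun i _ => ?_
        rw [mul_sum]
        refine sum_congr rfl fun ω _ => ?_
        by_cases ha : A h (i0 + i) ω
        · rw [if_pos ha, if_pos ⟨hs, ha⟩]
          ring
        · rw [if_neg ha, if_neg fun h' => ha h'.2]
          ring
      · rw [if_neg hs]
        have e2 : ∀ i ω, (if S h ∧ A h (i0 + i) ω then σ h else 0) = 0 :=
          fun i ω => if_neg fun h' => hs h'.1
        simp only [e2, mul_zero, sum_const_zero, zero_div]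
    rw [sum_congr rfl fun h _ => e1 h, ← sum_div]
    unfold avp avl
    congr 1
    rw [sum_comm]
    refine sum_congr rfl fun i _ => ?_
    rw [sum_comm]
    refine sum_congr rfl fun ω _ => ?_
    rw [← mul_sum]
    congr 1
    unfold pr
    refine sum_congr rfl fun h _ => ?_
    congr
  have h4 : avp p i0 l1 (fun i ω => pr σ (fun h => S h ∧ A h i ω)) ≤ δ1 := by
    have h5 : avp p i0 l1 (fun i ω => pr σ (fun h => S h ∧ A h i ω)) ≤
        avp p i0 l1 (fun _ _ => δ1) := avp_mono hp fun i hi _ ω h0 => h2 i hi ω h0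
    rwa [avp_const hp hl1] at h5
  rw [hA] at h1 h3 h4
  exact h1.trans (h3.le.trans h4)

end STK
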