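import Pool.Agent.Lib.MP_ac5134_an.STK.KCell
import Pool.Agent.Lib.MP_ac5134_an.SD.Glue

/-!
# STK-KMoveP: adding a row (`b → b + 1`), Case II at a node

`P, P'` are charts with the same `J`, `(j, c0)` is the position of an entry of `P' - P` of maximal modulus
`η > 0`; `lam = (P' j - P j) / (P' j c0 - P j c0)`: `lam c0 = 1`, `|lam c| ≤ 1`, `lam (J r) = 0` (both
matrices have the identity in the columns `J`), so `c0 ∉ range J`.
`PP`: row `0` is `lam`, row `r + 1` is `P_r - P_{r c0} lam`.  `J+ = Fin.cons c0 J`.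
* `PP_rank`: `kmat (PP ..) s = (rows of kmat P s) + multiples of the row of lam`, rank `≤ rank + 1`.
* `PP_cent`: let `y = lam Y`.  `H(f | X+) ≥ H(f | X+, X)`, where `X+` contains `⌊B^q y⌋`; and
  `H(f | X+, X) ≥ H(f | X, ⌊B^q y⌋) - H(X+ | X, ⌊B^q y⌋)`, and given `X, ⌊B^q y⌋` each
  `⌊B^q (x_r - P_{r c0} y)⌋` lies in an interval of length `M + 2` (at most `M + 3` integers).
* `cent_le_gl`: for a class `γ` of `g` let `f_γ` be the conditional probability (two independent points of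
  the class) that `K < |f y.1 - f y.2|`.  There is a point `ω0` of the class with
  `P(K < |f ω - f ω0| | γ) ≤ f_γ`.  On the class: entropy `≤ log 2` (for the event) `+ log (2K+1)`
  (integers at distance `≤ K` from `f ω0`) `+ f_γ log (2L+1)`; average over `γ` (the gl-probability is the
  average of `f_γ`).
-/

namespace STK
open Finset RFold Pool.Agent.MPac5134.SD

/-- the normalized row `j` of `P' - P` -/
noncomputable def lam {b d : ℕ} (P P' : Matrix (Fin b) (Co d) ℝ) (j : Fin b) (c0 : Co d)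
    (c : Co d) : ℝ := (P' j c - P j c) / (P' j c0 - P j c0)

/-- add the row `lam` -/
noncomputable def PP {b d : ℕ} (P P' : Matrix (Fin b) (Co d) ℝ) (j : Fin b) (c0 : Co d) :
    Matrix (Fin (b + 1)) (Co d) ℝ :=
  Fin.cons (fun c => lam P P' j c0 c) (fun r c => P r c - P r c0 * lam P P' j c0 c)

private theorem lam_c0 {b d : ℕ} {P P' : Matrix (Fin b) (Co d) ℝ} {j : Fin b} {c0 : Co d}
    (hne : P' j c0 - P j c0 ≠ 0) : lam P P' j c0 c0 = 1 := div_self hne

private theorem lam_J {b d : ℕ} {M : ℝ} {P P' : Matrix (Fin b) (Co d) ℝ}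
    {J : Fin b → Co d} (h : Chart M P J) (h' : Chart M P' J) (j : Fin b) (c0 : Co d) (r : Fin b) :
    lam P P' j c0 (J r) = 0 := by
  unfold lam
  rw [h.one, h'.one, sub_self, zero_div]

private theorem lam_abs {b d : ℕ} {P P' : Matrix (Fin b) (Co d) ℝ} {j : Fin b} {c0 : Co d}
    (hmax : ∀ r c, |P' r c - P r c| ≤ |P' j c0 - P j c0|) (c : Co d) : |lam P P' j c0 c| ≤ 1 := by
  unfold lam
  rw [abs_div]
  exact div_le_one_of_le₀ (hmax _ _) (abs_nonneg _)

theorem PP_chart {b d : ℕ} {M : ℝ} (hM : 1 ≤ M) {P P' : Matrix (Fin b) (Co d) ℝ}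
    {J : Fin b → Co d} (h : Chart M P J) (h' : Chart M P' J) {j : Fin b} {c0 : Co d}
    (hne : P' j c0 - P j c0 ≠ 0) (hmax : ∀ r c, |P' r c - P r c| ≤ |P' j c0 - P j c0|) :
    Chart (2 * M) (PP P P' j c0) (Fin.cons c0 J) := by
  refine ⟨?_, ?_, ?_⟩
  · rw [Fin.cons_injective_iff]
    refine ⟨?_, h.inj⟩
    rintro ⟨r, hr⟩
    apply hne
    rw [← hr, h.one, h'.one, sub_self]
  · intro r r'
    refine Fin.cases ?_ (fun r => ?_) r <;> refine Fin.cases ?_ (fun r' => ?_) r'
    · simp only [PP, Fin.cons_zero, if_true]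
      exact lam_c0 hne
    · simp only [PP, Fin.cons_zero, Fin.cons_succ]
      rw [if_neg (Fin.succ_ne_zero r').symm]
      exact lam_J h h' j c0 r'
    · simp only [PP, Fin.cons_zero, Fin.cons_succ]
      rw [if_neg (Fin.succ_ne_zero r), lam_c0 hne, mul_one, sub_self]
    · simp only [PP, Fin.cons_succ]
      rw [lam_J h h' j c0 r', mul_zero, sub_zero, h.one]
      simp only [Fin.succ_inj]
  · intro r c
    refine Fin.cases ?_ (fun r => ?_) r
    · simp only [PP, Fin.cons_zero]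
      have := lam_abs hmax c
      linarith
    · simp only [PP, Fin.cons_succ]
      have h1 := h.bd r c
      have h2 := h.bd r c0
      have h3 := lam_abs hmax c
      have h4 : |P r c0 * lam P P' j c0 c| ≤ M := by
        rw [abs_mul]
        calc |P r c0| * |lam P P' j c0 c| ≤ M * 1 :=
              mul_le_mul h2 h3 (abs_nonneg _) (by linarith)
          _ = M := mul_one M
      calc |P r c - P r c0 * lam P P' j c0 c| ≤ |P r c| + |P r c0 * lam P P' j c0 c| := abs_sub _ _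
        _ ≤ 2 * M := by linarith

private theorem rank_add_le' {m : ℕ} {ι : Type*} [Fintype ι] (A B : Matrix (Fin m) ι ℝ) :
    (A + B).rank ≤ A.rank + B.rank := by
  unfold Matrix.rank
  have h1 : LinearMap.range (A + B).mulVecLin ≤
      LinearMap.range A.mulVecLin ⊔ LinearMap.range B.mulVecLin := by
    rintro _ ⟨v, rfl⟩
    rw [Matrix.mulVecLin_apply, Matrix.add_mulVec]
    exact Submodule.add_mem_sup ⟨v, rfl⟩ ⟨v, rfl⟩
  exact (Submodule.finrank_mono h1).trans (Submodule.finrank_add_le_finrank_add_finrank _ _)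

theorem PP_rank {b d : ℕ} (P P' : Matrix (Fin b) (Co d) ℝ) (j : Fin b) (c0 : Co d) (s : ℝ) :
    (kmat (PP P P' j c0) s).rank ≤ (kmat P s).rank + 1 := by
  classical
  let A : Matrix (Fin (b + 1)) (Fin b) ℝ :=
    Fin.cons (fun _ => 0) (fun r r' => if r = r' then 1 else 0)
  let u : Fin (b + 1) → ℝ := Fin.cons 1 (fun r => - P r c0)
  let μ : Fin d → ℝ := fun c => lam P P' j c0 (Sum.inr c) - s * lam P P' j c0 (Sum.inl c)
  have e : kmat (PP P P' j c0) s = A * kmat P s + Matrix.vecMulVec u μ := by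
    ext r c
    rw [Matrix.add_apply, Matrix.mul_apply, Matrix.vecMulVec_apply]
    refine Fin.cases ?_ (fun r => ?_) r
    · simp only [A, u, μ, kmat, PP, Fin.cons_zero, zero_mul, Finset.sum_const_zero, zero_add,
        one_mul]
    · simp only [A, u, μ, kmat, PP, Fin.cons_succ, ite_mul, one_mul, zero_mul,
        Finset.sum_ite_eq, Finset.mem_univ, if_true]
      ring
  rw [e]
  refine (rank_add_le' _ _).trans ?_
  exact add_le_add (Matrix.rank_mul_le_right _ _) (Matrix.rank_vecMulVec_le _ _)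

private theorem obs_PP_zero {Ω : Type*} {b d : ℕ} (P P' : Matrix (Fin b) (Co d) ℝ) (j : Fin b)
    (c0 : Co d) (Y : Ω → Co d → ℝ) (ω : Ω) :
    obs (PP P P' j c0) Y ω 0 = ∑ c, lam P P' j c0 c * Y ω c := by
  simp only [obs, PP, Fin.cons_zero]

private theorem obs_PP_succ {Ω : Type*} {b d : ℕ} (P P' : Matrix (Fin b) (Co d) ℝ) (j : Fin b)
    (c0 : Co d) (Y : Ω → Co d → ℝ) (ω : Ω) (r : Fin b) :
    obs (PP P P' j c0) Y ω r.succ =
      obs P Y ω r - P r c0 * ∑ c, lam P P' j c0 c * Y ω c := by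
  simp only [obs, PP, Fin.cons_succ]
  rw [Finset.mul_sum, ← Finset.sum_sub_distrib]
  exact Finset.sum_congr rfl fun c _ => by ring

private theorem floor_comb {M t u v : ℝ} (ht : |t| ≤ M) {n m : ℤ} (hn : ⌊u⌋ = n) (hm : ⌊v⌋ = m) :
    ⌊(n : ℝ) - t * m - max t 0⌋ ≤ ⌊u - t * v⌋ ∧
      ⌊u - t * v⌋ < ⌊(n : ℝ) - t * m - max t 0⌋ + ((⌊M⌋₊ + 3 : ℕ) : ℤ) := by
  have f1 := Int.floor_le u
  have f2 := Int.lt_floor_add_one u
  have f3 := Int.floor_le v
  have f4 := Int.lt_floor_add_one v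
  rw [hn] at f1 f2
  rw [hm] at f3 f4
  have hlow : (n : ℝ) - t * m - max t 0 ≤ u - t * v := by
    rcases le_total 0 t with h | h
    · rw [max_eq_left h]
      nlinarith
    · rw [max_eq_right h]
      nlinarith
  have hup : u - t * v < ((n : ℝ) - t * m - max t 0) + 1 + M := by
    have h1 := abs_le.mp ht
    rcases le_total 0 t with h | h
    · rw [max_eq_left h]
      nlinarith
    · rw [max_eq_right h]
      nlinarith
  set L : ℝ := (n : ℝ) - t * m - max t 0 with hL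
  refine ⟨Int.floor_le_floor hlow, ?_⟩
  have g1 := Int.floor_le (u - t * v)
  have g2 := Int.lt_floor_add_one L
  have g3 := Nat.lt_floor_add_one M
  have g4 : ((⌊u - t * v⌋ : ℤ) : ℝ) < ((⌊L⌋ + ((⌊M⌋₊ + 3 : ℕ) : ℤ) : ℤ) : ℝ) := by
    push_cast
    linarith
  exact_mod_cast g4

theorem PP_cent {Ω : Type} [Fintype Ω] {p : Ω → ℝ} (hp : IsPr p) {B b d q : ℕ} (hB : 2 ≤ B) {M : ℝ}
    (hM : 1 ≤ M) {P P' : Matrix (Fin b) (Co d) ℝ} (hP : ∀ r c, |P r c| ≤ M) (j : Fin b) (c0 : Co d)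
    (Y : Ω → Co d → ℝ) {α : Type*} (f : Ω → α) :
    cent p f (fun ω => (Xc B q 0 (obs P Y) ω, ⌊(B : ℝ) ^ q * ∑ c, lam P P' j c0 c * Y ω c⌋)) -
        b * Real.log (M + 3) ≤
      cent p f (Xc B q 0 (obs (PP P P' j c0) Y)) := by
  set G : Ω → (Fin b → ℤ) × ℤ := fun ω =>
    (Xc B q 0 (obs P Y) ω, ⌊(B : ℝ) ^ q * ∑ c, lam P P' j c0 c * Y ω c⌋) with hG
  set X' : Ω → Fin (b + 1) → ℤ := Xc B q 0 (obs (PP P P' j c0) Y) with hX'
  have hX0 : ∀ ω, X' ω 0 = (G ω).2 := by
    intro ω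
    simp only [hX', hG, Xc, Pi.zero_apply, add_zero]
    rw [obs_PP_zero]
  have h1 : cent p f (fun ω => (X' ω, G ω)) ≤ cent p f X' := cent_anti hp f (Det.fst (Det.refl _))
  have h2 := cent_chain hp X' f G
  have h3 : cent p f G ≤ cent p (fun ω => (X' ω, f ω)) G :=
    cent_mono hp (Det.fst (Det.snd (Det.refl f))) (Det.refl _)
  have h4 : cent p X' G ≤ cent p (fun ω r => X' ω (Fin.succ r)) G := by
    refine cent_mono hp ?_ (Det.refl _)
    intro ω ω' _ _ e
    have e1 : (fun r => X' ω (Fin.succ r)) = (fun r => X' ω' (Fin.succ r)) := congrArg Prod.fst e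
    have e2 : G ω = G ω' := congrArg Prod.snd e
    funext r
    refine Fin.cases ?_ (fun r => ?_) r
    · rw [hX0, hX0, e2]
    · exact congrFun e1 r
  have h5 : cent p (fun ω r => X' ω (Fin.succ r)) G ≤ b * Real.log (⌊M⌋₊ + 3 : ℕ) := by
    refine cent_le_box hp (fun ω r => X' ω (Fin.succ r)) G (⌊M⌋₊ + 3) ?_
    intro ω₀ _
    refine ⟨fun r => ⌊(((G ω₀).1 r : ℤ) : ℝ) - P r c0 * ((G ω₀).2 : ℤ) - max (P r c0) 0⌋, ?_⟩
    intro ω _ e r
    have e1 : ⌊(B : ℝ) ^ q * obs P Y ω r⌋ = (G ω₀).1 r := by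
      rw [← e]
      simp only [hG, Xc, Pi.zero_apply, add_zero]
    have e2 : ⌊(B : ℝ) ^ q * ∑ c, lam P P' j c0 c * Y ω c⌋ = (G ω₀).2 := by
      rw [← e]
    have h := floor_comb (hP r c0) e1 e2
    have e3 : X' ω r.succ = ⌊(B : ℝ) ^ q * obs P Y ω r -
        P r c0 * ((B : ℝ) ^ q * ∑ c, lam P P' j c0 c * Y ω c)⌋ := by
      simp only [hX', Xc, Pi.zero_apply, add_zero]
      rw [obs_PP_succ]
      congr 1
      ring
    simp only [e3]
    exact h
  have h6 : Real.log (⌊M⌋₊ + 3 : ℕ) ≤ Real.log (M + 3) := by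
    refine Real.log_le_log (by positivity) ?_
    push_cast
    have := Nat.floor_le (by linarith : (0 : ℝ) ≤ M)
    linarith
  have h7 : (b : ℝ) * Real.log (⌊M⌋₊ + 3 : ℕ) ≤ b * Real.log (M + 3) :=
    mul_le_mul_of_nonneg_left h6 (Nat.cast_nonneg b)
  linarith

private theorem pr_pair {Ω : Type} [Fintype Ω] {p : Ω → ℝ} {γ : Type*} (g : Ω → γ)
    (A : Ω → Ω → Prop) :
    pr (gl p p g g) (fun y => A y.1 y.2) =
      ∑ ω, p ω / law p g (g ω) * pr p (fun ω' => g ω' = g ω ∧ A ω ω') := by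
  classical
  unfold pr
  rw [Fintype.sum_prod_type]
  refine sum_congr rfl fun ω _ => ?_
  rw [mul_sum]
  refine sum_congr rfl fun ω' _ => ?_
  unfold gl
  by_cases h1 : g ω = g ω'
  · by_cases h2 : A ω ω'
    · simp only [h1, h2, and_self, if_true]
      ring
    · simp only [h2, and_false, if_false, mul_zero]
  · have h1' : ¬ g ω' = g ω := fun h => h1 h.symm
    simp only [h1, h1', false_and, if_false, mul_zero, ite_self]

private theorem pr_gl_snd' {Ω : Type} [Fintype Ω] {p : Ω → ℝ} (hp : IsPr p) {γ : Type*} (g : Ω → γ)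
    (A : Ω → Prop) : pr (gl p p g g) (fun y => A y.2) = pr p A := by
  classical
  have h := sum_gl_snd (f := g) (g := g) hp hp (fun _ => rfl) (fun ω => if A ω then 1 else 0)
  simp only [mul_ite, mul_one, mul_zero] at h
  unfold pr
  exact h

theorem cent_le_gl {Ω : Type} [Fintype Ω] {p : Ω → ℝ} (hp : IsPr p) {γ : Type*} (f : Ω → ℤ)
    (g : Ω → γ) {K L : ℕ} {κ : ℝ} (hL : ∀ ω ω', p ω ≠ 0 → p ω' ≠ 0 → |f ω - f ω'| ≤ L)
    (h : pr (gl p p g g) (fun y => (K : ℤ) < |f y.1 - f y.2|) ≤ κ) :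
    cent p f g ≤ Real.log 2 + Real.log (2 * K + 1) + κ * Real.log (2 * L + 1) := by
  classical
  -- centres
  have hc : ∀ c : γ, ∃ n : ℤ, ∀ ω, p ω ≠ 0 → g ω = c → |f ω - n| ≤ L ∧
      pr p (fun ω' => g ω' = c ∧ (K : ℤ) < |f ω' - n|) ≤
        pr p (fun ω' => g ω' = c ∧ (K : ℤ) < |f ω - f ω'|) := by
    intro c
    by_cases hne : (univ.filter fun ω => p ω ≠ 0 ∧ g ω = c).Nonempty
    · obtain ⟨ω1, h1, h2⟩ := exists_min_image _
        (fun ω => pr p (fun ω' => g ω' = c ∧ (K : ℤ) < |f ω - f ω'|)) hne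
      rw [mem_filter] at h1
      refine ⟨f ω1, fun ω h0 hg => ⟨hL ω ω1 h0 h1.2.1, ?_⟩⟩
      have h3 := h2 ω (mem_filter.mpr ⟨mem_univ _, h0, hg⟩)
      refine le_trans (le_of_eq ?_) h3
      congr 1
      funext ω'
      rw [abs_sub_comm]
    · refine ⟨0, fun ω h0 hg => ?_⟩
      exact absurd ⟨ω, mem_filter.mpr ⟨mem_univ _, h0, hg⟩⟩ hne
  choose n hn using hc
  -- the far event
  have hfar : pr p (fun ω => (K : ℤ) < |f ω - n (g ω)|) ≤ κ := by
    refine le_trans ?_ h
    rw [← pr_gl_snd' hp g (fun ω => (K : ℤ) < |f ω - n (g ω)|),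
      pr_pair g (fun _ ω' => (K : ℤ) < |f ω' - n (g ω')|),
      pr_pair g (fun ω ω' => (K : ℤ) < |f ω - f ω'|)]
    refine sum_le_sum fun ω _ => ?_
    by_cases h0 : p ω = 0
    · rw [h0, zero_div, zero_mul, zero_mul]
    · refine mul_le_mul_of_nonneg_left ?_ (div_nonneg (hp.nonneg _) (law_nonneg hp _ _))
      refine le_trans (le_of_eq ?_) (hn (g ω) ω h0 rfl).2
      refine pr_congr hp fun ω' _ => ?_
      constructor
      · rintro ⟨e, h1⟩
        rw [e] at h1
        exact ⟨e, h1⟩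
      · rintro ⟨e, h1⟩
        rw [← e] at h1
        exact ⟨e, h1⟩
  -- Gibbs
  have hK : (0 : ℝ) < 2 * K + 1 := by positivity
  have hL' : (0 : ℝ) < 2 * L + 1 := by positivity
  let q : γ → ℤ → ℝ := fun c m => (if |m - n c| ≤ K then (1 / 2) * (2 * K + 1 : ℝ)⁻¹ else 0) +
    (if |m - n c| ≤ L then (1 / 2) * (2 * L + 1 : ℝ)⁻¹ else 0)
  have hcard : ∀ (a : ℤ) (k : ℕ) (S : Finset ℤ),
      ∑ m ∈ S, (if |m - a| ≤ k then (1 / 2) * (2 * k + 1 : ℝ)⁻¹ else 0) ≤ 1 / 2 := by
    intro a k S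
    rw [← sum_filter, sum_const, nsmul_eq_mul]
    have h1 : (S.filter fun m => |m - a| ≤ (k : ℤ)).card ≤ 2 * k + 1 := by
      have h2 : (S.filter fun m => |m - a| ≤ (k : ℤ)) ⊆ Finset.Icc (a - k) (a + k) := by
        intro m hm
        have h3 := abs_le.mp (mem_filter.mp hm).2
        rw [Finset.mem_Icc]
        constructor <;> linarith [h3.1, h3.2]
      refine (card_le_card h2).trans ?_
      rw [Int.card_Icc]
      omega
    have h1' : ((S.filter fun m => |m - a| ≤ (k : ℤ)).card : ℝ) ≤ 2 * k + 1 := by exact_mod_cast h1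
    have hk : (0 : ℝ) < 2 * k + 1 := by positivity
    calc ((S.filter fun m => |m - a| ≤ (k : ℤ)).card : ℝ) * ((1 / 2) * (2 * k + 1 : ℝ)⁻¹)
        ≤ (2 * k + 1) * ((1 / 2) * (2 * k + 1 : ℝ)⁻¹) :=
          mul_le_mul_of_nonneg_right h1' (by positivity)
      _ = 1 / 2 := by field_simp
  have hqpos : ∀ ω, p ω ≠ 0 → 0 < q (g ω) (f ω) := by
    intro ω h0
    have h1 := (hn (g ω) ω h0 rfl).1
    simp only [q]
    rw [if_pos h1]
    have : (0 : ℝ) ≤ (if |f ω - n (g ω)| ≤ (K : ℤ) then (1 / 2) * (2 * K + 1 : ℝ)⁻¹ else 0) := by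
      split_ifs <;> positivity
    positivity
  have hg := cent_le_gibbs hp f g q hqpos (fun c => univ.image f)
    (fun ω _ => mem_image_of_mem f (mem_univ ω)) (fun ω _ m _ => by
      simp only [q]
      refine add_nonneg ?_ ?_ <;> split_ifs <;> positivity)
    (fun ω _ => by
      simp only [q]
      rw [sum_add_distrib]
      have h1 := hcard (n (g ω)) K (univ.image f)
      have h2 := hcard (n (g ω)) L (univ.image f)
      linarith)
  refine hg.trans ?_
  have hterm : ∀ ω, p ω * (-Real.log (q (g ω) (f ω))) ≤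
      p ω * (Real.log 2 + Real.log (2 * K + 1)) +
        (if (K : ℤ) < |f ω - n (g ω)| then p ω else 0) * Real.log (2 * L + 1) := by
    intro ω
    by_cases h0 : p ω = 0
    · simp [h0]
    · have hpos : 0 < p ω := lt_of_le_of_ne (hp.nonneg ω) (Ne.symm h0)
      have hlL : 0 ≤ Real.log (2 * L + 1 : ℝ) := Real.log_nonneg (by
        have : (0 : ℝ) ≤ L := Nat.cast_nonneg L
        linarith)
      have hlK : 0 ≤ Real.log (2 * K + 1 : ℝ) := Real.log_nonneg (by
        have : (0 : ℝ) ≤ K := Nat.cast_nonneg K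
        linarith)
      by_cases h1 : (K : ℤ) < |f ω - n (g ω)|
      · rw [if_pos h1]
        have h2 : (1 / 2) * (2 * L + 1 : ℝ)⁻¹ ≤ q (g ω) (f ω) := by
          simp only [q]
          rw [if_neg (not_le.mpr h1), if_pos (hn (g ω) ω h0 rfl).1, zero_add]
        have h3 := Real.log_le_log (by positivity) h2
        rw [Real.log_mul (by norm_num) (by positivity), Real.log_inv, one_div, Real.log_inv] at h3
        have h4 : -Real.log (q (g ω) (f ω)) ≤
            (Real.log 2 + Real.log (2 * K + 1)) + Real.log (2 * L + 1) := by linarith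
        have h5 := mul_le_mul_of_nonneg_left h4 hpos.le
        linarith
      · rw [if_neg h1]
        have h2 : (1 / 2) * (2 * K + 1 : ℝ)⁻¹ ≤ q (g ω) (f ω) := by
          simp only [q]
          rw [if_pos (not_lt.mp h1)]
          have : (0 : ℝ) ≤ (if |f ω - n (g ω)| ≤ (L : ℤ) then (1 / 2) * (2 * L + 1 : ℝ)⁻¹ else 0) := by
            split_ifs <;> positivity
          linarith
        have h3 := Real.log_le_log (by positivity) h2
        rw [Real.log_mul (by norm_num) (by positivity), Real.log_inv, one_div, Real.log_inv] at h3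
        have h4 : -Real.log (q (g ω) (f ω)) ≤ Real.log 2 + Real.log (2 * K + 1) := by linarith
        have h5 := mul_le_mul_of_nonneg_left h4 hpos.le
        linarith
  refine (sum_le_sum fun ω _ => hterm ω).trans ?_
  rw [sum_add_distrib, ← sum_mul, ← sum_mul, hp.sum_eq, one_mul]
  have h8 : (∑ ω, if (K : ℤ) < |f ω - n (g ω)| then p ω else 0) ≤ κ := by
    refine le_trans (le_of_eq ?_) hfar
    unfold pr
    exact sum_congr rfl fun ω _ => by congr
  have hlL : 0 ≤ Real.log (2 * L + 1 : ℝ) := Real.log_nonneg (by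
    have : (0 : ℝ) ≤ L := Nat.cast_nonneg L
    linarith)
  have h9 := mul_le_mul_of_nonneg_right h8 hlL
  linarith

end STK
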