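import Pool.Agent.Lib.MP_ac5134_an.STK.KNum
import Pool.Agent.Lib.MP_ac5134_an.STK.KLow
import Pool.Agent.Lib.MP_ac5134_an.STK.KZ
import Pool.Agent.Lib.MP_ac5134_an.STK.KMoveP

/-!
# STK-KCase2: Case II for one pair of heights

`node_two` (one node, system of level `i`; `f = W_{i+Dp}`, `y = ⌊B^(i+Dp) (lam Y)⌋`, `c = i + n`):
`cent f X_c^z ≥ cent f X_c^0 - b log 2` (`cent_shift'`);
`cent y X_c^z ≤ log 2 + log 5 + κ1 log (2L+1)` by `cent_le_gl` with `K = 2`: if `y.1, y.2` are not `far`, then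
`|lam Y y.1 - lam Y y.2| < 2 B^(-q) / |P' j c0 - P j c0| ≤ 2 B^(-(i+Dp))` and the floors differ by at most 2;
`L = ⌈2 d C0 B^Dp⌉ + 1` because `|lam Y - lam Y'| ≤ 2 d C0 B^(-i)` (`|lam c| ≤ 1`, `lip`, `base`), and
`log (2L+1) ≤ Dp log B + log (4 d C0 + 5)`;
`cent f (X_c^z, y) ≥ cent f X_c^z - cent y X_c^z`; `cent f (X_{i+Dp}^z, y) ≥ cent f (X_c^z, y)` (`Dp ≤ n`);
`cent_shift` back to the shift 0; `PP_cent`.
`case_two`: `prl_markov`: `P(avz A1 > κ1) ≤ κ1 ≤ 1/4`; if `avz A1 ≤ κ1` then `A1 z ≤ κ1` for some `z ∈ Zb`.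
-/

namespace STK
open Finset RFold Pool.Agent.MPac5134.SD

variable {Ω : Type} [Fintype Ω]

/-- the normalized row is Lipschitz -/
private theorem KCase2_lam_lip {B d b : ℕ} {C0 : ℝ} {i : ℕ}
    {p : Ω → ℝ} {Y : Ω → Co d → ℝ} (hsys : IsSys B d C0 i p Y) {P P' : Matrix (Fin b) (Co d) ℝ}
    {j : Fin b} {c0 : Co d}
    (hmax : ∀ r c, |P' r c - P r c| ≤ |P' j c0 - P j c0|) {ω ω' : Ω} (hω : p ω ≠ 0)
    (hω' : p ω' ≠ 0) :
    |∑ c, lam P P' j c0 c * Y ω c - ∑ c, lam P P' j c0 c * Y ω' c| ≤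
      2 * d * C0 * ((B : ℝ) ^ i)⁻¹ := by
  rw [← Finset.sum_sub_distrib]
  refine (Finset.abs_sum_le_sum_abs _ _).trans ?_
  have h1 : ∀ c ∈ (univ : Finset (Co d)), |lam P P' j c0 c * Y ω c - lam P P' j c0 c * Y ω' c| ≤
      C0 * ((B : ℝ) ^ i)⁻¹ := by
    intro c _
    rw [← mul_sub, abs_mul]
    have h2 : |lam P P' j c0 c| ≤ 1 := by
      unfold lam
      rw [abs_div]
      exact div_le_one_of_le₀ (hmax j c) (abs_nonneg _)
    have h3 := hsys.lip i le_rfl ω ω' hω hω' (hsys.base ω ω' hω hω') c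
    calc |lam P P' j c0 c| * |Y ω c - Y ω' c| ≤ 1 * |Y ω c - Y ω' c| :=
          mul_le_mul_of_nonneg_right h2 (abs_nonneg _)
      _ ≤ _ := by rw [one_mul]; exact h3
  refine (Finset.sum_le_sum h1).trans (le_of_eq ?_)
  rw [Finset.sum_const, Finset.card_univ, Fintype.card_sum, Fintype.card_fin, nsmul_eq_mul]
  push_cast
  ring

omit [Fintype Ω] in
/-- the row `j` of the difference -/
private theorem KCase2_obs {b d : ℕ} {P P' : Matrix (Fin b) (Co d) ℝ} {j : Fin b} {c0 : Co d}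
    (h0 : 0 < |P' j c0 - P j c0|) (Y : Ω → Co d → ℝ) (ω : Ω) :
    obs (P' - P) Y ω j = (P' j c0 - P j c0) * ∑ c, lam P P' j c0 c * Y ω c := by
  have hne : P' j c0 - P j c0 ≠ 0 := abs_pos.1 h0
  unfold obs
  rw [Finset.mul_sum]
  refine Finset.sum_congr rfl fun c _ => ?_
  rw [Matrix.sub_apply]
  unfold lam
  field_simp

theorem node_two {B b d : ℕ} (hB : 2 ≤ B) {C0 M : ℝ} (hC0 : 0 ≤ C0) (hM : 1 ≤ M) {i : ℕ}
    {p : Ω → ℝ} {Y : Ω → Co d → ℝ} (hsys : IsSys B d C0 i p Y) {P P' : Matrix (Fin b) (Co d) ℝ}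
    (hP : ∀ r c, |P r c| ≤ M) {j : Fin b} {c0 : Co d} (h0 : 0 < |P' j c0 - P j c0|)
    (hmax : ∀ r c, |P' r c - P r c| ≤ |P' j c0 - P j c0|) {n Dp q N : ℕ} (hN : 0 < N)
    (hq : ((B : ℝ) ^ q)⁻¹ ≤ |P' j c0 - P j c0| * ((B : ℝ) ^ (i + Dp))⁻¹) (hn : Dp ≤ n)
    (z : Fin b → ℤ) {κ1 : ℝ} (hA : A1 B N p Y P P' (i + n) q z ≤ κ1) :
    cent p (Wc B (i + Dp) Y) (Xc B (i + n) 0 (obs P Y)) -
        (2 * (b * Real.log 2) + Real.log 2 + Real.log 5 +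
          κ1 * (Dp * Real.log B + Real.log (4 * d * C0 + 5)) + b * Real.log (M + 3)) ≤
      cent p (Wc B (i + Dp) Y) (Xc B (i + Dp) 0 (obs (PP P P' j c0) Y)) := by
  have hp : IsPr p := hsys.pr
  have hB0 : (0 : ℝ) < B := by
    have : 0 < B := by omega
    exact_mod_cast this
  have hB1 : (1 : ℝ) ≤ B := by exact_mod_cast (by omega : 1 ≤ B)
  have hBpos : 0 < B := by omega
  set x : Ω → Fin b → ℝ := obs P Y with hx
  set f : Ω → Fin d → ℤ := Wc B (i + Dp) Y with hf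
  set y : Ω → ℤ := fun ω => ⌊(B : ℝ) ^ (i + Dp) * ∑ c, lam P P' j c0 c * Y ω c⌋ with hy
  set X0 : Ω → Fin b → ℤ := Xc B (i + n) 0 x with hX0
  set Xz : Ω → Fin b → ℤ := Xc B (i + n) (sh N z) x with hXz
  set L : ℕ := ⌈2 * d * C0 * (B : ℝ) ^ Dp + 1⌉₊ with hL
  have hBq : (0 : ℝ) < (B : ℝ) ^ (i + Dp) := pow_pos hB0 _
  have hgl : IsPr (gl p p Xz Xz) := isPr_gl hp hp fun _ => rfl
  -- the number `κ1` is nonnegative
  have hκ0 : 0 ≤ κ1 := (pr_nonneg hgl _).trans hA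
  -- (a)
  have ha := cent_shift' (B := B) hp (q := i + n) 0 (sh N z) x f
  -- (b)
  have hdL : ∀ ω ω', p ω ≠ 0 → p ω' ≠ 0 → |y ω - y ω'| ≤ (L : ℤ) := by
    intro ω ω' hω hω'
    have key : ∀ ω ω', p ω ≠ 0 → p ω' ≠ 0 →
        ((y ω : ℤ) : ℝ) ≤ (y ω' : ℤ) + 2 * d * C0 * (B : ℝ) ^ Dp + 1 := by
      intro ω ω' hω hω'
      refine floor_dist hBpos (i + Dp) ?_
      refine (KCase2_lam_lip hsys hmax hω hω').trans (le_of_eq ?_)
      rw [pow_add, mul_inv]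
      have : (B : ℝ) ^ Dp ≠ 0 := (pow_pos hB0 _).ne'
      field_simp
    have k1 := key ω ω' hω hω'
    have k2 := key ω' ω hω' hω
    have k3 : 2 * d * C0 * (B : ℝ) ^ Dp + 1 ≤ (L : ℝ) := Nat.le_ceil _
    have k4 : ((y ω : ℤ) : ℝ) - (y ω' : ℤ) ≤ (L : ℝ) := by linarith
    have k5 : ((y ω' : ℤ) : ℝ) - (y ω : ℤ) ≤ (L : ℝ) := by linarith
    have k6 : y ω - y ω' ≤ (L : ℤ) := by exact_mod_cast k4
    have k7 : y ω' - y ω ≤ (L : ℤ) := by exact_mod_cast k5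
    exact abs_le.2 ⟨by linarith, k6⟩
  have hglp : pr (gl p p Xz Xz) (fun w => ((2 : ℕ) : ℤ) < |y w.1 - y w.2|) ≤ κ1 := by
    refine le_trans (pr_mono hgl ?_) hA
    rintro w hw hlt
    by_contra hfar
    unfold far at hfar
    push Not at hfar
    have h1 := hfar j
    rw [KCase2_obs h0, KCase2_obs h0, ← mul_sub, abs_mul] at h1
    have h2 : |P' j c0 - P j c0| * |∑ c, lam P P' j c0 c * Y w.1 c -
        ∑ c, lam P P' j c0 c * Y w.2 c| < |P' j c0 - P j c0| * (2 * ((B : ℝ) ^ (i + Dp))⁻¹) := by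
      linarith
    have h3 := lt_of_mul_lt_mul_left h2 h0.le
    set a := ∑ c, lam P P' j c0 c * Y w.1 c with ha'
    set a' := ∑ c, lam P P' j c0 c * Y w.2 c with ha''
    have h4 : |(B : ℝ) ^ (i + Dp) * a - (B : ℝ) ^ (i + Dp) * a'| < 2 := by
      rw [← mul_sub, abs_mul, abs_of_pos hBq]
      calc (B : ℝ) ^ (i + Dp) * |a - a'| < (B : ℝ) ^ (i + Dp) * (2 * ((B : ℝ) ^ (i + Dp))⁻¹) :=
            mul_lt_mul_of_pos_left h3 hBq
        _ = 2 := by field_simp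
    obtain ⟨h5, h6⟩ := abs_lt.1 h4
    have f1 := Int.floor_le ((B : ℝ) ^ (i + Dp) * a)
    have f2 := Int.lt_floor_add_one ((B : ℝ) ^ (i + Dp) * a)
    have f3 := Int.floor_le ((B : ℝ) ^ (i + Dp) * a')
    have f4 := Int.lt_floor_add_one ((B : ℝ) ^ (i + Dp) * a')
    have g1 : ((⌊(B : ℝ) ^ (i + Dp) * a⌋ : ℤ) : ℝ) < (⌊(B : ℝ) ^ (i + Dp) * a'⌋ : ℤ) + 3 := by
      linarith
    have g2 : ((⌊(B : ℝ) ^ (i + Dp) * a'⌋ : ℤ) : ℝ) < (⌊(B : ℝ) ^ (i + Dp) * a⌋ : ℤ) + 3 := by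
      linarith
    have g3 : ⌊(B : ℝ) ^ (i + Dp) * a⌋ < ⌊(B : ℝ) ^ (i + Dp) * a'⌋ + 3 := by exact_mod_cast g1
    have g4 : ⌊(B : ℝ) ^ (i + Dp) * a'⌋ < ⌊(B : ℝ) ^ (i + Dp) * a⌋ + 3 := by exact_mod_cast g2
    have g5 : |y w.1 - y w.2| ≤ 2 := by
      show |⌊(B : ℝ) ^ (i + Dp) * a⌋ - ⌊(B : ℝ) ^ (i + Dp) * a'⌋| ≤ 2
      exact abs_le.2 ⟨by linarith, by linarith⟩
    push_cast at hlt
    linarith
  have hb := cent_le_gl hp y Xz (K := 2) (L := L) hdL hglp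
  -- (c)
  have hc1 := cent_chain hp y f Xz
  have hc2 : cent p f Xz ≤ cent p (fun ω => (y ω, f ω)) Xz :=
    cent_mono hp (Det.fst (Det.snd (Det.refl f))) (Det.refl _)
  have hc3 : cent p f (fun ω => (y ω, Xz ω)) ≤
      cent p f (fun ω => (Xc B (i + Dp) (sh N z) x ω, y ω)) := by
    refine cent_anti hp f ?_
    refine Det.pair (Det.snd ?_) (Det.fst (Det.refl y))
    exact Xc_nest hBpos (by omega) _ _
  -- (e)
  have he := cent_shift (B := B) hp (q := i + Dp) (sh N z) 0 x f y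
  -- (f)
  have hff := PP_cent hp (q := i + Dp) hB hM hP (P' := P') j c0 Y f
  -- the numbers
  have hLlog : Real.log (2 * (L : ℝ) + 1) ≤ Dp * Real.log B + Real.log (4 * d * C0 + 5) := by
    have hd0 : (0 : ℝ) ≤ d := Nat.cast_nonneg d
    have hdC : 0 ≤ 4 * (d : ℝ) * C0 := by positivity
    have h1 : (L : ℝ) < 2 * d * C0 * (B : ℝ) ^ Dp + 1 + 1 := by
      apply Nat.ceil_lt_add_one
      positivity
    have h2 : (1 : ℝ) ≤ (B : ℝ) ^ Dp := one_le_pow₀ hB1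
    have h3 : 2 * (L : ℝ) + 1 ≤ (B : ℝ) ^ Dp * (4 * d * C0 + 5) := by nlinarith
    calc Real.log (2 * (L : ℝ) + 1) ≤ Real.log ((B : ℝ) ^ Dp * (4 * d * C0 + 5)) :=
          Real.log_le_log (by positivity) h3
      _ = _ := by rw [Real.log_mul (by positivity) (by positivity), Real.log_pow]
  have h5 : κ1 * Real.log (2 * (L : ℝ) + 1) ≤
      κ1 * (Dp * Real.log B + Real.log (4 * d * C0 + 5)) := mul_le_mul_of_nonneg_left hLlog hκ0
  have h6 : Real.log (2 * ((2 : ℕ) : ℝ) + 1) = Real.log 5 := by norm_num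
  rw [h6] at hb
  linarith

theorem case_two {B b d : ℕ} (hB : 2 ≤ B) {C0 M : ℝ} (hC0 : 0 ≤ C0) (hM : 1 ≤ M) {i0 : ℕ}
    {p : Ω → ℝ} {Y : Ω → Co d → ℝ} (hsys : IsSys B d C0 i0 p Y) {P P' : Matrix (Fin b) (Co d) ℝ}
    (hP : ∀ r c, |P r c| ≤ M) {j : Fin b} {c0 : Co d} (h0 : 0 < |P' j c0 - P j c0|)
    (hmax : ∀ r c, |P' r c - P r c| ≤ |P' j c0 - P j c0|) {l1 n D Dp N : ℕ} (hl1 : 0 < l1)
    (hN : 0 < N) (hq : ((B : ℝ) ^ (n + D))⁻¹ ≤ |P' j c0 - P j c0| * ((B : ℝ) ^ Dp)⁻¹)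
    (hn : Dp ≤ n) {κ1 Θ Θ' : ℝ} (hκ1 : 0 < κ1) (hκ1' : κ1 ≤ 1 / 4)
    (hA : avp p i0 l1 (fun i ω => avz N
      (fun z => A1 B N (nd B p Y i ω) Y P P' (i + n) (i + n + D) z)) ≤ κ1 ^ 2)
    (hres : prl p i0 l1 (fun i ω => nres B p Y P Dp n i ω < Θ * Dp * Real.log B) ≤ 1 / 4)
    (hΘ : Θ' * Dp * Real.log B ≤ Θ * Dp * Real.log B -
      (2 * (b * Real.log 2) + Real.log 2 + Real.log 5 +
          κ1 * (Dp * Real.log B + Real.log (4 * d * C0 + 5)) + b * Real.log (M + 3))) :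
    1 / 2 ≤ prl p i0 l1 (fun i ω => Θ' * Dp * Real.log B ≤
      cent (nd B p Y i ω) (Wc B (i + Dp) Y) (Xc B (i + Dp) 0 (obs (PP P P' j c0) Y))) := by
  have hp : IsPr p := hsys.pr
  have hB0 : (0 : ℝ) < B := by
    have : 0 < B := by omega
    exact_mod_cast this
  have hN' : (0 : ℝ) < (N : ℝ) ^ b := by positivity
  have hgl : ∀ (μ : Ω → ℝ) (X : Ω → Fin b → ℤ), IsPr μ → IsPr (gl μ μ X X) :=
    fun μ X hμ => isPr_gl hμ hμ fun _ => rfl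
  have hA0 : ∀ (μ : Ω → ℝ), IsPr μ → ∀ (c q : ℕ) (z : Fin b → ℤ), 0 ≤ A1 B N μ Y P P' c q z :=
    fun μ hμ c q z => pr_nonneg (hgl μ _ hμ) _
  -- the probability that the average of `A1` is big
  have h1 : prl p i0 l1 (fun i ω => κ1 < avz N
      (fun z => A1 B N (nd B p Y i ω) Y P P' (i + n) (i + n + D) z)) ≤ 1 / 4 := by
    have h2 := prl_markov (i0 := i0) (l1 := l1) hp (F := fun i ω => avz N
      (fun z => A1 B N (nd B p Y i ω) Y P P' (i + n) (i + n + D) z)) κ1 (by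
        intro i hi _ ω h0'
        unfold avz
        refine div_nonneg (Finset.sum_nonneg fun z _ => ?_) (by positivity)
        exact hA0 _ (hsys.node hi h0').pr _ _ _)
    have h3 : κ1 * prl p i0 l1 (fun i ω => κ1 < avz N
        (fun z => A1 B N (nd B p Y i ω) Y P P' (i + n) (i + n + D) z)) ≤ κ1 * κ1 := by
      refine h2.trans (hA.trans (le_of_eq ?_))
      ring
    exact (le_of_mul_le_mul_left h3 hκ1).trans hκ1'
  -- the complement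
  have h4 : prl p i0 l1 (fun i ω => ¬ (Θ' * Dp * Real.log B ≤
      cent (nd B p Y i ω) (Wc B (i + Dp) Y) (Xc B (i + Dp) 0 (obs (PP P P' j c0) Y)))) ≤
      1 / 4 + 1 / 4 := by
    refine (prl_mono hp ?_).trans ((prl_or_le hp _ _).trans (add_le_add h1 hres))
    intro i hi _ ω h0' hnot
    by_contra hcon
    push Not at hcon
    obtain ⟨hc1, hc2⟩ := hcon
    have hnode := hsys.node hi h0'
    -- a shift with a small `A1`
    obtain ⟨z, -, hz⟩ : ∃ z ∈ Zb b N,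
        A1 B N (nd B p Y i ω) Y P P' (i + n) (i + n + D) z ≤ κ1 := by
      by_contra hno
      push Not at hno
      have hne : (Zb b N).Nonempty := by
        rw [← Finset.card_pos]
        have := card_Zb b N
        have h5 : (0 : ℝ) < ((Zb b N).card : ℝ) := by rw [this]; exact hN'
        exact_mod_cast h5
      have h6 : ∑ _z ∈ Zb b N, κ1 < ∑ z ∈ Zb b N,
          A1 B N (nd B p Y i ω) Y P P' (i + n) (i + n + D) z :=
        Finset.sum_lt_sum_of_nonempty hne hno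
      rw [Finset.sum_const, nsmul_eq_mul, card_Zb] at h6
      unfold avz at hc1
      rw [div_le_iff₀ hN'] at hc1
      linarith
    have hq' : ((B : ℝ) ^ (i + n + D))⁻¹ ≤ |P' j c0 - P j c0| * ((B : ℝ) ^ (i + Dp))⁻¹ := by
      rw [add_assoc, pow_add, pow_add (B : ℝ) i Dp, mul_inv, mul_inv]
      have h7 : (0 : ℝ) < ((B : ℝ) ^ i)⁻¹ := by positivity
      calc ((B : ℝ) ^ i)⁻¹ * ((B : ℝ) ^ (n + D))⁻¹ ≤
            ((B : ℝ) ^ i)⁻¹ * (|P' j c0 - P j c0| * ((B : ℝ) ^ Dp)⁻¹) :=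
            mul_le_mul_of_nonneg_left hq h7.le
        _ = _ := by ring
    have h8 := node_two hB hC0 hM hnode hP h0 hmax hN hq' hn z hz
    have h9 : Θ * Dp * Real.log B ≤
        cent (nd B p Y i ω) (Wc B (i + Dp) Y) (Xc B (i + n) 0 (obs P Y)) := hc2
    apply hnot
    linarith
  have h5 := prl_not hp (i0 := i0) hl1 (fun i ω => Θ' * Dp * Real.log B ≤
      cent (nd B p Y i ω) (Wc B (i + Dp) Y) (Xc B (i + Dp) 0 (obs (PP P P' j c0) Y)))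
  linarith

end STK
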