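import Pool.Agent.Lib.MP_ac5134_an.STK.KNum

/-!
# STK-KMoveM: projecting out a saturated direction (`b + 1 → b`)

`PM P ζ r0`: the rows `P_r - (ζ_r / ζ_{r0}) P_{r0}`, `r ≠ r0` (reindexed by `r0.succAbove`).
* `PM_chart`: `P_r (J r') - (ζ_r/ζ_{r0}) P_{r0} (J r') = δ - 0` for `r, r' ≠ r0`; entries `≤ M + 1 * M`
  (`|ζ_r / ζ_{r0}| ≤ 1`).
* `PM_rank`: `kmat (PM P ζ r0) s = A * kmat P s` for a constant matrix `A`.
* `PM_ent`: the coordinate `r0` of `prj ζ r0 x` is `0`, the others are those of `obs (PM P ζ r0) Y`.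
* `moveM`: `res_ge` (F7) with `LipX.cent_le` for `x = obs P Y` and `m0 d b R = m0 d (b+1) R + 1`.
-/

namespace STK
open Finset RFold

/-- remove the pivot row -/
noncomputable def PM {b d : ℕ} (P : Matrix (Fin (b + 1)) (Co d) ℝ) (ζ : Fin (b + 1) → ℝ)
    (r0 : Fin (b + 1)) : Matrix (Fin b) (Co d) ℝ :=
  fun r c => P (r0.succAbove r) c - ζ (r0.succAbove r) / ζ r0 * P r0 c

theorem PM_chart {b d : ℕ} {M : ℝ} {P : Matrix (Fin (b + 1)) (Co d) ℝ} {J : Fin (b + 1) → Co d}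
    (h : Chart M P J) {ζ : Fin (b + 1) → ℝ} {r0 : Fin (b + 1)} (hmax : ∀ r, |ζ r| ≤ |ζ r0|) :
    Chart (2 * M) (PM P ζ r0) (fun r => J (r0.succAbove r)) := by
  refine ⟨?_, ?_, ?_⟩
  · intro r r' e
    exact Fin.succAbove_right_injective (h.inj e)
  · intro r r'
    unfold PM
    rw [h.one, h.one, if_neg (Fin.succAbove_ne r0 r').symm, mul_zero, sub_zero]
    by_cases e : r = r'
    · subst e
      rw [if_pos rfl, if_pos rfl]
    · rw [if_neg (fun e' => e (Fin.succAbove_right_injective e')), if_neg e]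
  · intro r c
    unfold PM
    have h1 := h.bd (r0.succAbove r) c
    have h2 := h.bd r0 c
    have hM : 0 ≤ M := (abs_nonneg _).trans h2
    have h3 : |ζ (r0.succAbove r) / ζ r0| ≤ 1 := by
      rw [abs_div]
      exact div_le_one_of_le₀ (hmax _) (abs_nonneg _)
    have h4 : |ζ (r0.succAbove r) / ζ r0 * P r0 c| ≤ M := by
      rw [abs_mul]
      calc |ζ (r0.succAbove r) / ζ r0| * |P r0 c| ≤ 1 * M :=
            mul_le_mul h3 h2 (abs_nonneg _) zero_le_one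
        _ = M := one_mul M
    calc |P (r0.succAbove r) c - ζ (r0.succAbove r) / ζ r0 * P r0 c|
        ≤ |P (r0.succAbove r) c| + |ζ (r0.succAbove r) / ζ r0 * P r0 c| := abs_sub _ _
      _ ≤ 2 * M := by linarith

theorem PM_rank {b d : ℕ} (P : Matrix (Fin (b + 1)) (Co d) ℝ) (ζ : Fin (b + 1) → ℝ)
    (r0 : Fin (b + 1)) (s : ℝ) : (kmat (PM P ζ r0) s).rank ≤ (kmat P s).rank := by
  classical
  let A : Matrix (Fin b) (Fin (b + 1)) ℝ := fun r r' =>
    (if r0.succAbove r = r' then 1 else 0) - (if r0 = r' then ζ (r0.succAbove r) / ζ r0 else 0)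
  have e : kmat (PM P ζ r0) s = A * kmat P s := by
    ext r c
    rw [Matrix.mul_apply]
    have h1 : ∀ r', A r r' * kmat P s r' c =
        (if r0.succAbove r = r' then kmat P s r' c else 0) -
          (if r0 = r' then ζ (r0.succAbove r) / ζ r0 * kmat P s r' c else 0) := by
      intro r'
      simp only [A, sub_mul, ite_mul, one_mul, zero_mul]
    rw [Finset.sum_congr rfl fun r' _ => h1 r', Finset.sum_sub_distrib,
      Finset.sum_ite_eq Finset.univ, Finset.sum_ite_eq Finset.univ, if_pos (Finset.mem_univ _),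
      if_pos (Finset.mem_univ _)]
    unfold kmat PM
    ring
  rw [e]
  exact Matrix.rank_mul_le_right _ _

theorem PM_obs {Ω : Type} {b d : ℕ} (P : Matrix (Fin (b + 1)) (Co d) ℝ) (ζ : Fin (b + 1) → ℝ)
    (r0 : Fin (b + 1)) (Y : Ω → Co d → ℝ) (ω : Ω) (r : Fin b) :
    obs (PM P ζ r0) Y ω r = prj ζ r0 (obs P Y) ω (r0.succAbove r) := by
  unfold obs prj PM
  rw [Finset.mul_sum, ← Finset.sum_sub_distrib]
  refine Finset.sum_congr rfl fun c _ => ?_
  ring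

theorem PM_ent {Ω : Type} [Fintype Ω] {p : Ω → ℝ} (hp : IsPr p) {B b d : ℕ} (q : ℕ)
    (P : Matrix (Fin (b + 1)) (Co d) ℝ) {ζ : Fin (b + 1) → ℝ} {r0 : Fin (b + 1)} (h0 : ζ r0 ≠ 0)
    (Y : Ω → Co d → ℝ) :
    ent p (Xc B q 0 (obs (PM P ζ r0) Y)) = ent p (Xc B q 0 (prj ζ r0 (obs P Y))) := by
  have key : ∀ ω r, Xc B q 0 (obs (PM P ζ r0) Y) ω r =
      Xc B q 0 (prj ζ r0 (obs P Y)) ω (r0.succAbove r) := by
    intro ω r
    unfold Xc
    rw [PM_obs]
    rfl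
  refine ent_congr hp ?_ ?_
  · intro ω ω' _ _ e
    funext r
    rcases Fin.eq_self_or_eq_succAbove r0 r with h | ⟨r', h⟩
    · have hz : ∀ ω, prj ζ r0 (obs P Y) ω r0 = 0 := by
        intro ω
        unfold prj
        rw [div_self h0, one_mul, sub_self]
      rw [h]
      unfold Xc
      rw [hz, hz]
    · rw [h, ← key, ← key, e]
  · intro ω ω' _ _ e
    funext r
    rw [key, key, e]

theorem moveM {Ω : Type} [Fintype Ω] {B b d : ℕ} (hB : 2 ≤ B) {C0 M : ℝ} (hC0 : 0 ≤ C0)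
    (hM : 0 ≤ M) {i D : ℕ} {p : Ω → ℝ} {Y : Ω → Co d → ℝ} (hsys : IsSys B d C0 i p Y)
    {P : Matrix (Fin (b + 1)) (Co d) ℝ} (hP : ∀ r c, |P r c| ≤ M) {ζ : Fin (b + 1) → ℝ}
    {r0 : Fin (b + 1)} (h0 : ζ r0 ≠ 0) {R : ℕ} {Θ th2 : ℝ}
    (h1 : (1 - th2) * (D * Real.log B) ≤ ent p (Xc B (i + D) 0 (obs P Y)) -
      ent p (Xc B (i + D) 0 (prj ζ r0 (obs P Y))))
    (h2 : (m0 d (b + 1) R + Θ) * D * Real.log B ≤
      cent p (Wc B (i + D) Y) (Xc B (i + D) 0 (obs P Y))) :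
    (m0 d b R + Θ - th2) * D * Real.log B - (b + 1) * Real.log (2 * (2 * d * M * C0) + 5) ≤
      cent p (Wc B (i + D) Y) (Xc B (i + D) 0 (obs (PM P ζ r0) Y)) := by
  have hp := hsys.pr
  have hlip := hsys.lipX hC0 P hP
  have hC1 : 0 ≤ 2 * (d : ℝ) * M * C0 := by positivity
  have h3 := LipX.cent_le (by omega) hp hlip hC1 (Nat.le_add_right i D) 0
  have h4 := res_ge hp (q := i + D) 0 0 (obs P Y) (obs (PM P ζ r0) Y) Y h3
  rw [PM_ent hp (i + D) P h0 Y] at h4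
  have h5 : m0 d b R = m0 d (b + 1) R + 1 := by
    unfold m0
    push_cast
    ring
  rw [h5]
  push_cast at h4
  nlinarith

end STK
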