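import Pool.Agent.Lib.MP_ac5134_an.STK.KNum
import Pool.Agent.Lib.MP_ac5134_an.STK.KLow
import Pool.Agent.Lib.MP_ac5134_an.STK.KMoveP
import Pool.Agent.Lib.MP_ac5134_an.STK.KMoveM

/-!
# STK-KFin: double counting over (level, point) and heights; bad data for `(R, b-1)` or `(R+1, b+1)`

`fin_one`: `A h i ω := Drop B p Y (P h) th2 Dm' i ω ∧ Θ Dm' LB ≤ nres B p Y (P h) Dm' Dm' i ω`
(`Θ = m0 d (b+1) R + a - th`).  By `prl_and_ge` and `prl_shift` (shift `n h + s0 ≤ T + s0`):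
`κ1^4/32 - κ1^4/64 ≤ prl (A h (i + (n h + s0)))`.  `double_count` (`Km = T + s0 ≤ l1`, so
`l1/(l1+Km) ≥ 1/2`) gives `j`, `ω`; the node `nd B p Y (i0 + j) ω` is a system of level `i0 + j`
(`IsSys.node`), and for the heights with `S' h ∧ A h (i0+j) ω` the matrices `PM (P h) ζ r0` (choose `ζ, r0` from
`Drop`) are charts (`PM_chart`), have rank `≤ R` (`PM_rank`), and `moveM` + `hfin` give the residual.
`fin_two`: the same with `A h i ω := (m0 + a/2) Dp LB ≤ cent ..` without shift; `PP_chart`, `PP_rank`,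
`m0 d (b+1) (R+1) = m0 d b R`.
-/

namespace STK
open Finset RFold Pool.Agent.MPac5134.SD

variable {Ω : Type} [Fintype Ω]

theorem fin_one {B b d R : ℕ} (hB : 2 ≤ B) {C0 M : ℝ} (hC0 : 0 ≤ C0) (hM : 1 ≤ M) {φ : ℕ → ℝ}
    {Q : ℕ} {H : Type} [Fintype H] {σ s : H → ℝ} (hH : IsHts φ Q σ s) {i0 : ℕ} {p : Ω → ℝ}
    {Y : Ω → Co d → ℝ} (hsys : IsSys B d C0 i0 p Y) (S' : H → Prop)
    (P : H → Matrix (Fin (b + 1)) (Co d) ℝ)
    (hS : ∀ h, S' h → (∃ J, Chart M (P h) J) ∧ (kmat (P h) (s h)).rank ≤ R)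
    {l1 T s0 Dm' : ℕ} (hl1 : 0 < l1) (n : H → ℕ) (hn : ∀ h, n h ≤ T) {κ1 a th th2 e2 μ : ℝ}
    (hμ : μ ≤ pr σ S') (hμ0 : 0 ≤ μ) (hκ1 : 0 < κ1)
    (hdrop : ∀ h, S' h → κ1 ^ 4 / 32 ≤
      prl p i0 l1 (fun i ω => Drop B p Y (P h) th2 Dm' (i + (n h + s0)) ω))
    (hres : ∀ h, S' h → prl p i0 l1 (fun i ω => nres B p Y (P h) Dm' Dm' i ω <
      (m0 d (b + 1) R + (a - th)) * Dm' * Real.log B) ≤ e2)
    (he2 : e2 + ((T + s0 : ℕ) : ℝ) / l1 ≤ κ1 ^ 4 / 64) (hT : T + s0 ≤ l1)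
    (hfin : (b + 1) * Real.log (2 * (2 * d * M * C0) + 5) ≤ (a / 2 - th - th2) * Dm' * Real.log B) :
    Bad B d C0 φ R b (2 * M) (a / 2) (μ * κ1 ^ 4 / 128) Dm' Q := by
  classical
  have hp := hsys.pr
  have hM0 : 0 ≤ M := by linarith
  have hl : (0 : ℝ) < l1 := by exact_mod_cast hl1
  set G : H → ℕ → Ω → Prop := fun h i ω =>
    (m0 d (b + 1) R + (a - th)) * Dm' * Real.log B ≤ nres B p Y (P h) Dm' Dm' i ω with hG
  set A : H → ℕ → Ω → Prop := fun h i ω => Drop B p Y (P h) th2 Dm' i ω ∧ G h i ω with hA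
  have hAge : ∀ h, S' h → κ1 ^ 4 / 64 ≤ prl p i0 l1 (fun i ω => A h (i + (n h + s0)) ω) := by
    intro h hh
    have h1 := prl_and_ge (i0 := i0) (l1 := l1) hp
      (fun i ω => Drop B p Y (P h) th2 Dm' (i + (n h + s0)) ω)
      (fun i ω => G h (i + (n h + s0)) ω)
    have h2 := prl_shift (i0 := i0) (l1 := l1) hp (fun i ω => ¬ G h i ω) (n h + s0)
    have h3 : prl p i0 l1 (fun i ω => ¬ G h i ω) ≤ e2 := by
      refine le_trans (prl_mono hp ?_) (hres h hh)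
      intro i _ _ ω _ hi
      exact not_le.mp hi
    have h4 : ((n h + s0 : ℕ) : ℝ) / l1 ≤ ((T + s0 : ℕ) : ℝ) / l1 := by
      refine div_le_div_of_nonneg_right ?_ hl.le
      have := hn h
      exact_mod_cast Nat.add_le_add_right this s0
    have h5 := hdrop h hh
    have h6 : prl p i0 l1 (fun i ω => ¬ G h (i + (n h + s0)) ω) ≤ κ1 ^ 4 / 64 := by
      refine le_trans h2 ?_
      push_cast at h4 he2 ⊢
      linarith
    have h7 : prl p i0 l1 (fun i ω => A h (i + (n h + s0)) ω) =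
        prl p i0 l1 (fun i ω => Drop B p Y (P h) th2 Dm' (i + (n h + s0)) ω ∧
          G h (i + (n h + s0)) ω) := rfl
    rw [h7]
    linarith
  obtain ⟨j, hj, ω, hω, hcount⟩ := double_count (i0 := i0) hp hl1 hH.isPr S' A
    (fun h => n h + s0) (T + s0) (fun h => Nat.add_le_add_right (hn h) s0) hμ
    (δa := κ1 ^ 4 / 64) (by positivity) hAge
  have hμge : μ * κ1 ^ 4 / 128 ≤ pr σ (fun h => S' h ∧ A h (i0 + j) ω) := by
    refine le_trans ?_ hcount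
    have hT' : ((T + s0 : ℕ) : ℝ) ≤ l1 := by exact_mod_cast hT
    have h1 : (1 : ℝ) / 2 ≤ l1 / (l1 + ((T + s0 : ℕ) : ℝ)) := by
      have h0 : (0 : ℝ) ≤ ((T + s0 : ℕ) : ℝ) := Nat.cast_nonneg _
      rw [div_le_div_iff₀ (by norm_num) (by linarith)]
      linarith
    have h2 : 0 ≤ μ * (κ1 ^ 4 / 64) := by positivity
    have h3 := mul_le_mul_of_nonneg_left h1 h2
    linarith
  have hnode := hsys.node (Nat.le_add_right i0 j) hω
  have hex : ∀ h, ∃ Pn : Matrix (Fin b) (Co d) ℝ, Drop B p Y (P h) th2 Dm' (i0 + j) ω →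
      ∃ (ζ : Fin (b + 1) → ℝ) (r0 : Fin (b + 1)), Pn = PM (P h) ζ r0 ∧ ζ r0 ≠ 0 ∧
        (∀ r, |ζ r| ≤ |ζ r0|) ∧
        (1 - th2) * (Dm' * Real.log B) ≤
          ent (nd B p Y (i0 + j) ω) (Xc B (i0 + j + Dm') 0 (obs (P h) Y)) -
            ent (nd B p Y (i0 + j) ω) (Xc B (i0 + j + Dm') 0 (prj ζ r0 (obs (P h) Y))) := by
    intro h
    by_cases hD : Drop B p Y (P h) th2 Dm' (i0 + j) ω
    · obtain ⟨ζ, r0, h1, h2, h3⟩ := hD
      exact ⟨PM (P h) ζ r0, fun _ => ⟨ζ, r0, rfl, h1, h2, h3⟩⟩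
    · exact ⟨fun _ _ => 0, fun h => absurd h hD⟩
  choose Pn hPn using hex
  refine ⟨H, inferInstance, σ, s, Ω, inferInstance, nd B p Y (i0 + j) ω, Y, i0 + j,
    fun h => S' h ∧ A h (i0 + j) ω, Pn, hH, hnode, hμge, ?_⟩
  rintro h ⟨hS', hD, hG'⟩
  obtain ⟨ζ, r0, hPe, hζ, hmax, hdr⟩ := hPn h hD
  obtain ⟨⟨J, hJ⟩, hrk⟩ := hS h hS'
  rw [hPe]
  refine ⟨⟨_, PM_chart hJ hmax⟩, (PM_rank _ _ _ _).trans hrk, ?_⟩
  have h1 := moveM hB hC0 hM0 hnode hJ.bd hζ (R := R) (Θ := a - th) hdr hG'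
  refine le_trans ?_ h1
  have e : (m0 d b R + (a - th) - th2) * Dm' * Real.log B =
      (m0 d b R + a / 2) * Dm' * Real.log B + (a / 2 - th - th2) * Dm' * Real.log B := by ring
  rw [e]
  linarith

theorem fin_two {B b d R : ℕ} (hB : 2 ≤ B) {C0 M : ℝ} (hM : 1 ≤ M) {φ : ℕ → ℝ} {Q : ℕ}
    {H : Type} [Fintype H] {σ s : H → ℝ} (hH : IsHts φ Q σ s) {i0 : ℕ} {p : Ω → ℝ}
    {Y : Ω → Co d → ℝ} (hsys : IsSys B d C0 i0 p Y) (S' : H → Prop)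
    (P P' : H → Matrix (Fin b) (Co d) ℝ) (j : H → Fin b) (c0 : H → Co d)
    (hS : ∀ h, S' h → (∃ J, Chart M (P h) J ∧ Chart M (P' h) J) ∧
      (kmat (P h) (s h)).rank ≤ R ∧ 0 < |P' h (j h) (c0 h) - P h (j h) (c0 h)| ∧
      ∀ r c, |P' h r c - P h r c| ≤ |P' h (j h) (c0 h) - P h (j h) (c0 h)|)
    {l1 Dp : ℕ} (hl1 : 0 < l1) {a μ : ℝ} (hμ : μ ≤ pr σ S') (hμ0 : 0 ≤ μ)
    (hbig : ∀ h, S' h → 1 / 2 ≤ prl p i0 l1 (fun i ω => (m0 d b R + a / 2) * Dp * Real.log B ≤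
      cent (nd B p Y i ω) (Wc B (i + Dp) Y)
        (Xc B (i + Dp) 0 (obs (PP (P h) (P' h) (j h) (c0 h)) Y)))) :
    Bad B d C0 φ (R + 1) (b + 1) (2 * M) (a / 2) (μ / 2) Dp Q := by
  classical
  have hp := hsys.pr
  have hl : (0 : ℝ) < l1 := by exact_mod_cast hl1
  set A : H → ℕ → Ω → Prop := fun h i ω => (m0 d b R + a / 2) * Dp * Real.log B ≤
      cent (nd B p Y i ω) (Wc B (i + Dp) Y)
        (Xc B (i + Dp) 0 (obs (PP (P h) (P' h) (j h) (c0 h)) Y)) with hA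
  obtain ⟨k, hk, ω, hω, hcount⟩ := double_count (i0 := i0) hp hl1 hH.isPr S' A
    (fun _ => 0) 0 (fun _ => le_rfl) hμ (δa := 1 / 2) (by norm_num) hbig
  have hμge : μ / 2 ≤ pr σ (fun h => S' h ∧ A h (i0 + k) ω) := by
    refine le_trans (le_of_eq ?_) hcount
    push_cast
    rw [add_zero, div_self hl.ne']
    ring
  have hnode := hsys.node (Nat.le_add_right i0 k) hω
  refine ⟨H, inferInstance, σ, s, Ω, inferInstance, nd B p Y (i0 + k) ω, Y, i0 + k,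
    fun h => S' h ∧ A h (i0 + k) ω, fun h => PP (P h) (P' h) (j h) (c0 h), hH, hnode, hμge, ?_⟩
  rintro h ⟨hS', hA'⟩
  obtain ⟨⟨J, hJ, hJ'⟩, hrk, hpos, hmax⟩ := hS h hS'
  refine ⟨⟨_, PP_chart hM hJ hJ' (abs_pos.mp hpos) hmax⟩,
    (PP_rank _ _ _ _ _).trans (Nat.add_le_add_right hrk 1), ?_⟩
  have e : m0 d (b + 1) (R + 1) = m0 d b R := by
    unfold m0
    push_cast
    ring
  rw [e]
  exact hA'

end STK
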