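import Pool.Agent.Lib.MP_ac5134_an.STK.KLow

/-!
# STK-KSeq: small lemmas for the induction step
-/

namespace STK
open Finset RFold Pool.Agent.MPac5134.SD

theorem exists_large (c C : ℝ) (hc : 0 < c) : ∃ D0 : ℕ, ∀ D : ℕ, D0 ≤ D → C ≤ c * D := by
  obtain ⟨n, hn⟩ := exists_nat_ge (C / c)
  refine ⟨n, fun D hD => ?_⟩
  have h1 : (n : ℝ) ≤ D := by exact_mod_cast hD
  have h2 : C / c ≤ D := hn.trans h1
  rw [div_le_iff₀ hc] at h2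
  linarith

theorem pick_l1 (G d : ℕ) {ε : ℝ} (hε : 0 < ε) (C : ℝ) :
    ∃ L : ℕ, ∀ l, L ≤ l → ∃ l1 : ℕ, 0 < l1 ∧ (∀ D0, 1 ≤ D0 → D0 ≤ G → D0 ∣ l1) ∧ l1 + G ≤ l ∧
      d * ((l : ℝ) - l1) ≤ ε * l1 ∧ C ≤ l1 := by
  obtain ⟨n1, hn1⟩ := exists_nat_ge C
  obtain ⟨n2, hn2⟩ := exists_nat_ge (d * ((G : ℝ) + G.factorial) / ε)
  obtain ⟨n0, hn0⟩ : ∃ n0, n0 = n1 + n2 + 1 := ⟨_, rfl⟩
  obtain ⟨F, hF⟩ : ∃ F, F = G.factorial := ⟨_, rfl⟩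
  have hF0 : 0 < F := hF ▸ Nat.factorial_pos G
  refine ⟨G + F * n0, fun l hl => ?_⟩
  obtain ⟨k, hk⟩ : ∃ k, k = (l - G) / F := ⟨_, rfl⟩
  have hk1 : n0 ≤ k := by
    rw [hk, Nat.le_div_iff_mul_le hF0]
    have : n0 * F = F * n0 := Nat.mul_comm _ _
    omega
  have hk2 : F * k ≤ l - G := by
    rw [hk]
    exact Nat.mul_div_le _ _
  have hk3 : l - G < F * k + F := by
    have := Nat.lt_mul_div_succ (l - G) hF0
    rw [← hk] at this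
    rw [Nat.mul_add, Nat.mul_one] at this
    exact this
  have hkl : k ≤ F * k := Nat.le_mul_of_pos_left k hF0
  have hGl : G ≤ l := by
    have : 0 ≤ F * n0 := Nat.zero_le _
    omega
  refine ⟨F * k, by omega, fun D0 h1 h2 => ?_, by omega, ?_, ?_⟩
  · exact Dvd.dvd.mul_right (hF ▸ Nat.dvd_factorial h1 h2) k
  · have h1 : (l : ℝ) - ((F * k : ℕ) : ℝ) ≤ G + F := by
      have : l ≤ F * k + (G + F) := by omega
      have h2 : (l : ℝ) ≤ ((F * k + (G + F) : ℕ) : ℝ) := by exact_mod_cast this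
      push_cast at h2 ⊢
      linarith
    have h2 : (n2 : ℝ) ≤ ((F * k : ℕ) : ℝ) := by
      have : n2 ≤ F * k := by omega
      exact_mod_cast this
    rw [div_le_iff₀ hε] at hn2
    have h3 : (d : ℝ) * ((l : ℝ) - ((F * k : ℕ) : ℝ)) ≤ d * (G + F) :=
      mul_le_mul_of_nonneg_left h1 (Nat.cast_nonneg d)
    have h4 : (n2 : ℝ) * ε ≤ ε * ((F * k : ℕ) : ℝ) := by
      rw [mul_comm]
      exact mul_le_mul_of_nonneg_left h2 hε.le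
    rw [← hF] at hn2
    linarith
  · have h2 : (n1 : ℝ) ≤ ((F * k : ℕ) : ℝ) := by
      have : n1 ≤ F * k := by omega
      exact_mod_cast this
    linarith

theorem exists_seqs (TT : ℕ → ℕ) (u t0 : ℕ) : ∃ t T : ℕ → ℕ, (∀ r, t0 ≤ t r) ∧
    (∀ r, t r ≤ T r) ∧ (∀ r, TT (t r) ≤ T r) ∧ ∀ r, T r + u ≤ t (r + 1) := by
  obtain ⟨t, ht⟩ : ∃ t : ℕ → ℕ, t = fun r => Nat.rec t0 (fun _ a => max a (TT a) + u) r := ⟨_, rfl⟩
  have h0 : t 0 = t0 := congrFun ht 0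
  have h1 : ∀ r, t (r + 1) = max (t r) (TT (t r)) + u := fun r => by
    have e1 := congrFun ht (r + 1)
    have e2 := congrFun ht r
    simp only at e1 e2
    rw [e1, e2]
  refine ⟨t, fun r => max (t r) (TT (t r)), fun r => ?_, fun r => le_max_left _ _,
    fun r => le_max_right _ _, fun r => (h1 r).ge⟩
  induction r with
  | zero => exact h0.ge
  | succ r ih =>
    rw [h1]
    exact ih.trans ((le_max_left _ _).trans (Nat.le_add_right _ _))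

theorem good_mass {H : Type} [Fintype H] {σ : H → ℝ} (hσ : IsPr σ) (S A1 A2 A3 A4 : H → Prop)
    {δ0 ε : ℝ} (hε : 0 < ε) (hS : δ0 ≤ pr σ S)
    (h1 : ε * pr σ (fun h => S h ∧ A1 h) ≤ ε * δ0 / 24)
    (h2 : ε * pr σ (fun h => S h ∧ A2 h) ≤ ε * δ0 / 24)
    (h3 : ε * pr σ (fun h => S h ∧ A3 h) ≤ ε * δ0 / 24)
    (h4 : pr σ (fun h => S h ∧ A4 h) ≤ δ0 / 8) (hδ : 0 < δ0) :
    δ0 / 2 ≤ pr σ (fun h => S h ∧ ¬ A1 h ∧ ¬ A2 h ∧ ¬ A3 h ∧ ¬ A4 h) := by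
  have key : pr σ S ≤ pr σ (fun h => S h ∧ ¬ A1 h ∧ ¬ A2 h ∧ ¬ A3 h ∧ ¬ A4 h) +
      (pr σ (fun h => S h ∧ A1 h) + (pr σ (fun h => S h ∧ A2 h) +
        (pr σ (fun h => S h ∧ A3 h) + pr σ (fun h => S h ∧ A4 h)))) := by
    refine le_trans (pr_mono hσ (B := fun h => (S h ∧ ¬ A1 h ∧ ¬ A2 h ∧ ¬ A3 h ∧ ¬ A4 h) ∨
      ((S h ∧ A1 h) ∨ ((S h ∧ A2 h) ∨ ((S h ∧ A3 h) ∨ (S h ∧ A4 h))))) ?_) ?_
    · intro h _ hs
      by_cases a1 : A1 h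
      · exact Or.inr (Or.inl ⟨hs, a1⟩)
      by_cases a2 : A2 h
      · exact Or.inr (Or.inr (Or.inl ⟨hs, a2⟩))
      by_cases a3 : A3 h
      · exact Or.inr (Or.inr (Or.inr (Or.inl ⟨hs, a3⟩)))
      by_cases a4 : A4 h
      · exact Or.inr (Or.inr (Or.inr (Or.inr ⟨hs, a4⟩)))
      exact Or.inl ⟨hs, a1, a2, a3, a4⟩
    · refine (pr_or_le hσ _ _).trans (add_le_add le_rfl ?_)
      refine (pr_or_le hσ _ _).trans (add_le_add le_rfl ?_)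
      refine (pr_or_le hσ _ _).trans (add_le_add le_rfl ?_)
      exact pr_or_le hσ _ _
  have e : ∀ x : ℝ, ε * x ≤ ε * δ0 / 24 → x ≤ δ0 / 24 := fun x hx => by
    have : ε * x ≤ ε * (δ0 / 24) := by rw [← mul_div_assoc]; exact hx
    exact le_of_mul_le_mul_left this hε
  have e1 := e _ h1
  have e2 := e _ h2
  have e3 := e _ h3
  linarith

end STK
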