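import Pool.Agent.Lib.MP_ac5134_an.STK.KCst
import Pool.Agent.Lib.MP_ac5134_an.STK.KFin
import Pool.Agent.Lib.MP_ac5134_an.STK.KCase1
import Pool.Agent.Lib.MP_ac5134_an.STK.KCase2
import Pool.Agent.Lib.MP_ac5134_an.STK.KSup
import Pool.Agent.Lib.MP_ac5134_an.STK.KSeq

/-!
# STK-KAsm: the induction step for given constants (helper29)
-/

namespace STK
open Finset RFold Pool.Agent.MPac5134.SD

variable {Ω : Type} [Fintype Ω]

theorem low_avg' {B b d : ℕ} (hB : 2 ≤ B) {C0 : ℝ} {i0 : ℕ} {p : Ω → ℝ} {Y : Ω → Co d → ℝ}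
    (hsys : IsSys B d C0 i0 p Y) (P : Matrix (Fin b) (Co d) ℝ) {l l1 n D : ℕ} (hD : 1 ≤ D)
    (hl1 : 0 < l1) (hdiv : D ∣ l1) (hl : l1 + n ≤ l) (hDn : D ≤ n) {A ε : ℝ} (hε0 : 0 ≤ ε)
    (hε : d * ((l : ℝ) - l1) ≤ ε * l1)
    (hlow : A * l * Real.log B ≤ cent p (Wc B (i0 + l) Y) (Xc B (i0 + l) 0 (obs P Y))) :
    (A - ε) * D * Real.log B ≤ avp p i0 l1 (nres B p Y P D n) := by
  by_cases hA : 0 ≤ A
  · exact low_avg hB hsys P hD hl1 hdiv hl hDn hA hε hlow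
  · have hp := hsys.pr
    have h0 : (0 : ℝ) ≤ avp p i0 l1 (nres B p Y P D n) := by
      have h1 : avp p i0 l1 (fun _ _ => (0 : ℝ)) ≤ avp p i0 l1 (nres B p Y P D n) :=
        avp_mono hp fun i _ _ ω _ => nres_nonneg hp Y P D n i ω
      rwa [avp_const hp hl1] at h1
    refine le_trans ?_ h0
    have hLB : 0 ≤ Real.log B := Real.log_natCast_nonneg B
    have h2 : A - ε ≤ 0 := by linarith
    exact mul_nonpos_of_nonpos_of_nonneg (mul_nonpos_of_nonpos_of_nonneg h2 (Nat.cast_nonneg D)) hLB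

theorem res_low' {B b d : ℕ} (hB : 2 ≤ B) {C0 : ℝ} {i0 : ℕ} {p : Ω → ℝ} {Y : Ω → Co d → ℝ}
    (hsys : IsSys B d C0 i0 p Y) (P : Matrix (Fin b) (Co d) ℝ) {l1 n D : ℕ} (hD : 1 ≤ D)
    (hl1 : 0 < l1) (hDn : D ≤ n) {A Ab th π e : ℝ} (hth : 0 < th) (he : 0 ≤ e)
    (hlow : A * D * Real.log B ≤ avp p i0 l1 (nres B p Y P D n))
    (hup : prl p i0 l1 (fun i ω => Ab * D * Real.log B ≤ nres B p Y P D D i ω) ≤ π)
    (hA : Ab - A + d * π ≤ th * e) {Θ : ℝ} (hΘ : Θ + th ≤ Ab) :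
    prl p i0 l1 (fun i ω => nres B p Y P D n i ω < Θ * D * Real.log B) ≤ e := by
  have hp := hsys.pr
  by_cases hΘ0 : 0 ≤ Θ
  · have h1 := res_low hB hsys P hD hl1 hDn hΘ0 (by linarith) hlow hup
    have h2 : th * prl p i0 l1 (fun i ω => nres B p Y P D n i ω < Θ * D * Real.log B) ≤
        (Ab - Θ) * prl p i0 l1 (fun i ω => nres B p Y P D n i ω < Θ * D * Real.log B) :=
      mul_le_mul_of_nonneg_right (by linarith) (prl_nonneg hp _)
    exact le_of_mul_le_mul_left (h2.trans (h1.trans hA)) hth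
  · have h1 : prl p i0 l1 (fun i ω => nres B p Y P D n i ω < Θ * D * Real.log B) ≤
        prl p i0 l1 (fun _ _ => False) := by
      refine prl_mono hp fun i _ _ ω _ h => ?_
      have h2 := nres_nonneg (B := B) hp Y P D n i ω
      have h3 : Θ * D * Real.log B ≤ 0 :=
        mul_nonpos_of_nonpos_of_nonneg (mul_nonpos_of_nonpos_of_nonneg (by linarith)
          (Nat.cast_nonneg D)) (Real.log_natCast_nonneg B)
      linarith
    have h4 : prl p i0 l1 (fun _ _ => False) = 0 := by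
      have h5 := prl_not (i0 := i0) hp hl1 (fun _ _ => False)
      have h6 : prl p i0 l1 (fun _ _ => ¬ False) = 1 := by
        have : prl p i0 l1 (fun _ _ => ¬ False) = avp p i0 l1 (fun _ _ => (1 : ℝ)) := by
          rw [← avp_ite]
          simp
        rw [this, avp_const hp hl1]
      linarith
    rw [h4] at h1
    linarith

theorem prl_true {p : Ω → ℝ} (hp : IsPr p) {i0 l1 : ℕ} (hl1 : 0 < l1) :
    prl p i0 l1 (fun _ _ => True) = 1 := by
  have : prl p i0 l1 (fun _ _ => True) = avp p i0 l1 (fun _ _ => (1 : ℝ)) := by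
    rw [← avp_ite]
    simp
  rw [this, avp_const hp hl1]

theorem assemble {B d b R : ℕ} (hB : 2 ≤ B) {φ : ℕ → ℝ} {C0 M a δ0 ε : ℝ}
    {ρ0 β τ0 ε0 h2 x4 : ℝ} {Dm Dp s0 u g K R0 : ℕ} {t T NL T0 Dmax Q0 : ℕ → ℕ} {l l1 Q : ℕ}
    (c : Cst B d b R φ C0 M a δ0 ε ρ0 β τ0 ε0 h2 x4 Dm Dp s0 u g K R0 t T NL T0 Dmax Q0 l l1 Q)
    (hbad : Bad B d C0 φ R (b + 1) M (a - ε) δ0 l Q) :
    Bad B d C0 φ R b (2 * M) (a / 2) (δ0 * (min a 1 / 64) ^ 4 / 1024) (Dm + Dp - s0) Q ∨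
      Bad B d C0 φ (R + 1) (b + 2) (2 * M) (a / 2) (δ0 * (min a 1 / 64) ^ 4 / 1024) Dp Q := by
  obtain ⟨H, _, σ, s, Ω, _, p, Y, i0, S, P, hH, hsys, hδS, hS⟩ := hbad
  have hC0 := c.hC0
  have hM := c.hM
  have ha := c.ha
  have hl1 := c.hl1
  have hσ := hH.isPr
  have hp := hsys.pr
  have hM0 : (0 : ℝ) ≤ M := by linarith
  have hδ0 := c.δ0_pos
  have hε := c.ε_pos
  have hLB : 0 < Real.log B := Real.log_pos (by exact_mod_cast (show 1 < B by omega))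
  -- names
  obtain ⟨κ1, hκ1d⟩ : ∃ κ1, κ1 = min a 1 / 64 := ⟨_, rfl⟩
  obtain ⟨th, hthd⟩ : ∃ th, th = min a 1 / 16 := ⟨_, rfl⟩
  obtain ⟨D, hDd⟩ : ∃ D, D = Dm + Dp := ⟨_, rfl⟩
  obtain ⟨e1, he1d⟩ : ∃ e1, e1 = ε0 * κ1 ^ 2 / 32 := ⟨_, rfl⟩
  have hmin : 0 < min a 1 := lt_min ha one_pos
  have hmin1 : min a 1 ≤ 1 := min_le_right _ _
  have hmina : min a 1 ≤ a := min_le_left _ _
  have hκ1 : 0 < κ1 := by rw [hκ1d]; positivity
  have hκ1' : κ1 ≤ 1 / 64 := by rw [hκ1d]; linarith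
  have hth : 0 < th := by rw [hthd]; positivity
  have he1 : 0 < e1 := by
    rw [he1d]
    have := c.ε0_pos
    positivity
  obtain ⟨q0, hq0d⟩ : ∃ q0, q0 = i0 + l1 + T R0 + D + g := ⟨_, rfl⟩
  have hN : 0 < B ^ q0 := by positivity
  have hmono : ∀ r, r ≤ R0 → T r ≤ T R0 := by
    intro r hr
    have h1 : Monotone T := monotone_nat_of_le_succ fun r => by
      have := c.hnext r
      have := c.htT (r + 1)
      omega
    exact h1 hr
  -- persistence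
  obtain ⟨r, hr, hpers⟩ := pers_step (B := B) (b := b + 1) hB hsys hN hσ S P (D := D) (u := u) hl1
    c.htT c.hut c.hnext c.hR0 he1
  have hTr : T r ≤ T R0 := hmono r hr.le
  have hl1R : (0 : ℝ) < l1 := by exact_mod_cast hl1
  have hR0R : (0 : ℝ) < R0 := by exact_mod_cast c.hR0
  obtain ⟨A4, hA4⟩ : ∃ A4 : H → Prop, A4 = fun h => ∃ n, t r ≤ n ∧ n ≤ T r ∧
      e1 < avp p i0 l1 (h1q B p Y (P h) (B ^ q0) u n D) := ⟨_, rfl⟩
  have hpers' : pr σ (fun h => S h ∧ A4 h) ≤ δ0 / 8 := by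
    rw [hA4]
    have h1 := c.hR0e
    have h2 := c.hl1d
    rw [← hDd, ← hκ1d, ← he1d] at h1 h2
    have h3 : (l1 : ℝ) * (((b + 1 : ℕ) : ℝ) * Real.log B * D) / R0 ≤ l1 * (e1 * δ0 / 16) := by
      rw [mul_div_assoc]
      exact mul_le_mul_of_nonneg_left h1 hl1R.le
    have h4 : (l1 : ℝ) * e1 * pr σ (fun h => S h ∧ ∃ n, t r ≤ n ∧ n ≤ T r ∧
        e1 < avp p i0 l1 (h1q B p Y (P h) (B ^ q0) u n D)) ≤ l1 * e1 * (δ0 / 8) := by
      refine hpers.trans ?_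
      have h5 : (l1 : ℝ) * e1 * (δ0 / 8) = l1 * (e1 * δ0 / 16) + l1 * e1 * δ0 / 16 := by ring
      rw [h5]
      exact add_le_add h3 h2
    exact le_of_mul_le_mul_left h4 (mul_pos hl1R he1)
  -- upper bounds for the node residuals
  have hS2 : ∀ h, S h → (∃ J, Chart M (P h) J) ∧ (kmat (P h) (s h)).rank ≤ R :=
    fun h hs => ⟨(hS h hs).1, (hS h hs).2.1⟩
  have hu1 := hup hB c.nb1 hH hsys S P hS2 hl1 hε
  have hu2 := hup hB c.nb2 hH hsys S P hS2 hl1 hε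
  have hu3 := hup hB c.nb3 hH hsys S P hS2 hl1 hε
  have hgm := good_mass hσ S _ _ _ A4 hε hδS hu1 hu2 hu3 hpers' hδ0
  obtain ⟨Ab, hAbd⟩ : ∃ Ab, Ab = m0 d (b + 1) R + (a + ε) := ⟨_, rfl⟩
  obtain ⟨Sg, hSg⟩ : ∃ Sg : H → Prop, Sg = fun h => S h ∧
    prl p i0 l1 (fun i ω => Ab * Dp * Real.log B ≤ nres B p Y (P h) Dp Dp i ω) ≤ ε ∧
    prl p i0 l1 (fun i ω => Ab * (Dm + Dp - s0 : ℕ) * Real.log B ≤
      nres B p Y (P h) (Dm + Dp - s0) (Dm + Dp - s0) i ω) ≤ ε ∧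
    prl p i0 l1 (fun i ω => Ab * D * Real.log B ≤ nres B p Y (P h) D D i ω) ≤ ε ∧
    ∀ n, t r ≤ n → n ≤ T r → avp p i0 l1 (h1q B p Y (P h) (B ^ q0) u n D) ≤ e1 := ⟨_, rfl⟩
  have hSgm : δ0 / 2 ≤ pr σ Sg := by
    refine hgm.trans (pr_mono hσ ?_)
    rintro h _ ⟨h1, h2, h3, h4, h5⟩
    rw [not_lt] at h2 h3 h4
    rw [hSg, hAbd, hDd]
    refine ⟨h1, h2, h3, h4, fun n hn hn' => ?_⟩
    by_contra hcon
    rw [not_le] at hcon
    rw [hA4] at h5
    exact h5 ⟨n, hn, hn', hDd ▸ hcon⟩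
  -- the sign of the upper exponent
  have hAbε : m0 d (b + 1) R + a + ε = Ab := by rw [hAbd]; ring
  -- charts
  have hex0 : ∃ h, S h := by
    by_contra hcon
    push Not at hcon
    have h1 : pr σ S ≤ 0 := by
      unfold pr
      exact le_of_eq (sum_eq_zero fun h _ => if_neg (hcon h))
    linarith
  obtain ⟨h00, hh00⟩ := hex0
  obtain ⟨J00, _⟩ := (hS h00 hh00).1
  have hJex : ∀ h, ∃ J : Fin (b + 1) → Co d, S h → Chart M (P h) J := fun h => by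
    by_cases hs : S h
    · obtain ⟨J, hJ⟩ := (hS h hs).1
      exact ⟨J, fun _ => hJ⟩
    · exact ⟨J00, fun h' => absurd h' hs⟩
  choose J hJ using hJex
  -- the lower exponent
  obtain ⟨A, hAd⟩ : ∃ A, A = max (m0 d (b + 1) R + (a - ε)) 0 := ⟨_, rfl⟩
  have hA0 : 0 ≤ A := hAd ▸ le_max_right _ _
  have hA1 : m0 d (b + 1) R + (a - ε) ≤ A := hAd ▸ le_max_left _ _
  have hlow : ∀ h, S h → A * l * Real.log B ≤
      cent p (Wc B (i0 + l) Y) (Xc B (i0 + l) 0 (obs (P h) Y)) := by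
    intro h hs
    by_cases h1 : 0 ≤ m0 d (b + 1) R + (a - ε)
    · rw [hAd, max_eq_left h1]
      exact (hS h hs).2.2
    · rw [hAd, max_eq_right (not_le.1 h1).le]
      simp only [zero_mul]
      exact cent_nonneg hp _ _
  have hεa : 16 * ε ≤ a := c.ε_le
  have hNLr : (0 : ℝ) < NL r := by exact_mod_cast c.hNL r
  have hpart := partner_step hB (c.htl r) (c.hQ0 r hr) hH (T := T r) (t := t r) (Dm := Dm)
    (NL := NL r) (c.hT0 r) c.hDm (c.hlab r) hsys (l := l) Sg P J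
    (A := A) (ε := ε) (μ := δ0 / 2) (l1 := l1)
    (fun h hs => by
      rw [hSg] at hs
      exact ⟨hJ h hs.1, (hS h hs.1).2.1, hlow h hs.1⟩) hSgm
    (by
      have : 2 * (δ0 / (4 * (NL r : ℝ)) * NL r) = δ0 / 2 := by
        field_simp
        norm_num
      rw [this]) hl1 (c.hdiv4 r hr) (c.hle4 r hr) hA0 c.hεl (by linarith)
  -- choose the partners
  obtain ⟨Pt, hPt⟩ : ∃ Pt : H → Prop, Pt = fun h => Sg h ∧ ∃ h', Sg h' ∧ ∃ n j c0,
    Partner B (t r) (T r) Dm P J h h' n j c0 := ⟨_, rfl⟩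
  rw [← hPt] at hpart
  have hd0 : 0 < d := c.hd
  have hch : ∀ h, ∃ (h' : H) (n : ℕ) (j : Fin (b + 1)) (c0 : Co d), n ≤ T r ∧ (Pt h →
      Sg h' ∧ Partner B (t r) (T r) Dm P J h h' n j c0) := by
    intro h
    by_cases hp' : Pt h
    · have hp2 := hp'
      rw [hPt] at hp2
      obtain ⟨_, h', hs', n, j, c0, hq⟩ := hp2
      exact ⟨h', n, j, c0, hq.2.2.1, fun _ => ⟨hs', hq⟩⟩
    · exact ⟨h, 0, 0, Sum.inl ⟨0, hd0⟩, Nat.zero_le _, fun h' => absurd h' hp'⟩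
  choose hp1 nn jj cc hnn hpt using hch
  -- facts for one height
  have hPtS : ∀ h, Pt h → Sg h := fun h hh => by
    rw [hPt] at hh
    exact hh.1
  have hSgS : ∀ h, Sg h → S h := fun h hh => by
    rw [hSg] at hh
    exact hh.1
  have hPb : ∀ h, S h → ∀ r c, |P h r c| ≤ M := fun h hs => (hJ h hs).bd
  have hAbA : Ab - (A - ε) + d * ε ≤ (3 + d) * ε := by
    rw [hAbd]
    nlinarith
  -- node residuals are rarely small
  obtain ⟨e2, he2d⟩ : ∃ e2, e2 = κ1 ^ 4 / 128 := ⟨_, rfl⟩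
  have he2 : 0 ≤ e2 := by rw [he2d]; positivity
  have hε_th : (3 + d) * ε ≤ th * e2 := by
    rw [hthd, he2d, hκ1d]
    exact c.ε_th
  have hres : ∀ h, Sg h → ∀ D1 n1 : ℕ, 1 ≤ D1 → D1 ∣ l1 → l1 + n1 ≤ l → D1 ≤ n1 →
      prl p i0 l1 (fun i ω => Ab * D1 * Real.log B ≤ nres B p Y (P h) D1 D1 i ω) ≤ ε →
      prl p i0 l1 (fun i ω => nres B p Y (P h) D1 n1 i ω <
        (m0 d (b + 1) R + (a - th)) * D1 * Real.log B) ≤ e2 := by
    intro h hs D1 n1 h1 h2 h3 h4 h5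
    have h6 := low_avg' hB hsys (P h) h1 hl1 h2 h3 h4 hε.le c.hεl (hlow h (hSgS h hs))
    exact res_low' hB hsys (P h) h1 hl1 h4 hth he2 h6 h5 (hAbA.trans hε_th)
      (by rw [hAbd]; linarith)
  -- the two cases
  obtain ⟨Av, hAv⟩ : ∃ Av : H → ℝ, Av = fun h => avp p i0 l1 (fun i ω => avz (B ^ q0)
      (fun z => A1 B (B ^ q0) (nd B p Y i ω) Y (P h) (P (hp1 h)) (i + nn h) (i + nn h + D) z)) :=
    ⟨_, rfl⟩
  have hsplit : pr σ Pt ≤ pr σ (fun h => Pt h ∧ κ1 ^ 2 ≤ Av h) +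
      pr σ (fun h => Pt h ∧ ¬ κ1 ^ 2 ≤ Av h) := by
    refine le_trans (pr_mono hσ (B := fun h => (Pt h ∧ κ1 ^ 2 ≤ Av h) ∨
      (Pt h ∧ ¬ κ1 ^ 2 ≤ Av h)) ?_) (pr_or_le hσ _ _)
    intro h _ hh
    by_cases h1 : κ1 ^ 2 ≤ Av h
    · exact Or.inl ⟨hh, h1⟩
    · exact Or.inr ⟨hh, h1⟩
  have hl1b := c.hl1b
  have hDm := c.hDm
  -- the upper exponent is nonnegative
  have hAb0 : 0 ≤ Ab := by
    by_contra hcon
    rw [not_le] at hcon
    have hne : ∃ h, Sg h := by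
      by_contra hcon2
      push Not at hcon2
      have h1 : pr σ Sg ≤ 0 := by
        unfold pr
        exact le_of_eq (sum_eq_zero fun h _ => if_neg (hcon2 h))
      linarith
    obtain ⟨h, hs⟩ := hne
    rw [hSg] at hs
    have h1 := hs.2.1
    have h2 : prl p i0 l1 (fun _ _ => True) ≤
        prl p i0 l1 (fun i ω => Ab * Dp * Real.log B ≤ nres B p Y (P h) Dp Dp i ω) := by
      refine prl_mono hp fun i _ _ ω _ _ => ?_
      have h3 := nres_nonneg (B := B) hp Y (P h) Dp Dp i ω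
      have h4 : Ab * Dp * Real.log B ≤ 0 :=
        mul_nonpos_of_nonpos_of_nonneg (mul_nonpos_of_nonpos_of_nonneg hcon.le
          (Nat.cast_nonneg Dp)) hLB.le
      linarith
    rw [prl_true hp hl1] at h2
    have := c.ε_le1
    linarith
  by_cases hcase : δ0 / 8 ≤ pr σ (fun h => Pt h ∧ κ1 ^ 2 ≤ Av h)
  · -- Case I
    left
    have hfin := fin_one hB hC0 hM hH hsys (fun h => Pt h ∧ κ1 ^ 2 ≤ Av h) P
      (fun h hh => hS2 h (hSgS h (hPtS h hh.1))) (T := T r) (s0 := s0) (Dm' := Dm + Dp - s0) hl1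
      nn hnn (κ1 := κ1) (a := a) (th := th) (th2 := th) (e2 := e2) hcase (by positivity) hκ1
      ?_ ?_ ?_ ?_ ?_
    · have e3 : δ0 / 8 * κ1 ^ 4 / 128 = δ0 * (min a 1 / 64) ^ 4 / 1024 := by
        rw [hκ1d]
        ring
      rwa [e3] at hfin
    · rintro h ⟨hh, hA⟩
      obtain ⟨hs', -, hn1, hn2, hmax, hlo, hhi⟩ := hpt h hh
      have hs := hPtS h hh
      have hsg := hs
      have hsg' := hs'
      rw [hSg] at hsg hsg'
      obtain ⟨_, _, _, hup3, hper⟩ := hsg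
      obtain ⟨_, _, _, _, hper'⟩ := hsg'
      have hdivJ := c.hdiv3
      have hleJ := c.hle3
      rw [← hDd] at hdivJ hleJ
      have hlow2 := low_avg' (n := 2 * (T R0 + 1) * D) (D := 2 * (T R0 + 1) * D) hB hsys (P h)
        (by
          have : 1 ≤ 2 * (T R0 + 1) := by omega
          exact Nat.mul_pos this (by omega)) hl1 hdivJ hleJ le_rfl hε.le c.hεl
        (hlow h (hSgS h hs))
      have hnJ : nn h ≤ (T R0 + 1) * D := by
        have h1 : nn h ≤ T R0 + 1 := by omega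
        exact h1.trans (Nat.le_mul_of_pos_right _ (by omega))
      have hexc := exc_avg (n := nn h) (D := D) (J := T R0 + 1) (s0 := s0) hB hsys (P h) hN hl1
        (by omega) (by omega) hnJ hAb0 hlow2 hup3
      rw [← hDd]
      refine case_one (D := D) (Dm := Dm) (th2 := th) (h2a := 2 * ((3 + d) * ε) * ((D : ℕ) * Real.log B) +
        4 * ((b + 1 : ℕ) * Real.log 2) + d * Real.log B * s0 + 1) hB hC0 hM0 hsys
        (hPb h (hSgS h hs)) hl1 hκ1 c.ε0_pos (g := g) (K := K) (u := u) (q0 := q0) (e1 := e1)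
        (n := nn h) (P' := P (hp1 h)) (s0 := s0) (ρ0 := ρ0) (β := β) (τ0 := τ0) (ε0 := ε0)
        (h2 := h2) (x4 := x4) ?_ ?_ ?_ ?_ ?_ (hper _ hn1 hn2) (hper' _ hn1 hn2) ?_ c.hh ?_
      · rw [hκ1d, hthd, hDd]
        exact c.hnum
      · intro r' c'
        exact (hmax r' c').trans hhi
      · rw [hq0d]
        omega
      · rw [hAv] at hA
        exact hA
      · rw [he1d]
        exact le_of_eq (by ring)
      · refine hexc.trans ?_
        have h1 : 2 * (Ab + d * ε - (A - ε)) * (D * Real.log B) ≤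
            2 * ((3 + d) * ε) * (D * Real.log B) := by
          refine mul_le_mul_of_nonneg_right ?_ (mul_nonneg (Nat.cast_nonneg D) hLB.le)
          linarith
        have h2 := c.hl1c
        rw [← hDd] at h2
        linarith
      · rw [hκ1d, hDd]
        exact c.hh2
    · rintro h ⟨hh, -⟩
      have hs := hPtS h hh
      have hsg := hs
      rw [hSg] at hsg
      exact hres h hs _ _ c.hDq c.hdiv2 c.hle2 le_rfl hsg.2.2.1
    · have h1 := c.hl1a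
      rw [← hκ1d] at h1
      have h2 : ((T r + s0 : ℕ) : ℝ) / l1 ≤ ((T R0 + s0 : ℕ) : ℝ) / l1 := by
        gcongr
      rw [he2d]
      linarith
    · omega
    · rw [hthd]
      exact c.hCI
  · -- Case II
    right
    have hcase2 : δ0 / 8 ≤ pr σ (fun h => Pt h ∧ ¬ κ1 ^ 2 ≤ Av h) := by linarith
    have hfin := fin_two (R := R) hB hM hH hsys (fun h => Pt h ∧ ¬ κ1 ^ 2 ≤ Av h) P
      (fun h => P (hp1 h)) jj cc ?_ (l1 := l1) (Dp := Dp) hl1 (a := a) hcase2 (by positivity) ?_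
    · refine Bad.mono (by omega) le_rfl ?_ hfin
      rw [← hκ1d]
      have : κ1 ^ 4 ≤ 1 := pow_le_one₀ hκ1.le (by linarith)
      nlinarith
    · rintro h ⟨hh, -⟩
      obtain ⟨hs', hJe, hn1, hn2, hmax, hlo, hhi⟩ := hpt h hh
      have hs := hPtS h hh
      refine ⟨⟨J h, hJ h (hSgS h hs), hJe ▸ hJ _ (hSgS _ hs')⟩, (hS2 h (hSgS h hs)).2, ?_, hmax⟩
      have : (0 : ℝ) < ((B : ℝ) ^ (nn h + Dm))⁻¹ := by positivity
      linarith
    · rintro h ⟨hh, hA⟩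
      obtain ⟨hs', hJe, hn1, hn2, hmax, hlo, hhi⟩ := hpt h hh
      have hs := hPtS h hh
      have hsg := hs
      rw [hSg] at hsg
      have hpos : (0 : ℝ) < ((B : ℝ) ^ (nn h + Dm))⁻¹ := by positivity
      have hDpt := c.hDpt r
      have hle1 := c.hle1
      refine case_two (D := D) (n := nn h) (κ1 := κ1) hB hC0 hM hsys (hPb h (hSgS h hs))
        (lt_of_lt_of_le hpos hlo) hmax hl1 hN ?_ (by omega) hκ1 (by linarith) ?_
        ((hres h hs Dp (nn h) c.hDp c.hdiv1 (by omega) (by omega) hsg.2.1).trans ?_) ?_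
      · rw [hDd, show nn h + (Dm + Dp) = (nn h + Dm) + Dp by omega, pow_add, mul_inv]
        exact mul_le_mul_of_nonneg_right hlo (by positivity)
      · rw [hAv] at hA
        exact (not_le.1 hA).le
      · rw [he2d]
        have : κ1 ^ 4 ≤ 1 := pow_le_one₀ hκ1.le (by linarith)
        linarith
      · rw [hκ1d, hthd]
        exact c.hCII
end STK
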