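import Pool.Agent.Lib.MP_ac5134_an.STK.KDefs

/-!
# STK-KCell: cells and their entropies (elementary facts)

Informal proofs.
* `floor_coarse`: `⌊B^p y⌋ = ⌊B^q y⌋ / B^(q-p)` (integer division), because `B^q y = B^(q-p) (B^p y)`.
* `cent_le_box`: on a class of `g` the function `f` takes at most `K^b` values
  (`cent_le_log_card` with `S c` = a box of side `K`).
* `cent_shift`: `⌊B^q (x + z)⌋` and `⌊B^q (x + z')⌋` determine each other up to 2 values per coordinate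
  (`B^q (x+z) - B^q (x+z')` is a constant), so `cent p f (X^z, g) ≥ cent p f (X^z, X^z', g) ≥
  cent p f (X^z', g) - cent p (X^z) (X^z', g)`.
-/

namespace STK
open Finset RFold
variable {Ω : Type*} [Fintype Ω] {p : Ω → ℝ} {α γ : Type*}

theorem floor_coarse {B : ℕ} (hB : 0 < B) {p q : ℕ} (h : p ≤ q) (y : ℝ) :
    ⌊(B : ℝ) ^ p * y⌋ = ⌊(B : ℝ) ^ q * y⌋ / (B : ℤ) ^ (q - p) := by
  set N : ℤ := (B : ℤ) ^ (q - p) with hN
  have hN0 : 0 < N := by rw [hN]; positivity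
  set m : ℤ := ⌊(B : ℝ) ^ q * y⌋ with hm
  have e1 : (B : ℝ) ^ q * y = (N : ℝ) * ((B : ℝ) ^ p * y) := by
    rw [hN]
    push_cast
    rw [← mul_assoc, ← pow_add, Nat.sub_add_cancel h]
  have h1 : (m : ℝ) ≤ (B : ℝ) ^ q * y := Int.floor_le _
  have h2 : (B : ℝ) ^ q * y < m + 1 := Int.lt_floor_add_one _
  have h3 : N * (m / N) ≤ m := Int.mul_ediv_self_le hN0.ne'
  have h4 : m + 1 ≤ N * (m / N + 1) := by
    have := Int.lt_mul_ediv_self_add (x := m) hN0
    rw [mul_add, mul_one]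
    omega
  have h3' : (N : ℝ) * ((m / N : ℤ) : ℝ) ≤ m := by exact_mod_cast h3
  have h4' : (m : ℝ) + 1 ≤ (N : ℝ) * (((m / N : ℤ) : ℝ) + 1) := by exact_mod_cast h4
  have hNr : (0 : ℝ) < N := by exact_mod_cast hN0
  rw [Int.floor_eq_iff]
  constructor
  · refine le_of_mul_le_mul_left ?_ hNr
    linarith
  · refine lt_of_mul_lt_mul_left ?_ hNr.le
    linarith

/-- `X_p` is a function of `X_q`, `p ≤ q`. -/
theorem Xc_coarse {B : ℕ} (hB : 0 < B) {p q b : ℕ} (h : p ≤ q) (z : Fin b → ℝ)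
    (x : Ω → Fin b → ℝ) (ω : Ω) :
    Xc B p z x ω = fun r => Xc B q z x ω r / (B : ℤ) ^ (q - p) := by
  funext r
  exact floor_coarse hB h _

theorem Xc_nest {B : ℕ} (hB : 0 < B) {k q b : ℕ} (h : k ≤ q) (z : Fin b → ℝ)
    (x : Ω → Fin b → ℝ) : Det p (Xc B q z x) (Xc B k z x) := by
  intro ω ω' _ _ e
  rw [Xc_coarse hB h z x ω, Xc_coarse hB h z x ω', e]

theorem Wc_nest {B : ℕ} (hB : 0 < B) {k q d : ℕ} (h : k ≤ q) (Y : Ω → Co d → ℝ) :
    Det p (Wc B q Y) (Wc B k Y) := by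
  intro ω ω' _ _ e
  funext r
  have e1 := congrFun e r
  simp only [Wc] at e1 ⊢
  rw [floor_coarse hB h, floor_coarse hB h (Y ω' (Sum.inr r)), e1]

private theorem cent_unit (hp : IsPr p) (f : Ω → α) : cent p f (fun _ => ()) = ent p f := by
  unfold cent
  rw [ent_const hp, sub_zero]
  exact ent_congr hp (Det.fst (Det.refl f)) (Det.pair (Det.refl f) (fun _ _ _ _ _ => rfl))

/-- If `f` takes its values in a box of side `K` on every class of `g`, then `H(f | g) ≤ b log K`. -/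
theorem cent_le_box (hp : IsPr p) {b : ℕ} (f : Ω → Fin b → ℤ) (g : Ω → γ) (K : ℕ)
    (h : ∀ ω₀, p ω₀ ≠ 0 → ∃ a : Fin b → ℤ, ∀ ω, p ω ≠ 0 → g ω = g ω₀ → ∀ r,
      a r ≤ f ω r ∧ f ω r < a r + K) :
    cent p f g ≤ b * Real.log K := by
  classical
  choose! a ha using h
  set S : γ → Finset (Fin b → ℤ) := fun c =>
    if hc : ∃ ω₀, p ω₀ ≠ 0 ∧ g ω₀ = c then
      Fintype.piFinset fun r => Finset.Ico (a hc.choose r) (a hc.choose r + K)
    else ∅ with hS
  have hex : ∀ ω, p ω ≠ 0 → ∃ ω₀, p ω₀ ≠ 0 ∧ g ω₀ = g ω := fun ω h0 => ⟨ω, h0, rfl⟩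
  have hSv : ∀ ω (h0 : p ω ≠ 0), S (g ω) =
      Fintype.piFinset fun r => Finset.Ico (a (hex ω h0).choose r) (a (hex ω h0).choose r + K) := by
    intro ω h0
    simp only [hS]
    rw [dif_pos (hex ω h0)]
  have hmem : ∀ ω, p ω ≠ 0 → f ω ∈ S (g ω) := by
    intro ω h0
    rw [hSv ω h0, Fintype.mem_piFinset]
    intro r
    rw [Finset.mem_Ico]
    exact ha _ (hex ω h0).choose_spec.1 ω h0 (hex ω h0).choose_spec.2.symm r
  refine (cent_le_log_card hp f g S hmem).trans ?_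
  have h1 : ∀ ω, p ω * Real.log (S (g ω)).card = p ω * (b * Real.log K) := by
    intro ω
    by_cases h0 : p ω = 0
    · rw [h0, zero_mul, zero_mul]
    · congr 1
      rw [hSv ω h0, Fintype.card_piFinset]
      have h2 : ∀ r : Fin b, (Finset.Ico (a (hex ω h0).choose r)
          (a (hex ω h0).choose r + K)).card = K := by
        intro r
        rw [Int.card_Ico]
        omega
      rw [Finset.prod_congr rfl fun r _ => h2 r, Finset.prod_const, Finset.card_univ,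
        Fintype.card_fin, Nat.cast_pow, Real.log_pow]
  rw [Finset.sum_congr rfl fun ω _ => h1 ω, ← Finset.sum_mul, hp.sum_eq, one_mul]

/-- Version with diameters: if `|f ω r - f ω' r| ≤ K` on every class of `g`, then
`H(f | g) ≤ b log (K + 1)`. -/
theorem cent_le_diam (hp : IsPr p) {b : ℕ} (f : Ω → Fin b → ℤ) (g : Ω → γ) (K : ℕ)
    (h : ∀ ω ω', p ω ≠ 0 → p ω' ≠ 0 → g ω = g ω' → ∀ r, f ω r ≤ f ω' r + K) :
    cent p f g ≤ b * Real.log (2 * K + 1) := by
  have h1 := cent_le_box hp f g (2 * K + 1) (fun ω₀ h0 => ⟨fun r => f ω₀ r - K, fun ω hω e r => by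
    have h2 := h ω ω₀ hω h0 e r
    have h3 := h ω₀ ω h0 hω e.symm r
    push_cast
    constructor <;> omega⟩)
  push_cast at h1
  exact h1

theorem ent_le_diam (hp : IsPr p) {b : ℕ} (f : Ω → Fin b → ℤ) (K : ℕ)
    (h : ∀ ω ω', p ω ≠ 0 → p ω' ≠ 0 → ∀ r, f ω r ≤ f ω' r + K) :
    ent p f ≤ b * Real.log (2 * K + 1) := by
  rw [← cent_unit hp f]
  exact cent_le_diam hp f (fun _ => ()) K fun ω ω' h1 h2 _ => h ω ω' h1 h2

/-- Points at distance `≤ D B^(-q)` have cells at distance `≤ D + 1`. -/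
theorem floor_dist {B : ℕ} (hB : 0 < B) (q : ℕ) {D y y' : ℝ} (h : |y - y'| ≤ D * ((B : ℝ) ^ q)⁻¹) :
    (⌊(B : ℝ) ^ q * y⌋ : ℝ) ≤ ⌊(B : ℝ) ^ q * y'⌋ + D + 1 := by
  have hBq : (0 : ℝ) < (B : ℝ) ^ q := by
    have : (0 : ℝ) < B := by exact_mod_cast hB
    positivity
  have h1 := Int.floor_le ((B : ℝ) ^ q * y)
  have h2 := (Int.lt_floor_add_one ((B : ℝ) ^ q * y')).le
  have h3 : y - y' ≤ D * ((B : ℝ) ^ q)⁻¹ := (le_abs_self _).trans h
  have h4 : (B : ℝ) ^ q * (y - y') ≤ (B : ℝ) ^ q * (D * ((B : ℝ) ^ q)⁻¹) :=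
    mul_le_mul_of_nonneg_left h3 hBq.le
  have h5 : (B : ℝ) ^ q * (D * ((B : ℝ) ^ q)⁻¹) = D := by
    field_simp
  rw [h5, mul_sub] at h4
  linarith

private theorem div_box {N c m : ℤ} (hN : 0 < N) (h : m / N = c) : N * c ≤ m ∧ m < N * c + N := by
  subst h
  exact ⟨Int.mul_ediv_self_le hN.ne', Int.lt_mul_ediv_self_add hN⟩

theorem cent_X_X {B : ℕ} (hB : 0 < B) (hp : IsPr p) {k q b : ℕ} (h : k ≤ q) (z : Fin b → ℝ)
    (x : Ω → Fin b → ℝ) :
    cent p (Xc B q z x) (Xc B k z x) ≤ b * ((q - k : ℕ) * Real.log B) := by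
  have hN : (0 : ℤ) < (B : ℤ) ^ (q - k) := by positivity
  have h1 := cent_le_box hp (Xc B q z x) (Xc B k z x) (B ^ (q - k)) (fun ω₀ _ =>
    ⟨fun r => (B : ℤ) ^ (q - k) * Xc B k z x ω₀ r, fun ω _ e r => by
      have h2 := congrFun (Xc_coarse hB h z x ω) r
      rw [e] at h2
      have h3 := div_box hN h2.symm
      push_cast
      exact h3⟩)
  rw [Nat.cast_pow, Real.log_pow] at h1
  exact h1

theorem cent_W_W {B : ℕ} (hB : 0 < B) (hp : IsPr p) {k q d : ℕ} (h : k ≤ q) (Y : Ω → Co d → ℝ) :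
    cent p (Wc B q Y) (Wc B k Y) ≤ d * ((q - k : ℕ) * Real.log B) := by
  have hN : (0 : ℤ) < (B : ℤ) ^ (q - k) := by positivity
  have h1 := cent_le_box hp (Wc B q Y) (Wc B k Y) (B ^ (q - k)) (fun ω₀ _ =>
    ⟨fun r => (B : ℤ) ^ (q - k) * Wc B k Y ω₀ r, fun ω _ e r => by
      have h2 : Wc B k Y ω r = Wc B q Y ω r / (B : ℤ) ^ (q - k) := floor_coarse hB h _
      rw [e] at h2
      have h3 := div_box hN h2.symm
      push_cast
      exact h3⟩)
  rw [Nat.cast_pow, Real.log_pow] at h1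
  exact h1

private theorem shift_box {B q b : ℕ} (z z' : Fin b → ℝ) (x : Ω → Fin b → ℝ) (ω : Ω) (r : Fin b) :
    Xc B q z' x ω r + ⌊(B : ℝ) ^ q * (z r - z' r)⌋ ≤ Xc B q z x ω r ∧
      Xc B q z x ω r < Xc B q z' x ω r + ⌊(B : ℝ) ^ q * (z r - z' r)⌋ + 2 := by
  have e : (B : ℝ) ^ q * (x ω r + z r) =
      (B : ℝ) ^ q * (x ω r + z' r) + (B : ℝ) ^ q * (z r - z' r) := by ring
  simp only [Xc]
  rw [e]
  constructor
  · exact Int.le_floor_add _ _
  · have := Int.le_floor_add_floor ((B : ℝ) ^ q * (x ω r + z' r)) ((B : ℝ) ^ q * (z r - z' r))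
    omega

private theorem cent_shift_box {B : ℕ} (hp : IsPr p) {q b : ℕ} (z z' : Fin b → ℝ)
    (x : Ω → Fin b → ℝ) (g : Ω → γ) :
    cent p (Xc B q z x) (fun ω => (Xc B q z' x ω, g ω)) ≤ b * Real.log 2 := by
  have h1 := cent_le_box hp (Xc B q z x) (fun ω => (Xc B q z' x ω, g ω)) 2 (fun ω₀ _ =>
    ⟨fun r => Xc B q z' x ω₀ r + ⌊(B : ℝ) ^ q * (z r - z' r)⌋, fun ω _ e r => by
      have e1 : Xc B q z' x ω = Xc B q z' x ω₀ := (Prod.ext_iff.mp e).1
      have h2 := shift_box (B := B) (q := q) z z' x ω r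
      rw [e1] at h2
      push_cast
      exact h2⟩)
  push_cast at h1
  exact h1

/-- changing the shift of the grid in the condition changes the entropy by at most `b log 2` -/
theorem cent_shift {B : ℕ} (hp : IsPr p) {q b : ℕ} (z z' : Fin b → ℝ)
    (x : Ω → Fin b → ℝ) (f : Ω → α) (g : Ω → γ) :
    cent p f (fun ω => (Xc B q z x ω, g ω)) ≤
      cent p f (fun ω => (Xc B q z' x ω, g ω)) + b * Real.log 2 := by
  have h1 : cent p f (fun ω => (Xc B q z x ω, g ω)) ≤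
      cent p (fun ω => (Xc B q z' x ω, f ω)) (fun ω => (Xc B q z x ω, g ω)) := by
    refine cent_mono hp ?_ (Det.refl _)
    exact Det.fst (Det.snd (Det.refl f))
  have h2 := cent_chain hp (Xc B q z' x) f (fun ω => (Xc B q z x ω, g ω))
  have h3 := cent_shift_box (B := B) hp (q := q) z' z x g
  have h4 : cent p f (fun ω => (Xc B q z' x ω, Xc B q z x ω, g ω)) ≤
      cent p f (fun ω => (Xc B q z' x ω, g ω)) := by
    refine cent_anti hp f ?_
    exact Det.pair (Det.fst (Det.refl _)) (Det.snd (Det.snd (Det.refl g)))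
  linarith

theorem cent_shift' {B : ℕ} (hp : IsPr p) {q b : ℕ} (z z' : Fin b → ℝ)
    (x : Ω → Fin b → ℝ) (f : Ω → α) :
    cent p f (Xc B q z x) ≤ cent p f (Xc B q z' x) + b * Real.log 2 := by
  have h1 := cent_shift (B := B) hp (q := q) z z' x f (fun _ => ())
  have h2 : ∀ y : Fin b → ℝ, cent p f (fun ω => (Xc B q y x ω, ())) = cent p f (Xc B q y x) := by
    intro y
    refine cent_congr hp (Det.fst (Det.refl _)) (Det.pair (Det.refl _) (fun _ _ _ _ _ => rfl)) ?_ ?_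
    · exact Det.fst (Det.refl _)
    · exact Det.fst (Det.refl _)
  rw [h2, h2] at h1
  exact h1

/-- changing the shift of the grid changes the entropy of the cell by at most `b log 2` -/
theorem cent_shift_left {B : ℕ} (hp : IsPr p) {q b : ℕ} (z z' : Fin b → ℝ)
    (x : Ω → Fin b → ℝ) (g : Ω → γ) :
    cent p (Xc B q z x) g ≤ cent p (Xc B q z' x) g + b * Real.log 2 := by
  have h1 : cent p (Xc B q z x) g ≤ cent p (fun ω => (Xc B q z' x ω, Xc B q z x ω)) g := by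
    refine cent_mono hp ?_ (Det.refl _)
    exact Det.fst (Det.snd (Det.refl _))
  have h2 := cent_chain hp (Xc B q z' x) (Xc B q z x) g
  have h3 := cent_shift_box (B := B) hp (q := q) z z' x g
  linarith

theorem ent_shift {B : ℕ} (hp : IsPr p) {q b : ℕ} (z z' : Fin b → ℝ) (x : Ω → Fin b → ℝ) :
    ent p (Xc B q z x) ≤ ent p (Xc B q z' x) + b * Real.log 2 := by
  have h1 := cent_shift_left (B := B) hp (q := q) z z' x (fun _ => ())
  rw [cent_unit hp, cent_unit hp] at h1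
  exact h1

end STK
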