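import Pool.Agent.Lib.MP_ac5134_an.STK.KDefs

/-!
# STK-KFan: one-sided Fannes inequality

`a b = law p f b`, `a' b = law p' f' b` (`b ∈ S`, both of total mass 1 on `S`), `m b = min (a b) (a' b)`,
`M = ∑ m = 1 - δ/2`, `δ = ∑ |a - a'|`.  If `M = 0` then `δ = 2` and the right side is negative.  Otherwise
`H(a) ≥ ∑ m b * (-log (m b / M))` (concavity: `a = M (m/M) + (1-M) r`) and
`H(a') ≤ ∑ m b * (-log (m b / M)) + (1 - M) log |S| + log 2`.
-/

namespace STK
open Finset RFold
variable {Ω Ω' : Type*} [Fintype Ω] [Fintype Ω'] {p : Ω → ℝ} {p' : Ω' → ℝ} {β : Type*}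

private theorem sum_law_one (hp : IsPr p) (f : Ω → β) (S : Finset β)
    (hS : ∀ ω, p ω ≠ 0 → f ω ∈ S) : ∑ b ∈ S, law p f b = 1 := by
  have h := sum_law (p := p) f hS (fun _ => (1 : ℝ))
  simp only [mul_one] at h
  rw [← h, hp.sum_eq]

theorem fannes (hp : IsPr p) (hp' : IsPr p') (f : Ω → β) (f' : Ω' → β) (S : Finset β)
    (hS : ∀ ω, p ω ≠ 0 → f ω ∈ S) (hS' : ∀ ω, p' ω ≠ 0 → f' ω ∈ S) :
    ent p' f' - (∑ b ∈ S, |law p f b - law p' f' b|) * Real.log S.card - Real.log 2 ≤
      ent p f := by
  have ha := sum_law_one hp f S hS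
  have ha' := sum_law_one hp' f' S hS'
  have hne : S.Nonempty := by
    by_contra h
    rw [not_nonempty_iff_eq_empty] at h
    rw [h, sum_empty] at ha
    exact zero_ne_one ha
  have hc : (1 : ℝ) ≤ S.card := by exact_mod_cast Nat.succ_le_of_lt (card_pos.mpr hne)
  have hc0 : (0 : ℝ) < S.card := lt_of_lt_of_le one_pos hc
  have hlog : 0 ≤ Real.log S.card := Real.log_nonneg hc
  have hlog2 : 0 ≤ Real.log 2 := Real.log_nonneg (by norm_num)
  set a : β → ℝ := law p f with hadef
  set a' : β → ℝ := law p' f' with hadef'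
  have a0 : ∀ b, 0 ≤ a b := fun b => law_nonneg hp f b
  have a0' : ∀ b, 0 ≤ a' b := fun b => law_nonneg hp' f' b
  have a1 : ∀ b, a b ≤ 1 := fun b => law_le_one hp f b
  set m : β → ℝ := fun b => min (a b) (a' b) with hm
  have m0' : ∀ b, 0 ≤ m b := fun b => le_min (a0 b) (a0' b)
  have hma : ∀ b, m b ≤ a b := fun b => min_le_left _ _
  have hma' : ∀ b, m b ≤ a' b := fun b => min_le_right _ _
  set M : ℝ := ∑ b ∈ S, m b with hM
  set δ : ℝ := ∑ b ∈ S, |a b - a' b| with hδ
  have hM0 : 0 ≤ M := sum_nonneg fun b _ => m0' b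
  have hM1 : M ≤ 1 := by rw [← ha]; exact sum_le_sum fun b _ => hma b
  have hMδ : M = 1 - δ / 2 := by
    have h1 : ∀ b, m b = (a b + a' b - |a b - a' b|) / 2 := by
      intro b
      simp only [hm]
      rcases le_total (a b) (a' b) with h | h
      · rw [min_eq_left h, abs_of_nonpos (by linarith)]; ring
      · rw [min_eq_right h, abs_of_nonneg (by linarith)]; ring
    rw [hM, sum_congr rfl fun b _ => h1 b, ← sum_div, sum_sub_distrib, sum_add_distrib, ha, ha']
    ring
  have hδ0 : 0 ≤ δ := sum_nonneg fun b _ => abs_nonneg _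
  rcases hM0.eq_or_lt with hMz | hMpos
  · -- M = 0
    have hδ2 : δ = 2 := by linarith
    have h1 := ent_le_log_card hp' f' S hS'
    have h2 := ent_nonneg hp f
    rw [hδ2]
    linarith
  -- M > 0
  have hent : ent p f = ∑ b ∈ S, a b * (-Real.log (a b)) := sum_law f hS (fun b => -Real.log (a b))
  set h : ℝ := ∑ b ∈ S, m b * (-Real.log (m b / M)) with hh
  have step1 : h ≤ ent p f := by
    rw [hent]
    have h1 : ∀ b ∈ S, m b * (-Real.log (m b / M)) + (m b - M * a b) ≤ a b * (-Real.log (a b)) := by
      intro b _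
      rcases (m0' b).eq_or_lt with hz | hpos
      · rw [← hz, zero_mul, zero_sub, zero_add]
        have h2 : 0 ≤ a b * (-Real.log (a b)) :=
          mul_nonneg (a0 b) (neg_nonneg.mpr (Real.log_nonpos (a0 b) (a1 b)))
        have h3 : 0 ≤ M * a b := mul_nonneg hM0 (a0 b)
        linarith
      · have hab : 0 < a b := lt_of_lt_of_le hpos (hma b)
        have h2 : m b * (-Real.log (a b)) ≤ a b * (-Real.log (a b)) :=
          mul_le_mul_of_nonneg_right (hma b) (neg_nonneg.mpr (Real.log_nonpos (a0 b) (a1 b)))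
        refine le_trans ?_ h2
        have h3 := Real.log_le_sub_one_of_pos (x := M * a b / m b) (by positivity)
        have h4 : Real.log (M * a b / m b) = Real.log (a b) - Real.log (m b / M) := by
          rw [Real.log_div (by positivity) hpos.ne', Real.log_mul hMpos.ne' hab.ne',
            Real.log_div hpos.ne' hMpos.ne']
          ring
        rw [h4] at h3
        have h5 := mul_le_mul_of_nonneg_left h3 (m0' b)
        have h6 : m b * (M * a b / m b - 1) = M * a b - m b := by
          field_simp
        rw [h6] at h5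
        nlinarith [h5]
    have h2 := sum_le_sum h1
    rw [sum_add_distrib, sum_sub_distrib, ← mul_sum, ha] at h2
    linarith
  have step2 : ent p' f' ≤ h + (1 - M) * Real.log S.card + Real.log 2 := by
    set q : β → ℝ := fun b => (m b / M + (S.card : ℝ)⁻¹) / 2 with hq
    have q0 : ∀ b, 0 < q b := by
      intro b
      have h1 : 0 ≤ m b / M := div_nonneg (m0' b) hM0
      have h2 : 0 < (S.card : ℝ)⁻¹ := inv_pos.mpr hc0
      simp only [hq]
      linarith
    have hqS : ∑ b ∈ S, q b ≤ 1 := by
      simp only [hq]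
      rw [← sum_div, sum_add_distrib, ← sum_div, ← hM, sum_const, nsmul_eq_mul,
        div_self hMpos.ne', mul_inv_cancel₀ hc0.ne']
      norm_num
    have h1 := ent_le_gibbs hp' f' q (fun _ _ => q0 _) S hS' (fun b _ => (q0 b).le) hqS
    rw [sum_law f' hS' (fun b => -Real.log (q b))] at h1
    refine h1.trans ?_
    have h2 : ∀ b ∈ S, a' b * (-Real.log (q b)) ≤
        m b * (-Real.log (m b / M)) + (a' b - m b) * Real.log S.card + a' b * Real.log 2 := by
      intro b _
      have e1 : -Real.log (q b) ≤ Real.log 2 + Real.log S.card := by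
        have h3 : (2 * (S.card : ℝ))⁻¹ ≤ q b := by
          have h4 : 0 ≤ m b / M := div_nonneg (m0' b) hM0
          simp only [hq]
          rw [mul_inv]
          have h5 : 0 < (S.card : ℝ)⁻¹ := inv_pos.mpr hc0
          linarith
        have h4 := Real.log_le_log (by positivity) h3
        rw [Real.log_inv, Real.log_mul two_ne_zero hc0.ne'] at h4
        linarith
      have e2 : (a' b - m b) * (-Real.log (q b)) ≤ (a' b - m b) * (Real.log 2 + Real.log S.card) :=
        mul_le_mul_of_nonneg_left e1 (sub_nonneg.mpr (hma' b))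
      have e3 : m b * (-Real.log (q b)) ≤ m b * (Real.log 2 + -Real.log (m b / M)) := by
        rcases (m0' b).eq_or_lt with hz | hpos
        · rw [← hz, zero_mul, zero_mul]
        · refine mul_le_mul_of_nonneg_left ?_ (m0' b)
          have h3 : m b / M / 2 ≤ q b := by
            have h5 : 0 < (S.card : ℝ)⁻¹ := inv_pos.mpr hc0
            simp only [hq]
            linarith
          have hmM : 0 < m b / M := div_pos hpos hMpos
          have h4 := Real.log_le_log (by positivity) h3
          rw [Real.log_div hmM.ne' two_ne_zero] at h4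
          linarith
      have e4 : a' b * (-Real.log (q b)) = m b * (-Real.log (q b)) +
          (a' b - m b) * (-Real.log (q b)) := by ring
      rw [e4]
      nlinarith [e2, e3]
    have h3 := sum_le_sum h2
    rw [sum_add_distrib, sum_add_distrib, ← sum_mul, ← sum_mul, sum_sub_distrib, ha', ← hM,
      one_mul, ← hh] at h3
    exact h3
  have h1 : (1 - M) * Real.log S.card ≤ δ * Real.log S.card := by
    refine mul_le_mul_of_nonneg_right ?_ hlog
    linarith
  linarith

end STK
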