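import Pool.Agent.Lib.MP_ac5134_an.STK.KCell

/-!
# STK-KNode: nodes (conditional weights) and averages over the nodes

`fib p C ω₀` = `p` conditioned to `C = C ω₀` (SD/Fib.lean: `isPr_fib`, `fib_ne_zero`, `det_fib`,
`law_fib`, `cent_eq_fib`).
-/

namespace STK
open Finset RFold Pool.Agent.MPac5134.SD

section
variable {Ω : Type*} [Fintype Ω] {p : Ω → ℝ} {α γ δ : Type*}

/-- `H(f | g, C)` is the average of `H(f | g)` over the fibres of `C`. -/
theorem cent_eq_fib2 (hp : IsPr p) (f : Ω → α) (g : Ω → δ) (C : Ω → γ) :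
    cent p f (fun ω => (g ω, C ω)) = ∑ ω, p ω * cent (fib p C ω) f g := by
  have h1 : ∀ ω, p ω * cent (fib p C ω) f g =
      p ω * ent (fib p C ω) (fun ω => (f ω, g ω)) - p ω * ent (fib p C ω) g := by
    intro ω
    unfold cent
    ring
  rw [sum_congr rfl fun ω _ => h1 ω, sum_sub_distrib, ← cent_eq_fib hp, ← cent_eq_fib hp]
  have h2 := cent_chain hp g f C
  have h3 : cent p (fun ω => (f ω, g ω)) C = cent p (fun ω => (g ω, f ω)) C :=
    cent_congr hp (Det.refl _) (Det.refl _)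
      (Det.fst (Det.pair (Det.snd (Det.refl _)) (Det.fst (Det.refl _))))
      (Det.fst (Det.pair (Det.snd (Det.refl _)) (Det.fst (Det.refl _))))
  linarith

/-- averages of functions over the fibres -/
theorem sum_eq_fib (hp : IsPr p) (φ : Ω → ℝ) (C : Ω → γ) :
    ∑ ω, p ω * φ ω = ∑ ω, p ω * ∑ ω', fib p C ω ω' * φ ω' := by
  classical
  have h1 : ∀ ω', ∑ ω, p ω * fib p C ω ω' = p ω' := by
    intro ω'
    by_cases h0 : p ω' = 0
    · rw [h0]
      refine sum_eq_zero fun ω _ => ?_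
      by_cases h2 : p ω = 0
      · rw [h2, zero_mul]
      · unfold fib
        rw [if_neg h2, h0, zero_div, ite_self, mul_zero]
    · have hl := law_pos hp C h0
      have h3 : ∀ ω, p ω * fib p C ω ω' =
          (if C ω = C ω' then p ω else 0) * (p ω' / law p C (C ω')) := by
        intro ω
        by_cases h2 : p ω = 0
        · rw [h2, zero_mul, ite_self, zero_mul]
        · unfold fib
          rw [if_neg h2]
          by_cases h4 : C ω' = C ω
          · rw [if_pos h4, if_pos h4.symm, h4]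
          · rw [if_neg h4, if_neg (fun h => h4 h.symm), mul_zero, zero_mul]
      rw [sum_congr rfl fun ω _ => h3 ω, ← sum_mul]
      have h4 : ∑ ω, (if C ω = C ω' then p ω else 0) = law p C (C ω') := by
        unfold law pr
        exact sum_congr rfl fun ω _ => by congr
      rw [h4]
      field_simp
  have h2 : ∀ ω, p ω * ∑ ω', fib p C ω ω' * φ ω' = ∑ ω', p ω * fib p C ω ω' * φ ω' := by
    intro ω
    rw [mul_sum]
    exact sum_congr rfl fun ω' _ => by ring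
  rw [sum_congr rfl fun ω _ => h2 ω, sum_comm]
  refine sum_congr rfl fun ω' _ => ?_
  rw [← sum_mul, h1]

/-- `pr p A` is the average of the conditional probabilities. -/
theorem pr_eq_fib (hp : IsPr p) (A : Ω → Prop) (C : Ω → γ) :
    pr p A = ∑ ω, p ω * pr (fib p C ω) A := by
  classical
  have h1 : ∀ q : Ω → ℝ, pr q A = ∑ ω, q ω * (if A ω then 1 else 0) := by
    intro q
    unfold pr
    refine sum_congr rfl fun ω _ => ?_
    by_cases hA : A ω <;> simp [hA]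
  rw [h1 p, sum_eq_fib hp _ C]
  exact sum_congr rfl fun ω _ => by rw [h1 (fib p C ω)]

/-- the fibre of a finer function inside the fibre of a coarser one -/
theorem fib_fib (hp : IsPr p) {C : Ω → γ} {V : Ω → δ} (h : Det p V C) {ω₀ ω₁ : Ω}
    (h0 : p ω₀ ≠ 0) (h1 : fib p C ω₀ ω₁ ≠ 0) : fib (fib p C ω₀) V ω₁ = fib p V ω₁ := by
  classical
  obtain ⟨h2, h3⟩ := fib_ne_zero h0 h1
  have hL := law_pos hp C h0
  have hV := law_pos hp V h2
  have e1 : law (fib p C ω₀) V (V ω₁) = law p V (V ω₁) / law p C (C ω₀) := by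
    rw [law_fib C V h0, ← h3]
    congr 1
    refine le_antisymm ?_ ?_
    · exact law_mono hp (f := fun ω => (V ω, C ω)) (g := V) (Det.fst (Det.refl _)) h2
    · exact law_mono hp (f := V) (g := fun ω => (V ω, C ω)) (Det.pair (Det.refl _) h) h2
  funext ω
  have e2 : fib (fib p C ω₀) V ω₁ ω =
      if V ω = V ω₁ then fib p C ω₀ ω / law (fib p C ω₀) V (V ω₁) else 0 := by
    conv_lhs => unfold fib
    rw [if_neg]
    · congr
    · exact h1
  have e3 : fib p V ω₁ ω = if V ω = V ω₁ then p ω / law p V (V ω₁) else 0 := by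
    unfold fib
    rw [if_neg h2]
  rw [e2, e3]
  by_cases h4 : V ω = V ω₁
  · rw [if_pos h4, if_pos h4, e1]
    by_cases h5 : p ω = 0
    · have e4 : fib p C ω₀ ω = 0 := by
        unfold fib
        rw [if_neg h0, h5, zero_div, ite_self]
      rw [e4, h5, zero_div, zero_div]
    · have h6 : C ω = C ω₀ := (h ω ω₁ h5 h2 h4).trans h3
      have e4 : fib p C ω₀ ω = p ω / law p C (C ω₀) := by
        unfold fib
        rw [if_neg h0, if_pos h6]
      rw [e4, div_div_div_cancel_right₀ hL.ne']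
  · rw [if_neg h4, if_neg h4]

/-- points of the same class have the same fibre -/
theorem fib_congr {C : Ω → γ} {ω₀ ω₁ : Ω} (h0 : p ω₀ ≠ 0) (h1 : p ω₁ ≠ 0) (h : C ω₁ = C ω₀) :
    fib p C ω₁ = fib p C ω₀ := by
  funext ω
  unfold fib
  rw [if_neg h0, if_neg h1, h]

/-- Markov's inequality for weights -/
theorem pr_markov (hp : IsPr p) {φ : Ω → ℝ} (h0 : ∀ ω, p ω ≠ 0 → 0 ≤ φ ω) (t : ℝ) :
    t * pr p (fun ω => t < φ ω) ≤ ∑ ω, p ω * φ ω := by
  classical
  unfold pr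
  rw [mul_sum]
  refine sum_le_sum fun ω _ => ?_
  by_cases h1 : p ω = 0
  · simp [h1]
  · have h2 := hp.nonneg ω
    by_cases h3 : t < φ ω
    · rw [if_pos h3, mul_comm]
      exact mul_le_mul_of_nonneg_left h3.le h2
    · rw [if_neg h3, mul_zero]
      exact mul_nonneg h2 (h0 ω h1)

/-- `cent p f g` does not change if `g` is paired with a function which is constant on the support -/
theorem cent_pair_const (hp : IsPr p) (f : Ω → α) (g : Ω → δ) {C : Ω → γ}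
    (hC : ∀ ω ω', p ω ≠ 0 → p ω' ≠ 0 → C ω = C ω') :
    cent p f (fun ω => (g ω, C ω)) = cent p f g :=
  cent_congr hp (Det.fst (Det.refl _))
    (Det.pair (Det.refl _) (fun ω ω' h1 h2 _ => hC ω ω' h1 h2))
    (Det.fst (Det.refl _)) (Det.fst (Det.refl _))
end

section
variable {Ω : Type} [Fintype Ω] {p : Ω → ℝ}

/-- a node of level `j ≥ i` of a system of level `i` is a system of level `j` -/
theorem IsSys.node {B d : ℕ} {C0 : ℝ} {i : ℕ} {Y : Ω → Co d → ℝ} (h : IsSys B d C0 i p Y)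
    {j : ℕ} (hij : i ≤ j) {ω₀ : Ω} (h0 : p ω₀ ≠ 0) :
    IsSys B d C0 j (fib p (Wc B j Y) ω₀) Y := by
  refine ⟨isPr_fib h.pr _ _, fun ω ω' h1 h2 => ?_, fun k hk ω ω' h1 h2 => ?_⟩
  · exact (fib_ne_zero h0 h1).2.trans (fib_ne_zero h0 h2).2.symm
  · exact h.lip k (hij.trans hk) ω ω' (fib_ne_zero h0 h1).1 (fib_ne_zero h0 h2).1

/-- linear observables of a system are Lipschitz along the tree -/
theorem IsSys.lipX {B d b : ℕ} {C0 M : ℝ} {i : ℕ} {Y : Ω → Co d → ℝ} (h : IsSys B d C0 i p Y)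
    (hC0 : 0 ≤ C0) (P : Matrix (Fin b) (Co d) ℝ) (hP : ∀ r c, |P r c| ≤ M) :
    LipX B (2 * d * M * C0) i p (fun k => Wc B k Y) (obs P Y) := by
  intro k hk ω ω' h1 h2 e r
  have h3 := h.lip k hk ω ω' h1 h2 e
  unfold obs
  rw [← Finset.sum_sub_distrib]
  refine (Finset.abs_sum_le_sum_abs _ _).trans ?_
  have h4 : ∀ c ∈ (univ : Finset (Co d)), |P r c * Y ω c - P r c * Y ω' c| ≤
      M * (C0 * ((B : ℝ) ^ k)⁻¹) := by
    intro c _
    rw [← mul_sub, abs_mul]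
    exact mul_le_mul (hP r c) (h3 c) (abs_nonneg _) ((abs_nonneg _).trans (hP r c))
  refine (Finset.sum_le_sum h4).trans (le_of_eq ?_)
  rw [Finset.sum_const, nsmul_eq_mul, Finset.card_univ, Fintype.card_sum, Fintype.card_fin]
  push_cast
  ring

private theorem lip_diam {γ : Type*} {B b : ℕ} (hB : 0 < B) {C1 : ℝ} {i q : ℕ} {W : ℕ → Ω → γ}
    {x : Ω → Fin b → ℝ} (h : LipX B C1 i p W x) (hC1 : 0 ≤ C1) (hq : i ≤ q)
    (z : Fin b → ℝ) {ω ω' : Ω} (h1 : p ω ≠ 0) (h2 : p ω' ≠ 0) (e : W q ω = W q ω') (r : Fin b) :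
    Xc B q z x ω r ≤ Xc B q z x ω' r + (⌊C1⌋₊ + 1 : ℕ) := by
  have h3 := h q hq ω ω' h1 h2 e r
  have h4 : |(x ω r + z r) - (x ω' r + z r)| ≤ C1 * ((B : ℝ) ^ q)⁻¹ := by
    rw [add_sub_add_right_eq_sub]
    exact h3
  have h5 := floor_dist hB q h4
  have h6 : ((Xc B q z x ω r - Xc B q z x ω' r - 1 : ℤ) : ℝ) ≤ C1 := by
    have e1 : ((Xc B q z x ω r : ℤ) : ℝ) ≤ (Xc B q z x ω' r : ℤ) + C1 + 1 := h5
    push_cast
    linarith
  have h7 : Xc B q z x ω r - Xc B q z x ω' r - 1 ≤ ⌊C1⌋ := Int.le_floor.2 h6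
  have h8 : (⌊C1⌋₊ : ℤ) = ⌊C1⌋ := by
    rw [Int.natCast_floor_eq_floor hC1]
  push_cast
  omega

private theorem log_diam {b : ℕ} {C1 : ℝ} (hC1 : 0 ≤ C1) :
    (b : ℝ) * Real.log (2 * (⌊C1⌋₊ + 1 : ℕ) + 1) ≤ b * Real.log (2 * C1 + 5) := by
  refine mul_le_mul_of_nonneg_left (Real.log_le_log (by positivity) ?_) (Nat.cast_nonneg _)
  have := Nat.floor_le hC1
  push_cast
  linarith

/-- (F1) `H(X_q | W_q) ≤ b log (2 C1 + 5)` -/
theorem LipX.cent_le {γ : Type*} {B b : ℕ} (hB : 0 < B) {C1 : ℝ} {i q : ℕ} {W : ℕ → Ω → γ}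
    {x : Ω → Fin b → ℝ} (hp : IsPr p) (h : LipX B C1 i p W x) (hC1 : 0 ≤ C1) (hq : i ≤ q)
    (z : Fin b → ℝ) : cent p (Xc B q z x) (W q) ≤ b * Real.log (2 * C1 + 5) :=
  (cent_le_diam hp (Xc B q z x) (W q) (⌊C1⌋₊ + 1) fun _ _ h1 h2 e r =>
    lip_diam hB h hC1 hq z h1 h2 e r).trans (log_diam hC1)

/-- on a class of `W c` the cell of level `q ≥ c` has entropy at most
`b ((q - c) log B + log (2 C1 + 5))` -/
theorem LipX.ent_le {γ : Type*} {B b : ℕ} (hB : 0 < B) {C1 : ℝ} {i c q : ℕ} {W : ℕ → Ω → γ}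
    {x : Ω → Fin b → ℝ} (hp : IsPr p) (h : LipX B C1 i p W x) (hC1 : 0 ≤ C1) (hc : i ≤ c)
    (hcq : c ≤ q) (hW : ∀ ω ω', p ω ≠ 0 → p ω' ≠ 0 → W c ω = W c ω') (z : Fin b → ℝ) :
    ent p (Xc B q z x) ≤ b * ((q - c : ℕ) * Real.log B + Real.log (2 * C1 + 5)) := by
  have h1 : ent p (Xc B c z x) ≤ b * Real.log (2 * C1 + 5) :=
    (ent_le_diam hp (Xc B c z x) (⌊C1⌋₊ + 1) fun ω ω' h1 h2 r =>
      lip_diam hB h hC1 hc z h1 h2 (hW ω ω' h1 h2) r).trans (log_diam hC1)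
  have h2 := cent_X_X hB hp hcq z x
  have h3 : ent p (fun ω => (Xc B q z x ω, Xc B c z x ω)) = ent p (Xc B q z x) :=
    ent_congr hp (Det.fst (Det.refl _)) (Det.pair (Det.refl _) (Xc_nest hB hcq z x))
  have h4 : cent p (Xc B q z x) (Xc B c z x) = ent p (fun ω => (Xc B q z x ω, Xc B c z x ω)) -
    ent p (Xc B c z x) := rfl
  rw [mul_add]
  linarith

/-- (F7) if `x'` is a function of `x` up to constants, e.g. a linear image: comparison of the
residuals. -/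
theorem res_ge {B b b' d : ℕ} (hp : IsPr p) {q : ℕ} {c1 : ℝ} (z : Fin b → ℝ) (z' : Fin b' → ℝ)
    (x : Ω → Fin b → ℝ) (x' : Ω → Fin b' → ℝ) (Y : Ω → Co d → ℝ)
    (h1 : cent p (Xc B q z x) (Wc B q Y) ≤ c1) :
    cent p (Wc B q Y) (Xc B q z x) + (ent p (Xc B q z x) - ent p (Xc B q z' x')) - c1 ≤
      cent p (Wc B q Y) (Xc B q z' x') := by
  have e1 : cent p (Wc B q Y) (Xc B q z x) = ent p (fun ω => (Wc B q Y ω, Xc B q z x ω)) -
    ent p (Xc B q z x) := rfl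
  have e2 : cent p (Xc B q z x) (Wc B q Y) = ent p (fun ω => (Xc B q z x ω, Wc B q Y ω)) -
    ent p (Wc B q Y) := rfl
  have e3 : cent p (Wc B q Y) (Xc B q z' x') = ent p (fun ω => (Wc B q Y ω, Xc B q z' x' ω)) -
    ent p (Xc B q z' x') := rfl
  have e4 := ent_swap hp (Wc B q Y) (Xc B q z x)
  have e5 : ent p (Wc B q Y) ≤ ent p (fun ω => (Wc B q Y ω, Xc B q z' x' ω)) :=
    ent_mono hp (Det.fst (Det.refl _))
  linarith
end

end STK
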