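import Pool.Agent.Lib.MP_ac5134_an.STK.KPrl
import Pool.Agent.Lib.MP_ac5134_an.SD.Glue

/-!
# STK-KNum: definitions used in the induction step
-/

namespace STK
open Finset RFold Pool.Agent.MPac5134.SD

/-- the projection along `ζ` with pivot `r0` (the coordinate `r0` of the result is 0) -/
noncomputable def prj {Ω : Type*} {b : ℕ} (ζ : Fin b → ℝ) (r0 : Fin b) (x : Ω → Fin b → ℝ) (ω : Ω) :
    Fin b → ℝ := fun r => x ω r - ζ r / ζ r0 * x ω r0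

variable {Ω : Type} [Fintype Ω]

/-- the two points have different displacements at scale `2 B^(-q)` -/
def far {b d : ℕ} (B q : ℕ) (L : Matrix (Fin b) (Co d) ℝ) (Y : Ω → Co d → ℝ) (y : Ω × Ω) : Prop :=
  ∃ r, 2 * ((B : ℝ) ^ q)⁻¹ ≤ |obs L Y y.1 r - obs L Y y.2 r|

/-- probability of `far` for two independent points of the same coarse cell -/
noncomputable def A1 {b d : ℕ} (B N : ℕ) (p : Ω → ℝ) (Y : Ω → Co d → ℝ)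
    (P P' : Matrix (Fin b) (Co d) ℝ) (c q : ℕ) (z : Fin b → ℤ) : ℝ :=
  pr (gl p p (Xc B c (sh N z) (obs P Y)) (Xc B c (sh N z) (obs P Y))) (far B q (P' - P) Y)

/-- a big drop of the entropy under a projection, at the node of level `i` of `ω` -/
def Drop {b d : ℕ} (B : ℕ) (p : Ω → ℝ) (Y : Ω → Co d → ℝ) (P : Matrix (Fin b) (Co d) ℝ)
    (th2 : ℝ) (D i : ℕ) (ω : Ω) : Prop :=
  ∃ (ζ : Fin b → ℝ) (r0 : Fin b), ζ r0 ≠ 0 ∧ (∀ r, |ζ r| ≤ |ζ r0|) ∧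
    (1 - th2) * (D * Real.log B) ≤ ent (nd B p Y i ω) (Xc B (i + D) 0 (obs P Y)) -
      ent (nd B p Y i ω) (Xc B (i + D) 0 (prj ζ r0 (obs P Y)))

/-- the numerical conditions of the core lemma at a node; `D` is the depth `q - c`, `Dm` the depth of
`η ≤ B B^(-(n+Dm))`, `g` the guard (`N ≥ B^(q+g)`) -/
structure Num (B d b : ℕ) (C0 M ρ0 β τ0 ε0 h2 x4 κ th2 : ℝ) (D Dm s0 u g K : ℕ) : Prop where
  ρ0_nonneg : 0 ≤ ρ0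
  ρ0_le : ρ0 ≤ 1
  β_pos : 0 < β
  β_le : β ≤ 1 / 4
  τ0_pos : 0 < τ0
  x4_pos : 0 < x4
  κ_pos : 0 < κ
  th2_nonneg : 0 ≤ th2
  th2_le : th2 ≤ 1
  s0_le : s0 ≤ D
  K_pos : 1 ≤ K
  hK0 : K * (2 * d * C0 * B * ((B : ℝ) ^ Dm)⁻¹ + ((B : ℝ) ^ g)⁻¹) ≤ ρ0
  hrr : 2 * (2 * d * C0 * B * ((B : ℝ) ^ D / (B : ℝ) ^ Dm / (B : ℝ) ^ u) + ((B : ℝ) ^ g)⁻¹) ≤ 1
  hnum : (8 * 3 ^ b + 3 ^ b / β) * (b * (2 * ρ0 + ((B : ℝ) ^ g)⁻¹)) +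
      5 * K * (2 * (4 * √ε0 + 2 * (b * (2 * (2 * d * C0 * B *
        ((B : ℝ) ^ D / (B : ℝ) ^ Dm / (B : ℝ) ^ u) + ((B : ℝ) ^ g)⁻¹) + ((B : ℝ) ^ g)⁻¹)))) / τ0 +
      (h2 + b * Real.log 2 + b * (2 * (2 * d * M * C0 * ((B : ℝ) ^ s0)⁻¹) + ((B : ℝ) ^ g)⁻¹) *
        (b * ((D - s0 : ℕ) * Real.log B + Real.log (2 * (2 * d * M * C0) + 5)))) / x4 ≤ κ / 2
  hN1 : (b * Real.log 3 + Real.log 2 + (τ0 + 4 * β) * (b * Real.log (3 * (B : ℝ) ^ D))) +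
      x4 + ((2 - th2) * ((D - s0 : ℕ) * Real.log B) + Real.log (2 * (2 * d * M * C0) + 5) +
        b * Real.log 3 + b * Real.log 2) / 2 ≤ Real.log K


end STK
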