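import Pool.Agent.Lib.MP_ac5134_an.STK.KStab
import Pool.Agent.Lib.MP_ac5134_an.STK.KFan
import Pool.Agent.Lib.MP_ac5134_an.STK.KNode
import Pool.Agent.Lib.MP_ac5134_an.STK.KNum

/-!
# STK-KEL: Lemma EL (entropy lower bound from near invariance), section (2.3) of the paper

`μ = fib p (X_c^z) ω₀` = `p` conditioned to the cell `γ = X_c^z ω₀`.
Proof.  Let `Ω' = Ω × Fin K` with the weight `μ ω / K`, `f'(ω,k) = ⌊B^q (x ω + (z - k ζ)/N)⌋`.
(1) For each `k`: the law of `X_q^{z-kζ}` under `p` conditioned to `X_c^{z-kζ} = γ` is `uu p .. (z-kζ) γ`;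
  compared with the law of `X_q^{z-kζ}` under `μ`, the two conditioning events have symmetric difference of
  mass `≤ NB ≤ β P_z(γ)` (`law_shift_le'` and its proof), so the `L1`-distance of the two conditional laws is
  at most `4 β` (`2 P(A Δ A') / max(P(A), P(A'))`).
(2) So the law of `X_q^z` under `μ` (which is `uu p .. z γ`) and the law of `f'` are at `L1`-distance
  `≤ τ0 + 4 β`.  Both live on the set of `f` with `|f_r - γ_r B^(q-c)|`-range: a box of side
  `≤ 3 B^(q-c)` (displacements `≤ ρ ≤ B^(-c)`: the cell `γ` and its neighbours), cardinality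
  `≤ (3 B^(q-c))^b`.
  `fannes`: `ent μ X_q^z ≥ ent f' - (τ0 + 4β) log (3 B^(q-c))^b - log 2`.
(3) `ent f' ≥ ent (f', cell_q (prj ζ r0 x)) - b log 3`, because given `f'(ω,k)` the coordinates
  `(x - kζ/N)_r - (ζ_r/ζ_{r0}) (x - kζ/N)_{r0} = (prj ζ r0 x)_r` are known up to `2 B^(-q)` (`|ζ_r| ≤ |ζ_{r0}|`),
  so their cells up to 3 values; `ent (f', cell) = ent cell + H(f' | cell) ≥ ent cell + H(f' | ω)`
  (`cell` is a function of `ω`) and `H(f' | ω) = log K` because `k ↦ f'(ω,k)` is injective: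
  `|ζ_{r0}| / N ≥ B^(-q)`.
-/

namespace STK
open Finset RFold Pool.Agent.MPac5134.SD

variable {Ω : Type*} [Fintype Ω] {b : ℕ}

theorem abs_pr_sub_le {p : Ω → ℝ} (hp : IsPr p) (U V : Ω → Prop) :
    |pr p U - pr p V| ≤ pr p (fun ω => ¬ (U ω ↔ V ω)) := by
  classical
  unfold pr
  rw [← sum_sub_distrib]
  refine (abs_sum_le_sum_abs _ _).trans (sum_le_sum fun ω _ => ?_)
  have h0 := hp.nonneg ω
  by_cases hU : U ω <;> by_cases hV : V ω <;> simp [hU, hV, abs_of_nonneg h0]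

theorem sum_pr_and_le {β : Type*} {p : Ω → ℝ} (hp : IsPr p) (g : Ω → β) (R : Ω → Prop)
    (S : Finset β) : ∑ f ∈ S, pr p (fun ω => g ω = f ∧ R ω) ≤ pr p R := by
  classical
  unfold pr
  rw [sum_comm]
  refine sum_le_sum fun ω _ => ?_
  beta_reduce
  have h0 := hp.nonneg ω
  by_cases hR : R ω
  · refine le_trans (le_of_eq (sum_congr rfl fun f _ =>
      (?_ : _ = if g ω = f then p ω else 0))) ?_
    · by_cases h : g ω = f
      · simp [h, hR]
      · simp [h]
    · rw [sum_ite_eq, if_pos hR]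
      split_ifs
      · exact le_rfl
      · exact h0
  · simp [hR]

/-- the symmetric difference of the two coarse events lies near the walls -/
theorem symm_le_NB {p : Ω → ℝ} (hp : IsPr p) {B c N : ℕ} (hB : 0 < B) (hN : 0 < N)
    (x : Ω → Fin b → ℝ) {ρ : ℝ} (hρ : ρ ≤ ((B : ℝ) ^ c)⁻¹) (z z' γ : Fin b → ℤ)
    (hz : ∀ r, |((z' r - z r : ℤ) : ℝ)| ≤ ρ * N) :
    pr p (fun ω => ¬ (Xc B c (sh N z') x ω = γ ↔ Xc B c (sh N z) x ω = γ)) ≤
      NB p B c N ρ x z γ := by
  have hNr : (0 : ℝ) < N := by exact_mod_cast hN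
  unfold NB
  refine pr_mono hp fun ω _ hω => ?_
  have hd : ∀ r, |(x ω r + sh N z' r) - (x ω r + sh N z r)| ≤ ρ := by
    intro r
    have e : (x ω r + sh N z' r) - (x ω r + sh N z r) = ((z' r - z r : ℤ) : ℝ) / N := by
      unfold sh
      push_cast
      ring
    rw [e, abs_div, abs_of_pos hNr, div_le_iff₀ hNr]
    exact hz r
  constructor
  · by_contra hn
    have : Xc B c (sh N z') x ω = Xc B c (sh N z) x ω := by
      funext r
      exact floor_eq_of_not_near hB hn hd r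
    rw [this] at hω
    exact hω Iff.rfl
  · have hnb := floor_nbr (c := c) hB (y := fun r => x ω r + sh N z r)
      (y' := fun r => x ω r + sh N z' r) (fun r => (hd r).trans hρ)
    intro r
    by_cases h1 : Xc B c (sh N z) x ω = γ
    · rw [h1]
      simp
    · have h2 : Xc B c (sh N z') x ω = γ := by
        by_contra h2
        exact hω ⟨fun h => absurd h h2, fun h => absurd h h1⟩
      have h3 := hnb r
      rw [← h2, abs_sub_comm]
      exact h3

theorem dist_cond {p : Ω → ℝ} (hp : IsPr p) {B c q N : ℕ} (hB : 0 < B) (hN : 0 < N) (hcq : c ≤ q)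
    (x : Ω → Fin b → ℝ) {ρ β τ0 : ℝ} (hρ : ρ ≤ ((B : ℝ) ^ c)⁻¹) (hβ0 : 0 ≤ β) (hβ : β ≤ 1 / 4)
    (z z' : Fin b → ℤ) (hz : ∀ r, |((z' r - z r : ℤ) : ℝ)| ≤ ρ * N) {ω₀ : Ω} (h0 : p ω₀ ≠ 0)
    (hst : StabB p B c N ρ β x z (Xc B c (sh N z) x ω₀))
    (ht : tvd p B c q N x z z' (Xc B c (sh N z) x ω₀) ≤ τ0) (S : Finset (Fin b → ℤ))
    (hS : cb B (q - c) (Xc B c (sh N z) x ω₀) ⊆ S) :
    ∑ f ∈ S, |law (fib p (Xc B c (sh N z) x) ω₀) (Xc B q (sh N z) x) f -
      law (fib p (Xc B c (sh N z) x) ω₀) (Xc B q (sh N z') x) f| ≤ τ0 + 4 * β := by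
  classical
  set γ := Xc B c (sh N z) x ω₀ with hγ
  set C := Xc B c (sh N z) x with hC
  set C' := Xc B c (sh N z') x with hC'
  set g := Xc B q (sh N z) x with hg
  set g' := Xc B q (sh N z') x with hg'
  set PA := law p C γ with hPAdef
  set PA' := law p C' γ with hPA'def
  have hPA : 0 < PA := law_pos hp C h0
  have hsd : pr p (fun ω => ¬ (C' ω = γ ↔ C ω = γ)) ≤ β * PA :=
    (symm_le_NB hp hB hN x hρ z z' γ hz).trans hst
  have hdiff : |PA' - PA| ≤ β * PA := (abs_pr_sub_le hp _ _).trans hsd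
  have hPA' : 0 < PA' := by
    have h1 := (abs_le.mp hdiff).1
    have h2 : β * PA ≤ (1 / 4) * PA := mul_le_mul_of_nonneg_right hβ hPA.le
    linarith
  set J' : (Fin b → ℤ) → ℝ := fun f => pr p (fun ω => g' ω = f ∧ C' ω = γ) with hJ'
  set J : (Fin b → ℤ) → ℝ := fun f => pr p (fun ω => g' ω = f ∧ C ω = γ) with hJ
  have ha : ∀ f, law (fib p C ω₀) g f = pr p (fun ω => g ω = f ∧ C ω = γ) / PA := by
    intro f
    rw [law_fib C g h0 f]
    congr 1
    unfold law
    exact pr_congr hp fun ω _ => by rw [Prod.mk.injEq]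
  have hb : ∀ f, law (fib p C ω₀) g' f = J f / PA := by
    intro f
    rw [law_fib C g' h0 f]
    congr 1
    unfold law
    exact pr_congr hp fun ω _ => by rw [Prod.mk.injEq]
  have hcb1 : ∀ f ∈ cb B (q - c) γ, pr p (fun ω => g ω = f ∧ C ω = γ) = law p g f := by
    intro f hf
    unfold law
    refine pr_congr hp fun ω _ => ⟨fun h => h.1, fun h => ⟨h, ?_⟩⟩
    exact (mem_cb_iff hB hcq (sh N z) x ω γ).1 (by rw [← hg, h]; exact hf)
  have hcb2 : ∀ f ∈ cb B (q - c) γ, J' f = law p g' f := by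
    intro f hf
    unfold law
    refine pr_congr hp fun ω _ => ⟨fun h => h.1, fun h => ⟨h, ?_⟩⟩
    exact (mem_cb_iff hB hcq (sh N z') x ω γ).1 (by rw [← hg', h]; exact hf)
  have hfalse : ∀ A : Ω → Prop, (∀ ω, ¬ A ω) → pr p A = 0 := by
    intro A hA
    unfold pr
    simp [hA]
  have hn1 : ∀ f, f ∉ cb B (q - c) γ → pr p (fun ω => g ω = f ∧ C ω = γ) = 0 := by
    intro f hf
    refine hfalse _ fun ω h => hf ?_
    have := (mem_cb_iff hB hcq (sh N z) x ω γ).2 h.2
    rw [← h.1]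
    exact this
  have hn2 : ∀ f, f ∉ cb B (q - c) γ → J' f = 0 := by
    intro f hf
    refine hfalse _ fun ω h => hf ?_
    have := (mem_cb_iff hB hcq (sh N z') x ω γ).2 h.2
    rw [← h.1]
    exact this
  have s1 : ∑ f ∈ S, |law (fib p C ω₀) g f - J' f / PA'| ≤ τ0 := by
    refine le_trans (le_of_eq ?_) ht
    unfold tvd
    rw [← sum_subset hS]
    · refine sum_congr rfl fun f hf => ?_
      rw [ha f, hcb1 f hf, hcb2 f hf]
      rfl
    · intro f _ hf
      rw [ha f, hn1 f hf, hn2 f hf]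
      simp
  have sJ : ∑ f ∈ S, |J' f - J f| ≤ β * PA := by
    refine le_trans (sum_le_sum fun f _ => abs_pr_sub_le hp _ _) ?_
    refine le_trans ?_ hsd
    refine le_trans ?_ (sum_pr_and_le hp g' (fun ω => ¬ (C' ω = γ ↔ C ω = γ)) S)
    refine sum_le_sum fun f _ => pr_mono hp fun ω _ h => ?_
    by_cases h1 : g' ω = f
    · refine ⟨h1, fun h2 => h ?_⟩
      simp only [h1, true_and]
      exact h2
    · exact absurd (by simp [h1]) h
  have sJ' : ∑ f ∈ S, J' f ≤ PA' := sum_pr_and_le hp g' (fun ω => C' ω = γ) S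
  have hJ'0 : ∀ f, 0 ≤ J' f := fun f => pr_nonneg hp _
  have s2 : ∑ f ∈ S, |J' f / PA' - law (fib p C ω₀) g' f| ≤ 2 * β := by
    have e : ∀ f ∈ S, |J' f / PA' - law (fib p C ω₀) g' f| ≤
        |J' f - J f| * PA⁻¹ + J' f * (|PA' - PA| * (PA * PA')⁻¹) := by
      intro f _
      rw [hb f]
      have e1 : J' f / PA' - J f / PA = (J' f - J f) * PA⁻¹ + J' f * (-(PA' - PA) * (PA * PA')⁻¹) := by
        field_simp
        ring
      rw [e1]
      refine (abs_add_le _ _).trans ?_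
      rw [abs_mul, abs_mul, abs_mul, abs_neg, abs_of_pos (inv_pos.mpr hPA),
        abs_of_nonneg (hJ'0 f), abs_of_pos (inv_pos.mpr (mul_pos hPA hPA'))]
    refine (sum_le_sum e).trans ?_
    rw [sum_add_distrib, ← sum_mul, ← sum_mul]
    have t1 : (∑ f ∈ S, |J' f - J f|) * PA⁻¹ ≤ β := by
      rw [← div_eq_mul_inv, div_le_iff₀ hPA]
      exact sJ
    have t2 : (∑ f ∈ S, J' f) * (|PA' - PA| * (PA * PA')⁻¹) ≤ β := by
      calc (∑ f ∈ S, J' f) * (|PA' - PA| * (PA * PA')⁻¹)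
          ≤ PA' * ((β * PA) * (PA * PA')⁻¹) := by
            refine mul_le_mul sJ' ?_ (by positivity) hPA'.le
            exact mul_le_mul_of_nonneg_right hdiff (by positivity)
        _ = β := by field_simp
    linarith
  have s3 : ∑ f ∈ S, |law (fib p C ω₀) g f - law (fib p C ω₀) g' f| ≤
      ∑ f ∈ S, |law (fib p C ω₀) g f - J' f / PA'| +
        ∑ f ∈ S, |J' f / PA' - law (fib p C ω₀) g' f| := by
    rw [← sum_add_distrib]
    exact sum_le_sum fun f _ => abs_sub_le _ _ _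
  linarith

/-- the weight `μ ω / K` on `Ω × Fin K` -/
noncomputable def pk (μ : Ω → ℝ) (K : ℕ) (y : Ω × Fin K) : ℝ := μ y.1 / K

theorem isPr_pk {μ : Ω → ℝ} (hμ : IsPr μ) {K : ℕ} (hK : 1 ≤ K) : IsPr (pk μ K) := by
  have hK' : (0 : ℝ) < K := by exact_mod_cast hK
  refine ⟨fun y => div_nonneg (hμ.nonneg _) hK'.le, ?_⟩
  rw [Fintype.sum_prod_type]
  have e : ∀ ω, ∑ k : Fin K, pk μ K (ω, k) = μ ω := by
    intro ω
    unfold pk
    simp only [sum_const, card_univ, Fintype.card_fin, nsmul_eq_mul]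
    field_simp
  rw [sum_congr rfl fun ω _ => e ω]
  exact hμ.sum_eq

theorem law_pk {μ : Ω → ℝ} {K : ℕ} {β : Type*} (F : Ω → Fin K → β) (f : β) :
    law (pk μ K) (fun y => F y.1 y.2) f = (∑ k : Fin K, law μ (fun ω => F ω k) f) / K := by
  classical
  unfold law pr
  rw [Fintype.sum_prod_type, sum_comm, sum_div]
  refine sum_congr rfl fun k _ => ?_
  rw [sum_div]
  refine sum_congr rfl fun ω _ => ?_
  unfold pk
  split_ifs
  · rfl
  · rw [zero_div]

theorem law_pk_fst {μ : Ω → ℝ} {K : ℕ} (hK : 1 ≤ K) {β : Type*} (F : Ω → β) (f : β) :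
    law (pk μ K) (fun y => F y.1) f = law μ F f := by
  have hK' : (0 : ℝ) < K := by exact_mod_cast hK
  have := law_pk (μ := μ) (K := K) (fun ω _ => F ω) f
  rw [this]
  simp only [sum_const, card_univ, Fintype.card_fin, nsmul_eq_mul]
  field_simp

/-- `H(f' | ω) = log K` if `k ↦ F ω k` is injective -/
theorem cent_pk {μ : Ω → ℝ} (hμ : IsPr μ) {K : ℕ} (hK : 1 ≤ K) {β : Type*} (F : Ω → Fin K → β)
    (hF : ∀ ω, μ ω ≠ 0 → Function.Injective (F ω)) :
    cent (pk μ K) (fun y => F y.1 y.2) (fun y => y.1) = Real.log K := by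
  classical
  have hK' : (0 : ℝ) < K := by exact_mod_cast hK
  rw [cent_eq]
  have e : ∀ y : Ω × Fin K, pk μ K y * (Real.log (law (pk μ K) (fun y => y.1) y.1) -
      Real.log (law (pk μ K) (fun y => (F y.1 y.2, y.1)) (F y.1 y.2, y.1))) =
      pk μ K y * Real.log K := by
    rintro ⟨ω, k⟩
    by_cases h0 : μ ω = 0
    · unfold pk
      simp [h0]
    · have hpos : 0 < μ ω := lt_of_le_of_ne (hμ.nonneg ω) (Ne.symm h0)
      have e1 : law (pk μ K) (fun y => y.1) ω = μ ω := by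
        rw [law_pk_fst hK (fun ω => ω) ω]
        unfold law pr
        simp
      have e2 : law (pk μ K) (fun y => (F y.1 y.2, y.1)) (F ω k, ω) = μ ω / K := by
        have := law_pk (μ := μ) (K := K) (fun ω k => (F ω k, ω)) (F ω k, ω)
        rw [this]
        congr 1
        rw [sum_eq_single k]
        · unfold law pr
          rw [sum_eq_single ω]
          · simp
          · intro ω' _ h
            rw [if_neg]
            intro h'
            exact h (Prod.ext_iff.mp h').2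
          · intro h
            exact absurd (mem_univ _) h
        · intro k' _ h
          unfold law pr
          refine sum_eq_zero fun ω' _ => ?_
          rw [if_neg]
          intro h'
          obtain ⟨h1, h2⟩ := Prod.ext_iff.mp h'
          simp only at h1 h2
          subst h2
          exact h (hF _ h0 h1)
        · intro h
          exact absurd (mem_univ _) h
      simp only
      rw [e1, e2, Real.log_div hpos.ne' hK'.ne']
      ring
  rw [sum_congr rfl fun y _ => e y, ← sum_mul, (isPr_pk hμ hK).sum_eq, one_mul]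

theorem ent_lower {p : Ω → ℝ} (hp : IsPr p) {B c q N : ℕ} (hB : 2 ≤ B) (hN : 0 < N) (hcq : c ≤ q)
    (x : Ω → Fin b → ℝ) {ρ β τ0 : ℝ} (hρ : ρ ≤ ((B : ℝ) ^ c)⁻¹) (hβ0 : 0 ≤ β) (hβ : β ≤ 1 / 4)
    (hτ0 : 0 ≤ τ0) (z ζ : Fin b → ℤ) (r0 : Fin b) (hmax : ∀ r, |ζ r| ≤ |ζ r0|)
    (hbig : ((B : ℝ) ^ q)⁻¹ * N ≤ |(ζ r0 : ℝ)|) {K : ℕ} (hK : 1 ≤ K)
    (hKζ : K * |(ζ r0 : ℝ)| ≤ ρ * N) {ω₀ : Ω} (h0 : p ω₀ ≠ 0)
    (hst : StabB p B c N ρ β x z (Xc B c (sh N z) x ω₀))
    (hwalk : ∀ k < K, tvd p B c q N x z (z - (k : ℤ) • ζ) (Xc B c (sh N z) x ω₀) ≤ τ0) :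
    Real.log K + ent (fib p (Xc B c (sh N z) x) ω₀) (Xc B q 0 (prj (fun r => (ζ r : ℝ)) r0 x)) -
        (b * Real.log 3 + Real.log 2 + (τ0 + 4 * β) * (b * Real.log (3 * (B : ℝ) ^ (q - c)))) ≤
      ent (fib p (Xc B c (sh N z) x) ω₀) (Xc B q (sh N z) x) := by
  classical
  have hB0 : 0 < B := by omega
  have hBr : (0 : ℝ) < (B : ℝ) := by exact_mod_cast hB0
  have hNr : (0 : ℝ) < N := by exact_mod_cast hN
  have hK' : (0 : ℝ) < K := by exact_mod_cast hK
  have hBq : (0 : ℝ) < (B : ℝ) ^ q := by positivity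
  have hζ0 : (ζ r0 : ℝ) ≠ 0 := by
    intro h
    rw [h, abs_zero] at hbig
    have : 0 < ((B : ℝ) ^ q)⁻¹ * N := by positivity
    linarith
  set γ := Xc B c (sh N z) x ω₀ with hγ
  set μ := fib p (Xc B c (sh N z) x) ω₀ with hμdef
  have hμ : IsPr μ := isPr_fib hp _ _
  set F : Ω → Fin K → (Fin b → ℤ) := fun ω k => Xc B q (sh N (z - ((k : ℕ) : ℤ) • ζ)) x ω with hF
  have hP := isPr_pk hμ hK
  set S : Finset (Fin b → ℤ) := Fintype.piFinset fun r =>
    Finset.Ico ((γ r - 1) * (B : ℤ) ^ (q - c)) ((γ r + 2) * (B : ℤ) ^ (q - c)) with hSdef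
  have hBz : (0 : ℤ) < (B : ℤ) ^ (q - c) := by positivity
  have hcbS : ∀ γ' : Fin b → ℤ, (∀ r, |γ' r - γ r| ≤ 1) → cb B (q - c) γ' ⊆ S := by
    intro γ' hγ' f hf
    unfold cb at hf
    rw [Fintype.mem_piFinset] at hf
    rw [hSdef, Fintype.mem_piFinset]
    intro r
    have h1 := Finset.mem_Ico.mp (hf r)
    have h2 := abs_le.mp (hγ' r)
    rw [Finset.mem_Ico]
    constructor
    · refine le_trans ?_ h1.1
      exact mul_le_mul_of_nonneg_right (by linarith [h2.1]) hBz.le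
    · refine lt_of_lt_of_le h1.2 ?_
      exact mul_le_mul_of_nonneg_right (by linarith [h2.2]) hBz.le
  have hshift : ∀ k < K, ∀ r, |(((z - (k : ℤ) • ζ) r - z r : ℤ) : ℝ)| ≤ ρ * N := by
    intro k hk r
    have e : (((z - (k : ℤ) • ζ) r - z r : ℤ) : ℝ) = -((k : ℝ) * ζ r) := by
      simp only [Pi.sub_apply, Pi.smul_apply, smul_eq_mul]
      push_cast
      ring
    rw [e, abs_neg, abs_mul, Nat.abs_cast]
    have h1 : |(ζ r : ℝ)| ≤ |(ζ r0 : ℝ)| := by
      have := hmax r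
      rw [← Int.cast_abs, ← Int.cast_abs]
      exact_mod_cast this
    have h2 : (k : ℝ) ≤ K := by exact_mod_cast hk.le
    calc (k : ℝ) * |(ζ r : ℝ)| ≤ K * |(ζ r0 : ℝ)| :=
          mul_le_mul h2 h1 (abs_nonneg _) hK'.le
      _ ≤ ρ * N := hKζ
  have hsupp : ∀ ω, μ ω ≠ 0 → p ω ≠ 0 ∧ Xc B c (sh N z) x ω = γ := fun ω h =>
    fib_ne_zero h0 h
  have hS1 : ∀ ω, μ ω ≠ 0 → Xc B q (sh N z) x ω ∈ S := by
    intro ω h
    refine hcbS γ (by simp) ?_
    have := mem_cb hB0 hcq (sh N z) x ω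
    rwa [(hsupp ω h).2] at this
  have hmu : ∀ y : Ω × Fin K, pk μ K y ≠ 0 → μ y.1 ≠ 0 := by
    intro y hy h
    apply hy
    unfold pk
    rw [h, zero_div]
  have hS2 : ∀ y : Ω × Fin K, pk μ K y ≠ 0 → F y.1 y.2 ∈ S := by
    rintro ⟨ω, k⟩ hy
    have hω := hsupp ω (hmu _ hy)
    refine hcbS (Xc B c (sh N (z - ((k : ℕ) : ℤ) • ζ)) x ω) ?_ (mem_cb hB0 hcq _ x ω)
    intro r
    rw [← hω.2]
    refine floor_nbr (c := c) hB0 (y := fun r => x ω r + sh N z r)
      (y' := fun r => x ω r + sh N (z - ((k : ℕ) : ℤ) • ζ) r) (fun r => ?_) r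
    refine le_trans ?_ hρ
    have e : (x ω r + sh N (z - ((k : ℕ) : ℤ) • ζ) r) - (x ω r + sh N z r) =
        (((z - ((k : ℕ) : ℤ) • ζ) r - z r : ℤ) : ℝ) / N := by
      unfold sh
      push_cast
      ring
    rw [e, abs_div, abs_of_pos hNr, div_le_iff₀ hNr]
    exact hshift k k.2 r
  -- the distance of the laws
  have hdist : ∑ f ∈ S, |law μ (Xc B q (sh N z) x) f -
      law (pk μ K) (fun y => F y.1 y.2) f| ≤ τ0 + 4 * β := by
    have e : ∀ f ∈ S, |law μ (Xc B q (sh N z) x) f - law (pk μ K) (fun y => F y.1 y.2) f| ≤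
        (∑ k : Fin K, |law μ (Xc B q (sh N z) x) f - law μ (fun ω => F ω k) f|) / K := by
      intro f _
      rw [law_pk]
      have e1 : law μ (Xc B q (sh N z) x) f - (∑ k : Fin K, law μ (fun ω => F ω k) f) / K =
          (∑ k : Fin K, (law μ (Xc B q (sh N z) x) f - law μ (fun ω => F ω k) f)) / K := by
        rw [sum_sub_distrib, sum_const, card_univ, Fintype.card_fin, nsmul_eq_mul]
        field_simp
      rw [e1, abs_div, abs_of_pos hK']
      exact div_le_div_of_nonneg_right (abs_sum_le_sum_abs _ _) hK'.le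
    refine (sum_le_sum e).trans ?_
    rw [← sum_div, sum_comm, div_le_iff₀ hK']
    have e2 : ∀ k : Fin K, ∑ f ∈ S, |law μ (Xc B q (sh N z) x) f - law μ (fun ω => F ω k) f| ≤
        τ0 + 4 * β := by
      intro k
      exact dist_cond hp hB0 hN hcq x hρ hβ0 hβ z (z - ((k : ℕ) : ℤ) • ζ) (hshift k k.2) h0 hst
        (hwalk k k.2) S (hcbS γ (by simp))
    refine (sum_le_sum fun k _ => e2 k).trans (le_of_eq ?_)
    rw [sum_const, card_univ, Fintype.card_fin, nsmul_eq_mul]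
    ring
  have hcard : Real.log (S.card : ℝ) = b * Real.log (3 * (B : ℝ) ^ (q - c)) := by
    have e : (S.card : ℝ) = (3 * (B : ℝ) ^ (q - c)) ^ b := by
      rw [hSdef, Fintype.card_piFinset]
      have e1 : ∀ r ∈ (univ : Finset (Fin b)), (Finset.Ico ((γ r - 1) * (B : ℤ) ^ (q - c))
          ((γ r + 2) * (B : ℤ) ^ (q - c))).card = 3 * B ^ (q - c) := by
        intro r _
        rw [Int.card_Ico]
        have : (γ r + 2) * (B : ℤ) ^ (q - c) - (γ r - 1) * (B : ℤ) ^ (q - c) =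
            ((3 * B ^ (q - c) : ℕ) : ℤ) := by
          push_cast
          ring
        rw [this, Int.toNat_natCast]
      rw [prod_congr rfl e1, prod_const, card_univ, Fintype.card_fin]
      push_cast
      ring
    rw [e, Real.log_pow]
  have hfan := fannes hμ hP (Xc B q (sh N z) x) (fun y : Ω × Fin K => F y.1 y.2) S hS1 hS2
  have hfan2 : ent (pk μ K) (fun y : Ω × Fin K => F y.1 y.2) -
      (τ0 + 4 * β) * (b * Real.log (3 * (B : ℝ) ^ (q - c))) - Real.log 2 ≤
      ent μ (Xc B q (sh N z) x) := by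
    refine le_trans ?_ hfan
    rw [hcard]
    have h1 : 0 ≤ (b : ℝ) * Real.log (3 * (B : ℝ) ^ (q - c)) := by
      rw [← hcard]
      exact Real.log_natCast_nonneg _
    have := mul_le_mul_of_nonneg_right hdist h1
    linarith
  -- the entropy of `f'`
  set C0 : Ω → Fin b → ℤ := Xc B q 0 (prj (fun r => (ζ r : ℝ)) r0 x) with hC0
  have hC : ent (pk μ K) (fun y : Ω × Fin K => C0 y.1) = ent μ C0 :=
    ent_of_law' fun f => law_pk_fst hK C0 f
  have hcell : cent (pk μ K) (fun y : Ω × Fin K => C0 y.1) (fun y => F y.1 y.2) ≤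
      b * Real.log 3 := by
    have h3 := cent_le_box hP (fun y : Ω × Fin K => C0 y.1) (fun y => F y.1 y.2) 3 ?_
    · simpa using h3
    · rintro y₀ -
      -- the lower corner
      refine ⟨fun r => ⌊(F y₀.1 y₀.2 r : ℝ) - (ζ r / ζ r0 : ℝ) * F y₀.1 y₀.2 r0 -
        (B : ℝ) ^ q * ((z r : ℝ) - (ζ r / ζ r0 : ℝ) * z r0) / N - max (ζ r / ζ r0 : ℝ) 0⌋, ?_⟩
      rintro ⟨ω, k⟩ - hy r
      change F ω k = F y₀.1 y₀.2 at hy
      have hFr : ∀ r, (F y₀.1 y₀.2 r : ℤ) = ⌊(B : ℝ) ^ q * (x ω r + sh N (z - ((k : ℕ) : ℤ) • ζ) r)⌋ := by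
        intro r
        rw [← hy]
        rfl
      have hr := hFr r
      have hr0 := hFr r0
      set Y := (B : ℝ) ^ q * (x ω r + sh N (z - ((k : ℕ) : ℤ) • ζ) r) with hY
      set Y0 := (B : ℝ) ^ q * (x ω r0 + sh N (z - ((k : ℕ) : ℤ) • ζ) r0) with hY0
      set t : ℝ := (ζ r / ζ r0 : ℝ) with ht
      have htabs : |t| ≤ 1 := by
        rw [ht, abs_div, div_le_one (abs_pos.mpr hζ0)]
        have := hmax r
        rw [← Int.cast_abs, ← Int.cast_abs]
        exact_mod_cast this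
      have hval : (B : ℝ) ^ q * ((prj (fun r => (ζ r : ℝ)) r0 x ω) r + (0 : Fin b → ℝ) r) =
          Y - t * Y0 - (B : ℝ) ^ q * ((z r : ℝ) - t * z r0) / N := by
        have hprj : prj (fun r => (ζ r : ℝ)) r0 x ω r = x ω r - t * x ω r0 := rfl
        have htζ : t * (ζ r0 : ℝ) = ζ r := by
          rw [ht]
          field_simp
        rw [hprj, hY, hY0]
        unfold sh
        simp only [Pi.sub_apply, Pi.smul_apply, smul_eq_mul, Pi.zero_apply, add_zero]
        push_cast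
        rw [← htζ]
        field_simp
        ring
      have f1 := Int.floor_le Y
      have f2 := Int.lt_floor_add_one Y
      have f3 := Int.floor_le Y0
      have f4 := Int.lt_floor_add_one Y0
      rw [← hr] at f1 f2
      rw [← hr0] at f3 f4
      have hCr : C0 ω r = ⌊Y - t * Y0 - (B : ℝ) ^ q * ((z r : ℝ) - t * z r0) / N⌋ := by
        rw [← hval]
        rfl
      set L : ℝ := (F y₀.1 y₀.2 r : ℝ) - t * F y₀.1 y₀.2 r0 -
        (B : ℝ) ^ q * ((z r : ℝ) - t * z r0) / N - max t 0 with hL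
      have hlow : L ≤ Y - t * Y0 - (B : ℝ) ^ q * ((z r : ℝ) - t * z r0) / N := by
        rw [hL]
        rcases le_total 0 t with h | h
        · rw [max_eq_left h]
          nlinarith
        · rw [max_eq_right h]
          nlinarith
      have hup : Y - t * Y0 - (B : ℝ) ^ q * ((z r : ℝ) - t * z r0) / N < L + 2 := by
        rw [hL]
        have h1 := abs_le.mp htabs
        rcases le_total 0 t with h | h
        · rw [max_eq_left h]
          nlinarith
        · rw [max_eq_right h]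
          nlinarith
      rw [hCr]
      constructor
      · exact Int.floor_le_floor hlow
      · have h1 : ⌊Y - t * Y0 - (B : ℝ) ^ q * ((z r : ℝ) - t * z r0) / N⌋ ≤ ⌊L + 2⌋ :=
          Int.floor_le_floor hup.le
        have h2 : ⌊L + 2⌋ = ⌊L⌋ + 2 := by
          have := Int.floor_add_intCast L 2
          push_cast at this
          exact this
        rw [h2] at h1
        push_cast
        linarith
  have hinj : ∀ ω, μ ω ≠ 0 → Function.Injective (F ω) := by
    intro ω _ k k' h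
    by_contra hne
    have h1 := congrFun h r0
    simp only [hF, Xc] at h1
    have hne' : (k : ℕ) ≠ k' := fun h => hne (Fin.ext h)
    have h2 := Int.abs_sub_lt_one_of_floor_eq_floor h1
    have e : (B : ℝ) ^ q * (x ω r0 + sh N (z - ((k : ℕ) : ℤ) • ζ) r0) -
        (B : ℝ) ^ q * (x ω r0 + sh N (z - ((k' : ℕ) : ℤ) • ζ) r0) =
        (((k' : ℕ) : ℝ) - ((k : ℕ) : ℝ)) * ((B : ℝ) ^ q * (ζ r0 : ℝ) / N) := by
      unfold sh
      simp only [Pi.sub_apply, Pi.smul_apply, smul_eq_mul]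
      push_cast
      field_simp
      ring
    rw [e, abs_mul] at h2
    have h3 : (1 : ℝ) ≤ |(((k' : ℕ) : ℝ) - ((k : ℕ) : ℝ))| := by
      have : (1 : ℤ) ≤ |((k' : ℕ) : ℤ) - ((k : ℕ) : ℤ)| := by
        apply Int.one_le_abs
        intro h
        apply hne'
        have : ((k' : ℕ) : ℤ) = ((k : ℕ) : ℤ) := by linarith
        exact_mod_cast this.symm
      exact_mod_cast this
    have h4 : (1 : ℝ) ≤ |(B : ℝ) ^ q * (ζ r0 : ℝ) / N| := by
      rw [abs_div, abs_mul, abs_of_pos hBq, abs_of_pos hNr, le_div_iff₀ hNr, one_mul]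
      have := mul_le_mul_of_nonneg_left hbig hBq.le
      have e2 : (B : ℝ) ^ q * (((B : ℝ) ^ q)⁻¹ * N) = N := by
        field_simp
      rw [e2] at this
      exact this
    have h5 : (1 : ℝ) ≤ |(((k' : ℕ) : ℝ) - ((k : ℕ) : ℝ))| * |(B : ℝ) ^ q * (ζ r0 : ℝ) / N| := by
      nlinarith
    linarith
  have hlogK := cent_pk hμ hK F hinj
  have hanti : cent (pk μ K) (fun y : Ω × Fin K => F y.1 y.2) (fun y => y.1) ≤
      cent (pk μ K) (fun y : Ω × Fin K => F y.1 y.2) (fun y => C0 y.1) :=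
    cent_anti hP _ (Det.of (fun y : Ω × Fin K => y.1) C0)
  have hsw := ent_swap hP (fun y : Ω × Fin K => F y.1 y.2) (fun y : Ω × Fin K => C0 y.1)
  unfold cent at hcell hanti
  have hlogK' : ent (pk μ K) (fun y : Ω × Fin K => (F y.1 y.2, y.1)) -
      ent (pk μ K) (fun y : Ω × Fin K => y.1) = Real.log K := hlogK
  linarith

end STK
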