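import Pool.Agent.Lib.MP_ac5134_an.STK.KCore2
import Pool.Agent.Lib.MP_ac5134_an.STK.KEL

/-!
# STK-KCore: the core lemma, section (2.4) of the paper

`br_le`: `ent μ X_q^z ≤ ent μ (cell (prj x)) + H(X_q^z | cell (prj x))`, and given the cell of `prj x` and the
cell of the coordinate `r0` (entropy `≤ (q-cV) log B + log (2C1+5)` on a set of diameter `C1 B^(-cV)`), every
other coordinate of `X_q^z` has at most 3 values.

Proof of `core_lemma`.  By `good_pairs` the average over `z` of `P(∃ y.2, (y.1,y.2) good)` is `≥ κ/2`.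
Fix `z` and a good `y`, `γ` its coarse cell, `μ = fib p (X_c^z) y.1`, `ζ = τ(E y.1) - τ(E y.2)` and `r0` with
`|ζ r0|` maximal.  `ent_lower`, `ent_ge_fresh` (for `g = cell (prj ζ x)`) and `ex ≤ x4` give
`∑_{ω'} μ ω' 1[Dt ω'] (ent (fib p V ω') X_q^z - ent (fib p V ω') cell(prj x)) ≥ log K - e1 - x4`.
Every bracket is `≤ brmax = (q-cV) log B + log(2C1+5) + b log 3` and with
`T = (1-th2)(q-cV) log B + b log 2` the `μ`-mass `f` of `{Dt, bracket ≥ T}` satisfies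
`f brmax + (1-f) T ≥ log K - e1 - x4 ≥ (brmax + T)/2` (`hN1`), so `f ≥ 1/2` because
`brmax - T = th2 (q-cV) log B + log(2C1+5) + b log(3/2) > 0` (points which are not `Dt` count as bracket
`0 ≤ T`).  Finally `ent X_q^0 ≥ ent X_q^z - b log 2`.
So for each `z`, `P(G) ≥ (1/2) P(∃ y.2, good)` where `G` is the event of the conclusion
(`sum_eq_fib`), and averaging over `z` gives `κ/4`.
-/

namespace STK
open Finset RFold Pool.Agent.MPac5134.SD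
variable {Ω : Type*} [Fintype Ω] {ε : Type*} [Fintype ε] {b : ℕ} {δ : Type*}

private theorem br_floor {A v : ℝ} (h1 : A ≤ v) (h2 : v < A + 2) :
    ⌊A⌋ ≤ ⌊v⌋ ∧ ⌊v⌋ < ⌊A⌋ + 3 := by
  refine ⟨Int.floor_le_floor h1, ?_⟩
  have h3 := Int.lt_floor_add_one A
  have h4 := Int.floor_le v
  have h5 : (⌊v⌋ : ℝ) < ⌊A⌋ + 3 := by linarith
  exact_mod_cast h5

private theorem box3 {U W t cst : ℝ} (ht : |t| ≤ 1) :
    ⌊(⌊U⌋ : ℝ) + t * ⌊W⌋ + min t 0 + cst⌋ ≤ ⌊U + t * W + cst⌋ ∧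
      ⌊U + t * W + cst⌋ < ⌊(⌊U⌋ : ℝ) + t * ⌊W⌋ + min t 0 + cst⌋ + 3 := by
  have u1 := Int.floor_le U
  have u2 := Int.lt_floor_add_one U
  have w1 := Int.floor_le W
  have w2 := Int.lt_floor_add_one W
  obtain ⟨t1, t2⟩ := abs_le.1 ht
  apply br_floor
  · rcases le_total 0 t with h | h
    · rw [min_eq_right h]
      have := mul_nonneg h (sub_nonneg.2 w1)
      linarith
    · rw [min_eq_left h]
      have := mul_nonneg (neg_nonneg.2 h) (sub_nonneg.2 w2.le)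
      linarith
  · rcases le_total 0 t with h | h
    · rw [min_eq_right h]
      have := mul_nonneg (sub_nonneg.2 t2) (sub_nonneg.2 w1)
      linarith
    · rw [min_eq_left h]
      have h1 : (0 : ℝ) ≤ 1 + t := by linarith
      have := mul_nonneg h1 (sub_nonneg.2 w2.le)
      linarith

theorem br_le {p : Ω → ℝ} (hp : IsPr p) {B cV q : ℕ} (hB : 2 ≤ B) (hVq : cV ≤ q)
    (x : Ω → Fin b → ℝ) {C1 : ℝ} (hC1 : 0 ≤ C1)
    (hV : ∀ ω ω', p ω ≠ 0 → p ω' ≠ 0 → ∀ r, |x ω r - x ω' r| ≤ C1 * ((B : ℝ) ^ cV)⁻¹)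
    (z : Fin b → ℝ) (ζ : Fin b → ℝ) (r0 : Fin b) (hζ : ζ r0 ≠ 0) (hmax : ∀ r, |ζ r| ≤ |ζ r0|) :
    ent p (Xc B q z x) - ent p (Xc B q 0 (prj ζ r0 x)) ≤
      (q - cV : ℕ) * Real.log B + Real.log (2 * C1 + 5) + b * Real.log 3 := by
  have hB0 : 0 < B := by omega
  have hB0R : (0 : ℝ) < B := by exact_mod_cast hB0
  have hB1R : (1 : ℝ) ≤ B := by exact_mod_cast hB0
  have hBq : (0 : ℝ) < (B : ℝ) ^ q := by positivity
  obtain ⟨g, hg⟩ : ∃ g : Ω → Fin b → ℤ, g = Xc B q 0 (prj ζ r0 x) := ⟨_, rfl⟩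
  obtain ⟨X, hX⟩ : ∃ X : Ω → Fin b → ℤ, X = Xc B q z x := ⟨_, rfl⟩
  obtain ⟨f0, hf0⟩ : ∃ f0 : Ω → Fin 1 → ℤ, f0 = fun ω _ => X ω r0 := ⟨_, rfl⟩
  rw [← hg, ← hX]
  have h1 : ent p X ≤ ent p (fun ω => (X ω, f0 ω, g ω)) := ent_mono hp (Det.fst (Det.refl X))
  have h2 : ent p (fun ω => (X ω, f0 ω, g ω)) =
      cent p X (fun ω => (f0 ω, g ω)) + ent p (fun ω => (f0 ω, g ω)) := by
    unfold cent
    ring
  have h3 : ent p (fun ω => (f0 ω, g ω)) ≤ ent p f0 + ent p g := ent_pair_le hp f0 g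
  obtain ⟨P, hP⟩ : ∃ P : ℝ, P = (B : ℝ) ^ (q - cV) := ⟨_, rfl⟩
  have hP1 : 1 ≤ P := by
    rw [hP]
    exact one_le_pow₀ hB1R
  have hD0 : 0 ≤ C1 * P + 1 := by positivity
  have h4 : ent p f0 ≤ (q - cV : ℕ) * Real.log B + Real.log (2 * C1 + 5) := by
    have e : (B : ℝ) ^ q = P * (B : ℝ) ^ cV := by
      rw [hP, ← pow_add, Nat.sub_add_cancel hVq]
    have hD : ∀ ω ω', p ω ≠ 0 → p ω' ≠ 0 → (X ω r0 : ℝ) ≤ X ω' r0 + C1 * P + 1 := by
      intro ω ω' hω hω'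
      rw [hX]
      refine floor_dist hB0 q (D := C1 * P) ?_
      have e2 : x ω r0 + z r0 - (x ω' r0 + z r0) = x ω r0 - x ω' r0 := by ring
      have e3 : C1 * P * ((B : ℝ) ^ q)⁻¹ = C1 * ((B : ℝ) ^ cV)⁻¹ := by
        have : P ≠ 0 := by positivity
        rw [e]
        field_simp
      rw [e2, e3]
      exact hV ω ω' hω hω' r0
    have hK : ∀ ω ω', p ω ≠ 0 → p ω' ≠ 0 → ∀ r, f0 ω r ≤ f0 ω' r + (⌊C1 * P + 1⌋₊ : ℕ) := by
      intro ω ω' hω hω' r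
      have h := hD ω ω' hω hω'
      rw [hf0]
      simp only
      rcases le_total (X ω r0) (X ω' r0) with hle | hle
      · have : (0 : ℤ) ≤ (⌊C1 * P + 1⌋₊ : ℕ) := Int.natCast_nonneg _
        linarith
      · obtain ⟨m, hm⟩ := Int.eq_ofNat_of_zero_le (sub_nonneg.2 hle)
        have hm' : (X ω r0 : ℝ) - X ω' r0 = m := by exact_mod_cast hm
        have hmK : m ≤ ⌊C1 * P + 1⌋₊ := by
          apply Nat.le_floor
          linarith
        have : (m : ℤ) ≤ (⌊C1 * P + 1⌋₊ : ℕ) := by exact_mod_cast hmK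
        linarith
    have h := ent_le_diam hp f0 ⌊C1 * P + 1⌋₊ hK
    have hfl := Nat.floor_le hD0
    have hle : 2 * (⌊C1 * P + 1⌋₊ : ℝ) + 1 ≤ P * (2 * C1 + 5) := by
      have : 0 ≤ C1 * P := by positivity
      linarith
    have hlog : Real.log (2 * (⌊C1 * P + 1⌋₊ : ℝ) + 1) ≤ Real.log (P * (2 * C1 + 5)) :=
      Real.log_le_log (by positivity) hle
    have hPne : P ≠ 0 := by positivity
    rw [Real.log_mul hPne (by positivity)] at hlog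
    have hlP : Real.log P = (q - cV : ℕ) * Real.log B := by
      rw [hP, Real.log_pow]
    rw [hlP] at hlog
    refine h.trans ?_
    push_cast
    rw [one_mul]
    exact hlog
  have h5 : cent p X (fun ω => (f0 ω, g ω)) ≤ b * Real.log 3 := by
    have h := cent_le_box hp X (fun ω => (f0 ω, g ω)) 3 (fun ω₀ _ =>
      ⟨fun r => ⌊(g ω₀ r : ℝ) + ζ r / ζ r0 * (X ω₀ r0 : ℝ) + min (ζ r / ζ r0) 0 +
        (B : ℝ) ^ q * (z r - ζ r / ζ r0 * z r0)⌋, fun ω _ e r => by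
        have e1 : X ω r0 = X ω₀ r0 := by
          have h1 := congrFun (Prod.ext_iff.mp e).1 0
          rw [hf0] at h1
          exact h1
        have e2 : g ω = g ω₀ := (Prod.ext_iff.mp e).2
        have ht : |ζ r / ζ r0| ≤ 1 := by
          rw [abs_div]
          exact div_le_one_of_le₀ (hmax r) (abs_nonneg _)
        have hb := box3 (U := (B : ℝ) ^ q * (prj ζ r0 x ω r + (0 : Fin b → ℝ) r))
          (W := (B : ℝ) ^ q * (x ω r0 + z r0)) (t := ζ r / ζ r0)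
          (cst := (B : ℝ) ^ q * (z r - ζ r / ζ r0 * z r0)) ht
        have e3 : (B : ℝ) ^ q * (prj ζ r0 x ω r + (0 : Fin b → ℝ) r) +
            ζ r / ζ r0 * ((B : ℝ) ^ q * (x ω r0 + z r0)) +
            (B : ℝ) ^ q * (z r - ζ r / ζ r0 * z r0) = (B : ℝ) ^ q * (x ω r + z r) := by
          unfold prj
          simp only [Pi.zero_apply]
          ring
        have e4 : ⌊(B : ℝ) ^ q * (prj ζ r0 x ω r + (0 : Fin b → ℝ) r)⌋ = g ω₀ r := by
          rw [← e2, hg]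
          rfl
        have e5 : ⌊(B : ℝ) ^ q * (x ω r0 + z r0)⌋ = X ω₀ r0 := by
          rw [← e1, hX]
          rfl
        have e6 : ⌊(B : ℝ) ^ q * (x ω r + z r)⌋ = X ω r := by
          rw [hX]
          rfl
        rw [e3, e4, e5, e6] at hb
        exact_mod_cast hb⟩)
    push_cast at h
    exact h
  linarith

private theorem core_gl_fst {p : Ω → ℝ} (hp : IsPr p) {γ : Type*} (f : Ω → γ) (A : Ω → Prop) :
    pr (gl p p f f) (fun y => A y.1) = pr p A := by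
  classical
  have h := sum_gl_fst (q := p) (g := f) hp (fun _ => rfl) (fun ω => if A ω then (1 : ℝ) else 0)
  simp only [mul_ite, mul_one, mul_zero] at h
  unfold pr
  convert h

private theorem core_pt {p : Ω → ℝ} (hp : IsPr p) {B c cV q N K : ℕ} (hB : 2 ≤ B) (hN : 0 < N)
    (hcV : c ≤ cV) (hVq : cV ≤ q) (hK : 1 ≤ K) (x : Ω → Fin b → ℝ) (E : Ω → ε)
    (τ : ε → Fin b → ℤ) (V : Ω → δ) {ρ β τ0 C1 x4 th2 : ℝ}
    (hρ : ρ ≤ ((B : ℝ) ^ c)⁻¹) (hβ0 : 0 < β) (hβ : β ≤ 1 / 4) (hτ0 : 0 < τ0) (hC1 : 0 ≤ C1)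
    (hth : 0 ≤ th2) (hth1 : th2 ≤ 1)
    (hτ : ∀ e e' r, K * |(τ e r : ℝ) - τ e' r| ≤ ρ * N)
    (hV : ∀ ω ω', p ω ≠ 0 → p ω' ≠ 0 → V ω = V ω' → ∀ r, |x ω r - x ω' r| ≤ C1 * ((B : ℝ) ^ cV)⁻¹)
    (hN1 : (b * Real.log 3 + Real.log 2 + (τ0 + 4 * β) * (b * Real.log (3 * (B : ℝ) ^ (q - c)))) +
      x4 + ((2 - th2) * ((q - cV : ℕ) * Real.log B) + Real.log (2 * C1 + 5) + b * Real.log 3 +
        b * Real.log 2) / 2 ≤ Real.log K)
    (z : Fin b → ℤ) (y : Ω × Ω) (h0 : p y.1 ≠ 0)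
    (hgp : GoodPair p B c q N K ρ β τ0 x4 x E τ V z y) :
    1 / 2 ≤ pr (fib p (Xc B c (sh N z) x) y.1) (fun ω => ∃ (ζ : Fin b → ℝ) (r0 : Fin b),
      ζ r0 ≠ 0 ∧ (∀ r, |ζ r| ≤ |ζ r0|) ∧
      (1 - th2) * ((q - cV : ℕ) * Real.log B) ≤
        ent (fib p V ω) (Xc B q 0 x) - ent (fib p V ω) (Xc B q 0 (prj ζ r0 x))) := by
  classical
  have hB0 : 0 < B := by omega
  have hN' : (0 : ℝ) < N := by exact_mod_cast hN
  have hcq : c ≤ q := hcV.trans hVq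
  obtain ⟨⟨r1, hr1⟩, hst, hwalk, hex⟩ := hgp
  obtain ⟨ζ, hζ⟩ : ∃ ζ : Fin b → ℤ, ζ = τ (E y.1) - τ (E y.2) := ⟨_, rfl⟩
  have hζr : ∀ r, (ζ r : ℝ) = (τ (E y.1) r : ℝ) - τ (E y.2) r := by
    intro r
    rw [hζ, Pi.sub_apply]
    push_cast
    ring
  rw [← hζ] at hwalk
  obtain ⟨r0, -, hmax⟩ := Finset.exists_max_image (univ : Finset (Fin b)) (fun r => |ζ r|)
    ⟨r1, mem_univ _⟩
  have hmaxR : ∀ r, |(ζ r : ℝ)| ≤ |(ζ r0 : ℝ)| := by
    intro r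
    exact_mod_cast hmax r (mem_univ r)
  have hbig : ((B : ℝ) ^ q)⁻¹ * N ≤ |(ζ r0 : ℝ)| := by
    refine le_trans ?_ (hmaxR r1)
    rw [hζr]
    exact hr1
  have hBq : (0 : ℝ) < (B : ℝ) ^ q := by positivity
  have hpos : 0 < |(ζ r0 : ℝ)| := lt_of_lt_of_le (by positivity) hbig
  have hne : (ζ r0 : ℝ) ≠ 0 := abs_pos.1 hpos
  have hKζ : K * |(ζ r0 : ℝ)| ≤ ρ * N := by
    rw [hζr]
    exact hτ _ _ _
  have hel := ent_lower hp hB hN hcq x hρ hβ0.le hβ hτ0.le z ζ r0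
    (fun r => hmax r (mem_univ r)) hbig hK hKζ h0 hst hwalk
  obtain ⟨μ, hμ⟩ : ∃ μ : Ω → ℝ, μ = fib p (Xc B c (sh N z) x) y.1 := ⟨_, rfl⟩
  have hμp : IsPr μ := by
    rw [hμ]
    exact isPr_fib hp _ _
  have hμs : ∀ ω, μ ω ≠ 0 → p ω ≠ 0 := by
    intro ω hω
    rw [hμ] at hω
    exact (fib_ne_zero h0 hω).1
  obtain ⟨P, hP⟩ : ∃ P : Ω → Fin b → ℤ, P = Xc B q 0 (prj (fun r => (ζ r : ℝ)) r0 x) := ⟨_, rfl⟩
  obtain ⟨X, hX⟩ : ∃ X : Ω → Fin b → ℤ, X = Xc B q (sh N z) x := ⟨_, rfl⟩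
  have hfr := ent_ge_fresh hp B c N x V z P h0
  rw [← hX] at hex
  rw [← hP, ← hX] at hel
  rw [← hμ] at hel hex hfr ⊢
  obtain ⟨br, hbr⟩ : ∃ br : Ω → ℝ, br = fun ω => ent (fib p V ω) X - ent (fib p V ω) P := ⟨_, rfl⟩
  obtain ⟨brmax, hbrmax⟩ : ∃ brmax : ℝ, brmax = (q - cV : ℕ) * Real.log B +
    Real.log (2 * C1 + 5) + b * Real.log 3 := ⟨_, rfl⟩
  obtain ⟨T, hT⟩ : ∃ T : ℝ, T = (1 - th2) * ((q - cV : ℕ) * Real.log B) + b * Real.log 2 :=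
    ⟨_, rfl⟩
  have hlogB : 0 ≤ Real.log B := Real.log_nonneg (by exact_mod_cast hB0)
  have hqB : 0 ≤ ((q - cV : ℕ) : ℝ) * Real.log B := mul_nonneg (Nat.cast_nonneg _) hlogB
  have hlog2 : 0 ≤ Real.log 2 := Real.log_nonneg (by norm_num)
  have hlog3 : Real.log 2 ≤ Real.log 3 := Real.log_le_log (by norm_num) (by norm_num)
  have hlog5 : 0 < Real.log (2 * C1 + 5) := Real.log_pos (by linarith)
  have hb0 : (0 : ℝ) ≤ b := Nat.cast_nonneg b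
  have hT0 : 0 ≤ T := by
    rw [hT]
    have := mul_nonneg (sub_nonneg.2 hth1) hqB
    have := mul_nonneg hb0 hlog2
    linarith
  have hgap : 0 < brmax - T := by
    rw [hbrmax, hT]
    have h1 := mul_nonneg hth hqB
    have h2 := mul_le_mul_of_nonneg_left hlog3 hb0
    have h3 : (1 - th2) * (((q - cV : ℕ) : ℝ) * Real.log B) =
      ((q - cV : ℕ) : ℝ) * Real.log B - th2 * (((q - cV : ℕ) : ℝ) * Real.log B) := by ring
    rw [h3]
    linarith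
  have hbrle : ∀ ω, p ω ≠ 0 → br ω ≤ brmax := by
    intro ω hω
    rw [hbr, hbrmax, hX, hP]
    refine br_le (isPr_fib hp V ω) hB hVq x hC1 (fun ω1 ω2 h1 h2 => ?_) (sh N z)
      (fun r => (ζ r : ℝ)) r0 hne hmaxR
    obtain ⟨a1, a2⟩ := fib_ne_zero hω h1
    obtain ⟨b1, b2⟩ := fib_ne_zero hω h2
    exact hV ω1 ω2 a1 b1 (a2.trans b2.symm)
  obtain ⟨F, hF⟩ : ∃ F : Ω → Prop, F = fun ω => T ≤ br ω := ⟨_, rfl⟩
  have hsub : fresh p B c N x V z X y.1 - fresh p B c N x V z P y.1 =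
      ∑ ω', μ ω' * (if Dt p B c N x V z ω' then br ω' else 0) := by
    unfold fresh
    rw [← sum_sub_distrib, hμ, hbr]
    refine sum_congr rfl fun ω' _ => ?_
    by_cases hd : Dt p B c N x V z ω'
    · rw [if_pos hd, if_pos hd, if_pos hd]
      ring
    · rw [if_neg hd, if_neg hd, if_neg hd]
      ring
  have hbound : ∑ ω', μ ω' * (if Dt p B c N x V z ω' then br ω' else 0) ≤
      T + pr μ F * (brmax - T) := by
    have e : T + pr μ F * (brmax - T) =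
        ∑ ω', (μ ω' * T + (if F ω' then μ ω' else 0) * (brmax - T)) := by
      rw [sum_add_distrib, ← sum_mul, ← sum_mul, hμp.sum_eq, one_mul]
      rfl
    rw [e]
    refine sum_le_sum fun ω' _ => ?_
    by_cases hz : μ ω' = 0
    · rw [hz]
      simp
    have hμ0 := hμp.nonneg ω'
    by_cases hf : F ω'
    · rw [if_pos hf]
      have h1 : (if Dt p B c N x V z ω' then br ω' else 0) ≤ brmax := by
        split_ifs
        · exact hbrle ω' (hμs ω' hz)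
        · linarith
      have h2 := mul_le_mul_of_nonneg_left h1 hμ0
      linarith
    · rw [if_neg hf]
      rw [hF] at hf
      simp only [not_le] at hf
      have h1 : (if Dt p B c N x V z ω' then br ω' else 0) ≤ T := by
        split_ifs
        · exact hf.le
        · exact hT0
      have h2 := mul_le_mul_of_nonneg_left h1 hμ0
      linarith
  have hsum : (brmax + T) / 2 = ((2 - th2) * ((q - cV : ℕ) * Real.log B) +
      Real.log (2 * C1 + 5) + b * Real.log 3 + b * Real.log 2) / 2 := by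
    rw [hbrmax, hT]
    ring
  have hhalf : (1 / 2 : ℝ) ≤ pr μ F := by
    have h1 : (brmax + T) / 2 ≤ T + pr μ F * (brmax - T) := by
      rw [hsum]
      linarith
    have h2 : 1 / 2 * (brmax - T) ≤ pr μ F * (brmax - T) := by linarith
    exact le_of_mul_le_mul_right h2 hgap
  refine hhalf.trans (pr_mono hμp fun ω _ hFω => ?_)
  rw [hF] at hFω
  refine ⟨fun r => (ζ r : ℝ), r0, hne, hmaxR, ?_⟩
  have h1 : T ≤ ent (fib p V ω) X - ent (fib p V ω) P := by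
    rw [hbr] at hFω
    exact hFω
  have h2 := ent_shift (B := B) (isPr_fib hp V ω) (q := q) (sh N z) 0 x
  rw [← hX] at h2
  rw [← hP]
  rw [hT] at h1
  linarith

theorem core_lemma {p : Ω → ℝ} (hp : IsPr p) {B c cV q N K : ℕ} (hB : 2 ≤ B) (hN : 0 < N)
    (hcV : c ≤ cV) (hVq : cV ≤ q) (hdiv : B ^ q ∣ N) (hK : 1 ≤ K) (x x' : Ω → Fin b → ℝ) (E : Ω → ε)
    (τ : ε → Fin b → ℤ) (V : Ω → δ) {ρr ρ β τ0 C1 ε0 h2 x4 κ th2 : ℝ} (hρr : 0 ≤ ρr) (hρ0 : 0 ≤ ρ)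
    (hρ : ρ ≤ ((B : ℝ) ^ c)⁻¹) (hβ0 : 0 < β) (hβ : β ≤ 1 / 4) (hτ0 : 0 < τ0) (hC1 : 0 ≤ C1)
    (hx4 : 0 < x4) (hκ : 0 < κ) (hth : 0 ≤ th2) (hth1 : th2 ≤ 1)
    (hx : ∀ ω, p ω ≠ 0 → ∀ r, |x' ω r - x ω r - (τ (E ω) r : ℝ) / N| ≤ ρr)
    (hτ : ∀ e e' r, K * |(τ e r : ℝ) - τ e' r| ≤ ρ * N)
    (hV : ∀ ω ω', p ω ≠ 0 → p ω' ≠ 0 → V ω = V ω' → ∀ r, |x ω r - x ω' r| ≤ C1 * ((B : ℝ) ^ cV)⁻¹)
    (H1 : avz N (fun z => cent p E (Xc B c (sh N z) x) - cent p E (Xc B q (sh N z) x)) ≤ ε0)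
    (H1' : avz N (fun z => cent p E (Xc B c (sh N z) x') - cent p E (Xc B q (sh N z) x')) ≤ ε0)
    (H2 : avz N (fun z => cent p (Xc B q (sh N z) x) (Xc B c (sh N z) x)) - cent p (Xc B q 0 x) V ≤
      h2)
    (H3 : κ ≤ avz N (fun z => pr (gl p p (Xc B c (sh N z) x) (Xc B c (sh N z) x))
      (fun y => ∃ r, ((B : ℝ) ^ q)⁻¹ * N ≤ |(τ (E y.1) r : ℝ) - τ (E y.2) r|)))
    (hnum : (8 * 3 ^ b + 3 ^ b / β) * (b * ((B : ℝ) ^ c * (2 * ρ + 1 / N))) +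
      5 * K * (2 * (4 * √ε0 + 2 * (b * ((B : ℝ) ^ q * (2 * ρr + 1 / N))))) / τ0 +
      (h2 + b * Real.log 2 + b * ((B : ℝ) ^ c * (2 * (C1 * ((B : ℝ) ^ cV)⁻¹) + 1 / N)) *
        (b * ((q - cV : ℕ) * Real.log B + Real.log (2 * C1 + 5)))) / x4 ≤ κ / 2)
    (hN1 : (b * Real.log 3 + Real.log 2 + (τ0 + 4 * β) * (b * Real.log (3 * (B : ℝ) ^ (q - c)))) +
      x4 + ((2 - th2) * ((q - cV : ℕ) * Real.log B) + Real.log (2 * C1 + 5) + b * Real.log 3 +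
        b * Real.log 2) / 2 ≤ Real.log K) :
    κ / 4 ≤ pr p (fun ω => ∃ (ζ : Fin b → ℝ) (r0 : Fin b), ζ r0 ≠ 0 ∧ (∀ r, |ζ r| ≤ |ζ r0|) ∧
      (1 - th2) * ((q - cV : ℕ) * Real.log B) ≤
        ent (fib p V ω) (Xc B q 0 x) - ent (fib p V ω) (Xc B q 0 (prj ζ r0 x))) := by
  classical
  have hgood := good_pairs hp hB hN hcV hVq hdiv x x' E τ V hρr hρ0 hρ hβ0 hβ hτ0 hC1 hx4 hx hτ hV
    H1 H1' H2 H3 hnum
  obtain ⟨Gd, hGd⟩ : ∃ Gd : Ω → Prop, Gd = fun ω => ∃ (ζ : Fin b → ℝ) (r0 : Fin b),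
      ζ r0 ≠ 0 ∧ (∀ r, |ζ r| ≤ |ζ r0|) ∧
      (1 - th2) * ((q - cV : ℕ) * Real.log B) ≤
        ent (fib p V ω) (Xc B q 0 x) - ent (fib p V ω) (Xc B q 0 (prj ζ r0 x)) := ⟨_, rfl⟩
  rw [← hGd]
  have hz : ∀ z, pr (gl p p (Xc B c (sh N z) x) (Xc B c (sh N z) x))
      (GoodPair p B c q N K ρ β τ0 x4 x E τ V z) ≤ 2 * pr p Gd := by
    intro z
    obtain ⟨H, hH⟩ : ∃ H : Ω → Prop, H = fun ω => p ω ≠ 0 ∧
      ∃ ω', GoodPair p B c q N K ρ β τ0 x4 x E τ V z (ω, ω') := ⟨_, rfl⟩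
    have hGp : IsPr (gl p p (Xc B c (sh N z) x) (Xc B c (sh N z) x)) :=
      isPr_gl hp hp fun _ => rfl
    have h1 : pr (gl p p (Xc B c (sh N z) x) (Xc B c (sh N z) x))
        (GoodPair p B c q N K ρ β τ0 x4 x E τ V z) ≤ pr p H := by
      rw [← core_gl_fst hp (Xc B c (sh N z) x) H]
      refine pr_mono hGp fun y hy hgy => ?_
      rw [hH]
      exact ⟨(gl_ne_zero hy).1, y.2, hgy⟩
    have h2 : pr p H ≤ 2 * pr p Gd := by
      rw [pr_eq_fib hp Gd (Xc B c (sh N z) x), mul_sum]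
      unfold pr
      refine sum_le_sum fun ω _ => ?_
      have hpr0 : 0 ≤ pr (fib p (Xc B c (sh N z) x) ω) Gd := pr_nonneg (isPr_fib hp _ _) _
      have h3 : (if H ω then p ω else 0) ≤
          2 * (p ω * pr (fib p (Xc B c (sh N z) x) ω) Gd) := by
        by_cases hHω : H ω
        · rw [if_pos hHω]
          rw [hH] at hHω
          obtain ⟨hω0, ω', hg⟩ := hHω
          have h4 := core_pt hp hB hN hcV hVq hK x E τ V hρ hβ0 hβ hτ0 hC1 hth hth1 hτ hV hN1 z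
            (ω, ω') hω0 hg
          rw [← hGd] at h4
          have h5 := mul_le_mul_of_nonneg_left h4 (hp.nonneg ω)
          simp only at h5
          linarith
        · rw [if_neg hHω]
          exact mul_nonneg (by norm_num) (mul_nonneg (hp.nonneg ω) hpr0)
      exact h3
    exact h1.trans h2
  have hav := avz_mono (N := N) hz
  rw [avz_const hN] at hav
  linarith

end STK
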