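import Pool.Agent.Lib.MP_ac5134_an.STK.KStab
import Pool.Agent.Lib.MP_ac5134_an.STK.KNode

/-!
# STK-KCore1: the excess of a coarse cell over its fresh blocks (first part of the core lemma)

`V : Ω → δ` labels (the nodes of a deeper level `cV`, `c ≤ cV ≤ q`): `|x ω - x ω'| ≤ C1 B^(-cV)` if
`V ω = V ω'`.  `Dt z ω`: the whole `V`-class of `ω` lies in one coarse cell `X_c^z`.
* `ent_ge_fresh`: `μ = fib p (X_c^z) ω`.  `ent μ g ≥ cent μ g V = ∑ μ ω' ent (fib μ V ω') g`, and if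
  `Dt z ω'` then `fib μ V ω' = fib p V ω'` (the class of `ω'` is contained in the coarse cell).
* `avz_not_det`: if not `NearWall B c (C1 B^(-cV)) (x ω + z/N)` then `Dt z ω` (`floor_eq_of_not_near`).
* `ex_avg`: `∑ p ω ex z ω = cent p X_q^z X_c^z - ∑ p ω 1[Dt] ent (fib p V ω) X_q^z` (`cent_eq_fib`,
  `sum_eq_fib`), `∑ p ω ent (fib p V ω) X_q^z = cent p X_q^z V ≥ cent p X_q^0 V - b log 2`, and
  `ent (fib p V ω) X_q^z ≤ b ((q-cV) log B + log (2 C1 + 5))` (diameter `C1 B^(-cV)`).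
-/

namespace STK
open Finset RFold Pool.Agent.MPac5134.SD
variable {Ω : Type*} [Fintype Ω] {b : ℕ} {β δ : Type*}

/-- the whole `V`-class of `ω` lies in one coarse cell -/
def Dt (p : Ω → ℝ) (B c N : ℕ) (x : Ω → Fin b → ℝ) (V : Ω → δ) (z : Fin b → ℤ) (ω : Ω) : Prop :=
  ∀ ω', p ω' ≠ 0 → V ω' = V ω → Xc B c (sh N z) x ω' = Xc B c (sh N z) x ω

open Classical in
/-- the average over the fresh blocks contained in the coarse cell of `ω` -/
noncomputable def fresh (p : Ω → ℝ) (B c N : ℕ) (x : Ω → Fin b → ℝ) (V : Ω → δ) (z : Fin b → ℤ)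
    (g : Ω → β) (ω : Ω) : ℝ :=
  ∑ ω', fib p (Xc B c (sh N z) x) ω ω' *
    (if Dt p B c N x V z ω' then ent (fib p V ω') g else 0)

/-- if the whole class of `ω₁` lies in the cell of `ω₀`, conditioning to the cell does not change the
fibre of `ω₁` -/
private theorem fib_fib_of_subset {γ : Type*} {p : Ω → ℝ} (hp : IsPr p) {C : Ω → γ} {V : Ω → δ}
    {ω₀ ω₁ : Ω} (h0 : p ω₀ ≠ 0) (h1 : fib p C ω₀ ω₁ ≠ 0)
    (hD : ∀ ω', p ω' ≠ 0 → V ω' = V ω₁ → C ω' = C ω₁) :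
    fib (fib p C ω₀) V ω₁ = fib p V ω₁ := by
  classical
  obtain ⟨a1, a2⟩ := fib_ne_zero h0 h1
  have hL := law_pos hp C h0
  have hLV := law_pos hp V a1
  have e1 : law (fib p C ω₀) V (V ω₁) = law p V (V ω₁) / law p C (C ω₀) := by
    rw [law_fib C V h0]
    congr 1
    refine pr_congr hp ?_
    intro ω hω
    constructor
    · intro h
      exact (Prod.ext_iff.mp h).1
    · intro h
      exact Prod.ext h ((hD ω hω h).trans a2)
  funext ω
  by_cases hV : V ω = V ω₁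
  · have l1 : fib (fib p C ω₀) V ω₁ ω = fib p C ω₀ ω / law (fib p C ω₀) V (V ω₁) := by
      rw [fib, if_neg h1, if_pos hV]
    have l2 : fib p V ω₁ ω = p ω / law p V (V ω₁) := by
      rw [fib, if_neg a1, if_pos hV]
    have l3 : fib p C ω₀ ω = p ω / law p C (C ω₀) := by
      rw [fib, if_neg h0]
      by_cases hz : p ω = 0
      · rw [hz, zero_div, ite_self]
      · rw [if_pos ((hD ω hz hV).trans a2)]
    rw [l1, l2, l3, e1]
    field_simp
  · have l1 : fib (fib p C ω₀) V ω₁ ω = 0 := by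
      rw [fib, if_neg h1, if_neg hV]
    have l2 : fib p V ω₁ ω = 0 := by
      rw [fib, if_neg a1, if_neg hV]
    rw [l1, l2]

theorem ent_ge_fresh {p : Ω → ℝ} (hp : IsPr p) (B c N : ℕ) (x : Ω → Fin b → ℝ) (V : Ω → δ)
    (z : Fin b → ℤ) (g : Ω → β) {ω : Ω} (h0 : p ω ≠ 0) :
    fresh p B c N x V z g ω ≤ ent (fib p (Xc B c (sh N z) x) ω) g := by
  classical
  have hμ := isPr_fib hp (Xc B c (sh N z) x) ω
  refine le_trans ?_ (cent_le_ent hμ g V)
  rw [cent_eq_fib hμ]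
  unfold fresh
  refine sum_le_sum fun ω' _ => ?_
  by_cases hz : fib p (Xc B c (sh N z) x) ω ω' = 0
  · rw [hz, zero_mul, zero_mul]
  · refine mul_le_mul_of_nonneg_left ?_ (hμ.nonneg ω')
    split_ifs with hD
    · rw [fib_fib_of_subset hp h0 hz hD]
    · exact ent_nonneg (isPr_fib hμ V ω') g

open Classical in
theorem avz_not_det {p : Ω → ℝ} (hp : IsPr p) {B c cV N : ℕ} (hB : 0 < B) (hN : 0 < N)
    (hdiv : B ^ c ∣ N) (x : Ω → Fin b → ℝ) (V : Ω → δ) {C1 : ℝ} (hC1 : 0 ≤ C1)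
    (hV : ∀ ω ω', p ω ≠ 0 → p ω' ≠ 0 → V ω = V ω' → ∀ r, |x ω r - x ω' r| ≤ C1 * ((B : ℝ) ^ cV)⁻¹) :
    avz N (fun z => pr p (fun ω => ¬ Dt p B c N x V z ω)) ≤
      b * ((B : ℝ) ^ c * (2 * (C1 * ((B : ℝ) ^ cV)⁻¹) + 1 / N)) := by
  have hρ : 0 ≤ C1 * ((B : ℝ) ^ cV)⁻¹ := by positivity
  refine le_trans (avz_mono fun z => ?_) (avz_pr_near hp hB hN hdiv hρ x)
  refine pr_mono hp ?_
  intro ω hω hD
  by_contra hn
  apply hD
  intro ω' hω' hVV
  funext r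
  refine floor_eq_of_not_near (y := fun r => x ω r + sh N z r)
    (y' := fun r => x ω' r + sh N z r) hB hn (fun r => ?_) r
  have h := hV ω' ω hω' hω hVV r
  have e : x ω' r + sh N z r - (x ω r + sh N z r) = x ω' r - x ω r := by ring
  show |x ω' r + sh N z r - (x ω r + sh N z r)| ≤ _
  rw [e]
  exact h

/-- the entropy of the fine cell on a class of `V` -/
private theorem ent_fib_le {p : Ω → ℝ} (hp : IsPr p) {B cV q : ℕ} (hB : 0 < B) (hcq : cV ≤ q)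
    (x : Ω → Fin b → ℝ) (V : Ω → δ) {C1 : ℝ} (hC1 : 0 ≤ C1)
    (hV : ∀ ω ω', p ω ≠ 0 → p ω' ≠ 0 → V ω = V ω' → ∀ r, |x ω r - x ω' r| ≤ C1 * ((B : ℝ) ^ cV)⁻¹)
    (y : Fin b → ℝ) {ω₀ : Ω} (h0 : p ω₀ ≠ 0) :
    ent (fib p V ω₀) (Xc B q y x) ≤
      b * ((q - cV : ℕ) * Real.log B + Real.log (2 * C1 + 5)) := by
  have hBr : (1 : ℝ) ≤ B := by exact_mod_cast hB
  have hB0 : (0 : ℝ) < B := by linarith
  have hBk : (1 : ℝ) ≤ (B : ℝ) ^ (q - cV) := one_le_pow₀ hBr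
  set D : ℝ := C1 * (B : ℝ) ^ (q - cV) with hD
  have hD0 : 0 ≤ D := by positivity
  have hcell : C1 * ((B : ℝ) ^ cV)⁻¹ = D * ((B : ℝ) ^ q)⁻¹ := by
    have e : (B : ℝ) ^ q = (B : ℝ) ^ (q - cV) * (B : ℝ) ^ cV := by
      rw [← pow_add, Nat.sub_add_cancel hcq]
    rw [hD, e]
    field_simp
  have h := ent_le_diam (isPr_fib hp V ω₀) (Xc B q y x) (⌊D⌋₊ + 1) ?_
  · refine h.trans (mul_le_mul_of_nonneg_left ?_ (Nat.cast_nonneg b))
    have h1 : (⌊D⌋₊ : ℝ) ≤ D := Nat.floor_le hD0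
    have h2 : (2 : ℝ) * ((⌊D⌋₊ + 1 : ℕ) : ℝ) + 1 ≤ (B : ℝ) ^ (q - cV) * (2 * C1 + 5) := by
      push_cast
      have h3 : (B : ℝ) ^ (q - cV) * (2 * C1 + 5) = 2 * D + 5 * (B : ℝ) ^ (q - cV) := by
        rw [hD]
        ring
      rw [h3]
      linarith
    have h4 : (0 : ℝ) < 2 * ((⌊D⌋₊ + 1 : ℕ) : ℝ) + 1 := by positivity
    have h5 : (0 : ℝ) < 2 * C1 + 5 := by linarith
    refine (Real.log_le_log h4 h2).trans (le_of_eq ?_)
    rw [Real.log_mul (by positivity) h5.ne', Real.log_pow]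
  · intro ω ω' hω hω' r
    obtain ⟨a1, a2⟩ := fib_ne_zero h0 hω
    obtain ⟨b1, b2⟩ := fib_ne_zero h0 hω'
    have h1 := hV ω ω' a1 b1 (a2.trans b2.symm) r
    have h2 : |x ω r + y r - (x ω' r + y r)| ≤ D * ((B : ℝ) ^ q)⁻¹ := by
      have e : x ω r + y r - (x ω' r + y r) = x ω r - x ω' r := by ring
      rw [e, ← hcell]
      exact h1
    have h3 := floor_dist hB q h2
    have h4 : (D : ℝ) < ⌊D⌋₊ + 1 := Nat.lt_floor_add_one D
    have h5 : (⌊(B : ℝ) ^ q * (x ω r + y r)⌋ : ℝ) <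
        ⌊(B : ℝ) ^ q * (x ω' r + y r)⌋ + ((⌊D⌋₊ : ℕ) + 1) + 1 := by linarith
    have h6 : ⌊(B : ℝ) ^ q * (x ω r + y r)⌋ <
        ⌊(B : ℝ) ^ q * (x ω' r + y r)⌋ + ((⌊D⌋₊ : ℕ) + 1) + 1 := by exact_mod_cast h5
    have h7 : Xc B q y x ω r < Xc B q y x ω' r + ((⌊D⌋₊ : ℕ) + 1) + 1 := h6
    push_cast
    omega

theorem ex_avg {p : Ω → ℝ} (hp : IsPr p) {B c cV q N : ℕ} (hB : 0 < B) (hN : 0 < N)
    (hdiv : B ^ c ∣ N) (hcq : cV ≤ q) (x : Ω → Fin b → ℝ) (V : Ω → δ) {C1 h2 : ℝ} (hC1 : 0 ≤ C1)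
    (hV : ∀ ω ω', p ω ≠ 0 → p ω' ≠ 0 → V ω = V ω' → ∀ r, |x ω r - x ω' r| ≤ C1 * ((B : ℝ) ^ cV)⁻¹)
    (H2 : avz N (fun z => cent p (Xc B q (sh N z) x) (Xc B c (sh N z) x)) - cent p (Xc B q 0 x) V ≤
      h2) :
    avz N (fun z => ∑ ω, p ω * (ent (fib p (Xc B c (sh N z) x) ω) (Xc B q (sh N z) x) -
        fresh p B c N x V z (Xc B q (sh N z) x) ω)) ≤
      h2 + b * Real.log 2 + b * ((B : ℝ) ^ c * (2 * (C1 * ((B : ℝ) ^ cV)⁻¹) + 1 / N)) *
        (b * ((q - cV : ℕ) * Real.log B + Real.log (2 * C1 + 5))) := by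
  classical
  set K : ℝ := b * ((q - cV : ℕ) * Real.log B + Real.log (2 * C1 + 5)) with hK
  have hBr : (1 : ℝ) ≤ B := by exact_mod_cast hB
  have hK0 : 0 ≤ K := by
    have l1 : 0 ≤ Real.log B := Real.log_nonneg hBr
    have l2 : 0 ≤ Real.log (2 * C1 + 5) := Real.log_nonneg (by linarith)
    rw [hK]
    positivity
  have key : ∀ z : Fin b → ℤ,
      ∑ ω, p ω * (ent (fib p (Xc B c (sh N z) x) ω) (Xc B q (sh N z) x) -
        fresh p B c N x V z (Xc B q (sh N z) x) ω) ≤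
      cent p (Xc B q (sh N z) x) (Xc B c (sh N z) x) +
        ((b * Real.log 2 - cent p (Xc B q 0 x) V) + K * pr p (fun ω => ¬ Dt p B c N x V z ω)) := by
    intro z
    have e1 : ∑ ω, p ω * (ent (fib p (Xc B c (sh N z) x) ω) (Xc B q (sh N z) x) -
        fresh p B c N x V z (Xc B q (sh N z) x) ω) =
        cent p (Xc B q (sh N z) x) (Xc B c (sh N z) x) -
          ∑ ω, p ω * (if Dt p B c N x V z ω then ent (fib p V ω) (Xc B q (sh N z) x) else 0) := by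
      have e2 := sum_eq_fib hp
        (fun ω => if Dt p B c N x V z ω then ent (fib p V ω) (Xc B q (sh N z) x) else 0)
        (Xc B c (sh N z) x)
      rw [e2, cent_eq_fib hp, ← sum_sub_distrib]
      refine sum_congr rfl fun ω _ => ?_
      rw [mul_sub]
      rfl
    have e3 : cent p (Xc B q (sh N z) x) V - K * pr p (fun ω => ¬ Dt p B c N x V z ω) ≤
        ∑ ω, p ω * (if Dt p B c N x V z ω then ent (fib p V ω) (Xc B q (sh N z) x) else 0) := by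
      rw [cent_eq_fib hp]
      unfold pr
      rw [mul_sum, ← sum_sub_distrib]
      refine sum_le_sum fun ω _ => ?_
      by_cases h0 : p ω = 0
      · simp [h0]
      · by_cases hD : Dt p B c N x V z ω
        · simp [hD]
        · have h1 := ent_fib_le hp hB hcq x V hC1 hV (sh N z) h0
          have h2 := mul_le_mul_of_nonneg_left h1 (hp.nonneg ω)
          rw [if_neg hD, if_pos hD, mul_zero]
          rw [← hK] at h2
          linarith [mul_comm K (p ω)]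
    have e4 := cent_shift_left (B := B) hp (q := q) 0 (sh N z) x V
    rw [e1]
    linarith
  refine (avz_mono key).trans ?_
  have hsplit : avz N (fun z : Fin b → ℤ => cent p (Xc B q (sh N z) x) (Xc B c (sh N z) x) +
        ((b * Real.log 2 - cent p (Xc B q 0 x) V) + K * pr p (fun ω => ¬ Dt p B c N x V z ω))) =
      avz N (fun z => cent p (Xc B q (sh N z) x) (Xc B c (sh N z) x)) +
        ((b * Real.log 2 - cent p (Xc B q 0 x) V) +
          K * avz N (fun z => pr p (fun ω => ¬ Dt p B c N x V z ω))) := by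
    rw [avz_add (fun z => cent p (Xc B q (sh N z) x) (Xc B c (sh N z) x))
      (fun z => (b * Real.log 2 - cent p (Xc B q 0 x) V) +
        K * pr p (fun ω => ¬ Dt p B c N x V z ω)),
      avz_add (fun _ => b * Real.log 2 - cent p (Xc B q 0 x) V)
        (fun z => K * pr p (fun ω => ¬ Dt p B c N x V z ω)), avz_const hN, avz_mul]
  rw [hsplit]
  have h5 := mul_le_mul_of_nonneg_left (avz_not_det hp hB hN hdiv x V hC1 hV) hK0
  rw [mul_comm (↑b * ((B : ℝ) ^ c * (2 * (C1 * ((B : ℝ) ^ cV)⁻¹) + 1 / (N : ℝ)))) K]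
  linarith

end STK
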