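import Pool.Agent.Lib.MP_ac5134_an.STK.KStab
import Pool.Agent.Lib.MP_ac5134_an.SD.Glue

/-!
# STK-KKS: Lemma KS (K steps), section (2.2) of the paper

`(ω, ω') ~ gl p p (X_c^z) (X_c^z)`: two points, conditionally independent given the coarse cell `γ`.
`ζ = τ (E ω) - τ (E ω')`, `z_k = z - k ζ`, `γ = X_c^z ω` fixed.

Proof.  By `tvd_le` with `z_k` in place of `z`, the sum over `k < K` is at most
`∑_{k<K} errf z_k γ e + ∑_{1≤k≤K} errf z_k γ e'`.  The law of `(γ, e, e')` under `gl` is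
`P_z(γ,e) P_z(γ,e') / P_z(γ)` (`sum_gl_fst`-type computation).  If `(z,γ,e)`, `(z,γ,e')` are stable and
`(z,γ)` is `β`-stable (`β ≤ 1/4`), then by `law_shift_le` (`|k ζ| ≤ K Θ ≤ ρ N`)
`P_z(γ,e) ≤ (4/3) P_{z_k}(γ,e)`, `P_z(γ,e') ≤ (4/3) P_{z_k}(γ,e')`, `P_z(γ) ≥ (4/5) P_{z_k}(γ)`, so
`P_z(γ,e)P_z(γ,e')/P_z(γ) ≤ (20/9) P_{z_k}(γ,e)P_{z_k}(γ,e')/P_{z_k}(γ)`.
So for fixed `e, e', k` the `z`-sum is at most `20/9` times
`∑_z G(z - k ζ)`, `G(z) = ∑_γ P_z(γ,e) P_z(γ,e')/P_z(γ) errf z γ e`, a periodic function (`errf_period`,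
`Xc_period`), and `avz_shift` applies; then `∑_{e'} P_z(γ,e')/P_z(γ) ≤ 1`.  Same with `e'`.
Total `≤ (20/9) 2 K errtot ≤ 5 K errtot`.
-/

namespace STK
open Finset RFold Pool.Agent.MPac5134.SD
variable {Ω : Type*} [Fintype Ω] {ε : Type*} [Fintype ε] {b : ℕ}

/-- `P(X = g, E = e) P(X = g, E = e') / P(X = g)` -/
private noncomputable def ksW {γ ε : Type*} (p : Ω → ℝ) (X : Ω → γ) (E : Ω → ε) (g : γ)
    (e e' : ε) : ℝ :=
  law p (fun ω => (X ω, E ω)) (g, e) * law p (fun ω => (X ω, E ω)) (g, e') / law p X g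

private theorem ksW_nonneg {γ ε : Type*} {p : Ω → ℝ} (hp : IsPr p) (X : Ω → γ) (E : Ω → ε) (g : γ)
    (e e' : ε) : 0 ≤ ksW p X E g e e' :=
  div_nonneg (mul_nonneg (law_nonneg hp _ _) (law_nonneg hp _ _)) (law_nonneg hp _ _)

/-- the sum over the coupling in terms of the laws -/
private theorem ks_sum_gl {γ : Type*} [DecidableEq γ] {p : Ω → ℝ} (X : Ω → γ) (E : Ω → ε)
    (F : γ → ε → ε → ℝ) :
    ∑ y : Ω × Ω, gl p p X X y * F (X y.1) (E y.1) (E y.2) =
      ∑ e, ∑ e', ∑ g ∈ univ.image X, ksW p X E g e e' * F g e e' := by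
  classical
  rw [Fintype.sum_prod_type]
  have h1 : ∀ ω, ∑ ω', gl p p X X (ω, ω') * F (X ω) (E ω) (E ω') =
      p ω * ∑ e', law p (fun ω => (X ω, E ω)) (X ω, e') / law p X (X ω) * F (X ω) (E ω) e' := by
    intro ω
    have a1 : ∀ ω', gl p p X X (ω, ω') * F (X ω) (E ω) (E ω') = p ω * (p ω' *
        (if X ω' = X ω then F (X ω) (E ω) (E ω') / law p X (X ω) else 0)) := by
      intro ω'
      unfold gl
      by_cases h : X ω = X ω'
      · simp only [h, if_true]
        ring
      · have h' : X ω' ≠ X ω := fun e => h e.symm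
        simp only [h, h', if_false]
        ring
    rw [sum_congr rfl fun ω' _ => a1 ω', ← mul_sum]
    congr 1
    have a2 := sum_law (p := p) (S := (univ.image X) ×ˢ (univ : Finset ε))
      (fun ω => (X ω, E ω))
      (fun ω _ => mem_product.2 ⟨mem_image_of_mem _ (mem_univ _), mem_univ _⟩)
      (fun i => if i.1 = X ω then F (X ω) (E ω) i.2 / law p X (X ω) else 0)
    simp only at a2
    rw [a2, sum_product_right]
    refine sum_congr rfl fun e' _ => ?_
    rw [sum_eq_single (X ω)]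
    · rw [if_pos rfl]
      ring
    · intro g _ hg
      rw [if_neg hg, mul_zero]
    · intro h
      exact absurd (mem_image_of_mem _ (mem_univ _)) h
  simp only
  rw [sum_congr rfl fun ω _ => h1 ω]
  have a3 := sum_law (p := p) (S := (univ.image X) ×ˢ (univ : Finset ε))
    (fun ω => (X ω, E ω))
    (fun ω _ => mem_product.2 ⟨mem_image_of_mem _ (mem_univ _), mem_univ _⟩)
    (fun i => ∑ e', law p (fun ω => (X ω, E ω)) (i.1, e') / law p X i.1 * F i.1 i.2 e')
  simp only at a3
  rw [a3, sum_product_right]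
  refine sum_congr rfl fun e _ => ?_
  rw [sum_comm]
  refine sum_congr rfl fun g _ => ?_
  rw [mul_sum]
  refine sum_congr rfl fun e' _ => ?_
  unfold ksW
  ring

/-- the terms outside the image vanish -/
private theorem ks_sum_le {γ ε : Type*} [DecidableEq γ] {p : Ω → ℝ} (hp : IsPr p) (X : Ω → γ)
    (E : Ω → ε) (e e' : ε) (T : Finset γ) (F : γ → ℝ) (hF : ∀ g, 0 ≤ F g) :
    ∑ g ∈ T, ksW p X E g e e' * F g ≤ ∑ g ∈ univ.image X, ksW p X E g e e' * F g := by
  classical
  have h0 : ∀ g, g ∉ univ.image X → ksW p X E g e e' * F g = 0 := by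
    intro g hg
    have h1 : law p X g = 0 := by
      unfold law pr
      refine sum_eq_zero fun ω _ => if_neg ?_
      rintro rfl
      exact hg (mem_image_of_mem _ (mem_univ _))
    unfold ksW
    rw [h1, div_zero, zero_mul]
  have h1 : ∑ g ∈ T, ksW p X E g e e' * F g =
      ∑ g ∈ T ∩ univ.image X, ksW p X E g e e' * F g := by
    symm
    refine sum_subset inter_subset_left fun f hf hf' => h0 f fun h => hf' (mem_inter.2 ⟨hf, h⟩)
  rw [h1]
  exact sum_le_sum_of_subset_of_nonneg inter_subset_right fun g _ _ =>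
    mul_nonneg (ksW_nonneg hp X E g e e') (hF g)

private theorem ksW_translate {k : ℕ} {ε : Type*} {p : Ω → ℝ} (hp : IsPr p)
    (X X' : Ω → Fin k → ℤ) (v : Fin k → ℤ) (hX : ∀ ω, X' ω = X ω + v) (E : Ω → ε) (e e' : ε)
    (F F' : (Fin k → ℤ) → ℝ) (hF : ∀ g, F' (g + v) = F g) :
    ∑ g ∈ univ.image X', ksW p X' E g e e' * F' g =
      ∑ g ∈ univ.image X, ksW p X E g e e' * F g := by
  classical
  have hX' : X' = fun ω => X ω + v := funext hX
  subst hX'
  have h1 : univ.image (fun ω => X ω + v) = (univ.image X).map (addRightEmbedding v) := by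
    ext f
    simp only [mem_image, mem_univ, true_and, mem_map, addRightEmbedding_apply]
    constructor
    · rintro ⟨ω, rfl⟩
      exact ⟨X ω, ⟨ω, rfl⟩, rfl⟩
    · rintro ⟨_, ⟨ω, rfl⟩, rfl⟩
      exact ⟨ω, rfl⟩
  rw [h1, sum_map]
  refine sum_congr rfl fun g _ => ?_
  rw [addRightEmbedding_apply, hF]
  unfold ksW
  have a1 : ∀ e, law p (fun ω => (X ω + v, E ω)) (g + v, e) = law p (fun ω => (X ω, E ω)) (g, e) :=
    fun e => pr_congr hp fun ω _ => by simp only [Prod.mk.injEq, add_left_inj]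
  have a2 : law p (fun ω => X ω + v) (g + v) = law p X g :=
    pr_congr hp fun ω _ => by simp only [add_left_inj]
  rw [a1, a1, a2]

private theorem ks_pair_le {γ : Type*} {p : Ω → ℝ} (hp : IsPr p) (X : Ω → γ) (E : Ω → ε)
    (g : γ) : ∑ e, law p (fun ω => (X ω, E ω)) (g, e) ≤ law p X g := by
  classical
  unfold law pr
  rw [sum_comm]
  refine sum_le_sum fun ω _ => ?_
  have h0 := hp.nonneg ω
  by_cases hc : X ω = g
  · simp only [Prod.mk.injEq, hc, true_and, if_true]
    rw [sum_ite_eq]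
    split_ifs
    · exact le_rfl
    · exact h0
  · simp [hc]

private theorem ksW_sum_right {γ : Type*} {p : Ω → ℝ} (hp : IsPr p) (X : Ω → γ) (E : Ω → ε)
    (g : γ) (e : ε) : ∑ e', ksW p X E g e e' ≤ law p (fun ω => (X ω, E ω)) (g, e) := by
  unfold ksW
  rw [← sum_div, ← mul_sum, mul_div_assoc]
  exact mul_le_of_le_one_right (law_nonneg hp _ _)
    (div_le_one_of_le₀ (ks_pair_le hp X E g) (law_nonneg hp _ _))

private theorem ksW_comm {γ ε : Type*} (p : Ω → ℝ) (X : Ω → γ) (E : Ω → ε) (g : γ) (e e' : ε) :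
    ksW p X E g e e' = ksW p X E g e' e := by
  unfold ksW
  rw [mul_comm (law p (fun ω => (X ω, E ω)) (g, e))]

/-- comparison of the weights -/
private theorem ksW_le {γ ε : Type*} {p : Ω → ℝ} (hp : IsPr p) (X X' : Ω → γ) (E : Ω → ε) (g : γ)
    (e e' : ε)
    (h1 : |law p (fun ω => (X' ω, E ω)) (g, e) - law p (fun ω => (X ω, E ω)) (g, e)| ≤
      1 / 4 * law p (fun ω => (X ω, E ω)) (g, e))
    (h2 : |law p (fun ω => (X' ω, E ω)) (g, e') - law p (fun ω => (X ω, E ω)) (g, e')| ≤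
      1 / 4 * law p (fun ω => (X ω, E ω)) (g, e'))
    (h3 : |law p X' g - law p X g| ≤ 1 / 4 * law p X g) :
    ksW p X E g e e' ≤ 20 / 9 * ksW p X' E g e e' := by
  rcases (law_nonneg hp X g).eq_or_lt with h0 | h0
  · have : ksW p X E g e e' = 0 := by
      unfold ksW
      rw [← h0, div_zero]
    rw [this]
    exact mul_nonneg (by norm_num) (ksW_nonneg hp _ _ _ _ _)
  unfold ksW
  set a := law p (fun ω => (X ω, E ω)) (g, e)
  set a' := law p (fun ω => (X' ω, E ω)) (g, e)
  set c := law p (fun ω => (X ω, E ω)) (g, e')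
  set c' := law p (fun ω => (X' ω, E ω)) (g, e')
  set d := law p X g
  set d' := law p X' g
  have ha : 0 ≤ a := law_nonneg hp _ _
  have hc : 0 ≤ c := law_nonneg hp _ _
  rw [abs_le] at h1 h2 h3
  have e1 : a ≤ 4 / 3 * a' := by linarith
  have e2 : c ≤ 4 / 3 * c' := by linarith
  have e3 : d' ≤ 5 / 4 * d := by linarith
  have e4 : 0 < d' := by linarith
  rw [← mul_div_assoc, div_le_div_iff₀ h0 e4]
  have e5 : a * c ≤ 16 / 9 * (a' * c') := by
    have := mul_le_mul e1 e2 hc (by linarith)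
    linarith
  have e6 : a * c * d' ≤ 16 / 9 * (a' * c') * (5 / 4 * d) :=
    mul_le_mul e5 e3 e4.le (le_trans (mul_nonneg ha hc) e5)
  linarith

open Classical in
theorem k_steps {p : Ω → ℝ} (hp : IsPr p) {B c q N : ℕ} (hB : 2 ≤ B) (hN : 0 < N) (hcq : c ≤ q)
    (hdiv : B ^ q ∣ N) (x x' : Ω → Fin b → ℝ) (E : Ω → ε) (τ : ε → Fin b → ℤ) {ρ β : ℝ}
    (hρ : ρ ≤ ((B : ℝ) ^ c)⁻¹) (hβ : β ≤ 1 / 4) (K : ℕ)
    (hτ : ∀ e e' r, K * |(τ e r : ℝ) - τ e' r| ≤ ρ * N) :
    avz N (fun z => ∑ y : Ω × Ω, gl p p (Xc B c (sh N z) x) (Xc B c (sh N z) x) y *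
      (if Stab p B c N ρ x E z (Xc B c (sh N z) x y.1) (E y.1) ∧
          Stab p B c N ρ x E z (Xc B c (sh N z) x y.1) (E y.2) ∧
          StabB p B c N ρ β x z (Xc B c (sh N z) x y.1) then
        ∑ k ∈ range K, tvd p B c q N x (z - (k : ℤ) • (τ (E y.1) - τ (E y.2)))
          (z - ((k : ℤ) + 1) • (τ (E y.1) - τ (E y.2))) (Xc B c (sh N z) x y.1)
      else 0)) ≤ 5 * K * errtot p B c q N x x' E τ := by
  have hB0 : 0 < B := by omega
  -- the weights for the shift `z`
  set W : (Fin b → ℤ) → (Fin b → ℤ) → ε → ε → ℝ := fun z g e e' =>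
    ksW p (Xc B c (sh N z) x) E g e e' with hW
  have hW0 : ∀ z g e e', 0 ≤ W z g e e' := fun z g e e' => ksW_nonneg hp _ _ _ _ _
  set er : (Fin b → ℤ) → (Fin b → ℤ) → ε → ℝ := fun z g e => errf p B c q N x x' τ z g e with her
  have her0 : ∀ z g e, 0 ≤ er z g e := fun z g e => errf_nonneg p B c q N x x' τ z g e
  set G : ε → ε → ε → (Fin b → ℤ) → ℝ := fun e e' d z =>
    ∑ g ∈ univ.image (Xc B c (sh N z) x), W z g e e' * er z g d with hG
  have hGper : ∀ e e' d, Per N (G e e' d) := by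
    intro e e' d z j
    simp only [hG, hW]
    refine ksW_translate hp (Xc B c (sh N z) x) _ (Pi.single j ((B : ℤ) ^ c))
      (fun ω => Xc_period hB0 hN z j x ω) E e e' _ _ ?_
    intro g
    simp only [her]
    exact errf_period hB0 hN hcq x x' τ z g d j
  -- one shift
  have hone : ∀ z, ∑ y : Ω × Ω, gl p p (Xc B c (sh N z) x) (Xc B c (sh N z) x) y *
      (if Stab p B c N ρ x E z (Xc B c (sh N z) x y.1) (E y.1) ∧
          Stab p B c N ρ x E z (Xc B c (sh N z) x y.1) (E y.2) ∧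
          StabB p B c N ρ β x z (Xc B c (sh N z) x y.1) then
        ∑ k ∈ range K, tvd p B c q N x (z - (k : ℤ) • (τ (E y.1) - τ (E y.2)))
          (z - ((k : ℤ) + 1) • (τ (E y.1) - τ (E y.2))) (Xc B c (sh N z) x y.1)
      else 0) ≤ ∑ e, ∑ e', ∑ k ∈ range K,
        (20 / 9 * G e e' e (z + -((k : ℤ) • (τ e - τ e'))) +
          20 / 9 * G e e' e' (z + -(((k : ℤ) + 1) • (τ e - τ e')))) := by
    intro z
    have h1 := ks_sum_gl (p := p) (Xc B c (sh N z) x) E (fun g e e' =>
      if Stab p B c N ρ x E z g e ∧ Stab p B c N ρ x E z g e' ∧ StabB p B c N ρ β x z g then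
        ∑ k ∈ range K, tvd p B c q N x (z - (k : ℤ) • (τ e - τ e'))
          (z - ((k : ℤ) + 1) • (τ e - τ e')) g
      else 0)
    rw [h1]
    refine sum_le_sum fun e _ => sum_le_sum fun e' _ => ?_
    set S := univ.image (Xc B c (sh N z) x) with hS
    have h2 : ∀ g ∈ S, ksW p (Xc B c (sh N z) x) E g e e' *
        (if Stab p B c N ρ x E z g e ∧ Stab p B c N ρ x E z g e' ∧ StabB p B c N ρ β x z g then
          ∑ k ∈ range K, tvd p B c q N x (z - (k : ℤ) • (τ e - τ e'))
            (z - ((k : ℤ) + 1) • (τ e - τ e')) g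
        else 0) ≤ ∑ k ∈ range K,
          (20 / 9 * (W (z + -((k : ℤ) • (τ e - τ e'))) g e e' *
              er (z + -((k : ℤ) • (τ e - τ e'))) g e) +
            20 / 9 * (W (z + -(((k : ℤ) + 1) • (τ e - τ e'))) g e e' *
              er (z + -(((k : ℤ) + 1) • (τ e - τ e'))) g e')) := by
      intro g _
      split_ifs with hst
      · obtain ⟨hs1, hs2, hs3⟩ := hst
        -- weights along the walk
        have hw : ∀ k : ℤ, 0 ≤ k → k ≤ K →
            W z g e e' ≤ 20 / 9 * W (z + -(k • (τ e - τ e'))) g e e' := by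
          intro k hk0 hkK
          have ha : ∀ r, |((-(k • (τ e - τ e'))) r : ℤ)| ≤ ρ * (N : ℝ) := by
            intro r
            have e1 : (((-(k • (τ e - τ e'))) r : ℤ) : ℝ) = -((k : ℝ) * ((τ e r : ℝ) - τ e' r)) := by
              simp only [Pi.neg_apply, Pi.smul_apply, Pi.sub_apply, smul_eq_mul]
              push_cast
              ring
            rw [Int.cast_abs, e1, abs_neg, abs_mul]
            have hk0' : (0 : ℝ) ≤ k := by exact_mod_cast hk0
            have hkK' : (k : ℝ) ≤ K := by exact_mod_cast hkK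
            rw [abs_of_nonneg hk0']
            exact (mul_le_mul_of_nonneg_right hkK' (abs_nonneg _)).trans (hτ e e' r)
          have ha' : ∀ r, |(((-(k • (τ e - τ e'))) r : ℤ) : ℝ)| ≤ ρ * (N : ℝ) := by
            intro r
            have := ha r
            rwa [Int.cast_abs] at this
          refine ksW_le hp (Xc B c (sh N z) x) _ E g e e' ?_ ?_ ?_
          · exact (law_shift_le hp hB0 hN hρ x E z _ g e ha').trans hs1
          · exact (law_shift_le hp hB0 hN hρ x E z _ g e' ha').trans hs2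
          · refine (law_shift_le' hp hB0 hN hρ x z _ g ha').trans (hs3.trans ?_)
            exact mul_le_mul_of_nonneg_right hβ (law_nonneg hp _ _)
        rw [mul_sum]
        refine sum_le_sum fun k hk => ?_
        have hk' := mem_range.1 hk
        have ht := tvd_le p B c q N x x' τ (z - (k : ℤ) • (τ e - τ e')) g e e'
        have e1 : z - (k : ℤ) • (τ e - τ e') - (τ e - τ e') = z - ((k : ℤ) + 1) • (τ e - τ e') := by
          rw [add_smul, one_smul]
          abel
        rw [e1] at ht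
        have h3 := hw k (by positivity) (by exact_mod_cast hk'.le)
        have h4 := hw ((k : ℤ) + 1) (by positivity) (by exact_mod_cast hk')
        simp only [sub_eq_add_neg z] at ht ⊢
        have h5 := mul_le_mul_of_nonneg_left ht (hW0 z g e e')
        have h6 := mul_le_mul_of_nonneg_right h3 (her0 (z + -((k : ℤ) • (τ e - τ e'))) g e)
        have h7 := mul_le_mul_of_nonneg_right h4 (her0 (z + -(((k : ℤ) + 1) • (τ e - τ e'))) g e')
        have e2 : ksW p (Xc B c (sh N z) x) E g e e' = W z g e e' := rfl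
        rw [e2]
        simp only [her] at h5 h6 h7 ⊢
        linarith
      · rw [mul_zero]
        refine sum_nonneg fun k _ => ?_
        have h3 := mul_nonneg (hW0 (z + -((k : ℤ) • (τ e - τ e'))) g e e')
          (her0 (z + -((k : ℤ) • (τ e - τ e'))) g e)
        have h4 := mul_nonneg (hW0 (z + -(((k : ℤ) + 1) • (τ e - τ e'))) g e e')
          (her0 (z + -(((k : ℤ) + 1) • (τ e - τ e'))) g e')
        linarith
    refine (sum_le_sum h2).trans ?_
    rw [sum_comm]
    refine sum_le_sum fun k _ => ?_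
    rw [sum_add_distrib, ← mul_sum, ← mul_sum]
    refine add_le_add (mul_le_mul_of_nonneg_left ?_ (by norm_num))
      (mul_le_mul_of_nonneg_left ?_ (by norm_num))
    · exact ks_sum_le hp _ E e e' S (fun g => er _ g e) fun g => her0 _ g e
    · exact ks_sum_le hp _ E e e' S (fun g => er _ g e') fun g => her0 _ g e'
  -- the average
  refine (avz_mono hone).trans ?_
  have h2 : avz N (fun z => ∑ e, ∑ e', ∑ k ∈ range K,
        (20 / 9 * G e e' e (z + -((k : ℤ) • (τ e - τ e'))) +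
          20 / 9 * G e e' e' (z + -(((k : ℤ) + 1) • (τ e - τ e'))))) =
      ∑ e, ∑ e', ∑ k ∈ range K, (20 / 9 * avz N (G e e' e) + 20 / 9 * avz N (G e e' e')) := by
    rw [avz_sum]
    refine sum_congr rfl fun e _ => ?_
    rw [avz_sum]
    refine sum_congr rfl fun e' _ => ?_
    rw [avz_sum]
    refine sum_congr rfl fun k _ => ?_
    rw [avz_add, avz_mul, avz_mul, avz_shift hN (hGper e e' e), avz_shift hN (hGper e e' e')]
  rw [h2]
  simp only [sum_const, card_range, nsmul_eq_mul, ← mul_sum, sum_add_distrib]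
  -- the two double sums
  have hsum : ∀ z, ∑ ω, p ω * errf p B c q N x x' τ z (Xc B c (sh N z) x ω) (E ω) =
      ∑ e, ∑ g ∈ univ.image (Xc B c (sh N z) x),
        law p (fun ω => (Xc B c (sh N z) x ω, E ω)) (g, e) * er z g e := by
    intro z
    have h1 := sum_law (p := p) (S := (univ.image (Xc B c (sh N z) x)) ×ˢ (univ : Finset ε))
      (fun ω => (Xc B c (sh N z) x ω, E ω))
      (fun ω _ => mem_product.2 ⟨mem_image_of_mem _ (mem_univ _), mem_univ _⟩)
      (fun i => errf p B c q N x x' τ z i.1 i.2)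
    simp only at h1
    rw [h1, sum_product_right]
  have hd1 : ∑ e, ∑ e', avz N (G e e' e) ≤ errtot p B c q N x x' E τ := by
    have e1 : ∑ e, ∑ e', avz N (G e e' e) = avz N (fun z => ∑ e, ∑ e', G e e' e z) := by
      rw [avz_sum]
      refine sum_congr rfl fun e _ => ?_
      rw [avz_sum]
    rw [e1]
    unfold errtot
    refine avz_mono fun z => ?_
    rw [hsum z]
    refine sum_le_sum fun e _ => ?_
    simp only [hG]
    rw [sum_comm]
    refine sum_le_sum fun g _ => ?_
    rw [← sum_mul]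
    exact mul_le_mul_of_nonneg_right (ksW_sum_right hp _ E g e) (her0 z g e)
  have hd2 : ∑ e, ∑ e', avz N (G e e' e') ≤ errtot p B c q N x x' E τ := by
    have e1 : ∑ e, ∑ e', avz N (G e e' e') = avz N (fun z => ∑ e', ∑ e, G e e' e' z) := by
      rw [sum_comm, avz_sum]
      refine sum_congr rfl fun e _ => ?_
      rw [avz_sum]
    rw [e1]
    unfold errtot
    refine avz_mono fun z => ?_
    rw [hsum z]
    refine sum_le_sum fun e _ => ?_
    simp only [hG]
    rw [sum_comm]
    refine sum_le_sum fun g _ => ?_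
    rw [← sum_mul]
    refine mul_le_mul_of_nonneg_right ?_ (her0 z g e)
    refine le_trans (le_of_eq ?_) (ksW_sum_right hp (Xc B c (sh N z) x) E g e)
    exact sum_congr rfl fun e' _ => ksW_comm p _ E g e' e
  have h0 : 0 ≤ errtot p B c q N x x' E τ := by
    unfold errtot
    have h1 : avz (b := b) N (fun _ => 0) ≤ avz N (fun z =>
        ∑ ω, p ω * errf p B c q N x x' τ z (Xc B c (sh N z) x ω) (E ω)) :=
      avz_mono fun z => sum_nonneg fun ω _ => mul_nonneg (hp.nonneg ω) (her0 z _ _)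
    rw [avz_const hN] at h1
    exact h1
  have hK0 : (0 : ℝ) ≤ K := by positivity
  have h3 : (K : ℝ) * (20 / 9 * ∑ e, ∑ e', avz N (G e e' e) +
      20 / 9 * ∑ e, ∑ e', avz N (G e e' e')) ≤ 5 * K * errtot p B c q N x x' E τ := by
    have h4 : 20 / 9 * ∑ e, ∑ e', avz N (G e e' e) + 20 / 9 * ∑ e, ∑ e', avz N (G e e' e') ≤
        5 * errtot p B c q N x x' E τ := by linarith
    calc (K : ℝ) * (20 / 9 * ∑ e, ∑ e', avz N (G e e' e) +
          20 / 9 * ∑ e, ∑ e', avz N (G e e' e'))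
        ≤ K * (5 * errtot p B c q N x x' E τ) := mul_le_mul_of_nonneg_left h4 hK0
      _ = _ := by ring
  exact h3

end STK
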