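import Pool.Agent.Lib.MP_ac5134_an.STK.KNI
import Pool.Agent.Lib.MP_ac5134_an.STK.KKS
import Pool.Agent.Lib.MP_ac5134_an.STK.KCore1

/-!
# STK-KCore2: there are many good pairs (second part of the core lemma)

Under `gl p p X_c^z X_c^z`, averaged over `z`, the event `∃ r, B^(-q) N ≤ |τ(E y.1) r - τ(E y.2) r|` has
probability `≥ κ`.  Remove the following events:
* `¬ Stab` for `E y.1`, for `E y.2` (mass `≤ 4 3^b b B^c (2ρ + 1/N)` each, `unstable_mass`, `avz_pr_near`;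
  both marginals of `gl p p f f` are `p` and `f y.1 = f y.2` on the support), `¬ StabB`
  (`3^b/β b B^c (2ρ+1/N)`);
* stable but `∑_{k<K} tvd (z - kζ) (z - (k+1)ζ) > τ0`: Markov and `k_steps`, `near_inv`: mass
  `≤ 5 K E0 / τ0`, `E0 = 2 (4 √ε0 + 2 b B^q (2ρr + 1/N))`;
* `ex z y.1 > x4`: Markov, `ex_avg` and `ent_ge_fresh` (`ex ≥ 0`).
On the rest, `tvd z (z - kζ) ≤ ∑_{j<k} tvd (z - jζ) (z - (j+1)ζ) ≤ τ0` for `k < K` (triangle inequality).
-/

namespace STK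
open Finset RFold Pool.Agent.MPac5134.SD
variable {Ω : Type*} [Fintype Ω] {ε : Type*} [Fintype ε] {b : ℕ} {δ : Type*}

/-- good pairs -/
def GoodPair (p : Ω → ℝ) (B c q N K : ℕ) (ρ β τ0 x4 : ℝ) (x : Ω → Fin b → ℝ) (E : Ω → ε)
    (τ : ε → Fin b → ℤ) (V : Ω → δ) (z : Fin b → ℤ) (y : Ω × Ω) : Prop :=
  (∃ r, ((B : ℝ) ^ q)⁻¹ * N ≤ |(τ (E y.1) r : ℝ) - τ (E y.2) r|) ∧
  StabB p B c N ρ β x z (Xc B c (sh N z) x y.1) ∧
  (∀ k < K, tvd p B c q N x z (z - (k : ℤ) • (τ (E y.1) - τ (E y.2))) (Xc B c (sh N z) x y.1) ≤ τ0) ∧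
  ent (fib p (Xc B c (sh N z) x) y.1) (Xc B q (sh N z) x) -
    fresh p B c N x V z (Xc B q (sh N z) x) y.1 ≤ x4

private theorem pr_gl_fst {p : Ω → ℝ} (hp : IsPr p) {γ : Type*} (f : Ω → γ) (A : Ω → Prop) :
    pr (gl p p f f) (fun y => A y.1) = pr p A := by
  classical
  have h := sum_gl_fst (q := p) (g := f) hp (fun _ => rfl) (fun ω => if A ω then (1 : ℝ) else 0)
  simp only [mul_ite, mul_one, mul_zero] at h
  unfold pr
  convert h

private theorem pr_gl_snd {p : Ω → ℝ} (hp : IsPr p) {γ : Type*} (f : Ω → γ) (A : Ω → Prop) :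
    pr (gl p p f f) (fun y => A y.2) = pr p A := by
  classical
  have h := sum_gl_snd (q := p) (f := f) (g := f) hp hp (fun _ => rfl)
    (fun ω => if A ω then (1 : ℝ) else 0)
  simp only [mul_ite, mul_one, mul_zero] at h
  unfold pr
  convert h

private theorem tvd_nonneg (p : Ω → ℝ) (B c q N : ℕ) (x : Ω → Fin b → ℝ) (z z' γ : Fin b → ℤ) :
    0 ≤ tvd p B c q N x z z' γ :=
  sum_nonneg fun _ _ => abs_nonneg _

private theorem tvd_tri (p : Ω → ℝ) (B c q N : ℕ) (x : Ω → Fin b → ℝ) (z z' z'' γ : Fin b → ℤ) :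
    tvd p B c q N x z z'' γ ≤ tvd p B c q N x z z' γ + tvd p B c q N x z' z'' γ := by
  unfold tvd
  rw [← sum_add_distrib]
  exact sum_le_sum fun f _ => abs_sub_le _ _ _

private theorem tvd_walk (p : Ω → ℝ) (B c q N : ℕ) (x : Ω → Fin b → ℝ) (z ζ γ : Fin b → ℤ)
    (k : ℕ) : tvd p B c q N x z (z - (k : ℤ) • ζ) γ ≤
      ∑ j ∈ range k, tvd p B c q N x (z - (j : ℤ) • ζ) (z - ((j : ℤ) + 1) • ζ) γ := by
  induction k with
  | zero =>
    simp [tvd]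
  | succ k ih =>
    rw [sum_range_succ]
    refine (tvd_tri p B c q N x z (z - (k : ℤ) • ζ) _ γ).trans ?_
    push_cast
    exact add_le_add ih le_rfl

theorem good_pairs {p : Ω → ℝ} (hp : IsPr p) {B c cV q N K : ℕ} (hB : 2 ≤ B) (hN : 0 < N)
    (hcV : c ≤ cV) (hVq : cV ≤ q) (hdiv : B ^ q ∣ N) (x x' : Ω → Fin b → ℝ) (E : Ω → ε)
    (τ : ε → Fin b → ℤ) (V : Ω → δ) {ρr ρ β τ0 C1 ε0 h2 x4 κ : ℝ} (hρr : 0 ≤ ρr) (hρ0 : 0 ≤ ρ)
    (hρ : ρ ≤ ((B : ℝ) ^ c)⁻¹) (hβ0 : 0 < β) (hβ : β ≤ 1 / 4) (hτ0 : 0 < τ0) (hC1 : 0 ≤ C1)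
    (hx4 : 0 < x4)
    (hx : ∀ ω, p ω ≠ 0 → ∀ r, |x' ω r - x ω r - (τ (E ω) r : ℝ) / N| ≤ ρr)
    (hτ : ∀ e e' r, K * |(τ e r : ℝ) - τ e' r| ≤ ρ * N)
    (hV : ∀ ω ω', p ω ≠ 0 → p ω' ≠ 0 → V ω = V ω' → ∀ r, |x ω r - x ω' r| ≤ C1 * ((B : ℝ) ^ cV)⁻¹)
    (H1 : avz N (fun z => cent p E (Xc B c (sh N z) x) - cent p E (Xc B q (sh N z) x)) ≤ ε0)
    (H1' : avz N (fun z => cent p E (Xc B c (sh N z) x') - cent p E (Xc B q (sh N z) x')) ≤ ε0)
    (H2 : avz N (fun z => cent p (Xc B q (sh N z) x) (Xc B c (sh N z) x)) - cent p (Xc B q 0 x) V ≤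
      h2)
    (H3 : κ ≤ avz N (fun z => pr (gl p p (Xc B c (sh N z) x) (Xc B c (sh N z) x))
      (fun y => ∃ r, ((B : ℝ) ^ q)⁻¹ * N ≤ |(τ (E y.1) r : ℝ) - τ (E y.2) r|)))
    (hnum : (8 * 3 ^ b + 3 ^ b / β) * (b * ((B : ℝ) ^ c * (2 * ρ + 1 / N))) +
      5 * K * (2 * (4 * √ε0 + 2 * (b * ((B : ℝ) ^ q * (2 * ρr + 1 / N))))) / τ0 +
      (h2 + b * Real.log 2 + b * ((B : ℝ) ^ c * (2 * (C1 * ((B : ℝ) ^ cV)⁻¹) + 1 / N)) *
        (b * ((q - cV : ℕ) * Real.log B + Real.log (2 * C1 + 5)))) / x4 ≤ κ / 2) :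
    κ / 2 ≤ avz N (fun z => pr (gl p p (Xc B c (sh N z) x) (Xc B c (sh N z) x))
      (GoodPair p B c q N K ρ β τ0 x4 x E τ V z)) := by
  classical
  have hB0 : 0 < B := by omega
  have hcq : c ≤ q := hcV.trans hVq
  have hdc : B ^ c ∣ N := (pow_dvd_pow B hcq).trans hdiv
  have hN' : (0 : ℝ) < N := by exact_mod_cast hN
  have hKR : (0 : ℝ) ≤ K := Nat.cast_nonneg K
  -- the sum of the steps
  obtain ⟨Φ, hΦ⟩ : ∃ Φ : (Fin b → ℤ) → Ω × Ω → ℝ, Φ = fun z y =>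
      if Stab p B c N ρ x E z (Xc B c (sh N z) x y.1) (E y.1) ∧
          Stab p B c N ρ x E z (Xc B c (sh N z) x y.1) (E y.2) ∧
          StabB p B c N ρ β x z (Xc B c (sh N z) x y.1) then
        ∑ k ∈ range K, tvd p B c q N x (z - (k : ℤ) • (τ (E y.1) - τ (E y.2)))
          (z - ((k : ℤ) + 1) • (τ (E y.1) - τ (E y.2))) (Xc B c (sh N z) x y.1)
      else 0 := ⟨_, rfl⟩
  have hΦ0 : ∀ z y, 0 ≤ Φ z y := by
    intro z y
    rw [hΦ]
    simp only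
    split_ifs
    · exact sum_nonneg fun _ _ => tvd_nonneg _ _ _ _ _ _ _ _ _
    · exact le_rfl
  -- the excess
  obtain ⟨ex, hex⟩ : ∃ ex : (Fin b → ℤ) → Ω → ℝ, ex = fun z ω =>
      ent (fib p (Xc B c (sh N z) x) ω) (Xc B q (sh N z) x) -
        fresh p B c N x V z (Xc B q (sh N z) x) ω := ⟨_, rfl⟩
  obtain ⟨G, hG⟩ : ∃ G : (Fin b → ℤ) → Ω × Ω → ℝ, G = fun z =>
      gl p p (Xc B c (sh N z) x) (Xc B c (sh N z) x) := ⟨_, rfl⟩
  obtain ⟨Nr, hNr⟩ : ∃ Nr : (Fin b → ℤ) → ℝ, Nr = fun z =>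
      pr p (fun ω => NearWall B c ρ (fun r => x ω r + sh N z r)) := ⟨_, rfl⟩
  have hGp : ∀ z, IsPr (G z) := by
    intro z
    rw [hG]
    exact isPr_gl hp hp fun _ => rfl
  have hGf : ∀ z y, G z y ≠ 0 → p y.1 ≠ 0 ∧ p y.2 ≠ 0 ∧
      Xc B c (sh N z) x y.1 = Xc B c (sh N z) x y.2 := by
    intro z y hy
    rw [hG] at hy
    exact gl_ne_zero hy
  -- the pointwise estimate
  have hpt : ∀ z, pr (G z) (fun y => ∃ r, ((B : ℝ) ^ q)⁻¹ * N ≤ |(τ (E y.1) r : ℝ) - τ (E y.2) r|) ≤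
      pr (G z) (GoodPair p B c q N K ρ β τ0 x4 x E τ V z) +
        ((8 * 3 ^ b + 3 ^ b / β) * Nr z + (τ0⁻¹ * (∑ y, G z y * Φ z y) +
          x4⁻¹ * (∑ ω, p ω * ex z ω))) := by
    intro z
    have h1 : pr (G z) (fun y => ¬ Stab p B c N ρ x E z (Xc B c (sh N z) x y.1) (E y.1)) ≤
        4 * 3 ^ b * Nr z := by
      have e := pr_gl_fst hp (Xc B c (sh N z) x)
        (fun ω => ¬ Stab p B c N ρ x E z (Xc B c (sh N z) x ω) (E ω))
      rw [hG, hNr]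
      simp only
      rw [e]
      exact unstable_mass hp hB0 x E z
    have h2 : pr (G z) (fun y => ¬ Stab p B c N ρ x E z (Xc B c (sh N z) x y.1) (E y.2)) ≤
        4 * 3 ^ b * Nr z := by
      have e0 : pr (G z) (fun y => ¬ Stab p B c N ρ x E z (Xc B c (sh N z) x y.1) (E y.2)) =
          pr (G z) (fun y => ¬ Stab p B c N ρ x E z (Xc B c (sh N z) x y.2) (E y.2)) := by
        refine pr_congr (hGp z) fun y hy => ?_
        rw [(hGf z y hy).2.2]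
      have e := pr_gl_snd hp (Xc B c (sh N z) x)
        (fun ω => ¬ Stab p B c N ρ x E z (Xc B c (sh N z) x ω) (E ω))
      rw [e0, hG, hNr]
      simp only
      rw [e]
      exact unstable_mass hp hB0 x E z
    have h3 : pr (G z) (fun y => ¬ StabB p B c N ρ β x z (Xc B c (sh N z) x y.1)) ≤
        3 ^ b / β * Nr z := by
      have e := pr_gl_fst hp (Xc B c (sh N z) x)
        (fun ω => ¬ StabB p B c N ρ β x z (Xc B c (sh N z) x ω))
      rw [hG, hNr]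
      simp only
      rw [e]
      exact unstable_mass_beta hp hB0 hβ0 x z
    have h4 : pr (G z) (fun y => τ0 < Φ z y) ≤ τ0⁻¹ * (∑ y, G z y * Φ z y) := by
      have h := pr_markov (hGp z) (φ := Φ z) (fun y _ => hΦ0 z y) τ0
      rw [inv_mul_eq_div, le_div_iff₀ hτ0, mul_comm]
      exact h
    have h5 : pr (G z) (fun y => x4 < ex z y.1) ≤ x4⁻¹ * (∑ ω, p ω * ex z ω) := by
      have e := pr_gl_fst hp (Xc B c (sh N z) x) (fun ω => x4 < ex z ω)
      have h := pr_markov hp (φ := ex z) (fun ω h0 => by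
        rw [hex]
        exact sub_nonneg.2 (ent_ge_fresh hp B c N x V z _ h0)) x4
      rw [hG]
      simp only
      rw [e, inv_mul_eq_div, le_div_iff₀ hx4, mul_comm]
      exact h
    have h6 : pr (G z) (fun y => ∃ r, ((B : ℝ) ^ q)⁻¹ * N ≤
        |(τ (E y.1) r : ℝ) - τ (E y.2) r|) ≤
        pr (G z) (fun y => GoodPair p B c q N K ρ β τ0 x4 x E τ V z y ∨
          (¬ Stab p B c N ρ x E z (Xc B c (sh N z) x y.1) (E y.1) ∨
          (¬ Stab p B c N ρ x E z (Xc B c (sh N z) x y.1) (E y.2) ∨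
          (¬ StabB p B c N ρ β x z (Xc B c (sh N z) x y.1) ∨
          (τ0 < Φ z y ∨ x4 < ex z y.1))))) := by
      refine pr_mono (hGp z) fun y _ hA => ?_
      by_cases hU1 : Stab p B c N ρ x E z (Xc B c (sh N z) x y.1) (E y.1)
      · by_cases hU2 : Stab p B c N ρ x E z (Xc B c (sh N z) x y.1) (E y.2)
        · by_cases hU3 : StabB p B c N ρ β x z (Xc B c (sh N z) x y.1)
          · by_cases hU4 : τ0 < Φ z y
            · exact Or.inr (Or.inr (Or.inr (Or.inr (Or.inl hU4))))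
            · by_cases hU5 : x4 < ex z y.1
              · exact Or.inr (Or.inr (Or.inr (Or.inr (Or.inr hU5))))
              · refine Or.inl ⟨hA, hU3, fun k hk => ?_, ?_⟩
                · rw [not_lt, hΦ] at hU4
                  simp only at hU4
                  rw [if_pos ⟨hU1, hU2, hU3⟩] at hU4
                  refine (tvd_walk p B c q N x z _ _ k).trans (le_trans ?_ hU4)
                  refine sum_le_sum_of_subset_of_nonneg ?_ fun _ _ _ => tvd_nonneg _ _ _ _ _ _ _ _ _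
                  intro j hj
                  rw [mem_range] at hj ⊢
                  exact hj.trans hk
                · rw [not_lt, hex] at hU5
                  exact hU5
          · exact Or.inr (Or.inr (Or.inr (Or.inl hU3)))
        · exact Or.inr (Or.inr (Or.inl hU2))
      · exact Or.inr (Or.inl hU1)
    have h7 := pr_or_le (hGp z) (GoodPair p B c q N K ρ β τ0 x4 x E τ V z) (fun y =>
          (¬ Stab p B c N ρ x E z (Xc B c (sh N z) x y.1) (E y.1) ∨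
          (¬ Stab p B c N ρ x E z (Xc B c (sh N z) x y.1) (E y.2) ∨
          (¬ StabB p B c N ρ β x z (Xc B c (sh N z) x y.1) ∨
          (τ0 < Φ z y ∨ x4 < ex z y.1)))))
    have h8 := pr_or_le (hGp z)
      (fun y => ¬ Stab p B c N ρ x E z (Xc B c (sh N z) x y.1) (E y.1)) (fun y =>
          (¬ Stab p B c N ρ x E z (Xc B c (sh N z) x y.1) (E y.2) ∨
          (¬ StabB p B c N ρ β x z (Xc B c (sh N z) x y.1) ∨
          (τ0 < Φ z y ∨ x4 < ex z y.1))))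
    have h9 := pr_or_le (hGp z)
      (fun y => ¬ Stab p B c N ρ x E z (Xc B c (sh N z) x y.1) (E y.2)) (fun y =>
          (¬ StabB p B c N ρ β x z (Xc B c (sh N z) x y.1) ∨
          (τ0 < Φ z y ∨ x4 < ex z y.1)))
    have h10 := pr_or_le (hGp z)
      (fun y => ¬ StabB p B c N ρ β x z (Xc B c (sh N z) x y.1)) (fun y =>
          (τ0 < Φ z y ∨ x4 < ex z y.1))
    have h11 := pr_or_le (hGp z) (fun y => τ0 < Φ z y) (fun y => x4 < ex z y.1)
    linarith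
  -- the averages
  have hav := avz_mono (N := N) hpt
  rw [avz_add, avz_add, avz_add, avz_mul, avz_mul, avz_mul] at hav
  have hH3 : κ ≤ avz N (fun z => pr (G z)
      (fun y => ∃ r, ((B : ℝ) ^ q)⁻¹ * N ≤ |(τ (E y.1) r : ℝ) - τ (E y.2) r|)) := by
    rw [hG]
    exact H3
  have hgoal : avz N (fun z => pr (G z) (GoodPair p B c q N K ρ β τ0 x4 x E τ V z)) =
      avz N (fun z => pr (gl p p (Xc B c (sh N z) x) (Xc B c (sh N z) x))
        (GoodPair p B c q N K ρ β τ0 x4 x E τ V z)) := by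
    rw [hG]
  have a1 : avz N Nr ≤ b * ((B : ℝ) ^ c * (2 * ρ + 1 / N)) := by
    rw [hNr]
    exact avz_pr_near hp hB0 hN hdc hρ0 x
  have a2 : avz N (fun z => ∑ y, G z y * Φ z y) ≤
      5 * K * (2 * (4 * √ε0 + 2 * (b * ((B : ℝ) ^ q * (2 * ρr + 1 / N))))) := by
    have e := k_steps hp hB hN hcq hdiv x x' E τ hρ hβ K hτ
    have e2 := near_inv hp hB hN hcq hdiv x x' E τ hρr hx
    have s1 := Real.sqrt_le_sqrt H1
    have s2 := Real.sqrt_le_sqrt H1'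
    rw [hG, hΦ]
    refine e.trans ?_
    refine mul_le_mul_of_nonneg_left (e2.trans ?_) (by positivity)
    linarith
  have a3 : avz N (fun z => ∑ ω, p ω * ex z ω) ≤
      h2 + b * Real.log 2 + b * ((B : ℝ) ^ c * (2 * (C1 * ((B : ℝ) ^ cV)⁻¹) + 1 / N)) *
        (b * ((q - cV : ℕ) * Real.log B + Real.log (2 * C1 + 5))) := by
    rw [hex]
    exact ex_avg hp hB0 hN hdc hVq x V hC1 hV H2
  have b1 : (8 * 3 ^ b + 3 ^ b / β) * avz N Nr ≤
      (8 * 3 ^ b + 3 ^ b / β) * (b * ((B : ℝ) ^ c * (2 * ρ + 1 / N))) :=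
    mul_le_mul_of_nonneg_left a1 (by positivity)
  have b2 : τ0⁻¹ * avz N (fun z => ∑ y, G z y * Φ z y) ≤
      5 * K * (2 * (4 * √ε0 + 2 * (b * ((B : ℝ) ^ q * (2 * ρr + 1 / N))))) / τ0 := by
    rw [inv_mul_eq_div]
    exact div_le_div_of_nonneg_right a2 hτ0.le
  have b3 : x4⁻¹ * avz N (fun z => ∑ ω, p ω * ex z ω) ≤
      (h2 + b * Real.log 2 + b * ((B : ℝ) ^ c * (2 * (C1 * ((B : ℝ) ^ cV)⁻¹) + 1 / N)) *
        (b * ((q - cV : ℕ) * Real.log B + Real.log (2 * C1 + 5)))) / x4 := by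
    rw [inv_mul_eq_div]
    exact div_le_div_of_nonneg_right a3 hx4.le
  rw [← hgoal]
  linarith

end STK
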