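import Pool.Agent.Lib.MP_ac5134_an.STK.KPartner
import Pool.Agent.Lib.MP_ac5134_an.STK.KNum

/-!
# STK-KCst: the constants of the induction step (helper29)
-/

namespace STK
open Finset RFold Pool.Agent.MPac5134.SD

/-- the constants and the large numbers of the induction step -/
structure Cst (B d b R : ℕ) (φ : ℕ → ℝ) (C0 M a δ0 ε : ℝ) (ρ0 β τ0 ε0 h2 x4 : ℝ)
    (Dm Dp s0 u g K R0 : ℕ) (t T NL T0 Dmax Q0 : ℕ → ℕ) (l l1 Q : ℕ) : Prop where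
  hC0 : 0 ≤ C0
  hM : 1 ≤ M
  ha : 0 < a
  hd : 1 ≤ d
  δ0_pos : 0 < δ0
  δ0_le : δ0 ≤ 1
  ε_pos : 0 < ε
  ε_le : 16 * ε ≤ a
  ε_le1 : ε < 1
  ε_th : (3 + d) * ε ≤ min a 1 / 16 * ((min a 1 / 64) ^ 4 / 128)
  ε0_pos : 0 < ε0
  hh : 0 < h2 + ((b + 1 : ℕ) * Real.log 2 + (b + 1 : ℕ) * Real.log (2 * (2 * d * M * C0) + 5))
  hh2 : 16 * ((2 * ((3 + d) * ε) * ((Dm + Dp : ℕ) * Real.log B) + 4 * ((b + 1 : ℕ) * Real.log 2) +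
          d * Real.log B * s0 + 1) +
            ((b + 1 : ℕ) * Real.log 2 + (b + 1 : ℕ) * Real.log (2 * (2 * d * M * C0) + 5))) ≤
          (min a 1 / 64) ^ 2 *
            (h2 + ((b + 1 : ℕ) * Real.log 2 + (b + 1 : ℕ) * Real.log (2 * (2 * d * M * C0) + 5)))
  hnum : Num B d (b + 1) C0 M ρ0 β τ0 ε0 h2 x4 ((min a 1 / 64) ^ 2 / 2) (min a 1 / 16) (Dm + Dp) Dm
    s0 u g K
  hDp : 1 ≤ Dp
  hDm : 1 ≤ Dm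
  hDq : 1 ≤ Dm + Dp - s0
  nb1 : ¬ Bad B d C0 φ R (b + 1) M (a + ε) (ε * δ0 / 24) Dp Q
  nb2 : ¬ Bad B d C0 φ R (b + 1) M (a + ε) (ε * δ0 / 24) (Dm + Dp - s0) Q
  nb3 : ¬ Bad B d C0 φ R (b + 1) M (a + ε) (ε * δ0 / 24) (Dm + Dp) Q
  hCII : (m0 d (b + 1) R + a / 2) * Dp * Real.log B ≤
    (m0 d (b + 1) R + (a - min a 1 / 16)) * Dp * Real.log B -
      (2 * ((b + 1 : ℕ) * Real.log 2) + Real.log 2 + Real.log 5 +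
          min a 1 / 64 * (Dp * Real.log B + Real.log (4 * d * C0 + 5)) +
            (b + 1 : ℕ) * Real.log (M + 3))
  hCI : ((b : ℝ) + 1) * Real.log (2 * (2 * d * M * C0) + 5) ≤
    (a / 2 - min a 1 / 16 - min a 1 / 16) * (Dm + Dp - s0 : ℕ) * Real.log B
  hR0 : 0 < R0
  hut : ∀ r, u ≤ t r
  hDpt : ∀ r, Dp ≤ t r
  htT : ∀ r, t r ≤ T r
  hnext : ∀ r, T r + u ≤ t (r + 1)
  hR0e : (b + 1 : ℕ) * Real.log B * (Dm + Dp : ℕ) / R0 ≤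
    ε0 * (min a 1 / 64) ^ 2 / 32 * δ0 / 16
  hNL : ∀ r, 0 < NL r
  hlab : ∀ r, ∀ (H : Type) [Fintype H] (S : H → Prop) (P : H → Matrix (Fin (b + 1)) (Co d) ℝ)
      (J : H → Fin (b + 1) → Co d), (∀ h, S h → Chart M (P h) (J h)) →
      ∃ lab : H → Fin (NL r), ∀ h h', S h → S h' → lab h = lab h' →
        J h = J h' ∧ Near (((B : ℝ) ^ (t r + Dm))⁻¹) (P h) (P h')
  htl : ∀ r, TLd B d (b + 1) R φ C0 M (δ0 / (4 * NL r)) (a / 4) (T0 r) (Dmax r) (Q0 r)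
  hT0 : ∀ r, T0 r ≤ T r
  hQ0 : ∀ r, r < R0 → Q0 r ≤ Q
  hl1 : 0 < l1
  hdiv1 : Dp ∣ l1
  hdiv2 : (Dm + Dp - s0) ∣ l1
  hdiv3 : 2 * (T R0 + 1) * (Dm + Dp) ∣ l1
  hdiv4 : ∀ r, r < R0 → ∀ D0, 1 ≤ D0 → D0 ≤ Dmax r → D0 ∣ l1
  hle1 : l1 + T R0 ≤ l
  hle2 : l1 + (Dm + Dp - s0) ≤ l
  hle3 : l1 + 2 * (T R0 + 1) * (Dm + Dp) ≤ l
  hle4 : ∀ r, r < R0 → l1 + Dmax r ≤ l
  hεl : d * ((l : ℝ) - l1) ≤ ε * l1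
  hl1a : ((T R0 + s0 : ℕ) : ℝ) / l1 ≤ (min a 1 / 64) ^ 4 / 128
  hl1b : T R0 + s0 ≤ l1
  hl1c : 9 * (T R0 + 1 : ℕ) * (Dm + Dp : ℕ) * (Dm + Dp : ℕ) *
    (d * Real.log B + (b + 1 : ℕ) * Real.log B) / l1 ≤ 1
  hl1d : 2 * (T R0 * ((b + 1 : ℕ) * Real.log B * (Dm + Dp : ℕ))) ≤
    l1 * (ε0 * (min a 1 / 64) ^ 2 / 32) * δ0 / 16

/-- the statement of the main part of the induction step for given constants -/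
def Asm (B d b R : ℕ) (φ : ℕ → ℝ) (C0 : ℝ) : Prop :=
  ∀ (M a δ0 ε ρ0 β τ0 ε0 h2 x4 : ℝ) (Dm Dp s0 u g K R0 : ℕ) (t T NL T0 Dmax Q0 : ℕ → ℕ)
    (l l1 Q : ℕ),
    Cst B d b R φ C0 M a δ0 ε ρ0 β τ0 ε0 h2 x4 Dm Dp s0 u g K R0 t T NL T0 Dmax Q0 l l1 Q →
    Bad B d C0 φ R (b + 1) M (a - ε) δ0 l Q →
    Bad B d C0 φ R b (2 * M) (a / 2) (δ0 * (min a 1 / 64) ^ 4 / 1024) (Dm + Dp - s0) Q ∨
      Bad B d C0 φ (R + 1) (b + 2) (2 * M) (a / 2) (δ0 * (min a 1 / 64) ^ 4 / 1024) Dp Q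

end STK
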