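import Mathlib
import Pool.Agent.Lib.MP_3581cd_co.Ent
import Pool.Agent.Lib.MP_ac5134_an.SD.Glue

/-!
# STK: Kakeya families that are Lipschitz along the `B`-adic tree of directions. Definitions.

`Y = (F, w) : Ω → ℝ^d × ℝ^d` (coordinates `Sum.inl` for `F`, `Sum.inr` for `w`), `p` a probability
weight on the finite type `Ω` (`RFold.IsPr p`).  `ent`, `cent`, `Det`, `law`, `pr` are those of
`RFold` (Lib/MP_3581cd_co/Ent.lean), `fib p C ω₀` is `p` conditioned to `C = C ω₀`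
(Lib/MP_ac5134_an/SD/Fib.lean), `gl p p f f` is the conditionally independent coupling of two copies
over `f` (SD/Glue.lean).
-/

namespace STK

open Finset RFold

/-- Coordinates of `Y = (F, w)`. -/
abbrev Co (d : ℕ) := Fin d ⊕ Fin d

section
variable {Ω : Type*}

/-- The cell of level `q` of the direction `w`. -/
noncomputable def Wc (B q : ℕ) {d : ℕ} (Y : Ω → Co d → ℝ) (ω : Ω) : Fin d → ℤ :=
  fun r => ⌊(B : ℝ) ^ q * Y ω (Sum.inr r)⌋

/-- The cell of level `q` of the observable `x`, grid shifted by `z`. -/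
noncomputable def Xc (B q : ℕ) {b : ℕ} (z : Fin b → ℝ) (x : Ω → Fin b → ℝ) (ω : Ω) : Fin b → ℤ :=
  fun r => ⌊(B : ℝ) ^ q * (x ω r + z r)⌋

/-- The linear observable `x = P Y`. -/
noncomputable def obs {b d : ℕ} (P : Matrix (Fin b) (Co d) ℝ) (Y : Ω → Co d → ℝ) (ω : Ω) :
    Fin b → ℝ := fun r => ∑ c, P r c * Y ω c

variable [Fintype Ω]

/-- A system of level `i`: all points of the support have the same direction cell of level `i`, and
`Y` is Lipschitz with constant `C0` along the tree of the cells of level `≥ i`. -/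
structure IsSys (B d : ℕ) (C0 : ℝ) (i : ℕ) (p : Ω → ℝ) (Y : Ω → Co d → ℝ) : Prop where
  pr : IsPr p
  base : ∀ ω ω', p ω ≠ 0 → p ω' ≠ 0 → Wc B i Y ω = Wc B i Y ω'
  lip : ∀ k, i ≤ k → ∀ ω ω', p ω ≠ 0 → p ω' ≠ 0 → Wc B k Y ω = Wc B k Y ω' →
    ∀ c, |Y ω c - Y ω' c| ≤ C0 * ((B : ℝ) ^ k)⁻¹

/-- The observable `x` is Lipschitz (constant `C1`) along the tree of the labels `W k`, `k ≥ i`. -/
def LipX {γ : Type*} (B : ℕ) (C1 : ℝ) (i : ℕ) (p : Ω → ℝ) (W : ℕ → Ω → γ) {b : ℕ}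
    (x : Ω → Fin b → ℝ) : Prop :=
  ∀ k, i ≤ k → ∀ ω ω', p ω ≠ 0 → p ω' ≠ 0 → W k ω = W k ω' →
    ∀ r, |x ω r - x ω' r| ≤ C1 * ((B : ℝ) ^ k)⁻¹

end

/-- Matrices with an identity block in the columns `J` and entries bounded by `M`. -/
structure Chart {b d : ℕ} (M : ℝ) (P : Matrix (Fin b) (Co d) ℝ) (J : Fin b → Co d) : Prop where
  inj : Function.Injective J
  one : ∀ r r', P r (J r') = if r = r' then 1 else 0
  bd : ∀ r c, |P r c| ≤ M

/-- A weighted finite system of heights `s h ∈ [-1, 1]` (weights `σ`), not concentrated down to the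
scale `1 / Q`: every interval of radius `1 / j`, `j ≤ Q`, has weight `≤ φ j`. -/
structure IsHts {H : Type} [Fintype H] (φ : ℕ → ℝ) (Q : ℕ) (σ s : H → ℝ) : Prop where
  isPr : IsPr σ
  abs_le : ∀ h, |s h| ≤ 1
  nc : ∀ j, 1 ≤ j → j ≤ Q → ∀ t : ℝ, pr σ (fun h => j * |s h - t| ≤ 1) ≤ φ j

/-- `P` restricted to `K_s = {(-s u, u)}`. -/
def kmat {b d : ℕ} (P : Matrix (Fin b) (Co d) ℝ) (s : ℝ) : Matrix (Fin b) (Fin d) ℝ :=
  fun r c => P r (Sum.inr c) - s * P r (Sum.inl c)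

/-- `m0 = d - b + R`. -/
def m0 (d b R : ℕ) : ℝ := (d : ℝ) - b + R

/-- Bad data: at a set of heights of weight `≥ δ` the residual entropy of the directions, given the
observable, is at least `(m0 + α) l log B`. -/
def Bad (B d : ℕ) (C0 : ℝ) (φ : ℕ → ℝ) (R b : ℕ) (M α δ : ℝ) (l Q : ℕ) : Prop :=
  ∃ (H : Type) (_ : Fintype H) (σ s : H → ℝ) (Ω : Type) (_ : Fintype Ω) (p : Ω → ℝ)
    (Y : Ω → Co d → ℝ) (i : ℕ) (S : H → Prop) (P : H → Matrix (Fin b) (Co d) ℝ),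
    IsHts φ Q σ s ∧ IsSys B d C0 i p Y ∧ δ ≤ pr σ S ∧
    ∀ h, S h → (∃ J, Chart M (P h) J) ∧ (kmat (P h) (s h)).rank ≤ R ∧
      (m0 d b R + α) * l * Real.log B ≤
        cent p (Wc B (i + l) Y) (Xc B (i + l) 0 (obs (P h) Y))

/-- The statement proved by induction. -/
def PropRb (B d : ℕ) (C0 : ℝ) (φ : ℕ → ℝ) (R b : ℕ) : Prop :=
  ∀ M : ℝ, 1 ≤ M → ∀ α : ℝ, 0 < α → ∀ δ : ℝ, 0 < δ → ∃ l0 : ℕ, ∀ l Q : ℕ, l0 ≤ l → l0 ≤ Q →
    ¬ Bad B d C0 φ R b M α δ l Q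

/-! ### shift averages -/

/-- The shifts `{0, …, N-1}^b`. -/
noncomputable def Zb (b N : ℕ) : Finset (Fin b → ℤ) := Fintype.piFinset fun _ => Finset.Ico (0 : ℤ) N

/-- The real shift `z / N`. -/
noncomputable def sh {b : ℕ} (N : ℕ) (z : Fin b → ℤ) : Fin b → ℝ := fun r => (z r : ℝ) / N

/-- Average over the shifts. -/
noncomputable def avz {b : ℕ} (N : ℕ) (G : (Fin b → ℤ) → ℝ) : ℝ := (∑ z ∈ Zb b N, G z) / (N : ℝ) ^ b

/-- Average over the levels `i0 ≤ i < i0 + l1`. -/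
noncomputable def avl (i0 l1 : ℕ) (f : ℕ → ℝ) : ℝ := (∑ i ∈ range l1, f (i0 + i)) / l1

/-- The maximum norm of the difference of two matrices is at most `η`. -/
def Near {b d : ℕ} (η : ℝ) (P P' : Matrix (Fin b) (Co d) ℝ) : Prop := ∀ r c, |P' r c - P r c| ≤ η

end STK
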