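import Pool.Agent.Lib.MP_ac5134_an.STK.KZ
import Pool.Agent.Lib.MP_ac5134_an.STK.KCell

/-!
# STK-KErr: definitions for section 2 of the paper, and Lemma NI (near invariance)

Fix levels `c ≤ q`, `N` divisible by `B^q`; the grids are shifted by `z / N`, `z ∈ ℤ^b`.
-/

namespace STK
open Finset RFold
variable {Ω : Type*} [Fintype Ω] {ε : Type*} {b : ℕ}

/-- `u_z(f | γ) = P(X_q^z = f) / P(X_c^z = γ)` -/
noncomputable def uu (p : Ω → ℝ) (B c q N : ℕ) (x : Ω → Fin b → ℝ) (z : Fin b → ℤ)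
    (γ f : Fin b → ℤ) : ℝ :=
  law p (Xc B q (sh N z) x) f / law p (Xc B c (sh N z) x) γ

/-- the cells of level `q = c + k` contained in the cell `γ` of level `c` -/
noncomputable def cb (B k : ℕ) (γ : Fin b → ℤ) : Finset (Fin b → ℤ) :=
  Fintype.piFinset fun r => Finset.Ico (γ r * (B : ℤ) ^ k) ((γ r + 1) * (B : ℤ) ^ k)

/-- distance of the conditional laws of the fine cell for `x` (shift `z`) and `x'` (shift `z - τ e`) -/
noncomputable def errf (p : Ω → ℝ) (B c q N : ℕ) (x x' : Ω → Fin b → ℝ) (τ : ε → Fin b → ℤ)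
    (z γ : Fin b → ℤ) (e : ε) : ℝ :=
  ∑ f ∈ cb B (q - c) γ, |uu p B c q N x z γ f - uu p B c q N x' (z - τ e) γ f|

/-- distance of the conditional laws of the fine cell of `x` for the shifts `z` and `z'` -/
noncomputable def tvd (p : Ω → ℝ) (B c q N : ℕ) (x : Ω → Fin b → ℝ) (z z' γ : Fin b → ℤ) : ℝ :=
  ∑ f ∈ cb B (q - c) γ, |uu p B c q N x z γ f - uu p B c q N x z' γ f|

/-- the total error -/
noncomputable def errtot (p : Ω → ℝ) (B c q N : ℕ) (x x' : Ω → Fin b → ℝ) (E : Ω → ε)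
    (τ : ε → Fin b → ℤ) : ℝ :=
  avz N (fun z => ∑ ω, p ω * errf p B c q N x x' τ z (Xc B c (sh N z) x ω) (E ω))

/-- mass of the points with label `e` near the walls of the cell `γ` -/
noncomputable def NBe (p : Ω → ℝ) (B c N : ℕ) (ρ : ℝ) (x : Ω → Fin b → ℝ) (E : Ω → ε)
    (z γ : Fin b → ℤ) (e : ε) : ℝ :=
  pr p (fun ω => NearWall B c ρ (fun r => x ω r + sh N z r) ∧
    (∀ r, |Xc B c (sh N z) x ω r - γ r| ≤ 1) ∧ E ω = e)

/-- mass of the points near the walls of the cell `γ` -/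
noncomputable def NB (p : Ω → ℝ) (B c N : ℕ) (ρ : ℝ) (x : Ω → Fin b → ℝ) (z γ : Fin b → ℤ) : ℝ :=
  pr p (fun ω => NearWall B c ρ (fun r => x ω r + sh N z r) ∧
    (∀ r, |Xc B c (sh N z) x ω r - γ r| ≤ 1))

/-- `(z, γ, e)` is stable -/
def Stab (p : Ω → ℝ) (B c N : ℕ) (ρ : ℝ) (x : Ω → Fin b → ℝ) (E : Ω → ε) (z γ : Fin b → ℤ)
    (e : ε) : Prop :=
  NBe p B c N ρ x E z γ e ≤ (1 / 4) * law p (fun ω => (Xc B c (sh N z) x ω, E ω)) (γ, e)

/-- `(z, γ)` is `β`-stable -/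
def StabB (p : Ω → ℝ) (B c N : ℕ) (ρ β : ℝ) (x : Ω → Fin b → ℝ) (z γ : Fin b → ℤ) : Prop :=
  NB p B c N ρ x z γ ≤ β * law p (Xc B c (sh N z) x) γ

private theorem floor_shift_aux {B : ℕ} (q : ℕ) (y : ℝ) :
    ⌊(B : ℝ) ^ q * (y + 1)⌋ = ⌊(B : ℝ) ^ q * y⌋ + (B : ℤ) ^ q := by
  have h : (B : ℝ) ^ q * (y + 1) = (B : ℝ) ^ q * y + (((B : ℤ) ^ q : ℤ) : ℝ) := by
    push_cast
    ring
  rw [h, Int.floor_add_intCast]

theorem mem_cb_iff {B : ℕ} (hB : 0 < B) {c q : ℕ} (h : c ≤ q) (z : Fin b → ℝ)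
    (x : Ω → Fin b → ℝ) (ω : Ω) (γ : Fin b → ℤ) :
    Xc B q z x ω ∈ cb B (q - c) γ ↔ Xc B c z x ω = γ := by
  have hN : (0 : ℤ) < (B : ℤ) ^ (q - c) := by positivity
  rw [Xc_coarse hB h z x ω]
  unfold cb
  rw [Fintype.mem_piFinset, funext_iff]
  refine forall_congr' fun r => ?_
  rw [Finset.mem_Ico]
  constructor
  · rintro ⟨h1, h2⟩
    apply le_antisymm
    · exact Int.lt_add_one_iff.mp (Int.ediv_lt_of_lt_mul hN h2)
    · exact (Int.le_ediv_iff_mul_le hN).mpr h1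
  · intro h1
    rw [← h1]
    exact ⟨Int.ediv_mul_le _ hN.ne', Int.lt_ediv_add_one_mul_self _ hN⟩

/-- a point of the support has positive cell mass, and its fine cell lies in its coarse cell -/
theorem mem_cb {B : ℕ} (hB : 0 < B) {c q : ℕ} (h : c ≤ q) (z : Fin b → ℝ) (x : Ω → Fin b → ℝ)
    (ω : Ω) : Xc B q z x ω ∈ cb B (q - c) (Xc B c z x ω) :=
  (mem_cb_iff hB h z x ω _).mpr rfl

theorem card_cb {B k : ℕ} (γ : Fin b → ℤ) : ((cb B k γ).card : ℝ) = ((B : ℝ) ^ k) ^ b := by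
  unfold cb
  rw [Fintype.card_piFinset]
  have h : ∀ r : Fin b, (Finset.Ico (γ r * (B : ℤ) ^ k) ((γ r + 1) * (B : ℤ) ^ k)).card = B ^ k := by
    intro r
    rw [Int.card_Ico]
    have e : (γ r + 1) * (B : ℤ) ^ k - γ r * (B : ℤ) ^ k = ((B ^ k : ℕ) : ℤ) := by
      push_cast
      ring
    rw [e, Int.toNat_natCast]
  rw [Finset.prod_congr rfl fun r _ => h r, Finset.prod_const, Finset.card_univ, Fintype.card_fin]
  push_cast
  rfl

theorem errf_nonneg (p : Ω → ℝ) (B c q N : ℕ) (x x' : Ω → Fin b → ℝ) (τ : ε → Fin b → ℤ)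
    (z γ : Fin b → ℤ) (e : ε) : 0 ≤ errf p B c q N x x' τ z γ e :=
  sum_nonneg fun _ _ => abs_nonneg _

private theorem sh_add_single {N : ℕ} (hN : 0 < N) (z : Fin b → ℤ) (j r : Fin b) :
    sh N (z + Pi.single j (N : ℤ)) r = sh N z r + (if r = j then 1 else 0) := by
  have hN' : (N : ℝ) ≠ 0 := by exact_mod_cast hN.ne'
  unfold sh
  rw [Pi.add_apply]
  by_cases hr : r = j
  · subst hr
    rw [Pi.single_eq_same, if_pos rfl]
    push_cast
    rw [add_div, div_self hN']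
  · rw [Pi.single_eq_of_ne hr, if_neg hr, add_zero, add_zero]

private theorem Xc_add_single {B q N : ℕ} (hN : 0 < N) (z : Fin b → ℤ) (x : Ω → Fin b → ℝ)
    (j : Fin b) (ω : Ω) :
    Xc B q (sh N (z + Pi.single j (N : ℤ))) x ω =
      Xc B q (sh N z) x ω + Pi.single j ((B : ℤ) ^ q) := by
  funext r
  rw [Pi.add_apply]
  unfold Xc
  rw [sh_add_single hN]
  by_cases hr : r = j
  · subst hr
    rw [Pi.single_eq_same, if_pos rfl, ← floor_shift_aux]
    congr 1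
    ring
  · rw [Pi.single_eq_of_ne hr, if_neg hr, add_zero, add_zero]

private theorem law_add_single {p : Ω → ℝ} {B q N : ℕ} (hN : 0 < N) (z : Fin b → ℤ)
    (x : Ω → Fin b → ℝ) (j : Fin b) (f : Fin b → ℤ) :
    law p (Xc B q (sh N (z + Pi.single j (N : ℤ))) x) (f + Pi.single j ((B : ℤ) ^ q)) =
      law p (Xc B q (sh N z) x) f := by
  have h : Xc B q (sh N (z + Pi.single j (N : ℤ))) x =
      fun ω => Xc B q (sh N z) x ω + Pi.single j ((B : ℤ) ^ q) :=
    funext fun ω => Xc_add_single hN z x j ω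
  rw [h]
  unfold law
  simp only [add_left_inj]

private theorem uu_add_single {p : Ω → ℝ} {B c q N : ℕ} (hN : 0 < N) (z : Fin b → ℤ)
    (x : Ω → Fin b → ℝ) (j : Fin b) (γ f : Fin b → ℤ) :
    uu p B c q N x (z + Pi.single j (N : ℤ)) (γ + Pi.single j ((B : ℤ) ^ c))
      (f + Pi.single j ((B : ℤ) ^ q)) = uu p B c q N x z γ f := by
  unfold uu
  rw [law_add_single hN, law_add_single hN]

private theorem mem_cb_add_single {B c q : ℕ} (h : c ≤ q) (γ f : Fin b → ℤ) (j : Fin b) :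
    f + Pi.single j ((B : ℤ) ^ q) ∈ cb B (q - c) (γ + Pi.single j ((B : ℤ) ^ c)) ↔
      f ∈ cb B (q - c) γ := by
  have hq : (B : ℤ) ^ q = (B : ℤ) ^ c * (B : ℤ) ^ (q - c) := by
    rw [← pow_add, Nat.add_sub_cancel' h]
  unfold cb
  rw [Fintype.mem_piFinset, Fintype.mem_piFinset]
  refine forall_congr' fun r => ?_
  rw [Finset.mem_Ico, Finset.mem_Ico, Pi.add_apply, Pi.add_apply]
  by_cases hr : r = j
  · subst hr
    rw [Pi.single_eq_same, Pi.single_eq_same, hq]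
    constructor
    · rintro ⟨h1, h2⟩
      constructor
      · nlinarith
      · nlinarith
    · rintro ⟨h1, h2⟩
      constructor
      · nlinarith
      · nlinarith
  · rw [Pi.single_eq_of_ne hr, Pi.single_eq_of_ne hr, add_zero, add_zero]

/-- periodicity: `errf` with `z` shifted by a period and `γ` translated by `B^c` -/
theorem errf_period {p : Ω → ℝ} {B c q N : ℕ} (hB : 0 < B) (hN : 0 < N) (h : c ≤ q)
    (x x' : Ω → Fin b → ℝ) (τ : ε → Fin b → ℤ) (z γ : Fin b → ℤ) (e : ε) (j : Fin b) :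
    errf p B c q N x x' τ (z + Pi.single j (N : ℤ)) (γ + Pi.single j ((B : ℤ) ^ c)) e =
      errf p B c q N x x' τ z γ e := by
  unfold errf
  have hz : z + Pi.single j (N : ℤ) - τ e = (z - τ e) + Pi.single j (N : ℤ) := by abel
  rw [hz]
  symm
  refine Finset.sum_nbij' (fun f => f + Pi.single j ((B : ℤ) ^ q))
    (fun f => f - Pi.single j ((B : ℤ) ^ q)) ?_ ?_ ?_ ?_ ?_
  · intro f hf
    exact (mem_cb_add_single h γ f j).mpr hf
  · intro f hf
    rw [← mem_cb_add_single h γ _ j, sub_add_cancel]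
    exact hf
  · intro f _
    exact add_sub_cancel_right _ _
  · intro f _
    exact sub_add_cancel _ _
  · intro f _
    rw [uu_add_single hN, uu_add_single hN]

/-- triangle inequality: one step of the walk -/
theorem tvd_le (p : Ω → ℝ) (B c q N : ℕ) (x x' : Ω → Fin b → ℝ) (τ : ε → Fin b → ℤ)
    (z γ : Fin b → ℤ) (e e' : ε) :
    tvd p B c q N x z (z - (τ e - τ e')) γ ≤ errf p B c q N x x' τ z γ e +
      errf p B c q N x x' τ (z - (τ e - τ e')) γ e' := by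
  unfold tvd errf
  rw [← sum_add_distrib]
  refine sum_le_sum fun f _ => ?_
  have hz : z - (τ e - τ e') - τ e' = z - τ e := by abel
  rw [hz, abs_sub_comm (uu p B c q N x (z - (τ e - τ e')) γ f)]
  exact abs_sub_le _ _ _

end STK
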