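import Pool.Agent.Lib.MP_ac5134_an.Defs

/-!
# Local injectivity of a family of tubes at a scale
-/

namespace STK
open Pool.Agent.MPac5134

/-- Local injectivity at the scale `k` and the tube `i`: among the tubes with the same direction cell of
level `k + 1`, those whose centres are `A N² B^(-k)`-close to the centre of the tube `i` are
`A N² B^(-(k+1))`-close to it (sup norm). -/
def LocInj {ι : Type*} {d : ℕ} (B : ℕ) (A N : ℝ) (θ : ι → Cap d) (x : ι → Sp d) (k : ℕ)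
    (i : ι) : Prop :=
  ∀ j, (∀ r, ⌊(B : ℝ) ^ (k + 1) * (θ i).foot r⌋ = ⌊(B : ℝ) ^ (k + 1) * (θ j).foot r⌋) →
    (∀ r, |x i r - x j r| ≤ A * N ^ 2 * ((B : ℝ) ^ k)⁻¹) →
    ∀ r, |x i r - x j r| ≤ A * N ^ 2 * ((B : ℝ) ^ (k + 1))⁻¹

end STK
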