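import Pool.Agent.Lib.MP_ac5134_an.STK.KCell

/-!
# STK-KLin1: residual bound for an observable whose `F`-part has rank `≤ R` (paper (1.1))

`P1 = F`-columns of `P`.  Let `I1` be a maximal linearly independent set of rows of `P1`,
`|I1| = R' = rank P1 ≤ R`; for `r ∉ I1`: row `r` of `P1` is `∑_{r' ∈ I1} u r r' * (row r')`.
For `r ∉ I1` the column `J r` is a `w`-column: otherwise the column `J r` of `P1` is the unit vector `e_r`
(`Chart.one`), and the relation would give `1 = ∑ u * 0`.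
`y_r := x_r - ∑ u r r' x_{r'} = ∑_c Q r c * w_c` with `Q r c = P r (inr c) - ∑ u r r' P r' (inr c)` and
`Q r (J r') = δ r r'` for `r, r' ∉ I1`.
So, given the cell of `x` of level `i+n` and the cells of level `i+n` of the coordinates `w_c`,
`c ∉ {J r : r ∉ I1}` (`d - (b - R')` coordinates; in a node of level `i` each has at most `B^n` values,
use `base`), each `w_{J r}` is known up to `C B^(-(i+n))`, i.e. its cell up to a constant number of values.
Hence `cent ≤ (d - (b - R')) n log B + cP ≤ m0 n log B + cP`.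
-/

namespace STK
open Finset RFold

/-- the `F`-part of the observable -/
def P1mat {b d : ℕ} (P : Matrix (Fin b) (Co d) ℝ) : Matrix (Fin b) (Fin d) ℝ :=
  fun r c => P r (Sum.inl c)

/-- The algebraic part: a set `T` of at most `m0` coordinates of `w` which, together with `x`, controls `w`. -/
private theorem klin_alg {d b R : ℕ} {M : ℝ} {P : Matrix (Fin b) (Co d) ℝ} {J : Fin b → Co d}
    (hP : Chart M P J) (hR : (P1mat P).rank ≤ R) :
    ∃ (T : Finset (Fin d)) (K : ℕ), ((#T : ℕ) : ℝ) ≤ m0 d b R ∧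
      ∀ (Ω : Type) (Y : Ω → Co d → ℝ) (ω ω' : Ω) (E : ℝ), 0 ≤ E →
        (∀ r, |obs P Y ω r - obs P Y ω' r| ≤ E) →
        (∀ c ∈ T, |Y ω (Sum.inr c) - Y ω' (Sum.inr c)| ≤ E) →
        ∀ c, |Y ω (Sum.inr c) - Y ω' (Sum.inr c)| ≤ K * E := by
  classical
  obtain ⟨κ, a, ha, hspan, hli⟩ := exists_linearIndependent' ℝ (P1mat P).row
  have : Finite κ := Finite.of_injective a ha
  letI : Fintype κ := Fintype.ofFinite κ
  have hκ : Fintype.card κ ≤ R := by
    rw [← finrank_span_eq_card hli, hspan, ← Matrix.rank_eq_finrank_span_row]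
    exact hR
  have hu : ∀ r : Fin b, ∃ u : κ → ℝ, ∀ c : Fin d, ∑ k, u k * P (a k) (Sum.inl c) = P r (Sum.inl c) := by
    intro r
    have h1 : (P1mat P).row r ∈ Submodule.span ℝ (Set.range ((P1mat P).row ∘ a)) := by
      rw [hspan]
      exact Submodule.subset_span ⟨r, rfl⟩
    obtain ⟨u, hu⟩ := (Submodule.mem_span_range_iff_exists_fun ℝ).1 h1
    refine ⟨u, fun c => ?_⟩
    have h2 := congrFun hu c
    rw [Finset.sum_apply] at h2
    exact h2
  choose u hu using hu
  -- the rows outside the range of `a`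
  have hJ : ∀ r : Fin b, r ∉ Set.range a → ∃ c : Fin d, J r = Sum.inr c := by
    intro r hr
    rcases h : J r with c | c
    · exfalso
      have h1 := hu r c
      have h2 : P r (Sum.inl c) = 1 := by
        rw [← h, hP.one r r, if_pos rfl]
      have h3 : ∀ k, P (a k) (Sum.inl c) = 0 := by
        intro k
        rw [← h, hP.one (a k) r, if_neg]
        intro h4
        exact hr ⟨k, h4⟩
      rw [h2] at h1
      simp only [h3, mul_zero, Finset.sum_const_zero] at h1
      norm_num at h1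
    · exact ⟨c, rfl⟩
  obtain ⟨I, hI⟩ : ∃ I : Finset (Fin b), I = Finset.univ.filter fun r => r ∉ Set.range a := ⟨_, rfl⟩
  have hImem : ∀ r, r ∈ I ↔ r ∉ Set.range a := by
    intro r
    rw [hI, Finset.mem_filter]
    simp
  have hcardI : #I + Fintype.card κ = b := by
    have h1 : I = Finset.univ \ (Finset.univ.image a) := by
      ext r
      rw [hImem, Finset.mem_sdiff, Finset.mem_image]
      simp
    have h2 : #(Finset.univ.image a) = Fintype.card κ := by
      rw [Finset.card_image_of_injective _ ha, Finset.card_univ]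
    have h3 := Finset.card_sdiff_add_card_eq_card (Finset.subset_univ (Finset.univ.image a))
    rw [← h1, h2, Finset.card_univ, Fintype.card_fin] at h3
    exact h3
  rcases Nat.eq_zero_or_pos d with hd | hd
  · subst hd
    refine ⟨∅, 0, ?_, fun Ω Y ω ω' E _ _ _ c => c.elim0⟩
    have hI0 : I = ∅ := by
      rw [Finset.eq_empty_iff_forall_notMem]
      intro r hr
      obtain ⟨c, -⟩ := hJ r ((hImem r).1 hr)
      exact c.elim0
    rw [hI0, Finset.card_empty, zero_add] at hcardI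
    unfold m0
    rw [← hcardI]
    have : ((Fintype.card κ : ℕ) : ℝ) ≤ R := by exact_mod_cast hκ
    simp only [Finset.card_empty, Nat.cast_zero]
    linarith
  have : Nonempty (Fin d) := ⟨⟨0, hd⟩⟩
  choose! col hcol using hJ
  obtain ⟨T, hT⟩ : ∃ T : Finset (Fin d), T = Finset.univ \ (I.image col) := ⟨_, rfl⟩
  have hcolinj : Set.InjOn col (I : Set (Fin b)) := by
    intro r hr r' hr' h
    rw [Finset.mem_coe, hImem] at hr hr'
    apply hP.inj
    rw [hcol r hr, hcol r' hr', h]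
  have hcardT : #T + #I = d := by
    have h3 := Finset.card_sdiff_add_card_eq_card (Finset.subset_univ (I.image col))
    rw [Finset.card_image_of_injOn hcolinj, ← hT, Finset.card_univ, Fintype.card_fin] at h3
    exact h3
  -- the coefficients
  obtain ⟨Q, hQ⟩ : ∃ Q : Fin b → Fin d → ℝ, Q = fun r c =>
      P r (Sum.inr c) - ∑ k, u r k * P (a k) (Sum.inr c) := ⟨_, rfl⟩
  have hQone : ∀ r ∈ I, ∀ r' ∈ I, Q r (col r') = if r = r' then 1 else 0 := by
    intro r hr r' hr'
    rw [hImem] at hr hr'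
    rw [hQ]
    simp only
    rw [← hcol r' hr', hP.one r r']
    have h1 : ∀ k, P (a k) (J r') = 0 := by
      intro k
      rw [hP.one (a k) r', if_neg]
      intro h
      exact hr' ⟨k, h⟩
    simp only [h1, mul_zero, Finset.sum_const_zero, sub_zero]
  obtain ⟨D, hD⟩ : ∃ D : ℝ, D = 1 + ∑ r, ((1 + ∑ k, |u r k|) + ∑ c, |Q r c|) := ⟨_, rfl⟩
  have hDr : ∀ r, (1 + ∑ k, |u r k|) + ∑ c, |Q r c| ≤ D := by
    intro r
    have h1 := Finset.single_le_sum (f := fun r => (1 + ∑ k, |u r k|) + ∑ c, |Q r c|)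
      (fun r _ => by positivity) (Finset.mem_univ r)
    rw [hD]
    linarith
  have hD1 : 1 ≤ D := by
    have h1 : 0 ≤ ∑ r, ((1 + ∑ k, |u r k|) + ∑ c, |Q r c|) :=
      Finset.sum_nonneg fun r _ => by positivity
    rw [hD]
    linarith
  obtain ⟨K, hK⟩ := exists_nat_ge D
  refine ⟨T, K, ?_, ?_⟩
  · unfold m0
    have h1 : ((Fintype.card κ : ℕ) : ℝ) ≤ R := by exact_mod_cast hκ
    have h2 : ((#T : ℕ) : ℝ) + #I = d := by exact_mod_cast hcardT
    have h3 : ((#I : ℕ) : ℝ) + Fintype.card κ = b := by exact_mod_cast hcardI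
    linarith
  intro Ω Y ω ω' E hE hx hw c
  by_cases hc : c ∈ T
  · refine (hw c hc).trans ?_
    nlinarith
  have hc' : c ∈ I.image col := by
    rw [hT, Finset.mem_sdiff] at hc
    by_contra h
    exact hc ⟨Finset.mem_univ _, h⟩
  obtain ⟨r, hr, rfl⟩ := Finset.mem_image.1 hc'
  -- the identity for `y_r`
  have key : ∀ ζ : Ω, Y ζ (Sum.inr (col r)) =
      (obs P Y ζ r - ∑ k, u r k * obs P Y ζ (a k)) - ∑ c ∈ T, Q r c * Y ζ (Sum.inr c) := by
    intro ζ
    have h1 : obs P Y ζ r - ∑ k, u r k * obs P Y ζ (a k) = ∑ c, Q r c * Y ζ (Sum.inr c) := by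
      have h2 : ∀ s, obs P Y ζ s = ∑ c, P s (Sum.inl c) * Y ζ (Sum.inl c) +
          ∑ c, P s (Sum.inr c) * Y ζ (Sum.inr c) := by
        intro s
        unfold obs
        rw [Fintype.sum_sum_type]
      have h3 : ∑ k, u r k * obs P Y ζ (a k) = ∑ c, P r (Sum.inl c) * Y ζ (Sum.inl c) +
          ∑ c, (∑ k, u r k * P (a k) (Sum.inr c)) * Y ζ (Sum.inr c) := by
        simp only [h2, mul_add, Finset.sum_add_distrib]
        congr 1
        · simp only [Finset.mul_sum]
          rw [Finset.sum_comm]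
          refine Finset.sum_congr rfl fun c _ => ?_
          rw [← hu r c, Finset.sum_mul]
          refine Finset.sum_congr rfl fun k _ => ?_
          ring
        · simp only [Finset.mul_sum, Finset.sum_mul]
          rw [Finset.sum_comm]
          refine Finset.sum_congr rfl fun c _ => ?_
          refine Finset.sum_congr rfl fun k _ => ?_
          ring
      rw [h3, h2 r, hQ]
      simp only [sub_mul, Finset.sum_sub_distrib]
      ring
    rw [h1]
    have h4 : ∑ c, Q r c * Y ζ (Sum.inr c) = ∑ c ∈ T, Q r c * Y ζ (Sum.inr c) +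
        ∑ c ∈ I.image col, Q r c * Y ζ (Sum.inr c) := by
      rw [hT, Finset.sum_sdiff (Finset.subset_univ _)]
    have h5 : ∑ c ∈ I.image col, Q r c * Y ζ (Sum.inr c) = Y ζ (Sum.inr (col r)) := by
      rw [Finset.sum_image hcolinj, Finset.sum_eq_single r]
      · rw [hQone r hr r hr, if_pos rfl, one_mul]
      · intro r' hr' hne
        rw [hQone r hr r' hr', if_neg (Ne.symm hne), zero_mul]
      · intro h
        exact absurd hr h
    rw [h4, h5]
    ring
  rw [key ω, key ω']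
  have e1 : (obs P Y ω r - ∑ k, u r k * obs P Y ω (a k)) - ∑ c ∈ T, Q r c * Y ω (Sum.inr c) -
      ((obs P Y ω' r - ∑ k, u r k * obs P Y ω' (a k)) - ∑ c ∈ T, Q r c * Y ω' (Sum.inr c)) =
      (obs P Y ω r - obs P Y ω' r) - ∑ k, u r k * (obs P Y ω (a k) - obs P Y ω' (a k)) -
        ∑ c ∈ T, Q r c * (Y ω (Sum.inr c) - Y ω' (Sum.inr c)) := by
    simp only [mul_sub, Finset.sum_sub_distrib]
    ring
  rw [e1]
  have b1 : |∑ k, u r k * (obs P Y ω (a k) - obs P Y ω' (a k))| ≤ (∑ k, |u r k|) * E := by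
    refine (Finset.abs_sum_le_sum_abs _ _).trans ?_
    rw [Finset.sum_mul]
    refine Finset.sum_le_sum fun k _ => ?_
    rw [abs_mul]
    exact mul_le_mul_of_nonneg_left (hx _) (abs_nonneg _)
  have b2 : |∑ c ∈ T, Q r c * (Y ω (Sum.inr c) - Y ω' (Sum.inr c))| ≤ (∑ c, |Q r c|) * E := by
    refine (Finset.abs_sum_le_sum_abs _ _).trans ?_
    rw [Finset.sum_mul]
    refine (Finset.sum_le_sum (g := fun c => |Q r c| * E) fun c hc => ?_).trans
      (Finset.sum_le_sum_of_subset_of_nonneg (Finset.subset_univ _) fun c _ _ => by positivity)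
    rw [abs_mul]
    exact mul_le_mul_of_nonneg_left (hw c hc) (abs_nonneg _)
  have b3 := hx r
  have b4 : |(obs P Y ω r - obs P Y ω' r) - ∑ k, u r k * (obs P Y ω (a k) - obs P Y ω' (a k)) -
        ∑ c ∈ T, Q r c * (Y ω (Sum.inr c) - Y ω' (Sum.inr c))| ≤
      E + (∑ k, |u r k|) * E + (∑ c, |Q r c|) * E := by
    rw [abs_le] at b1 b2 b3 ⊢
    constructor <;> linarith [b1.1, b1.2, b2.1, b2.2, b3.1, b3.2]
  refine b4.trans ?_
  have h6 : E + (∑ k, |u r k|) * E + (∑ c, |Q r c|) * E =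
      ((1 + ∑ k, |u r k|) + ∑ c, |Q r c|) * E := by ring
  rw [h6]
  exact mul_le_mul_of_nonneg_right ((hDr r).trans hK) hE

private theorem klin_floor {B q : ℕ} (hB : 0 < B) {y y' z : ℝ}
    (h : ⌊(B : ℝ) ^ q * (y + z)⌋ = ⌊(B : ℝ) ^ q * (y' + z)⌋) : |y - y'| ≤ ((B : ℝ) ^ q)⁻¹ := by
  have hBq : (0 : ℝ) < (B : ℝ) ^ q := by
    have : (0 : ℝ) < B := by exact_mod_cast hB
    positivity
  have h1 := Int.floor_le ((B : ℝ) ^ q * (y + z))
  have h2 := Int.lt_floor_add_one ((B : ℝ) ^ q * (y + z))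
  have h3 := Int.floor_le ((B : ℝ) ^ q * (y' + z))
  have h4 := Int.lt_floor_add_one ((B : ℝ) ^ q * (y' + z))
  rw [h] at h1 h2
  have h5 : |(B : ℝ) ^ q * (y - y')| ≤ 1 := by
    rw [abs_le]
    constructor <;> nlinarith
  rw [abs_mul, abs_of_pos hBq] at h5
  rw [inv_eq_one_div, le_div_iff₀ hBq]
  linarith

theorem term_bound {B d b R : ℕ} (hB : 2 ≤ B) {C0 M : ℝ} (hC0 : 0 ≤ C0)
    {P : Matrix (Fin b) (Co d) ℝ} {J : Fin b → Co d} (hP : Chart M P J)
    (hR : (P1mat P).rank ≤ R) :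
    ∃ cP : ℝ, ∀ (Ω : Type) [Fintype Ω] (p : Ω → ℝ) (Y : Ω → Co d → ℝ) (i n : ℕ) (z : Fin b → ℝ),
      IsSys B d C0 i p Y →
      cent p (Wc B (i + n) Y) (Xc B (i + n) z (obs P Y)) ≤ m0 d b R * n * Real.log B + cP := by
  classical
  obtain ⟨T, K, hT, hctl⟩ := klin_alg hP hR
  have hB0 : 0 < B := by omega
  refine ⟨d * Real.log (2 * ((K + 1 : ℕ) : ℝ) + 1), ?_⟩
  intro Ω _ p Y i n z hS
  have hp := hS.pr
  have hlB : 0 ≤ Real.log (B : ℝ) := Real.log_natCast_nonneg B
  obtain ⟨f, hf⟩ : ∃ f : Ω → Fin #T → ℤ, f = fun ω j => Wc B (i + n) Y ω (T.orderEmbOfFin rfl j) :=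
    ⟨_, rfl⟩
  have h1 : cent p f (Xc B (i + n) z (obs P Y)) ≤ (#T : ℕ) * Real.log ((B ^ n : ℕ) : ℝ) := by
    refine cent_le_box hp f _ (B ^ n) fun ω₀ h0 =>
      ⟨fun j => (B : ℤ) ^ n * Wc B i Y ω₀ (T.orderEmbOfFin rfl j), fun ω hω _ j => ?_⟩
    have e1 := congrFun (hS.base ω ω₀ hω h0) (T.orderEmbOfFin rfl j)
    have e2 : Wc B i Y ω (T.orderEmbOfFin rfl j) =
        Wc B (i + n) Y ω (T.orderEmbOfFin rfl j) / (B : ℤ) ^ n := by
      have := floor_coarse hB0 (Nat.le_add_right i n) (Y ω (Sum.inr (T.orderEmbOfFin rfl j)))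
      rw [Nat.add_sub_cancel_left] at this
      exact this
    rw [e1] at e2
    have hN : (0 : ℤ) < (B : ℤ) ^ n := by positivity
    have e3 : f ω j = Wc B (i + n) Y ω (T.orderEmbOfFin rfl j) := by rw [hf]
    have e4 := Int.mul_ediv_self_le (x := Wc B (i + n) Y ω (T.orderEmbOfFin rfl j)) hN.ne'
    have e5 := Int.lt_mul_ediv_self_add (x := Wc B (i + n) Y ω (T.orderEmbOfFin rfl j)) hN
    rw [← e2] at e4 e5
    push_cast
    rw [e3]
    exact ⟨e4, e5⟩
  have h2 : cent p (Wc B (i + n) Y) (fun ω => (f ω, Xc B (i + n) z (obs P Y) ω)) ≤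
      d * Real.log (2 * ((K + 1 : ℕ) : ℝ) + 1) := by
    refine cent_le_diam hp _ _ (K + 1) fun ω ω' _ _ e r => ?_
    obtain ⟨ef, ex⟩ := Prod.ext_iff.1 e
    simp only at ef ex
    have hBq : (0 : ℝ) < ((B : ℝ) ^ (i + n))⁻¹ := by
      have : (0 : ℝ) < B := by exact_mod_cast hB0
      positivity
    have g1 : ∀ r, |obs P Y ω r - obs P Y ω' r| ≤ ((B : ℝ) ^ (i + n))⁻¹ := fun r =>
      klin_floor hB0 (congrFun ex r)
    have g2 : ∀ c ∈ T, |Y ω (Sum.inr c) - Y ω' (Sum.inr c)| ≤ ((B : ℝ) ^ (i + n))⁻¹ := by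
      intro c hc
      have h3 : c ∈ Set.range (T.orderEmbOfFin rfl) := by
        rw [Finset.range_orderEmbOfFin]
        exact hc
      obtain ⟨j, rfl⟩ := h3
      have h4 : Wc B (i + n) Y ω (T.orderEmbOfFin rfl j) =
          Wc B (i + n) Y ω' (T.orderEmbOfFin rfl j) := by
        have := congrFun ef j
        rw [hf] at this
        exact this
      apply klin_floor (z := 0) hB0
      rw [add_zero, add_zero]
      exact h4
    have g3 := hctl Ω Y ω ω' _ hBq.le g1 g2 r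
    have g4 := floor_dist hB0 (i + n) g3
    have g5 : ((Wc B (i + n) Y ω r : ℤ) : ℝ) ≤ (Wc B (i + n) Y ω' r : ℤ) + K + 1 := g4
    have g6 : Wc B (i + n) Y ω r ≤ Wc B (i + n) Y ω' r + (K + 1 : ℕ) := by
      have : ((Wc B (i + n) Y ω r : ℤ) : ℝ) ≤ ((Wc B (i + n) Y ω' r + (K + 1 : ℕ) : ℤ) : ℝ) := by
        push_cast
        linarith
      exact_mod_cast this
    exact g6
  have h3 : cent p (Wc B (i + n) Y) (Xc B (i + n) z (obs P Y)) ≤
      cent p (fun ω => (f ω, Wc B (i + n) Y ω)) (Xc B (i + n) z (obs P Y)) := by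
    refine cent_mono hp ?_ (Det.refl _)
    exact Det.fst (Det.snd (Det.refl _))
  have h4 := cent_chain hp f (Wc B (i + n) Y) (Xc B (i + n) z (obs P Y))
  have h5 : ((#T : ℕ) : ℝ) * Real.log ((B ^ n : ℕ) : ℝ) ≤ m0 d b R * n * Real.log B := by
    rw [Nat.cast_pow, Real.log_pow, ← mul_assoc]
    exact mul_le_mul_of_nonneg_right (mul_le_mul_of_nonneg_right hT (Nat.cast_nonneg _)) hlB
  linarith

end STK
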