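import Pool.Agent.Lib.MP_ac5134_an.STK.KLin1

/-!
# STK-KLin2: rank conditions

`rank_inf`: if `rank (P1mat P) ≥ R + 1` choose rows `f` and columns `g` (`Fin (R+1) → _`) with
`det ((P1mat P).submatrix f g) ≠ 0`.  `det ((kmat P s).submatrix f g)` is a polynomial in `s` of degree
`≤ R + 1` with leading coefficient `± det ((P1mat P).submatrix f g)` (`Polynomial.coeff_det_X_add_C_card`,
`Polynomial.natDegree_det_X_add_C_le`), so it has at most `R + 1 ≤ d` zeros; but it vanishes at all
`s ∈ T` (rank `≤ R`), `|T| ≥ d + 1`.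
`isClosed_rank_le`: the complement is open: if `rank A ≥ R+1`, some minor of order `R+1` is nonzero, and
it is nonzero near `A`.
-/

namespace STK
open Finset

theorem exists_li_fin {m n R : ℕ} (v : Fin m → Fin n → ℝ)
    (h : R + 1 ≤ Module.finrank ℝ (Submodule.span ℝ (Set.range v))) :
    ∃ f : Fin (R + 1) → Fin m, LinearIndependent ℝ (v ∘ f) := by
  obtain ⟨κ, a, ha, hsp, hli⟩ := exists_linearIndependent' ℝ v
  have hfin : Finite κ := Finite.of_injective a ha
  have := Fintype.ofFinite κ
  have hc : Fintype.card κ = Module.finrank ℝ (Submodule.span ℝ (Set.range v)) := by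
    rw [← hsp]; exact (finrank_span_eq_card hli).symm
  obtain ⟨e⟩ : Nonempty (Fin (R + 1) ↪ κ) :=
    Function.Embedding.nonempty_of_card_le (by rw [Fintype.card_fin]; omega)
  exact ⟨a ∘ e, hli.comp e e.injective⟩

theorem exists_minor {m n R : ℕ} (A : Matrix (Fin m) (Fin n) ℝ) (h : R + 1 ≤ A.rank) :
    ∃ (f : Fin (R + 1) → Fin m) (g : Fin (R + 1) → Fin n), (A.submatrix f g).det ≠ 0 := by
  obtain ⟨f, hf⟩ := exists_li_fin (R := R) A.row (by rw [← Matrix.rank_eq_finrank_span_row]; exact h)
  have hB : (A.submatrix f id).rank = R + 1 := by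
    have h1 : LinearIndependent ℝ (A.submatrix f id).row := hf
    rw [h1.rank_matrix, Fintype.card_fin]
  obtain ⟨g, hg⟩ := exists_li_fin (R := R) (A.submatrix f id).col
    (by rw [← Matrix.rank_eq_finrank_span_cols]; exact hB.ge)
  refine ⟨f, g, ?_⟩
  have h2 : LinearIndependent ℝ (A.submatrix f g).col := hg
  rw [Matrix.linearIndependent_cols_iff_isUnit, Matrix.isUnit_iff_isUnit_det] at h2
  exact h2.ne_zero

theorem rank_of_minor {m n R : ℕ} (A : Matrix (Fin m) (Fin n) ℝ) (f : Fin (R + 1) → Fin m)
    (g : Fin (R + 1) → Fin n) (h : (A.submatrix f g).det ≠ 0) : R + 1 ≤ A.rank := by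
  have h1 := Matrix.rank_submatrix_le A f g
  rw [Matrix.rank_of_det_ne_zero h, Fintype.card_fin] at h1
  exact h1

theorem isClosed_rank_le (m n R : ℕ) : IsClosed {A : Matrix (Fin m) (Fin n) ℝ | A.rank ≤ R} := by
  have h : {A : Matrix (Fin m) (Fin n) ℝ | A.rank ≤ R} =
      ⋂ (f : Fin (R + 1) → Fin m) (g : Fin (R + 1) → Fin n),
        {A : Matrix (Fin m) (Fin n) ℝ | (A.submatrix f g).det = 0} := by
    ext A
    simp only [Set.mem_ofPred_eq, Set.mem_iInter]
    constructor
    · intro hA f g
      by_contra hne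
      have := rank_of_minor A f g hne
      omega
    · intro hA
      by_contra hne
      obtain ⟨f, g, hfg⟩ := exists_minor A (R := R) (by omega)
      exact hfg (hA f g)
  rw [h]
  refine isClosed_iInter fun f => isClosed_iInter fun g => ?_
  exact isClosed_eq (Continuous.matrix_det (continuous_id.matrix_submatrix f g)) continuous_const

theorem rank_inf {b d R : ℕ} (P : Matrix (Fin b) (Co d) ℝ) (T : Finset ℝ) (hT : d + 1 ≤ T.card)
    (h : ∀ s ∈ T, (kmat P s).rank ≤ R) : (P1mat P).rank ≤ R := by
  by_contra hne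
  obtain ⟨f, g, hfg⟩ := exists_minor (P1mat P) (R := R) (by omega)
  have hRd : R + 1 ≤ d := by
    have h1 := Matrix.rank_le_card_width (P1mat P)
    rw [Fintype.card_fin] at h1
    omega
  set A : Matrix (Fin (R + 1)) (Fin (R + 1)) ℝ := -((P1mat P).submatrix f g) with hA
  set B : Matrix (Fin (R + 1)) (Fin (R + 1)) ℝ := fun i j => P (f i) (Sum.inr (g j)) with hB
  set q : Polynomial ℝ := Matrix.det ((Polynomial.X : Polynomial ℝ) • A.map Polynomial.C +
    B.map Polynomial.C) with hq
  have hdeg : q.natDegree ≤ R + 1 := by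
    have := Polynomial.natDegree_det_X_add_C_le A B
    rwa [Fintype.card_fin] at this
  have hlc : q.coeff (R + 1) ≠ 0 := by
    have := Polynomial.coeff_det_X_add_C_card A B
    rw [Fintype.card_fin] at this
    rw [hq, this, hA, Matrix.det_neg]
    refine mul_ne_zero (pow_ne_zero _ (by norm_num)) hfg
  have hq0 : q ≠ 0 := by
    intro h0; rw [h0] at hlc; simp at hlc
  have hev : ∀ s : ℝ, q.eval s = ((kmat P s).submatrix f g).det := by
    intro s
    rw [hq, ← Polynomial.coe_evalRingHom, RingHom.map_det]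
    congr 1
    ext i j
    have hBij : B i j = P (f i) (Sum.inr (g j)) := rfl
    simp [hA, kmat, P1mat, Matrix.map_apply, hBij]
    ring
  have hroots : T ⊆ q.roots.toFinset := by
    intro s hs
    rw [Multiset.mem_toFinset, Polynomial.mem_roots hq0, Polynomial.IsRoot, hev]
    by_contra hne2
    have := rank_of_minor _ f g hne2
    have := h s hs
    omega
  have h3 := (Finset.card_le_card hroots).trans (Multiset.toFinset_card_le _)
  have h4 := Polynomial.card_roots' q
  omega

end STK
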