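import Pool.Agent.Lib.MP_ac5134_an.STK.KMainForm

/-!
# STK-KLoc: from blocks of bounded depth to all scales (local injectivity at most (scale, point) pairs)

`Z : Ω → ℝ^e` are the data of a point; `V_k = Xc B k 0 Z` their cells of level `k`; `Y = (F, w)` is a
`C1`-Lipschitz function of `Z` and the coordinates of `w` are coordinates of `Z`.
`Good i l ω`: among the points in the same cell `V_i`, the direction cell of level `k` determines `Z` up to
`A B^(-k)` (seen from `ω`), `i ≤ k ≤ i + l`.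

Proof of `loc_glob`.  `C0 = C1 A + A + C1 + 1`, `α = ε/8`, `δ = ε/(8 (e+1))` (`d ≤ e`); `l ≥ max 1 (l0 of main_form)`,
so large that `(log 2 + e log (2A+5) + d log (8 C1 A + 9))/l ≤ (ε/8) log B`; `η = ε/(8 (e+1) l)`;
`m0 ≥ l`, `m0 ≥ l0`, `e l ≤ (ε/8) m0`.
Fix `h`, `x = F + s_h w`, `X_k = Xc B k 0 x`.  Tower calculus (KTower) with `V k`, `X k`:
`cent V_m X_m ≤ cent V_0 X_0 + tres 0 m` (chain rule; `X_m` determines `X_0`), and with `m = l M' + r`, `r < l`: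
`tres 0 m ≤ ∑_{j<M'} tres (j l) (j l + l) + tres (l M') m` (`tres_sub`), the last term `≤ e r log B`.
`tres i (i+l) = ∑_ω p ω cent (p_v) V_{i+l} X_{i+l}`, `p_v = fib p V_i ω` (`cent_eq_fib2`).
One node `v`, `G = {Good i l}`, `q = pr p_v G`: with the indicator of `G`
`cent p_v V X ≤ log 2 + q cent p' V X + (1-q) e l log B`, `p' = p_v` conditioned to `G` (`fib` of the indicator;
in a cell `V_i` there are at most `B^(e l)` cells `V_{i+l}`), if `q > 0`; if `q = 0` the bound is trivial.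
`p'`: `cent p' V X ≤ cent p' V W + cent p' W X`, `W = Wc B (i+l) Y`; `cent p' V W ≤ e log (2A+5)` (`Good` with
`k = i + l`, `cent_le_diam`).  Let `Y' = Y ∘ rep`, `rep` = a representative in the support of `p'` of the class of
`W_{i+l}`; `IsSys B d C0 i p' Y'` (for `k ≤ i+l` by `Good`; for `k ≥ i + l` equal cells of `Y'` mean equal
representatives), `Wc (i+l) Y' = Wc (i+l) Y`, `|Y - Y'| ≤ C1 A B^(-(i+l))`, so
`cent p' W X(Y) ≤ cent p' W X(Y') + d log (8 C1 A + 9)`; average over `h` by `main_form`: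
`∑ σ h cent p' W X(Y') ≤ α l log B + δ d l log B`.
Sum: `∑_h σ h cent V_m X_m ≤ ∑_h σ h cent V_0 X_0 + (m/l)(log 2 + ...) + (α + δ d) m log B +
e l log B ∑_{j<M'} pr p (¬ Good (j l)) + e l log B`.
-/

namespace STK
open Finset RFold Filter Topology Pool.Agent.MPac5134.SD

/-- among the points in the same cell of level `i`, the direction cells determine the data -/
def Good {Ω : Type} [Fintype Ω] (B : ℕ) {d e : ℕ} (A : ℝ) (p : Ω → ℝ) (Z : Ω → Fin e → ℝ)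
    (Y : Ω → Co d → ℝ) (i l : ℕ) (ω : Ω) : Prop :=
  ∀ k, i ≤ k → k ≤ i + l → ∀ ω', p ω' ≠ 0 → Xc B i 0 Z ω' = Xc B i 0 Z ω →
    Wc B k Y ω' = Wc B k Y ω → ∀ r, |Z ω r - Z ω' r| ≤ A * ((B : ℝ) ^ k)⁻¹

/-- the slice at height `s` -/
private abbrev klx {Ω : Type} {d : ℕ} (s : ℝ) (Y : Ω → Co d → ℝ) : Ω → Fin d → ℝ :=
  fun ω r => Y ω (Sum.inl r) + s * Y ω (Sum.inr r)

private theorem kl_rep {Ω : Type} [Fintype Ω] {γ : Type*} {p : Ω → ℝ} (hp : IsPr p) (W : Ω → γ) :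
    ∃ E : Ω → Ω, (∀ ω, p ω ≠ 0 → p (E ω) ≠ 0 ∧ W (E ω) = W ω) ∧
      ∀ ω ω', W ω = W ω' → E ω = E ω' := by
  classical
  obtain ⟨ω0, h0⟩ : ∃ ω, p ω ≠ 0 := by
    by_contra h
    push Not at h
    have := hp.sum_eq
    rw [Finset.sum_eq_zero fun ω _ => h ω] at this
    exact zero_ne_one this
  obtain ⟨rep, hrep⟩ : ∃ rep : γ → Ω, ∀ w, (∃ ω, p ω ≠ 0 ∧ W ω = w) →
      p (rep w) ≠ 0 ∧ W (rep w) = w := by
    refine ⟨fun w => if h : ∃ ω, p ω ≠ 0 ∧ W ω = w then h.choose else ω0, fun w h => ?_⟩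
    simp only [dif_pos h]
    exact h.choose_spec
  exact ⟨fun ω => rep (W ω), fun ω hω => hrep (W ω) ⟨ω, hω, rfl⟩,
    fun ω ω' h => congrArg rep h⟩

/-- data and direction cells on a good set -/
private theorem kl_VW {B e : ℕ} (hB : 2 ≤ B) {A : ℝ} (hA : 0 ≤ A) {Ω : Type} [Fintype Ω]
    {γ : Type*} {p : Ω → ℝ} (hp : IsPr p) {Z : Ω → Fin e → ℝ} {W : Ω → γ} {n : ℕ}
    (hG : ∀ ω ω', p ω ≠ 0 → p ω' ≠ 0 → W ω = W ω' → ∀ r, |Z ω r - Z ω' r| ≤ A * ((B : ℝ) ^ n)⁻¹) :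
    cent p (Xc B n 0 Z) W ≤ e * Real.log (2 * A + 5) := by
  have hB0 : 0 < B := by omega
  have h1 := cent_le_diam hp (Xc B n 0 Z) W (⌊A⌋₊ + 1) (fun ω ω' h h' hw r => by
    have h2 : |(Z ω r + (0 : Fin e → ℝ) r) - (Z ω' r + (0 : Fin e → ℝ) r)| ≤
        A * ((B : ℝ) ^ n)⁻¹ := by
      rw [add_sub_add_right_eq_sub]
      exact hG ω ω' h h' hw r
    have h3 := floor_dist hB0 n h2
    have h4 : (Xc B n 0 Z ω r : ℝ) < (Xc B n 0 Z ω' r + ((⌊A⌋₊ + 1 : ℕ) : ℤ) + 1 : ℤ) := by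
      have h5 := Nat.lt_floor_add_one A
      push_cast
      unfold Xc
      linarith
    have h6 : Xc B n 0 Z ω r < Xc B n 0 Z ω' r + ((⌊A⌋₊ + 1 : ℕ) : ℤ) + 1 := by exact_mod_cast h4
    omega)
  refine h1.trans (mul_le_mul_of_nonneg_left ?_ (Nat.cast_nonneg e))
  refine Real.log_le_log (by positivity) ?_
  have h7 := Nat.floor_le hA
  push_cast
  linarith

/-- changing `Y` by `O(B^(-n))` -/
private theorem kl_XX {B d : ℕ} (hB : 2 ≤ B) {C : ℝ} (hC : 0 ≤ C) {Ω : Type} [Fintype Ω]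
    {α : Type*} {p : Ω → ℝ} (hp : IsPr p) {x x' : Ω → Fin d → ℝ} (W : Ω → α) {n : ℕ}
    (hx : ∀ ω, p ω ≠ 0 → ∀ r, |x ω r - x' ω r| ≤ 2 * C * ((B : ℝ) ^ n)⁻¹) :
    cent p W (Xc B n 0 x) ≤ cent p W (Xc B n 0 x') + d * Real.log (8 * C + 9) := by
  have hB0 : 0 < B := by omega
  have hBn : (0 : ℝ) < (B : ℝ) ^ n := by
    have : (0 : ℝ) < B := by exact_mod_cast hB0
    positivity
  have h1 : cent p (Xc B n 0 x') (Xc B n 0 x) ≤ d * Real.log (8 * C + 9) := by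
    have h1 := cent_le_diam hp (Xc B n 0 x') (Xc B n 0 x) (⌊4 * C⌋₊ + 2) (fun ω ω' h h' hw r => by
      have h2 := abs_le.1 (hx ω h r)
      have h3 := abs_le.1 (hx ω' h' r)
      have h4 : ⌊(B : ℝ) ^ n * (x ω r + (0 : Fin d → ℝ) r)⌋ =
          ⌊(B : ℝ) ^ n * (x ω' r + (0 : Fin d → ℝ) r)⌋ := congrFun hw r
      have h5 := Int.abs_sub_lt_one_of_floor_eq_floor h4
      rw [← mul_sub, abs_mul, abs_of_pos hBn, add_sub_add_right_eq_sub] at h5
      have h5' : |x ω r - x ω' r| ≤ ((B : ℝ) ^ n)⁻¹ := by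
        rw [← one_div, le_div_iff₀ hBn, mul_comm]
        exact h5.le
      have h6 := abs_le.1 h5'
      have h7 : |(x' ω r + (0 : Fin d → ℝ) r) - (x' ω' r + (0 : Fin d → ℝ) r)| ≤
          (4 * C + 1) * ((B : ℝ) ^ n)⁻¹ := by
        rw [add_sub_add_right_eq_sub, abs_le]
        constructor <;> nlinarith [h2.1, h2.2, h3.1, h3.2, h6.1, h6.2]
      have h8 := floor_dist hB0 n h7
      have h4 : (Xc B n 0 x' ω r : ℝ) < (Xc B n 0 x' ω' r + ((⌊4 * C⌋₊ + 2 : ℕ) : ℤ) + 1 : ℤ) := by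
        have h5 := Nat.lt_floor_add_one (4 * C)
        push_cast
        unfold Xc
        linarith
      have h6 : Xc B n 0 x' ω r < Xc B n 0 x' ω' r + ((⌊4 * C⌋₊ + 2 : ℕ) : ℤ) + 1 := by
        exact_mod_cast h4
      omega)
    refine h1.trans (mul_le_mul_of_nonneg_left ?_ (Nat.cast_nonneg d))
    refine Real.log_le_log (by positivity) ?_
    have h7 := Nat.floor_le (show 0 ≤ 4 * C by positivity)
    push_cast
    linarith
  have h2 : cent p W (Xc B n 0 x) ≤ cent p (fun ω => (Xc B n 0 x' ω, W ω)) (Xc B n 0 x) :=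
    cent_mono hp (Det.fst (Det.snd (Det.refl _))) (Det.refl _)
  have h3 := cent_chain hp (Xc B n 0 x') W (Xc B n 0 x)
  have h4 : cent p W (fun ω => (Xc B n 0 x' ω, Xc B n 0 x ω)) ≤ cent p W (Xc B n 0 x') :=
    cent_anti hp _ (Det.fst (Det.refl _))
  linarith

/-- the trivial bound at a node -/
private theorem kl_triv {B e : ℕ} (hB : 2 ≤ B) {Ω : Type} [Fintype Ω] {γ : Type*} {p : Ω → ℝ}
    (hp : IsPr p) {Z : Ω → Fin e → ℝ} {i l : ℕ}
    (hV : ∀ ω ω', p ω ≠ 0 → p ω' ≠ 0 → Xc B i 0 Z ω = Xc B i 0 Z ω') (g : Ω → γ) :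
    cent p (Xc B (i + l) 0 Z) g ≤ e * (l * Real.log B) := by
  have h1 := cent_X_X (show 0 < B by omega) hp (Nat.le_add_right i l) 0 Z
  have h2 := cent_pair_const hp (Xc B (i + l) 0 Z) g (C := Xc B i 0 Z) hV
  have h3 : cent p (Xc B (i + l) 0 Z) (fun ω => (g ω, Xc B i 0 Z ω)) ≤
      cent p (Xc B (i + l) 0 Z) (Xc B i 0 Z) := cent_anti hp _ (Det.snd (Det.refl _))
  have h4 : i + l - i = l := by omega
  rw [h4] at h1
  linarith

private theorem kl_avg {H : Type} [Fintype H] {σ : H → ℝ} (hσ : IsPr σ) {c : H → ℝ} {t D δ : ℝ}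
    (hD : 0 ≤ D) (ht : 0 ≤ t) (hc : ∀ h, c h ≤ D) (hpr : pr σ (fun h => t ≤ c h) ≤ δ) :
    ∑ h, σ h * c h ≤ t + δ * D := by
  classical
  have h1 : ∀ h, σ h * c h ≤ σ h * t + (if t ≤ c h then σ h else 0) * D := by
    intro h
    have h0 := hσ.nonneg h
    by_cases h2 : t ≤ c h
    · rw [if_pos h2]
      have := mul_le_mul_of_nonneg_left (hc h) h0
      have := mul_nonneg h0 ht
      linarith
    · rw [if_neg h2, zero_mul, add_zero]
      exact mul_le_mul_of_nonneg_left (not_le.1 h2).le h0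
  refine (Finset.sum_le_sum fun h _ => h1 h).trans ?_
  rw [Finset.sum_add_distrib, ← Finset.sum_mul, ← Finset.sum_mul, hσ.sum_eq, one_mul]
  have h3 : (∑ h, if t ≤ c h then σ h else 0) = pr σ (fun h => t ≤ c h) := by
    unfold pr
    exact Finset.sum_congr rfl fun h _ => by congr
  rw [h3]
  have := mul_le_mul_of_nonneg_right hpr hD
  linarith

/-- the bound on the good part of a node -/
private theorem kl_good {B d e : ℕ} (hB : 2 ≤ B) {A C1 : ℝ} (hA : 0 ≤ A) (hC1 : 0 ≤ C1) {α δ : ℝ}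
    (hα : 0 < α) {i l : ℕ} {H : Type} [Fintype H] {σ s : H → ℝ} (hσ : IsPr σ)
    (hs : ∀ h, |s h| ≤ 1) {Ω : Type} [Fintype Ω] {p : Ω → ℝ} (hp : IsPr p)
    {Z : Ω → Fin e → ℝ} {Y : Ω → Co d → ℝ}
    (hmain : ∀ Y' : Ω → Co d → ℝ, IsSys B d (C1 * A) i p Y' →
      pr σ (fun h => α * l * Real.log B ≤ cent p (Wc B (i + l) Y')
          (Xc B (i + l) 0 (fun ω r => Y' ω (Sum.inl r) + s h * Y' ω (Sum.inr r)))) ≤ δ)
    (hw : ∀ r : Fin d, ∃ e' : Fin e, ∀ ω, Y ω (Sum.inr r) = Z ω e')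
    (hL : ∀ ω ω' c, ∀ t : ℝ, (∀ r, |Z ω r - Z ω' r| ≤ t) → |Y ω c - Y ω' c| ≤ C1 * t)
    (hV : ∀ ω ω', p ω ≠ 0 → p ω' ≠ 0 → Xc B i 0 Z ω = Xc B i 0 Z ω')
    (hG : ∀ k, i ≤ k → k ≤ i + l → ∀ ω ω', p ω ≠ 0 → p ω' ≠ 0 → Wc B k Y ω = Wc B k Y ω' →
      ∀ r, |Z ω r - Z ω' r| ≤ A * ((B : ℝ) ^ k)⁻¹) :
    ∑ h, σ h * cent p (Xc B (i + l) 0 Z)
        (Xc B (i + l) 0 (fun ω r => Y ω (Sum.inl r) + s h * Y ω (Sum.inr r))) ≤
      e * Real.log (2 * A + 5) + d * Real.log (8 * (C1 * A) + 9) + α * l * Real.log B +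
        δ * (d * (l * Real.log B)) := by
  have hB0 : 0 < B := by omega
  have hB1 : (1 : ℝ) ≤ B := by exact_mod_cast (show 1 ≤ B by omega)
  have hlogB : 0 ≤ Real.log B := Real.log_nonneg hB1
  obtain ⟨E, hE, hE'⟩ := kl_rep hp (Wc B (i + l) Y)
  obtain ⟨Y', hY'⟩ : ∃ Y' : Ω → Co d → ℝ, Y' = fun ω => Y (E ω) := ⟨_, rfl⟩
  have hWW : ∀ k ω, Wc B k Y' ω = Wc B k Y (E ω) := fun k ω => by rw [hY']; rfl
  have hsys : IsSys B d (C1 * A) i p Y' := by
    refine ⟨hp, ?_, ?_⟩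
    · intro ω ω' h h'
      have h1 := hV (E ω) (E ω') (hE ω h).1 (hE ω' h').1
      funext r
      obtain ⟨e', he'⟩ := hw r
      have h2 := congrFun h1 e'
      rw [hWW, hWW]
      simp only [Wc, Xc, Pi.zero_apply, add_zero] at h2 ⊢
      rw [he', he']
      exact h2
    · intro k hk ω ω' h h' hW c
      have hBk : (0 : ℝ) < (B : ℝ) ^ k := by positivity
      rcases le_or_gt k (i + l) with h1 | h1
      · rw [hWW, hWW] at hW
        have h2 := hG k hk h1 (E ω) (E ω') (hE ω h).1 (hE ω' h').1 hW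
        have h3 := hL (E ω) (E ω') c _ h2
        rw [hY', mul_assoc]
        exact h3
      · have h2 : Wc B (i + l) Y' ω = Wc B (i + l) Y' ω' := Wc_nest hB0 h1.le Y' ω ω' h h' hW
        rw [hWW, hWW, (hE ω h).2, (hE ω' h').2] at h2
        have h3 := hE' ω ω' h2
        rw [hY']
        simp only [h3, sub_self, abs_zero]
        positivity
  have h1 : ∀ h, cent p (Xc B (i + l) 0 Z) (Xc B (i + l) 0 (klx (s h) Y)) ≤
      e * Real.log (2 * A + 5) + d * Real.log (8 * (C1 * A) + 9) +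
        cent p (Wc B (i + l) Y') (Xc B (i + l) 0 (klx (s h) Y')) := by
    intro h
    have a1 := kl_VW hB hA hp (Z := Z) (W := Wc B (i + l) Y) (n := i + l)
      (hG (i + l) (Nat.le_add_right i l) le_rfl)
    have a2 : ∀ ω, p ω ≠ 0 → ∀ r, |klx (s h) Y ω r - klx (s h) Y' ω r| ≤
        2 * (C1 * A) * ((B : ℝ) ^ (i + l))⁻¹ := by
      intro ω hω r
      obtain ⟨b1, b2⟩ := hE ω hω
      have b3 := hG (i + l) (Nat.le_add_right i l) le_rfl ω (E ω) hω b1 b2.symm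
      have b4 := hL ω (E ω) (Sum.inl r) _ b3
      have b5 := hL ω (E ω) (Sum.inr r) _ b3
      have b6 : klx (s h) Y ω r - klx (s h) Y' ω r = (Y ω (Sum.inl r) - Y (E ω) (Sum.inl r)) +
          s h * (Y ω (Sum.inr r) - Y (E ω) (Sum.inr r)) := by
        rw [hY']
        simp only [klx]
        ring
      rw [b6]
      refine (abs_add_le _ _).trans ?_
      rw [abs_mul]
      have b7 : |s h| * |Y ω (Sum.inr r) - Y (E ω) (Sum.inr r)| ≤
          1 * (C1 * (A * ((B : ℝ) ^ (i + l))⁻¹)) :=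
        mul_le_mul (hs h) b5 (abs_nonneg _) zero_le_one
      linarith
    have a3 := kl_XX hB (mul_nonneg hC1 hA) hp (Wc B (i + l) Y) a2
    have a4 : cent p (Wc B (i + l) Y) (Xc B (i + l) 0 (klx (s h) Y')) =
        cent p (Wc B (i + l) Y') (Xc B (i + l) 0 (klx (s h) Y')) := by
      refine cent_congr hp (Det.refl _) (Det.refl _) (Det.fst ?_) (Det.fst ?_)
      · intro ω ω' hω hω' hh
        rw [hWW, hWW, (hE ω hω).2, (hE ω' hω').2]
        exact hh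
      · intro ω ω' hω hω' hh
        rw [hWW, hWW, (hE ω hω).2, (hE ω' hω').2] at hh
        exact hh
    have a5 : cent p (Xc B (i + l) 0 Z) (Xc B (i + l) 0 (klx (s h) Y)) ≤
        cent p (fun ω => (Wc B (i + l) Y ω, Xc B (i + l) 0 Z ω)) (Xc B (i + l) 0 (klx (s h) Y)) :=
      cent_mono hp (Det.fst (Det.snd (Det.refl _))) (Det.refl _)
    have a6 := cent_chain hp (Wc B (i + l) Y) (Xc B (i + l) 0 Z) (Xc B (i + l) 0 (klx (s h) Y))
    have a7 : cent p (Xc B (i + l) 0 Z)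
        (fun ω => (Wc B (i + l) Y ω, Xc B (i + l) 0 (klx (s h) Y) ω)) ≤
        cent p (Xc B (i + l) 0 Z) (Wc B (i + l) Y) := cent_anti hp _ (Det.fst (Det.refl _))
    linarith
  have h2 : ∀ h, cent p (Wc B (i + l) Y') (Xc B (i + l) 0 (klx (s h) Y')) ≤
      d * (l * Real.log B) := by
    intro h
    have c1 := cent_W_W hB0 hp (Nat.le_add_right i l) Y'
    have c2 := cent_pair_const hp (Wc B (i + l) Y') (Xc B (i + l) 0 (klx (s h) Y'))
      (C := Wc B i Y') hsys.base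
    have c3 : cent p (Wc B (i + l) Y') (fun ω => (Xc B (i + l) 0 (klx (s h) Y') ω, Wc B i Y' ω)) ≤
        cent p (Wc B (i + l) Y') (Wc B i Y') := cent_anti hp _ (Det.snd (Det.refl _))
    have c4 : i + l - i = l := by omega
    rw [c4] at c1
    linarith
  have h3 := kl_avg hσ (by positivity) (by positivity) h2 (hmain Y' hsys)
  have h4 : ∑ h, σ h * cent p (Xc B (i + l) 0 Z) (Xc B (i + l) 0 (klx (s h) Y)) ≤
      ∑ h, σ h * (e * Real.log (2 * A + 5) + d * Real.log (8 * (C1 * A) + 9) +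
        cent p (Wc B (i + l) Y') (Xc B (i + l) 0 (klx (s h) Y'))) :=
    Finset.sum_le_sum fun h _ => mul_le_mul_of_nonneg_left (h1 h) (hσ.nonneg h)
  refine h4.trans ?_
  simp only [mul_add, Finset.sum_add_distrib]
  rw [← Finset.sum_mul, ← Finset.sum_mul, hσ.sum_eq]
  linarith

/-- one node -/
private theorem kl_node {B d e : ℕ} (hB : 2 ≤ B) {A C1 : ℝ} (hA : 0 ≤ A) (hC1 : 0 ≤ C1) {α δ : ℝ}
    (hα : 0 < α) (hδ : 0 < δ) {i l : ℕ} {H : Type} [Fintype H] {σ s : H → ℝ} (hσ : IsPr σ)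
    (hs : ∀ h, |s h| ≤ 1) {Ω : Type} [Fintype Ω] {p : Ω → ℝ} (hp : IsPr p)
    {Z : Ω → Fin e → ℝ} {Y : Ω → Co d → ℝ}
    (hmain : ∀ (p : Ω → ℝ) (Y' : Ω → Co d → ℝ), IsSys B d (C1 * A) i p Y' →
      pr σ (fun h => α * l * Real.log B ≤ cent p (Wc B (i + l) Y')
          (Xc B (i + l) 0 (fun ω r => Y' ω (Sum.inl r) + s h * Y' ω (Sum.inr r)))) ≤ δ)
    (hw : ∀ r : Fin d, ∃ e' : Fin e, ∀ ω, Y ω (Sum.inr r) = Z ω e')
    (hL : ∀ ω ω' c, ∀ t : ℝ, (∀ r, |Z ω r - Z ω' r| ≤ t) → |Y ω c - Y ω' c| ≤ C1 * t)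
    {ω₀ : Ω} (h0 : p ω₀ ≠ 0) :
    ∑ h, σ h * cent (fib p (Xc B i 0 Z) ω₀) (Xc B (i + l) 0 Z)
        (Xc B (i + l) 0 (fun ω r => Y ω (Sum.inl r) + s h * Y ω (Sum.inr r))) ≤
      Real.log 2 + (e * Real.log (2 * A + 5) + d * Real.log (8 * (C1 * A) + 9) +
        α * l * Real.log B + δ * (d * (l * Real.log B))) +
        pr (fib p (Xc B i 0 Z) ω₀) (fun ω => ¬ Good B A p Z Y i l ω) * (e * (l * Real.log B)) := by
  classical
  have hB1 : (1 : ℝ) ≤ B := by exact_mod_cast (show 1 ≤ B by omega)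
  have hlogB : 0 ≤ Real.log B := Real.log_nonneg hB1
  obtain ⟨q, hq⟩ : ∃ q : Ω → ℝ, q = fib p (Xc B i 0 Z) ω₀ := ⟨_, rfl⟩
  have hqpr : IsPr q := by rw [hq]; exact isPr_fib hp _ _
  have hqne : ∀ ω, q ω ≠ 0 → p ω ≠ 0 ∧ Xc B i 0 Z ω = Xc B i 0 Z ω₀ := by
    intro ω hω
    rw [hq] at hω
    exact fib_ne_zero h0 hω
  rw [← hq]
  obtain ⟨T, hT⟩ : ∃ T : ℝ, T = e * Real.log (2 * A + 5) + d * Real.log (8 * (C1 * A) + 9) +
    α * l * Real.log B + δ * (d * (l * Real.log B)) := ⟨_, rfl⟩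
  have hT0 : 0 ≤ T := by
    have hCA := mul_nonneg hC1 hA
    have l1 : 0 ≤ Real.log (2 * A + 5) := Real.log_nonneg (by linarith)
    have l2 : 0 ≤ Real.log (8 * (C1 * A) + 9) := Real.log_nonneg (by linarith)
    rw [hT]
    positivity
  rw [← hT]
  obtain ⟨G, hG⟩ : ∃ G : Ω → Prop, G = Good B A p Z Y i l := ⟨_, rfl⟩
  have hGe : (fun ω => ¬ Good B A p Z Y i l ω) = fun ω => ¬ G ω := by rw [hG]
  rw [hGe]
  -- the indicator
  have h1 : ∀ h, cent q (Xc B (i + l) 0 Z) (Xc B (i + l) 0 (klx (s h) Y)) ≤ Real.log 2 +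
      ∑ ω, q ω * cent (fib q G ω) (Xc B (i + l) 0 Z) (Xc B (i + l) 0 (klx (s h) Y)) := by
    intro h
    rw [← cent_eq_fib2 hqpr (Xc B (i + l) 0 Z) (Xc B (i + l) 0 (klx (s h) Y)) G]
    have a1 : cent q (Xc B (i + l) 0 Z) (Xc B (i + l) 0 (klx (s h) Y)) ≤
        cent q (fun ω => (G ω, Xc B (i + l) 0 Z ω)) (Xc B (i + l) 0 (klx (s h) Y)) :=
      cent_mono hqpr (Det.fst (Det.snd (Det.refl _))) (Det.refl _)
    have a2 := cent_chain hqpr G (Xc B (i + l) 0 Z) (Xc B (i + l) 0 (klx (s h) Y))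
    have a3 : cent q (Xc B (i + l) 0 Z) (fun ω => (G ω, Xc B (i + l) 0 (klx (s h) Y) ω)) ≤
        cent q (Xc B (i + l) 0 Z) (fun ω => (Xc B (i + l) 0 (klx (s h) Y) ω, G ω)) :=
      cent_anti hqpr _ (Det.pair (Det.snd (Det.refl _)) (Det.fst (Det.refl _)))
    have a4 := cent_le_ent hqpr G (Xc B (i + l) 0 (klx (s h) Y))
    have a5 := ent_le_log_card' hqpr G
    rw [Fintype.card_prop] at a5
    push_cast at a5
    linarith
  -- the conditioned weights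
  have h2 : ∀ ω, q ω ≠ 0 → G ω → ∑ h, σ h * cent (fib q G ω) (Xc B (i + l) 0 Z)
      (Xc B (i + l) 0 (klx (s h) Y)) ≤ T := by
    intro ω hω hGω
    have b0 : ∀ ω', fib q G ω ω' ≠ 0 →
        p ω' ≠ 0 ∧ Xc B i 0 Z ω' = Xc B i 0 Z ω₀ ∧ Good B A p Z Y i l ω' := by
      intro ω' h
      obtain ⟨b1, b2⟩ := fib_ne_zero hω h
      obtain ⟨b3, b4⟩ := hqne ω' b1
      refine ⟨b3, b4, ?_⟩
      rw [← hG, b2]
      exact hGω
    rw [hT]
    refine kl_good hB hA hC1 hα hσ hs (isPr_fib hqpr _ _) (fun Y' hY' => hmain _ Y' hY') hw hL ?_ ?_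
    · intro ω1 ω2 g1 g2
      rw [(b0 ω1 g1).2.1, (b0 ω2 g2).2.1]
    · intro k hk hk' ω1 ω2 g1 g2 hWW r
      exact (b0 ω1 g1).2.2 k hk hk' ω2 (b0 ω2 g2).1
        ((b0 ω2 g2).2.1.trans (b0 ω1 g1).2.1.symm) hWW.symm r
  have h3 : ∀ ω, q ω ≠ 0 → ∑ h, σ h * cent (fib q G ω) (Xc B (i + l) 0 Z)
      (Xc B (i + l) 0 (klx (s h) Y)) ≤ e * (l * Real.log B) := by
    intro ω hω
    have b1 : ∀ h, cent (fib q G ω) (Xc B (i + l) 0 Z) (Xc B (i + l) 0 (klx (s h) Y)) ≤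
        e * (l * Real.log B) := by
      intro h
      refine kl_triv hB (isPr_fib hqpr _ _) ?_ _
      intro ω1 ω2 g1 g2
      rw [(hqne ω1 (fib_ne_zero hω g1).1).2, (hqne ω2 (fib_ne_zero hω g2).1).2]
    refine (Finset.sum_le_sum fun h _ => mul_le_mul_of_nonneg_left (b1 h) (hσ.nonneg h)).trans ?_
    rw [← Finset.sum_mul, hσ.sum_eq, one_mul]
  -- sum
  have h4 : ∑ h, σ h * cent q (Xc B (i + l) 0 Z) (Xc B (i + l) 0 (klx (s h) Y)) ≤
      ∑ h, σ h * (Real.log 2 + ∑ ω, q ω * cent (fib q G ω) (Xc B (i + l) 0 Z)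
        (Xc B (i + l) 0 (klx (s h) Y))) :=
    Finset.sum_le_sum fun h _ => mul_le_mul_of_nonneg_left (h1 h) (hσ.nonneg h)
  refine h4.trans ?_
  simp only [mul_add, Finset.sum_add_distrib]
  rw [← Finset.sum_mul, hσ.sum_eq, one_mul]
  have h5 : ∑ h, σ h * ∑ ω, q ω * cent (fib q G ω) (Xc B (i + l) 0 Z)
      (Xc B (i + l) 0 (klx (s h) Y)) =
      ∑ ω, q ω * ∑ h, σ h * cent (fib q G ω) (Xc B (i + l) 0 Z)
      (Xc B (i + l) 0 (klx (s h) Y)) := by
    simp only [Finset.mul_sum]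
    rw [Finset.sum_comm]
    refine Finset.sum_congr rfl fun ω _ => Finset.sum_congr rfl fun h _ => ?_
    ring
  rw [h5]
  have h6 : ∀ ω, q ω * ∑ h, σ h * cent (fib q G ω) (Xc B (i + l) 0 Z)
      (Xc B (i + l) 0 (klx (s h) Y)) ≤
      q ω * T + (if ¬ G ω then q ω else 0) * (e * (l * Real.log B)) := by
    intro ω
    have q0 := hqpr.nonneg ω
    by_cases hω : q ω = 0
    · rw [hω, zero_mul, zero_mul, zero_add]
      split_ifs <;> positivity
    · by_cases hGω : G ω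
      · rw [if_neg (not_not.2 hGω), zero_mul, add_zero]
        exact mul_le_mul_of_nonneg_left (h2 ω hω hGω) q0
      · rw [if_pos hGω]
        have := mul_le_mul_of_nonneg_left (h3 ω hω) q0
        have := mul_nonneg q0 hT0
        linarith
  have h7 := Finset.sum_le_sum fun ω (_ : ω ∈ (univ : Finset Ω)) => h6 ω
  rw [Finset.sum_add_distrib, ← Finset.sum_mul, ← Finset.sum_mul, hqpr.sum_eq, one_mul] at h7
  have h8 : (∑ ω, if ¬ G ω then q ω else 0) = pr q (fun ω => ¬ G ω) := by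
    unfold pr
    exact Finset.sum_congr rfl fun h _ => by congr
  rw [h8] at h7
  linarith

/-- one block of levels -/
private theorem kl_block {B d e : ℕ} (hB : 2 ≤ B) {A C1 : ℝ} (hA : 0 ≤ A) (hC1 : 0 ≤ C1)
    {α δ : ℝ} (hα : 0 < α) (hδ : 0 < δ) {i l : ℕ} {H : Type} [Fintype H] {σ s : H → ℝ}
    (hσ : IsPr σ) (hs : ∀ h, |s h| ≤ 1) {Ω : Type} [Fintype Ω] {p : Ω → ℝ} (hp : IsPr p)
    {Z : Ω → Fin e → ℝ} {Y : Ω → Co d → ℝ}
    (hmain : ∀ (p : Ω → ℝ) (Y' : Ω → Co d → ℝ), IsSys B d (C1 * A) i p Y' →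
      pr σ (fun h => α * l * Real.log B ≤ cent p (Wc B (i + l) Y')
          (Xc B (i + l) 0 (fun ω r => Y' ω (Sum.inl r) + s h * Y' ω (Sum.inr r)))) ≤ δ)
    (hw : ∀ r : Fin d, ∃ e' : Fin e, ∀ ω, Y ω (Sum.inr r) = Z ω e')
    (hL : ∀ ω ω' c, ∀ t : ℝ, (∀ r, |Z ω r - Z ω' r| ≤ t) → |Y ω c - Y ω' c| ≤ C1 * t) :
    ∑ h, σ h * tres p (fun k => Xc B k 0 Z) (fun k => Xc B k 0 (klx (s h) Y)) i (i + l) ≤
      Real.log 2 + (e * Real.log (2 * A + 5) + d * Real.log (8 * (C1 * A) + 9) +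
        α * l * Real.log B + δ * (d * (l * Real.log B))) +
        pr p (fun ω => ¬ Good B A p Z Y i l ω) * (e * (l * Real.log B)) := by
  have h1 : ∀ h, tres p (fun k => Xc B k 0 Z) (fun k => Xc B k 0 (klx (s h) Y)) i (i + l) =
      ∑ ω, p ω * cent (fib p (Xc B i 0 Z) ω) (Xc B (i + l) 0 Z)
        (Xc B (i + l) 0 (klx (s h) Y)) := fun h =>
    cent_eq_fib2 hp (Xc B (i + l) 0 Z) (Xc B (i + l) 0 (klx (s h) Y)) (Xc B i 0 Z)
  have h2 : ∑ h, σ h * tres p (fun k => Xc B k 0 Z) (fun k => Xc B k 0 (klx (s h) Y)) i (i + l) =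
      ∑ ω, p ω * ∑ h, σ h * cent (fib p (Xc B i 0 Z) ω) (Xc B (i + l) 0 Z)
        (Xc B (i + l) 0 (klx (s h) Y)) := by
    simp only [h1, Finset.mul_sum]
    rw [Finset.sum_comm]
    refine Finset.sum_congr rfl fun ω _ => Finset.sum_congr rfl fun h _ => ?_
    ring
  rw [h2, pr_eq_fib hp (fun ω => ¬ Good B A p Z Y i l ω) (Xc B i 0 Z)]
  obtain ⟨T, hT⟩ : ∃ T : ℝ, T = Real.log 2 + (e * Real.log (2 * A + 5) +
    d * Real.log (8 * (C1 * A) + 9) + α * l * Real.log B + δ * (d * (l * Real.log B))) := ⟨_, rfl⟩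
  have h3 : ∀ ω, p ω * ∑ h, σ h * cent (fib p (Xc B i 0 Z) ω) (Xc B (i + l) 0 Z)
        (Xc B (i + l) 0 (klx (s h) Y)) ≤ p ω * T +
        p ω * pr (fib p (Xc B i 0 Z) ω) (fun ω => ¬ Good B A p Z Y i l ω) *
          (e * (l * Real.log B)) := by
    intro ω
    by_cases h0 : p ω = 0
    · rw [h0]
      simp
    · have a1 := kl_node hB hA hC1 hα hδ hσ hs hp hmain hw hL h0
      rw [← hT] at a1
      have a2 := mul_le_mul_of_nonneg_left a1 (hp.nonneg ω)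
      linarith
  refine (Finset.sum_le_sum fun ω _ => h3 ω).trans (le_of_eq ?_)
  rw [Finset.sum_add_distrib, ← Finset.sum_mul, ← Finset.sum_mul, hp.sum_eq, one_mul, hT]

/-- telescoping over blocks -/
private theorem kl_tele {Ω : Type} [Fintype Ω] {γ δ : Type*} {p : Ω → ℝ} (hp : IsPr p)
    {W : ℕ → Ω → γ} {X : ℕ → Ω → δ} (hW : Nest p W) (hX : Nest p X) {c : ℝ}
    (hc : ∀ k, cent p (W (k + 1)) (W k) ≤ c) {l M m : ℕ} (hM : M * l ≤ m) :
    tres p W X 0 m ≤ ∑ j ∈ range M, tres p W X (j * l) (j * l + l) + c * (m - (M * l : ℕ)) := by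
  have h1 : ∀ M : ℕ, tres p W X 0 (M * l) ≤ ∑ j ∈ range M, tres p W X (j * l) (j * l + l) := by
    intro M
    induction M with
    | zero => rw [Nat.zero_mul, tres_self hp, Finset.range_zero, Finset.sum_empty]
    | succ M ih =>
      rw [Finset.sum_range_succ, Nat.succ_mul]
      have := tres_sub hp hW hX (Nat.zero_le (M * l)) (Nat.le_add_right (M * l) l)
      linarith
  have h2 := tres_sub hp hW hX (Nat.zero_le (M * l)) hM
  have h3 : tres p W X (M * l) m ≤ c * (m - (M * l : ℕ)) := tdeep_le hp hW hc hM m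
  have h4 := h1 M
  linarith

theorem loc_glob {B d e : ℕ} (hB : 2 ≤ B) (hde : d ≤ e) {A C1 : ℝ} (hA : 0 ≤ A) (hC1 : 0 ≤ C1)
    {φ : ℕ → ℝ} (hφ : Tendsto φ atTop (𝓝 0)) {ε : ℝ} (hε : 0 < ε) :
    ∃ (l : ℕ) (η : ℝ) (m0 : ℕ), 1 ≤ l ∧ 0 < η ∧ ∀ m Q : ℕ, m0 ≤ m → m0 ≤ Q →
      ∀ (H : Type) [Fintype H] (σ s : H → ℝ), IsHts φ Q σ s →
      ∀ (Ω : Type) [Fintype Ω] (p : Ω → ℝ) (Z : Ω → Fin e → ℝ) (Y : Ω → Co d → ℝ), IsPr p →
      (∀ r : Fin d, ∃ e' : Fin e, ∀ ω, Y ω (Sum.inr r) = Z ω e') →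
      (∀ ω ω' c, ∀ t : ℝ, (∀ r, |Z ω r - Z ω' r| ≤ t) → |Y ω c - Y ω' c| ≤ C1 * t) →
      ∑ k ∈ range (m + 1 - l), pr p (fun ω => ¬ Good B A p Z Y k l ω) ≤ η * m →
      ∑ h, σ h * cent p (Xc B m 0 Z)
          (Xc B m 0 (fun ω r => Y ω (Sum.inl r) + s h * Y ω (Sum.inr r))) ≤
        ε * m * Real.log B + ∑ h, σ h * cent p (Xc B 0 0 Z)
          (Xc B 0 0 (fun ω r => Y ω (Sum.inl r) + s h * Y ω (Sum.inr r))) := by
  have hB0 : 0 < B := by omega
  have hB2 : (2 : ℝ) ≤ B := by exact_mod_cast hB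
  have hlogB : 0 < Real.log B := Real.log_pos (by linarith)
  have he0 : (0 : ℝ) ≤ e := Nat.cast_nonneg e
  have hde' : (d : ℝ) ≤ e := by exact_mod_cast hde
  have hα : 0 < ε / 8 := by positivity
  have hδ : 0 < ε / (8 * (e + 1)) := by positivity
  obtain ⟨l0, hl0⟩ := main_form (d := d) hB (mul_nonneg hC1 hA) hφ hα hδ
  obtain ⟨c0, hc0⟩ : ∃ c0 : ℝ, c0 = Real.log 2 + e * Real.log (2 * A + 5) +
    d * Real.log (8 * (C1 * A) + 9) := ⟨_, rfl⟩
  obtain ⟨l1, hl1⟩ := exists_nat_ge (c0 / (ε / 8 * Real.log B))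
  obtain ⟨l, hl⟩ : ∃ l : ℕ, l = max 1 (max l0 l1) := ⟨_, rfl⟩
  have hl_1 : 1 ≤ l := by omega
  have hl_0 : l0 ≤ l := by omega
  have hl_c : c0 ≤ l * (ε / 8 * Real.log B) := by
    rw [div_le_iff₀ (by positivity)] at hl1
    have h1 : (l1 : ℝ) ≤ l := by
      have : l1 ≤ l := by omega
      exact_mod_cast this
    exact hl1.trans (mul_le_mul_of_nonneg_right h1 (by positivity))
  have hlR : (1 : ℝ) ≤ l := by exact_mod_cast hl_1
  have hlR0 : (0 : ℝ) < l := by linarith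
  obtain ⟨m1, hm1⟩ := exists_nat_ge (8 * e * l / ε)
  refine ⟨l, ε / (8 * (e + 1) * l), max l0 m1, hl_1, by positivity, ?_⟩
  intro m Q hm hQ H _ σ s hH Ω _ p Z Y hp hw hL hbad
  have hQ0 : l0 ≤ Q := (le_max_left _ _).trans hQ
  have hmR : 8 * e * l ≤ m * ε := by
    have h1 : (m1 : ℝ) ≤ m := by
      have : m1 ≤ m := (le_max_right _ _).trans hm
      exact_mod_cast this
    rw [div_le_iff₀ hε] at hm1
    exact hm1.trans (mul_le_mul_of_nonneg_right h1 hε.le)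
  have hm0 : (0 : ℝ) ≤ m := Nat.cast_nonneg m
  have hσ := hH.isPr
  obtain ⟨M, hMd⟩ : ∃ M : ℕ, M = m / l := ⟨_, rfl⟩
  have hM : M * l ≤ m := by rw [hMd]; exact Nat.div_mul_le_self m l
  have hMl : m < M * l + l := by
    rw [hMd]
    have := Nat.lt_div_mul_add (a := m) (b := l) (by omega)
    exact this
  have hMR : (M : ℝ) * l ≤ m := by exact_mod_cast hM
  have hMlR : (m : ℝ) ≤ M * l + l := by exact_mod_cast hMl.le
  have hW : Nest p (fun k => Xc B k 0 Z) := nest_X hB0 p 0 Z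
  have hX : ∀ h, Nest p (fun k => Xc B k 0 (klx (s h) Y)) := fun h => nest_X hB0 p 0 _
  have hc : ∀ k, cent p (Xc B (k + 1) 0 Z) (Xc B k 0 Z) ≤ e * Real.log B :=
    fun k => cX_le hB0 hp 0 Z k
  -- the tower step
  have h1 : ∀ h, cent p (Xc B m 0 Z) (Xc B m 0 (klx (s h) Y)) ≤
      cent p (Xc B 0 0 Z) (Xc B 0 0 (klx (s h) Y)) +
      (∑ j ∈ range M, tres p (fun k => Xc B k 0 Z) (fun k => Xc B k 0 (klx (s h) Y))
        (j * l) (j * l + l) + e * Real.log B * (m - (M * l : ℕ))) := by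
    intro h
    have a1 : cent p (Xc B m 0 Z) (Xc B m 0 (klx (s h) Y)) ≤
        cent p (fun ω => (Xc B 0 0 Z ω, Xc B m 0 Z ω)) (Xc B m 0 (klx (s h) Y)) :=
      cent_mono hp (Det.fst (Det.snd (Det.refl _))) (Det.refl _)
    have a2 := cent_chain hp (Xc B 0 0 Z) (Xc B m 0 Z) (Xc B m 0 (klx (s h) Y))
    have a3 : cent p (Xc B 0 0 Z) (Xc B m 0 (klx (s h) Y)) ≤
        cent p (Xc B 0 0 Z) (Xc B 0 0 (klx (s h) Y)) :=
      cent_anti hp _ (Xc_nest hB0 (Nat.zero_le m) 0 _)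
    have a4 : cent p (Xc B m 0 Z) (fun ω => (Xc B 0 0 Z ω, Xc B m 0 (klx (s h) Y) ω)) ≤
        tres p (fun k => Xc B k 0 Z) (fun k => Xc B k 0 (klx (s h) Y)) 0 m := by
      unfold tres tdeep
      exact cent_anti hp _ (Det.pair (Det.snd (Det.refl _)) (Det.fst (Det.refl _)))
    have a5 := kl_tele hp hW (hX h) hc hM
    linarith
  have h2 : ∑ h, σ h * cent p (Xc B m 0 Z) (Xc B m 0 (klx (s h) Y)) ≤
      ∑ h, σ h * cent p (Xc B 0 0 Z) (Xc B 0 0 (klx (s h) Y)) +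
      (∑ j ∈ range M, ∑ h, σ h * tres p (fun k => Xc B k 0 Z)
        (fun k => Xc B k 0 (klx (s h) Y)) (j * l) (j * l + l) +
        e * Real.log B * (m - (M * l : ℕ))) := by
    have a1 := Finset.sum_le_sum fun h (_ : h ∈ (univ : Finset H)) =>
      mul_le_mul_of_nonneg_left (h1 h) (hσ.nonneg h)
    refine a1.trans (le_of_eq ?_)
    simp only [mul_add, Finset.sum_add_distrib]
    congr 1
    rw [← Finset.sum_mul, hσ.sum_eq, one_mul]
    congr 1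
    simp only [Finset.mul_sum]
    rw [Finset.sum_comm]
  obtain ⟨T, hT⟩ : ∃ T : ℝ, T = Real.log 2 + (e * Real.log (2 * A + 5) +
    d * Real.log (8 * (C1 * A) + 9) + ε / 8 * l * Real.log B +
    ε / (8 * (e + 1)) * (d * (l * Real.log B))) := ⟨_, rfl⟩
  have h3 : ∀ i, ∑ h, σ h * tres p (fun k => Xc B k 0 Z)
        (fun k => Xc B k 0 (klx (s h) Y)) i (i + l) ≤
      T + pr p (fun ω => ¬ Good B A p Z Y i l ω) * (e * (l * Real.log B)) := by
    intro i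
    rw [hT]
    exact kl_block hB hA hC1 hα hδ hσ hH.abs_le hp
      (fun p Y' hY' => hl0 l Q hl_0 hQ0 H σ s hH Ω p Y' i hY') hw hL
  have h4 : ∑ j ∈ range M, ∑ h, σ h * tres p (fun k => Xc B k 0 Z)
        (fun k => Xc B k 0 (klx (s h) Y)) (j * l) (j * l + l) ≤
      M * T + (∑ j ∈ range M, pr p (fun ω => ¬ Good B A p Z Y (j * l) l ω)) *
        (e * (l * Real.log B)) := by
    refine (Finset.sum_le_sum fun j _ => h3 (j * l)).trans (le_of_eq ?_)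
    rw [Finset.sum_add_distrib, ← Finset.sum_mul, Finset.sum_const, Finset.card_range,
      nsmul_eq_mul]
  have h5 : ∑ j ∈ range M, pr p (fun ω => ¬ Good B A p Z Y (j * l) l ω) ≤
      ε / (8 * (e + 1) * l) * m := by
    refine le_trans ?_ hbad
    rw [← Finset.sum_image (s := range M) (g := fun j => j * l)
      (f := fun k => pr p (fun ω => ¬ Good B A p Z Y k l ω))
      (fun a _ b _ hab => Nat.eq_of_mul_eq_mul_right (by omega) hab)]
    refine Finset.sum_le_sum_of_subset_of_nonneg ?_ fun k _ _ => pr_nonneg hp _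
    intro k hk
    rw [Finset.mem_image] at hk
    obtain ⟨j, hj, rfl⟩ := hk
    rw [Finset.mem_range] at hj ⊢
    have : (j + 1) * l ≤ M * l := Nat.mul_le_mul_right l hj
    rw [Nat.add_mul, one_mul] at this
    omega
  -- numbers
  have h6 : T ≤ l * (3 * (ε / 8) * Real.log B) := by
    have b1 : ε / (8 * (e + 1)) * (d * (l * Real.log B)) ≤ l * (ε / 8 * Real.log B) := by
      have b2 : ε / (8 * (e + 1)) * d ≤ ε / 8 := by
        rw [div_mul_eq_mul_div, div_le_div_iff₀ (by positivity) (by norm_num)]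
        have : ε * d ≤ ε * (e + 1) := mul_le_mul_of_nonneg_left (by linarith) hε.le
        linarith
      have b3 := mul_le_mul_of_nonneg_right b2 (show 0 ≤ l * Real.log B by positivity)
      linarith
    rw [hT]
    rw [hc0] at hl_c
    linarith
  have h7 : M * T ≤ 3 * (ε / 8) * m * Real.log B := by
    have b1 := mul_le_mul_of_nonneg_left h6 (Nat.cast_nonneg (α := ℝ) M)
    have b2 := mul_le_mul_of_nonneg_right hMR (show 0 ≤ 3 * (ε / 8) * Real.log B by positivity)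
    linarith
  have h8 : (∑ j ∈ range M, pr p (fun ω => ¬ Good B A p Z Y (j * l) l ω)) *
      (e * (l * Real.log B)) ≤ ε / 8 * m * Real.log B := by
    refine (mul_le_mul_of_nonneg_right h5 (by positivity)).trans ?_
    have b1 : ε / (8 * (e + 1) * l) * m * (e * (l * Real.log B)) =
        (e / (e + 1)) * (ε / 8 * m * Real.log B) := by
      field_simp
    rw [b1]
    have b2 : (e : ℝ) / (e + 1) ≤ 1 := by
      rw [div_le_one (by positivity)]
      linarith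
    exact mul_le_of_le_one_left (by positivity) b2
  have h9 : e * Real.log B * (m - (M * l : ℕ)) ≤ ε / 8 * m * Real.log B := by
    push_cast
    have b1 : (m : ℝ) - M * l ≤ l := by linarith
    have b2 := mul_le_mul_of_nonneg_left b1 (show 0 ≤ e * Real.log B by positivity)
    have b3 := mul_le_mul_of_nonneg_right hmR hlogB.le
    linarith
  have h10 : 0 ≤ ε * m * Real.log B := by positivity
  linarith

end STK
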