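import Pool.Agent.Lib.MP_ac5134_an.STK.KNode

/-!
# STK-KRank: labels by rank

`V`, `C` functions on a probability space.  There is an integer label `R` which together with `C`
determines `V` and whose (unconditional) entropy is at most `(1+θ) H(V | C) + c(θ)`: `R` is the rank
of the value of `V` in its class of `C`, in the order of decreasing probability, so `log R` is at most
the conditional information, and `H(R) ≤ (1+θ) E log R + log ζ(1+θ)` (Gibbs).
-/

namespace STK
open Finset RFold Pool.Agent.MPac5134.SD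

private theorem rank_finset {γ : Type*} [DecidableEq γ] : ∀ (n : ℕ) (S : Finset γ), S.card = n →
    ∀ (q : γ → ℝ), (∀ v ∈ S, 0 ≤ q v) → ∃ r : γ → ℕ, (∀ v ∈ S, 1 ≤ r v ∧ r v ≤ n) ∧
      (∀ v ∈ S, ∀ u ∈ S, r v = r u → v = u) ∧ ∀ v ∈ S, (r v : ℝ) * q v ≤ ∑ u ∈ S, q u := by
  intro n
  induction n with
  | zero =>
    intro S hS q _
    rw [Finset.card_eq_zero] at hS
    subst hS
    exact ⟨fun _ => 0, by simp, by simp, by simp⟩
  | succ n ih =>
    intro S hS q hq
    have hne : S.Nonempty := by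
      rw [← Finset.card_pos, hS]
      exact Nat.succ_pos n
    obtain ⟨v0, hv0, hmin⟩ := Finset.exists_min_image S q hne
    obtain ⟨r, hr1, hr2, hr3⟩ := ih (S.erase v0) (by rw [Finset.card_erase_of_mem hv0, hS]; rfl) q
      (fun v hv => hq v (Finset.mem_of_mem_erase hv))
    have hsum : ∑ u ∈ S, q u = q v0 + ∑ u ∈ S.erase v0, q u :=
      (Finset.add_sum_erase S q hv0).symm
    refine ⟨fun v => if v = v0 then n + 1 else r v, ?_, ?_, ?_⟩
    · intro v hv
      by_cases h : v = v0
      · simp only [h, if_true]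
        omega
      · simp only [h, if_false]
        have := hr1 v (Finset.mem_erase.2 ⟨h, hv⟩)
        omega
    · intro v hv u hu
      by_cases h : v = v0
      · by_cases h' : u = v0
        · intro _
          rw [h, h']
        · simp only [h, h', if_true, if_false]
          intro e
          have := hr1 u (Finset.mem_erase.2 ⟨h', hu⟩)
          omega
      · by_cases h' : u = v0
        · simp only [h, h', if_true, if_false]
          intro e
          have := hr1 v (Finset.mem_erase.2 ⟨h, hv⟩)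
          omega
        · simp only [h, h', if_false]
          exact hr2 v (Finset.mem_erase.2 ⟨h, hv⟩) u (Finset.mem_erase.2 ⟨h', hu⟩)
    · intro v hv
      by_cases h : v = v0
      · simp only [h, if_true]
        have h1 := Finset.card_nsmul_le_sum S q (q v0) (fun u hu => hmin u hu)
        rw [hS, nsmul_eq_mul] at h1
        exact h1
      · simp only [h, if_false]
        have h1 := hr3 v (Finset.mem_erase.2 ⟨h, hv⟩)
        have h2 := hq v0 hv0
        linarith

section
variable {Ω : Type*} [Fintype Ω] {γ κ : Type*} {p : Ω → ℝ}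

/-- the rank of the value of `V` in its class of `C` -/
private theorem exists_rank (hp : IsPr p) (V : Ω → γ) (C : Ω → κ) :
    ∃ R : Ω → ℕ, (∀ ω ω', p ω ≠ 0 → p ω' ≠ 0 → C ω = C ω' → R ω = R ω' → V ω = V ω') ∧
      ∀ ω, p ω ≠ 0 → 1 ≤ R ω ∧
        (R ω : ℝ) * law p (fun ω => (V ω, C ω)) (V ω, C ω) ≤ law p C (C ω) := by
  classical
  have hS : ∀ c : κ, ∃ r : γ → ℕ,
      (∀ v ∈ (univ.filter (fun ω => p ω ≠ 0 ∧ C ω = c)).image V, 1 ≤ r v) ∧
      (∀ v ∈ (univ.filter (fun ω => p ω ≠ 0 ∧ C ω = c)).image V,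
        ∀ u ∈ (univ.filter (fun ω => p ω ≠ 0 ∧ C ω = c)).image V, r v = r u → v = u) ∧
      ∀ v ∈ (univ.filter (fun ω => p ω ≠ 0 ∧ C ω = c)).image V,
        (r v : ℝ) * law p (fun ω => (V ω, C ω)) (v, c) ≤ law p C c := by
    intro c
    obtain ⟨r, h1, h2, h3⟩ := rank_finset _ ((univ.filter (fun ω => p ω ≠ 0 ∧ C ω = c)).image V) rfl
      (fun v => law p (fun ω => (V ω, C ω)) (v, c)) (fun v _ => law_nonneg hp _ _)
    refine ⟨r, fun v hv => (h1 v hv).1, h2, fun v hv => (h3 v hv).trans ?_⟩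
    have e : ∀ v, law p (fun ω => (V ω, C ω)) (v, c) =
        ∑ ω, if V ω = v then (if C ω = c then p ω else 0) else 0 := by
      intro v
      unfold law pr
      refine Finset.sum_congr rfl fun ω _ => ?_
      by_cases hV : V ω = v <;> by_cases hC : C ω = c <;> simp [hV, hC]
    have e2 : law p C c = ∑ ω, if C ω = c then p ω else 0 := by
      unfold law pr
      exact Finset.sum_congr rfl fun ω _ => by congr
    simp only [e]
    rw [e2, Finset.sum_comm]
    refine Finset.sum_le_sum fun ω _ => ?_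
    rw [Finset.sum_ite_eq]
    have h0 : 0 ≤ (if C ω = c then p ω else 0) := by
      split_ifs
      · exact hp.nonneg ω
      · exact le_rfl
    split_ifs at h0 ⊢ <;> first | exact le_rfl | exact h0
  choose r hr1 hr2 hr3 using hS
  refine ⟨fun ω => r (C ω) (V ω), ?_, ?_⟩
  · intro ω ω' h h' hC hR
    have m1 : V ω ∈ (univ.filter (fun ω1 => p ω1 ≠ 0 ∧ C ω1 = C ω)).image V :=
      Finset.mem_image_of_mem _ (Finset.mem_filter.2 ⟨mem_univ _, h, rfl⟩)
    have m2 : V ω' ∈ (univ.filter (fun ω1 => p ω1 ≠ 0 ∧ C ω1 = C ω)).image V :=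
      Finset.mem_image_of_mem _ (Finset.mem_filter.2 ⟨mem_univ _, h', hC.symm⟩)
    refine hr2 (C ω) _ m1 _ m2 ?_
    simp only at hR
    rw [hR, hC]
  · intro ω h
    have m1 : V ω ∈ (univ.filter (fun ω1 => p ω1 ≠ 0 ∧ C ω1 = C ω)).image V :=
      Finset.mem_image_of_mem _ (Finset.mem_filter.2 ⟨mem_univ _, h, rfl⟩)
    exact ⟨hr1 _ _ m1, hr3 _ _ m1⟩

end

/-- labels of small entropy -/
theorem exists_label {θ : ℝ} (hθ : 0 < θ) : ∃ c : ℝ, 0 ≤ c ∧
    ∀ (Ω : Type) [Fintype Ω] (γ κ : Type) (p : Ω → ℝ), IsPr p → ∀ (V : Ω → γ) (C : Ω → κ),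
      ∃ R : Ω → ℕ, (∀ ω ω', p ω ≠ 0 → p ω' ≠ 0 → C ω = C ω' → R ω = R ω' → V ω = V ω') ∧
        ent p R ≤ (1 + θ) * cent p V C + c := by
  classical
  have hs : Summable (fun n : ℕ => 1 / (n : ℝ) ^ (1 + θ)) :=
    Real.summable_one_div_nat_rpow.2 (by linarith)
  obtain ⟨Zt, hZ⟩ : ∃ Zt : ℝ, Zt = ∑' n : ℕ, 1 / (n : ℝ) ^ (1 + θ) := ⟨_, rfl⟩
  have hZ1 : 1 ≤ Zt := by
    have h1 := hs.sum_le_tsum {1} (fun n _ => by positivity)
    rw [Finset.sum_singleton] at h1
    rw [hZ]
    simpa using h1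
  have hZ0 : 0 < Zt := by linarith
  refine ⟨Real.log Zt, Real.log_nonneg hZ1, ?_⟩
  intro Ω _ γ κ p hp V C
  obtain ⟨R, hR1, hR2⟩ := exists_rank hp V C
  refine ⟨R, hR1, ?_⟩
  have hRpos : ∀ ω, p ω ≠ 0 → (0 : ℝ) < R ω := fun ω h => by
    exact_mod_cast (hR2 ω h).1
  have h1 := ent_le_gibbs hp R (fun n => 1 / (n : ℝ) ^ (1 + θ) / Zt) (fun ω h => by
      have := hRpos ω h
      positivity) (univ.image R) (fun ω _ => Finset.mem_image_of_mem _ (mem_univ _))
    (fun b _ => by positivity) (by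
      rw [← Finset.sum_div, div_le_one hZ0, hZ]
      exact hs.sum_le_tsum _ (fun n _ => by positivity))
  refine h1.trans ?_
  rw [cent_eq, Finset.mul_sum]
  have h2 : ∀ ω, p ω * (-Real.log (1 / (R ω : ℝ) ^ (1 + θ) / Zt)) ≤
      (1 + θ) * (p ω * (Real.log (law p C (C ω)) -
        Real.log (law p (fun ω => (V ω, C ω)) (V ω, C ω)))) + p ω * Real.log Zt := by
    intro ω
    by_cases h : p ω = 0
    · rw [h]
      simp
    · have hR := hRpos ω h
      have hL := law_pos hp (fun ω => (V ω, C ω)) h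
      have hL2 := law_pos hp C h
      have e : -Real.log (1 / (R ω : ℝ) ^ (1 + θ) / Zt) = (1 + θ) * Real.log (R ω) + Real.log Zt := by
        rw [Real.log_div (by positivity) hZ0.ne', one_div, Real.log_inv, Real.log_rpow hR]
        ring
      have h3 : Real.log (R ω) ≤ Real.log (law p C (C ω)) -
          Real.log (law p (fun ω => (V ω, C ω)) (V ω, C ω)) := by
        have h4 := Real.log_le_log (mul_pos hR hL) (hR2 ω h).2
        rw [Real.log_mul hR.ne' hL.ne'] at h4
        linarith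
      rw [e]
      have h5 := hp.nonneg ω
      have h6 := mul_le_mul_of_nonneg_left h3 (mul_nonneg (by linarith : (0:ℝ) ≤ 1 + θ) h5)
      nlinarith
  refine (Finset.sum_le_sum fun ω _ => h2 ω).trans (le_of_eq ?_)
  rw [Finset.sum_add_distrib, ← Finset.sum_mul, hp.sum_eq, one_mul]

end STK
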