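import Pool.Agent.Lib.MP_ac5134_an.STK.KMainForm
import Pool.Agent.Lib.MP_ac5134_an.STK.KRank

/-!
# STK-KLocE: the entropy inequality for all families

`Z : Ω → ℝ^e` are the data of a point; `V_k = Xc B k 0 Z` their cells of level `k`; `Y = (F, w)` is a
`C1`-Lipschitz function of `Z` and the coordinates of `w` are coordinates of `Z`; `X_k(h)` are the cells of
`F + s_h w`.

`loc_ent`: average over the heights of `H(V_m | X_m(h))` is at most
`∑_{k<m} H(V_{k+1} | V_k, W_{k+1}) + ε m log B` + average of `H(V_0 | X_0(h))`, for EVERY probability weight.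

Proof.  One node `v` (a cell `V_i`), block `i, ..., i+l`.  Labels `λ_k` (`exists_label`) of `V_{k+1}` given the class
`(V_k, W_{k+1})`.  On `Λ = (λ_k) = const` the direction cells determine the `V`-cells (induction on `k`), so `kl_good`
(with `A = 1`) applies to `p_v` conditioned to `Λ`:
`∑ σ h cent_v V_{i+l} X_{i+l} ≤ ent_v Λ + c + α l log B + δ d l log B`.
`ent_v Λ ≤ ∑_k ((1+θ) cent_v V_{k+1} (V_k, W_{k+1}) + c(θ))`.
Sum over the nodes and blocks; base `B^r` makes `c(θ)` negligible.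
-/

namespace STK
open Finset RFold Filter Topology Pool.Agent.MPac5134.SD

/-- the slice at height `s` -/
private abbrev kex {Ω : Type} {d : ℕ} (s : ℝ) (Y : Ω → Co d → ℝ) : Ω → Fin d → ℝ :=
  fun ω r => Y ω (Sum.inl r) + s * Y ω (Sum.inr r)

private theorem ke_rep {Ω : Type} [Fintype Ω] {γ : Type*} {p : Ω → ℝ} (hp : IsPr p) (W : Ω → γ) :
    ∃ E : Ω → Ω, (∀ ω, p ω ≠ 0 → p (E ω) ≠ 0 ∧ W (E ω) = W ω) ∧
      ∀ ω ω', W ω = W ω' → E ω = E ω' := by
  classical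
  obtain ⟨ω0, h0⟩ : ∃ ω, p ω ≠ 0 := by
    by_contra h
    push Not at h
    have := hp.sum_eq
    rw [Finset.sum_eq_zero fun ω _ => h ω] at this
    exact zero_ne_one this
  obtain ⟨rep, hrep⟩ : ∃ rep : γ → Ω, ∀ w, (∃ ω, p ω ≠ 0 ∧ W ω = w) →
      p (rep w) ≠ 0 ∧ W (rep w) = w := by
    refine ⟨fun w => if h : ∃ ω, p ω ≠ 0 ∧ W ω = w then h.choose else ω0, fun w h => ?_⟩
    simp only [dif_pos h]
    exact h.choose_spec
  exact ⟨fun ω => rep (W ω), fun ω hω => hrep (W ω) ⟨ω, hω, rfl⟩,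
    fun ω ω' h => congrArg rep h⟩

/-- data and direction cells on a good set -/
private theorem ke_VW {B e : ℕ} (hB : 2 ≤ B) {A : ℝ} (hA : 0 ≤ A) {Ω : Type} [Fintype Ω]
    {γ : Type*} {p : Ω → ℝ} (hp : IsPr p) {Z : Ω → Fin e → ℝ} {W : Ω → γ} {n : ℕ}
    (hG : ∀ ω ω', p ω ≠ 0 → p ω' ≠ 0 → W ω = W ω' → ∀ r, |Z ω r - Z ω' r| ≤ A * ((B : ℝ) ^ n)⁻¹) :
    cent p (Xc B n 0 Z) W ≤ e * Real.log (2 * A + 5) := by
  have hB0 : 0 < B := by omega
  have h1 := cent_le_diam hp (Xc B n 0 Z) W (⌊A⌋₊ + 1) (fun ω ω' h h' hw r => by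
    have h2 : |(Z ω r + (0 : Fin e → ℝ) r) - (Z ω' r + (0 : Fin e → ℝ) r)| ≤
        A * ((B : ℝ) ^ n)⁻¹ := by
      rw [add_sub_add_right_eq_sub]
      exact hG ω ω' h h' hw r
    have h3 := floor_dist hB0 n h2
    have h4 : (Xc B n 0 Z ω r : ℝ) < (Xc B n 0 Z ω' r + ((⌊A⌋₊ + 1 : ℕ) : ℤ) + 1 : ℤ) := by
      have h5 := Nat.lt_floor_add_one A
      push_cast
      unfold Xc
      linarith
    have h6 : Xc B n 0 Z ω r < Xc B n 0 Z ω' r + ((⌊A⌋₊ + 1 : ℕ) : ℤ) + 1 := by exact_mod_cast h4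
    omega)
  refine h1.trans (mul_le_mul_of_nonneg_left ?_ (Nat.cast_nonneg e))
  refine Real.log_le_log (by positivity) ?_
  have h7 := Nat.floor_le hA
  push_cast
  linarith

/-- changing `Y` by `O(B^(-n))` -/
private theorem ke_XX {B d : ℕ} (hB : 2 ≤ B) {C : ℝ} (hC : 0 ≤ C) {Ω : Type} [Fintype Ω]
    {α : Type*} {p : Ω → ℝ} (hp : IsPr p) {x x' : Ω → Fin d → ℝ} (W : Ω → α) {n : ℕ}
    (hx : ∀ ω, p ω ≠ 0 → ∀ r, |x ω r - x' ω r| ≤ 2 * C * ((B : ℝ) ^ n)⁻¹) :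
    cent p W (Xc B n 0 x) ≤ cent p W (Xc B n 0 x') + d * Real.log (8 * C + 9) := by
  have hB0 : 0 < B := by omega
  have hBn : (0 : ℝ) < (B : ℝ) ^ n := by
    have : (0 : ℝ) < B := by exact_mod_cast hB0
    positivity
  have h1 : cent p (Xc B n 0 x') (Xc B n 0 x) ≤ d * Real.log (8 * C + 9) := by
    have h1 := cent_le_diam hp (Xc B n 0 x') (Xc B n 0 x) (⌊4 * C⌋₊ + 2) (fun ω ω' h h' hw r => by
      have h2 := abs_le.1 (hx ω h r)
      have h3 := abs_le.1 (hx ω' h' r)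
      have h4 : ⌊(B : ℝ) ^ n * (x ω r + (0 : Fin d → ℝ) r)⌋ =
          ⌊(B : ℝ) ^ n * (x ω' r + (0 : Fin d → ℝ) r)⌋ := congrFun hw r
      have h5 := Int.abs_sub_lt_one_of_floor_eq_floor h4
      rw [← mul_sub, abs_mul, abs_of_pos hBn, add_sub_add_right_eq_sub] at h5
      have h5' : |x ω r - x ω' r| ≤ ((B : ℝ) ^ n)⁻¹ := by
        rw [← one_div, le_div_iff₀ hBn, mul_comm]
        exact h5.le
      have h6 := abs_le.1 h5'
      have h7 : |(x' ω r + (0 : Fin d → ℝ) r) - (x' ω' r + (0 : Fin d → ℝ) r)| ≤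
          (4 * C + 1) * ((B : ℝ) ^ n)⁻¹ := by
        rw [add_sub_add_right_eq_sub, abs_le]
        constructor <;> nlinarith [h2.1, h2.2, h3.1, h3.2, h6.1, h6.2]
      have h8 := floor_dist hB0 n h7
      have h4 : (Xc B n 0 x' ω r : ℝ) < (Xc B n 0 x' ω' r + ((⌊4 * C⌋₊ + 2 : ℕ) : ℤ) + 1 : ℤ) := by
        have h5 := Nat.lt_floor_add_one (4 * C)
        push_cast
        unfold Xc
        linarith
      have h6 : Xc B n 0 x' ω r < Xc B n 0 x' ω' r + ((⌊4 * C⌋₊ + 2 : ℕ) : ℤ) + 1 := by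
        exact_mod_cast h4
      omega)
    refine h1.trans (mul_le_mul_of_nonneg_left ?_ (Nat.cast_nonneg d))
    refine Real.log_le_log (by positivity) ?_
    have h7 := Nat.floor_le (show 0 ≤ 4 * C by positivity)
    push_cast
    linarith
  have h2 : cent p W (Xc B n 0 x) ≤ cent p (fun ω => (Xc B n 0 x' ω, W ω)) (Xc B n 0 x) :=
    cent_mono hp (Det.fst (Det.snd (Det.refl _))) (Det.refl _)
  have h3 := cent_chain hp (Xc B n 0 x') W (Xc B n 0 x)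
  have h4 : cent p W (fun ω => (Xc B n 0 x' ω, Xc B n 0 x ω)) ≤ cent p W (Xc B n 0 x') :=
    cent_anti hp _ (Det.fst (Det.refl _))
  linarith

/-- the trivial bound at a node -/
private theorem ke_triv {B e : ℕ} (hB : 2 ≤ B) {Ω : Type} [Fintype Ω] {γ : Type*} {p : Ω → ℝ}
    (hp : IsPr p) {Z : Ω → Fin e → ℝ} {i l : ℕ}
    (hV : ∀ ω ω', p ω ≠ 0 → p ω' ≠ 0 → Xc B i 0 Z ω = Xc B i 0 Z ω') (g : Ω → γ) :
    cent p (Xc B (i + l) 0 Z) g ≤ e * (l * Real.log B) := by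
  have h1 := cent_X_X (show 0 < B by omega) hp (Nat.le_add_right i l) 0 Z
  have h2 := cent_pair_const hp (Xc B (i + l) 0 Z) g (C := Xc B i 0 Z) hV
  have h3 : cent p (Xc B (i + l) 0 Z) (fun ω => (g ω, Xc B i 0 Z ω)) ≤
      cent p (Xc B (i + l) 0 Z) (Xc B i 0 Z) := cent_anti hp _ (Det.snd (Det.refl _))
  have h4 : i + l - i = l := by omega
  rw [h4] at h1
  linarith

private theorem ke_avg {H : Type} [Fintype H] {σ : H → ℝ} (hσ : IsPr σ) {c : H → ℝ} {t D δ : ℝ}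
    (hD : 0 ≤ D) (ht : 0 ≤ t) (hc : ∀ h, c h ≤ D) (hpr : pr σ (fun h => t ≤ c h) ≤ δ) :
    ∑ h, σ h * c h ≤ t + δ * D := by
  classical
  have h1 : ∀ h, σ h * c h ≤ σ h * t + (if t ≤ c h then σ h else 0) * D := by
    intro h
    have h0 := hσ.nonneg h
    by_cases h2 : t ≤ c h
    · rw [if_pos h2]
      have := mul_le_mul_of_nonneg_left (hc h) h0
      have := mul_nonneg h0 ht
      linarith
    · rw [if_neg h2, zero_mul, add_zero]
      exact mul_le_mul_of_nonneg_left (not_le.1 h2).le h0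
  refine (Finset.sum_le_sum fun h _ => h1 h).trans ?_
  rw [Finset.sum_add_distrib, ← Finset.sum_mul, ← Finset.sum_mul, hσ.sum_eq, one_mul]
  have h3 : (∑ h, if t ≤ c h then σ h else 0) = pr σ (fun h => t ≤ c h) := by
    unfold pr
    exact Finset.sum_congr rfl fun h _ => by congr
  rw [h3]
  have := mul_le_mul_of_nonneg_right hpr hD
  linarith

/-- the bound on the good part of a node -/
private theorem ke_good {B d e : ℕ} (hB : 2 ≤ B) {A C1 : ℝ} (hA : 0 ≤ A) (hC1 : 0 ≤ C1) {α δ : ℝ}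
    (hα : 0 < α) {i l : ℕ} {H : Type} [Fintype H] {σ s : H → ℝ} (hσ : IsPr σ)
    (hs : ∀ h, |s h| ≤ 1) {Ω : Type} [Fintype Ω] {p : Ω → ℝ} (hp : IsPr p)
    {Z : Ω → Fin e → ℝ} {Y : Ω → Co d → ℝ}
    (hmain : ∀ Y' : Ω → Co d → ℝ, IsSys B d (C1 * A) i p Y' →
      pr σ (fun h => α * l * Real.log B ≤ cent p (Wc B (i + l) Y')
          (Xc B (i + l) 0 (fun ω r => Y' ω (Sum.inl r) + s h * Y' ω (Sum.inr r)))) ≤ δ)
    (hw : ∀ r : Fin d, ∃ e' : Fin e, ∀ ω, Y ω (Sum.inr r) = Z ω e')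
    (hL : ∀ ω ω' c, ∀ t : ℝ, (∀ r, |Z ω r - Z ω' r| ≤ t) → |Y ω c - Y ω' c| ≤ C1 * t)
    (hV : ∀ ω ω', p ω ≠ 0 → p ω' ≠ 0 → Xc B i 0 Z ω = Xc B i 0 Z ω')
    (hG : ∀ k, i ≤ k → k ≤ i + l → ∀ ω ω', p ω ≠ 0 → p ω' ≠ 0 → Wc B k Y ω = Wc B k Y ω' →
      ∀ r, |Z ω r - Z ω' r| ≤ A * ((B : ℝ) ^ k)⁻¹) :
    ∑ h, σ h * cent p (Xc B (i + l) 0 Z)
        (Xc B (i + l) 0 (fun ω r => Y ω (Sum.inl r) + s h * Y ω (Sum.inr r))) ≤
      e * Real.log (2 * A + 5) + d * Real.log (8 * (C1 * A) + 9) + α * l * Real.log B +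
        δ * (d * (l * Real.log B)) := by
  have hB0 : 0 < B := by omega
  have hB1 : (1 : ℝ) ≤ B := by exact_mod_cast (show 1 ≤ B by omega)
  have hlogB : 0 ≤ Real.log B := Real.log_nonneg hB1
  obtain ⟨E, hE, hE'⟩ := ke_rep hp (Wc B (i + l) Y)
  obtain ⟨Y', hY'⟩ : ∃ Y' : Ω → Co d → ℝ, Y' = fun ω => Y (E ω) := ⟨_, rfl⟩
  have hWW : ∀ k ω, Wc B k Y' ω = Wc B k Y (E ω) := fun k ω => by rw [hY']; rfl
  have hsys : IsSys B d (C1 * A) i p Y' := by
    refine ⟨hp, ?_, ?_⟩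
    · intro ω ω' h h'
      have h1 := hV (E ω) (E ω') (hE ω h).1 (hE ω' h').1
      funext r
      obtain ⟨e', he'⟩ := hw r
      have h2 := congrFun h1 e'
      rw [hWW, hWW]
      simp only [Wc, Xc, Pi.zero_apply, add_zero] at h2 ⊢
      rw [he', he']
      exact h2
    · intro k hk ω ω' h h' hW c
      have hBk : (0 : ℝ) < (B : ℝ) ^ k := by positivity
      rcases le_or_gt k (i + l) with h1 | h1
      · rw [hWW, hWW] at hW
        have h2 := hG k hk h1 (E ω) (E ω') (hE ω h).1 (hE ω' h').1 hW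
        have h3 := hL (E ω) (E ω') c _ h2
        rw [hY', mul_assoc]
        exact h3
      · have h2 : Wc B (i + l) Y' ω = Wc B (i + l) Y' ω' := Wc_nest hB0 h1.le Y' ω ω' h h' hW
        rw [hWW, hWW, (hE ω h).2, (hE ω' h').2] at h2
        have h3 := hE' ω ω' h2
        rw [hY']
        simp only [h3, sub_self, abs_zero]
        positivity
  have h1 : ∀ h, cent p (Xc B (i + l) 0 Z) (Xc B (i + l) 0 (kex (s h) Y)) ≤
      e * Real.log (2 * A + 5) + d * Real.log (8 * (C1 * A) + 9) +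
        cent p (Wc B (i + l) Y') (Xc B (i + l) 0 (kex (s h) Y')) := by
    intro h
    have a1 := ke_VW hB hA hp (Z := Z) (W := Wc B (i + l) Y) (n := i + l)
      (hG (i + l) (Nat.le_add_right i l) le_rfl)
    have a2 : ∀ ω, p ω ≠ 0 → ∀ r, |kex (s h) Y ω r - kex (s h) Y' ω r| ≤
        2 * (C1 * A) * ((B : ℝ) ^ (i + l))⁻¹ := by
      intro ω hω r
      obtain ⟨b1, b2⟩ := hE ω hω
      have b3 := hG (i + l) (Nat.le_add_right i l) le_rfl ω (E ω) hω b1 b2.symm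
      have b4 := hL ω (E ω) (Sum.inl r) _ b3
      have b5 := hL ω (E ω) (Sum.inr r) _ b3
      have b6 : kex (s h) Y ω r - kex (s h) Y' ω r = (Y ω (Sum.inl r) - Y (E ω) (Sum.inl r)) +
          s h * (Y ω (Sum.inr r) - Y (E ω) (Sum.inr r)) := by
        rw [hY']
        simp only [kex]
        ring
      rw [b6]
      refine (abs_add_le _ _).trans ?_
      rw [abs_mul]
      have b7 : |s h| * |Y ω (Sum.inr r) - Y (E ω) (Sum.inr r)| ≤
          1 * (C1 * (A * ((B : ℝ) ^ (i + l))⁻¹)) :=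
        mul_le_mul (hs h) b5 (abs_nonneg _) zero_le_one
      linarith
    have a3 := ke_XX hB (mul_nonneg hC1 hA) hp (Wc B (i + l) Y) a2
    have a4 : cent p (Wc B (i + l) Y) (Xc B (i + l) 0 (kex (s h) Y')) =
        cent p (Wc B (i + l) Y') (Xc B (i + l) 0 (kex (s h) Y')) := by
      refine cent_congr hp (Det.refl _) (Det.refl _) (Det.fst ?_) (Det.fst ?_)
      · intro ω ω' hω hω' hh
        rw [hWW, hWW, (hE ω hω).2, (hE ω' hω').2]
        exact hh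
      · intro ω ω' hω hω' hh
        rw [hWW, hWW, (hE ω hω).2, (hE ω' hω').2] at hh
        exact hh
    have a5 : cent p (Xc B (i + l) 0 Z) (Xc B (i + l) 0 (kex (s h) Y)) ≤
        cent p (fun ω => (Wc B (i + l) Y ω, Xc B (i + l) 0 Z ω)) (Xc B (i + l) 0 (kex (s h) Y)) :=
      cent_mono hp (Det.fst (Det.snd (Det.refl _))) (Det.refl _)
    have a6 := cent_chain hp (Wc B (i + l) Y) (Xc B (i + l) 0 Z) (Xc B (i + l) 0 (kex (s h) Y))
    have a7 : cent p (Xc B (i + l) 0 Z)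
        (fun ω => (Wc B (i + l) Y ω, Xc B (i + l) 0 (kex (s h) Y) ω)) ≤
        cent p (Xc B (i + l) 0 Z) (Wc B (i + l) Y) := cent_anti hp _ (Det.fst (Det.refl _))
    linarith
  have h2 : ∀ h, cent p (Wc B (i + l) Y') (Xc B (i + l) 0 (kex (s h) Y')) ≤
      d * (l * Real.log B) := by
    intro h
    have c1 := cent_W_W hB0 hp (Nat.le_add_right i l) Y'
    have c2 := cent_pair_const hp (Wc B (i + l) Y') (Xc B (i + l) 0 (kex (s h) Y'))
      (C := Wc B i Y') hsys.base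
    have c3 : cent p (Wc B (i + l) Y') (fun ω => (Xc B (i + l) 0 (kex (s h) Y') ω, Wc B i Y' ω)) ≤
        cent p (Wc B (i + l) Y') (Wc B i Y') := cent_anti hp _ (Det.snd (Det.refl _))
    have c4 : i + l - i = l := by omega
    rw [c4] at c1
    linarith
  have h3 := ke_avg hσ (by positivity) (by positivity) h2 (hmain Y' hsys)
  have h4 : ∑ h, σ h * cent p (Xc B (i + l) 0 Z) (Xc B (i + l) 0 (kex (s h) Y)) ≤
      ∑ h, σ h * (e * Real.log (2 * A + 5) + d * Real.log (8 * (C1 * A) + 9) +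
        cent p (Wc B (i + l) Y') (Xc B (i + l) 0 (kex (s h) Y'))) :=
    Finset.sum_le_sum fun h _ => mul_le_mul_of_nonneg_left (h1 h) (hσ.nonneg h)
  refine h4.trans ?_
  simp only [mul_add, Finset.sum_add_distrib]
  rw [← Finset.sum_mul, ← Finset.sum_mul, hσ.sum_eq]
  linarith

/-- telescoping over blocks -/
private theorem ke_tele {Ω : Type} [Fintype Ω] {γ δ : Type*} {p : Ω → ℝ} (hp : IsPr p)
    {W : ℕ → Ω → γ} {X : ℕ → Ω → δ} (hW : Nest p W) (hX : Nest p X) {c : ℝ}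
    (hc : ∀ k, cent p (W (k + 1)) (W k) ≤ c) {l M m : ℕ} (hM : M * l ≤ m) :
    tres p W X 0 m ≤ ∑ j ∈ range M, tres p W X (j * l) (j * l + l) + c * (m - (M * l : ℕ)) := by
  have h1 : ∀ M : ℕ, tres p W X 0 (M * l) ≤ ∑ j ∈ range M, tres p W X (j * l) (j * l + l) := by
    intro M
    induction M with
    | zero => rw [Nat.zero_mul, tres_self hp, Finset.range_zero, Finset.sum_empty]
    | succ M ih =>
      rw [Finset.sum_range_succ, Nat.succ_mul]
      have := tres_sub hp hW hX (Nat.zero_le (M * l)) (Nat.le_add_right (M * l) l)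
      linarith
  have h2 := tres_sub hp hW hX (Nat.zero_le (M * l)) hM
  have h3 : tres p W X (M * l) m ≤ c * (m - (M * l : ℕ)) := tdeep_le hp hW hc hM m
  have h4 := h1 M
  linarith

/-- the local multiplicity entropy `H(V_{k+1} | V_k, W_{k+1})` -/
noncomputable def hloc {Ω : Type} [Fintype Ω] (B : ℕ) {d e : ℕ} (p : Ω → ℝ) (Z : Ω → Fin e → ℝ)
    (Y : Ω → Co d → ℝ) (k : ℕ) : ℝ :=
  cent p (Xc B (k + 1) 0 Z) (fun ω => (Xc B k 0 Z ω, Wc B (k + 1) Y ω))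

/-- one node -/
private theorem ke_node {B d e : ℕ} (hB : 2 ≤ B) {C1 : ℝ} (hC1 : 0 ≤ C1) {α δ : ℝ}
    (hα : 0 < α) {θ cθ : ℝ}
    (hlab : ∀ (Ω : Type) [Fintype Ω] (γ κ : Type) (p : Ω → ℝ), IsPr p → ∀ (V : Ω → γ) (C : Ω → κ),
      ∃ R : Ω → ℕ, (∀ ω ω', p ω ≠ 0 → p ω' ≠ 0 → C ω = C ω' → R ω = R ω' → V ω = V ω') ∧
        ent p R ≤ (1 + θ) * cent p V C + cθ)
    {i l : ℕ} {H : Type} [Fintype H] {σ s : H → ℝ} (hσ : IsPr σ)
    (hs : ∀ h, |s h| ≤ 1) {Ω : Type} [Fintype Ω] {q : Ω → ℝ} (hq : IsPr q)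
    {Z : Ω → Fin e → ℝ} {Y : Ω → Co d → ℝ}
    (hmain : ∀ (p : Ω → ℝ) (Y' : Ω → Co d → ℝ), IsSys B d (C1 * 1) i p Y' →
      pr σ (fun h => α * l * Real.log B ≤ cent p (Wc B (i + l) Y')
          (Xc B (i + l) 0 (fun ω r => Y' ω (Sum.inl r) + s h * Y' ω (Sum.inr r)))) ≤ δ)
    (hw : ∀ r : Fin d, ∃ e' : Fin e, ∀ ω, Y ω (Sum.inr r) = Z ω e')
    (hL : ∀ ω ω' c, ∀ t : ℝ, (∀ r, |Z ω r - Z ω' r| ≤ t) → |Y ω c - Y ω' c| ≤ C1 * t)
    (hV : ∀ ω ω', q ω ≠ 0 → q ω' ≠ 0 → Xc B i 0 Z ω = Xc B i 0 Z ω') :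
    ∑ h, σ h * cent q (Xc B (i + l) 0 Z)
        (Xc B (i + l) 0 (fun ω r => Y ω (Sum.inl r) + s h * Y ω (Sum.inr r))) ≤
      ∑ j ∈ range l, ((1 + θ) * hloc B q Z Y (i + j) + cθ) +
      (e * Real.log (2 * 1 + 5) + d * Real.log (8 * (C1 * 1) + 9) +
        α * l * Real.log B + δ * (d * (l * Real.log B))) := by
  classical
  have hB0 : 0 < B := by omega
  have hBR : (0 : ℝ) < B := by exact_mod_cast hB0
  have hlb : ∀ j : ℕ, ∃ R : Ω → ℕ, (∀ ω ω', q ω ≠ 0 → q ω' ≠ 0 →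
      (Xc B (i + j) 0 Z ω, Wc B (i + j + 1) Y ω) = (Xc B (i + j) 0 Z ω', Wc B (i + j + 1) Y ω') →
      R ω = R ω' → Xc B (i + j + 1) 0 Z ω = Xc B (i + j + 1) 0 Z ω') ∧
      ent q R ≤ (1 + θ) * hloc B q Z Y (i + j) + cθ := fun j =>
    hlab Ω _ _ q hq (Xc B (i + j + 1) 0 Z)
      (fun ω => (Xc B (i + j) 0 Z ω, Wc B (i + j + 1) Y ω))
  choose R hR1 hR2 using hlb
  obtain ⟨Λ, hΛ⟩ : ∃ Λ : Ω → (Fin l → ℕ), Λ = fun ω (j : Fin l) => R j ω := ⟨_, rfl⟩
  -- the entropy of the labels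
  have hent : ent q Λ ≤ ∑ j ∈ range l, ((1 + θ) * hloc B q Z Y (i + j) + cθ) := by
    have h1 := cent_family_le (ι := Fin l) (γ := fun _ => ℕ) hq (fun _ : Ω => ())
      (fun (j : Fin l) ω => R j ω)
    have h2 : ∀ {β : Type} (f : Ω → β), cent q f (fun _ => ()) = ent q f := by
      intro β f
      unfold cent
      rw [ent_const hq, sub_zero]
      exact ent_congr hq (Det.fst (Det.refl f)) (Det.pair (Det.refl f) (fun _ _ _ _ _ => rfl))
    rw [h2] at h1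
    rw [hΛ]
    refine h1.trans ?_
    rw [Finset.sum_range]
    refine Finset.sum_le_sum fun j _ => ?_
    rw [h2]
    exact hR2 j
  -- conditioned on the labels
  have hcond : ∀ ω₀, q ω₀ ≠ 0 → ∑ h, σ h * cent (fib q Λ ω₀) (Xc B (i + l) 0 Z)
      (Xc B (i + l) 0 (kex (s h) Y)) ≤ e * Real.log (2 * 1 + 5) + d * Real.log (8 * (C1 * 1) + 9) +
        α * l * Real.log B + δ * (d * (l * Real.log B)) := by
    intro ω₀ h0
    have hf : ∀ ω, fib q Λ ω₀ ω ≠ 0 → q ω ≠ 0 ∧ Λ ω = Λ ω₀ := fun ω h => fib_ne_zero h0 h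
    have hkey : ∀ k, k ≤ l → ∀ ω ω', fib q Λ ω₀ ω ≠ 0 → fib q Λ ω₀ ω' ≠ 0 →
        Wc B (i + k) Y ω = Wc B (i + k) Y ω' → Xc B (i + k) 0 Z ω = Xc B (i + k) 0 Z ω' := by
      intro k
      induction k with
      | zero =>
        intro _ ω ω' h h' _
        exact hV ω ω' (hf ω h).1 (hf ω' h').1
      | succ k ih =>
        intro hk ω ω' h h' hW
        have hW' : Wc B (i + k) Y ω = Wc B (i + k) Y ω' :=
          Wc_nest (p := q) hB0 (by omega : i + k ≤ i + (k + 1)) Y ω ω' (hf ω h).1 (hf ω' h').1 hW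
        have hX := ih (by omega) ω ω' h h' hW'
        refine hR1 k ω ω' (hf ω h).1 (hf ω' h').1 (Prod.ext hX hW) ?_
        have h1 : Λ ω = Λ ω' := (hf ω h).2.trans (hf ω' h').2.symm
        have h2 := congrFun h1 (⟨k, by omega⟩ : Fin l)
        rw [hΛ] at h2
        exact h2
    refine ke_good hB zero_le_one hC1 hα hσ hs (isPr_fib hq _ _) (fun Y' hY' => hmain _ Y' hY')
      hw hL ?_ ?_
    · intro ω1 ω2 g1 g2
      exact hV ω1 ω2 (hf ω1 g1).1 (hf ω2 g2).1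
    · intro k hk hk' ω1 ω2 g1 g2 hWW r
      obtain ⟨j, rfl⟩ := Nat.exists_eq_add_of_le hk
      have h1 := congrFun (hkey j (by omega) ω1 ω2 g1 g2 hWW) r
      simp only [Xc] at h1
      have h2 := Int.abs_sub_lt_one_of_floor_eq_floor h1
      rw [← mul_sub, abs_mul, abs_of_pos (by positivity), add_sub_add_right_eq_sub] at h2
      rw [one_mul, ← one_div, le_div_iff₀ (by positivity), mul_comm]
      exact h2.le
  -- sum
  have h1 : ∀ h, cent q (Xc B (i + l) 0 Z) (Xc B (i + l) 0 (kex (s h) Y)) ≤ ent q Λ +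
      ∑ ω, q ω * cent (fib q Λ ω) (Xc B (i + l) 0 Z) (Xc B (i + l) 0 (kex (s h) Y)) := by
    intro h
    rw [← cent_eq_fib2 hq (Xc B (i + l) 0 Z) (Xc B (i + l) 0 (kex (s h) Y)) Λ]
    have a1 : cent q (Xc B (i + l) 0 Z) (Xc B (i + l) 0 (kex (s h) Y)) ≤
        cent q (fun ω => (Λ ω, Xc B (i + l) 0 Z ω)) (Xc B (i + l) 0 (kex (s h) Y)) :=
      cent_mono hq (Det.fst (Det.snd (Det.refl _))) (Det.refl _)
    have a2 := cent_chain hq Λ (Xc B (i + l) 0 Z) (Xc B (i + l) 0 (kex (s h) Y))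
    have a3 : cent q (Xc B (i + l) 0 Z) (fun ω => (Λ ω, Xc B (i + l) 0 (kex (s h) Y) ω)) ≤
        cent q (Xc B (i + l) 0 Z) (fun ω => (Xc B (i + l) 0 (kex (s h) Y) ω, Λ ω)) :=
      cent_anti hq _ (Det.pair (Det.snd (Det.refl _)) (Det.fst (Det.refl _)))
    have a4 := cent_le_ent hq Λ (Xc B (i + l) 0 (kex (s h) Y))
    linarith
  obtain ⟨T, hT⟩ : ∃ T : ℝ, T = e * Real.log (2 * 1 + 5) + d * Real.log (8 * (C1 * 1) + 9) +
    α * l * Real.log B + δ * (d * (l * Real.log B)) := ⟨_, rfl⟩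
  rw [← hT] at hcond ⊢
  have h4 : ∑ h, σ h * cent q (Xc B (i + l) 0 Z) (Xc B (i + l) 0 (kex (s h) Y)) ≤
      ∑ h, σ h * (ent q Λ + ∑ ω, q ω * cent (fib q Λ ω) (Xc B (i + l) 0 Z)
        (Xc B (i + l) 0 (kex (s h) Y))) :=
    Finset.sum_le_sum fun h _ => mul_le_mul_of_nonneg_left (h1 h) (hσ.nonneg h)
  refine h4.trans ?_
  simp only [mul_add, Finset.sum_add_distrib]
  rw [← Finset.sum_mul, hσ.sum_eq, one_mul]
  have h5 : ∑ h, σ h * ∑ ω, q ω * cent (fib q Λ ω) (Xc B (i + l) 0 Z)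
      (Xc B (i + l) 0 (kex (s h) Y)) =
      ∑ ω, q ω * ∑ h, σ h * cent (fib q Λ ω) (Xc B (i + l) 0 Z)
      (Xc B (i + l) 0 (kex (s h) Y)) := by
    simp only [Finset.mul_sum]
    rw [Finset.sum_comm]
    refine Finset.sum_congr rfl fun ω _ => Finset.sum_congr rfl fun h _ => ?_
    ring
  rw [h5]
  have h6 : ∀ ω, q ω * ∑ h, σ h * cent (fib q Λ ω) (Xc B (i + l) 0 Z)
      (Xc B (i + l) 0 (kex (s h) Y)) ≤ q ω * T := by
    intro ω
    by_cases hω : q ω = 0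
    · rw [hω, zero_mul, zero_mul]
    · exact mul_le_mul_of_nonneg_left (hcond ω hω) (hq.nonneg ω)
  have h7 := Finset.sum_le_sum fun ω (_ : ω ∈ (univ : Finset Ω)) => h6 ω
  rw [← Finset.sum_mul, hq.sum_eq, one_mul] at h7
  simp only [Finset.sum_add_distrib] at hent
  linarith

/-- one block of levels -/
private theorem ke_block {B d e : ℕ} (hB : 2 ≤ B) {C1 : ℝ} (hC1 : 0 ≤ C1) {α δ : ℝ}
    (hα : 0 < α) {θ cθ : ℝ}
    (hlab : ∀ (Ω : Type) [Fintype Ω] (γ κ : Type) (p : Ω → ℝ), IsPr p → ∀ (V : Ω → γ) (C : Ω → κ),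
      ∃ R : Ω → ℕ, (∀ ω ω', p ω ≠ 0 → p ω' ≠ 0 → C ω = C ω' → R ω = R ω' → V ω = V ω') ∧
        ent p R ≤ (1 + θ) * cent p V C + cθ)
    {i l : ℕ} {H : Type} [Fintype H] {σ s : H → ℝ} (hσ : IsPr σ)
    (hs : ∀ h, |s h| ≤ 1) {Ω : Type} [Fintype Ω] {p : Ω → ℝ} (hp : IsPr p)
    {Z : Ω → Fin e → ℝ} {Y : Ω → Co d → ℝ}
    (hmain : ∀ (p : Ω → ℝ) (Y' : Ω → Co d → ℝ), IsSys B d (C1 * 1) i p Y' →
      pr σ (fun h => α * l * Real.log B ≤ cent p (Wc B (i + l) Y')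
          (Xc B (i + l) 0 (fun ω r => Y' ω (Sum.inl r) + s h * Y' ω (Sum.inr r)))) ≤ δ)
    (hw : ∀ r : Fin d, ∃ e' : Fin e, ∀ ω, Y ω (Sum.inr r) = Z ω e')
    (hL : ∀ ω ω' c, ∀ t : ℝ, (∀ r, |Z ω r - Z ω' r| ≤ t) → |Y ω c - Y ω' c| ≤ C1 * t) :
    ∑ h, σ h * tres p (fun k => Xc B k 0 Z) (fun k => Xc B k 0 (kex (s h) Y)) i (i + l) ≤
      ∑ j ∈ range l, ((1 + θ) * hloc B p Z Y (i + j) + cθ) +
      (e * Real.log (2 * 1 + 5) + d * Real.log (8 * (C1 * 1) + 9) +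
        α * l * Real.log B + δ * (d * (l * Real.log B))) := by
  have hB0 : 0 < B := by omega
  have h1 : ∀ h, tres p (fun k => Xc B k 0 Z) (fun k => Xc B k 0 (kex (s h) Y)) i (i + l) =
      ∑ ω, p ω * cent (fib p (Xc B i 0 Z) ω) (Xc B (i + l) 0 Z)
        (Xc B (i + l) 0 (kex (s h) Y)) := fun h =>
    cent_eq_fib2 hp (Xc B (i + l) 0 Z) (Xc B (i + l) 0 (kex (s h) Y)) (Xc B i 0 Z)
  have h2 : ∑ h, σ h * tres p (fun k => Xc B k 0 Z) (fun k => Xc B k 0 (kex (s h) Y)) i (i + l) =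
      ∑ ω, p ω * ∑ h, σ h * cent (fib p (Xc B i 0 Z) ω) (Xc B (i + l) 0 Z)
        (Xc B (i + l) 0 (kex (s h) Y)) := by
    simp only [h1, Finset.mul_sum]
    rw [Finset.sum_comm]
    refine Finset.sum_congr rfl fun ω _ => Finset.sum_congr rfl fun h _ => ?_
    ring
  -- the local entropies are averages over the nodes
  have hav : ∀ j, hloc B p Z Y (i + j) = ∑ ω, p ω * hloc B (fib p (Xc B i 0 Z) ω) Z Y (i + j) := by
    intro j
    unfold hloc
    rw [← cent_eq_fib2 hp (Xc B (i + j + 1) 0 Z)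
      (fun ω => (Xc B (i + j) 0 Z ω, Wc B (i + j + 1) Y ω)) (Xc B i 0 Z)]
    have hdet : Det p (Xc B (i + j) 0 Z) (Xc B i 0 Z) := Xc_nest hB0 (Nat.le_add_right i j) 0 Z
    exact cent_congr hp (Det.pair (Det.refl _) (Det.fst hdet)) (Det.fst (Det.refl _))
      (Det.fst (Det.refl _)) (Det.fst (Det.refl _))
  obtain ⟨T, hT⟩ : ∃ T : ℝ, T = e * Real.log (2 * 1 + 5) +
    d * Real.log (8 * (C1 * 1) + 9) + α * l * Real.log B + δ * (d * (l * Real.log B)) := ⟨_, rfl⟩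
  have h3 : ∀ ω, p ω * ∑ h, σ h * cent (fib p (Xc B i 0 Z) ω) (Xc B (i + l) 0 Z)
        (Xc B (i + l) 0 (kex (s h) Y)) ≤
        ∑ j ∈ range l, ((1 + θ) * (p ω * hloc B (fib p (Xc B i 0 Z) ω) Z Y (i + j)) + p ω * cθ) +
          p ω * T := by
    intro ω
    by_cases h0 : p ω = 0
    · rw [h0]
      simp
    · have hfc : ∀ ω1 ω2, fib p (Xc B i 0 Z) ω ω1 ≠ 0 → fib p (Xc B i 0 Z) ω ω2 ≠ 0 →
          Xc B i 0 Z ω1 = Xc B i 0 Z ω2 := fun ω1 ω2 g1 g2 =>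
        (fib_ne_zero h0 g1).2.trans (fib_ne_zero h0 g2).2.symm
      have a1 := ke_node hB hC1 hα hlab hσ hs (isPr_fib hp (Xc B i 0 Z) ω) hmain hw hL hfc
      rw [← hT] at a1
      have a2 := mul_le_mul_of_nonneg_left a1 (hp.nonneg ω)
      refine a2.trans (le_of_eq ?_)
      rw [mul_add, Finset.mul_sum]
      congr 1
      refine Finset.sum_congr rfl fun j _ => ?_
      ring
  rw [h2]
  refine (Finset.sum_le_sum fun ω _ => h3 ω).trans (le_of_eq ?_)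
  rw [Finset.sum_add_distrib, ← Finset.sum_mul, hp.sum_eq, one_mul, hT, Finset.sum_comm]
  congr 1
  refine Finset.sum_congr rfl fun j _ => ?_
  rw [Finset.sum_add_distrib, ← Finset.sum_mul, hp.sum_eq, one_mul, ← Finset.mul_sum, ← hav]

theorem hloc_nonneg {B d e : ℕ} {Ω : Type} [Fintype Ω] {p : Ω → ℝ} (hp : IsPr p)
    (Z : Ω → Fin e → ℝ) (Y : Ω → Co d → ℝ) (k : ℕ) : 0 ≤ hloc B p Z Y k := cent_nonneg hp _ _

theorem hloc_le {B d e : ℕ} (hB : 2 ≤ B) {Ω : Type} [Fintype Ω] {p : Ω → ℝ} (hp : IsPr p)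
    (Z : Ω → Fin e → ℝ) (Y : Ω → Co d → ℝ) (k : ℕ) : hloc B p Z Y k ≤ e * Real.log B :=
  (cent_anti hp _ (Det.fst (Det.refl _))).trans (cX_le (by omega) hp 0 Z k)

/-- the inequality in a fixed base, with a constant loss in every level -/
private theorem loc_ent0 {d e : ℕ} (hde : d ≤ e) {C1 : ℝ} (hC1 : 0 ≤ C1) {θ : ℝ} (hθ : 0 < θ) :
    ∃ c : ℝ, 0 ≤ c ∧ ∀ B : ℕ, 2 ≤ B → ∀ (φ : ℕ → ℝ), Tendsto φ atTop (𝓝 0) → ∀ ε : ℝ, 0 < ε →
      ∃ m0 : ℕ, ∀ m Q : ℕ, m0 ≤ m → m0 ≤ Q →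
      ∀ (H : Type) [Fintype H] (σ s : H → ℝ), IsHts φ Q σ s →
      ∀ (Ω : Type) [Fintype Ω] (p : Ω → ℝ) (Z : Ω → Fin e → ℝ) (Y : Ω → Co d → ℝ), IsPr p →
      (∀ r : Fin d, ∃ e' : Fin e, ∀ ω, Y ω (Sum.inr r) = Z ω e') →
      (∀ ω ω' c, ∀ t : ℝ, (∀ r, |Z ω r - Z ω' r| ≤ t) → |Y ω c - Y ω' c| ≤ C1 * t) →
      ∑ h, σ h * cent p (Xc B m 0 Z)
          (Xc B m 0 (fun ω r => Y ω (Sum.inl r) + s h * Y ω (Sum.inr r))) ≤
        (1 + θ) * ∑ k ∈ range m, hloc B p Z Y k + m * c + ε * m * Real.log B +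
        ∑ h, σ h * cent p (Xc B 0 0 Z)
          (Xc B 0 0 (fun ω r => Y ω (Sum.inl r) + s h * Y ω (Sum.inr r))) := by
  obtain ⟨cθ, hcθ, hlab⟩ := exists_label hθ
  refine ⟨cθ, hcθ, ?_⟩
  intro B hB φ hφ ε hε
  have hB0 : 0 < B := by omega
  have hB2 : (2 : ℝ) ≤ B := by exact_mod_cast hB
  have hlogB : 0 < Real.log B := Real.log_pos (by linarith)
  have he0 : (0 : ℝ) ≤ e := Nat.cast_nonneg e
  have hde' : (d : ℝ) ≤ e := by exact_mod_cast hde
  have hα : 0 < ε / 8 := by positivity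
  have hδ : 0 < ε / (8 * (e + 1)) := by positivity
  obtain ⟨l0, hl0⟩ := main_form (d := d) hB (mul_nonneg hC1 zero_le_one) hφ hα hδ
  obtain ⟨c0, hc0⟩ : ∃ c0 : ℝ, c0 = e * Real.log (2 * 1 + 5) +
    d * Real.log (8 * (C1 * 1) + 9) := ⟨_, rfl⟩
  obtain ⟨l1, hl1⟩ := exists_nat_ge (c0 / (ε / 8 * Real.log B))
  obtain ⟨l, hl⟩ : ∃ l : ℕ, l = max 1 (max l0 l1) := ⟨_, rfl⟩
  have hl_1 : 1 ≤ l := by omega
  have hl_0 : l0 ≤ l := by omega
  have hl_c : c0 ≤ l * (ε / 8 * Real.log B) := by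
    rw [div_le_iff₀ (by positivity)] at hl1
    have h1 : (l1 : ℝ) ≤ l := by
      have : l1 ≤ l := by omega
      exact_mod_cast this
    exact hl1.trans (mul_le_mul_of_nonneg_right h1 (by positivity))
  have hlR : (1 : ℝ) ≤ l := by exact_mod_cast hl_1
  have hlR0 : (0 : ℝ) < l := by linarith
  obtain ⟨m1, hm1⟩ := exists_nat_ge (8 * e * l / ε)
  refine ⟨max l0 m1, ?_⟩
  intro m Q hm hQ H _ σ s hH Ω _ p Z Y hp hw hL
  have hQ0 : l0 ≤ Q := (le_max_left _ _).trans hQ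
  have hmR : 8 * e * l ≤ m * ε := by
    have h1 : (m1 : ℝ) ≤ m := by
      have : m1 ≤ m := (le_max_right _ _).trans hm
      exact_mod_cast this
    rw [div_le_iff₀ hε] at hm1
    exact hm1.trans (mul_le_mul_of_nonneg_right h1 hε.le)
  have hm0 : (0 : ℝ) ≤ m := Nat.cast_nonneg m
  have hσ := hH.isPr
  obtain ⟨M, hMd⟩ : ∃ M : ℕ, M = m / l := ⟨_, rfl⟩
  have hM : M * l ≤ m := by rw [hMd]; exact Nat.div_mul_le_self m l
  have hMl : m < M * l + l := by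
    rw [hMd]
    have := Nat.lt_div_mul_add (a := m) (b := l) (by omega)
    exact this
  have hMR : (M : ℝ) * l ≤ m := by exact_mod_cast hM
  have hMlR : (m : ℝ) ≤ M * l + l := by exact_mod_cast hMl.le
  have hW : Nest p (fun k => Xc B k 0 Z) := nest_X hB0 p 0 Z
  have hX : ∀ h, Nest p (fun k => Xc B k 0 (kex (s h) Y)) := fun h => nest_X hB0 p 0 _
  have hc : ∀ k, cent p (Xc B (k + 1) 0 Z) (Xc B k 0 Z) ≤ e * Real.log B :=
    fun k => cX_le hB0 hp 0 Z k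
  -- the tower step
  have h1 : ∀ h, cent p (Xc B m 0 Z) (Xc B m 0 (kex (s h) Y)) ≤
      cent p (Xc B 0 0 Z) (Xc B 0 0 (kex (s h) Y)) +
      (∑ j ∈ range M, tres p (fun k => Xc B k 0 Z) (fun k => Xc B k 0 (kex (s h) Y))
        (j * l) (j * l + l) + e * Real.log B * (m - (M * l : ℕ))) := by
    intro h
    have a1 : cent p (Xc B m 0 Z) (Xc B m 0 (kex (s h) Y)) ≤
        cent p (fun ω => (Xc B 0 0 Z ω, Xc B m 0 Z ω)) (Xc B m 0 (kex (s h) Y)) :=
      cent_mono hp (Det.fst (Det.snd (Det.refl _))) (Det.refl _)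
    have a2 := cent_chain hp (Xc B 0 0 Z) (Xc B m 0 Z) (Xc B m 0 (kex (s h) Y))
    have a3 : cent p (Xc B 0 0 Z) (Xc B m 0 (kex (s h) Y)) ≤
        cent p (Xc B 0 0 Z) (Xc B 0 0 (kex (s h) Y)) :=
      cent_anti hp _ (Xc_nest hB0 (Nat.zero_le m) 0 _)
    have a4 : cent p (Xc B m 0 Z) (fun ω => (Xc B 0 0 Z ω, Xc B m 0 (kex (s h) Y) ω)) ≤
        tres p (fun k => Xc B k 0 Z) (fun k => Xc B k 0 (kex (s h) Y)) 0 m := by
      unfold tres tdeep
      exact cent_anti hp _ (Det.pair (Det.snd (Det.refl _)) (Det.fst (Det.refl _)))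
    have a5 := ke_tele hp hW (hX h) hc hM
    linarith
  have h2 : ∑ h, σ h * cent p (Xc B m 0 Z) (Xc B m 0 (kex (s h) Y)) ≤
      ∑ h, σ h * cent p (Xc B 0 0 Z) (Xc B 0 0 (kex (s h) Y)) +
      (∑ j ∈ range M, ∑ h, σ h * tres p (fun k => Xc B k 0 Z)
        (fun k => Xc B k 0 (kex (s h) Y)) (j * l) (j * l + l) +
        e * Real.log B * (m - (M * l : ℕ))) := by
    have a1 := Finset.sum_le_sum fun h (_ : h ∈ (univ : Finset H)) =>
      mul_le_mul_of_nonneg_left (h1 h) (hσ.nonneg h)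
    refine a1.trans (le_of_eq ?_)
    simp only [mul_add, Finset.sum_add_distrib]
    congr 1
    rw [← Finset.sum_mul, hσ.sum_eq, one_mul]
    congr 1
    simp only [Finset.mul_sum]
    rw [Finset.sum_comm]
  obtain ⟨T, hT⟩ : ∃ T : ℝ, T = e * Real.log (2 * 1 + 5) +
    d * Real.log (8 * (C1 * 1) + 9) + ε / 8 * l * Real.log B +
    ε / (8 * (e + 1)) * (d * (l * Real.log B)) := ⟨_, rfl⟩
  have h3 : ∀ i, ∑ h, σ h * tres p (fun k => Xc B k 0 Z)
        (fun k => Xc B k 0 (kex (s h) Y)) i (i + l) ≤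
      ∑ j ∈ range l, ((1 + θ) * hloc B p Z Y (i + j) + cθ) + T := by
    intro i
    rw [hT]
    exact ke_block hB hC1 hα hlab hσ hH.abs_le hp
      (fun p Y' hY' => hl0 l Q hl_0 hQ0 H σ s hH Ω p Y' i hY') hw hL
  have hnn : ∀ k, 0 ≤ (1 + θ) * hloc B p Z Y k + cθ := fun k => by
    have := hloc_nonneg (B := B) hp Z Y k
    positivity
  have hre : ∀ M : ℕ, ∑ j ∈ range M, ∑ j' ∈ range l, ((1 + θ) * hloc B p Z Y (j * l + j') + cθ) =
      ∑ k ∈ range (M * l), ((1 + θ) * hloc B p Z Y k + cθ) := by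
    intro M
    induction M with
    | zero => simp
    | succ M ih =>
      rw [Finset.sum_range_succ, ih, Nat.succ_mul, Finset.sum_range_add]
  have h4 : ∑ j ∈ range M, ∑ h, σ h * tres p (fun k => Xc B k 0 Z)
        (fun k => Xc B k 0 (kex (s h) Y)) (j * l) (j * l + l) ≤
      (1 + θ) * ∑ k ∈ range m, hloc B p Z Y k + m * cθ + M * T := by
    refine (Finset.sum_le_sum fun j _ => h3 (j * l)).trans ?_
    rw [Finset.sum_add_distrib, Finset.sum_const, Finset.card_range, nsmul_eq_mul, hre]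
    have b1 : ∑ k ∈ range (M * l), ((1 + θ) * hloc B p Z Y k + cθ) ≤
        ∑ k ∈ range m, ((1 + θ) * hloc B p Z Y k + cθ) :=
      Finset.sum_le_sum_of_subset_of_nonneg (Finset.range_mono hM) fun k _ _ => hnn k
    rw [Finset.sum_add_distrib, Finset.sum_const, Finset.card_range, nsmul_eq_mul,
      ← Finset.mul_sum] at b1
    rw [Finset.sum_add_distrib, Finset.sum_const, Finset.card_range, nsmul_eq_mul,
      ← Finset.mul_sum] at b1
    rw [Finset.sum_add_distrib, Finset.sum_const, Finset.card_range, nsmul_eq_mul,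
      ← Finset.mul_sum]
    linarith
  -- numbers
  have h6 : T ≤ l * (3 * (ε / 8) * Real.log B) := by
    have b1 : ε / (8 * (e + 1)) * (d * (l * Real.log B)) ≤ l * (ε / 8 * Real.log B) := by
      have b2 : ε / (8 * (e + 1)) * d ≤ ε / 8 := by
        rw [div_mul_eq_mul_div, div_le_div_iff₀ (by positivity) (by norm_num)]
        have : ε * d ≤ ε * (e + 1) := mul_le_mul_of_nonneg_left (by linarith) hε.le
        linarith
      have b3 := mul_le_mul_of_nonneg_right b2 (show 0 ≤ l * Real.log B by positivity)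
      linarith
    rw [hT]
    rw [hc0] at hl_c
    linarith
  have h7 : M * T ≤ 3 * (ε / 8) * m * Real.log B := by
    have b1 := mul_le_mul_of_nonneg_left h6 (Nat.cast_nonneg (α := ℝ) M)
    have b2 := mul_le_mul_of_nonneg_right hMR (show 0 ≤ 3 * (ε / 8) * Real.log B by positivity)
    linarith
  have h9 : e * Real.log B * (m - (M * l : ℕ)) ≤ ε / 8 * m * Real.log B := by
    push_cast
    have b1 : (m : ℝ) - M * l ≤ l := by linarith
    have b2 := mul_le_mul_of_nonneg_left b1 (show 0 ≤ e * Real.log B by positivity)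
    have b3 := mul_le_mul_of_nonneg_right hmR hlogB.le
    linarith
  have h10 : 0 ≤ ε * m * Real.log B := by positivity
  linarith

/-- change of base: the cells of base `B ^ r` -/
private theorem Xc_pow {B r k b : ℕ} {Ω : Type} (x : Ω → Fin b → ℝ) :
    Xc (B ^ r) k 0 x = Xc B (r * k) 0 x := by
  funext ω c
  simp only [Xc]
  push_cast
  rw [← pow_mul]

private theorem Wc_pow {B r k d : ℕ} {Ω : Type} (Y : Ω → Co d → ℝ) :
    Wc (B ^ r) k Y = Wc B (r * k) Y := by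
  funext ω c
  simp only [Wc]
  push_cast
  rw [← pow_mul]

/-- the local entropies are subadditive under change of base -/
private theorem hloc_pow {B d e : ℕ} (hB : 2 ≤ B) {Ω : Type} [Fintype Ω] {p : Ω → ℝ} (hp : IsPr p)
    (Z : Ω → Fin e → ℝ) (Y : Ω → Co d → ℝ) (r k : ℕ) :
    hloc (B ^ r) p Z Y k ≤ ∑ j ∈ range r, hloc B p Z Y (r * k + j) := by
  have hB0 : 0 < B := by omega
  have key : ∀ n, ∀ L, r * k + n ≤ L → cent p (Xc B (r * k + n) 0 Z)
      (fun ω => (Xc B (r * k) 0 Z ω, Wc B L Y ω)) ≤ ∑ j ∈ range n, hloc B p Z Y (r * k + j) := by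
    intro n
    induction n with
    | zero =>
      intro L _
      rw [Finset.range_zero, Finset.sum_empty]
      exact (cent_zero_of_det hp (Det.fst (Det.refl _))).le
    | succ n ih =>
      intro L hL
      rw [Finset.sum_range_succ]
      have h1 := cent_chain hp (Xc B (r * k + n) 0 Z) (Xc B (r * k + (n + 1)) 0 Z)
        (fun ω => (Xc B (r * k) 0 Z ω, Wc B L Y ω))
      have h2 : cent p (Xc B (r * k + (n + 1)) 0 Z) (fun ω => (Xc B (r * k) 0 Z ω, Wc B L Y ω)) ≤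
          cent p (fun ω => (Xc B (r * k + n) 0 Z ω, Xc B (r * k + (n + 1)) 0 Z ω))
            (fun ω => (Xc B (r * k) 0 Z ω, Wc B L Y ω)) :=
        cent_mono hp (Det.fst (Det.snd (Det.refl _))) (Det.refl _)
      have h3 : cent p (Xc B (r * k + (n + 1)) 0 Z)
          (fun ω => (Xc B (r * k + n) 0 Z ω, (Xc B (r * k) 0 Z ω, Wc B L Y ω))) ≤
          hloc B p Z Y (r * k + n) := by
        unfold hloc
        exact cent_anti hp _ (Det.pair (Det.fst (Det.refl _))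
          (Det.snd (Det.snd (Wc_nest hB0 (by omega) Y))))
      have h4 := ih L (by omega)
      linarith
  have h := key r (r * k + r) le_rfl
  unfold hloc
  rw [Xc_pow, Xc_pow, Wc_pow, Nat.mul_succ]
  exact h

/-- THE ENTROPY INEQUALITY. -/
theorem loc_ent {B d e : ℕ} (hB : 2 ≤ B) (hde : d ≤ e) {C1 : ℝ} (hC1 : 0 ≤ C1)
    {φ : ℕ → ℝ} (hφ : Tendsto φ atTop (𝓝 0)) {ε : ℝ} (hε : 0 < ε) :
    ∃ m0 : ℕ, ∀ m Q : ℕ, m0 ≤ m → m0 ≤ Q →
      ∀ (H : Type) [Fintype H] (σ s : H → ℝ), IsHts φ Q σ s →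
      ∀ (Ω : Type) [Fintype Ω] (p : Ω → ℝ) (Z : Ω → Fin e → ℝ) (Y : Ω → Co d → ℝ), IsPr p →
      (∀ r : Fin d, ∃ e' : Fin e, ∀ ω, Y ω (Sum.inr r) = Z ω e') →
      (∀ ω ω' c, ∀ t : ℝ, (∀ r, |Z ω r - Z ω' r| ≤ t) → |Y ω c - Y ω' c| ≤ C1 * t) →
      ∑ h, σ h * cent p (Xc B m 0 Z)
          (Xc B m 0 (fun ω r => Y ω (Sum.inl r) + s h * Y ω (Sum.inr r))) ≤
        ∑ k ∈ range m, hloc B p Z Y k + ε * m * Real.log B +
        ∑ h, σ h * cent p (Xc B 0 0 Z)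
          (Xc B 0 0 (fun ω r => Y ω (Sum.inl r) + s h * Y ω (Sum.inr r))) := by
  have hB0 : 0 < B := by omega
  have hB2 : (2 : ℝ) ≤ B := by exact_mod_cast hB
  have hlogB : 0 < Real.log B := Real.log_pos (by linarith)
  have he0 : (0 : ℝ) ≤ e := Nat.cast_nonneg e
  have hθ : 0 < ε / (4 * (e + 1)) := by positivity
  obtain ⟨c, hc0, hmain⟩ := loc_ent0 hde hC1 hθ
  -- the base
  obtain ⟨r1, hr1⟩ := exists_nat_ge (c / (ε / 4 * Real.log B))
  obtain ⟨r, hr⟩ : ∃ r : ℕ, r = max 1 r1 := ⟨_, rfl⟩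
  have hr_1 : 1 ≤ r := by omega
  have hr_c : c ≤ r * (ε / 4 * Real.log B) := by
    rw [div_le_iff₀ (by positivity)] at hr1
    have h1 : (r1 : ℝ) ≤ r := by
      have : r1 ≤ r := by omega
      exact_mod_cast this
    exact hr1.trans (mul_le_mul_of_nonneg_right h1 (by positivity))
  have hrR : (1 : ℝ) ≤ r := by exact_mod_cast hr_1
  have hBr : 2 ≤ B ^ r := le_trans hB (Nat.le_self_pow (by omega) B)
  obtain ⟨m0, hm0⟩ := hmain (B ^ r) hBr φ hφ (ε / 4) (by positivity)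
  obtain ⟨m1, hm1⟩ := exists_nat_ge (4 * (e * r) / ε)
  refine ⟨max (r * m0 + r) m1, ?_⟩
  intro m Q hm hQ H _ σ s hH Ω _ p Z Y hp hw hL
  have hσ := hH.isPr
  obtain ⟨n, hn⟩ : ∃ n : ℕ, n = m / r := ⟨_, rfl⟩
  have hnm : r * n ≤ m := by rw [hn]; exact Nat.mul_div_le m r
  have hmn : m < r * n + r := by
    rw [hn]
    have := Nat.lt_mul_div_succ m (show 0 < r by omega)
    rw [Nat.mul_succ] at this
    exact this
  have hmbig : r * m0 + r ≤ m := (le_max_left _ _).trans hm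
  have hn0 : m0 ≤ n := by
    by_contra hcon
    have h1 : n + 1 ≤ m0 := by omega
    have h2 : r * (n + 1) ≤ r * m0 := Nat.mul_le_mul_left r h1
    rw [Nat.mul_succ] at h2
    omega
  have hQ0 : m0 ≤ Q := by
    have h1 : r * m0 + r ≤ Q := (le_max_left _ _).trans hQ
    have h2 : m0 ≤ r * m0 := Nat.le_mul_of_pos_left _ (by omega)
    omega
  have hmR : 4 * (e * r) ≤ m * ε := by
    have h1 : (m1 : ℝ) ≤ m := by
      have : m1 ≤ m := (le_max_right _ _).trans hm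
      exact_mod_cast this
    rw [div_le_iff₀ hε] at hm1
    exact hm1.trans (mul_le_mul_of_nonneg_right h1 hε.le)
  have hA := hm0 n Q hn0 hQ0 H σ s hH Ω p Z Y hp hw hL
  simp only [Xc_pow, Nat.mul_zero] at hA
  have hlogBr : Real.log ((B ^ r : ℕ) : ℝ) = r * Real.log B := by
    push_cast
    rw [Real.log_pow]
  rw [hlogBr] at hA
  -- sum of the local entropies
  have hs1 : ∑ k ∈ range n, hloc (B ^ r) p Z Y k ≤ ∑ k ∈ range m, hloc B p Z Y k := by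
    refine (Finset.sum_le_sum fun k _ => hloc_pow hB hp Z Y r k).trans ?_
    have hre : ∀ M : ℕ, ∑ j ∈ range M, ∑ j' ∈ range r, hloc B p Z Y (r * j + j') =
        ∑ k ∈ range (r * M), hloc B p Z Y k := by
      intro M
      induction M with
      | zero => simp
      | succ M ih =>
        rw [Finset.sum_range_succ, ih, Nat.mul_succ, Finset.sum_range_add]
    rw [hre]
    exact Finset.sum_le_sum_of_subset_of_nonneg (Finset.range_mono hnm)
      fun k _ _ => hloc_nonneg hp Z Y k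
  have hs2 : ∑ k ∈ range m, hloc B p Z Y k ≤ m * (e * Real.log B) := by
    refine (Finset.sum_le_sum fun k _ => hloc_le hB hp Z Y k).trans ?_
    rw [Finset.sum_const, Finset.card_range, nsmul_eq_mul]
  have hs0 : 0 ≤ ∑ k ∈ range m, hloc B p Z Y k :=
    Finset.sum_nonneg fun k _ => hloc_nonneg hp Z Y k
  -- the last levels
  have h1 : ∀ h, cent p (Xc B m 0 Z) (Xc B m 0 (kex (s h) Y)) ≤
      cent p (Xc B (r * n) 0 Z) (Xc B (r * n) 0 (kex (s h) Y)) + e * (r * Real.log B) := by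
    intro h
    have a1 : cent p (Xc B m 0 Z) (Xc B m 0 (kex (s h) Y)) ≤
        cent p (fun ω => (Xc B (r * n) 0 Z ω, Xc B m 0 Z ω)) (Xc B m 0 (kex (s h) Y)) :=
      cent_mono hp (Det.fst (Det.snd (Det.refl _))) (Det.refl _)
    have a2 := cent_chain hp (Xc B (r * n) 0 Z) (Xc B m 0 Z) (Xc B m 0 (kex (s h) Y))
    have a3 : cent p (Xc B (r * n) 0 Z) (Xc B m 0 (kex (s h) Y)) ≤
        cent p (Xc B (r * n) 0 Z) (Xc B (r * n) 0 (kex (s h) Y)) :=
      cent_anti hp _ (Xc_nest hB0 hnm 0 _)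
    have a4 : cent p (Xc B m 0 Z) (fun ω => (Xc B (r * n) 0 Z ω, Xc B m 0 (kex (s h) Y) ω)) ≤
        cent p (Xc B m 0 Z) (Xc B (r * n) 0 Z) := cent_anti hp _ (Det.fst (Det.refl _))
    have a5 := cent_X_X hB0 hp hnm 0 Z
    have a6 : ((m - r * n : ℕ) : ℝ) ≤ r := by
      have : m - r * n ≤ r := by omega
      exact_mod_cast this
    have a7 : e * (((m - r * n : ℕ) : ℝ) * Real.log B) ≤ e * (r * Real.log B) :=
      mul_le_mul_of_nonneg_left (mul_le_mul_of_nonneg_right a6 hlogB.le) he0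
    linarith
  have h2 := Finset.sum_le_sum fun h (_ : h ∈ (univ : Finset H)) =>
    mul_le_mul_of_nonneg_left (h1 h) (hσ.nonneg h)
  simp only [mul_add, Finset.sum_add_distrib] at h2
  rw [← Finset.sum_mul, hσ.sum_eq, one_mul] at h2
  have hnR : (r : ℝ) * n ≤ m := by exact_mod_cast hnm
  have hn0R : (0 : ℝ) ≤ n := Nat.cast_nonneg n
  have g1 : ε / (4 * (e + 1)) * ∑ k ∈ range m, hloc B p Z Y k ≤ ε / 4 * m * Real.log B := by
    have b1 := mul_le_mul_of_nonneg_left hs2 hθ.le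
    have b2 : ε / (4 * (e + 1)) * (m * (e * Real.log B)) =
        (e / (e + 1)) * (ε / 4 * m * Real.log B) := by
      field_simp
    have b3 : (e : ℝ) / (e + 1) ≤ 1 := by
      rw [div_le_one (by positivity)]
      linarith
    have b4 : (e / (e + 1)) * (ε / 4 * m * Real.log B) ≤ ε / 4 * m * Real.log B :=
      mul_le_of_le_one_left (by positivity) b3
    linarith
  have g2 : (n : ℝ) * c ≤ ε / 4 * m * Real.log B := by
    have b1 := mul_le_mul_of_nonneg_left hr_c hn0R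
    have b2 : (n : ℝ) * (r * (ε / 4 * Real.log B)) ≤ m * (ε / 4 * Real.log B) := by
      have := mul_le_mul_of_nonneg_right hnR (show 0 ≤ ε / 4 * Real.log B by positivity)
      linarith
    linarith
  have g3 : ε / 4 * n * (r * Real.log B) ≤ ε / 4 * m * Real.log B := by
    have := mul_le_mul_of_nonneg_right hnR (show 0 ≤ ε / 4 * Real.log B by positivity)
    linarith
  have g4 : e * (r * Real.log B) ≤ ε / 4 * m * Real.log B := by
    have := mul_le_mul_of_nonneg_right hmR hlogB.le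
    linarith
  have g5 : (1 + ε / (4 * (e + 1))) * ∑ k ∈ range n, hloc (B ^ r) p Z Y k ≤
      ∑ k ∈ range m, hloc B p Z Y k + ε / 4 * m * Real.log B := by
    have b1 := mul_le_mul_of_nonneg_left hs1 (show 0 ≤ 1 + ε / (4 * (e + 1)) by positivity)
    rw [add_mul, one_mul] at b1
    linarith
  linarith

end STK
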