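import Pool.Agent.Lib.MP_ac5134_an.STK.KStep

/-!
# STK-KMainForm: the slices `F + s w` of a system

* `prop_R_b`: `prop_all` and `step`.
* `main_form`: `PropRb B d C0 φ 0 d` for `M = 1`, `P h = slm (s h)`, `J = Sum.inl`; `m0 d d 0 = 0`; if the weight of
  the bad set were `> δ`, we would have `Bad`.
* `count_form`: `Ω = W` (subtype of the finset, or `Fin`), `p` uniform, `Y w = (F w, w)`, `i = k0`; on a finset with
  distinct cells of level `m`, `W_m` is injective, so the condition `lip` for `k > m` is trivial and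
  `ent p W_m = log |W|` (`ent_uni_inj`); `log #cells ≥ ent X ≥ ent W_m - cent W_m X ≥ log |W| - ε l log B`
  (`ent_le_log_card`, `cent = ent (pair) - ent`).
-/

namespace STK
open Finset RFold Filter Topology

theorem prop_R_b {B d : ℕ} (hB : 2 ≤ B) {C0 : ℝ} (hC0 : 0 ≤ C0) {φ : ℕ → ℝ}
    (hφ : Tendsto φ atTop (𝓝 0)) (R b : ℕ) : PropRb B d C0 φ R b :=
  prop_all hB C0 φ (fun _ _ h1 h2 h3 h4 => step hB hC0 hφ h1 h2 h3 h4) R b

/-- the matrix of the slice at height `s` -/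
noncomputable def slm (d : ℕ) (s : ℝ) : Matrix (Fin d) (Co d) ℝ :=
  fun r => Sum.elim (fun r' => if r = r' then 1 else 0) (fun r' => if r = r' then s else 0)

theorem slm_chart (d : ℕ) {s : ℝ} (hs : |s| ≤ 1) : Chart 1 (slm d s) Sum.inl := by
  refine ⟨Sum.inl_injective, fun r r' => rfl, ?_⟩
  intro r c
  rcases c with c | c
  · simp only [slm, Sum.elim_inl]
    split_ifs <;> simp
  · simp only [slm, Sum.elim_inr]
    split_ifs
    · exact hs
    · simp

theorem slm_rank (d : ℕ) (s : ℝ) : (kmat (slm d s) s).rank ≤ 0 := by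
  have h : kmat (slm d s) s = 0 := by
    ext r c
    simp only [kmat, slm, Sum.elim_inl, Sum.elim_inr, Matrix.zero_apply]
    split_ifs <;> ring
  rw [h, Matrix.rank_zero]

theorem obs_slm {Ω : Type*} (d : ℕ) (s : ℝ) (Y : Ω → Co d → ℝ) (ω : Ω) (r : Fin d) :
    obs (slm d s) Y ω r = Y ω (Sum.inl r) + s * Y ω (Sum.inr r) := by
  simp only [obs, slm, Fintype.sum_sum_type, Sum.elim_inl, Sum.elim_inr, ite_mul, one_mul,
    zero_mul, Finset.sum_ite_eq, Finset.mem_univ, if_true]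

theorem main_form {B d : ℕ} (hB : 2 ≤ B) {C0 : ℝ} (hC0 : 0 ≤ C0) {φ : ℕ → ℝ}
    (hφ : Tendsto φ atTop (𝓝 0)) {α δ : ℝ} (hα : 0 < α) (hδ : 0 < δ) :
    ∃ l0 : ℕ, ∀ l Q : ℕ, l0 ≤ l → l0 ≤ Q → ∀ (H : Type) [Fintype H] (σ s : H → ℝ),
      IsHts φ Q σ s → ∀ (Ω : Type) [Fintype Ω] (p : Ω → ℝ) (Y : Ω → Co d → ℝ) (i : ℕ),
      IsSys B d C0 i p Y →
      pr σ (fun h => α * l * Real.log B ≤
        cent p (Wc B (i + l) Y)
          (Xc B (i + l) 0 (fun ω r => Y ω (Sum.inl r) + s h * Y ω (Sum.inr r)))) ≤ δ := by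
  obtain ⟨l0, hl0⟩ := prop_R_b (d := d) hB hC0 hφ 0 d 1 le_rfl α hα δ hδ
  refine ⟨l0, ?_⟩
  intro l Q hl hQ H _ σ s hs Ω _ p Y i hY
  by_contra hcon
  rw [not_le] at hcon
  refine hl0 l Q hl hQ ⟨H, inferInstance, σ, s, Ω, inferInstance, p, Y, i, _,
    fun h => slm d (s h), hs, hY, hcon.le, ?_⟩
  intro h hh
  refine ⟨⟨_, slm_chart d (hs.abs_le h)⟩, slm_rank d (s h), ?_⟩
  have e1 : obs (slm d (s h)) Y = fun ω r => Y ω (Sum.inl r) + s h * Y ω (Sum.inr r) := by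
    funext ω r
    exact obs_slm d (s h) Y ω r
  rw [e1]
  have e2 : m0 d d 0 = 0 := by simp [m0]
  rw [e2, zero_add]
  exact hh

open Classical in
/-- `F` is `B`-adically Lipschitz on the finite set `W` of directions, all in one cell of level `k0`,
with distinct cells of level `k0 + l`; for all but a `δ`-part of the heights the points `F w + s w` lie in
at least `|W| B^(-α l)` different cells of level `k0 + l`. -/
theorem count_form {B d : ℕ} (hB : 2 ≤ B) {C0 : ℝ} (hC0 : 0 ≤ C0) {φ : ℕ → ℝ}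
    (hφ : Tendsto φ atTop (𝓝 0)) {α δ : ℝ} (hα : 0 < α) (hδ : 0 < δ) :
    ∃ l0 : ℕ, ∀ l Q : ℕ, l0 ≤ l → l0 ≤ Q → ∀ (H : Type) [Fintype H] (σ s : H → ℝ),
      IsHts φ Q σ s → ∀ (k0 : ℕ) (ι : Type) [Fintype ι] (w F : ι → Fin d → ℝ),
      (∀ i j, (fun r => ⌊(B : ℝ) ^ k0 * w i r⌋) = fun r => ⌊(B : ℝ) ^ k0 * w j r⌋) →
      (∀ i j, (fun r => ⌊(B : ℝ) ^ (k0 + l) * w i r⌋) = (fun r => ⌊(B : ℝ) ^ (k0 + l) * w j r⌋) →
        i = j) →
      (∀ k, k0 ≤ k → k ≤ k0 + l → ∀ i j, (fun r => ⌊(B : ℝ) ^ k * w i r⌋) = (fun r =>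
        ⌊(B : ℝ) ^ k * w j r⌋) → ∀ r, |F i r - F j r| ≤ C0 * ((B : ℝ) ^ k)⁻¹) →
      pr σ (fun h => (((univ : Finset ι).image (fun i r =>
          ⌊(B : ℝ) ^ (k0 + l) * (F i r + s h * w i r)⌋)).card : ℝ) * (B : ℝ) ^ (α * l) <
        Fintype.card ι) ≤ δ := by
  have hC0' : (0 : ℝ) ≤ C0 + 1 := by linarith
  obtain ⟨l0, hl0⟩ := main_form (d := d) hB hC0' hφ hα hδ
  refine ⟨l0, ?_⟩
  intro l Q hl hQ H _ σ s hs k0 ι _ w F hbase hdist hlip
  have hB0 : 0 < B := by omega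
  have hBr : (0 : ℝ) < B := by exact_mod_cast hB0
  rcases isEmpty_or_nonempty ι with hι | hι
  · -- no index
    refine le_trans (le_of_eq ?_) hδ.le
    have h1 : pr σ (fun _ : H => False) = 0 := by simp [pr]
    rw [← h1]
    refine pr_congr hs.isPr fun h _ => ?_
    simp
  set Y : ι → Co d → ℝ := fun i => Sum.elim (F i) (w i) with hYdef
  have hW : ∀ k i, Wc B k Y i = fun r => ⌊(B : ℝ) ^ k * w i r⌋ := fun k i => rfl
  have hsys : IsSys B d (C0 + 1) k0 (uni ι) Y := by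
    refine ⟨isPr_uni, ?_, ?_⟩
    · intro i j _ _
      rw [hW, hW]
      exact hbase i j
    · intro k hk i j hi hj hij c
      have hinv : (0 : ℝ) ≤ ((B : ℝ) ^ k)⁻¹ := by positivity
      by_cases hkl : k ≤ k0 + l
      · rcases c with c | c
        · have h1 := hlip k hk hkl i j hij c
          have h2 : C0 * ((B : ℝ) ^ k)⁻¹ ≤ (C0 + 1) * ((B : ℝ) ^ k)⁻¹ :=
            mul_le_mul_of_nonneg_right (by linarith) hinv
          exact h1.trans h2
        · have h1 : ⌊(B : ℝ) ^ k * w i c⌋ = ⌊(B : ℝ) ^ k * w j c⌋ := congrFun hij c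
          have h2 := Int.abs_sub_lt_one_of_floor_eq_floor h1
          rw [← mul_sub, abs_mul, abs_of_pos (by positivity : (0 : ℝ) < (B : ℝ) ^ k)] at h2
          have h3 : |w i c - w j c| ≤ ((B : ℝ) ^ k)⁻¹ := by
            rw [← one_div, le_div_iff₀ (by positivity : (0 : ℝ) < (B : ℝ) ^ k), mul_comm]
            exact h2.le
          have h4 : 1 * ((B : ℝ) ^ k)⁻¹ ≤ (C0 + 1) * ((B : ℝ) ^ k)⁻¹ :=
            mul_le_mul_of_nonneg_right (by linarith) hinv
          rw [one_mul] at h4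
          exact h3.trans h4
      · have hnest := Wc_nest (p := uni ι) hB0 (show k0 + l ≤ k by omega) Y i j hi hj hij
        have hij' : i = j := hdist i j hnest
        rw [hij', sub_self, abs_zero]
        positivity
  refine (pr_mono hs.isPr fun h _ hh => ?_).trans (hl0 l Q hl hQ H σ s hs ι (uni ι) Y k0 hsys)
  set X : ι → Fin d → ℤ := Xc B (k0 + l) 0 (fun i r => Y i (Sum.inl r) + s h * Y i (Sum.inr r))
    with hX
  have hXv : ∀ i, X i = fun r => ⌊(B : ℝ) ^ (k0 + l) * (F i r + s h * w i r)⌋ := by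
    intro i
    funext r
    simp only [hX, Xc, Pi.zero_apply, add_zero]
    rfl
  set S : Finset (Fin d → ℤ) := (univ : Finset ι).image (fun i r =>
    ⌊(B : ℝ) ^ (k0 + l) * (F i r + s h * w i r)⌋) with hS
  have hmem : ∀ i, X i ∈ S := by
    intro i
    rw [hXv i, hS]
    exact Finset.mem_image_of_mem _ (Finset.mem_univ i)
  have hp : IsPr (uni ι) := isPr_uni
  have h1 : ent (uni ι) X ≤ Real.log S.card := ent_le_log_card hp X S fun i _ => hmem i
  have h2 : ent (uni ι) (Wc B (k0 + l) Y) = Real.log (Fintype.card ι) :=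
    ent_uni_inj fun i j hij => hdist i j hij
  have h3 : ent (uni ι) (Wc B (k0 + l) Y) ≤
      ent (uni ι) (fun i => (Wc B (k0 + l) Y i, X i)) := ent_mono hp (Det.fst (Det.refl _))
  have h4 : ent (uni ι) (fun i => (Wc B (k0 + l) Y i, X i)) =
      ent (uni ι) X + cent (uni ι) (Wc B (k0 + l) Y) X := ent_pair _ _
  have hSpos : (0 : ℝ) < S.card := by
    have : 0 < S.card := Finset.card_pos.mpr ⟨_, hmem (Classical.arbitrary ι)⟩
    exact_mod_cast this
  have hpow : (0 : ℝ) < (B : ℝ) ^ (α * l) := Real.rpow_pos_of_pos hBr _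
  have h5 : Real.log ((S.card : ℝ) * (B : ℝ) ^ (α * l)) ≤ Real.log (Fintype.card ι) :=
    Real.log_le_log (by positivity) hh.le
  rw [Real.log_mul hSpos.ne' hpow.ne', Real.log_rpow hBr] at h5
  linarith

end STK
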