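import Pool.Agent.Lib.MP_ac5134_an.STK.KStk

/-!
# STK-KMink: sets that contain a sticky family of unit segments

`A` is a set of feet in the unit ball of `R^d`; over each `ω ∈ A` the set `E` contains the unit segment with
midpoint `a ω` and direction `(-2ω, 1)`.  Let `linePos ω (a ω)` be the point where the line of this segment meets
the hyperplane `{x_n = h}`, `h = ⌊(a ω)_n⌋`, together with `h`.  If for every `k` and every `w ∈ Z^d` there are at
most `K'` cells `⌊B^k linePos ω (a ω)⌋` of the `ω ∈ A` with `⌊B^k ω⌋ = w`, then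
`|E_δ| ≥ c δ^(d+ε) #{⌊ω/δ⌋ : ω ∈ A}`.
PROOF.  `N = d/δ`, one `ω` in every cell of side `δ` of `A`, tubes with centres `N² a ω`; they are contained in
`N² E_δ`; `max_sticky` with `G = 0`.
-/

open MeasureTheory Pool.Agent.MPac5134 Pool.Agent.MPac5134.Lip
open scoped Pointwise

namespace STK

variable {d : ℕ}

/-- there is a cap over every point of the unit ball -/
private theorem exists_cap (ω : Fin d → ℝ) (hω : ∑ i, ω i ^ 2 ≤ 1) :
    ∃ θ : Cap d, θ.foot = ω ∧ θ.frame (Fin.last d) = dirVec ω := by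
  have hn : 0 < ‖normalVec ω‖ := by
    have h1 := norm_normalVec_sq ω
    have h2 : 0 ≤ ∑ i, ω i ^ 2 := Finset.sum_nonneg fun i _ => sq_nonneg _
    have h3 := norm_nonneg (normalVec ω)
    rcases h3.lt_or_eq with h4 | h4
    · exact h4
    · rw [← h4] at h1
      nlinarith
  have hv : Orthonormal ℝ (({Fin.last d} : Set (Fin (d + 1))).domRestrict
      fun _ : Fin (d + 1) => ‖normalVec ω‖⁻¹ • normalVec ω) := by
    refine ⟨fun i => ?_, fun i j hij => absurd (Subsingleton.elim i j) hij⟩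
    show ‖‖normalVec ω‖⁻¹ • normalVec ω‖ = 1
    rw [norm_smul, norm_inv, norm_norm, inv_mul_cancel₀ hn.ne']
  obtain ⟨b, hb⟩ := hv.exists_orthonormalBasis_extension_of_card_eq (by simp)
  exact ⟨⟨ω, hω, b, ‖normalVec ω‖⁻¹, hb (Fin.last d) rfl⟩, rfl, hb (Fin.last d) rfl⟩

open scoped InnerProductSpace in
private theorem mk_norm (b : OrthonormalBasis (Fin (d + 1)) ℝ (Sp d)) (y : Sp d) {N : ℝ}
    (hy : ∀ i : Fin d, |⟪b i.castSucc, y⟫_ℝ| ≤ N / 2) :
    ‖y - ⟪b (Fin.last d), y⟫_ℝ • b (Fin.last d)‖ ^ 2 ≤ d * (N / 2) ^ 2 := by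
  rw [← b.sum_sq_norm_inner_right, Fin.sum_univ_castSucc]
  have h1 : ⟪b (Fin.last d), y - ⟪b (Fin.last d), y⟫_ℝ • b (Fin.last d)⟫_ℝ = 0 := by
    rw [inner_sub_right, inner_smul_right, real_inner_self_eq_norm_sq, b.orthonormal.1]
    ring
  have h2 : ∀ i : Fin d, ⟪b i.castSucc, y - ⟪b (Fin.last d), y⟫_ℝ • b (Fin.last d)⟫_ℝ =
      ⟪b i.castSucc, y⟫_ℝ := by
    intro i
    rw [inner_sub_right, inner_smul_right, b.orthonormal.2 (Fin.castSucc_lt_last i).ne]
    ring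
  rw [h1]
  simp only [h2]
  have h3 : ∑ i : Fin d, ‖⟪b i.castSucc, y⟫_ℝ‖ ^ 2 ≤ ∑ _i : Fin d, (N / 2) ^ 2 := by
    apply Finset.sum_le_sum
    intro i _
    rw [Real.norm_eq_abs]
    exact pow_le_pow_left₀ (abs_nonneg _) (hy i) 2
  rw [Finset.sum_const, Finset.card_univ, Fintype.card_fin, nsmul_eq_mul] at h3
  simpa using h3

open scoped InnerProductSpace in
private theorem mk_sub (hd : 1 ≤ d) {N δ : ℝ} (hN : N = d / δ) (hδ : 0 < δ) (θ : Cap d)
    (a : Sp d) {E : Set (Sp d)}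
    (hx : ∀ t : ℝ, |t| ≤ 1 / 2 → a + t • θ.frame (Fin.last d) ∈ E) :
    tube N θ (N ^ 2 • a) ⊆ (N ^ 2) • Metric.thickening δ E := by
  have hd' : (1 : ℝ) ≤ d := by exact_mod_cast hd
  have hN0 : 0 < N := by rw [hN]; positivity
  have hN2 : (N ^ 2) ≠ 0 := by positivity
  intro y hy
  obtain ⟨hy1, hy2⟩ := hy
  obtain ⟨c, hc⟩ : ∃ c, c = N ^ 2 • a := ⟨_, rfl⟩
  obtain ⟨s, hs⟩ : ∃ s, s = ⟪θ.frame (Fin.last d), y - c⟫_ℝ := ⟨_, rfl⟩
  rw [← hc] at hy1 hy2
  rw [← hs] at hy2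
  rw [Set.mem_smul_set_iff_inv_smul_mem₀ hN2, Metric.mem_thickening_iff]
  refine ⟨a + (s / N ^ 2) • θ.frame (Fin.last d), hx _ ?_, ?_⟩
  · rw [abs_div, abs_of_pos (by positivity : 0 < N ^ 2), div_le_iff₀ (by positivity)]
    linarith
  · have h1 := mk_norm θ.frame (y - c) hy1
    rw [← hs] at h1
    have h2 : (N ^ 2)⁻¹ • y - (a + (s / N ^ 2) • θ.frame (Fin.last d)) =
        (N ^ 2)⁻¹ • ((y - c) - s • θ.frame (Fin.last d)) := by
      rw [hc, smul_sub, smul_sub, smul_smul, inv_mul_cancel₀ hN2, one_smul, smul_smul,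
        show (N ^ 2)⁻¹ * s = s / N ^ 2 by ring]
      abel
    rw [dist_eq_norm, h2, norm_smul, norm_inv, Real.norm_of_nonneg (by positivity : 0 ≤ N ^ 2)]
    have h3 : ‖y - c - s • θ.frame (Fin.last d)‖ ≤ d * (N / 2) := by
      have h4 : (d : ℝ) * (N / 2) ^ 2 ≤ (d * (N / 2)) ^ 2 := by
        rw [mul_pow]
        have : (d : ℝ) ≤ d ^ 2 := by nlinarith
        exact mul_le_mul_of_nonneg_right this (by positivity)
      exact le_of_sq_le_sq (h1.trans h4) (by positivity)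
    calc (N ^ 2)⁻¹ * ‖y - c - s • θ.frame (Fin.last d)‖ ≤ (N ^ 2)⁻¹ * (d * (N / 2)) :=
          mul_le_mul_of_nonneg_left h3 (by positivity)
      _ = d / N / 2 := by field_simp
      _ = δ / 2 := by rw [hN]; field_simp
      _ < δ := by linarith

/-- (iv): sets that contain a sticky family of unit segments -/
theorem mink_sticky {B : ℕ} (hB : 2 ≤ B) (hd : 1 ≤ d) (K' : ℕ) {ε : ℝ} (hε : 0 < ε) :
    ∃ c : ℝ, 0 < c ∧ ∀ (A : Set (Fin d → ℝ)) (a : (Fin d → ℝ) → Sp d) (E : Set (Sp d)),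
      (∀ ω ∈ A, ∑ i, ω i ^ 2 ≤ 1) →
      (∀ ω ∈ A, ∀ t : ℝ, |t| ≤ 1 / 2 → a ω + t • dirVec ω ∈ E) →
      StickyLines B K' A a →
      ∀ δ : ℝ, 0 < δ → δ ≤ 1 →
        ENNReal.ofReal (c * δ ^ (d + ε)) *
          ((fun ω (r : Fin d) => ⌊ω r / δ⌋) '' A).encard ≤ volume (Metric.thickening δ E) := by
  classical
  obtain ⟨C0, hC0⟩ := max_sticky (B := B) hB hd 1 (K' : ℝ) hε
  obtain ⟨C, hCd⟩ : ∃ C : ℝ, C = max C0 1 := ⟨_, rfl⟩
  have hC : 0 < C := by rw [hCd]; exact lt_of_lt_of_le one_pos (le_max_right _ _)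
  have hd' : (1 : ℝ) ≤ d := by exact_mod_cast hd
  have hd0 : (0 : ℝ) < d := by linarith
  refine ⟨C⁻¹ * ((d : ℝ) ^ ((d : ℝ) + ε))⁻¹, by positivity, ?_⟩
  intro A a E hA hE hst δ hδ hδ1
  obtain ⟨N, hN⟩ : ∃ N : ℝ, N = d / δ := ⟨_, rfl⟩
  have hN0 : 0 < N := by rw [hN]; positivity
  have hN1 : 1 ≤ N := by
    rw [hN, one_le_div hδ]
    linarith
  have hN2 : N ^ 2 ≠ 0 := by positivity
  obtain ⟨S, hS⟩ : ∃ S : Set (Fin d → ℤ), S = (fun ω (r : Fin d) => ⌊ω r / δ⌋) '' A := ⟨_, rfl⟩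
  rw [← hS]
  have hfin : S.Finite := by
    refine Set.Finite.subset (Set.finite_Icc (fun _ => ⌊-1 / δ⌋) (fun _ => ⌊1 / δ⌋)) ?_
    intro z hz
    rw [hS] at hz
    obtain ⟨ω, hω, rfl⟩ := hz
    have h1 : ∀ r, |ω r| ≤ 1 := by
      intro r
      rw [← sq_le_one_iff_abs_le_one]
      exact (Finset.single_le_sum (f := fun r => ω r ^ 2) (fun _ _ => sq_nonneg _)
        (Finset.mem_univ r)).trans (hA ω hω)
    rw [Set.mem_Icc]
    constructor
    · intro r
      exact Int.floor_le_floor (div_le_div_of_nonneg_right (abs_le.1 (h1 r)).1 hδ.le)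
    · intro r
      exact Int.floor_le_floor (div_le_div_of_nonneg_right (abs_le.1 (h1 r)).2 hδ.le)
  have hft : Fintype S := hfin.fintype
  have hex' : ∀ z ∈ S, ∃ ω ∈ A, (fun r : Fin d => ⌊ω r / δ⌋) = z := by
    intro z hz
    rw [hS] at hz
    exact hz
  have hex : ∀ z : S, ∃ ω ∈ A, (fun r : Fin d => ⌊ω r / δ⌋) = z.1 := fun z => hex' z.1 z.2
  choose ω hωA hωz using hex
  choose θ hθ1 hθ2 using fun z : S => exists_cap (ω z) (hA _ (hωA z))
  obtain ⟨x, hx⟩ : ∃ x : S → Sp d, x = fun z => N ^ 2 • a (ω z) := ⟨_, rfl⟩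
  have hcell : ∀ z : Fin d → ℤ, ∀ s : Finset S, (∀ i ∈ s, cell N (θ i) = z) → s.card ≤ 1 := by
    intro z s hs
    rw [Finset.card_le_one]
    intro i hi j hj
    have h1 : cell N (θ i) = cell N (θ j) := by rw [hs i hi, hs j hj]
    refine Subtype.ext ?_
    rw [← hωz i, ← hωz j]
    funext r
    have h2 := congrFun h1 r
    unfold cell at h2
    rw [hθ1, hθ1] at h2
    have h3 : ∀ y : ℝ, ⌊y / δ⌋ = ⌊N * y⌋ / (d : ℤ) := by
      intro y
      have h4 := floor_coarse (B := d) (by omega) (Nat.zero_le 1) (y / δ)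
      rw [pow_zero, one_mul, pow_one, Nat.sub_zero, pow_one] at h4
      rw [h4, hN]
      congr 2
      ring
    rw [h3, h3, h2]
  obtain ⟨m, hm1, hm2⟩ := exists_nat_pow_near hN1 (show (1 : ℝ) < B by
    have : (2 : ℝ) ≤ B := by exact_mod_cast hB
    linarith)
  have hpc : ∀ k z, posCell B N k (θ z) (x z) =
      fun r => ⌊(B : ℝ) ^ k * linePos (ω z) (a (ω z)) r⌋ := by
    intro k z
    have e0 : ∀ r, x z r = N ^ 2 * a (ω z) r := by
      intro r
      rw [hx]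
      simp only [PiLp.smul_apply, smul_eq_mul]
    have e1 : axisPos N (θ z) (x z) = linePos (ω z) (a (ω z)) := by
      unfold axisPos linePos
      rw [e0 (Fin.last d), mul_div_cancel_left₀ _ hN2]
      congr 1
      funext r
      rw [e0, hθ1]
      field_simp
    funext r
    unfold posCell
    rw [e1]
  have hdc : ∀ k z, dirCell B k (θ z) = fun r => ⌊(B : ℝ) ^ k * ω z r⌋ := by
    intro k z
    funext r
    unfold dirCell
    rw [hθ1]
  have hnum : ∀ k z, numStick B N θ x k z ≤ K' := by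
    intro k z
    have h1 := hst k (dirCell B k (θ z))
    unfold numStick
    have h2 : ((((Finset.univ.filter fun j => dirCell B k (θ j) = dirCell B k (θ z)).image
        fun j => posCell B N k (θ j) (x j)) : Finset (Fin (d + 1) → ℤ)) : Set (Fin (d + 1) → ℤ)) ⊆
        (fun ω (r : Fin (d + 1)) => ⌊(B : ℝ) ^ k * linePos ω (a ω) r⌋) ''
        {ω ∈ A | (fun r => ⌊(B : ℝ) ^ k * ω r⌋) = dirCell B k (θ z)} := by
      intro y hy
      rw [Finset.mem_coe, Finset.mem_image] at hy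
      obtain ⟨j, hj, rfl⟩ := hy
      rw [Finset.mem_filter] at hj
      refine ⟨ω j, ⟨hωA j, ?_⟩, (hpc k j).symm⟩
      rw [← hj.2, hdc]
    have h3 := (Set.encard_le_encard h2).trans h1
    rw [Set.encard_coe_eq_coe_finsetCard] at h3
    exact_mod_cast h3
  have h1 : ∑ i, volume (tube N (θ i) (x i)) ≤
      ENNReal.ofReal (C0 * N ^ ε) * volume (⋃ i, tube N (θ i) (x i)) := by
    have h2 := hC0 m N hm1 hm2.le S θ x hcell (fun k _ _ z => by exact_mod_cast hnum k z)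
      (fun _ => 0) (fun i => by simp)
    simpa [volume_tube hN0.le] using h2
  have hsub : (⋃ i, tube N (θ i) (x i)) ⊆ (N ^ 2) • Metric.thickening δ E := by
    refine Set.iUnion_subset fun i => ?_
    rw [hx]
    refine mk_sub hd hN hδ (θ i) (a (ω i)) ?_
    intro t ht
    rw [hθ2]
    exact hE _ (hωA i) t ht
  have hvol : volume (⋃ i, tube N (θ i) (x i))
      ≤ ENNReal.ofReal ((N ^ 2) ^ (d + 1)) * volume (Metric.thickening δ E) := by
    refine (measure_mono hsub).trans (le_of_eq ?_)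
    rw [Measure.addHaar_smul, finrank_euclideanSpace, Fintype.card_fin,
      abs_of_nonneg (by positivity)]
  have hsum : ∑ i, volume (tube N (θ i) (x i)) =
      ENNReal.ofReal (Fintype.card S * N ^ (d + 2)) := by
    simp_rw [volume_tube hN0.le]
    rw [Finset.sum_const, Finset.card_univ, nsmul_eq_mul, ← ENNReal.ofReal_natCast,
      ← ENNReal.ofReal_mul (Nat.cast_nonneg _)]
  have hcard : (S.encard : ENNReal) = ENNReal.ofReal (Fintype.card S) := by
    rw [ENNReal.ofReal_natCast, ← Set.coe_fintypeCard S]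
    exact ENat.toENNReal_coe _
  have hNε : 0 < N ^ ε := Real.rpow_pos_of_pos hN0 _
  have hQ : 0 < C * N ^ ε * (N ^ 2) ^ (d + 1) := by positivity
  have hkey : C⁻¹ * ((d : ℝ) ^ ((d : ℝ) + ε))⁻¹ * δ ^ ((d : ℝ) + ε) * Fintype.card S *
      (C * N ^ ε * (N ^ 2) ^ (d + 1)) = Fintype.card S * N ^ (d + 2) := by
    have e1 : δ = d * N⁻¹ := by rw [hN]; field_simp
    have e2 : δ ^ ((d : ℝ) + ε) = (d : ℝ) ^ ((d : ℝ) + ε) * (N ^ d * N ^ ε)⁻¹ := by
      rw [e1, Real.mul_rpow hd0.le (by positivity), Real.inv_rpow hN0.le, Real.rpow_add hN0,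
        Real.rpow_natCast]
    have hdd : (0 : ℝ) < (d : ℝ) ^ ((d : ℝ) + ε) := Real.rpow_pos_of_pos hd0 _
    rw [e2, ← pow_mul, show 2 * (d + 1) = d + (d + 2) by ring, pow_add _ d (d + 2)]
    field_simp
  have h2 : (ENNReal.ofReal (C⁻¹ * ((d : ℝ) ^ ((d : ℝ) + ε))⁻¹ * δ ^ ((d : ℝ) + ε)) *
      (S.encard : ENNReal)) * ENNReal.ofReal (C * N ^ ε * (N ^ 2) ^ (d + 1)) ≤
      volume (Metric.thickening δ E) * ENNReal.ofReal (C * N ^ ε * (N ^ 2) ^ (d + 1)) := by
    rw [hcard, ← ENNReal.ofReal_mul (by positivity), ← ENNReal.ofReal_mul (by positivity), hkey,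
      ← hsum]
    refine h1.trans ?_
    refine (mul_le_mul' (ENNReal.ofReal_le_ofReal (mul_le_mul_of_nonneg_right
      (show C0 ≤ C by rw [hCd]; exact le_max_left _ _) hNε.le)) hvol).trans (le_of_eq ?_)
    rw [ENNReal.ofReal_mul (p := C * N ^ ε) (by positivity)]
    ring
  rwa [ENNReal.mul_le_mul_iff_left (by simpa using hQ) ENNReal.ofReal_ne_top] at h2

end STK
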