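import Pool.Agent.Lib.MP_ac5134_an.STK.KDefs

/-!
# STK-KPin: Pinsker's inequality (Hellinger form) for a conditional mutual information

`J(b,e) = P(X = b, E = e)`, `K(b,e) = P(X = b) P(φ X = φ b, E = e) / P(φ X = φ b)`; both have total mass
`≤ 1` (`J` exactly 1 over the supports) and `J > 0 → K > 0`.
`∑ J log (J/K) = cent p E (φ X) - cent p E X`.  From `-log t ≥ 2 (1 - √t)`:
`∑ J log (J/K) ≥ 2 ∑ J (1 - √(K/J)) = 2 (1 - ∑ √(J K)) ≥ ∑ (√J - √K)^2` (use `∑ J = 1`, `∑ K ≤ 1`), and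
`∑ |J - K| ≤ (∑ (√J-√K)^2)^(1/2) (∑ (√J+√K)^2)^(1/2) ≤ 2 (∑ (√J-√K)^2)^(1/2)`.
`cent_fannes`-type statements are in KFan.
-/

namespace STK
open Finset RFold
variable {Ω : Type*} [Fintype Ω] {p : Ω → ℝ} {β γ ε : Type*}

private theorem kp_sum_law_le {δ : Type*} (hp : IsPr p) (f : Ω → δ) (S : Finset δ) :
    ∑ b ∈ S, law p f b ≤ 1 := by
  classical
  have h := sum_law (p := p) (S := univ.image f ∪ S) f
    (fun ω _ => mem_union_left _ (mem_image_of_mem _ (mem_univ _))) (fun _ => (1 : ℝ))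
  simp only [mul_one] at h
  rw [hp.sum_eq] at h
  rw [h]
  exact sum_le_sum_of_subset_of_nonneg subset_union_right fun b _ _ => law_nonneg hp f b

private theorem kp_sum_law_pair_le (hp : IsPr p) (f : Ω → γ) (E : Ω → ε) (c : γ) (T : Finset ε) :
    ∑ e ∈ T, law p (fun ω => (f ω, E ω)) (c, e) ≤ law p f c := by
  classical
  unfold law pr
  rw [sum_comm]
  refine sum_le_sum fun ω _ => ?_
  have h0 := hp.nonneg ω
  by_cases hc : f ω = c
  · simp only [Prod.mk.injEq, hc, true_and, if_true]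
    rw [sum_ite_eq]
    split_ifs
    · exact le_rfl
    · exact h0
  · simp [hc]

/-- Two nonnegative families of total mass at most one. -/
private theorem kp_abs_le {ι : Type*} (U : Finset ι) (J K : ι → ℝ) (hJ : ∀ i ∈ U, 0 ≤ J i)
    (hK : ∀ i ∈ U, 0 ≤ K i) (hJ1 : ∑ i ∈ U, J i ≤ 1) (hK1 : ∑ i ∈ U, K i ≤ 1) :
    ∑ i ∈ U, |J i - K i| ≤ 2 * √(2 - 2 * ∑ i ∈ U, √(J i * K i)) := by
  have e1 : ∀ i ∈ U, (√(J i) - √(K i)) ^ 2 = J i + K i - 2 * √(J i * K i) := by
    intro i hi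
    rw [Real.sqrt_mul (hJ i hi)]
    have a := Real.sq_sqrt (hJ i hi)
    have b := Real.sq_sqrt (hK i hi)
    nlinarith
  have e2 : ∀ i ∈ U, (√(J i) + √(K i)) ^ 2 ≤ 2 * (J i + K i) := by
    intro i hi
    have a := Real.sq_sqrt (hJ i hi)
    have b := Real.sq_sqrt (hK i hi)
    nlinarith [sq_nonneg (√(J i) - √(K i))]
  have e3 : ∀ i ∈ U, |J i - K i| = |√(J i) - √(K i)| * (√(J i) + √(K i)) := by
    intro i hi
    have a := Real.sq_sqrt (hJ i hi)
    have b := Real.sq_sqrt (hK i hi)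
    have h : J i - K i = (√(J i) - √(K i)) * (√(J i) + √(K i)) := by nlinarith
    rw [h, abs_mul, abs_of_nonneg (a := √(J i) + √(K i)) (by positivity)]
  have h1 : ∑ i ∈ U, (√(J i) - √(K i)) ^ 2 ≤ 2 - 2 * ∑ i ∈ U, √(J i * K i) := by
    rw [sum_congr rfl e1, sum_sub_distrib, sum_add_distrib, ← mul_sum]
    linarith
  have h2 : ∑ i ∈ U, (√(J i) + √(K i)) ^ 2 ≤ 4 := by
    refine (sum_le_sum e2).trans ?_
    rw [← mul_sum, sum_add_distrib]
    linarith
  have h3 : (∑ i ∈ U, |√(J i) - √(K i)| * (√(J i) + √(K i))) ^ 2 ≤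
      (∑ i ∈ U, |√(J i) - √(K i)| ^ 2) * ∑ i ∈ U, (√(J i) + √(K i)) ^ 2 :=
    sum_mul_sq_le_sq_mul_sq U _ _
  simp only [sq_abs] at h3
  have h0 : 0 ≤ ∑ i ∈ U, (√(J i) - √(K i)) ^ 2 := sum_nonneg fun i _ => sq_nonneg _
  have h4 : (∑ i ∈ U, |J i - K i|) ^ 2 ≤ 4 * (2 - 2 * ∑ i ∈ U, √(J i * K i)) := by
    rw [sum_congr rfl e3]
    refine h3.trans ?_
    calc (∑ i ∈ U, (√(J i) - √(K i)) ^ 2) * ∑ i ∈ U, (√(J i) + √(K i)) ^ 2
        ≤ (∑ i ∈ U, (√(J i) - √(K i)) ^ 2) * 4 := mul_le_mul_of_nonneg_left h2 h0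
      _ ≤ (2 - 2 * ∑ i ∈ U, √(J i * K i)) * 4 := mul_le_mul_of_nonneg_right h1 (by norm_num)
      _ = _ := by ring
  have h5 := Real.abs_le_sqrt h4
  rw [Real.sqrt_mul (by norm_num), show (4 : ℝ) = 2 ^ 2 by norm_num,
    Real.sqrt_sq (by norm_num)] at h5
  exact (le_abs_self _).trans h5

theorem pinsker_cond (hp : IsPr p) (E : Ω → ε) (X : Ω → β) (φ : β → γ) (S : Finset β)
    (T : Finset ε) :
    ∑ b ∈ S, ∑ e ∈ T, |law p (fun ω => (X ω, E ω)) (b, e) -
        law p X b * law p (fun ω => (φ (X ω), E ω)) (φ b, e) / law p (fun ω => φ (X ω)) (φ b)| ≤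
      2 * √(cent p E (fun ω => φ (X ω)) - cent p E X) := by
  classical
  set J : β × ε → ℝ := law p (fun ω => (X ω, E ω)) with hJdef
  set K : β × ε → ℝ := fun i => law p X i.1 * law p (fun ω => (φ (X ω), E ω)) (φ i.1, i.2) /
    law p (fun ω => φ (X ω)) (φ i.1) with hKdef
  have hJ0 : ∀ i, 0 ≤ J i := fun i => law_nonneg hp _ _
  have hK0 : ∀ i, 0 ≤ K i := fun i =>
    div_nonneg (mul_nonneg (law_nonneg hp _ _) (law_nonneg hp _ _)) (law_nonneg hp _ _)
  set S' : Finset β := univ.image X ∪ S with hS'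
  set T' : Finset ε := univ.image E ∪ T with hT'
  set U : Finset (β × ε) := S' ×ˢ T' with hU
  have hmem : ∀ ω, (X ω, E ω) ∈ U := fun ω => mem_product.2
    ⟨mem_union_left _ (mem_image_of_mem _ (mem_univ _)),
      mem_union_left _ (mem_image_of_mem _ (mem_univ _))⟩
  have hJ1 : ∑ i ∈ U, J i = 1 := by
    have h := sum_law (p := p) (S := U) (fun ω => (X ω, E ω)) (fun ω _ => hmem ω)
      (fun _ => (1 : ℝ))
    simp only [mul_one] at h
    rw [hp.sum_eq] at h
    exact h.symm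
  have hK1 : ∑ i ∈ U, K i ≤ 1 := by
    rw [hU, sum_product]
    refine le_trans (sum_le_sum fun b _ => ?_) (kp_sum_law_le hp X S')
    have e : ∑ e ∈ T', K (b, e) = law p X b *
        ((∑ e ∈ T', law p (fun ω => (φ (X ω), E ω)) (φ b, e)) /
          law p (fun ω => φ (X ω)) (φ b)) := by
      rw [sum_div, mul_sum]
      exact sum_congr rfl fun e _ => by simp only [hKdef]; ring
    rw [e]
    refine mul_le_of_le_one_right (law_nonneg hp _ _) ?_
    exact div_le_one_of_le₀ (kp_sum_law_pair_le hp _ E (φ b) T') (law_nonneg hp _ _)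
  have hD : 2 - 2 * ∑ i ∈ U, √(J i * K i) ≤ cent p E (fun ω => φ (X ω)) - cent p E X := by
    have e1 : ∑ i ∈ U, √(J i * K i) = ∑ ω, p ω * √(K (X ω, E ω) / J (X ω, E ω)) := by
      rw [sum_law (p := p) (S := U) (fun ω => (X ω, E ω)) (fun ω _ => hmem ω)
        (fun i => √(K i / J i))]
      refine sum_congr rfl fun i _ => ?_
      change √(J i * K i) = J i * √(K i / J i)
      rcases (hJ0 i).eq_or_lt with h | h
      · rw [← h]; simp
      · have : J i * K i = J i ^ 2 * (K i / J i) := by field_simp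
        rw [this, Real.sqrt_mul (sq_nonneg _), Real.sqrt_sq h.le]
    rw [e1, cent_eq, cent_eq, ← sum_sub_distrib, mul_sum]
    have e2 : (2 : ℝ) = ∑ ω, p ω * 2 := by rw [← sum_mul, hp.sum_eq, one_mul]
    nth_rewrite 1 [e2]
    rw [← sum_sub_distrib]
    refine sum_le_sum fun ω _ => ?_
    by_cases h0 : p ω = 0
    · simp [h0]
    have p1 : 0 < law p X (X ω) := law_pos hp X h0
    have p2 : 0 < law p (fun ω => φ (X ω)) (φ (X ω)) := law_pos hp (fun ω => φ (X ω)) h0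
    have p3 : 0 < law p (fun ω => (φ (X ω), E ω)) (φ (X ω), E ω) :=
      law_pos hp (fun ω => (φ (X ω), E ω)) h0
    have p4 : 0 < J (X ω, E ω) := law_pos hp (fun ω => (X ω, E ω)) h0
    have q1 : law p (fun ω => (E ω, X ω)) (E ω, X ω) = J (X ω, E ω) :=
      pr_congr hp fun ω' _ => by simp only [Prod.mk.injEq]; exact and_comm
    have q2 : law p (fun ω => (E ω, φ (X ω))) (E ω, φ (X ω)) =
        law p (fun ω => (φ (X ω), E ω)) (φ (X ω), E ω) :=
      pr_congr hp fun ω' _ => by simp only [Prod.mk.injEq]; exact and_comm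
    have p5 : 0 < K (X ω, E ω) := div_pos (mul_pos p1 p3) p2
    have hlog : Real.log (K (X ω, E ω) / J (X ω, E ω)) =
        Real.log (law p X (X ω)) + Real.log (law p (fun ω => (φ (X ω), E ω)) (φ (X ω), E ω)) -
          Real.log (law p (fun ω => φ (X ω)) (φ (X ω))) - Real.log (J (X ω, E ω)) := by
      rw [Real.log_div p5.ne' p4.ne']
      simp only [hKdef]
      rw [Real.log_div (mul_pos p1 p3).ne' p2.ne', Real.log_mul p1.ne' p3.ne']
    have hs : 0 < K (X ω, E ω) / J (X ω, E ω) := div_pos p5 p4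
    have hle : Real.log (K (X ω, E ω) / J (X ω, E ω)) ≤
        2 * (√(K (X ω, E ω) / J (X ω, E ω)) - 1) := by
      have h1 := Real.log_le_sub_one_of_pos (Real.sqrt_pos.2 hs)
      rw [Real.log_sqrt hs.le] at h1
      linarith
    rw [q1, q2, ← mul_sub, show 2 * (p ω * √(K (X ω, E ω) / J (X ω, E ω))) =
      p ω * (2 * √(K (X ω, E ω) / J (X ω, E ω))) by ring, ← mul_sub]
    refine mul_le_mul_of_nonneg_left ?_ (hp.nonneg ω)
    linarith
  have hmain := kp_abs_le U J K (fun i _ => hJ0 i) (fun i _ => hK0 i) hJ1.le hK1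
  have hsub : ∑ b ∈ S, ∑ e ∈ T, |J (b, e) - K (b, e)| ≤ ∑ i ∈ U, |J i - K i| := by
    rw [← sum_product (s := S) (t := T) (f := fun i => |J i - K i|)]
    exact sum_le_sum_of_subset_of_nonneg
      (product_subset_product subset_union_right subset_union_right) fun _ _ _ => abs_nonneg _
  exact hsub.trans (hmain.trans (mul_le_mul_of_nonneg_left (Real.sqrt_le_sqrt hD) (by norm_num)))

end STK
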