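import Pool.Agent.Lib.MP_ac5134_an.STK.KErr
import Pool.Agent.Lib.MP_ac5134_an.STK.KPin

/-!
# STK-KNI: Lemma NI (near invariance), section (2.1) of the paper

Proof.  Write `J_z(f,e) = law p (X_q^z, E) (f,e)`, `P_z(γ,e) = law p (X_c^z, E) (γ,e)` and primes for `x'`.
For each `e` and `z`:
(1) `∑_f |J_z(f,e) - P_z(γ(f),e) u_z(f|γ(f))|` is the `e`-part of `pinsker_cond` for `X_q^z`
    (`law p X_q f * P_z(γ,e) / law p X_c γ = P_z(γ,e) u_z(f|γ)`, `γ(f) = f / B^(q-c)`, `Xc_coarse`);
(2) the same for `x'` with the shift `z - τ e`;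
(3) `∑_f |J_z(f,e) - J'_{z-τ e}(f,e)| ≤ 2 P(E = e, X_q^z ≠ X'_q^{z-τ e})`, and if `E ω = e` then
    `x' ω + (z - τ e)/N` is within `ρr` of `x ω + z/N`, so the cells differ only if
    `NearWall B q ρr (x ω + z/N)`.
Hence `∑_γ ∑_{f ∈ γ} |P_z(γ,e) u_z(f|γ) - P'_{z-τ e}(γ,e) u'_{z-τ e}(f|γ)| ≤ (1)+(2)+(3)`; summing over
`f ∈ γ` inside the absolute value, `∑_γ |P_z(γ,e) - P'_{z-τ e}(γ,e)| ≤` the same
(`∑_{f∈γ} P(γ,e) u(f|γ) = P(γ,e)`), so `∑_γ P_z(γ,e) errf(z,γ,e) ≤ 2 ((1)+(2)+(3))`
(`∑_{f∈γ} u'(f|γ) ≤ 1`).  Sum over `e`, average over `z`: for (2) use `avz_shift` for each fixed `e`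
(the function `z ↦ (2)_e(z)` is periodic), for the Pinsker terms `avz_sqrt`, for (3) `avz_near`.
-/

namespace STK
open Finset RFold
variable {Ω : Type*} [Fintype Ω] {ε : Type*} [Fintype ε] {b : ℕ}

/-! ### abstract lemmas -/

/-- `K(f,e) = P(X = f) P(φ X = φ f, E = e) / P(φ X = φ f)` -/
private noncomputable def niK {β γ ε : Type*} (p : Ω → ℝ) (X : Ω → β) (φ : β → γ) (E : Ω → ε)
    (f : β) (e : ε) : ℝ :=
  law p X f * law p (fun ω => (φ (X ω), E ω)) (φ f, e) / law p (fun ω => φ (X ω)) (φ f)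

private noncomputable def niA {β γ ε : Type*} (p : Ω → ℝ) (X : Ω → β) (φ : β → γ) (E : Ω → ε)
    (f : β) (e : ε) : ℝ :=
  |law p (fun ω => (X ω, E ω)) (f, e) - niK p X φ E f e|

private theorem ni_sum_fibre {β γ : Type*} {p : Ω → ℝ} (X : Ω → β) (φ : β → γ)
    (g : γ) (T : Finset β) (hT : ∀ f, f ∈ T ↔ φ f = g) :
    ∑ f ∈ T, law p X f = law p (fun ω => φ (X ω)) g := by
  classical
  unfold law pr
  rw [sum_comm]
  refine sum_congr rfl fun ω _ => ?_
  rw [sum_ite_eq]
  by_cases h : φ (X ω) = g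
  · rw [if_pos ((hT _).2 h), if_pos h]
  · rw [if_neg (fun h' => h ((hT _).1 h')), if_neg h]

private theorem ni_sum_fibre_pair {β γ ε : Type*} {p : Ω → ℝ} (X : Ω → β)
    (φ : β → γ) (E : Ω → ε) (g : γ) (e : ε) (T : Finset β) (hT : ∀ f, f ∈ T ↔ φ f = g) :
    ∑ f ∈ T, law p (fun ω => (X ω, E ω)) (f, e) = law p (fun ω => (φ (X ω), E ω)) (g, e) := by
  classical
  unfold law pr
  rw [sum_comm]
  refine sum_congr rfl fun ω _ => ?_
  simp only [Prod.mk.injEq]
  by_cases he : E ω = e
  · simp only [he, and_true]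
    rw [sum_ite_eq]
    by_cases h : φ (X ω) = g
    · rw [if_pos ((hT _).2 h), if_pos h]
    · rw [if_neg (fun h' => h ((hT _).1 h')), if_neg h]
  · simp [he]

private theorem ni_law_pair_le {γ ε : Type*} {p : Ω → ℝ} (hp : IsPr p) (X : Ω → γ) (E : Ω → ε)
    (g : γ) (e : ε) : law p (fun ω => (X ω, E ω)) (g, e) ≤ law p X g :=
  pr_mono hp fun _ _ h => (Prod.ext_iff.mp h).1

/-- one coarse cell -/
private theorem ni_cell {β γ ε : Type*} {p : Ω → ℝ} (hp : IsPr p) (X X' : Ω → β)
    (φ : β → γ) (E : Ω → ε) (g : γ) (e : ε) (T : Finset β) (hT : ∀ f, f ∈ T ↔ φ f = g) :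
    law p (fun ω => (φ (X ω), E ω)) (g, e) *
      ∑ f ∈ T, |law p X f / law p (fun ω => φ (X ω)) g -
        law p X' f / law p (fun ω => φ (X' ω)) g| ≤
      ∑ f ∈ T, (niA p X φ E f e + niA p X' φ E f e + 2 * |law p (fun ω => (X ω, E ω)) (f, e) -
        law p (fun ω => (X' ω, E ω)) (f, e)|) := by
  set P := law p (fun ω => (φ (X ω), E ω)) (g, e) with hP
  set P' := law p (fun ω => (φ (X' ω), E ω)) (g, e) with hP'
  have hP0 : 0 ≤ P := law_nonneg hp _ _
  have hu' : ∑ f ∈ T, law p X' f / law p (fun ω => φ (X' ω)) g ≤ 1 := by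
    rw [← sum_div, ni_sum_fibre X' φ g T hT]
    exact div_self_le_one _
  have hu0 : ∀ f, 0 ≤ law p X' f / law p (fun ω => φ (X' ω)) g := fun f =>
    div_nonneg (law_nonneg hp _ _) (law_nonneg hp _ _)
  have hPP : |P - P'| ≤ ∑ f ∈ T, |law p (fun ω => (X ω, E ω)) (f, e) -
        law p (fun ω => (X' ω, E ω)) (f, e)| := by
    rw [hP, hP', ← ni_sum_fibre_pair X φ E g e T hT, ← ni_sum_fibre_pair X' φ E g e T hT,
      ← sum_sub_distrib]
    exact abs_sum_le_sum_abs _ _
  have h1 : P * ∑ f ∈ T, |law p X f / law p (fun ω => φ (X ω)) g -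
        law p X' f / law p (fun ω => φ (X' ω)) g| ≤
      ∑ f ∈ T, (|P * (law p X f / law p (fun ω => φ (X ω)) g) -
        P' * (law p X' f / law p (fun ω => φ (X' ω)) g)| +
        |P - P'| * (law p X' f / law p (fun ω => φ (X' ω)) g)) := by
    rw [mul_sum]
    refine sum_le_sum fun f _ => ?_
    rw [← abs_of_nonneg hP0, ← abs_mul, abs_of_nonneg hP0]
    set u := law p X f / law p (fun ω => φ (X ω)) g
    set u' := law p X' f / law p (fun ω => φ (X' ω)) g with hu'def
    have e1 : P * (u - u') = (P * u - P' * u') + (P' - P) * u' := by ring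
    rw [e1]
    refine (abs_add_le _ _).trans ?_
    rw [abs_mul (P' - P) u', abs_of_nonneg (hu0 f), abs_sub_comm P' P]
  have h2 : ∑ f ∈ T, |P - P'| * (law p X' f / law p (fun ω => φ (X' ω)) g) ≤
      ∑ f ∈ T, |law p (fun ω => (X ω, E ω)) (f, e) - law p (fun ω => (X' ω, E ω)) (f, e)| := by
    rw [← mul_sum]
    refine le_trans (mul_le_of_le_one_right (abs_nonneg _) hu') hPP
  have h3 : ∀ f ∈ T, |P * (law p X f / law p (fun ω => φ (X ω)) g) -
        P' * (law p X' f / law p (fun ω => φ (X' ω)) g)| ≤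
      niA p X φ E f e + niA p X' φ E f e + |law p (fun ω => (X ω, E ω)) (f, e) -
        law p (fun ω => (X' ω, E ω)) (f, e)| := by
    intro f hf
    have hφ : φ f = g := (hT f).1 hf
    have e1 : P * (law p X f / law p (fun ω => φ (X ω)) g) = niK p X φ E f e := by
      unfold niK
      rw [hφ, hP]
      ring
    have e2 : P' * (law p X' f / law p (fun ω => φ (X' ω)) g) = niK p X' φ E f e := by
      unfold niK
      rw [hφ, hP']
      ring
    rw [e1, e2]
    unfold niA
    set j := law p (fun ω => (X ω, E ω)) (f, e)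
    set j' := law p (fun ω => (X' ω, E ω)) (f, e)
    set k := niK p X φ E f e
    set k' := niK p X' φ E f e
    have e3 : k - k' = (k - j) + (j' - k') + (j - j') := by ring
    rw [e3]
    refine (abs_add_le _ _).trans (add_le_add ((abs_add_le _ _).trans ?_) le_rfl)
    rw [abs_sub_comm k j]
  refine h1.trans ?_
  rw [sum_add_distrib]
  refine (add_le_add (sum_le_sum h3) h2).trans ?_
  rw [← sum_add_distrib]
  refine sum_le_sum fun f _ => ?_
  linarith

/-- the terms outside the image vanish -/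
private theorem niA_sum_le {β γ ε : Type*} [DecidableEq β] {p : Ω → ℝ} (hp : IsPr p) (X : Ω → β)
    (φ : β → γ) (E : Ω → ε) (e : ε) (T : Finset β) :
    ∑ f ∈ T, niA p X φ E f e ≤ ∑ f ∈ univ.image X, niA p X φ E f e := by
  classical
  have h0 : ∀ f, f ∉ univ.image X → niA p X φ E f e = 0 := by
    intro f hf
    have h1 : law p X f = 0 := by
      unfold law pr
      refine sum_eq_zero fun ω _ => if_neg ?_
      rintro rfl
      exact hf (mem_image_of_mem _ (mem_univ _))
    have h2 : law p (fun ω => (X ω, E ω)) (f, e) = 0 :=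
      le_antisymm ((ni_law_pair_le hp X E f e).trans h1.le) (law_nonneg hp _ _)
    unfold niA niK
    rw [h1, h2]
    simp
  have h1 : ∑ f ∈ T, niA p X φ E f e = ∑ f ∈ T ∩ univ.image X, niA p X φ E f e := by
    symm
    refine sum_subset inter_subset_left fun f hf hf' => h0 f fun h => hf' (mem_inter.2 ⟨hf, h⟩)
  rw [h1]
  exact sum_le_sum_of_subset_of_nonneg inter_subset_right fun f _ _ => abs_nonneg _

/-- translating the values -/
private theorem niA_translate {k : ℕ} {γ ε : Type*} {p : Ω → ℝ} (hp : IsPr p)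
    (X X' : Ω → Fin k → ℤ) (v : Fin k → ℤ) (hX : ∀ ω, X' ω = X ω + v)
    (φ : (Fin k → ℤ) → γ) (ψ : γ → γ) (hψ : Function.Injective ψ)
    (hφ : ∀ f, φ (f + v) = ψ (φ f)) (E : Ω → ε) (e : ε) :
    ∑ f ∈ univ.image X', niA p X' φ E f e = ∑ f ∈ univ.image X, niA p X φ E f e := by
  classical
  have hX' : X' = fun ω => X ω + v := funext hX
  subst hX'
  have h1 : univ.image (fun ω => X ω + v) = (univ.image X).map (addRightEmbedding v) := by
    ext f
    simp only [mem_image, mem_univ, true_and, mem_map, addRightEmbedding_apply]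
    constructor
    · rintro ⟨ω, rfl⟩
      exact ⟨X ω, ⟨ω, rfl⟩, rfl⟩
    · rintro ⟨_, ⟨ω, rfl⟩, rfl⟩
      exact ⟨ω, rfl⟩
  rw [h1, sum_map]
  refine sum_congr rfl fun f _ => ?_
  rw [addRightEmbedding_apply]
  unfold niA niK
  have a1 : law p (fun ω => (X ω + v, E ω)) (f + v, e) = law p (fun ω => (X ω, E ω)) (f, e) :=
    pr_congr hp fun ω _ => by simp only [Prod.mk.injEq, add_left_inj]
  have a2 : law p (fun ω => X ω + v) (f + v) = law p X f :=
    pr_congr hp fun ω _ => by simp only [add_left_inj]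
  have a3 : law p (fun ω => (φ (X ω + v), E ω)) (φ (f + v), e) =
      law p (fun ω => (φ (X ω), E ω)) (φ f, e) :=
    pr_congr hp fun ω _ => by simp only [Prod.mk.injEq, hφ, hψ.eq_iff]
  have a4 : law p (fun ω => φ (X ω + v)) (φ (f + v)) = law p (fun ω => φ (X ω)) (φ f) :=
    pr_congr hp fun ω _ => by simp only [hφ, hψ.eq_iff]
  rw [a1, a2, a3, a4]

/-- the difference of the joint laws -/
private theorem ni_diff {β ε : Type*} {p : Ω → ℝ} (hp : IsPr p) (X X' : Ω → β) (E : Ω → ε) (e : ε)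
    (T : Finset β) :
    ∑ f ∈ T, |law p (fun ω => (X ω, E ω)) (f, e) - law p (fun ω => (X' ω, E ω)) (f, e)| ≤
      2 * pr p (fun ω => E ω = e ∧ X ω ≠ X' ω) := by
  classical
  have h1 : ∀ f ∈ T, |law p (fun ω => (X ω, E ω)) (f, e) -
      law p (fun ω => (X' ω, E ω)) (f, e)| ≤
      ∑ ω, ((if E ω = e ∧ X ω ≠ X' ω then (if X ω = f then p ω else 0) else 0) +
        (if E ω = e ∧ X ω ≠ X' ω then (if X' ω = f then p ω else 0) else 0)) := by
    intro f _
    unfold law pr
    rw [← sum_sub_distrib]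
    refine (abs_sum_le_sum_abs _ _).trans (sum_le_sum fun ω _ => ?_)
    simp only [Prod.mk.injEq]
    have h0 := hp.nonneg ω
    by_cases he : E ω = e
    · by_cases hX : X ω = X' ω
      · simp [hX, he]
      · simp only [he, and_true, ne_eq, hX, not_false_iff, if_true]
        by_cases h1 : X ω = f
        · have h2 : X' ω ≠ f := fun h => hX (h1.trans h.symm)
          simp [h1, h2, abs_of_nonneg h0]
        · by_cases h2 : X' ω = f
          · simp [h1, h2, abs_of_nonneg h0]
          · simp [h1, h2]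
    · simp [he]
  refine (sum_le_sum h1).trans ?_
  rw [sum_comm]
  unfold pr
  rw [mul_sum]
  refine sum_le_sum fun ω _ => ?_
  have h0 := hp.nonneg ω
  rw [sum_add_distrib]
  by_cases h : E ω = e ∧ X ω ≠ X' ω
  · simp only [if_pos h]
    rw [sum_ite_eq, sum_ite_eq]
    have : ∀ (c : Prop) [Decidable c], (if c then p ω else 0) ≤ p ω := by
      intro c _
      split_ifs
      · exact le_rfl
      · exact h0
    linarith [this (X ω ∈ T), this (X' ω ∈ T)]
  · simp only [if_neg h]
    simp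

private theorem ni_mem_cb {B k : ℕ} (hB : 0 < B) (γ f : Fin b → ℤ) :
    f ∈ cb B k γ ↔ (fun r => f r / (B : ℤ) ^ k) = γ := by
  have hB' : (0 : ℤ) < (B : ℤ) ^ k := by positivity
  unfold cb
  rw [Fintype.mem_piFinset, funext_iff]
  refine forall_congr' fun r => ?_
  rw [mem_Ico]
  constructor
  · rintro ⟨h1, h2⟩
    refine le_antisymm ?_ ((Int.le_ediv_iff_mul_le hB').2 h1)
    have := (Int.ediv_lt_iff_lt_mul hB').2 h2
    omega
  · intro h
    rw [← h]
    constructor
    · exact Int.ediv_mul_le _ hB'.ne'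
    · have := Int.lt_ediv_add_one_mul_self (f r) hB'
      exact this

theorem near_inv {p : Ω → ℝ} (hp : IsPr p) {B c q N : ℕ} (hB : 2 ≤ B) (hN : 0 < N) (hcq : c ≤ q)
    (hdiv : B ^ q ∣ N) (x x' : Ω → Fin b → ℝ) (E : Ω → ε) (τ : ε → Fin b → ℤ) {ρr : ℝ}
    (hρ : 0 ≤ ρr) (hx : ∀ ω, p ω ≠ 0 → ∀ r, |x' ω r - x ω r - (τ (E ω) r : ℝ) / N| ≤ ρr) :
    errtot p B c q N x x' E τ ≤
      2 * (2 * √(avz N (fun z => cent p E (Xc B c (sh N z) x) - cent p E (Xc B q (sh N z) x))) +
        2 * √(avz N (fun z => cent p E (Xc B c (sh N z) x') - cent p E (Xc B q (sh N z) x'))) +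
        2 * (b * ((B : ℝ) ^ q * (2 * ρr + 1 / N)))) := by
  classical
  have hB0 : 0 < B := by omega
  set φ : (Fin b → ℤ) → Fin b → ℤ := fun f r => f r / (B : ℤ) ^ (q - c) with hφ
  have hcoarse : ∀ (z : Fin b → ℝ) (x : Ω → Fin b → ℝ),
      Xc B c z x = fun ω => φ (Xc B q z x ω) := fun z x =>
    funext fun ω => Xc_coarse hB0 hcq z x ω
  -- the periodic function
  set A : (Ω → Fin b → ℝ) → (Fin b → ℤ) → ε → ℝ := fun y z e =>
    ∑ f ∈ univ.image (Xc B q (sh N z) y), niA p (Xc B q (sh N z) y) φ E f e with hA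
  set I : (Ω → Fin b → ℝ) → (Fin b → ℤ) → ℝ := fun y z =>
    cent p E (Xc B c (sh N z) y) - cent p E (Xc B q (sh N z) y) with hI
  have hI0 : ∀ y z, 0 ≤ I y z := fun y z =>
    sub_nonneg.2 (cent_anti hp E (Xc_nest hB0 hcq (sh N z) y))
  have hAI : ∀ y z, ∑ e, A y z e ≤ 2 * √(I y z) := by
    intro y z
    have h := pinsker_cond hp E (Xc B q (sh N z) y) φ (univ.image (Xc B q (sh N z) y))
      (univ : Finset ε)
    rw [sum_comm] at h
    have e1 : I y z = cent p E (fun ω => φ (Xc B q (sh N z) y ω)) -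
        cent p E (Xc B q (sh N z) y) := by
      simp only [hI]
      rw [hcoarse]
    rw [e1]
    exact h
  have hAper : ∀ y e, Per N (fun z => A y z e) := by
    intro y e z j
    simp only [hA]
    refine niA_translate hp (Xc B q (sh N z) y) _ (Pi.single j ((B : ℤ) ^ q))
      (fun ω => Xc_period hB0 hN z j y ω) φ (fun g => g + Pi.single j ((B : ℤ) ^ c))
      (fun g g' h => add_right_cancel h) ?_ E e
    intro f
    funext r
    simp only [hφ, Pi.add_apply]
    rcases eq_or_ne r j with rfl | hr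
    · rw [Pi.single_eq_same, Pi.single_eq_same]
      have e1 : (B : ℤ) ^ q = (B : ℤ) ^ c * (B : ℤ) ^ (q - c) := by
        rw [← pow_add]
        congr 1
        omega
      rw [e1, Int.add_mul_ediv_right _ _ (by positivity)]
    · rw [Pi.single_eq_of_ne hr, Pi.single_eq_of_ne hr]
      simp
  have hAavg : ∀ y, avz N (fun z => ∑ e, A y z e) ≤ 2 * √(avz N (I y)) := by
    intro y
    refine (avz_mono (hAI y)).trans ?_
    rw [avz_mul]
    exact mul_le_mul_of_nonneg_left (avz_sqrt hN (hI0 y)) (by norm_num)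
  -- one shift
  have hone : ∀ z, ∑ ω, p ω * errf p B c q N x x' τ z (Xc B c (sh N z) x ω) (E ω) ≤
      ∑ e, A x z e + ∑ e, A x' (z - τ e) e +
        4 * pr p (fun ω => NearWall B q ρr (fun r => x ω r + sh N z r)) := by
    intro z
    have h1 := sum_law (p := p) (S := (univ.image (Xc B c (sh N z) x)) ×ˢ (univ : Finset ε))
      (fun ω => (Xc B c (sh N z) x ω, E ω))
      (fun ω _ => mem_product.2 ⟨mem_image_of_mem _ (mem_univ _), mem_univ _⟩)
      (fun i => errf p B c q N x x' τ z i.1 i.2)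
    simp only at h1
    rw [h1, sum_product_right]
    have h2 : ∀ e, ∑ g ∈ univ.image (Xc B c (sh N z) x),
        law p (fun ω => (Xc B c (sh N z) x ω, E ω)) (g, e) * errf p B c q N x x' τ z g e ≤
        A x z e + A x' (z - τ e) e +
          4 * pr p (fun ω => E ω = e ∧ NearWall B q ρr (fun r => x ω r + sh N z r)) := by
      intro e
      set S := univ.image (Xc B c (sh N z) x) with hS
      set X := Xc B q (sh N z) x with hX
      set X' := Xc B q (sh N (z - τ e)) x' with hX'
      have hdisj : (S : Set (Fin b → ℤ)).PairwiseDisjoint (cb B (q - c)) := by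
        intro g _ g' _ hgg
        rw [Function.onFun, disjoint_left]
        intro f hf hf'
        exact hgg (((ni_mem_cb hB0 g f).1 hf).symm.trans ((ni_mem_cb hB0 g' f).1 hf'))
      have h3 : ∀ g ∈ S, law p (fun ω => (Xc B c (sh N z) x ω, E ω)) (g, e) *
          errf p B c q N x x' τ z g e ≤ ∑ f ∈ cb B (q - c) g, (niA p X φ E f e +
            niA p X' φ E f e + 2 * |law p (fun ω => (X ω, E ω)) (f, e) -
              law p (fun ω => (X' ω, E ω)) (f, e)|) := by
        intro g _
        have := ni_cell hp X X' φ E g e (cb B (q - c) g) (fun f => ni_mem_cb hB0 g f)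
        rw [hX, hX', ← hcoarse, ← hcoarse] at this
        unfold errf uu
        rw [hcoarse (sh N z) x] at this ⊢
        exact this
      refine (sum_le_sum h3).trans ?_
      rw [← sum_biUnion hdisj]
      set T := S.biUnion (cb B (q - c)) with hT
      rw [sum_add_distrib, sum_add_distrib, ← mul_sum]
      have h4 := niA_sum_le hp X φ E e T
      have h5 := niA_sum_le hp X' φ E e T
      have h6 := ni_diff hp X X' E e T
      have h7 : pr p (fun ω => E ω = e ∧ X ω ≠ X' ω) ≤
          pr p (fun ω => E ω = e ∧ NearWall B q ρr (fun r => x ω r + sh N z r)) := by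
        refine pr_mono hp fun ω h0 h => ⟨h.1, ?_⟩
        by_contra hn
        refine h.2 ?_
        funext r
        have h8 := floor_eq_of_not_near hB0 hn
          (y' := fun r => x' ω r + sh N (z - τ e) r) (fun r => ?_) r
        · exact h8.symm
        · have h9 := hx ω h0 r
          rw [h.1] at h9
          have e1 : x' ω r + sh N (z - τ e) r - (x ω r + sh N z r) =
              x' ω r - x ω r - (τ e r : ℝ) / N := by
            unfold sh
            simp only [Pi.sub_apply, Int.cast_sub]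
            ring
          simp only [e1]
          exact h9
      have e1 : A x z e = ∑ f ∈ univ.image X, niA p X φ E f e := rfl
      have e2 : A x' (z - τ e) e = ∑ f ∈ univ.image X', niA p X' φ E f e := rfl
      rw [e1, e2]
      linarith
    refine (sum_le_sum fun e _ => h2 e).trans ?_
    rw [sum_add_distrib, sum_add_distrib, ← mul_sum]
    have h3 : ∑ e, pr p (fun ω => E ω = e ∧ NearWall B q ρr (fun r => x ω r + sh N z r)) =
        pr p (fun ω => NearWall B q ρr (fun r => x ω r + sh N z r)) := by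
      unfold pr
      rw [sum_comm]
      refine sum_congr rfl fun ω _ => ?_
      by_cases h : NearWall B q ρr (fun r => x ω r + sh N z r)
      · simp only [h, and_true]
        rw [sum_ite_eq, if_pos (mem_univ _)]
        simp
      · simp [h]
    rw [h3]
  have hnear : avz N (fun z => pr p (fun ω => NearWall B q ρr (fun r => x ω r + sh N z r))) ≤
      b * ((B : ℝ) ^ q * (2 * ρr + 1 / N)) := by
    have e1 : ∀ z : Fin b → ℤ, pr p (fun ω => NearWall B q ρr (fun r => x ω r + sh N z r)) =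
        ∑ ω, p ω * (if NearWall B q ρr (fun r => x ω r + sh N z r) then (1 : ℝ) else 0) := by
      intro z
      unfold pr
      refine sum_congr rfl fun ω _ => ?_
      rw [mul_ite, mul_one, mul_zero]
    simp only [e1]
    rw [avz_sum]
    have h1 : ∀ ω ∈ (univ : Finset Ω), avz N (fun z => p ω *
        (if NearWall B q ρr (fun r => x ω r + sh N z r) then (1 : ℝ) else 0)) ≤
        p ω * (b * ((B : ℝ) ^ q * (2 * ρr + 1 / N))) := by
      intro ω _
      rw [avz_mul]
      refine mul_le_mul_of_nonneg_left ?_ (hp.nonneg ω)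
      have := avz_near hB0 hN hdiv hρ (x ω)
      convert this
    refine (sum_le_sum h1).trans ?_
    rw [← sum_mul, hp.sum_eq, one_mul]
  unfold errtot
  refine (avz_mono hone).trans ?_
  have e2 : avz N (fun z => ∑ e, A x z e + ∑ e, A x' (z - τ e) e +
        4 * pr p (fun ω => NearWall B q ρr (fun r => x ω r + sh N z r))) =
      avz N (fun z => ∑ e, A x z e) + avz N (fun z => ∑ e, A x' z e) +
        4 * avz N (fun z => pr p (fun ω => NearWall B q ρr (fun r => x ω r + sh N z r))) := by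
    rw [avz_add, avz_add, avz_mul]
    congr 2
    rw [avz_sum, avz_sum]
    refine sum_congr rfl fun e _ => ?_
    have := avz_shift hN (hAper x' e) (-τ e)
    simp only [← sub_eq_add_neg] at this
    exact this
  rw [e2]
  have h1 := hAavg x
  have h2 := hAavg x'
  have h3 : 0 ≤ √(avz N (I x)) := Real.sqrt_nonneg _
  have h4 : 0 ≤ √(avz N (I x')) := Real.sqrt_nonneg _
  linarith

end STK
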