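import Pool.Agent.Lib.MP_ac5134_an.STK.KCore
import Pool.Agent.Lib.MP_ac5134_an.STK.KNum

/-!
# STK-KNode1: the core lemma at one node

`(Ω, p, Y)` is a system of level `i` (it will be a node).  `c = i + n`, `q = c + D`, `V = W_{c+s0}`, `x = P Y`,
`x' = P' Y`, `Λ = P' - P`, `|Λ| ≤ η ≤ B · B^(-(n+Dm))`, `N = B^q0`, `q + g ≤ q0`.
Proof of `node_core`.
* `E : Ω → Ω`: choose a representative in the support of every class of `W_{i+u}`: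
  `W_{i+u} (E ω) = W_{i+u} ω`, `p (E ω) ≠ 0` for `p ω ≠ 0`, and `E ω` depends only on `W_{i+u} ω`; so
  `cent p E g = cent p W_{i+u} g`.
* `τ e r = round (N (ΛY(e))_r)` if `p e ≠ 0`, and `τ e = τ ω*` (`ω*` a fixed point of the support) otherwise.
* `hx`: `|x' ω r - x ω r - τ(E ω) r / N| ≤ |Λ (Y ω - Y (E ω))| + 1/N ≤ ρr := 2 d η C0 B^(-(i+u)) + 1/N`.
* `hτ`: `|τ e r - τ e' r| ≤ N 2 d η C0 B^(-i) + 1 ≤ N (2 d C0 B B^(-(c+Dm))) + 1` for points of the support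
  (`lip` with `k = i`, `base`); with `ρ = ρ0 B^(-c)` and `1/N ≤ B^(-c) B^(-g)` this is `hK0`.
* `hV`: `lip` for `k = c + s0`.
* (H3): `far` at scale `2 B^(-q)` for `(y.1, y.2)` implies
  `|τ(E y.1) r - τ(E y.2) r| / N ≥ 2 B^(-q) - 2 ρr ≥ B^(-q)` (`hrr`: `2 ρr ≤ B^(-q)`).
* `hnum`, `hN1` of the core lemma follow from `hnum`, `hN1` here: `B^c (2ρ + 1/N) ≤ 2ρ0 + ν`,
  `B^q (2ρr + 1/N) ≤ 2(2 d C0 B B^(D-Dm)/B^u + ν) + ν =: rr`, `B^c (2 C1 B^(-(c+s0)) + 1/N) ≤ 2 C1 B^(-s0) + ν`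
  with `ν = B^(-g)`, and `q - (c+s0) = D - s0`, `q - c = D`.
-/

namespace STK
open Finset RFold Pool.Agent.MPac5134.SD

variable {Ω : Type} [Fintype Ω]

private theorem kn_rep {γ : Type*} {p : Ω → ℝ} (hp : IsPr p) (W : Ω → γ) :
    ∃ (E : Ω → Ω) (ω0 : Ω), p ω0 ≠ 0 ∧ (∀ ω, p ω ≠ 0 → p (E ω) ≠ 0 ∧ W (E ω) = W ω) ∧
      ∀ ω ω', W ω = W ω' → E ω = E ω' := by
  classical
  obtain ⟨ω0, h0⟩ : ∃ ω, p ω ≠ 0 := by
    by_contra h
    push Not at h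
    have := hp.sum_eq
    rw [Finset.sum_eq_zero fun ω _ => h ω] at this
    exact zero_ne_one this
  obtain ⟨rep, hrep⟩ : ∃ rep : γ → Ω, ∀ w, (∃ ω, p ω ≠ 0 ∧ W ω = w) →
      p (rep w) ≠ 0 ∧ W (rep w) = w := by
    refine ⟨fun w => if h : ∃ ω, p ω ≠ 0 ∧ W ω = w then h.choose else ω0, fun w h => ?_⟩
    simp only [dif_pos h]
    exact h.choose_spec
  exact ⟨fun ω => rep (W ω), ω0, h0, fun ω hω => hrep (W ω) ⟨ω, hω, rfl⟩,
    fun ω ω' h => congrArg rep h⟩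

omit [Fintype Ω] in
private theorem kn_obs_sub {b d : ℕ} (P P' : Matrix (Fin b) (Co d) ℝ) (Y : Ω → Co d → ℝ) (ω : Ω)
    (r : Fin b) : obs (P' - P) Y ω r = obs P' Y ω r - obs P Y ω r := by
  unfold obs
  rw [← Finset.sum_sub_distrib]
  exact Finset.sum_congr rfl fun c _ => by rw [Matrix.sub_apply, sub_mul]

omit [Fintype Ω] in
private theorem kn_lip {b d : ℕ} {L : Matrix (Fin b) (Co d) ℝ} {m : ℝ} (hm : 0 ≤ m)
    (hL : ∀ r c, |L r c| ≤ m) {Y : Ω → Co d → ℝ} {ω ω' : Ω} {t : ℝ}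
    (h : ∀ c, |Y ω c - Y ω' c| ≤ t) (r : Fin b) : |obs L Y ω r - obs L Y ω' r| ≤ 2 * d * m * t := by
  unfold obs
  rw [← Finset.sum_sub_distrib]
  refine (Finset.abs_sum_le_sum_abs _ _).trans ?_
  have h1 : ∀ c ∈ (univ : Finset (Co d)), |L r c * Y ω c - L r c * Y ω' c| ≤ m * t := by
    intro c _
    rw [← mul_sub, abs_mul]
    exact mul_le_mul (hL r c) (h c) (abs_nonneg _) hm
  refine (Finset.sum_le_sum h1).trans (le_of_eq ?_)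
  rw [Finset.sum_const, nsmul_eq_mul, Finset.card_univ, Fintype.card_sum, Fintype.card_fin]
  push_cast
  ring

theorem node_core {B b d : ℕ} (hB : 2 ≤ B) {C0 M : ℝ} (hC0 : 0 ≤ C0) (hM : 0 ≤ M) {i : ℕ}
    {p : Ω → ℝ} {Y : Ω → Co d → ℝ} (hsys : IsSys B d C0 i p Y) {P P' : Matrix (Fin b) (Co d) ℝ}
    (hP : ∀ r c, |P r c| ≤ M) {n D Dm s0 u g K q0 : ℕ} {ρ0 β τ0 ε0 h2 x4 κ th2 : ℝ}
    (hnum : Num B d b C0 M ρ0 β τ0 ε0 h2 x4 κ th2 D Dm s0 u g K)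
    (hη : Near (B * ((B : ℝ) ^ (n + Dm))⁻¹) P P') (hq0 : i + n + D + g ≤ q0)
    (H1 : avz (B ^ q0) (fun z => cent p (Wc B (i + u) Y) (Xc B (i + n) (sh (B ^ q0) z) (obs P Y)) -
      cent p (Wc B (i + u) Y) (Xc B (i + n + D) (sh (B ^ q0) z) (obs P Y))) ≤ ε0)
    (H1' : avz (B ^ q0) (fun z => cent p (Wc B (i + u) Y) (Xc B (i + n) (sh (B ^ q0) z) (obs P' Y)) -
      cent p (Wc B (i + u) Y) (Xc B (i + n + D) (sh (B ^ q0) z) (obs P' Y))) ≤ ε0)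
    (H2 : avz (B ^ q0) (fun z => cent p (Xc B (i + n + D) (sh (B ^ q0) z) (obs P Y))
        (Xc B (i + n) (sh (B ^ q0) z) (obs P Y))) -
      cent p (Xc B (i + n + D) 0 (obs P Y)) (Wc B (i + n + s0) Y) ≤ h2)
    (H3 : κ ≤ avz (B ^ q0) (fun z => A1 B (B ^ q0) p Y P P' (i + n) (i + n + D) z)) :
    κ / 4 ≤ pr p (Drop B p Y P th2 (D - s0) (i + n + s0)) := by
  classical
  have hp := hsys.pr
  have hB0 : 0 < B := by omega
  have hBR : (0 : ℝ) < B := by exact_mod_cast hB0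
  have hB1R : (1 : ℝ) ≤ B := by exact_mod_cast hB0
  obtain ⟨N, hN⟩ : ∃ N : ℕ, N = B ^ q0 := ⟨_, rfl⟩
  rw [← hN] at H1 H1' H2 H3
  have hNpos : 0 < N := by rw [hN]; positivity
  have hNR : (0 : ℝ) < N := by exact_mod_cast hNpos
  have hNcast : (N : ℝ) = (B : ℝ) ^ q0 := by rw [hN]; push_cast; ring
  obtain ⟨c, hc⟩ : ∃ c : ℕ, c = i + n := ⟨_, rfl⟩
  obtain ⟨q, hq⟩ : ∃ q : ℕ, q = c + D := ⟨_, rfl⟩
  obtain ⟨cV, hcV⟩ : ∃ cV : ℕ, cV = c + s0 := ⟨_, rfl⟩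
  obtain ⟨η, hηd⟩ : ∃ η : ℝ, η = B * ((B : ℝ) ^ (n + Dm))⁻¹ := ⟨_, rfl⟩
  have hs0 := hnum.s0_le
  rw [← hc] at H1 H1' H2 H3 ⊢
  rw [← hq] at H1 H1' H2 H3
  rw [← hcV] at H2 ⊢
  rw [← hηd] at hη
  have hη0 : 0 ≤ η := by rw [hηd]; positivity
  have hqcV : q - cV = D - s0 := by omega
  have hqc : q - c = D := by omega
  obtain ⟨L, hL⟩ : ∃ L : Matrix (Fin b) (Co d) ℝ, L = P' - P := ⟨_, rfl⟩
  have hLη : ∀ r c, |L r c| ≤ η := by
    intro r c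
    rw [hL, Matrix.sub_apply]
    exact hη r c
  obtain ⟨E, ω0, hω0, hE, hE'⟩ := kn_rep hp (Wc B (i + u) Y)
  obtain ⟨τ, hτd⟩ : ∃ τ : Ω → Fin b → ℤ, τ = fun e r =>
    if p e ≠ 0 then round ((N : ℝ) * obs L Y e r) else round ((N : ℝ) * obs L Y ω0 r) := ⟨_, rfl⟩
  have hτex : ∀ e, ∃ e', p e' ≠ 0 ∧ ∀ r, τ e r = round ((N : ℝ) * obs L Y e' r) := by
    intro e
    rw [hτd]
    by_cases h : p e ≠ 0
    · exact ⟨e, h, fun r => by simp only [if_pos h]⟩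
    · exact ⟨ω0, hω0, fun r => by simp only [if_neg h]⟩
  have hτs : ∀ e, p e ≠ 0 → ∀ r, τ e r = round ((N : ℝ) * obs L Y e r) := by
    intro e he r
    rw [hτd]
    simp only [if_pos he]
  -- the basic Lipschitz bounds
  have hbase : ∀ ω ω', p ω ≠ 0 → p ω' ≠ 0 → ∀ r,
      |obs L Y ω r - obs L Y ω' r| ≤ 2 * d * η * (C0 * ((B : ℝ) ^ i)⁻¹) := fun ω ω' h h' r =>
    kn_lip hη0 hLη (hsys.lip i le_rfl ω ω' h h' (hsys.base ω ω' h h')) r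
  -- 1/N
  have hNg : ∀ k, k + g ≤ q0 → (B : ℝ) ^ k / N ≤ ((B : ℝ) ^ g)⁻¹ := by
    intro k hk
    rw [hNcast, div_le_iff₀ (by positivity), ← div_eq_inv_mul, le_div_iff₀ (by positivity), ← pow_add]
    exact pow_le_pow_right₀ hB1R hk
  obtain ⟨ν, hν⟩ : ∃ ν : ℝ, ν = ((B : ℝ) ^ g)⁻¹ := ⟨_, rfl⟩
  obtain ⟨t, ht⟩ : ∃ t : ℝ, t = 2 * d * C0 * B * ((B : ℝ) ^ D / (B : ℝ) ^ Dm / (B : ℝ) ^ u) :=
    ⟨_, rfl⟩
  have hcN : (B : ℝ) ^ c / N ≤ ν := by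
    rw [hν]
    exact hNg c (by omega)
  have hqN : (B : ℝ) ^ q / N ≤ ν := by
    rw [hν]
    exact hNg q (by omega)
  obtain ⟨ρr, hρr⟩ : ∃ ρr : ℝ, ρr = 2 * d * η * (C0 * ((B : ℝ) ^ (i + u))⁻¹) + 1 / N := ⟨_, rfl⟩
  have hρr0 : 0 ≤ ρr := by rw [hρr]; positivity
  have hρrq : (B : ℝ) ^ q * ρr = t + (B : ℝ) ^ q / N := by
    rw [hρr, hηd, ht, hq, hc]
    simp only [pow_add]
    field_simp
  have hρq2 : 2 * ρr ≤ ((B : ℝ) ^ q)⁻¹ := by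
    have h1 := hnum.hrr
    rw [← ht, ← hν] at h1
    have hBq : (0 : ℝ) < (B : ℝ) ^ q := by positivity
    rw [← one_div, le_div_iff₀ hBq]
    have h2 : 2 * ρr * (B : ℝ) ^ q = 2 * (t + (B : ℝ) ^ q / N) := by
      rw [← hρrq]
      ring
    rw [h2]
    linarith
  have hround : ∀ v : ℝ, |v - (round ((N : ℝ) * v) : ℝ) / N| ≤ 1 / 2 / N := by
    intro v
    have h1 := abs_sub_round ((N : ℝ) * v)
    have h2 : v - (round ((N : ℝ) * v) : ℝ) / N = ((N : ℝ) * v - round ((N : ℝ) * v)) / N := by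
      field_simp
    rw [h2, abs_div, abs_of_pos hNR]
    exact div_le_div_of_nonneg_right h1 hNR.le
  have hxL : ∀ ω, p ω ≠ 0 → ∀ r, |obs L Y ω r - (τ (E ω) r : ℝ) / N| ≤ ρr := by
    intro ω hω r
    obtain ⟨hE1, hE2⟩ := hE ω hω
    have h1 := kn_lip hη0 hLη (hsys.lip (i + u) (Nat.le_add_right i u) ω (E ω) hω hE1 hE2.symm) r
    have h2 := hround (obs L Y (E ω) r)
    rw [← hτs (E ω) hE1 r] at h2
    have h3 : obs L Y ω r - (τ (E ω) r : ℝ) / N = (obs L Y ω r - obs L Y (E ω) r) +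
      (obs L Y (E ω) r - (τ (E ω) r : ℝ) / N) := by ring
    rw [h3, hρr]
    have h4 : 1 / 2 / (N : ℝ) ≤ 1 / N := div_le_div_of_nonneg_right (by norm_num) hNR.le
    exact (abs_add_le _ _).trans (add_le_add h1 (h2.trans h4))
  have hx : ∀ ω, p ω ≠ 0 → ∀ r, |obs P' Y ω r - obs P Y ω r - (τ (E ω) r : ℝ) / N| ≤ ρr := by
    intro ω hω r
    rw [← kn_obs_sub, ← hL]
    exact hxL ω hω r
  have hτ : ∀ e e' r, K * |(τ e r : ℝ) - τ e' r| ≤ ρ0 * ((B : ℝ) ^ c)⁻¹ * N := by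
    intro e e' r
    obtain ⟨e1, he1, hr1⟩ := hτex e
    obtain ⟨e2, he2, hr2⟩ := hτex e'
    have h1 := hbase e1 e2 he1 he2 r
    have h2 : |(τ e r : ℝ) - τ e' r| ≤ N * (2 * d * η * (C0 * ((B : ℝ) ^ i)⁻¹)) + 1 := by
      rw [hr1 r, hr2 r]
      have a1 := abs_le.1 (abs_sub_round ((N : ℝ) * obs L Y e1 r))
      have a2 := abs_le.1 (abs_sub_round ((N : ℝ) * obs L Y e2 r))
      have a3 : |(N : ℝ) * obs L Y e1 r - N * obs L Y e2 r| ≤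
          N * (2 * d * η * (C0 * ((B : ℝ) ^ i)⁻¹)) := by
        rw [← mul_sub, abs_mul, abs_of_pos hNR]
        exact mul_le_mul_of_nonneg_left h1 hNR.le
      have a4 := abs_le.1 a3
      rw [abs_le]
      constructor <;> linarith [a1.1, a1.2, a2.1, a2.2, a4.1, a4.2]
    have h3 := hnum.hK0
    have hK' : (0 : ℝ) ≤ K := Nat.cast_nonneg K
    refine (mul_le_mul_of_nonneg_left h2 hK').trans ?_
    have hBc : (0 : ℝ) < (B : ℝ) ^ c := by positivity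
    have h4 : (K : ℝ) * (N * (2 * d * η * (C0 * ((B : ℝ) ^ i)⁻¹)) + 1) =
        K * (2 * d * C0 * B * ((B : ℝ) ^ Dm)⁻¹ + (B : ℝ) ^ c / N) * (((B : ℝ) ^ c)⁻¹ * N) := by
      rw [hηd, hc]
      simp only [pow_add]
      field_simp
    rw [h4, mul_assoc ρ0]
    refine mul_le_mul_of_nonneg_right (le_trans ?_ h3) (by positivity)
    refine mul_le_mul_of_nonneg_left ?_ hK'
    rw [← hν]
    linarith
  have hV : ∀ ω ω', p ω ≠ 0 → p ω' ≠ 0 → Wc B cV Y ω = Wc B cV Y ω' → ∀ r,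
      |obs P Y ω r - obs P Y ω' r| ≤ 2 * d * M * C0 * ((B : ℝ) ^ cV)⁻¹ := by
    intro ω ω' h h' hw r
    have h1 := kn_lip hM hP (hsys.lip cV (by omega) ω ω' h h' hw) r
    calc _ ≤ _ := h1
      _ = _ := by ring
  have hD1 : Det p E (Wc B (i + u) Y) := by
    intro ω ω' h h' he
    rw [← (hE ω h).2, ← (hE ω' h').2, he]
  have hD2 : Det p (Wc B (i + u) Y) E := fun ω ω' _ _ he => hE' ω ω' he
  have hcent : ∀ {γ : Type} (f : Ω → γ), cent p E f = cent p (Wc B (i + u) Y) f := fun f =>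
    cent_congr hp (Det.refl f) (Det.refl f) (Det.fst hD1) (Det.fst hD2)
  have H1E : avz N (fun z => cent p E (Xc B c (sh N z) (obs P Y)) -
      cent p E (Xc B q (sh N z) (obs P Y))) ≤ ε0 := by
    simp only [hcent]
    exact H1
  have H1E' : avz N (fun z => cent p E (Xc B c (sh N z) (obs P' Y)) -
      cent p E (Xc B q (sh N z) (obs P' Y))) ≤ ε0 := by
    simp only [hcent]
    exact H1'
  have H3E : κ ≤ avz N (fun z => pr (gl p p (Xc B c (sh N z) (obs P Y)) (Xc B c (sh N z) (obs P Y)))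
      (fun y => ∃ r, ((B : ℝ) ^ q)⁻¹ * N ≤ |(τ (E y.1) r : ℝ) - τ (E y.2) r|)) := by
    refine H3.trans (avz_mono fun z => ?_)
    unfold A1
    refine pr_mono (isPr_gl hp hp fun _ => rfl) fun y hy hfar => ?_
    obtain ⟨h1, h2, -⟩ := gl_ne_zero hy
    obtain ⟨r, hr⟩ := hfar
    rw [← hL] at hr
    refine ⟨r, ?_⟩
    have a1 := abs_le.1 (hxL y.1 h1 r)
    have a2 := abs_le.1 (hxL y.2 h2 r)
    have h3 : ((B : ℝ) ^ q)⁻¹ ≤ |(τ (E y.1) r : ℝ) / N - (τ (E y.2) r : ℝ) / N| := by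
      rcases le_abs'.1 hr with h | h
      · rw [le_abs']
        left
        linarith [a1.1, a1.2, a2.1, a2.2]
      · rw [le_abs']
        right
        linarith [a1.1, a1.2, a2.1, a2.2]
    rw [← sub_div, abs_div, abs_of_pos hNR, le_div_iff₀ hNR] at h3
    exact h3
  have hnn := hnum.hnum
  have hN1 := hnum.hN1
  rw [← ht, ← hν] at hnn
  have hC1 : 0 ≤ 2 * d * M * C0 := by positivity
  have hlogB : 0 ≤ Real.log B := Real.log_nonneg hB1R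
  have hlog5 : 0 ≤ Real.log (2 * (2 * d * M * C0) + 5) := Real.log_nonneg (by linarith)
  have hnum' : (8 * 3 ^ b + 3 ^ b / β) * (b * ((B : ℝ) ^ c * (2 * (ρ0 * ((B : ℝ) ^ c)⁻¹) + 1 / N))) +
      5 * K * (2 * (4 * √ε0 + 2 * (b * ((B : ℝ) ^ q * (2 * ρr + 1 / N))))) / τ0 +
      (h2 + b * Real.log 2 + b * ((B : ℝ) ^ c * (2 * (2 * d * M * C0 * ((B : ℝ) ^ cV)⁻¹) + 1 / N)) *
        (b * ((q - cV : ℕ) * Real.log B + Real.log (2 * (2 * d * M * C0) + 5)))) / x4 ≤ κ / 2 := by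
    have hβ0 := hnum.β_pos
    have hτ0 := hnum.τ0_pos
    have hx4 := hnum.x4_pos
    have e1 : (B : ℝ) ^ c * (2 * (ρ0 * ((B : ℝ) ^ c)⁻¹) + 1 / N) = 2 * ρ0 + (B : ℝ) ^ c / N := by
      have : (B : ℝ) ^ c ≠ 0 := by positivity
      field_simp
    have e2 : (B : ℝ) ^ q * (2 * ρr + 1 / N) = 2 * (t + (B : ℝ) ^ q / N) + (B : ℝ) ^ q / N := by
      rw [← hρrq]
      ring
    have e3 : (B : ℝ) ^ c * (2 * (2 * d * M * C0 * ((B : ℝ) ^ cV)⁻¹) + 1 / N) =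
        2 * (2 * d * M * C0 * ((B : ℝ) ^ s0)⁻¹) + (B : ℝ) ^ c / N := by
      rw [hcV, pow_add]
      field_simp
    rw [e1, e2, e3, hqcV]
    refine le_trans (add_le_add (add_le_add ?_ ?_) ?_) hnn
    · refine mul_le_mul_of_nonneg_left ?_ (by positivity)
      exact mul_le_mul_of_nonneg_left (by linarith) (Nat.cast_nonneg b)
    · refine div_le_div_of_nonneg_right ?_ hτ0.le
      refine mul_le_mul_of_nonneg_left ?_ (by positivity)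
      have : (b : ℝ) * (2 * (t + (B : ℝ) ^ q / N) + (B : ℝ) ^ q / N) ≤ b * (2 * (t + ν) + ν) :=
        mul_le_mul_of_nonneg_left (by linarith) (Nat.cast_nonneg b)
      linarith
    · refine div_le_div_of_nonneg_right ?_ hx4.le
      have h5 : (b : ℝ) * (2 * (2 * d * M * C0 * ((B : ℝ) ^ s0)⁻¹) + (B : ℝ) ^ c / N) ≤
          b * (2 * (2 * d * M * C0 * ((B : ℝ) ^ s0)⁻¹) + ν) :=
        mul_le_mul_of_nonneg_left (by linarith) (Nat.cast_nonneg b)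
      have h6 : 0 ≤ (b : ℝ) * ((D - s0 : ℕ) * Real.log B + Real.log (2 * (2 * d * M * C0) + 5)) := by
        positivity
      have h7 := mul_le_mul_of_nonneg_right h5 h6
      linarith
  have hρle : ρ0 * ((B : ℝ) ^ c)⁻¹ ≤ ((B : ℝ) ^ c)⁻¹ :=
    mul_le_of_le_one_left (by positivity) hnum.ρ0_le
  have hρn : 0 ≤ ρ0 * ((B : ℝ) ^ c)⁻¹ := mul_nonneg hnum.ρ0_nonneg (by positivity)
  have hdiv : B ^ q ∣ N := by
    rw [hN]
    exact pow_dvd_pow B (by omega)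
  have key := core_lemma hp (c := c) (cV := cV) (q := q) (N := N) (K := K) hB hNpos (by omega)
    (by omega) hdiv hnum.K_pos (obs P Y) (obs P' Y) E τ (Wc B cV Y) hρr0 hρn hρle hnum.β_pos
    hnum.β_le hnum.τ0_pos hC1 hnum.x4_pos hnum.κ_pos hnum.th2_nonneg hnum.th2_le hx hτ hV H1E H1E'
    H2 H3E hnum' (by rw [hqcV, hqc]; exact hN1)
  refine key.trans (le_of_eq ?_)
  have hcd : cV + (D - s0) = q := by omega
  unfold Drop
  rw [hqcV, hcd]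

end STK
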