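import Pool.Agent.Lib.MP_ac5134_an.STK.KNum

/-!
# STK-KPar: choice of the constants

`κ1 = min a 1 / 64`, `th2 = th = min a 1 / 16`, `κ = κ1^2/2`.
`τ0 = th2/(32 (b+1))`, `β = th2/(256 (b+1))` (so `(τ0 + 4β) b ≤ th2/16`),
`ρ0 = κ/(32 (8 3^b + 3^b/β) (b+1))`; `s0` with `b^2 2 C1 B^(-s0) ≤ κ th2/512` (`C1 = 2 d M C0`); `ε` small:
`16 ε ≤ a`, `(3+d) ε ≤ th κ1^4/128` and `32 (3+d) ε/κ1^2 ≤ κ th2/256`.
Given `Dp`; for large `Dm` let `D = Dm + Dp`, `x4 = (th2/16) D LB`, `G0 = 2 d C0 B + 1`,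
`K = ⌊ρ0 B^Dm/(2 G0)⌋` (`log K ≥ Dm LB - log (4 G0/ρ0)`, `K ≤ B^Dm`),
`c2 = b log 2 + b log (2 C1 + 5)`, `h2 = 16 (h2a + c2)/κ1^2` with
`h2a = 2 (3+d) ε D LB + 4 b log 2 + d LB s0 + 1`.
Conditions that hold for large `Dm` (everything compared with `D LB`, `D - Dm = Dp` fixed):
* `hN1`: `const + (th2/16) D LB + (th2/16) D LB + (D - s0) LB - (th2/2) (D - s0) LB ≤ Dm LB - log (4G0/ρ0)`;
* third part of `hnum`: `(h2 + b log 2 + b^2 (2 C1 B^(-s0) + ν)(D LB + log (2C1+5)))/x4 ≤ κ/4`, i.e.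
  `16 (h2a + c2)/κ1^2 + b log 2 + .. ≤ (κ th2/64) D LB`, with `32(3+d)ε/κ1^2 ≤ κ th2/256`,
  `b^2 2 C1 B^(-s0) ≤ κ th2/512`, `b^2 ν ≤ κ th2/512`.
Then choose `g` (`ν = B^(-g)`): `ν ≤ B^(-Dm)`, `b^2 ν ≤ κ th2/512`, `(8 3^b + 3^b/β) b ν ≤ κ/16`, and `g`, `u`
large, `ε0 > 0` small so that the second part of `hnum` is `≤ κ/8` (first part `≤ κ/8`) and `hrr` holds.
-/

namespace STK

/-- `C B^(-t) ≤ δ` for large `t` -/
theorem par_small {B : ℕ} (hB : 2 ≤ B) (C : ℝ) {δ : ℝ} (hδ : 0 < δ) :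
    ∃ s : ℕ, ∀ t, s ≤ t → C * ((B : ℝ) ^ t)⁻¹ ≤ δ := by
  refine ⟨⌈C / δ⌉₊, fun t ht => ?_⟩
  have h1 : C / δ ≤ t := (Nat.le_ceil _).trans (by exact_mod_cast ht)
  have h2 : (t : ℝ) ≤ (B : ℝ) ^ t := by
    have h3 : t ≤ B ^ t := (Nat.lt_pow_self (by omega)).le
    exact_mod_cast h3
  have hBp : (0 : ℝ) < (B : ℝ) ^ t := by
    have : (0 : ℝ) < B := by exact_mod_cast (by omega : 0 < B)
    positivity
  rw [← div_eq_mul_inv, div_le_iff₀ hBp]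
  rw [div_le_iff₀ hδ] at h1
  calc C ≤ t * δ := h1
    _ ≤ (B : ℝ) ^ t * δ := mul_le_mul_of_nonneg_right h2 hδ.le
    _ = δ * (B : ℝ) ^ t := mul_comm _ _

/-- `C ≤ c t` for large `t` -/
theorem par_large (C : ℝ) {c : ℝ} (hc : 0 < c) : ∃ s : ℕ, ∀ t : ℕ, s ≤ t → C ≤ c * t := by
  refine ⟨⌈C / c⌉₊, fun t ht => ?_⟩
  have h1 : C / c ≤ t := (Nat.le_ceil _).trans (by exact_mod_cast ht)
  rw [div_le_iff₀ hc] at h1
  linarith

/-- the choice of `K` -/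
theorem par_K {B Dm : ℕ} (hB : 2 ≤ B) {ρ0 G0 : ℝ} (hρ : 0 < ρ0) (hG : 1 ≤ G0)
    (hL : 2 * G0 / ρ0 ≤ (Dm : ℝ)) : ∃ K : ℕ, 1 ≤ K ∧ (K : ℝ) * (G0 * ((B : ℝ) ^ Dm)⁻¹) ≤ ρ0 ∧
      Dm * Real.log B + Real.log (ρ0 / (4 * G0)) ≤ Real.log K := by
  have hB0 : (0 : ℝ) < B := by exact_mod_cast (by omega : 0 < B)
  have hBp : (0 : ℝ) < (B : ℝ) ^ Dm := by positivity
  have hG0 : 0 < G0 := by linarith
  have h2 : (Dm : ℝ) ≤ (B : ℝ) ^ Dm := by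
    have h3 : Dm ≤ B ^ Dm := (Nat.lt_pow_self (by omega)).le
    exact_mod_cast h3
  set X : ℝ := ρ0 * (B : ℝ) ^ Dm / (2 * G0) with hX
  have hX1 : 1 ≤ X := by
    rw [hX, le_div_iff₀ (by positivity)]
    rw [div_le_iff₀ hρ] at hL
    have : (Dm : ℝ) * ρ0 ≤ (B : ℝ) ^ Dm * ρ0 := mul_le_mul_of_nonneg_right h2 hρ.le
    linarith
  have hK1 : 1 ≤ ⌊X⌋₊ := Nat.le_floor (by exact_mod_cast hX1)
  have hK1' : (1 : ℝ) ≤ ⌊X⌋₊ := by exact_mod_cast hK1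
  have hKX : (⌊X⌋₊ : ℝ) ≤ X := Nat.floor_le (by linarith)
  have hXK : X < ⌊X⌋₊ + 1 := Nat.lt_floor_add_one X
  refine ⟨⌊X⌋₊, hK1, ?_, ?_⟩
  · calc (⌊X⌋₊ : ℝ) * (G0 * ((B : ℝ) ^ Dm)⁻¹) ≤ X * (G0 * ((B : ℝ) ^ Dm)⁻¹) :=
          mul_le_mul_of_nonneg_right hKX (by positivity)
      _ = ρ0 / 2 := by rw [hX]; field_simp
      _ ≤ ρ0 := by linarith
  · have h4 : (B : ℝ) ^ Dm * (ρ0 / (4 * G0)) ≤ ⌊X⌋₊ := by
      have : (B : ℝ) ^ Dm * (ρ0 / (4 * G0)) = X / 2 := by rw [hX]; field_simp; ring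
      rw [this]
      linarith
    have h5 : 0 < (B : ℝ) ^ Dm * (ρ0 / (4 * G0)) := by positivity
    have h6 := Real.log_le_log h5 h4
    rw [Real.log_mul (by positivity) (by positivity), Real.log_pow] at h6
    exact h6

/-- the second part of `hnum` -/
theorem par_T2 {K b : ℕ} {τ0 κ ε0 P ν : ℝ} (hK : 1 ≤ K) (hτ : 0 < τ0) (hκ : 0 < κ)
    (hε : ε0 = (κ * τ0 / (960 * K)) ^ 2) (hP : P ≤ κ * τ0 / (1200 * K * (b + 1)))
    (hν : ν ≤ κ * τ0 / (1200 * K * (b + 1))) :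
    5 * K * (2 * (4 * √ε0 + 2 * (b * (2 * (P + ν) + ν)))) / τ0 ≤ κ / 8 := by
  have hK' : (1 : ℝ) ≤ K := by exact_mod_cast hK
  have hK0 : (0 : ℝ) < K := by linarith
  have hb : (0 : ℝ) ≤ b := Nat.cast_nonneg b
  have h1 : √ε0 = κ * τ0 / (960 * K) := by
    rw [hε, Real.sqrt_sq (by positivity)]
  rw [h1, div_le_iff₀ hτ]
  set p0 := κ * τ0 / (1200 * K * (b + 1)) with hp0
  have hp : K * (b * p0) ≤ κ * τ0 / 1200 := by
    rw [hp0, show (K : ℝ) * (b * (κ * τ0 / (1200 * K * (b + 1)))) =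
      κ * τ0 / 1200 * (b / (b + 1)) by field_simp]
    have : (b : ℝ) / (b + 1) ≤ 1 := by rw [div_le_one (by positivity)]; linarith
    have h2 : 0 ≤ κ * τ0 / 1200 := by positivity
    nlinarith
  have h3 : (K : ℝ) * (b * P) ≤ K * (b * p0) :=
    mul_le_mul_of_nonneg_left (mul_le_mul_of_nonneg_left hP hb) hK0.le
  have h4 : (K : ℝ) * (b * ν) ≤ K * (b * p0) :=
    mul_le_mul_of_nonneg_left (mul_le_mul_of_nonneg_left hν hb) hK0.le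
  have h5 : 5 * (K : ℝ) * (2 * (4 * (κ * τ0 / (960 * K)) + 2 * (b * (2 * (P + ν) + ν)))) =
      κ * τ0 / 24 + 40 * (K * (b * P)) + 60 * (K * (b * ν)) := by
    field_simp
    ring
  rw [h5]
  nlinarith

/-- the first part of `hnum` -/
theorem par_T1 {b : ℕ} {A0 κ ρ0 ν : ℝ} (hA : 0 < A0) (hκ : 0 < κ)
    (hρ : ρ0 = κ / (32 * A0 * (b + 1))) (hν : ν ≤ κ / (16 * A0 * (b + 1))) :
    A0 * (b * (2 * ρ0 + ν)) ≤ κ / 8 := by
  have hb : (0 : ℝ) ≤ b := Nat.cast_nonneg b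
  have h1 : 2 * ρ0 + ν ≤ κ / (8 * A0 * (b + 1)) := by
    have : 2 * ρ0 = κ / (16 * A0 * (b + 1)) := by rw [hρ]; field_simp; ring
    rw [this]
    have h2 : κ / (8 * A0 * (b + 1)) = κ / (16 * A0 * (b + 1)) + κ / (16 * A0 * (b + 1)) := by
      field_simp; ring
    rw [h2]
    linarith
  calc A0 * (b * (2 * ρ0 + ν)) ≤ A0 * (b * (κ / (8 * A0 * (b + 1)))) :=
        mul_le_mul_of_nonneg_left (mul_le_mul_of_nonneg_left h1 hb) hA.le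
    _ = κ / 8 * (b / (b + 1)) := by field_simp
    _ ≤ κ / 8 * 1 := by
        refine mul_le_mul_of_nonneg_left ?_ (by positivity)
        rw [div_le_one (by positivity)]; linarith
    _ = κ / 8 := mul_one _

/-- the third part of `hnum`; `E = (3 + d) ε` -/
theorem par_T3 {b : ℕ} {κ1 κ th2 E c3 lg σ ν DL DsL h2 x4 : ℝ} (hκ1 : 0 < κ1)
    (hκ : κ = κ1 ^ 2 / 2) (hth : 0 < th2) (hE : E ≤ th2 * κ1 ^ 4 / 16384)
    (hDL : 0 < DL) (hlg : 0 ≤ lg) (hDs : DsL ≤ DL) (hDs0 : 0 ≤ DsL)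
    (hσ : (b : ℝ) * b * σ ≤ κ * th2 / 512) (hσ0 : 0 ≤ σ) (hν0 : 0 ≤ ν)
    (hν : (b : ℝ) * b * ν ≤ κ * th2 / 512)
    (hh2 : h2 = 16 * (2 * E * DL + c3) / κ1 ^ 2) (hx4 : x4 = th2 / 16 * DL)
    (hL : 16 * c3 / κ1 ^ 2 + b * Real.log 2 + κ * th2 / 256 * lg ≤ κ * th2 / 128 * DL) :
    (h2 + b * Real.log 2 + b * (σ + ν) * (b * (DsL + lg))) / x4 ≤ κ / 4 := by
  have hb : (0 : ℝ) ≤ b := Nat.cast_nonneg b
  have hκ0 : 0 < κ := by rw [hκ]; positivity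
  have hx0 : 0 < x4 := by rw [hx4]; positivity
  rw [div_le_iff₀ hx0, hx4]
  have e1 : h2 = 32 * E * DL / κ1 ^ 2 + 16 * c3 / κ1 ^ 2 := by rw [hh2]; ring
  have e2 : 32 * E * DL / κ1 ^ 2 ≤ κ * th2 / 256 * DL := by
    rw [div_le_iff₀ (by positivity), hκ]
    have h1 : 32 * E * DL ≤ 32 * (th2 * κ1 ^ 4 / 16384) * DL :=
      mul_le_mul_of_nonneg_right (by linarith) hDL.le
    refine h1.trans (le_of_eq ?_)
    ring
  have e3 : (b : ℝ) * (σ + ν) * (b * (DsL + lg)) ≤ κ * th2 / 256 * (DL + lg) := by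
    have h1 : (b : ℝ) * (σ + ν) * (b * (DsL + lg)) = (b * b * σ + b * b * ν) * (DsL + lg) := by ring
    rw [h1]
    have h2 : (b : ℝ) * b * σ + b * b * ν ≤ κ * th2 / 256 := by linarith
    have h3 : (0 : ℝ) ≤ b * b * σ + b * b * ν := by positivity
    calc (b * b * σ + b * b * ν) * (DsL + lg) ≤ (κ * th2 / 256) * (DsL + lg) :=
          mul_le_mul_of_nonneg_right h2 (by linarith)
      _ ≤ κ * th2 / 256 * (DL + lg) :=
          mul_le_mul_of_nonneg_left (by linarith) (by positivity)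
  rw [e1]
  nlinarith

/-- the last condition -/
theorem par_N1 {bl3 l2 l3 th2 T DL DsL x4 lg bl2 lρ c4 X Y LK : ℝ}
    (hT : T ≤ 3 * th2 / 64 * (l3 + DL)) (hx4 : x4 = th2 / 16 * DL)
    (e3 : (2 - th2) * DsL ≤ (2 - th2) * DL) (hDL : DL = X + Y)
    (hc4 : c4 = bl3 + l2 + 3 * th2 / 64 * l3 + (lg + bl3 + bl2) / 2 + Y - lρ)
    (hL2 : c4 ≤ 25 * th2 / 64 * X) (hY : 0 ≤ 25 * th2 / 64 * Y) (hK : X + lρ ≤ LK) :
    (bl3 + l2 + T) + x4 + ((2 - th2) * DsL + lg + bl3 + bl2) / 2 ≤ LK := by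
  subst hx4
  have h1 : (bl3 + l2 + T) + th2 / 16 * DL + ((2 - th2) * DsL + lg + bl3 + bl2) / 2 ≤
      (bl3 + l2 + 3 * th2 / 64 * (l3 + DL)) + th2 / 16 * DL +
        ((2 - th2) * DL + lg + bl3 + bl2) / 2 := by linarith
  refine h1.trans ?_
  subst hDL
  have e7 : (bl3 + l2 + 3 * th2 / 64 * (l3 + (X + Y))) + th2 / 16 * (X + Y) +
        ((2 - th2) * (X + Y) + lg + bl3 + bl2) / 2 =
        c4 + lρ + X - 25 * th2 / 64 * X - 25 * th2 / 64 * Y := by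
    rw [hc4]
    ring
  rw [e7]
  linarith

theorem par_exists {B d b : ℕ} (hB : 2 ≤ B) {C0 M a : ℝ} (hC0 : 0 ≤ C0) (hM : 1 ≤ M) (ha : 0 < a) :
    ∃ (ε : ℝ) (s0 : ℕ) (ρ0 β τ0 : ℝ), 0 < ε ∧ 16 * ε ≤ a ∧
      (3 + d) * ε ≤ min a 1 / 16 * (min a 1 / 64) ^ 4 / 128 ∧
      ∀ Dp : ℕ, ∃ D0 : ℕ, ∀ Dm : ℕ, D0 ≤ Dm → ∃ (K u g : ℕ) (ε0 h2 x4 : ℝ), 0 < ε0 ∧
        0 < h2 + (b * Real.log 2 + b * Real.log (2 * (2 * d * M * C0) + 5)) ∧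
        16 * ((2 * ((3 + d) * ε) * ((Dm + Dp : ℕ) * Real.log B) + 4 * (b * Real.log 2) +
          d * Real.log B * s0 + 1) +
            (b * Real.log 2 + b * Real.log (2 * (2 * d * M * C0) + 5))) ≤
          (min a 1 / 64) ^ 2 * (h2 + (b * Real.log 2 + b * Real.log (2 * (2 * d * M * C0) + 5))) ∧
        Num B d b C0 M ρ0 β τ0 ε0 h2 x4 ((min a 1 / 64) ^ 2 / 2) (min a 1 / 16) (Dm + Dp) Dm s0 u
          g K := by
  have hB0 : (0 : ℝ) < B := by exact_mod_cast (by omega : 0 < B)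
  have hB1 : (1 : ℝ) < B := by exact_mod_cast (by omega : 1 < B)
  have hLB : 0 < Real.log B := Real.log_pos hB1
  have hb : (0 : ℝ) ≤ b := Nat.cast_nonneg b
  have hd : (0 : ℝ) ≤ d := Nat.cast_nonneg d
  have hm0 : 0 < min a 1 := lt_min ha one_pos
  have hm1 : min a 1 ≤ 1 := min_le_right _ _
  have hma : min a 1 ≤ a := min_le_left _ _
  generalize min a 1 = m at *
  obtain ⟨κ1, hκ1⟩ : ∃ x, x = m / 64 := ⟨_, rfl⟩
  obtain ⟨th2, hth⟩ : ∃ x, x = m / 16 := ⟨_, rfl⟩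
  rw [← hκ1, ← hth]
  have hκ10 : 0 < κ1 := by rw [hκ1]; positivity
  have hκ11 : κ1 ≤ 1 := by rw [hκ1]; linarith
  have hth0 : 0 < th2 := by rw [hth]; positivity
  have hth1 : th2 ≤ 1 := by rw [hth]; linarith
  obtain ⟨κ, hκ⟩ : ∃ x, x = κ1 ^ 2 / 2 := ⟨_, rfl⟩
  rw [← hκ]
  have hκ0 : 0 < κ := by rw [hκ]; positivity
  have hκle : κ ≤ 1 := by
    rw [hκ]
    have : κ1 ^ 2 ≤ 1 := pow_le_one₀ hκ10.le hκ11
    linarith
  obtain ⟨C1, hC1⟩ : ∃ x, x = 2 * d * M * C0 := ⟨_, rfl⟩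
  have hC10 : 0 ≤ C1 := by
    rw [hC1]
    have : (0 : ℝ) ≤ M := by linarith
    positivity
  rw [← hC1]
  have hlg : 0 ≤ Real.log (2 * C1 + 5) := Real.log_nonneg (by linarith)
  have hl2 : 0 ≤ Real.log 2 := Real.log_nonneg (by norm_num)
  have hl3 : 0 ≤ Real.log 3 := Real.log_nonneg (by norm_num)
  -- the constants
  obtain ⟨τ0, hτ⟩ : ∃ x, x = th2 / (32 * ((b : ℝ) + 1)) := ⟨_, rfl⟩
  obtain ⟨β, hβ⟩ : ∃ x, x = th2 / (256 * ((b : ℝ) + 1)) := ⟨_, rfl⟩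
  have hτ0 : 0 < τ0 := by rw [hτ]; positivity
  have hβ0 : 0 < β := by rw [hβ]; positivity
  have hβ1 : β ≤ 1 / 4 := by
    rw [hβ, div_le_iff₀ (by positivity)]
    linarith
  have hτβ : (τ0 + 4 * β) * b ≤ 3 * th2 / 64 := by
    have : (τ0 + 4 * β) * b = 3 * th2 / 64 * (b / (b + 1)) := by
      rw [hτ, hβ]; field_simp; ring
    rw [this]
    have h1 : (b : ℝ) / (b + 1) ≤ 1 := by rw [div_le_one (by positivity)]; linarith
    have h2 : 0 ≤ 3 * th2 / 64 := by positivity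
    nlinarith
  obtain ⟨A0, hA⟩ : ∃ x, x = 8 * 3 ^ b + 3 ^ b / β := ⟨_, rfl⟩
  have hA0 : 0 < A0 := by rw [hA]; positivity
  have hA1 : 1 ≤ A0 := by
    have h1 : (1 : ℝ) ≤ 3 ^ b := one_le_pow₀ (by norm_num)
    have h2 : 0 < (3 : ℝ) ^ b / β := by positivity
    rw [hA]; linarith
  obtain ⟨ρ0, hρ⟩ : ∃ x, x = κ / (32 * A0 * ((b : ℝ) + 1)) := ⟨_, rfl⟩
  have hρ0 : 0 < ρ0 := by rw [hρ]; positivity
  have hρ1 : ρ0 ≤ 1 := by
    rw [hρ, div_le_one (by positivity)]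
    nlinarith
  obtain ⟨s0, hs0⟩ := par_small hB (b * b * (2 * C1)) (δ := κ * th2 / 512) (by positivity)
  have hs0' := hs0 s0 le_rfl
  obtain ⟨ε, hε⟩ : ∃ x, x = min (a / 16) (th2 * κ1 ^ 4 / 16384 / (3 + d)) := ⟨_, rfl⟩
  have hε0 : 0 < ε := by rw [hε]; exact lt_min (by positivity) (by positivity)
  have hε1 : ε ≤ a / 16 := by rw [hε]; exact min_le_left _ _
  have hε2 : (3 + d) * ε ≤ th2 * κ1 ^ 4 / 16384 := by
    have h1 : ε ≤ th2 * κ1 ^ 4 / 16384 / (3 + d) := by rw [hε]; exact min_le_right _ _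
    rw [le_div_iff₀ (by positivity)] at h1
    linarith
  refine ⟨ε, s0, ρ0, β, τ0, hε0, by linarith, ?_, ?_⟩
  · have h1 : 0 < th2 * κ1 ^ 4 := by positivity
    linarith
  intro Dp
  obtain ⟨c2, hc2⟩ : ∃ x, x = b * Real.log 2 + b * Real.log (2 * C1 + 5) := ⟨_, rfl⟩
  rw [← hc2]
  have hc20 : 0 ≤ c2 := by rw [hc2]; positivity
  obtain ⟨c3, hc3⟩ : ∃ x, x = 4 * (b * Real.log 2) + d * Real.log B * s0 + 1 + c2 := ⟨_, rfl⟩
  have hc30 : 0 < c3 := by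
    rw [hc3]
    have : 0 ≤ 4 * (b * Real.log 2) + d * Real.log B * s0 := by positivity
    linarith
  obtain ⟨G0, hG⟩ : ∃ x, x = 2 * d * C0 * B + 1 := ⟨_, rfl⟩
  have hG1 : 1 ≤ G0 := by
    rw [hG]
    have : 0 ≤ 2 * d * C0 * B := by positivity
    linarith
  obtain ⟨c4, hc4⟩ : ∃ x, x = b * Real.log 3 + Real.log 2 + 3 * th2 / 64 * Real.log 3 +
    (Real.log (2 * C1 + 5) + b * Real.log 3 + b * Real.log 2) / 2 + Dp * Real.log B -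
      Real.log (ρ0 / (4 * G0)) := ⟨_, rfl⟩
  obtain ⟨S1, hS1⟩ := par_large (16 * c3 / κ1 ^ 2 + b * Real.log 2 +
    κ * th2 / 256 * Real.log (2 * C1 + 5)) (c := κ * th2 / 128 * Real.log B) (by positivity)
  obtain ⟨S2, hS2⟩ := par_large c4 (c := 25 * th2 / 64 * Real.log B) (by positivity)
  obtain ⟨S3, hS3⟩ := par_large (2 * G0 / ρ0) (c := 1) one_pos
  refine ⟨S1 + S2 + S3 + s0 + 1, fun Dm hDm => ?_⟩
  have hL1 := hS1 Dm (by omega)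
  have hL2 := hS2 Dm (by omega)
  have hL3 := hS3 Dm (by omega)
  rw [one_mul] at hL3
  have hDmp : (0 : ℝ) < Dm := by exact_mod_cast (by omega : 0 < Dm)
  obtain ⟨K, hK1, hK2, hK3⟩ := par_K (B := B) (Dm := Dm) hB hρ0 hG1 hL3
  have hK' : (1 : ℝ) ≤ K := by exact_mod_cast hK1
  have hK0 : (0 : ℝ) < K := by linarith
  obtain ⟨p0, hp0⟩ : ∃ x, x = κ * τ0 / (1200 * K * ((b : ℝ) + 1)) := ⟨_, rfl⟩
  have hp00 : 0 < p0 := by rw [hp0]; positivity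
  obtain ⟨U1, hU1⟩ := par_small hB (2 * d * C0 * B * (B : ℝ) ^ Dp) (δ := min p0 (1 / 8))
    (lt_min hp00 (by norm_num))
  obtain ⟨g1, hg1⟩ := par_small hB 1 (δ := min p0 (min (1 / 8) (κ / (16 * A0 * ((b : ℝ) + 1)))))
    (lt_min hp00 (lt_min (by norm_num) (by positivity)))
  obtain ⟨g2, hg2⟩ := par_small hB (b * b) (δ := κ * th2 / 512) (by positivity)
  obtain ⟨g, hgg⟩ : ∃ g, g = g1 + g2 + Dm := ⟨_, rfl⟩
  have hν1 := hg1 g (by omega)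
  have hν2 := hg2 g (by omega)
  rw [one_mul] at hν1
  obtain ⟨ν, hν⟩ : ∃ x, x = ((B : ℝ) ^ g)⁻¹ := ⟨_, rfl⟩
  have hν0 : 0 < ν := by rw [hν]; positivity
  have hνD : ν ≤ ((B : ℝ) ^ Dm)⁻¹ := by
    rw [hν]
    exact inv_anti₀ (by positivity) (pow_le_pow_right₀ hB1.le (by omega))
  rw [← hν] at hν1 hν2
  have hνp : ν ≤ p0 := hν1.trans (min_le_left _ _)
  have hν8 : ν ≤ 1 / 8 := hν1.trans ((min_le_right _ _).trans (min_le_left _ _))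
  have hνA : ν ≤ κ / (16 * A0 * ((b : ℝ) + 1)) :=
    hν1.trans ((min_le_right _ _).trans (min_le_right _ _))
  obtain ⟨P, hP⟩ : ∃ x, x = 2 * d * C0 * B * ((B : ℝ) ^ (Dm + Dp) / (B : ℝ) ^ Dm / (B : ℝ) ^ U1) :=
    ⟨_, rfl⟩
  have hPe : P = 2 * d * C0 * B * (B : ℝ) ^ Dp * ((B : ℝ) ^ U1)⁻¹ := by
    rw [hP, pow_add]
    field_simp
  have hPle := hU1 U1 le_rfl
  rw [← hPe] at hPle
  have hPp : P ≤ p0 := hPle.trans (min_le_left _ _)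
  have hP8 : P ≤ 1 / 8 := hPle.trans (min_le_right _ _)
  obtain ⟨DL, hDL⟩ : ∃ x, x = ((Dm + Dp : ℕ) : ℝ) * Real.log B := ⟨_, rfl⟩
  have hDL' : DL = Dm * Real.log B + Dp * Real.log B := by
    rw [hDL]; push_cast; ring
  have hDL0 : 0 < DL := by
    rw [hDL']
    have h1 : 0 < (Dm : ℝ) * Real.log B := by positivity
    have h2 : 0 ≤ (Dp : ℝ) * Real.log B := by positivity
    linarith
  have hDmL : (Dm : ℝ) * Real.log B ≤ DL := by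
    rw [hDL']
    have h2 : 0 ≤ (Dp : ℝ) * Real.log B := by positivity
    linarith
  obtain ⟨h2, hh2⟩ : ∃ x, x = 16 * (2 * ((3 + d) * ε) * DL + c3) / κ1 ^ 2 := ⟨_, rfl⟩
  have hh20 : 0 < h2 := by rw [hh2]; positivity
  obtain ⟨x4, hx4⟩ : ∃ x, x = th2 / 16 * DL := ⟨_, rfl⟩
  obtain ⟨DsL, hDsL⟩ : ∃ x, x = ((Dm + Dp - s0 : ℕ) : ℝ) * Real.log B := ⟨_, rfl⟩
  have hDs0 : 0 ≤ DsL := by rw [hDsL]; positivity
  have hDsle : DsL ≤ DL := by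
    rw [hDsL, hDL]
    refine mul_le_mul_of_nonneg_right ?_ hLB.le
    exact_mod_cast Nat.sub_le _ _
  refine ⟨K, U1, g, (κ * τ0 / (960 * K)) ^ 2, h2, x4, by positivity, by linarith, ?_, ?_⟩
  · rw [← hDL]
    have e1 : κ1 ^ 2 * h2 = 16 * (2 * ((3 + d) * ε) * DL + c3) := by
      rw [hh2]; field_simp
    rw [mul_add (κ1 ^ 2) h2 c2, e1, hc3]
    have : 0 ≤ κ1 ^ 2 * c2 := by positivity
    linarith
  refine ⟨hρ0.le, hρ1, hβ0, hβ1, hτ0, by rw [hx4]; positivity, hκ0, hth0.le, hth1, by omega, hK1,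
    ?_, ?_, ?_, ?_⟩
  · -- hK0
    rw [← hν]
    refine le_trans ?_ hK2
    refine mul_le_mul_of_nonneg_left ?_ hK0.le
    rw [hG, add_mul, one_mul]
    linarith
  · -- hrr
    rw [← hν, ← hP]
    linarith
  · -- hnum
    rw [← hν, ← hP, ← hA, ← hDsL, ← hC1]
    have t1 := par_T1 (b := b) hA0 hκ0 hρ hνA
    have t2 := par_T2 (b := b) hK1 hτ0 hκ0 rfl (hp0 ▸ hPp) (hp0 ▸ hνp)
    have t3 := par_T3 (b := b) (σ := 2 * (C1 * ((B : ℝ) ^ s0)⁻¹)) hκ10 hκ hth0 hε2 hDL0 hlg hDsle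
      hDs0 (by rw [← mul_assoc, ← mul_assoc]; rw [← mul_assoc] at hs0'; exact hs0')
      (by positivity) hν0.le hν2 hh2 hx4 (by
        refine hL1.trans ?_
        rw [mul_assoc]
        refine mul_le_mul_of_nonneg_left ?_ (by positivity)
        linarith)
    linarith
  · -- hN1
    rw [← hDsL, ← hC1]
    have e1 : Real.log (3 * (B : ℝ) ^ (Dm + Dp)) = Real.log 3 + DL := by
      rw [Real.log_mul (by norm_num) (by positivity), Real.log_pow, hDL]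
    rw [e1]
    have e2 : (τ0 + 4 * β) * (b * (Real.log 3 + DL)) ≤ 3 * th2 / 64 * (Real.log 3 + DL) := by
      rw [← mul_assoc]
      exact mul_le_mul_of_nonneg_right hτβ (by linarith)
    have e3 : (2 - th2) * DsL ≤ (2 - th2) * DL :=
      mul_le_mul_of_nonneg_left hDsle (by linarith)
    have e4 : (25 * th2 / 64 * Real.log B) * Dm = 25 * th2 / 64 * (Dm * Real.log B) := by ring
    rw [e4] at hL2
    have e5 : 0 ≤ 25 * th2 / 64 * (Dp * Real.log B) := by positivity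
    exact par_N1 e2 hx4 e3 hDL' hc4 hL2 e5 hK3

end STK
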