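import Pool.Agent.Lib.MP_ac5134_an.STK.KDefs

/-!
# STK-KPart: partner heights (pigeonhole)

* `exists_lab`: the label of `h` is `(J h, fun r c => ⌊(P h r c + M) B^τ⌋)`; the floors take values in
  `{0, …, ⌊2 M B^τ⌋}`, so `N = (2d)^b (⌊2 M B^τ⌋ + 2)^(2 b d)` (or any bound, e.g. the cardinality of a suitable
  `Fintype`, mapped to `Fin N` by an equivalence) works; equal floors: the entries differ by `≤ B^(-τ)`.
* `partners`: the union of the parts of weight `< κ` has weight `≤ N κ ≤ μ/2`; all points of the other parts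
  have a partner.
* `exists_exp`: `m` = the least natural number with `B^(-m) ≤ η`; `η ≤ B^(-τ)` gives `m ≥ τ`, and
  `B^(-(m-1)) > η > B^(-(T+1))` gives `m ≤ T + 1`.
* `exists_max_entry`: a matrix `P' - P ≠ 0` has an entry of maximal modulus.
-/

namespace STK
open Finset RFold

theorem exists_lab (B b d : ℕ) (hB : 2 ≤ B) (M : ℝ) (τ : ℕ) : ∃ N : ℕ, 0 < N ∧
    ∀ (H : Type) [Fintype H] (S : H → Prop) (P : H → Matrix (Fin b) (Co d) ℝ)
      (J : H → Fin b → Co d), (∀ h, S h → Chart M (P h) (J h)) →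
      ∃ lab : H → Fin N, ∀ h h', S h → S h' → lab h = lab h' →
        J h = J h' ∧ Near (((B : ℝ) ^ τ)⁻¹) (P h) (P h') := by
  classical
  have hB0 : (0 : ℝ) < (B : ℝ) ^ τ := by
    have : (0 : ℝ) < B := by exact_mod_cast (by omega : 0 < B)
    positivity
  let K : ℕ := ⌊2 * M * (B : ℝ) ^ τ⌋₊ + 1
  let L : Type := Option ((Fin b → Co d) × (Fin b → Co d → Fin (K + 1)))
  refine ⟨Fintype.card L, Fintype.card_pos, ?_⟩
  intro H _ S P J hS
  let fl : H → Fin b → Co d → Fin (K + 1) := fun h r c =>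
    ⟨min ⌊(P h r c + M) * (B : ℝ) ^ τ⌋₊ K, by
      have := min_le_right ⌊(P h r c + M) * (B : ℝ) ^ τ⌋₊ K
      omega⟩
  refine ⟨fun h => Fintype.equivFin L (some (J h, fl h)), ?_⟩
  intro h h' hh hh' heq
  have e := (Fintype.equivFin L).injective heq
  have e' : (J h, fl h) = (J h', fl h') := Option.some.inj e
  have eJ : J h = J h' := (Prod.ext_iff.1 e').1
  have ef : fl h = fl h' := (Prod.ext_iff.1 e').2
  refine ⟨eJ, fun r c => ?_⟩
  have ec : min ⌊(P h r c + M) * (B : ℝ) ^ τ⌋₊ K = min ⌊(P h' r c + M) * (B : ℝ) ^ τ⌋₊ K := by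
    have := congrFun (congrFun ef r) c
    exact congrArg Fin.val this
  have b1 := abs_le.1 ((hS h hh).bd r c)
  have b2 := abs_le.1 ((hS h' hh').bd r c)
  have x1 : 0 ≤ (P h r c + M) * (B : ℝ) ^ τ := mul_nonneg (by linarith [b1.1]) hB0.le
  have x2 : 0 ≤ (P h' r c + M) * (B : ℝ) ^ τ := mul_nonneg (by linarith [b2.1]) hB0.le
  have y1 : ⌊(P h r c + M) * (B : ℝ) ^ τ⌋₊ ≤ K := by
    refine le_trans (Nat.floor_le_floor (b := 2 * M * (B : ℝ) ^ τ) ?_) (Nat.le_succ _)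
    exact mul_le_mul_of_nonneg_right (by linarith [b1.2]) hB0.le
  have y2 : ⌊(P h' r c + M) * (B : ℝ) ^ τ⌋₊ ≤ K := by
    refine le_trans (Nat.floor_le_floor (b := 2 * M * (B : ℝ) ^ τ) ?_) (Nat.le_succ _)
    exact mul_le_mul_of_nonneg_right (by linarith [b2.2]) hB0.le
  rw [min_eq_left y1, min_eq_left y2] at ec
  have z1 := Nat.floor_le x1
  have z2 := Nat.floor_le x2
  have w1 := Nat.lt_floor_add_one ((P h r c + M) * (B : ℝ) ^ τ)
  have w2 := Nat.lt_floor_add_one ((P h' r c + M) * (B : ℝ) ^ τ)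
  rw [ec] at z1 w1
  have key : |(P h' r c - P h r c) * (B : ℝ) ^ τ| ≤ 1 := by
    rw [abs_le]
    constructor <;> nlinarith
  rw [abs_mul, abs_of_pos hB0] at key
  rw [← one_div]
  exact (le_div_iff₀ hB0).2 key

theorem partners {H : Type} [Fintype H] {σ : H → ℝ} (hσ : IsPr σ) (S : H → Prop) {N : ℕ}
    (lab : H → Fin N) (rel : H → H → Prop) {μ κ : ℝ} (hμ : μ ≤ pr σ S) (hκ : 2 * (κ * N) ≤ μ)
    (hno : ∀ i, κ ≤ pr σ (fun h => S h ∧ lab h = i) → ∀ h, S h → lab h = i →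
      ∃ h', S h' ∧ lab h' = i ∧ rel h h') :
    μ / 2 ≤ pr σ (fun h => S h ∧ ∃ h', S h' ∧ lab h' = lab h ∧ rel h h') := by
  classical
  set A : H → Prop := fun h => S h ∧ ∃ h', S h' ∧ lab h' = lab h ∧ rel h h' with hA
  set C : Fin N → H → Prop := fun i h =>
    (S h ∧ lab h = i) ∧ ¬ κ ≤ pr σ (fun h => S h ∧ lab h = i) with hC
  have h1 : pr σ S ≤ pr σ (fun h => A h ∨ ∃ i, C i h) := by
    refine pr_mono hσ fun h _ hh => ?_
    by_cases hk : κ ≤ pr σ (fun g => S g ∧ lab g = lab h)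
    · exact Or.inl ⟨hh, hno (lab h) hk h hh rfl⟩
    · exact Or.inr ⟨lab h, ⟨hh, rfl⟩, hk⟩
  have h2 : ∀ i, pr σ (C i) ≤ max κ 0 := by
    intro i
    by_cases hk : κ ≤ pr σ (fun h => S h ∧ lab h = i)
    · have : pr σ (C i) ≤ 0 := by
        unfold pr
        refine le_of_eq (sum_eq_zero fun h _ => ?_)
        rw [if_neg]
        exact fun hc => hc.2 hk
      exact this.trans (le_max_right _ _)
    · refine le_trans (pr_mono hσ (B := fun h => S h ∧ lab h = i) fun h _ hc => hc.1) ?_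
      exact (le_of_lt (not_le.1 hk)).trans (le_max_left _ _)
  have h3 : pr σ S ≤ pr σ A + N * max κ 0 := by
    refine h1.trans ((pr_or_le hσ A _).trans ?_)
    refine add_le_add le_rfl ((pr_exists_le hσ C).trans ((sum_le_sum fun i _ => h2 i).trans ?_))
    simp
  have hA0 : 0 ≤ pr σ A := pr_nonneg hσ A
  rcases le_total 0 κ with hk | hk
  · rw [max_eq_left hk] at h3
    nlinarith
  · rw [max_eq_right hk, mul_zero, add_zero] at h3
    rcases le_total 0 μ with hm | hm <;> linarith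

theorem exists_max_entry {b d : ℕ} {η : ℝ} (hη : 0 ≤ η) (P P' : Matrix (Fin b) (Co d) ℝ)
    (h : ¬ Near η P P') :
    ∃ j c0, η < |P' j c0 - P j c0| ∧ ∀ r c, |P' r c - P r c| ≤ |P' j c0 - P j c0| := by
  classical
  unfold Near at h
  push Not at h
  obtain ⟨r0, c1, h0⟩ := h
  obtain ⟨x, -, hx⟩ := exists_max_image (univ : Finset (Fin b × Co d))
    (fun x => |P' x.1 x.2 - P x.1 x.2|) ⟨(r0, c1), mem_univ _⟩
  exact ⟨x.1, x.2, lt_of_lt_of_le h0 (hx (r0, c1) (mem_univ _)), fun r c => hx (r, c) (mem_univ _)⟩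

/-- the exponent of `η` -/
theorem exists_exp {B : ℕ} (hB : 2 ≤ B) {η : ℝ} {τ T : ℕ} (h1 : η ≤ ((B : ℝ) ^ τ)⁻¹)
    (h2 : ((B : ℝ) ^ (T + 1))⁻¹ < η) :
    ∃ m, τ ≤ m ∧ m ≤ T + 1 ∧ ((B : ℝ) ^ m)⁻¹ ≤ η ∧ η ≤ B * ((B : ℝ) ^ m)⁻¹ := by
  classical
  have hB1 : (1 : ℝ) < B := by exact_mod_cast (by omega : 1 < B)
  have hB0 : (0 : ℝ) < B := by linarith
  have hex : ∃ m, ((B : ℝ) ^ m)⁻¹ ≤ η := ⟨T + 1, h2.le⟩
  have hm := Nat.find_spec hex
  refine ⟨Nat.find hex, ?_, Nat.find_min' hex h2.le, hm, ?_⟩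
  · by_contra hlt
    push Not at hlt
    have h3 : (B : ℝ) ^ (Nat.find hex) < (B : ℝ) ^ τ := pow_lt_pow_right₀ hB1 hlt
    have h4 : ((B : ℝ) ^ τ)⁻¹ < ((B : ℝ) ^ (Nat.find hex))⁻¹ :=
      inv_strictAnti₀ (by positivity) h3
    linarith
  · rcases Nat.eq_zero_or_pos (Nat.find hex) with h0 | h0
    · rw [h0]
      have : ((B : ℝ) ^ τ)⁻¹ ≤ 1 := inv_le_one_of_one_le₀ (one_le_pow₀ hB1.le)
      simp only [pow_zero, inv_one, mul_one]
      linarith
    · have h5 := Nat.find_min hex (m := Nat.find hex - 1) (by omega)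
      push Not at h5
      refine h5.le.trans (le_of_eq ?_)
      obtain ⟨k, hk⟩ : ∃ k, Nat.find hex = k + 1 := ⟨Nat.find hex - 1, by omega⟩
      rw [hk, Nat.add_sub_cancel, pow_succ]
      field_simp

theorem Near.mono {b d : ℕ} {η η' : ℝ} (h : η ≤ η') {P P' : Matrix (Fin b) (Co d) ℝ}
    (hN : Near η P P') : Near η' P P' := fun r c => (hN r c).trans h

theorem Near.tri {B b d T : ℕ} (hB : 2 ≤ B) {P P' P'' : Matrix (Fin b) (Co d) ℝ}
    (h : Near (((B : ℝ) ^ (T + 1))⁻¹) P P') (h' : Near (((B : ℝ) ^ (T + 1))⁻¹) P P'') :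
    Near (((B : ℝ) ^ T)⁻¹) P' P'' := by
  intro r c
  have hB2 : (2 : ℝ) ≤ B := by exact_mod_cast hB
  have hB0 : (0 : ℝ) < B := by linarith
  have h1 := abs_le.1 (h r c)
  have h2 := abs_le.1 (h' r c)
  have hx : 0 ≤ ((B : ℝ) ^ (T + 1))⁻¹ := by positivity
  have e : ((B : ℝ) ^ T)⁻¹ = B * ((B : ℝ) ^ (T + 1))⁻¹ := by
    rw [pow_succ]
    field_simp
  rw [e, abs_le]
  have h3 : 2 * ((B : ℝ) ^ (T + 1))⁻¹ ≤ B * ((B : ℝ) ^ (T + 1))⁻¹ :=
    mul_le_mul_of_nonneg_right hB2 hx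
  constructor <;> linarith [h1.1, h1.2, h2.1, h2.2]

end STK
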