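import Pool.Agent.Lib.MP_ac5134_an.STK.KLin2

/-!
# STK-KTL: the terminal lemma (paper (1.2)), by compactness

`exists_sep`: choose `j0` with `(d + 1) φ j0 < κ` (`φ → 0`).  Greedy choice: if `n ≤ d` heights of `S1` are
chosen, the heights within `1 / j0` of one of them have weight `≤ d φ j0 < κ`, so another element of `S1`
(of positive weight) is left.

`terminal`: Suppose not.  Then for every `T` (`= Dmax = Q0`) there are `Q_T ≥ T`, `H, σ, s`, `S1`, `P`, `J`
such that for every `1 ≤ D0 ≤ T` the inequality fails for some `h` with `S1 h` and some system.  Choose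
separated heights `s^T_0, …, s^T_d ∈ [-1,1]` (`exists_sep`) and their matrices `P^T_j`; `J^T` takes finitely
many values.  Along a subsequence `J` is constant, `s^T_j → t_j` (`|t_j - t_j'| ≥ 1 / j0`, so distinct) and
all `P^T_h → P` (entries bounded by `M`, mutual distance `≤ B^(-T)`); `Chart M P J` (closed conditions) and
`rank (kmat P t_j) ≤ R` (`isClosed_rank_le`, continuity of `kmat`), so `rank (P1mat P) ≤ R` (`rank_inf`) and
`term_bound` gives `cP`.  Take `D0` with `cP ≤ α D0 log B / 4` and `b log 9 ≤ α D0 log B / 4`.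
For large `T` all `h` with `S1^T h` satisfy `|P^T_h - P| ≤ B^(-D0) / (2 d C0 + 1)`; on a system of level
`i`, `obs P_h Y - obs P Y` varies by at most `B^(-(i+D0))` (`lip` with `k = i` and `base`), so, with a shift
`z` chosen as its value at one point, the cells of level `i + D0` of `obs P_h Y` (shift 0) and of `obs P Y`
(shift `z`) differ by at most 2 per coordinate, and
`cent W X^h ≤ cent W X^P + H(X^P | X^h) ≤ m0 D0 log B + cP + b log 9 ≤ (m0 + α) D0 log B`: contradiction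
(`D0 ≤ T`).
-/

namespace STK
open Finset RFold Filter Topology

theorem exists_sep {d : ℕ} {φ : ℕ → ℝ} (hφ : Tendsto φ atTop (𝓝 0)) {κ : ℝ} (hκ : 0 < κ) :
    ∃ j0 : ℕ, 1 ≤ j0 ∧ ∀ (Q : ℕ) (H : Type) [Fintype H] (σ s : H → ℝ), j0 ≤ Q → IsHts φ Q σ s →
      ∀ S1 : H → Prop, κ ≤ pr σ S1 →
      ∃ g : Fin (d + 1) → H, (∀ j, S1 (g j)) ∧ ∀ j j', j ≠ j' → 1 < j0 * |s (g j) - s (g j')| := by
  classical
  have h1 : Tendsto (fun j => ((d : ℝ) + 1) * φ j) atTop (𝓝 0) := by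
    simpa using hφ.const_mul ((d : ℝ) + 1)
  obtain ⟨j0, hj1, hj2⟩ := ((h1.eventually (gt_mem_nhds hκ)).and (eventually_ge_atTop 1)).exists
  refine ⟨j0, hj2, fun Q H _ σ s hQ hs S1 hS1 => ?_⟩
  have hpr := hs.isPr
  have step : ∀ n : ℕ, n ≤ d + 1 → ∃ g : Fin n → H, (∀ j, S1 (g j)) ∧
      ∀ j j', j ≠ j' → 1 < j0 * |s (g j) - s (g j')| := by
    intro n
    induction n with
    | zero => intro _; exact ⟨Fin.elim0, fun j => j.elim0, fun j => j.elim0⟩
    | succ n ih =>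
      intro hn
      obtain ⟨g, hg1, hg2⟩ := ih (by omega)
      have hex : ∃ h, S1 h ∧ ∀ j : Fin n, 1 < j0 * |s h - s (g j)| := by
        by_contra hcon
        push Not at hcon
        have h3 : pr σ S1 ≤ pr σ (fun h => ∃ j : Fin n, j0 * |s h - s (g j)| ≤ 1) :=
          pr_mono hpr fun h _ hh => hcon h hh
        have h4 := pr_exists_le hpr (fun (j : Fin n) h => j0 * |s h - s (g j)| ≤ 1)
        have h5 : ∑ j : Fin n, pr σ (fun h => j0 * |s h - s (g j)| ≤ 1) ≤ ∑ _j : Fin n, φ j0 :=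
          sum_le_sum fun j _ => hs.nc j0 hj2 hQ (s (g j))
        have h0 : 0 ≤ φ j0 := (pr_nonneg hpr _).trans (hs.nc j0 hj2 hQ 0)
        rw [sum_const, card_univ, Fintype.card_fin, nsmul_eq_mul] at h5
        have h6 : (n : ℝ) * φ j0 ≤ ((d : ℝ) + 1) * φ j0 := by
          refine mul_le_mul_of_nonneg_right ?_ h0
          have : (n : ℝ) ≤ d := by exact_mod_cast (by omega : n ≤ d)
          linarith
        linarith
      obtain ⟨h, hh1, hh2⟩ := hex
      refine ⟨Fin.cons h g, ?_, ?_⟩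
      · intro j
        refine Fin.cases ?_ (fun i => ?_) j
        · simpa using hh1
        · simpa using hg1 i
      · intro j j'
        refine Fin.cases ?_ (fun i => ?_) j <;> refine Fin.cases ?_ (fun i' => ?_) j'
        · intro h; exact absurd rfl h
        · intro _
          simpa using hh2 i'
        · intro _
          simp only [Fin.cons_succ, Fin.cons_zero]
          rw [abs_sub_comm]
          exact hh2 i
        · intro hne
          simp only [Fin.cons_succ]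
          exact hg2 i i' (fun e => hne (by rw [e]))
  exact step (d + 1) le_rfl

private theorem tl_sum {d : ℕ} {C0 ε : ℝ} (i : ℕ) (B : ℕ) {b : ℕ} {A A' : Matrix (Fin b) (Co d) ℝ}
    (hA : Near ε A A') (hε : 0 ≤ ε) (r : Fin b) (y y' : Co d → ℝ)
    (hy : ∀ c, |y c - y' c| ≤ C0 * ((B : ℝ) ^ i)⁻¹) :
    |∑ c, A' r c * y c - (∑ c, A r c * y c + (∑ c, A' r c * y' c - ∑ c, A r c * y' c))| ≤
      ε * (2 * d * C0) * ((B : ℝ) ^ i)⁻¹ := by
  have e : ∑ c, A' r c * y c - (∑ c, A r c * y c + (∑ c, A' r c * y' c - ∑ c, A r c * y' c)) =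
      ∑ c, (A' r c - A r c) * (y c - y' c) := by
    have : ∀ c, (A' r c - A r c) * (y c - y' c) =
        (A' r c * y c - A r c * y c) - (A' r c * y' c - A r c * y' c) := fun c => by ring
    rw [sum_congr rfl fun c _ => this c, sum_sub_distrib, sum_sub_distrib, sum_sub_distrib]
    ring
  rw [e]
  refine (abs_sum_le_sum_abs _ _).trans ?_
  have h1 : ∀ c ∈ (univ : Finset (Co d)), |(A' r c - A r c) * (y c - y' c)| ≤
      ε * (C0 * ((B : ℝ) ^ i)⁻¹) := by
    intro c _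
    rw [abs_mul]
    exact mul_le_mul (hA r c) (hy c) (abs_nonneg _) hε
  refine (sum_le_sum h1).trans (le_of_eq ?_)
  rw [sum_const, card_univ, Fintype.card_sum, Fintype.card_fin, nsmul_eq_mul]
  push_cast
  ring

/-- two nearby observables have nearly the same residual entropy -/
private theorem tl_near {B d b D0 i : ℕ} (hB : 2 ≤ B) {C0 ε : ℝ} (hε : 0 ≤ ε)
    {A A' : Matrix (Fin b) (Co d) ℝ} (hA : Near ε A A')
    (h1 : ε * (2 * d * C0) ≤ ((B : ℝ) ^ D0)⁻¹) {Ω : Type} [Fintype Ω] {p : Ω → ℝ}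
    {Y : Ω → Co d → ℝ} (hs : IsSys B d C0 i p Y) :
    ∃ z : Fin b → ℝ, cent p (Wc B (i + D0) Y) (Xc B (i + D0) 0 (obs A' Y)) ≤
      cent p (Wc B (i + D0) Y) (Xc B (i + D0) z (obs A Y)) + b * Real.log 9 := by
  have hp := hs.pr
  have hne : ∃ ω, p ω ≠ 0 := by
    by_contra h
    push Not at h
    have := hp.sum_eq
    simp [h] at this
  obtain ⟨ω₀, h₀⟩ := hne
  set z : Fin b → ℝ := fun r => obs A' Y ω₀ r - obs A Y ω₀ r with hz
  have hBp : (0 : ℝ) < (B : ℝ) ^ i := by positivity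
  have hd : ∀ ω, p ω ≠ 0 → ∀ r,
      |(obs A' Y ω r + (0 : Fin b → ℝ) r) - (obs A Y ω r + z r)| ≤ 1 * ((B : ℝ) ^ (i + D0))⁻¹ := by
    intro ω hω r
    have h2 := tl_sum (C0 := C0) i B hA hε r (Y ω) (Y ω₀)
      (hs.lip i le_rfl ω ω₀ hω h₀ (hs.base ω ω₀ hω h₀))
    have e : (obs A' Y ω r + (0 : Fin b → ℝ) r) - (obs A Y ω r + z r) =
        ∑ c, A' r c * Y ω c - (∑ c, A r c * Y ω c +
          (∑ c, A' r c * Y ω₀ c - ∑ c, A r c * Y ω₀ c)) := by
      simp only [obs, hz, Pi.zero_apply]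
      ring
    rw [e]
    refine h2.trans ?_
    rw [pow_add, mul_inv, one_mul, mul_comm]
    exact mul_le_mul_of_nonneg_left h1 (by positivity)
  have hf1 : ∀ ω, p ω ≠ 0 → ∀ r, Xc B (i + D0) z (obs A Y) ω r ≤
      Xc B (i + D0) 0 (obs A' Y) ω r + 2 := by
    intro ω hω r
    have h2 := floor_dist (B := B) (by omega) (i + D0) (D := 1) (y := obs A Y ω r + z r)
      (y' := obs A' Y ω r + (0 : Fin b → ℝ) r) (by rw [abs_sub_comm]; exact hd ω hω r)
    have h3 : ((Xc B (i + D0) z (obs A Y) ω r : ℤ) : ℝ) ≤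
        ((Xc B (i + D0) 0 (obs A' Y) ω r + 2 : ℤ) : ℝ) := by
      push_cast
      simp only [Xc]
      linarith
    exact_mod_cast h3
  have hf2 : ∀ ω, p ω ≠ 0 → ∀ r, Xc B (i + D0) 0 (obs A' Y) ω r ≤
      Xc B (i + D0) z (obs A Y) ω r + 2 := by
    intro ω hω r
    have h2 := floor_dist (B := B) (by omega) (i + D0) (D := 1)
      (y := obs A' Y ω r + (0 : Fin b → ℝ) r) (y' := obs A Y ω r + z r) (hd ω hω r)
    have h3 : ((Xc B (i + D0) 0 (obs A' Y) ω r : ℤ) : ℝ) ≤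
        ((Xc B (i + D0) z (obs A Y) ω r + 2 : ℤ) : ℝ) := by
      push_cast
      simp only [Xc]
      linarith
    exact_mod_cast h3
  refine ⟨z, ?_⟩
  have hdiam := cent_le_diam hp (Xc B (i + D0) z (obs A Y)) (Xc B (i + D0) 0 (obs A' Y)) 4
    (by
      intro ω ω' hω hω' he r
      have a1 := hf1 ω hω r
      have a2 := hf2 ω' hω' r
      have a3 : Xc B (i + D0) 0 (obs A' Y) ω r = Xc B (i + D0) 0 (obs A' Y) ω' r := by rw [he]
      push_cast
      omega)
  have e9 : (2 * ((4 : ℕ) : ℝ) + 1) = 9 := by norm_num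
  rw [e9] at hdiam
  have hm : cent p (Wc B (i + D0) Y) (Xc B (i + D0) 0 (obs A' Y)) ≤
      cent p (fun ω => (Xc B (i + D0) z (obs A Y) ω, Wc B (i + D0) Y ω))
        (Xc B (i + D0) 0 (obs A' Y)) :=
    cent_mono hp (Det.fst (Det.snd (Det.refl _))) (Det.refl _)
  rw [cent_chain hp] at hm
  have ha := cent_anti hp (Wc B (i + D0) Y)
    (g := Xc B (i + D0) z (obs A Y))
    (g' := fun ω => (Xc B (i + D0) z (obs A Y) ω, Xc B (i + D0) 0 (obs A' Y) ω))
    (Det.fst (Det.refl _))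
  linarith

/-- the data of one step of the compactness argument -/
private def TLData (B d b R : ℕ) (C0 M α : ℝ) (j0 n : ℕ) (t : Fin (d + 1) → ℝ)
    (A : Matrix (Fin b) (Co d) ℝ) (J : Fin b → Co d) : Prop :=
  (∀ j, |t j| ≤ 1) ∧ (∀ j j', j ≠ j' → 1 < j0 * |t j - t j'|) ∧ Chart M A J ∧
  (∀ j, ∃ A', Near (((B : ℝ) ^ n)⁻¹) A A' ∧ (kmat A' (t j)).rank ≤ R) ∧
  ∀ D0, 1 ≤ D0 → D0 ≤ n → ∃ A', Near (((B : ℝ) ^ n)⁻¹) A A' ∧
    ∃ (Ω : Type) (_ : Fintype Ω) (p : Ω → ℝ) (Y : Ω → Co d → ℝ) (i : ℕ), IsSys B d C0 i p Y ∧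
      (m0 d b R + α) * D0 * Real.log B <
        cent p (Wc B (i + D0) Y) (Xc B (i + D0) 0 (obs A' Y))

private theorem kmat_tendsto {b d : ℕ} {A : ℕ → Matrix (Fin b) (Co d) ℝ}
    {A0 : Matrix (Fin b) (Co d) ℝ} {s : ℕ → ℝ} {s0 : ℝ} (hA : Tendsto A atTop (𝓝 A0))
    (hs : Tendsto s atTop (𝓝 s0)) :
    Tendsto (fun n => kmat (A n) (s n)) atTop (𝓝 (kmat A0 s0)) := by
  refine tendsto_pi_nhds.2 fun r => tendsto_pi_nhds.2 fun c => ?_
  have h1 : ∀ c', Tendsto (fun n => A n r c') atTop (𝓝 (A0 r c')) := fun c' =>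
    (tendsto_pi_nhds.1 (tendsto_pi_nhds.1 hA r)) c'
  exact (h1 (Sum.inr c)).sub (hs.mul (h1 (Sum.inl c)))

private theorem tl_absurd {B d b R : ℕ} (hB : 2 ≤ B) {C0 M α : ℝ} (hC0 : 0 ≤ C0) (hα : 0 < α)
    (j0 : ℕ)
    (h : ∀ n : ℕ, ∃ t A J, TLData B d b R C0 M α j0 (n + j0) t A J) : False := by
  classical
  choose t A J hd using h
  -- a constant `J`
  obtain ⟨J0, hJ0⟩ := Finite.exists_infinite_fiber J
  have hfr : ∃ᶠ n in atTop, J n = J0 := by
    rw [Nat.frequently_atTop_iff_infinite]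
    exact Set.infinite_coe_iff.1 hJ0
  obtain ⟨u, hu, huJ⟩ := extraction_of_frequently_atTop hfr
  -- compactness
  set K : Set ((Fin (d + 1) → ℝ) × Matrix (Fin b) (Co d) ℝ) :=
    (Set.univ.pi fun _ => Set.Icc (-1 : ℝ) 1) ×ˢ
      (Set.univ.pi fun _ => Set.univ.pi fun _ => Set.Icc (-M) M) with hK
  have hKc : IsCompact K :=
    (isCompact_univ_pi fun _ => isCompact_Icc).prod
      (isCompact_univ_pi fun _ => isCompact_univ_pi fun _ => isCompact_Icc)
  have hmem : ∀ n, (t (u n), A (u n)) ∈ K := by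
    intro n
    obtain ⟨h1, -, h3, -⟩ := hd (u n)
    refine ⟨fun j _ => abs_le.1 (h1 j), fun r _ c _ => abs_le.1 (h3.bd r c)⟩
  have : FirstCountableTopology (Matrix (Fin b) (Co d) ℝ) :=
    inferInstanceAs (FirstCountableTopology (Fin b → Co d → ℝ))
  obtain ⟨⟨t0, A0⟩, -, v, hv, hlim⟩ := hKc.tendsto_subseq hmem
  set w : ℕ → ℕ := fun n => u (v n) with hw
  have hwm : StrictMono w := hu.comp hv
  have hwt : Tendsto w atTop atTop := hwm.tendsto_atTop
  have hlt : Tendsto (fun n => t (w n)) atTop (𝓝 t0) := (continuous_fst.tendsto _).comp hlim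
  have hlA : Tendsto (fun n => A (w n)) atTop (𝓝 A0) := (continuous_snd.tendsto _).comp hlim
  have hltj : ∀ j, Tendsto (fun n => t (w n) j) atTop (𝓝 (t0 j)) := fun j =>
    (tendsto_pi_nhds.1 hlt) j
  have hlArc : ∀ r c, Tendsto (fun n => A (w n) r c) atTop (𝓝 (A0 r c)) := fun r c =>
    (tendsto_pi_nhds.1 (tendsto_pi_nhds.1 hlA r)) c
  have hwJ : ∀ n, J (w n) = J0 := fun n => huJ (v n)
  -- the limit chart
  have hch : Chart M A0 J0 := by
    refine ⟨?_, ?_, ?_⟩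
    · have := (hd (w 0)).2.2.1.inj
      rwa [hwJ 0] at this
    · intro r r'
      refine tendsto_nhds_unique (hlArc r (J0 r')) ?_
      have : ∀ n, A (w n) r (J0 r') = if r = r' then 1 else 0 := by
        intro n
        have h3 := (hd (w n)).2.2.1.one r r'
        rwa [hwJ n] at h3
      simp only [this]
      exact tendsto_const_nhds
    · intro r c
      exact le_of_tendsto (hlArc r c).abs (Eventually.of_forall fun n => (hd (w n)).2.2.1.bd r c)
  have hB1 : (1 : ℝ) < B := by exact_mod_cast (by omega : 1 < B)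
  have hpow : Tendsto (fun n : ℕ => ((B : ℝ) ^ n)⁻¹) atTop (𝓝 0) := by
    have h2 := tendsto_pow_atTop_nhds_zero_of_lt_one (r := (B : ℝ)⁻¹) (by positivity)
      (inv_lt_one_of_one_lt₀ hB1)
    simpa [inv_pow] using h2
  have hshift : Tendsto (fun n => w n + j0) atTop atTop :=
    tendsto_atTop_mono (fun n => Nat.le_add_right (w n) j0) hwt
  have hpw : Tendsto (fun n => ((B : ℝ) ^ (w n + j0))⁻¹) atTop (𝓝 0) := hpow.comp hshift
  -- ranks
  have hrk : ∀ j, (kmat A0 (t0 j)).rank ≤ R := by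
    intro j
    have h4 : ∀ n, ∃ A', Near (((B : ℝ) ^ (w n + j0))⁻¹) (A (w n)) A' ∧
        (kmat A' (t (w n) j)).rank ≤ R := fun n => (hd (w n)).2.2.2.1 j
    choose A' hA'1 hA'2 using h4
    have hlA' : Tendsto A' atTop (𝓝 A0) := by
      refine tendsto_pi_nhds.2 fun r => tendsto_pi_nhds.2 fun c => ?_
      have h5 : Tendsto (fun n => A' n r c - A (w n) r c) atTop (𝓝 0) :=
        squeeze_zero_norm (fun n => by
          rw [Real.norm_eq_abs]
          exact hA'1 n r c) hpw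
      have h6 := h5.add (hlArc r c)
      simpa using h6
    exact (isClosed_rank_le b d R).mem_of_tendsto (kmat_tendsto hlA' (hltj j))
      (Eventually.of_forall hA'2)
  -- distinct heights
  have hinj : Function.Injective t0 := by
    intro j j' he
    by_contra hne
    have h5 : Tendsto (fun n => (j0 : ℝ) * |t (w n) j - t (w n) j'|) atTop
        (𝓝 ((j0 : ℝ) * |t0 j - t0 j'|)) := (((hltj j).sub (hltj j')).abs).const_mul _
    have h6 : (1 : ℝ) ≤ (j0 : ℝ) * |t0 j - t0 j'| :=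
      ge_of_tendsto h5 (Eventually.of_forall fun n => ((hd (w n)).2.1 j j' hne).le)
    rw [he, sub_self, abs_zero, mul_zero] at h6
    linarith
  have hR : (P1mat A0).rank ≤ R := by
    refine rank_inf A0 (univ.image t0) ?_ ?_
    · rw [card_image_of_injective _ hinj, card_univ, Fintype.card_fin]
    · intro s hs
      obtain ⟨j, -, rfl⟩ := mem_image.1 hs
      exact hrk j
  obtain ⟨cP, hcP⟩ := term_bound (B := B) hB hC0 hch hR
  have hlog : 0 < Real.log B := Real.log_pos hB1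
  -- the length `D0`
  obtain ⟨D0, hD0⟩ := exists_nat_gt ((|cP| + b * Real.log 9) / (α * Real.log B))
  have hαl : 0 < α * Real.log B := by positivity
  rw [div_lt_iff₀ hαl] at hD0
  have hD01 : 1 ≤ D0 := by
    by_contra hcon
    have h0 : D0 = 0 := by omega
    rw [h0] at hD0
    have h9 : 0 ≤ Real.log 9 := Real.log_nonneg (by norm_num)
    have : 0 ≤ |cP| + b * Real.log 9 := by positivity
    simp at hD0
    linarith
  -- a small number
  set ε : ℝ := ((B : ℝ) ^ D0)⁻¹ / (2 * d * C0 + 1) with hε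
  have hden : 0 < 2 * (d : ℝ) * C0 + 1 := by positivity
  have hBD : 0 < ((B : ℝ) ^ D0)⁻¹ := by positivity
  have hε0 : 0 < ε := div_pos hBD hden
  have hε1 : ε * (2 * d * C0) ≤ ((B : ℝ) ^ D0)⁻¹ := by
    rw [hε, div_mul_eq_mul_div, div_le_iff₀ hden]
    nlinarith
  have hev1 : ∀ᶠ n in atTop, ∀ r c, |A (w n) r c - A0 r c| ≤ ε / 2 := by
    rw [eventually_all]
    intro r
    rw [eventually_all]
    intro c
    have h7 := (hlArc r c).sub_const (A0 r c)
    rw [sub_self] at h7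
    have h8 := h7.abs
    rw [abs_zero] at h8
    filter_upwards [h8.eventually (gt_mem_nhds (half_pos hε0))] with n hn
    exact hn.le
  have hev2 : ∀ᶠ n in atTop, ((B : ℝ) ^ (w n + j0))⁻¹ ≤ ε / 2 := by
    filter_upwards [hpw.eventually (gt_mem_nhds (half_pos hε0))] with n hn
    exact hn.le
  obtain ⟨n, ⟨hn1, hn2⟩, hn3⟩ :=
    ((hev1.and hev2).and (hshift.eventually (eventually_ge_atTop D0))).exists
  obtain ⟨A', hA', Ω, _, p, Y, i, hs, hlt'⟩ := (hd (w n)).2.2.2.2 D0 hD01 hn3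
  have hnear : Near ε A0 A' := by
    intro r c
    have a1 := hA' r c
    have a2 := hn1 r c
    have e : A' r c - A0 r c = (A' r c - A (w n) r c) + (A (w n) r c - A0 r c) := by ring
    rw [e]
    refine (abs_add_le _ _).trans ?_
    linarith
  obtain ⟨z, hz⟩ := tl_near hB hε0.le hnear hε1 hs
  have hc := hcP Ω p Y i D0 z hs
  have := le_abs_self cP
  nlinarith

theorem terminal {B d b R : ℕ} (hB : 2 ≤ B) {φ : ℕ → ℝ} (hφ : Tendsto φ atTop (𝓝 0))
    {C0 M κ α : ℝ} (hC0 : 0 ≤ C0) (hκ : 0 < κ) (hα : 0 < α) :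
    ∃ T Dmax Q0 : ℕ, ∀ (Q : ℕ) (H : Type) [Fintype H] (σ s : H → ℝ), Q0 ≤ Q → IsHts φ Q σ s →
      ∀ (S1 : H → Prop) (P : H → Matrix (Fin b) (Co d) ℝ) (J : Fin b → Co d), κ ≤ pr σ S1 →
      (∀ h, S1 h → Chart M (P h) J ∧ (kmat (P h) (s h)).rank ≤ R) →
      (∀ h h', S1 h → S1 h' → Near (((B : ℝ) ^ T)⁻¹) (P h) (P h')) →
      ∃ D0, 1 ≤ D0 ∧ D0 ≤ Dmax ∧ ∀ h, S1 h → ∀ (Ω : Type) [Fintype Ω] (p : Ω → ℝ)
        (Y : Ω → Co d → ℝ) (i : ℕ), IsSys B d C0 i p Y →
        cent p (Wc B (i + D0) Y) (Xc B (i + D0) 0 (obs (P h) Y)) ≤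
          (m0 d b R + α) * D0 * Real.log B := by
  obtain ⟨j0, -, hsep⟩ := exists_sep (d := d) hφ hκ
  by_contra hcon
  refine tl_absurd (B := B) (d := d) (b := b) (R := R) (M := M) hB hC0 hα j0 fun n => ?_
  have hn : ¬ ∀ (Q : ℕ) (H : Type) [Fintype H] (σ s : H → ℝ), n + j0 ≤ Q → IsHts φ Q σ s →
      ∀ (S1 : H → Prop) (P : H → Matrix (Fin b) (Co d) ℝ) (J : Fin b → Co d), κ ≤ pr σ S1 →
      (∀ h, S1 h → Chart M (P h) J ∧ (kmat (P h) (s h)).rank ≤ R) →
      (∀ h h', S1 h → S1 h' → Near (((B : ℝ) ^ (n + j0))⁻¹) (P h) (P h')) →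
      ∃ D0, 1 ≤ D0 ∧ D0 ≤ n + j0 ∧ ∀ h, S1 h → ∀ (Ω : Type) [Fintype Ω] (p : Ω → ℝ)
        (Y : Ω → Co d → ℝ) (i : ℕ), IsSys B d C0 i p Y →
        cent p (Wc B (i + D0) Y) (Xc B (i + D0) 0 (obs (P h) Y)) ≤
          (m0 d b R + α) * D0 * Real.log B := fun h => hcon ⟨n + j0, n + j0, n + j0, h⟩
  by_contra hno
  refine hn ?_
  intro Q H _ σ s hQ hs S1 P J hκS hch hnear
  by_contra hD
  apply hno
  obtain ⟨g, hg1, hg2⟩ := hsep Q H σ s (by omega) hs S1 hκS
  refine ⟨fun j => s (g j), P (g 0), J, fun j => hs.abs_le _, hg2, (hch _ (hg1 0)).1,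
    fun j => ⟨P (g j), hnear _ _ (hg1 0) (hg1 j), (hch _ (hg1 j)).2⟩, ?_⟩
  intro D0 h1 h2
  by_contra hB'
  apply hD
  refine ⟨D0, h1, h2, fun h hh Ω _ p Y i hsys => ?_⟩
  by_contra hlt
  exact hB' ⟨P h, hnear _ _ (hg1 0) hh, Ω, inferInstance, p, Y, i, hsys, not_le.1 hlt⟩

end STK
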