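import Pool.Agent.Lib.MP_ac5134_an.STK.KPart
import Pool.Agent.Lib.MP_ac5134_an.STK.KTL
import Pool.Agent.Lib.MP_ac5134_an.STK.KLow

/-!
# STK-KPartner: half of the good heights have a partner (paper, step 2)

`TLd` = the conclusion of the terminal lemma for `(T, Dmax, Q0)`.
Proof of `partner_step`.  `lab` from `exists_lab` with `τ = t + Dm` (given as hypothesis `hlab`); `partners`
with `rel h h' := ¬ Near (B^(-(T+1))) (P h) (P h')`.  To check `hno`: let `S1 = {S h, lab h = i}` have weight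
`≥ κ` and suppose that `h ∈ S1` has no partner: then all `h' ∈ S1` are within `B^(-(T+1))` of `P h`, so
(`Near.tri`, `Near.mono`, `T0 ≤ T`) all matrices of `S1` are within `B^(-T0)` of each other, and they have the
same `J`.  `TLd` gives `1 ≤ D0 ≤ Dmax` such that all systems have residual `≤ (m0 + α) D0 log B` for `P h`; so
`avp (nres D0 D0) ≤ (m0 + α) D0 log B` (nodes are systems), against `low_avg` (`D = n = D0`):
`(A - ε) D0 log B ≤ avp ..` and `m0 + α < A - ε`.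
Then for `h` with a partner `h'`: `lab h = lab h'` gives `J h = J h'` and `Near (B^(-(t+Dm)))`, so the maximal
entry (`exists_max_entry`) has modulus `η` with `B^(-(T+1)) < η ≤ B^(-(t+Dm))`; `exists_exp` gives `m` with
`t + Dm ≤ m ≤ T + 1`; `n = m - Dm ≤ T` as `Dm ≥ 1`.
-/

namespace STK
open Finset RFold Pool.Agent.MPac5134.SD

/-- the conclusion of the terminal lemma -/
def TLd (B d b R : ℕ) (φ : ℕ → ℝ) (C0 M κ α : ℝ) (T Dmax Q0 : ℕ) : Prop :=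
  ∀ (Q : ℕ) (H : Type) [Fintype H] (σ s : H → ℝ), Q0 ≤ Q → IsHts φ Q σ s →
      ∀ (S1 : H → Prop) (P : H → Matrix (Fin b) (Co d) ℝ) (J : Fin b → Co d), κ ≤ pr σ S1 →
      (∀ h, S1 h → Chart M (P h) J ∧ (kmat (P h) (s h)).rank ≤ R) →
      (∀ h h', S1 h → S1 h' → Near (((B : ℝ) ^ T)⁻¹) (P h) (P h')) →
      ∃ D0, 1 ≤ D0 ∧ D0 ≤ Dmax ∧ ∀ h, S1 h → ∀ (Ω : Type) [Fintype Ω] (p : Ω → ℝ)
        (Y : Ω → Co d → ℝ) (i : ℕ), IsSys B d C0 i p Y →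
        cent p (Wc B (i + D0) Y) (Xc B (i + D0) 0 (obs (P h) Y)) ≤
          (m0 d b R + α) * D0 * Real.log B

/-- `h'` is a partner of `h` -/
def Partner {b d : ℕ} (B t T Dm : ℕ) {H : Type} (P : H → Matrix (Fin b) (Co d) ℝ)
    (J : H → Fin b → Co d) (h h' : H) (n : ℕ) (j : Fin b) (c0 : Co d) : Prop :=
  J h' = J h ∧ t ≤ n ∧ n ≤ T ∧ (∀ r c, |P h' r c - P h r c| ≤ |P h' j c0 - P h j c0|) ∧
    ((B : ℝ) ^ (n + Dm))⁻¹ ≤ |P h' j c0 - P h j c0| ∧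
    |P h' j c0 - P h j c0| ≤ B * ((B : ℝ) ^ (n + Dm))⁻¹

theorem partner_step {B d b R : ℕ} (hB : 2 ≤ B) {φ : ℕ → ℝ} {C0 M κ α A ε : ℝ} {T0 Dmax Q0 : ℕ}
    (htl : TLd B d b R φ C0 M κ α T0 Dmax Q0) {Q : ℕ} (hQ : Q0 ≤ Q) {H : Type} [Fintype H]
    {σ s : H → ℝ} (hH : IsHts φ Q σ s) {t T Dm NL : ℕ} (hT : T0 ≤ T) (hDm : 1 ≤ Dm)
    (hlab : ∀ (H : Type) [Fintype H] (S : H → Prop) (P : H → Matrix (Fin b) (Co d) ℝ)
      (J : H → Fin b → Co d), (∀ h, S h → Chart M (P h) (J h)) →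
      ∃ lab : H → Fin NL, ∀ h h', S h → S h' → lab h = lab h' →
        J h = J h' ∧ Near (((B : ℝ) ^ (t + Dm))⁻¹) (P h) (P h'))
    {Ω : Type} [Fintype Ω] {i0 l : ℕ} {p : Ω → ℝ} {Y : Ω → Co d → ℝ} (hsys : IsSys B d C0 i0 p Y)
    (S : H → Prop) (P : H → Matrix (Fin b) (Co d) ℝ) (J : H → Fin b → Co d)
    (hS : ∀ h, S h → Chart M (P h) (J h) ∧ (kmat (P h) (s h)).rank ≤ R ∧
      A * l * Real.log B ≤ cent p (Wc B (i0 + l) Y) (Xc B (i0 + l) 0 (obs (P h) Y)))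
    {μ : ℝ} (hμ : μ ≤ pr σ S) (hκ : 2 * (κ * NL) ≤ μ) {l1 : ℕ} (hl1 : 0 < l1)
    (hdiv : ∀ D0, 1 ≤ D0 → D0 ≤ Dmax → D0 ∣ l1) (hl : l1 + Dmax ≤ l) (hA : 0 ≤ A)
    (hε : d * ((l : ℝ) - l1) ≤ ε * l1) (hα : m0 d b R + α < A - ε) :
    μ / 2 ≤ pr σ (fun h => S h ∧ ∃ h', S h' ∧ ∃ n j c0, Partner B t T Dm P J h h' n j c0) := by
  classical
  have hB0 : (0 : ℝ) < B := by
    have : 0 < B := by omega
    exact_mod_cast this
  have hlogB : 0 < Real.log B := Real.log_pos (by exact_mod_cast (by omega : 1 < B))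
  obtain ⟨lab, hlabs⟩ := hlab H S P J (fun h hh => (hS h hh).1)
  have hno : ∀ i, κ ≤ pr σ (fun h => S h ∧ lab h = i) → ∀ h, S h → lab h = i →
      ∃ h', S h' ∧ lab h' = i ∧ ¬ Near (((B : ℝ) ^ (T + 1))⁻¹) (P h) (P h') := by
    intro i hκi h hh hlabi
    by_contra hcon
    push Not at hcon
    have hnear : ∀ h1 h2, (S h1 ∧ lab h1 = i) → (S h2 ∧ lab h2 = i) →
        Near (((B : ℝ) ^ T0)⁻¹) (P h1) (P h2) := by
      intro h1 h2 hh1 hh2
      refine Near.mono ?_ (Near.tri (T := T) hB (hcon h1 hh1.1 hh1.2) (hcon h2 hh2.1 hh2.2))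
      exact inv_anti₀ (pow_pos hB0 _)
        (pow_le_pow_right₀ (by exact_mod_cast (by omega : 1 ≤ B)) hT)
    obtain ⟨D0, hD1, hD2, hD3⟩ := htl Q H σ s hQ hH (fun h => S h ∧ lab h = i) P (J h) hκi
      (by
        intro h1 hh1
        have h2 := (hlabs h h1 hh hh1.1 (by rw [hlabi, hh1.2])).1
        rw [h2]
        exact ⟨(hS h1 hh1.1).1, (hS h1 hh1.1).2.1⟩) hnear
    have hlow := low_avg hB hsys (P h) (l := l) (l1 := l1) (n := D0) hD1 hl1 (hdiv D0 hD1 hD2)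
      (by omega) le_rfl hA hε (hS h hh).2.2
    have hup : avp p i0 l1 (nres B p Y (P h) D0 D0) ≤ (m0 d b R + α) * D0 * Real.log B := by
      refine (avp_mono (G := fun _ _ => (m0 d b R + α) * D0 * Real.log B) hsys.pr ?_).trans
        (le_of_eq (avp_const hsys.pr hl1 _))
      intro i' hi' _ ω h0
      exact hD3 h ⟨hh, hlabi⟩ Ω (fib p (Wc B i' Y) ω) Y i' (hsys.node hi' h0)
    have hD0 : (0 : ℝ) < D0 := by exact_mod_cast (by omega : 0 < D0)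
    have h3 : (m0 d b R + α) * D0 * Real.log B < (A - ε) * D0 * Real.log B :=
      mul_lt_mul_of_pos_right (mul_lt_mul_of_pos_right hα hD0) hlogB
    linarith
  refine (partners hH.isPr S lab (fun h h' => ¬ Near (((B : ℝ) ^ (T + 1))⁻¹) (P h) (P h'))
    hμ hκ hno).trans (pr_mono hH.isPr ?_)
  rintro h - ⟨hh, h', hh', hl', hrel⟩
  obtain ⟨hJ, hN⟩ := hlabs h h' hh hh' hl'.symm
  obtain ⟨j, c0, hlt, hmax⟩ := exists_max_entry
    (by positivity : (0 : ℝ) ≤ ((B : ℝ) ^ (T + 1))⁻¹) (P h) (P h') hrel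
  obtain ⟨m, hm1, hm2, hm3, hm4⟩ := exists_exp hB (hN j c0) hlt
  refine ⟨hh, h', hh', m - Dm, j, c0, hJ.symm, by omega, by omega, hmax, ?_, ?_⟩
  · rw [Nat.sub_add_cancel (by omega)]
    exact hm3
  · rw [Nat.sub_add_cancel (by omega)]
    exact hm4

end STK
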