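import Pool.Agent.Lib.MP_ac5134_an.STK.KCst
import Pool.Agent.Lib.MP_ac5134_an.STK.KPar
import Pool.Agent.Lib.MP_ac5134_an.STK.KSup
import Pool.Agent.Lib.MP_ac5134_an.STK.KSeq

/-!
# STK-KPre: the induction step: choice of the constants (helper29)
-/

namespace STK
open Finset RFold Filter Topology Pool.Agent.MPac5134.SD

theorem pre_step {B d : ℕ} (hB : 2 ≤ B) {C0 : ℝ} (hC0 : 0 ≤ C0) {φ : ℕ → ℝ}
    (hφ : Tendsto φ atTop (𝓝 0)) {R b : ℕ} (hasm : Asm B d b R φ C0) (hb : b + 1 ≤ 2 * d)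
    (h1 : PropRb B d C0 φ R b) (h2 : PropRb B d C0 φ (R + 1) (b + 2)) :
    PropRb B d C0 φ R (b + 1) := by
  by_contra hcon
  obtain ⟨M, a, hM, ha, hab, hlo, hup'⟩ := exists_sup hB hcon
  obtain ⟨ε, s0, ρ0, β, τ0, hε, hεa, hεth, hpar⟩ := par_exists (B := B) (d := d) (b := b + 1)
    hB hC0 hM ha
  have hLB : 0 < Real.log B := Real.log_pos (by exact_mod_cast (show 1 < B by omega))
  have hmin : 0 < min a 1 := lt_min ha one_pos
  have hmin1 : min a 1 ≤ 1 := min_le_right _ _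
  have hmina : min a 1 ≤ a := min_le_left _ _
  obtain ⟨κ1, hκ1d⟩ : ∃ κ1, κ1 = min a 1 / 64 := ⟨_, rfl⟩
  have hκ1 : 0 < κ1 := by rw [hκ1d]; positivity
  obtain ⟨δ0, hδ0, hδ01, hlo'⟩ := hlo ε hε
  obtain ⟨L1, hL1⟩ := hup' ε hε (ε * δ0 / 24) (by positivity)
  obtain ⟨δ', hδ'd⟩ : ∃ δ', δ' = δ0 * (min a 1 / 64) ^ 4 / 1024 := ⟨_, rfl⟩
  have hδ' : 0 < δ' := by rw [hδ'd]; positivity
  obtain ⟨Lm, hLm⟩ := h1 (2 * M) (by linarith) (a / 2) (by positivity) δ' hδ'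
  obtain ⟨Lp, hLp⟩ := h2 (2 * M) (by linarith) (a / 2) (by positivity) δ' hδ'
  -- Case II inequality
  obtain ⟨C2, hC2⟩ : ∃ C2 : ℝ, C2 = 2 * ((b + 1 : ℕ) * Real.log 2) + Real.log 2 + Real.log 5 +
    min a 1 / 64 * Real.log (4 * d * C0 + 5) + (b + 1 : ℕ) * Real.log (M + 3) := ⟨_, rfl⟩
  obtain ⟨Dp0, hDp0⟩ := exists_large ((a / 2 - min a 1 / 16 - min a 1 / 64) * Real.log B) C2
    (mul_pos (by linarith) hLB)
  obtain ⟨Dp, hDpd⟩ : ∃ Dp, Dp = L1 + Lp + Dp0 + 1 := ⟨_, rfl⟩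
  obtain ⟨D0, hD0⟩ := hpar Dp
  obtain ⟨D1, hD1⟩ := exists_large ((a / 2 - min a 1 / 16 - min a 1 / 16) * Real.log B)
    (((b : ℝ) + 1) * Real.log (2 * (2 * d * M * C0) + 5)) (mul_pos (by linarith) hLB)
  obtain ⟨Dm, hDmd⟩ : ∃ Dm, Dm = D0 + s0 + L1 + Lm + D1 + 1 := ⟨_, rfl⟩
  obtain ⟨K, u, g, ε0, h2', x4, hε0, hh, hh2, hnum⟩ := hD0 Dm (by omega)
  obtain ⟨e1, he1d⟩ : ∃ e1, e1 = ε0 * κ1 ^ 2 / 32 := ⟨_, rfl⟩
  have he1 : 0 < e1 := by rw [he1d]; positivity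
  obtain ⟨R1, hR1⟩ := exists_large (e1 * δ0 / 16)
    ((b + 1 : ℕ) * Real.log B * (Dm + Dp : ℕ)) (by positivity)
  obtain ⟨R0, hR0d⟩ : ∃ R0, R0 = R1 + 1 := ⟨_, rfl⟩
  have hR0p : (0 : ℝ) < R0 := by
    rw [hR0d]
    positivity
  -- labels and the terminal lemma
  choose NLf hNLpos hNLlab using fun τ => exists_lab B (b + 1) d hB M τ
  have hNLR : ∀ τ, (0 : ℝ) < NLf τ := fun τ => by exact_mod_cast hNLpos τ
  choose T0f Dmaxf Q0f hTLf using fun τ => terminal (B := B) (d := d) (b := b + 1) (R := R) hB hφ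
    (C0 := C0) (M := M) (κ := δ0 / (4 * NLf (τ + Dm))) (α := a / 4) hC0
    (div_pos hδ0 (mul_pos (by norm_num) (hNLR _))) (by positivity)
  obtain ⟨t, T, ht0, htT, hTT, hnext⟩ := exists_seqs T0f u (u + Dp)
  -- the number of levels
  obtain ⟨G, hG⟩ : ∃ G, G = Dp + (Dm + Dp) + T R0 + 2 * (T R0 + 1) * (Dm + Dp) +
    ∑ r ∈ range R0, Dmaxf (t r) := ⟨_, rfl⟩
  obtain ⟨c1, hc1⟩ : ∃ c1 : ℝ, c1 = ((T R0 + s0 : ℕ) : ℝ) / (κ1 ^ 4 / 128) := ⟨_, rfl⟩
  obtain ⟨c3, hc3⟩ : ∃ c3 : ℝ, c3 = 9 * (T R0 + 1 : ℕ) * (Dm + Dp : ℕ) * (Dm + Dp : ℕ) *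
    (d * Real.log B + (b + 1 : ℕ) * Real.log B) := ⟨_, rfl⟩
  obtain ⟨c4, hc4⟩ : ∃ c4 : ℝ, c4 =
    2 * (T R0 * ((b + 1 : ℕ) * Real.log B * (Dm + Dp : ℕ))) / (e1 * δ0 / 16) := ⟨_, rfl⟩
  have hc1' : 0 ≤ c1 := by rw [hc1]; positivity
  have hc3' : 0 ≤ c3 := by rw [hc3]; positivity
  have hc4' : 0 ≤ c4 := by rw [hc4]; positivity
  obtain ⟨L2, hL2⟩ := pick_l1 G d hε (c1 + (T R0 + s0 : ℕ) + c3 + c4)
  obtain ⟨l, Q, hl, hQ, hbad⟩ := hlo' (L1 + Lm + Lp + L2 + ∑ r ∈ range R0, Q0f (t r))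
  obtain ⟨l1, hl1, hdiv, hle, hεl, hCl⟩ := hL2 l (by omega)
  have hl1R : (0 : ℝ) < l1 := by exact_mod_cast hl1
  have hDmaxG : ∀ r, r < R0 → Dmaxf (t r) ≤ ∑ r ∈ range R0, Dmaxf (t r) := fun r hr =>
    single_le_sum (f := fun r => Dmaxf (t r)) (fun _ _ => Nat.zero_le _) (mem_range.2 hr)
  have hQ0G : ∀ r, r < R0 → Q0f (t r) ≤ ∑ r ∈ range R0, Q0f (t r) := fun r hr =>
    single_le_sum (f := fun r => Q0f (t r)) (fun _ _ => Nat.zero_le _) (mem_range.2 hr)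
  have hcst : Cst B d b R φ C0 M a δ0 ε ρ0 β τ0 ε0 h2' x4 Dm Dp s0 u g K R0 t T
      (fun r => NLf (t r + Dm)) (fun r => T0f (t r)) (fun r => Dmaxf (t r))
      (fun r => Q0f (t r)) l l1 Q := by
    refine
      { hC0 := hC0, hM := hM, ha := ha, hd := by omega, δ0_pos := hδ0, δ0_le := hδ01,
        ε_pos := hε, ε_le := hεa, ε_le1 := ?_, ε_th := ?_, ε0_pos := hε0, hh := hh, hh2 := hh2,
        hnum := hnum, hDp := by omega, hDm := by omega, hDq := by omega,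
        nb1 := hL1 _ _ (by omega) (by omega), nb2 := hL1 _ _ (by omega) (by omega),
        nb3 := hL1 _ _ (by omega) (by omega), hCII := ?_, hCI := ?_, hR0 := by omega,
        hut := fun r => by have := ht0 r; omega, hDpt := fun r => by have := ht0 r; omega,
        htT := htT, hnext := hnext, hR0e := ?_, hNL := fun r => hNLpos _,
        hlab := fun r => hNLlab _, htl := fun r => hTLf _, hT0 := hTT,
        hQ0 := fun r hr => by have := hQ0G r hr; omega, hl1 := hl1,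
        hdiv1 := hdiv _ (by omega) (by omega), hdiv2 := hdiv _ (by omega) (by omega),
        hdiv3 := hdiv _ ?_ (by omega),
        hdiv4 := fun r hr D0 h1 h2 => hdiv D0 h1 (by have := hDmaxG r hr; omega),
        hle1 := by omega, hle2 := by omega, hle3 := by omega,
        hle4 := fun r hr => by have := hDmaxG r hr; omega, hεl := hεl, hl1a := ?_, hl1b := ?_,
        hl1c := ?_, hl1d := ?_ }
    · have h3 : min a 1 / 16 * (min a 1 / 64) ^ 4 / 128 ≤ 1 / 128 := by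
        have h4 : min a 1 / 16 ≤ 1 := by linarith
        have h5 : (min a 1 / 64) ^ 4 ≤ 1 := pow_le_one₀ (by positivity) (by linarith)
        have h6 : min a 1 / 16 * (min a 1 / 64) ^ 4 ≤ 1 * 1 :=
          mul_le_mul h4 h5 (by positivity) zero_le_one
        linarith
      have h7 : 3 * ε ≤ (3 + d) * ε :=
        mul_le_mul_of_nonneg_right (by linarith [(Nat.cast_nonneg d : (0 : ℝ) ≤ d)]) hε.le
      linarith
    · exact hεth.trans (le_of_eq (by ring))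
    · have h3 := hDp0 Dp (by omega)
      have h4 : (m0 d (b + 1) R + (a - min a 1 / 16)) * Dp * Real.log B -
        (2 * ((b + 1 : ℕ) * Real.log 2) + Real.log 2 + Real.log 5 +
          min a 1 / 64 * (Dp * Real.log B + Real.log (4 * d * C0 + 5)) +
            (b + 1 : ℕ) * Real.log (M + 3)) - (m0 d (b + 1) R + a / 2) * Dp * Real.log B =
          (a / 2 - min a 1 / 16 - min a 1 / 64) * Real.log B * Dp - C2 := by
        rw [hC2]
        ring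
      linarith
    · have h3 := hD1 (Dm + Dp - s0) (by omega)
      refine h3.trans (le_of_eq (by ring))
    · have h3 := hR1 R0 (by omega)
      rw [← hκ1d, ← he1d, div_le_iff₀ hR0p]
      exact h3
    · exact Nat.mul_pos (by omega) (by omega)
    · rw [← hκ1d, div_le_iff₀ hl1R]
      have h3 : c1 ≤ l1 := by
        have : (0 : ℝ) ≤ ((T R0 + s0 : ℕ) : ℝ) := Nat.cast_nonneg _
        linarith
      rw [hc1, div_le_iff₀ (by positivity)] at h3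
      linarith
    · have h3 : ((T R0 + s0 : ℕ) : ℝ) ≤ l1 := by linarith
      exact_mod_cast h3
    · rw [← hc3, div_le_iff₀ hl1R]
      have : (0 : ℝ) ≤ ((T R0 + s0 : ℕ) : ℝ) := Nat.cast_nonneg _
      linarith
    · rw [← hκ1d, ← he1d]
      have h3 : c4 ≤ l1 := by
        have : (0 : ℝ) ≤ ((T R0 + s0 : ℕ) : ℝ) := Nat.cast_nonneg _
        linarith
      rw [hc4, div_le_iff₀ (by positivity)] at h3
      refine h3.trans (le_of_eq (by ring))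
  rcases hasm _ _ _ _ _ _ _ _ _ _ _ _ _ _ _ _ _ _ _ _ _ _ _ _ _ _ hcst hbad with h | h
  · rw [← hδ'd] at h
    exact hLm _ _ (by omega) (by omega) h
  · rw [← hδ'd] at h
    exact hLp _ _ (by omega) (by omega) h

end STK
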