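import Pool.Agent.Lib.MP_ac5134_an.STK.KNode

/-!
# STK-KPrl: probabilities and averages over (level, point)

`i` runs over the levels `i0 ≤ i < i0 + l1` (uniform), `ω` over `Ω` (weight `p`).
All proofs are elementary (finite sums); `double_count`: if for every `h` with `S h` the average over
`i < l1` of `pr p (A h (i0 + i + k h))` is `≥ δa`, `k h ≤ Km`, then
`μ δa l1 ≤ ∑_h σ h 1_S ∑_{j < l1 + Km} pr p (A h (i0 + j)) =
 ∑_{j < l1 + Km} ∑_ω p ω (pr σ {h | S h ∧ A h (i0 + j) ω})`; some `(j, ω)` has at least the average.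
-/

namespace STK
open Finset RFold Pool.Agent.MPac5134.SD

variable {Ω : Type} [Fintype Ω]

/-- the node of level `i` of `ω` -/
noncomputable abbrev nd (B : ℕ) {d : ℕ} (p : Ω → ℝ) (Y : Ω → Co d → ℝ) (i : ℕ) (ω : Ω) : Ω → ℝ :=
  fib p (Wc B i Y) ω

/-- average over levels and points -/
noncomputable def avp (p : Ω → ℝ) (i0 l1 : ℕ) (F : ℕ → Ω → ℝ) : ℝ :=
  avl i0 l1 fun i => ∑ ω, p ω * F i ω

/-- probability over levels and points -/
noncomputable def prl (p : Ω → ℝ) (i0 l1 : ℕ) (A : ℕ → Ω → Prop) : ℝ :=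
  avl i0 l1 fun i => pr p (A i)

variable {p : Ω → ℝ} {i0 l1 : ℕ}

theorem avp_mono (hp : IsPr p) {F G : ℕ → Ω → ℝ}
    (h : ∀ i, i0 ≤ i → i < i0 + l1 → ∀ ω, p ω ≠ 0 → F i ω ≤ G i ω) :
    avp p i0 l1 F ≤ avp p i0 l1 G := by
  unfold avp avl
  refine div_le_div_of_nonneg_right (sum_le_sum fun i hi => sum_le_sum fun ω _ => ?_) (Nat.cast_nonneg _)
  by_cases h0 : p ω = 0
  · rw [h0, zero_mul, zero_mul]
  · exact mul_le_mul_of_nonneg_left (h _ (Nat.le_add_right _ _) (by have := mem_range.1 hi; omega) ω h0)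
      (hp.nonneg ω)

theorem avp_add (F G : ℕ → Ω → ℝ) :
    avp p i0 l1 (fun i ω => F i ω + G i ω) = avp p i0 l1 F + avp p i0 l1 G := by
  unfold avp avl
  rw [← add_div, ← sum_add_distrib]
  congr 1
  refine sum_congr rfl fun i _ => ?_
  rw [← sum_add_distrib]
  exact sum_congr rfl fun ω _ => by ring

theorem avp_mul (c : ℝ) (F : ℕ → Ω → ℝ) :
    avp p i0 l1 (fun i ω => c * F i ω) = c * avp p i0 l1 F := by
  unfold avp avl
  rw [← mul_div_assoc, mul_sum]
  congr 1
  refine sum_congr rfl fun i _ => ?_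
  rw [mul_sum]
  exact sum_congr rfl fun ω _ => by ring

theorem avp_const (hp : IsPr p) (hl : 0 < l1) (c : ℝ) : avp p i0 l1 (fun _ _ => c) = c := by
  unfold avp avl
  have h1 : (l1 : ℝ) ≠ 0 := by exact_mod_cast hl.ne'
  have h2 : ∑ i ∈ range l1, (fun _ : ℕ => ∑ ω, p ω * c) (i0 + i) = l1 * c := by
    simp only [← sum_mul, hp.sum_eq, one_mul, sum_const, card_range, nsmul_eq_mul]
  rw [h2]
  field_simp

open Classical in
theorem avp_ite (A : ℕ → Ω → Prop) :
    avp p i0 l1 (fun i ω => if A i ω then (1 : ℝ) else 0) = prl p i0 l1 A := by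
  unfold avp prl pr avl
  congr 1
  refine sum_congr rfl fun i _ => sum_congr rfl fun ω _ => ?_
  by_cases h : A (i0 + i) ω
  · simp only [h, if_true, mul_one]
  · simp only [h, if_false, mul_zero]

theorem prl_nonneg (hp : IsPr p) (A : ℕ → Ω → Prop) : 0 ≤ prl p i0 l1 A := by
  unfold prl avl
  exact div_nonneg (sum_nonneg fun i _ => pr_nonneg hp _) (Nat.cast_nonneg _)

theorem prl_le_one (hp : IsPr p) (A : ℕ → Ω → Prop) : prl p i0 l1 A ≤ 1 := by
  unfold prl avl
  rcases Nat.eq_zero_or_pos l1 with h | h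
  · subst h
    simp
  · rw [div_le_one (by exact_mod_cast h)]
    refine (sum_le_sum fun i _ => pr_le_one hp _).trans (le_of_eq ?_)
    rw [sum_const, card_range, nsmul_eq_mul, mul_one]

theorem prl_mono (hp : IsPr p) {A A' : ℕ → Ω → Prop}
    (h : ∀ i, i0 ≤ i → i < i0 + l1 → ∀ ω, p ω ≠ 0 → A i ω → A' i ω) :
    prl p i0 l1 A ≤ prl p i0 l1 A' := by
  unfold prl avl
  refine div_le_div_of_nonneg_right (sum_le_sum fun i hi => pr_mono hp fun ω h0 hA => ?_) (Nat.cast_nonneg _)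
  exact h _ (Nat.le_add_right _ _) (by have := mem_range.1 hi; omega) ω h0 hA

theorem prl_or_le (hp : IsPr p) (A A' : ℕ → Ω → Prop) :
    prl p i0 l1 (fun i ω => A i ω ∨ A' i ω) ≤ prl p i0 l1 A + prl p i0 l1 A' := by
  unfold prl avl
  rw [← add_div, ← sum_add_distrib]
  exact div_le_div_of_nonneg_right (sum_le_sum fun i _ => pr_or_le hp _ _) (Nat.cast_nonneg _)

theorem prl_not (hp : IsPr p) (hl : 0 < l1) (A : ℕ → Ω → Prop) :
    prl p i0 l1 (fun i ω => ¬ A i ω) = 1 - prl p i0 l1 A := by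
  unfold prl avl
  have h1 : (l1 : ℝ) ≠ 0 := by exact_mod_cast hl.ne'
  have h2 : ∀ i, pr p (fun ω => ¬ A i ω) = 1 - pr p (A i) := fun i => pr_not hp _
  rw [sum_congr rfl fun i _ => h2 _, sum_sub_distrib, sum_const, card_range, nsmul_eq_mul, mul_one,
    sub_div, div_self h1]

/-- `P(A) ≤ P(A ∧ G) + P(¬ G)` -/
theorem prl_and_ge (hp : IsPr p) (A G : ℕ → Ω → Prop) :
    prl p i0 l1 A ≤ prl p i0 l1 (fun i ω => A i ω ∧ G i ω) + prl p i0 l1 (fun i ω => ¬ G i ω) := by
  refine (prl_mono hp ?_).trans (prl_or_le hp _ _)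
  intro i _ _ ω _ hA
  by_cases hG : G i ω
  · exact Or.inl ⟨hA, hG⟩
  · exact Or.inr hG

/-- Markov -/
theorem prl_markov (hp : IsPr p) {F : ℕ → Ω → ℝ} (t : ℝ)
    (h : ∀ i, i0 ≤ i → i < i0 + l1 → ∀ ω, p ω ≠ 0 → 0 ≤ F i ω) :
    t * prl p i0 l1 (fun i ω => t < F i ω) ≤ avp p i0 l1 F := by
  unfold prl avp avl
  rw [← mul_div_assoc, mul_sum]
  refine div_le_div_of_nonneg_right (sum_le_sum fun i hi => ?_) (Nat.cast_nonneg _)
  exact pr_markov hp (fun ω h0 => h _ (Nat.le_add_right _ _) (by have := mem_range.1 hi; omega) ω h0) t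

/-- reverse Markov -/
theorem prl_rev (hp : IsPr p) {F : ℕ → Ω → ℝ} {t : ℝ} (ht : 0 ≤ t)
    (h : ∀ i, i0 ≤ i → i < i0 + l1 → ∀ ω, p ω ≠ 0 → F i ω ≤ 1) :
    avp p i0 l1 F ≤ prl p i0 l1 (fun i ω => t ≤ F i ω) + t := by
  classical
  unfold prl avp avl
  have key : ∀ i ∈ range l1, ∑ ω, p ω * F (i0 + i) ω ≤ pr p (fun ω => t ≤ F (i0 + i) ω) + t := by
    intro i hi
    have hi' := mem_range.1 hi
    have h1 : pr p (fun ω => t ≤ F (i0 + i) ω) + t =
        ∑ ω, ((if t ≤ F (i0 + i) ω then p ω else 0) + p ω * t) := by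
      unfold pr
      rw [sum_add_distrib, ← sum_mul, hp.sum_eq, one_mul]
    rw [h1]
    refine sum_le_sum fun ω _ => ?_
    have h2 := hp.nonneg ω
    by_cases h0 : p ω = 0
    · simp [h0]
    · have h3 := h (i0 + i) (Nat.le_add_right _ _) (by omega) ω h0
      by_cases h4 : t ≤ F (i0 + i) ω
      · rw [if_pos h4]
        have : p ω * F (i0 + i) ω ≤ p ω * 1 := mul_le_mul_of_nonneg_left h3 h2
        have : 0 ≤ p ω * t := mul_nonneg h2 ht
        linarith
      · rw [if_neg h4, zero_add]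
        push Not at h4
        exact mul_le_mul_of_nonneg_left h4.le h2
  rcases Nat.eq_zero_or_pos l1 with hl | hl
  · subst hl
    simpa using ht
  · have h1 : (0 : ℝ) < l1 := by exact_mod_cast hl
    rw [div_add' _ _ _ h1.ne']
    refine div_le_div_of_nonneg_right ((sum_le_sum key).trans (le_of_eq ?_)) h1.le
    rw [sum_add_distrib, sum_const, card_range, nsmul_eq_mul]
    ring

/-- shift of the levels -/
theorem prl_shift (hp : IsPr p) (A : ℕ → Ω → Prop) (k : ℕ) :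
    prl p i0 l1 (fun i ω => A (i + k) ω) ≤ prl p i0 l1 A + k / l1 := by
  unfold prl avl
  rw [← add_div]
  refine div_le_div_of_nonneg_right ?_ (Nat.cast_nonneg _)
  have h0 : ∀ j, 0 ≤ pr p (A (i0 + j)) := fun j => pr_nonneg hp _
  have h1 : ∑ i ∈ range l1, pr p (fun ω => A (i0 + i + k) ω) = ∑ i ∈ range l1, pr p (A (i0 + (k + i))) := by
    refine sum_congr rfl fun i _ => ?_
    rw [show i0 + i + k = i0 + (k + i) by ring]
  have h2 := sum_range_add (fun j => pr p (A (i0 + j))) k l1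
  have h3 := sum_range_add (fun j => pr p (A (i0 + j))) l1 k
  rw [add_comm l1 k] at h3
  have h4 : 0 ≤ ∑ x ∈ range k, pr p (A (i0 + x)) := sum_nonneg fun j _ => h0 j
  have h5 : ∑ x ∈ range k, pr p (A (i0 + (l1 + x))) ≤ k := by
    refine (sum_le_sum fun j _ => pr_le_one hp _).trans (le_of_eq ?_)
    rw [sum_const, card_range, nsmul_eq_mul, mul_one]
  rw [h1]
  linarith

/-- the average of the probabilities in the nodes -/
theorem avp_node (hp : IsPr p) {B d : ℕ} (Y : Ω → Co d → ℝ) (A : ℕ → Ω → Prop) :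
    avp p i0 l1 (fun i ω => pr (nd B p Y i ω) (A i)) = prl p i0 l1 A := by
  unfold avp prl avl nd
  congr 1
  exact sum_congr rfl fun i _ => (pr_eq_fib hp _ _).symm

/-- the average of the conditional entropies of the nodes -/
theorem avp_cent (hp : IsPr p) {B d : ℕ} {α γ : Type*} (Y : Ω → Co d → ℝ) (f : ℕ → Ω → α)
    (g : ℕ → Ω → γ) :
    avp p i0 l1 (fun i ω => cent (nd B p Y i ω) (f i) (g i)) =
      avl i0 l1 (fun i => cent p (f i) (fun ω => (g i ω, Wc B i Y ω))) := by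
  unfold avp avl nd
  congr 1
  exact sum_congr rfl fun i _ => (cent_eq_fib2 hp _ _ _).symm

theorem double_count (hp : IsPr p) (hl : 0 < l1) {H : Type} [Fintype H] {σ : H → ℝ} (hσ : IsPr σ)
    (S : H → Prop) (A : H → ℕ → Ω → Prop) (k : H → ℕ) (Km : ℕ) (hk : ∀ h, k h ≤ Km) {μ δa : ℝ}
    (hμ : μ ≤ pr σ S) (hδ : 0 ≤ δa)
    (h : ∀ h, S h → δa ≤ prl p i0 l1 (fun i ω => A h (i + k h) ω)) :
    ∃ j < l1 + Km, ∃ ω, p ω ≠ 0 ∧
      μ * δa * (l1 / (l1 + Km : ℝ)) ≤ pr σ (fun h => S h ∧ A h (i0 + j) ω) := by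
  classical
  have hl' : (0 : ℝ) < l1 := by exact_mod_cast hl
  have hN : (0 : ℝ) < (l1 : ℝ) + Km := by positivity
  have hpn : ∀ h j, 0 ≤ pr p (A h (i0 + j)) := fun h j => pr_nonneg hp _
  -- the sum over the shifted window
  have h1 : ∀ h', S h' → δa * l1 ≤ ∑ j ∈ range (l1 + Km), pr p (A h' (i0 + j)) := by
    intro h' hS
    have h2 := h h' hS
    unfold prl avl at h2
    rw [le_div_iff₀ hl'] at h2
    refine h2.trans ?_
    have h3 : ∑ i ∈ range l1, pr p (fun ω => A h' (i0 + i + k h') ω) =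
        ∑ i ∈ range l1, pr p (A h' (i0 + (k h' + i))) := by
      refine sum_congr rfl fun i _ => ?_
      rw [show i0 + i + k h' = i0 + (k h' + i) by ring]
    have h4 := sum_range_add (fun j => pr p (A h' (i0 + j))) (k h') l1
    have h5 : 0 ≤ ∑ x ∈ range (k h'), pr p (A h' (i0 + x)) := sum_nonneg fun j _ => hpn _ j
    have h6 : ∑ j ∈ range (k h' + l1), pr p (A h' (i0 + j)) ≤
        ∑ j ∈ range (l1 + Km), pr p (A h' (i0 + j)) :=
      sum_le_sum_of_subset_of_nonneg (range_mono (by have := hk h'; omega)) fun j _ _ => hpn _ j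
    rw [h3]
    linarith
  -- exchange of the sums
  have h2 : μ * δa * l1 ≤ ∑ j ∈ range (l1 + Km), ∑ ω, p ω * pr σ (fun h => S h ∧ A h (i0 + j) ω) := by
    have e1 : ∀ j, ∑ ω, p ω * pr σ (fun h => S h ∧ A h (i0 + j) ω) =
        ∑ h', (if S h' then σ h' else 0) * pr p (A h' (i0 + j)) := by
      intro j
      unfold pr
      simp only [mul_sum]
      rw [sum_comm]
      refine sum_congr rfl fun h' _ => sum_congr rfl fun ω _ => ?_
      by_cases hS : S h'
      · by_cases hA : A h' (i0 + j) ω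
        · simp [hS, hA]; ring
        · simp [hS, hA]
      · simp [hS]
    rw [sum_congr rfl fun j _ => e1 j, sum_comm]
    have e2 : μ * δa * l1 ≤ ∑ h', (if S h' then σ h' else 0) * (δa * l1) := by
      rw [← sum_mul]
      have e3 : pr σ S = ∑ h', (if S h' then σ h' else 0) := by
        unfold pr
        exact sum_congr rfl fun ω _ => by congr
      rw [← e3, mul_assoc]
      exact mul_le_mul_of_nonneg_right hμ (by positivity)
    refine e2.trans (sum_le_sum fun h' _ => ?_)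
    rw [← mul_sum]
    by_cases hS : S h'
    · rw [if_pos hS]
      exact mul_le_mul_of_nonneg_left (h1 h' hS) (hσ.nonneg h')
    · rw [if_neg hS, zero_mul, zero_mul]
  by_contra hcon
  push Not at hcon
  have h3 : ∀ j ∈ range (l1 + Km), ∑ ω, p ω * pr σ (fun h => S h ∧ A h (i0 + j) ω) <
      μ * δa * (l1 / (l1 + Km : ℝ)) := by
    intro j hj
    obtain ⟨ω0, hω0⟩ : ∃ ω, p ω ≠ 0 := by
      by_contra h4
      push Not at h4
      have := hp.sum_eq
      rw [sum_eq_zero fun ω _ => h4 ω] at this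
      exact zero_ne_one this
    have h4 : ∑ ω, p ω * pr σ (fun h => S h ∧ A h (i0 + j) ω) <
        ∑ ω, p ω * (μ * δa * (l1 / (l1 + Km : ℝ))) := by
      refine sum_lt_sum (fun ω _ => ?_) ⟨ω0, mem_univ _, ?_⟩
      · by_cases h0 : p ω = 0
        · rw [h0, zero_mul, zero_mul]
        · exact mul_le_mul_of_nonneg_left (hcon j (mem_range.1 hj) ω h0).le (hp.nonneg ω)
      · exact mul_lt_mul_of_pos_left (hcon j (mem_range.1 hj) ω0 hω0)
          (lt_of_le_of_ne (hp.nonneg ω0) (Ne.symm hω0))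
    rwa [← sum_mul, hp.sum_eq, one_mul] at h4
  have h4 : ∑ j ∈ range (l1 + Km), ∑ ω, p ω * pr σ (fun h => S h ∧ A h (i0 + j) ω) <
      ∑ j ∈ range (l1 + Km), μ * δa * (l1 / (l1 + Km : ℝ)) :=
    sum_lt_sum_of_nonempty ⟨0, mem_range.2 (by omega)⟩ h3
  rw [sum_const, card_range, nsmul_eq_mul] at h4
  have h5 : ((l1 + Km : ℕ) : ℝ) * (μ * δa * (l1 / (l1 + Km : ℝ))) = μ * δa * l1 := by
    push_cast
    field_simp
  rw [h5] at h4
  linarith

/-- Markov for the heights -/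
theorem hts_markov {H : Type} [Fintype H] {σ : H → ℝ} (hσ : IsPr σ) (S : H → Prop) (F : H → ℝ)
    (hF : ∀ h, S h → 0 ≤ F h) (t : ℝ) :
    t * pr σ (fun h => S h ∧ t < F h) ≤ ∑ h, σ h * (open Classical in if S h then F h else 0) := by
  classical
  unfold pr
  rw [mul_sum]
  refine sum_le_sum fun h' _ => ?_
  have h0 := hσ.nonneg h'
  by_cases hS : S h'
  · by_cases ht : t < F h'
    · rw [if_pos ⟨hS, ht⟩, if_pos hS, mul_comm]
      exact mul_le_mul_of_nonneg_left ht.le h0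
    · rw [if_neg (fun h => ht h.2), if_pos hS, mul_zero]
      exact mul_nonneg h0 (hF h' hS)
  · rw [if_neg (fun h => hS h.1), if_neg hS, mul_zero, mul_zero]

end STK
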