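import Pool.Agent.Lib.MP_ac5134_an.STK.KErr

/-!
# STK-KStab: stability of the coarse cells (section (2.2) of the paper)

`law_shift_le`: if `|a_r| ≤ ρ N` then the cells of level `c` for the shifts `z` and `z + a` differ only at
points with `NearWall B c ρ (x ω + z/N)` (`floor_eq_of_not_near`), and then by at most 1 in every
coordinate (`floor_nbr`, `ρ ≤ B^(-c)`); so the symmetric difference of the events `X_c^{z+a} = γ, E = e`
and `X_c^z = γ, E = e` is contained in the event defining `NBe`.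
`unstable_mass`: `∑_γ NBe z γ e ≤ 3^b P(near, E = e)` (every point has at most `3^b` neighbouring `γ`), and
on the unstable `(γ, e)` `P_z(γ,e) < 4 NBe z γ e`.
-/

namespace STK
open Finset RFold
variable {Ω : Type*} [Fintype Ω] {ε : Type*} {b : ℕ}

omit [Fintype Ω] in
/-- a small change of the shift: the cell does not change away from the walls -/
theorem Xc_shift_eq {B c N : ℕ} (hB : 0 < B) (hN : 0 < N) {ρ : ℝ}
    (x : Ω → Fin b → ℝ) (z a : Fin b → ℤ) (ha : ∀ r, |(a r : ℝ)| ≤ ρ * N) (ω : Ω)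
    (hn : ¬ NearWall B c ρ (fun r => x ω r + sh N z r)) :
    Xc B c (sh N (z + a)) x ω = Xc B c (sh N z) x ω := by
  have hN' : (0 : ℝ) < N := by exact_mod_cast hN
  funext r
  refine floor_eq_of_not_near (y' := fun r => x ω r + sh N (z + a) r) hB hn (fun r => ?_) r
  have e : x ω r + sh N (z + a) r - (x ω r + sh N z r) = (a r : ℝ) / N := by
    unfold sh
    push_cast [Pi.add_apply]
    ring
  show |x ω r + sh N (z + a) r - (x ω r + sh N z r)| ≤ ρ
  rw [e, abs_div, abs_of_pos hN', div_le_iff₀ hN']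
  exact ha r

omit [Fintype Ω] in
/-- a small change of the shift moves the cell by at most one in every coordinate -/
theorem Xc_shift_nbr {B c N : ℕ} (hB : 0 < B) (hN : 0 < N) {ρ : ℝ}
    (hρ : ρ ≤ ((B : ℝ) ^ c)⁻¹) (x : Ω → Fin b → ℝ) (z a : Fin b → ℤ)
    (ha : ∀ r, |(a r : ℝ)| ≤ ρ * N) (ω : Ω) (r : Fin b) :
    |Xc B c (sh N z) x ω r - Xc B c (sh N (z + a)) x ω r| ≤ 1 := by
  have hN' : (0 : ℝ) < N := by exact_mod_cast hN
  have h := floor_nbr (c := c) hB (y := fun r => x ω r + sh N z r)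
    (y' := fun r => x ω r + sh N (z + a) r) (fun r => ?_) r
  · rw [abs_sub_comm]
    exact h
  · have e : x ω r + sh N (z + a) r - (x ω r + sh N z r) = (a r : ℝ) / N := by
      unfold sh
      push_cast [Pi.add_apply]
      ring
    show |x ω r + sh N (z + a) r - (x ω r + sh N z r)| ≤ _
    rw [e, abs_div, abs_of_pos hN', div_le_iff₀ hN']
    exact (ha r).trans (mul_le_mul_of_nonneg_right hρ hN'.le)

theorem law_shift_le {p : Ω → ℝ} (hp : IsPr p) {B c N : ℕ} (hB : 0 < B) (hN : 0 < N) {ρ : ℝ}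
    (hρ : ρ ≤ ((B : ℝ) ^ c)⁻¹) (x : Ω → Fin b → ℝ) (E : Ω → ε) (z a γ : Fin b → ℤ) (e : ε)
    (ha : ∀ r, |(a r : ℝ)| ≤ ρ * N) :
    |law p (fun ω => (Xc B c (sh N (z + a)) x ω, E ω)) (γ, e) -
        law p (fun ω => (Xc B c (sh N z) x ω, E ω)) (γ, e)| ≤ NBe p B c N ρ x E z γ e := by
  have h1 : law p (fun ω => (Xc B c (sh N (z + a)) x ω, E ω)) (γ, e) ≤
      law p (fun ω => (Xc B c (sh N z) x ω, E ω)) (γ, e) + NBe p B c N ρ x E z γ e := by
    refine le_trans (pr_mono hp ?_) (pr_or_le hp _ _)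
    intro ω _ hω
    simp only [Prod.mk.injEq] at hω ⊢
    by_cases hn : NearWall B c ρ (fun r => x ω r + sh N z r)
    · refine Or.inr ⟨hn, fun r => ?_, hω.2⟩
      have h := Xc_shift_nbr hB hN hρ x z a ha ω r
      rw [hω.1] at h
      exact h
    · refine Or.inl ⟨?_, hω.2⟩
      rw [← Xc_shift_eq hB hN x z a ha ω hn]
      exact hω.1
  have h2 : law p (fun ω => (Xc B c (sh N z) x ω, E ω)) (γ, e) ≤
      law p (fun ω => (Xc B c (sh N (z + a)) x ω, E ω)) (γ, e) + NBe p B c N ρ x E z γ e := by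
    refine le_trans (pr_mono hp ?_) (pr_or_le hp _ _)
    intro ω _ hω
    simp only [Prod.mk.injEq] at hω ⊢
    by_cases hn : NearWall B c ρ (fun r => x ω r + sh N z r)
    · refine Or.inr ⟨hn, fun r => ?_, hω.2⟩
      rw [hω.1]
      simp
    · refine Or.inl ⟨?_, hω.2⟩
      rw [Xc_shift_eq hB hN x z a ha ω hn]
      exact hω.1
  rw [abs_le]
  constructor <;> linarith

theorem law_shift_le' {p : Ω → ℝ} (hp : IsPr p) {B c N : ℕ} (hB : 0 < B) (hN : 0 < N) {ρ : ℝ}
    (hρ : ρ ≤ ((B : ℝ) ^ c)⁻¹) (x : Ω → Fin b → ℝ) (z a γ : Fin b → ℤ)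
    (ha : ∀ r, |(a r : ℝ)| ≤ ρ * N) :
    |law p (Xc B c (sh N (z + a)) x) γ - law p (Xc B c (sh N z) x) γ| ≤ NB p B c N ρ x z γ := by
  have h1 : law p (Xc B c (sh N (z + a)) x) γ ≤
      law p (Xc B c (sh N z) x) γ + NB p B c N ρ x z γ := by
    refine le_trans (pr_mono hp ?_) (pr_or_le hp _ _)
    intro ω _ hω
    by_cases hn : NearWall B c ρ (fun r => x ω r + sh N z r)
    · refine Or.inr ⟨hn, fun r => ?_⟩
      have h := Xc_shift_nbr hB hN hρ x z a ha ω r
      rw [hω] at h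
      exact h
    · refine Or.inl ?_
      rw [← Xc_shift_eq hB hN x z a ha ω hn]
      exact hω
  have h2 : law p (Xc B c (sh N z) x) γ ≤
      law p (Xc B c (sh N (z + a)) x) γ + NB p B c N ρ x z γ := by
    refine le_trans (pr_mono hp ?_) (pr_or_le hp _ _)
    intro ω _ hω
    by_cases hn : NearWall B c ρ (fun r => x ω r + sh N z r)
    · refine Or.inr ⟨hn, fun r => ?_⟩
      rw [hω]
      simp
    · refine Or.inl ?_
      rw [Xc_shift_eq hB hN x z a ha ω hn]
      exact hω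
  rw [abs_le]
  constructor <;> linarith

/-- abstract form of the estimates of the unstable mass -/
theorem gen_unstable {β : Type*} {p : Ω → ℝ} (hp : IsPr p) (f : Ω → β) (R : Ω → β → Prop)
    (Nr : Ω → Prop) (K : ℕ) (hK : ∀ ω, ∀ S : Finset β, (∀ g ∈ S, R ω g) → S.card ≤ K)
    (C : ℝ) (hC : 0 ≤ C) (Bd : β → Prop)
    (hBd : ∀ g, Bd g → law p f g ≤ C * pr p (fun ω => Nr ω ∧ R ω g)) :
    pr p (fun ω => Bd (f ω)) ≤ C * K * pr p Nr := by
  classical
  set S : Finset β := (Finset.univ.image f).filter Bd with hS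
  have h1 : pr p (fun ω => Bd (f ω)) = ∑ g ∈ S, law p f g := by
    have e : ∀ ω, (if Bd (f ω) then p ω else 0) = ∑ g ∈ S, if f ω = g then p ω else 0 := by
      intro ω
      rw [Finset.sum_ite_eq]
      by_cases h : Bd (f ω)
      · have h' : f ω ∈ S := by
          rw [hS, mem_filter]
          exact ⟨mem_image_of_mem _ (mem_univ _), h⟩
        rw [if_pos h, if_pos h']
      · have h' : f ω ∉ S := by
          rw [hS, mem_filter]
          exact fun hh => h hh.2
        rw [if_neg h, if_neg h']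
    unfold law pr
    rw [sum_comm]
    refine Finset.sum_congr rfl fun ω _ => ?_
    convert e ω
  have h2 : ∑ g ∈ S, pr p (fun ω => Nr ω ∧ R ω g) ≤ K * pr p Nr := by
    unfold pr
    rw [sum_comm, mul_sum]
    refine sum_le_sum fun ω _ => ?_
    by_cases hN : Nr ω
    · simp only [hN, true_and, if_true]
      rw [← sum_filter, sum_const, nsmul_eq_mul]
      refine mul_le_mul_of_nonneg_right ?_ (hp.nonneg ω)
      have := hK ω (S.filter fun g => R ω g) (fun g hg => (mem_filter.1 hg).2)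
      exact_mod_cast this
    · simp [hN]
  rw [h1]
  calc ∑ g ∈ S, law p f g ≤ ∑ g ∈ S, C * pr p (fun ω => Nr ω ∧ R ω g) :=
        sum_le_sum fun g hg => hBd g (mem_filter.1 hg).2
    _ = C * ∑ g ∈ S, pr p (fun ω => Nr ω ∧ R ω g) := by rw [mul_sum]
    _ ≤ C * (K * pr p Nr) := mul_le_mul_of_nonneg_left h2 hC
    _ = C * K * pr p Nr := by ring

/-- the number of cells at distance at most one in every coordinate -/
theorem card_nbr_le (g0 : Fin b → ℤ) (S : Finset (Fin b → ℤ))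
    (h : ∀ g ∈ S, ∀ r, |g0 r - g r| ≤ 1) : S.card ≤ 3 ^ b := by
  classical
  have h1 : S ⊆ Fintype.piFinset fun r => Finset.Icc (g0 r - 1) (g0 r + 1) := by
    intro g hg
    rw [Fintype.mem_piFinset]
    intro r
    have := abs_le.1 (h g hg r)
    rw [Finset.mem_Icc]
    constructor <;> linarith [this.1, this.2]
  refine (card_le_card h1).trans ?_
  rw [Fintype.card_piFinset]
  have h2 : ∀ r : Fin b, (Finset.Icc (g0 r - 1) (g0 r + 1)).card = 3 := by
    intro r
    rw [Int.card_Icc]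
    have : g0 r + 1 + 1 - (g0 r - 1) = 3 := by ring
    rw [this]
    rfl
  rw [Finset.prod_congr rfl fun r _ => h2 r, prod_const, card_univ, Fintype.card_fin]

theorem unstable_mass {p : Ω → ℝ} (hp : IsPr p) {B c N : ℕ} (hB : 0 < B) {ρ : ℝ}
    (x : Ω → Fin b → ℝ) (E : Ω → ε) (z : Fin b → ℤ) :
    pr p (fun ω => ¬ Stab p B c N ρ x E z (Xc B c (sh N z) x ω) (E ω)) ≤
      4 * 3 ^ b * pr p (fun ω => NearWall B c ρ (fun r => x ω r + sh N z r)) := by
  classical
  have h := gen_unstable hp (fun ω => (Xc B c (sh N z) x ω, E ω))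
    (fun ω g => (∀ r, |Xc B c (sh N z) x ω r - g.1 r| ≤ 1) ∧ E ω = g.2)
    (fun ω => NearWall B c ρ (fun r => x ω r + sh N z r)) (3 ^ b) ?_ 4 (by norm_num)
    (fun g => ¬ Stab p B c N ρ x E z g.1 g.2) ?_
  · push_cast at h
    exact h
  · intro ω S hS
    have hinj : Set.InjOn (fun g : (Fin b → ℤ) × ε => g.1) (S : Set ((Fin b → ℤ) × ε)) := by
      intro g hg g' hg' hgg
      have e1 := (hS g hg).2
      have e2 := (hS g' hg').2
      exact Prod.ext hgg (e1.symm.trans e2)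
    rw [← card_image_of_injOn hinj]
    refine card_nbr_le (Xc B c (sh N z) x ω) _ ?_
    intro g hg r
    obtain ⟨g', hg', rfl⟩ := mem_image.1 hg
    exact (hS g' hg').1 r
  · intro g hg
    have hg' : ¬ (NBe p B c N ρ x E z g.1 g.2 ≤
      (1 / 4) * law p (fun ω => (Xc B c (sh N z) x ω, E ω)) (g.1, g.2)) := hg
    rw [not_le] at hg'
    have h3 : law p (fun ω => (Xc B c (sh N z) x ω, E ω)) g ≤
        4 * NBe p B c N ρ x E z g.1 g.2 := by
      have : (g.1, g.2) = g := rfl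
      rw [this] at hg'
      linarith
    exact h3

theorem unstable_mass_beta {p : Ω → ℝ} (hp : IsPr p) {B c N : ℕ} (hB : 0 < B) {ρ β : ℝ}
    (hβ : 0 < β) (x : Ω → Fin b → ℝ) (z : Fin b → ℤ) :
    pr p (fun ω => ¬ StabB p B c N ρ β x z (Xc B c (sh N z) x ω)) ≤
      3 ^ b / β * pr p (fun ω => NearWall B c ρ (fun r => x ω r + sh N z r)) := by
  classical
  have h := gen_unstable hp (Xc B c (sh N z) x)
    (fun ω g => ∀ r, |Xc B c (sh N z) x ω r - g r| ≤ 1)
    (fun ω => NearWall B c ρ (fun r => x ω r + sh N z r)) (3 ^ b) ?_ β⁻¹ (by positivity)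
    (fun g => ¬ StabB p B c N ρ β x z g) ?_
  · have e : (β⁻¹ : ℝ) * ((3 ^ b : ℕ) : ℝ) = 3 ^ b / β := by
      push_cast
      rw [div_eq_mul_inv, mul_comm]
    rw [e] at h
    exact h
  · intro ω S hS
    exact card_nbr_le (Xc B c (sh N z) x ω) S hS
  · intro g hg
    have hg' : ¬ (NB p B c N ρ x z g ≤ β * law p (Xc B c (sh N z) x) g) := hg
    rw [not_le] at hg'
    have h3 : law p (Xc B c (sh N z) x) g ≤ β⁻¹ * NB p B c N ρ x z g := by
      rw [inv_mul_eq_div, le_div_iff₀ hβ, mul_comm]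
      exact hg'.le
    exact h3

/-- average over the shifts of the mass near the walls -/
theorem avz_pr_near {p : Ω → ℝ} (hp : IsPr p) {B c N : ℕ} (hB : 0 < B) (hN : 0 < N)
    (hdiv : B ^ c ∣ N) {ρ : ℝ} (hρ : 0 ≤ ρ) (x : Ω → Fin b → ℝ) :
    avz N (fun z => pr p (fun ω => NearWall B c ρ (fun r => x ω r + sh N z r))) ≤
      b * ((B : ℝ) ^ c * (2 * ρ + 1 / N)) := by
  classical
  have e : (fun z : Fin b → ℤ => pr p (fun ω => NearWall B c ρ (fun r => x ω r + sh N z r))) =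
      fun z => ∑ ω, p ω * (if NearWall B c ρ (fun r => x ω r + sh N z r) then (1 : ℝ) else 0) := by
    funext z
    unfold pr
    refine Finset.sum_congr rfl fun ω _ => ?_
    by_cases h : NearWall B c ρ (fun r => x ω r + sh N z r) <;> simp [h]
  rw [e, avz_sum]
  have h1 : ∀ ω, avz N (fun z : Fin b → ℤ =>
      p ω * (if NearWall B c ρ (fun r => x ω r + sh N z r) then (1 : ℝ) else 0)) ≤
      p ω * (b * ((B : ℝ) ^ c * (2 * ρ + 1 / N))) := by
    intro ω
    rw [avz_mul]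
    refine mul_le_mul_of_nonneg_left ?_ (hp.nonneg ω)
    have h := avz_near hB hN hdiv hρ (x ω)
    convert h
  calc _ ≤ ∑ ω, p ω * (b * ((B : ℝ) ^ c * (2 * ρ + 1 / N))) := sum_le_sum fun ω _ => h1 ω
    _ = b * ((B : ℝ) ^ c * (2 * ρ + 1 / N)) := by
        rw [← sum_mul, hp.sum_eq, one_mul]

end STK
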