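import Pool.Agent.Lib.MP_ac5134_an.STK.KAsm
import Pool.Agent.Lib.MP_ac5134_an.STK.KPre

/-!
# STK-KStep: the induction step (helper29)
-/

namespace STK
open Finset RFold Filter Topology Pool.Agent.MPac5134.SD

theorem step {B d : ℕ} (hB : 2 ≤ B) {C0 : ℝ} (hC0 : 0 ≤ C0) {φ : ℕ → ℝ}
    (hφ : Tendsto φ atTop (𝓝 0)) {R b : ℕ} (_hRb : R < b + 1) (hb : b + 1 ≤ 2 * d)
    (h1 : PropRb B d C0 φ R b) (h2 : PropRb B d C0 φ (R + 1) (b + 2)) :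
    PropRb B d C0 φ R (b + 1) :=
  pre_step hB hC0 hφ (fun _ _ _ _ _ _ _ _ _ _ _ _ _ _ _ _ _ _ _ _ _ _ _ _ _ _ c hbad =>
    assemble hB c hbad) hb h1 h2

end STK
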