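import Pool.Agent.Lib.MP_ac5134_an.STK.KWinG

/-!
# STK-KStk: sticky families

`max_sticky`: at most `K` feet per cell and `numStick_k(i) ≤ K'` for `1 ≤ k ≤ m` and all `i`: the geometric mean
inequality `max_pos` without the factors.  `mean_sticky`: at most `K` feet per cell and the geometric mean of
`numStick_k(i)` over `1 ≤ k ≤ m` and `i` at most `K'`: the same for the geometric mean over all tubes.
For `mean_sticky` let `a_k = H(P_k | D_k)` (`P_k`, `D_k` the cells of level `k`, uniform weight);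
`a_k ≤ mean of log numStick k`, `a_k ≤ a_{k+1} + d log B`, so for `t ≤ r` and `r m' + t ≤ m + 1`
`t ∑_{j<m'} a_{r(j+1)} ≤ ∑_{1≤k≤m} a_k + m' t² d log B`; `max_factor` with base `B^r`.
-/

namespace STK
open Finset RFold Filter Topology MeasureTheory Pool.Agent.MPac5134 Pool.Agent.MPac5134.Lip
open scoped ENNReal

theorem gmean_eq {ι : Type*} [Fintype ι] (f : ι → ℝ) (hf : ∀ i, 0 < f i) :
    gmean f = Real.exp ((∑ i, Real.log (f i)) / Fintype.card ι) := by
  unfold gmean
  rw [Real.rpow_def_of_pos (Finset.prod_pos fun i _ => hf i),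
    Real.log_prod (fun i _ => (hf i).ne'), div_eq_mul_inv]

theorem cent_uni_eq {Ω : Type*} [Fintype Ω] [Nonempty Ω] {β γ : Type*} (f : Ω → β) (g : Ω → γ)
    (P P' : Ω → Ω → Prop) [∀ i, DecidablePred (P i)] [∀ i, DecidablePred (P' i)]
    (hP : ∀ i j, P i j ↔ g j = g i) (hP' : ∀ i j, P' i j ↔ (f j = f i ∧ g j = g i)) :
    cent (uni Ω) f g = (∑ i, (Real.log (univ.filter (P i)).card -
      Real.log (univ.filter (P' i)).card)) / Fintype.card Ω := by
  classical
  unfold cent
  rw [ent_uni_eq, ent_uni_eq]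
  have h1 : ∀ i, (univ.filter fun y => g y = g i).card = (univ.filter (P i)).card := fun i => by
    congr 1
    ext j
    simp only [mem_filter, mem_univ, true_and, hP]
  have h2 : ∀ i, (univ.filter fun y => (f y, g y) = (f i, g i)).card =
      (univ.filter (P' i)).card := fun i => by
    congr 1
    ext j
    simp only [mem_filter, mem_univ, true_and, hP', Prod.mk.injEq]
  have e1 : ∑ x, Real.log (univ.filter fun y => g y = g x).card =
      ∑ i, Real.log (univ.filter (P i)).card := by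
    refine Finset.sum_congr rfl fun i _ => ?_
    rw [← h1 i]
  have e2 : ∑ x, Real.log (univ.filter fun y => (f y, g y) = (f x, g x)).card =
      ∑ i, Real.log (univ.filter (P' i)).card := by
    refine Finset.sum_congr rfl fun i _ => ?_
    rw [← h2 i]
  rw [Finset.sum_sub_distrib, ← e1, ← e2, div_eq_mul_inv]
  have e5 : ∀ a b c D : ℝ, D - c * a - (D - c * b) = (b - a) * c := fun a b c D => by ring
  rw [e5]
  congr!

/-- `log (numClass k i / numSame (k+1) i)` -/
noncomputable def logRatio {ι : Type*} [Fintype ι] {d : ℕ} (B : ℕ) (N : ℝ) (θ : ι → Cap d)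
    (x : ι → Sp d) (k : ℕ) (i : ι) : ℝ :=
  Real.log (numClass B N θ x k i) - Real.log (numSame B N θ x (k + 1) i)

/-- `H(P_k | D_k)` -/
noncomputable def stk {ι : Type} [Fintype ι] {d : ℕ} (B : ℕ) (N : ℝ) (θ : ι → Cap d)
    (x : ι → Sp d) (k : ℕ) : ℝ :=
  cent (uni ι) (fun i => posCell B N k (θ i) (x i)) (fun i => dirCell B k (θ i))

section
variable {ι : Type} [Fintype ι] {d B : ℕ} {N : ℝ} {θ : ι → Cap d} {x : ι → Sp d}

/-- the mean of `logRatio k` is a conditional entropy -/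
theorem logRatio_cent (hB : 2 ≤ B) [Nonempty ι] (k : ℕ) :
    (∑ i, logRatio B N θ x k i) / Fintype.card ι =
      cent (uni ι) (fun j => posCell B N (k + 1) (θ j) (x j))
        (fun j => (posCell B N k (θ j) (x j), dirCell B (k + 1) (θ j))) := by
  classical
  rw [cent_uni_eq (fun j => posCell B N (k + 1) (θ j) (x j))
    (fun j => (posCell B N k (θ j) (x j), dirCell B (k + 1) (θ j)))
    (fun i j => posCell B N k (θ j) (x j) = posCell B N k (θ i) (x i) ∧
      dirCell B (k + 1) (θ j) = dirCell B (k + 1) (θ i))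
    (fun i j => posCell B N (k + 1) (θ j) (x j) = posCell B N (k + 1) (θ i) (x i) ∧
      dirCell B (k + 1) (θ j) = dirCell B (k + 1) (θ i)) (fun i j => ?_) (fun i j => ?_)]
  · unfold logRatio numClass numSame
    congr!
  · simp only [Prod.mk.injEq]
  · simp only [Prod.mk.injEq]
    constructor
    · rintro ⟨a1, a2⟩
      exact ⟨a1, posCell_coarse (by omega) a1, a2⟩
    · rintro ⟨a1, a2, a3⟩
      exact ⟨a1, a3⟩

omit [Fintype ι] in
/-- a direction cell of level `m` contains at most `K (R+1)^d` feet. -/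
theorem cell_card {m R : ℕ} (K : ℕ) (hB : 2 ≤ B) (hN1 : (B : ℝ) ^ m ≤ N)
    (hN2 : N ≤ R * (B : ℝ) ^ m)
    (hov : ∀ (z : Fin d → ℤ) (s : Finset ι), (∀ i ∈ s, cell N (θ i) = z) → s.card ≤ K)
    (w : Fin d → ℤ) (F : Finset ι) (hF : ∀ i ∈ F, dirCell B m (θ i) = w) :
    F.card ≤ K * (R + 1) ^ d := by
  classical
  have hB0 : (0 : ℝ) < B := by
    have : (2 : ℝ) ≤ B := by exact_mod_cast hB
    linarith
  have hP : (0 : ℝ) < (B : ℝ) ^ m := by positivity
  have hN0 : 0 < N := lt_of_lt_of_le hP hN1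
  have hmaps : ∀ i ∈ F, cell N (θ i) ∈ Fintype.piFinset (fun r : Fin d =>
      Finset.Icc ⌊N * (w r / (B : ℝ) ^ m)⌋ (⌊N * (w r / (B : ℝ) ^ m)⌋ + R)) := by
    intro i hi
    rw [Fintype.mem_piFinset]
    intro r
    have h1 := congrFun (hF i hi) r
    simp only [dirCell] at h1
    rw [Int.floor_eq_iff] at h1
    have h2 : (w r : ℝ) / (B : ℝ) ^ m ≤ (θ i).foot r := by
      rw [div_le_iff₀ hP]
      linarith [h1.1]
    have h3 : (θ i).foot r < (w r : ℝ) / (B : ℝ) ^ m + 1 / (B : ℝ) ^ m := by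
      rw [← add_div, lt_div_iff₀ hP]
      linarith [h1.2]
    rw [Finset.mem_Icc]
    unfold cell
    constructor
    · exact Int.floor_le_floor (mul_le_mul_of_nonneg_left h2 hN0.le)
    · have h4 : N * (θ i).foot r < N * ((w r : ℝ) / (B : ℝ) ^ m) + R := by
        have h5 : N * (1 / (B : ℝ) ^ m) ≤ R := by
          rw [mul_one_div, div_le_iff₀ hP]
          exact hN2
        have h6 := mul_lt_mul_of_pos_left h3 hN0
        linarith
      have h7 : ⌊N * (θ i).foot r⌋ < ⌊N * ((w r : ℝ) / (B : ℝ) ^ m)⌋ + R + 1 := by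
        rw [Int.floor_lt]
        push_cast
        have := Int.lt_floor_add_one (N * ((w r : ℝ) / (B : ℝ) ^ m))
        linarith
      omega
  have h1 := Finset.card_le_mul_card_image_of_maps_to hmaps K (fun z _ =>
    hov z _ fun i hi => (Finset.mem_filter.1 hi).2)
  rw [Fintype.card_piFinset] at h1
  have h2 : ∀ r : Fin d, (Finset.Icc ⌊N * ((w r : ℝ) / (B : ℝ) ^ m)⌋
      (⌊N * ((w r : ℝ) / (B : ℝ) ^ m)⌋ + R)).card = R + 1 := by
    intro r
    rw [Int.card_Icc]
    omega
  rw [Finset.prod_congr rfl fun r _ => h2 r, Finset.prod_const, Finset.card_univ,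
    Fintype.card_fin] at h1
  exact h1

theorem numSame_le {m R : ℕ} (K : ℕ) (hB : 2 ≤ B) (hN1 : (B : ℝ) ^ m ≤ N)
    (hN2 : N ≤ R * (B : ℝ) ^ m)
    (hov : ∀ (z : Fin d → ℤ) (s : Finset ι), (∀ i ∈ s, cell N (θ i) = z) → s.card ≤ K) (i : ι) :
    numSame B N θ x m i ≤ K * (R + 1) ^ d := by
  classical
  unfold numSame
  exact cell_card K hB hN1 hN2 hov (dirCell B m (θ i)) _ fun j hj => (Finset.mem_filter.1 hj).2.2

theorem stk_nonneg [Nonempty ι] (k : ℕ) : 0 ≤ stk B N θ x k := cent_nonneg isPr_uni _ _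

theorem numStick_pos (k : ℕ) (i : ι) : 0 < numStick B N θ x k i := by
  classical
  unfold numStick
  refine Finset.card_pos.mpr ⟨posCell B N k (θ i) (x i), ?_⟩
  rw [Finset.mem_image]
  exact ⟨i, by simp, rfl⟩

theorem stk_le [Nonempty ι] (k : ℕ) :
    stk B N θ x k ≤ (∑ i, Real.log (numStick B N θ x k i)) / Fintype.card ι := by
  classical
  have hp : IsPr (uni ι) := isPr_uni
  have h2 := cent_le_log_card hp (fun j => posCell B N k (θ j) (x j)) (fun j => dirCell B k (θ j))
    (fun c => (univ.filter fun j => dirCell B k (θ j) = c).image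
      fun j => posCell B N k (θ j) (x j)) (fun i _ => by
        rw [Finset.mem_image]
        exact ⟨i, by simp, rfl⟩)
  unfold stk
  refine h2.trans (le_of_eq ?_)
  rw [Finset.sum_div]
  refine Finset.sum_congr rfl fun i _ => ?_
  unfold uni numStick
  rw [div_eq_mul_inv, mul_comm]

private theorem dir_step [Nonempty ι] (hB : 2 ≤ B) (k : ℕ) :
    cent (uni ι) (fun i => dirCell B (k + 1) (θ i)) (fun i => dirCell B k (θ i)) ≤
      d * Real.log B := by
  have h := cent_X_X (show 0 < B by omega) (p := uni ι) isPr_uni (Nat.le_succ k) 0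
    (fun i => (θ i).foot)
  have e : ∀ q, Xc B q 0 (fun i => (θ i).foot) = fun i => dirCell B q (θ i) := by
    intro q
    funext i r
    simp only [Xc, dirCell, Pi.zero_apply, add_zero]
  rw [e, e] at h
  refine h.trans (le_of_eq ?_)
  have : k.succ - k = 1 := by omega
  rw [this]
  push_cast
  ring

theorem stk_step [Nonempty ι] (hB : 2 ≤ B) (k : ℕ) :
    stk B N θ x k ≤ stk B N θ x (k + 1) + d * Real.log B := by
  have hp : IsPr (uni ι) := isPr_uni
  have h0 := dir_step (θ := θ) hB k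
  unfold stk
  -- H(P|D) ≤ H(P, D' | D) = H(D' | D) + H(P | D', D)
  have h1 : cent (uni ι) (fun i => posCell B N k (θ i) (x i)) (fun i => dirCell B k (θ i)) ≤
      cent (uni ι) (fun i => (dirCell B (k + 1) (θ i), posCell B N k (θ i) (x i)))
        (fun i => dirCell B k (θ i)) :=
    cent_mono hp (Det.fst (Det.snd (Det.refl _))) (Det.refl _)
  have h2 := cent_chain hp (fun i => dirCell B (k + 1) (θ i)) (fun i => posCell B N k (θ i) (x i))
    (fun i => dirCell B k (θ i))
  have h3 : cent (uni ι) (fun i => posCell B N k (θ i) (x i))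
      (fun i => (dirCell B (k + 1) (θ i), dirCell B k (θ i))) ≤
      cent (uni ι) (fun i => posCell B N k (θ i) (x i)) (fun i => dirCell B (k + 1) (θ i)) :=
    cent_anti hp _ (Det.fst (Det.refl _))
  have h4 : cent (uni ι) (fun i => posCell B N k (θ i) (x i)) (fun i => dirCell B (k + 1) (θ i)) ≤
      cent (uni ι) (fun i => posCell B N (k + 1) (θ i) (x i)) (fun i => dirCell B (k + 1) (θ i)) :=
    cent_mono hp (fun i j _ _ e => posCell_coarse (by omega) (congrArg Prod.fst e)) (Det.refl _)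
  linarith

theorem stk_steps [Nonempty ι] (hB : 2 ≤ B) (k s : ℕ) :
    stk B N θ x k ≤ stk B N θ x (k + s) + s * (d * Real.log B) := by
  induction s with
  | zero => simp
  | succ s ih =>
    have h := stk_step (N := N) (θ := θ) (x := x) hB (k + s)
    rw [← add_assoc]
    push_cast
    linarith

theorem posCell_pow (r k : ℕ) (θ : Cap d) (c : Sp d) :
    posCell (B ^ r) N k θ c = posCell B N (r * k) θ c := by
  funext i
  unfold posCell
  push_cast
  rw [pow_mul]

theorem dirCell_pow (r k : ℕ) (c : Cap d) : dirCell (B ^ r) k c = dirCell B (r * k) c := by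
  funext i
  unfold dirCell
  push_cast
  rw [pow_mul]

/-- the local entropies with the base `B^r` -/
theorem logRatio_pow_le [Nonempty ι] (hB : 2 ≤ B) {r : ℕ} (hr : 1 ≤ r) (k : ℕ) :
    (∑ i, logRatio (B ^ r) N θ x k i) / Fintype.card ι ≤ stk B N θ x (r * (k + 1)) := by
  have hp : IsPr (uni ι) := isPr_uni
  have hB' : 2 ≤ B ^ r := hB.trans (Nat.le_self_pow (by omega) B)
  rw [logRatio_cent hB' k]
  unfold stk
  have h := cent_anti hp (fun j => posCell (B ^ r) N (k + 1) (θ j) (x j))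
    (g := fun j => dirCell (B ^ r) (k + 1) (θ j))
    (g' := fun j => (posCell (B ^ r) N k (θ j) (x j), dirCell (B ^ r) (k + 1) (θ j)))
    (Det.snd (Det.refl _))
  refine h.trans (le_of_eq ?_)
  simp only [posCell_pow, dirCell_pow]

/-- the sum over the levels `r, 2r, …, m' r` -/
theorem sum_stk_le [Nonempty ι] (hB : 2 ≤ B) {m m' r t : ℕ} (htr : t ≤ r)
    (hm : m' = 0 ∨ r * m' + t ≤ m + 1) :
    t * ∑ j ∈ range m', stk B N θ x (r * (j + 1)) ≤
      ∑ k ∈ range m, stk B N θ x (k + 1) + m' * t * (t * (d * Real.log B)) := by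
  have hlogB : 0 ≤ Real.log B := Real.log_nonneg (by
    have : (2 : ℝ) ≤ B := by exact_mod_cast hB
    linarith)
  have h1 : (t : ℝ) * ∑ j ∈ range m', stk B N θ x (r * (j + 1)) =
      ∑ q ∈ range m' ×ˢ range t, stk B N θ x (r * (q.1 + 1)) := by
    rw [Finset.sum_product, Finset.mul_sum]
    refine Finset.sum_congr rfl fun j _ => ?_
    show _ = ∑ y ∈ range t, stk B N θ x (r * (j + 1))
    rw [Finset.sum_const, Finset.card_range, nsmul_eq_mul]
  have h2 : ∑ q ∈ range m' ×ˢ range t, stk B N θ x (r * (q.1 + 1)) ≤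
      ∑ q ∈ range m' ×ˢ range t, (stk B N θ x (r * (q.1 + 1) + q.2) + t * (d * Real.log B)) := by
    refine Finset.sum_le_sum fun q hq => ?_
    rw [Finset.mem_product, Finset.mem_range, Finset.mem_range] at hq
    refine (stk_steps hB (r * (q.1 + 1)) q.2).trans ?_
    have : (q.2 : ℝ) ≤ t := by exact_mod_cast hq.2.le
    gcongr
  have h3 : ∑ q ∈ range m' ×ˢ range t, stk B N θ x (r * (q.1 + 1) + q.2) ≤
      ∑ k ∈ range m, stk B N θ x (k + 1) := by
    rcases Nat.eq_zero_or_pos t with ht | ht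
    · subst ht
      rw [Finset.range_zero, Finset.product_empty, Finset.sum_empty]
      exact Finset.sum_nonneg fun k _ => stk_nonneg _
    have hinj : Set.InjOn (fun q : ℕ × ℕ => r * q.1 + q.2 + (r - 1))
        (range m' ×ˢ range t : Finset (ℕ × ℕ)) := by
      intro q hq q' hq' e
      simp only [Finset.coe_product, Finset.coe_range, Set.mem_prod, Set.mem_Iio] at hq hq' e
      have e1 : r * q.1 + q.2 = r * q'.1 + q'.2 := by omega
      have a1 : (r * q.1 + q.2) / r = q.1 := by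
        rw [Nat.mul_add_div (by omega), Nat.div_eq_of_lt (by omega), add_zero]
      have a2 : (r * q'.1 + q'.2) / r = q'.1 := by
        rw [Nat.mul_add_div (by omega), Nat.div_eq_of_lt (by omega), add_zero]
      have e2 : q.1 = q'.1 := by rw [← a1, ← a2, e1]
      refine Prod.ext e2 ?_
      rw [e2] at e1
      omega
    have h4 : ∑ q ∈ range m' ×ˢ range t, stk B N θ x (r * (q.1 + 1) + q.2) =
        ∑ k ∈ (range m' ×ˢ range t).image (fun q : ℕ × ℕ => r * q.1 + q.2 + (r - 1)),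
          stk B N θ x (k + 1) := by
      rw [Finset.sum_image hinj]
      refine Finset.sum_congr rfl fun q _ => ?_
      congr 1
      rw [mul_add, mul_one]
      omega
    rw [h4]
    refine Finset.sum_le_sum_of_subset_of_nonneg ?_ fun k _ _ => stk_nonneg _
    intro k hk
    rw [Finset.mem_image] at hk
    obtain ⟨q, hq, rfl⟩ := hk
    rw [Finset.mem_product, Finset.mem_range, Finset.mem_range] at hq
    rw [Finset.mem_range]
    rcases hm with hm | hm
    · omega
    · have h5 : r * (q.1 + 1) ≤ r * m' := Nat.mul_le_mul_left r hq.1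
      rw [mul_add, mul_one] at h5
      omega
  rw [h1]
  refine h2.trans ?_
  rw [Finset.sum_add_distrib, Finset.sum_const, Finset.card_product, Finset.card_range,
    Finset.card_range, nsmul_eq_mul]
  push_cast
  linarith

theorem numPos_pow_le {r : ℕ} (k : ℕ) (i : ι) :
    numPos (B ^ r) N θ x k i ≤ numStick B N θ x (r * (k + 1)) i := by
  classical
  unfold numPos numStick
  refine Finset.card_le_card ?_
  intro v hv
  rw [Finset.mem_image] at hv ⊢
  obtain ⟨j, hj, rfl⟩ := hv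
  rw [Finset.mem_filter] at hj
  refine ⟨j, ?_, ?_⟩
  · rw [Finset.mem_filter]
    exact ⟨mem_univ _, by rw [← dirCell_pow, ← dirCell_pow]; exact hj.2.2⟩
  · simp only [posCell_pow]

end

open Classical in
/-- (ii): sticky families -/
theorem max_sticky {B d : ℕ} (hB : 2 ≤ B) (hd : 1 ≤ d) (K : ℕ) (K' : ℝ) {ε : ℝ} (hε : 0 < ε) :
    ∃ C : ℝ, ∀ (m : ℕ) (N : ℝ), (B : ℝ) ^ m ≤ N → N ≤ (B : ℝ) ^ (m + 1) →
      ∀ (ι : Type) [Fintype ι] (θ : ι → Cap d) (x : ι → Sp d),
      (∀ (z : Fin d → ℤ) (s : Finset ι), (∀ i ∈ s, cell N (θ i) = z) → s.card ≤ K) →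
      (∀ k, 1 ≤ k → k ≤ m → ∀ i, (numStick B N θ x k i : ℝ) ≤ K') →
      ∀ G : Sp d → ℝ, (∀ i, IntegrableOn G (tube N (θ i) (x i))) →
      ∑ i, ENNReal.ofReal (N ^ (d + 2) * Real.exp (⨍ z in tube N (θ i) (x i), G z)) ≤
        ENNReal.ofReal (C * N ^ ε) *
          ∫⁻ z in ⋃ i, tube N (θ i) (x i), ENNReal.ofReal (Real.exp (G z)) := by
  have hB2 : (2 : ℝ) ≤ B := by exact_mod_cast hB
  have hB0 : (0 : ℝ) < B := by linarith
  have hB1 : (1 : ℝ) ≤ B := by linarith
  have hlogB : 0 < Real.log B := Real.log_pos (by linarith)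
  obtain ⟨L, hL⟩ : ∃ L : ℝ, L = max K' 1 := ⟨_, rfl⟩
  have hL1 : 1 ≤ L := by
    rw [hL]
    exact le_max_right _ _
  have hL0 : 0 < L := by linarith
  obtain ⟨r, hr1, hr⟩ : ∃ r : ℕ, 1 ≤ r ∧ 2 * Real.log L / (ε * Real.log B) ≤ r := by
    obtain ⟨r, hr⟩ := exists_nat_ge (2 * Real.log L / (ε * Real.log B))
    refine ⟨max r 1, le_max_right _ _, hr.trans ?_⟩
    exact_mod_cast le_max_left r 1
  have hr0 : (0 : ℝ) < r := by exact_mod_cast hr1
  have hB' : 2 ≤ B ^ r := hB.trans (Nat.le_self_pow (by omega) B)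
  obtain ⟨C, hC, h⟩ := max_pos (B := B ^ r) (d := d) hB' hd (half_pos hε)
  refine ⟨C * (K * ((B ^ (2 * r) : ℕ) + 1) ^ d), ?_⟩
  intro m N hN1 hN2 ι _ θ x hov hst G hG
  rcases isEmpty_or_nonempty ι with hem | hne
  · rw [Finset.univ_eq_empty, Finset.sum_empty]
    exact zero_le
  obtain ⟨m', hm'⟩ : ∃ m' : ℕ, m' = m / r := ⟨_, rfl⟩
  have hm2 : r * m' ≤ m := by
    rw [hm']
    exact Nat.mul_div_le _ _
  have hm3 : m + 1 ≤ r * m' + 2 * r := by
    have h1 : m < r * m' + r := by
      rw [hm']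
      exact Nat.lt_mul_div_succ _ hr1
    omega
  have hNpos : (0 : ℝ) < (B : ℝ) ^ m := by positivity
  have hN0 : 0 < N := by linarith
  have hlev : ((B ^ r : ℕ) : ℝ) ^ m' ≤ N := by
    push_cast
    rw [← pow_mul]
    exact (pow_le_pow_right₀ hB1 hm2).trans hN1
  have hlev2 : N ≤ (B ^ (2 * r) : ℕ) * ((B ^ r : ℕ) : ℝ) ^ m' := by
    push_cast
    rw [← pow_mul, ← pow_add]
    refine hN2.trans (pow_le_pow_right₀ hB1 ?_)
    omega
  have hsame : ∀ i, (numSame (B ^ r) N θ x m' i : ℝ) ≤ K * ((B ^ (2 * r) : ℕ) + 1) ^ d := by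
    intro i
    exact_mod_cast numSame_le K hB' hlev hlev2 hov i
  have hsame0 : ∀ i, (0 : ℝ) < numSame (B ^ r) N θ x m' i := fun i => by
    exact_mod_cast numSame_pos' (B ^ r) N m' θ x i
  have hK0 : (0 : ℝ) < K * ((B ^ (2 * r) : ℕ) + 1) ^ d :=
    lt_of_lt_of_le (hsame0 (Classical.arbitrary ι)) (hsame _)
  have hNε : 0 < N ^ (ε / 2) := Real.rpow_pos_of_pos hN0 _
  have hprod : ∀ i, ∏ k ∈ range m', (numPos (B ^ r) N θ x k i : ℝ) ≤ N ^ (ε / 2) := by
    intro i
    have h1 : ∏ k ∈ range m', (numPos (B ^ r) N θ x k i : ℝ) ≤ ∏ _k ∈ range m', L := by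
      refine Finset.prod_le_prod (fun _ _ => Nat.cast_nonneg _) fun k hk => ?_
      rw [Finset.mem_range] at hk
      have h2 : (numPos (B ^ r) N θ x k i : ℝ) ≤ numStick B N θ x (r * (k + 1)) i := by
        exact_mod_cast numPos_pow_le k i
      have h3 : r * (k + 1) ≤ m := (Nat.mul_le_mul_left r hk).trans hm2
      have h4 : 1 * 1 ≤ r * (k + 1) := Nat.mul_le_mul hr1 (by omega)
      refine h2.trans ((hst _ (by omega) h3 i).trans ?_)
      rw [hL]
      exact le_max_left _ _
    rw [Finset.prod_const, Finset.card_range] at h1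
    refine h1.trans ?_
    rw [← Real.exp_log hL0, ← Real.exp_nat_mul, Real.rpow_def_of_pos hN0]
    refine Real.exp_le_exp.2 ?_
    have h5 : 2 * Real.log L ≤ r * (ε * Real.log B) := by
      rwa [div_le_iff₀ (by positivity)] at hr
    have h6 : (m : ℝ) * Real.log B ≤ Real.log N := by
      rw [← Real.log_pow]
      exact Real.log_le_log hNpos hN1
    have h7 : (r : ℝ) * m' ≤ m := by exact_mod_cast hm2
    have h8 := mul_le_mul_of_nonneg_left h5 (Nat.cast_nonneg m' : (0 : ℝ) ≤ m')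
    have h9 := mul_le_mul_of_nonneg_right h7 (mul_nonneg hε.le hlogB.le)
    have h10 := mul_le_mul_of_nonneg_left h6 hε.le
    nlinarith
  have hterm : ∀ i ∈ (univ : Finset ι), ENNReal.ofReal (N ^ (d + 2) *
      Real.exp (⨍ z in tube N (θ i) (x i), G z)) ≤
      ENNReal.ofReal (K * ((B ^ (2 * r) : ℕ) + 1) ^ d * N ^ (ε / 2)) *
      ENNReal.ofReal (N ^ (d + 2) / factorPos (B ^ r) N θ x m' i *
        Real.exp (⨍ z in tube N (θ i) (x i), G z)) := by
    intro i _
    rw [← ENNReal.ofReal_mul (by positivity)]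
    refine ENNReal.ofReal_le_ofReal ?_
    have hf0 : 0 < factorPos (B ^ r) N θ x m' i := factorPos_pos θ x i
    have hf1 : factorPos (B ^ r) N θ x m' i ≤
        K * ((B ^ (2 * r) : ℕ) + 1) ^ d * N ^ (ε / 2) := by
      unfold factorPos
      exact mul_le_mul (hsame i) (hprod i) (Finset.prod_nonneg fun _ _ => Nat.cast_nonneg _) hK0.le
    rw [← mul_assoc]
    refine mul_le_mul_of_nonneg_right ?_ (Real.exp_pos _).le
    rw [mul_div_assoc', le_div_iff₀ hf0, mul_comm]
    exact mul_le_mul_of_nonneg_right hf1 (by positivity)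
  refine (Finset.sum_le_sum hterm).trans ?_
  rw [← Finset.mul_sum]
  refine (mul_le_mul_right (h m' N hlev ι θ x G hG) _).trans (le_of_eq ?_)
  rw [← mul_assoc, ← ENNReal.ofReal_mul (by positivity)]
  congr 2
  have e : N ^ ε = N ^ (ε / 2) * N ^ (ε / 2) := by rw [← Real.rpow_add hN0, add_halves]
  rw [e]
  ring

open Classical in
/-- (iii): families that are sticky on average -/
theorem mean_sticky {B d : ℕ} (hB : 2 ≤ B) (hd : 1 ≤ d) (K : ℕ) (K' : ℝ) {ε : ℝ} (hε : 0 < ε) :
    ∃ C : ℝ, ∀ (m : ℕ) (N : ℝ), (B : ℝ) ^ m ≤ N → N ≤ (B : ℝ) ^ (m + 1) →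
      ∀ (ι : Type) [Fintype ι] (θ : ι → Cap d) (x : ι → Sp d),
      (∀ (z : Fin d → ℤ) (s : Finset ι), (∀ i ∈ s, cell N (θ i) = z) → s.card ≤ K) →
      (gmean fun q : Fin m × ι => (numStick B N θ x (q.1 + 1) q.2 : ℝ)) ≤ K' →
      ∀ G : Sp d → ℝ, (∀ i, IntegrableOn G (tube N (θ i) (x i))) →
      ENNReal.ofReal (Fintype.card ι * N ^ (d + 2) *
          Real.exp ((∑ i, ⨍ z in tube N (θ i) (x i), G z) / Fintype.card ι)) ≤
        ENNReal.ofReal (C * N ^ ε) *
          ∫⁻ z in ⋃ i, tube N (θ i) (x i), ENNReal.ofReal (Real.exp (G z)) := by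
  have hB2 : (2 : ℝ) ≤ B := by exact_mod_cast hB
  have hB0 : (0 : ℝ) < B := by linarith
  have hB1 : (1 : ℝ) ≤ B := by linarith
  have hlogB : 0 < Real.log B := Real.log_pos (by linarith)
  obtain ⟨L, hL⟩ : ∃ L : ℝ, L = Real.log (max K' 1) := ⟨_, rfl⟩
  have hL0 : 0 ≤ L := by
    rw [hL]
    exact Real.log_nonneg (le_max_right _ _)
  obtain ⟨t, ht1, ht⟩ : ∃ t : ℕ, 1 ≤ t ∧ 4 * L / (ε * Real.log B) ≤ t := by
    obtain ⟨t, ht⟩ := exists_nat_ge (4 * L / (ε * Real.log B))
    refine ⟨max t 1, le_max_right _ _, ht.trans ?_⟩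
    exact_mod_cast le_max_left t 1
  obtain ⟨r, hrt, hr⟩ : ∃ r : ℕ, t ≤ r ∧ 4 * t * d / ε ≤ r := by
    obtain ⟨r, hr⟩ := exists_nat_ge (4 * t * d / ε)
    refine ⟨max t r, le_max_left _ _, hr.trans ?_⟩
    exact_mod_cast le_max_right t r
  have hr1 : 1 ≤ r := ht1.trans hrt
  have ht0 : (0 : ℝ) < t := by exact_mod_cast ht1
  have hr0 : (0 : ℝ) < r := by exact_mod_cast hr1
  have hB' : 2 ≤ B ^ r := hB.trans (Nat.le_self_pow (by omega) B)
  obtain ⟨C, hC, h⟩ := max_factor (B := B ^ r) (d := d) hB' hd (half_pos hε)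
  refine ⟨C * (K * ((B ^ (2 * r) : ℕ) + 1) ^ d), ?_⟩
  intro m N hN1 hN2 ι _ θ x hov hst G hG
  rcases isEmpty_or_nonempty ι with hem | hne
  · simp
  have hcard : (0 : ℝ) < Fintype.card ι := by exact_mod_cast Fintype.card_pos
  -- the sticky hypothesis
  have hsum : ∑ k ∈ range m, stk B N θ x (k + 1) ≤ m * L := by
    have hpos : ∀ q : Fin m × ι, (0 : ℝ) < (numStick B N θ x (q.1 + 1) q.2 : ℝ) := fun q => by
      have := numStick_pos (B := B) (N := N) (θ := θ) (x := x) (q.1 + 1) q.2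
      exact_mod_cast this
    rw [gmean_eq _ hpos] at hst
    have h1 : (∑ q : Fin m × ι, Real.log (numStick B N θ x (q.1 + 1) q.2)) /
        Fintype.card (Fin m × ι) ≤ L := by
      rw [hL, Real.le_log_iff_exp_le (lt_of_lt_of_le one_pos (le_max_right _ _))]
      exact hst.trans (le_max_left _ _)
    rcases Nat.eq_zero_or_pos m with hm | hm
    · subst hm
      simp
    have hm0 : (0 : ℝ) < m := by exact_mod_cast hm
    rw [Fintype.card_prod, Fintype.card_fin, Fintype.sum_prod_type] at h1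
    push_cast at h1
    rw [div_le_iff₀ (by positivity)] at h1
    have h2 : ∑ k ∈ range m, stk B N θ x (k + 1) ≤
        ∑ k ∈ range m, (∑ i, Real.log (numStick B N θ x (k + 1) i)) / Fintype.card ι :=
      Finset.sum_le_sum fun k _ => stk_le _
    rw [← Finset.sum_div, Finset.sum_range fun k => ∑ i, Real.log (numStick B N θ x (k + 1) i)] at h2
    refine h2.trans ?_
    rw [div_le_iff₀ hcard]
    linarith
  -- the levels
  obtain ⟨m', hm'⟩ : ∃ m' : ℕ, m' = (m + 1 - t) / r := ⟨_, rfl⟩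
  have hm1 : m' = 0 ∨ r * m' + t ≤ m + 1 := by
    rcases Nat.eq_zero_or_pos m' with h0 | h0
    · exact Or.inl h0
    · right
      have h1 : r * m' ≤ m + 1 - t := by
        rw [hm']
        exact Nat.mul_div_le _ _
      have h2 : 1 * 1 ≤ r * m' := Nat.mul_le_mul hr1 h0
      omega
  have hm2 : r * m' ≤ m := by
    rcases hm1 with h0 | h0
    · rw [h0]
      omega
    · omega
  have hm3 : m + 1 ≤ r * m' + 2 * r := by
    have h1 : m + 1 - t < r * m' + r := by
      rw [hm']
      exact Nat.lt_mul_div_succ _ hr1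
    omega
  have hNpos : (0 : ℝ) < (B : ℝ) ^ m := by positivity
  have hN0 : 0 < N := by linarith
  have hlev : ((B ^ r : ℕ) : ℝ) ^ m' ≤ N := by
    push_cast
    rw [← pow_mul]
    exact (pow_le_pow_right₀ hB1 hm2).trans hN1
  have hlev2 : N ≤ (B ^ (2 * r) : ℕ) * ((B ^ r : ℕ) : ℝ) ^ m' := by
    push_cast
    rw [← pow_mul, ← pow_add]
    refine hN2.trans (pow_le_pow_right₀ hB1 ?_)
    omega
  have hsame : ∀ i, (numSame (B ^ r) N θ x m' i : ℝ) ≤ K * ((B ^ (2 * r) : ℕ) + 1) ^ d := by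
    intro i
    exact_mod_cast numSame_le K hB' hlev hlev2 hov i
  have hsame0 : ∀ i, (0 : ℝ) < numSame (B ^ r) N θ x m' i := fun i => by
    exact_mod_cast numSame_pos' (B ^ r) N m' θ x i
  have hK0 : (0 : ℝ) < K * ((B ^ (2 * r) : ℕ) + 1) ^ d :=
    lt_of_lt_of_le (hsame0 (Classical.arbitrary ι)) (hsame _)
  have hstk : ∑ j ∈ range m', stk B N θ x (r * (j + 1)) ≤ ε / 2 * (m * Real.log B) := by
    have h1 := sum_stk_le (N := N) (θ := θ) (x := x) hB hrt hm1
    have h2 : (t : ℝ) * ∑ j ∈ range m', stk B N θ x (r * (j + 1)) ≤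
        t * (ε / 2 * (m * Real.log B)) := by
      refine h1.trans ?_
      have h3 : (m : ℝ) * L ≤ t * (ε / 4 * (m * Real.log B)) := by
        rw [div_le_iff₀ (by positivity)] at ht
        have hm0 : (0 : ℝ) ≤ m := Nat.cast_nonneg m
        nlinarith
      have h4 : (m' : ℝ) * t * (t * (d * Real.log B)) ≤ t * (ε / 4 * (m * Real.log B)) := by
        rw [div_le_iff₀ hε] at hr
        have h5 : (r : ℝ) * m' ≤ m := by exact_mod_cast hm2
        have h6 : (m' : ℝ) * (4 * t * d) ≤ ε * m := by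
          calc (m' : ℝ) * (4 * t * d) ≤ m' * (r * ε) :=
                mul_le_mul_of_nonneg_left hr (Nat.cast_nonneg _)
            _ = ε * (r * m') := by ring
            _ ≤ ε * m := mul_le_mul_of_nonneg_left h5 hε.le
        have h7 := mul_le_mul_of_nonneg_right h6 (show 0 ≤ t * Real.log B / 4 by positivity)
        linarith
      linarith
    exact le_of_mul_le_mul_left h2 ht0
  have hcls0 : ∀ k i, (0 : ℝ) < numClass (B ^ r) N θ x k i := fun k i => by
    have h1 := numSame_le_numClass (B := B ^ r) (N := N) (by omega) θ x k i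
    have h2 := numSame_pos' (B ^ r) N (k + 1) θ x i
    exact_mod_cast h2.trans_le h1
  have hsm0 : ∀ k i, (0 : ℝ) < numSame (B ^ r) N θ x k i := fun k i => by
    exact_mod_cast numSame_pos' (B ^ r) N k θ x i
  have hfac0 : ∀ i, 0 < factor (B ^ r) N θ x m' i := by
    intro i
    unfold factor
    exact mul_pos (hsm0 _ i) (Finset.prod_pos fun k _ => div_pos (hcls0 _ _) (hsm0 _ _))
  have hlogf : ∀ i, Real.log (factor (B ^ r) N θ x m' i) =
      Real.log (numSame (B ^ r) N θ x m' i) + ∑ k ∈ range m', logRatio (B ^ r) N θ x k i := by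
    intro i
    unfold factor logRatio
    rw [Real.log_mul (hsm0 _ i).ne' (Finset.prod_pos fun k _ =>
      div_pos (hcls0 _ _) (hsm0 _ _)).ne', Real.log_prod fun k _ =>
      (div_pos (hcls0 k i) (hsm0 (k + 1) i)).ne']
    congr 1
    exact Finset.sum_congr rfl fun k _ => Real.log_div (hcls0 k i).ne' (hsm0 (k + 1) i).ne'
  have hmean : (∑ i, Real.log (factor (B ^ r) N θ x m' i)) / Fintype.card ι ≤
      Real.log (K * ((B ^ (2 * r) : ℕ) + 1) ^ d) + ε / 2 * Real.log N := by
    simp only [hlogf]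
    rw [Finset.sum_add_distrib, add_div]
    refine add_le_add ?_ ?_
    · rw [div_le_iff₀ hcard]
      have h5 : ∀ i ∈ (univ : Finset ι), Real.log (numSame (B ^ r) N θ x m' i) ≤
          Real.log (K * ((B ^ (2 * r) : ℕ) + 1) ^ d) := fun i _ =>
        Real.log_le_log (hsame0 i) (hsame i)
      refine (Finset.sum_le_sum h5).trans (le_of_eq ?_)
      rw [Finset.sum_const, Finset.card_univ, nsmul_eq_mul, mul_comm]
    · rw [Finset.sum_comm, Finset.sum_div]
      refine (Finset.sum_le_sum fun k _ => logRatio_pow_le hB hr1 k).trans (hstk.trans ?_)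
      have h8 : (m : ℝ) * Real.log B ≤ Real.log N := by
        rw [← Real.log_pow]
        exact Real.log_le_log hNpos hN1
      exact mul_le_mul_of_nonneg_left h8 (by positivity)
  -- Jensen's inequality
  obtain ⟨a, ha⟩ : ∃ a : ι → ℝ, a = fun i => ⨍ z in tube N (θ i) (x i), G z := ⟨_, rfl⟩
  obtain ⟨u, hu⟩ : ∃ u : ι → ℝ, u = fun i => (d + 2) * Real.log N -
    Real.log (factor (B ^ r) N θ x m' i) + a i := ⟨_, rfl⟩
  obtain ⟨v, hv⟩ : ∃ v : ℝ, v = (∑ i, u i) / Fintype.card ι := ⟨_, rfl⟩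
  have hue : ∀ i, N ^ (d + 2) / factor (B ^ r) N θ x m' i * Real.exp (a i) = Real.exp (u i) := by
    intro i
    rw [hu]
    simp only
    rw [Real.exp_add, Real.exp_sub, Real.exp_log (hfac0 i)]
    congr 2
    rw [show ((d : ℝ) + 2) * Real.log N = ((d + 2 : ℕ) : ℝ) * Real.log N by push_cast; ring,
      Real.exp_nat_mul, Real.exp_log hN0]
  have hjen : Fintype.card ι * Real.exp v ≤ ∑ i, Real.exp (u i) := by
    have h1 : ∀ i ∈ (univ : Finset ι), Real.exp v * (1 + (u i - v)) ≤ Real.exp (u i) := by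
      intro i _
      have h2 := Real.add_one_le_exp (u i - v)
      have h3 : Real.exp (u i) = Real.exp v * Real.exp (u i - v) := by
        rw [← Real.exp_add]
        congr 1
        ring
      rw [h3]
      exact mul_le_mul_of_nonneg_left (by linarith) (Real.exp_pos _).le
    refine le_trans (le_of_eq ?_) (Finset.sum_le_sum h1)
    rw [← Finset.mul_sum, Finset.sum_add_distrib, Finset.sum_sub_distrib, Finset.sum_const,
      Finset.sum_const, Finset.card_univ, nsmul_eq_mul, nsmul_eq_mul]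
    have h4 : ∑ i, u i = Fintype.card ι * v := by
      rw [hv]
      field_simp
    rw [h4]
    ring
  have hle : Fintype.card ι * N ^ (d + 2) * Real.exp ((∑ i, a i) / Fintype.card ι) ≤
      (K * ((B ^ (2 * r) : ℕ) + 1) ^ d * N ^ (ε / 2)) * (Fintype.card ι * Real.exp v) := by
    have h1 : v = (d + 2) * Real.log N -
        (∑ i, Real.log (factor (B ^ r) N θ x m' i)) / Fintype.card ι +
        (∑ i, a i) / Fintype.card ι := by
      rw [hv, hu]
      simp only
      rw [Finset.sum_add_distrib, Finset.sum_sub_distrib, Finset.sum_const, Finset.card_univ,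
        nsmul_eq_mul]
      field_simp
    have h2 : N ^ (d + 2) * Real.exp ((∑ i, a i) / Fintype.card ι) ≤
        (K * ((B ^ (2 * r) : ℕ) + 1) ^ d * N ^ (ε / 2)) * Real.exp v := by
      have e1 : N ^ (ε / 2) = Real.exp (ε / 2 * Real.log N) := by
        rw [Real.rpow_def_of_pos hN0, mul_comm]
      have e2 : N ^ (d + 2) = Real.exp ((d + 2) * Real.log N) := by
        rw [show ((d : ℝ) + 2) * Real.log N = ((d + 2 : ℕ) : ℝ) * Real.log N by push_cast; ring,
          Real.exp_nat_mul, Real.exp_log hN0]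
      rw [e1, e2, ← Real.exp_log hK0, ← Real.exp_add, ← Real.exp_add, ← Real.exp_add]
      refine Real.exp_le_exp.2 ?_
      linarith
    calc Fintype.card ι * N ^ (d + 2) * Real.exp ((∑ i, a i) / Fintype.card ι)
        = Fintype.card ι * (N ^ (d + 2) * Real.exp ((∑ i, a i) / Fintype.card ι)) := by ring
      _ ≤ Fintype.card ι * ((K * ((B ^ (2 * r) : ℕ) + 1) ^ d * N ^ (ε / 2)) * Real.exp v) :=
          mul_le_mul_of_nonneg_left h2 hcard.le
      _ = _ := by ring
  have hNε : 0 < N ^ (ε / 2) := Real.rpow_pos_of_pos hN0 _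
  have hsum2 : ENNReal.ofReal (Fintype.card ι * Real.exp v) ≤
      ∑ i, ENNReal.ofReal (N ^ (d + 2) / factor (B ^ r) N θ x m' i * Real.exp (a i)) := by
    rw [← ENNReal.ofReal_sum_of_nonneg fun i _ => by
      rw [hue]; exact (Real.exp_pos _).le]
    refine ENNReal.ofReal_le_ofReal ?_
    simp only [hue]
    exact hjen
  have hfin : ENNReal.ofReal (Fintype.card ι * N ^ (d + 2) *
      Real.exp ((∑ i, a i) / Fintype.card ι)) ≤
      ENNReal.ofReal (K * ((B ^ (2 * r) : ℕ) + 1) ^ d * N ^ (ε / 2)) *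
      (ENNReal.ofReal (C * N ^ (ε / 2)) *
        ∫⁻ z in ⋃ i, tube N (θ i) (x i), ENNReal.ofReal (Real.exp (G z))) := by
    refine (ENNReal.ofReal_le_ofReal hle).trans ?_
    rw [ENNReal.ofReal_mul (by positivity)]
    refine mul_le_mul_right (hsum2.trans ?_) _
    rw [ha]
    exact h m' N hlev ι θ x G hG
  rw [ha] at hfin
  refine hfin.trans (le_of_eq ?_)
  rw [← mul_assoc, ← ENNReal.ofReal_mul (by positivity)]
  congr 2
  have e : N ^ ε = N ^ (ε / 2) * N ^ (ε / 2) := by rw [← Real.rpow_add hN0, add_halves]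
  rw [e]
  ring

end STK
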