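import Pool.Agent.Lib.MP_ac5134_an.STK.KDefs

/-!
# STK-KTower: two nested towers `W`, `X` of functions on a finite probability space

Pure Shannon calculus with `RFold.cent` (see Lib/MP_3581cd_co/Ent.lean: `cent_chain`, `cent_anti`,
`cent_congr`, `ent_congr`, ...).  For `tA_excess`: for `i ≤ k`,
`cent (X k) (W i) = cent (W k) (W i) + cent (X k) (W k) - tres i k` (expand `cent (X k, W k) (W i)` in
two ways; `W k` determines `W i`), and `tA i a b = cent (X b) (W i) - cent (X a) (W i)`.
`tMI`: both sides are the mutual information `I(W_{i+u} ; X_b | X_a, W_i)`.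
-/

namespace STK
open Finset RFold
variable {Ω : Type*} [Fintype Ω] {γ δ : Type*}

/-- a nested tower -/
def Nest (p : Ω → ℝ) (W : ℕ → Ω → γ) : Prop := ∀ k, Det p (W (k + 1)) (W k)

/-- `H(X_b | X_a, W_i)` -/
noncomputable def tA (p : Ω → ℝ) (W : ℕ → Ω → γ) (X : ℕ → Ω → δ) (i a b : ℕ) : ℝ :=
  cent p (X b) (fun ω => (X a ω, W i ω))

/-- `H(W_j | X_n, W_i)` -/
noncomputable def tdeep (p : Ω → ℝ) (W : ℕ → Ω → γ) (X : ℕ → Ω → δ) (i j n : ℕ) : ℝ :=
  cent p (W j) (fun ω => (X n ω, W i ω))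

/-- `H(W_j | X_j, W_i)` -/
noncomputable def tres (p : Ω → ℝ) (W : ℕ → Ω → γ) (X : ℕ → Ω → δ) (i j : ℕ) : ℝ :=
  tdeep p W X i j j

variable {p : Ω → ℝ} {W : ℕ → Ω → γ} {X : ℕ → Ω → δ}

theorem Nest.det (hW : Nest p W) {i j : ℕ} (h : i ≤ j) : Det p (W j) (W i) := by
  induction j, h using Nat.le_induction with
  | base => exact Det.refl _
  | succ k _ ih => exact (hW k).trans ih

/-- `H(X_c | W) = H(X_b | W) + H(X_c | X_b, W)` for `b ≤ c` -/
private theorem cent_step {ε : Type*} (hp : IsPr p) (hX : Nest p X) {b c : ℕ} (hbc : b ≤ c)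
    (g : Ω → ε) : cent p (X c) g = cent p (X b) g + cent p (X c) (fun ω => (X b ω, g ω)) := by
  rw [← cent_chain hp (X b) (X c) g]
  exact cent_congr hp (Det.refl g) (Det.refl g)
    (Det.fst (Det.pair (hX.det hbc) (Det.refl _))) (Det.fst (Det.snd (Det.refl _)))

theorem tA_nonneg (hp : IsPr p) (i a b : ℕ) : 0 ≤ tA p W X i a b := cent_nonneg hp _ _

theorem tdeep_nonneg (hp : IsPr p) (i j n : ℕ) : 0 ≤ tdeep p W X i j n := cent_nonneg hp _ _

theorem tA_anti (hp : IsPr p) (hW : Nest p W) {i i' : ℕ} (h : i ≤ i') (a b : ℕ) :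
    tA p W X i' a b ≤ tA p W X i a b :=
  cent_anti hp _ (Det.pair (Det.fst (Det.refl _)) (Det.snd (hW.det h)))

theorem tA_add (hp : IsPr p) (hX : Nest p X) (i : ℕ) {a b c : ℕ} (hab : a ≤ b) (hbc : b ≤ c) :
    tA p W X i a c = tA p W X i a b + tA p W X i b c := by
  unfold tA
  rw [cent_step hp hX hbc]
  congr 1
  exact cent_congr hp
    (Det.pair (Det.fst (Det.refl _)) (Det.snd (Det.snd (Det.refl _))))
    (Det.pair (Det.fst (Det.refl _)) (Det.pair (Det.fst (hX.det hab)) (Det.snd (Det.refl _))))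
    (Det.fst (Det.refl _)) (Det.fst (Det.refl _))

theorem tdeep_anti (hp : IsPr p) (hX : Nest p X) (i j : ℕ) {n n' : ℕ} (h : n ≤ n') :
    tdeep p W X i j n' ≤ tdeep p W X i j n :=
  cent_anti hp _ (Det.pair (Det.fst (hX.det h)) (Det.snd (Det.refl _)))

theorem tdeep_chain (hp : IsPr p) (hW : Nest p W) {i k j : ℕ} (hik : i ≤ k) (hkj : k ≤ j) (n : ℕ) :
    tdeep p W X i j n = tdeep p W X i k n + tdeep p W X k j n := by
  unfold tdeep
  rw [cent_step hp hW hkj]
  congr 1
  exact cent_congr hp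
    (Det.pair (Det.snd (Det.fst (Det.refl _))) (Det.fst (Det.refl _)))
    (Det.pair (Det.snd (Det.refl _)) (Det.pair (Det.fst (Det.refl _)) (Det.snd (hW.det hik))))
    (Det.fst (Det.refl _)) (Det.fst (Det.refl _))

theorem tres_self (hp : IsPr p) (i : ℕ) : tres p W X i i = 0 :=
  cent_zero_of_det hp (Det.snd (Det.refl _))

theorem tres_sub (hp : IsPr p) (hW : Nest p W) (hX : Nest p X) {i k j : ℕ} (hik : i ≤ k)
    (hkj : k ≤ j) : tres p W X i j ≤ tres p W X i k + tres p W X k j := by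
  unfold tres
  rw [tdeep_chain hp hW hik hkj j]
  have := tdeep_anti (W := W) hp hX i k hkj
  linarith

/-- two expansions of `H(X_k, W_k | W_i)` -/
private theorem cent_XW (hp : IsPr p) (hW : Nest p W) {i k : ℕ} (hik : i ≤ k) :
    cent p (X k) (W i) = cent p (W k) (W i) + cent p (X k) (W k) - tres p W X i k := by
  have h1 := cent_chain hp (X k) (W k) (W i)
  have h2 := cent_chain hp (W k) (X k) (W i)
  have h3 : cent p (fun ω => (X k ω, W k ω)) (W i) = cent p (fun ω => (W k ω, X k ω)) (W i) :=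
    cent_congr hp (Det.refl _) (Det.refl _)
      (Det.fst (Det.pair (Det.snd (Det.refl _)) (Det.fst (Det.refl _))))
      (Det.fst (Det.pair (Det.snd (Det.refl _)) (Det.fst (Det.refl _))))
  have h4 : cent p (X k) (fun ω => (W k ω, W i ω)) = cent p (X k) (W k) :=
    cent_congr hp (Det.fst (Det.refl _)) (Det.pair (Det.refl _) (hW.det hik))
      (Det.fst (Det.refl _)) (Det.fst (Det.refl _))
  have h5 : tres p W X i k = cent p (W k) (fun ω => (X k ω, W i ω)) := rfl
  linarith

theorem tA_excess (hp : IsPr p) (hW : Nest p W) (hX : Nest p X) {i a b : ℕ} (hia : i ≤ a)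
    (hab : a ≤ b) : tA p W X i a b - tA p W X a a b =
      tres p W X a b - tres p W X i b + tres p W X i a := by
  have h1 := cent_step hp hX hab (W i)
  have h2 := cent_step hp hX hab (W a)
  have h3 := cent_XW (X := X) hp hW (hia.trans hab)
  have h4 := cent_XW (X := X) hp hW hia
  have h5 := cent_XW (X := X) hp hW hab
  have h6 := cent_step hp hW hab (W i)
  have h7 : cent p (W b) (fun ω => (W a ω, W i ω)) = cent p (W b) (W a) :=
    cent_congr hp (Det.fst (Det.refl _)) (Det.pair (Det.refl _) (hW.det hia))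
      (Det.fst (Det.refl _)) (Det.fst (Det.refl _))
  have h8 : tA p W X i a b = cent p (X b) (fun ω => (X a ω, W i ω)) := rfl
  have h9 : tA p W X a a b = cent p (X b) (fun ω => (X a ω, W a ω)) := rfl
  linarith

theorem tMI (hp : IsPr p) (hW : Nest p W) (hX : Nest p X) (i u : ℕ) {a b : ℕ} (hab : a ≤ b) :
    tA p W X i a b - tA p W X (i + u) a b =
      tdeep p W X i (i + u) a - tdeep p W X i (i + u) b := by
  have h1 := cent_chain hp (X b) (W (i + u)) (fun ω => (X a ω, W i ω))
  have h2 := cent_chain hp (W (i + u)) (X b) (fun ω => (X a ω, W i ω))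
  have h3 : cent p (fun ω => (X b ω, W (i + u) ω)) (fun ω => (X a ω, W i ω)) =
      cent p (fun ω => (W (i + u) ω, X b ω)) (fun ω => (X a ω, W i ω)) :=
    cent_congr hp (Det.refl _) (Det.refl _)
      (Det.fst (Det.pair (Det.snd (Det.refl _)) (Det.fst (Det.refl _))))
      (Det.fst (Det.pair (Det.snd (Det.refl _)) (Det.fst (Det.refl _))))
  have h4 : cent p (W (i + u)) (fun ω => (X b ω, X a ω, W i ω)) = tdeep p W X i (i + u) b :=
    cent_congr hp
      (Det.pair (Det.fst (Det.refl _)) (Det.snd (Det.snd (Det.refl _))))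
      (Det.pair (Det.fst (Det.refl _)) (Det.pair (Det.fst (hX.det hab)) (Det.snd (Det.refl _))))
      (Det.fst (Det.refl _)) (Det.fst (Det.refl _))
  have h5 : cent p (X b) (fun ω => (W (i + u) ω, X a ω, W i ω)) = tA p W X (i + u) a b :=
    cent_congr hp
      (Det.pair (Det.snd (Det.fst (Det.refl _))) (Det.fst (Det.refl _)))
      (Det.pair (Det.snd (Det.refl _)) (Det.pair (Det.fst (Det.refl _))
        (Det.snd (hW.det (Nat.le_add_right i u)))))
      (Det.fst (Det.refl _)) (Det.fst (Det.refl _))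
  have h6 : tA p W X i a b = cent p (X b) (fun ω => (X a ω, W i ω)) := rfl
  have h7 : tdeep p W X i (i + u) a = cent p (W (i + u)) (fun ω => (X a ω, W i ω)) := rfl
  linarith

/-- bounds from the branching numbers -/
theorem tdeep_le (hp : IsPr p) (hW : Nest p W) {cW : ℝ} (hc : ∀ k, cent p (W (k + 1)) (W k) ≤ cW)
    {i j : ℕ} (h : i ≤ j) (n : ℕ) : tdeep p W X i j n ≤ cW * (j - i) := by
  induction j, h using Nat.le_induction with
  | base =>
    have h0 : tdeep p W X i i n = 0 := cent_zero_of_det hp (Det.snd (Det.refl _))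
    rw [h0, sub_self, mul_zero]
  | succ k hk ih =>
    rw [tdeep_chain hp hW hk (Nat.le_succ k) n]
    have h1 : tdeep p W X k (k + 1) n ≤ cW :=
      (cent_anti hp _ (Det.snd (Det.refl _))).trans (hc k)
    push_cast
    linarith

theorem tA_le (hp : IsPr p) (hX : Nest p X) {cX : ℝ} (hc : ∀ k, cent p (X (k + 1)) (X k) ≤ cX)
    (i : ℕ) {a b : ℕ} (h : a ≤ b) : tA p W X i a b ≤ cX * (b - a) := by
  induction b, h using Nat.le_induction with
  | base =>
    have h0 : tA p W X i a a = 0 := cent_zero_of_det hp (Det.fst (Det.refl _))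
    rw [h0, sub_self, mul_zero]
  | succ k hk ih =>
    rw [tA_add hp hX i hk (Nat.le_succ k)]
    have h1 : tA p W X i k (k + 1) ≤ cX :=
      (cent_anti hp _ (Det.fst (Det.refl _))).trans (hc k)
    push_cast
    linarith

/-- `H(X_b | X_a, W_a) ≤ H(W_{a+s} | W_a) + H(X_b | W_{a+s})` -/
theorem tA_self_le (hp : IsPr p) (hW : Nest p W) {cW : ℝ}
    (hc : ∀ k, cent p (W (k + 1)) (W k) ≤ cW) (a b s : ℕ) :
    tA p W X a a b ≤ cW * s + cent p (X b) (W (a + s)) := by
  have h0 : ∀ s : ℕ, cent p (W (a + s)) (W a) ≤ cW * s := by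
    intro s
    induction s with
    | zero =>
      have : cent p (W (a + 0)) (W a) = 0 := cent_zero_of_det hp (Det.refl _)
      rw [this, Nat.cast_zero, mul_zero]
    | succ s ih =>
      have h1 := cent_step hp hW (Nat.le_succ (a + s)) (W a)
      have h2 : cent p (W (a + s).succ) (fun ω => (W (a + s) ω, W a ω)) ≤ cW :=
        (cent_anti hp _ (Det.fst (Det.refl _))).trans (hc (a + s))
      have h3 : cent p (W (a + (s + 1))) (W a) = cent p (W (a + s).succ) (W a) := rfl
      push_cast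
      linarith
  have h1 : tA p W X a a b ≤ cent p (X b) (W a) := cent_anti hp _ (Det.snd (Det.refl _))
  have h2 : cent p (X b) (W a) ≤ cent p (fun ω => (W (a + s) ω, X b ω)) (W a) :=
    cent_mono hp (Det.fst (Det.snd (Det.refl _))) (Det.refl _)
  have h3 := cent_chain hp (W (a + s)) (X b) (W a)
  have h4 : cent p (X b) (fun ω => (W (a + s) ω, W a ω)) ≤ cent p (X b) (W (a + s)) :=
    cent_anti hp _ (Det.fst (Det.refl _))
  have h5 := h0 s
  linarith

end STK
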