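import Pool.Agent.Lib.MP_ac5134_an.STK.KMainForm
import Pool.Agent.Lib.MP_ac5134_an.SD.TubA

/-!
# STK-KTubA: the tubes of one class

`N = B^m`, `h = c0 - N² s / 2`, `0 ≤ s ≤ 1/8`, so `|h - c_{i,n}| ≤ N²/16 + N²/100 ≤ N²/10`.
With `F_i = c_i' / N² + 2 (c_{i,n} - c0)/N² · foot_i` the axis point of `T_i` at the height `h` is
`c_i' - 2 (h - c_{i,n}) foot_i = N² (F_i + s foot_i)`, i.e. `N ·` (`N (F_i + s foot_i)`), within `1 · N` of
`N u_i`, `u_i = ⌊N (F_i + s foot_i)⌋` (cells of level `m`).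
`F` is Lipschitz: for `i, j` in one cell of level `k`, `|F_i - F_j| ≤ A B^(-k) + 2 A B^(-k) |foot_i| +
2 (1/100) |foot_i - foot_j| ≤ (3 A + 1) B^(-k)` (`|foot_i r| ≤ 1`).

`line_hts`: heights `s_k = (k + τ)/(8 Q)`, `k : Fin Q`, `0 ≤ τ ≤ 1`, weights `1/Q`: at most
`16 Q / j + 1` of them lie in an interval of length `2/j`; `φ j = 17 / j`.
`class_tubes`: apply `count_form` (`δ = 1/2`, `C0 = 3 A + 1`, `Q = max l0 (B^m)` or simply a fixed large `Q`)
for every `τ ∈ [0,1]`: at least `Q/2` of the `k : Fin Q` have `#{u_i} ≥ |ι| B^(-α l)`, and then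
`section_count` (`q = 1`, `R = 1`) gives `f(s_k) := volume (section at height c0 - N² s_k / 2) ≥
|ι| B^(-α l) N^d / C`.  So `∑_k f((k+τ)/(8Q)) ≥ (Q/2) |ι| B^(-α l) N^d / C` for every `τ ∈ [0,1]`; integrate over
`τ` (`∫_0^1 ∑_k f((k+τ)/(8Q)) dτ = 8 Q ∫_0^{1/8} f`), so `∫_0^{1/8} f ≥ |ι| B^(-α l) N^d /(16 C)`, and
`volume U ≥ (N²/2) ∫_0^{1/8} f` (`volume_eq_lintegral_pt`, `measurable_section`; lower Lebesgue integrals,
substitution as in `tubB_avg` of SD/TubB).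
Alternative for the integration: `exists_le_setLAverage` as in `tubB_avg` (SD/TubB): there is `τ` with
`∑_k f((k+τ)/(8Q)) ≤ const Q N^(-2) volume U`.
-/

namespace STK
open Finset RFold Filter Topology MeasureTheory Pool.Agent.MPac5134 Pool.Agent.MPac5134.Lip

private theorem cnt_int (S : Finset ℕ) (a b : ℝ) (hab : a ≤ b) (h : ∀ k ∈ S, a ≤ (k : ℝ) ∧ (k : ℝ) ≤ b) :
    (S.card : ℝ) ≤ b - a + 1 := by
  have h1 : S.image (fun k : ℕ => (k : ℤ)) ⊆ Finset.Icc ⌈a⌉ ⌊b⌋ := by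
    intro z hz
    rw [Finset.mem_image] at hz
    obtain ⟨k, hk, rfl⟩ := hz
    obtain ⟨h2, h3⟩ := h k hk
    rw [Finset.mem_Icc]
    constructor
    · rw [Int.ceil_le]; exact_mod_cast h2
    · rw [Int.le_floor]; exact_mod_cast h3
  have h2 : S.card ≤ (Finset.Icc ⌈a⌉ ⌊b⌋).card := by
    rw [← Finset.card_image_of_injective S (f := fun k : ℕ => (k : ℤ)) Nat.cast_injective]
    exact Finset.card_le_card h1
  rw [Int.card_Icc] at h2
  have h3 : ((⌊b⌋ + 1 - ⌈a⌉).toNat : ℝ) ≤ b - a + 1 := by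
    rcases le_total (⌊b⌋ + 1 - ⌈a⌉) 0 with h4 | h4
    · rw [Int.toNat_of_nonpos h4]
      push_cast
      linarith
    · have h5 : (((⌊b⌋ + 1 - ⌈a⌉).toNat : ℤ) : ℝ) = ((⌊b⌋ + 1 - ⌈a⌉ : ℤ) : ℝ) := by
        rw [Int.toNat_of_nonneg h4]
      have h6 : ((⌊b⌋ + 1 - ⌈a⌉).toNat : ℝ) = ((⌊b⌋ + 1 - ⌈a⌉ : ℤ) : ℝ) := by
        rw [← h5]; norm_cast
      rw [h6]
      push_cast
      have h7 := Int.floor_le b
      have h8 := Int.le_ceil a
      linarith
  have h9 : (S.card : ℝ) ≤ ((⌊b⌋ + 1 - ⌈a⌉).toNat : ℝ) := by exact_mod_cast h2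
  linarith

theorem line_hts {Q : ℕ} (hQ : 1 ≤ Q) {τ : ℝ} (h0 : 0 ≤ τ) (h1 : τ ≤ 1) :
    IsHts (fun j => 17 / (j : ℝ)) Q (fun _ : Fin Q => 1 / (Q : ℝ))
      (fun k => ((k : ℕ) + τ) / (8 * Q)) := by
  classical
  have hQ0 : (0 : ℝ) < Q := by exact_mod_cast hQ
  refine ⟨⟨fun _ => by positivity, ?_⟩, ?_, ?_⟩
  · simp [Finset.sum_const]
    field_simp
  · intro k
    have h2 : ((k : ℕ) : ℝ) + 1 ≤ Q := by
      have := k.2
      exact_mod_cast this
    have h3 : (0 : ℝ) ≤ ((k : ℕ) : ℝ) := Nat.cast_nonneg _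
    rw [abs_of_nonneg (by positivity), div_le_one (by positivity)]
    linarith
  · intro j hj hjQ t
    have hj0 : (0 : ℝ) < j := by exact_mod_cast hj
    have hjQ' : (j : ℝ) ≤ Q := by exact_mod_cast hjQ
    unfold pr
    rw [← Finset.sum_filter, Finset.sum_const, nsmul_eq_mul]
    set S : Finset (Fin Q) := Finset.univ.filter
      (fun k : Fin Q => (j : ℝ) * |(((k : ℕ) : ℝ) + τ) / (8 * Q) - t| ≤ 1) with hS
    have hcard : S.card = (S.map Fin.valEmbedding).card := by rw [Finset.card_map]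
    have h2 : ((S.map Fin.valEmbedding).card : ℝ) ≤
        (8 * Q * (t + 1 / j) - τ) - (8 * Q * (t - 1 / j) - τ) + 1 := by
      refine cnt_int _ _ _ ?_ ?_
      · have : (0 : ℝ) ≤ 8 * Q * (1 / j) := by positivity
        nlinarith
      · intro k hk
        rw [Finset.mem_map] at hk
        obtain ⟨k', hk', rfl⟩ := hk
        rw [hS, Finset.mem_filter] at hk'
        have h3 := hk'.2
        have h4 : |(((k' : ℕ) : ℝ) + τ) / (8 * Q) - t| ≤ 1 / j := by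
          rw [le_div_iff₀ hj0, mul_comm]
          exact h3
        rw [abs_le] at h4
        have h5 : (((k' : ℕ) : ℝ) + τ) / (8 * Q) * (8 * Q) = ((k' : ℕ) : ℝ) + τ := by
          field_simp
        have h8 : (0 : ℝ) < 8 * Q := by positivity
        have h6 := mul_le_mul_of_nonneg_right h4.1 h8.le
        have h7 := mul_le_mul_of_nonneg_right h4.2 h8.le
        rw [sub_mul, h5] at h6 h7
        simp only [Fin.valEmbedding_apply]
        constructor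
        · nlinarith
        · nlinarith
    have h3 : (8 * Q * (t + 1 / j) - τ) - (8 * Q * (t - 1 / j) - τ) + 1 = 16 * Q / j + 1 := by
      field_simp
      ring
    rw [h3, ← hcard] at h2
    calc (S.card : ℝ) * (1 / Q) ≤ (16 * Q / j + 1) * (1 / Q) := by gcongr
      _ = 16 / j + 1 / Q := by field_simp
      _ ≤ 16 / j + 1 / j := by gcongr
      _ = 17 / j := by ring

private theorem tubA_lint {a : ℝ} (ha : a ≠ 0) (g : ℝ → ENNReal) (hg : Measurable g) :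
    ∫⁻ h : ℝ, g (a * h) = ENNReal.ofReal |a⁻¹| * ∫⁻ h : ℝ, g h := by
  have h1 := Real.map_volume_mul_left ha
  have h2 : ∫⁻ h : ℝ, g (a * h) = ∫⁻ y : ℝ, g y ∂(Measure.map (a * ·) volume) :=
    (lintegral_map hg (measurable_const_mul a)).symm
  rw [h2, h1, lintegral_smul_measure, smul_eq_mul]

private theorem tubA_avg {d : ℕ} (U : Set (Sp d)) (hU : MeasurableSet U) (Q : ℕ) (hQ : 1 ≤ Q)
    (c0 N : ℝ) (hN : 1 ≤ N) :
    ∃ τ ∈ Set.Icc (0 : ℝ) 1,
      ∑ k : Fin Q, volume {y : V d | pt (y, c0 - N ^ 2 * ((((k : ℕ) : ℝ) + τ) / (8 * Q)) / 2) ∈ U} ≤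
        Q * (ENNReal.ofReal (16 * Q * (N ^ 2)⁻¹) * volume U) := by
  have hN0 : 0 < N := by linarith
  have hN2 : 0 < N ^ 2 := by positivity
  have hQ0 : (0 : ℝ) < Q := by exact_mod_cast hQ
  obtain ⟨g, hgd⟩ : ∃ g : ℝ → ENNReal, g = fun h => volume {y : V d | pt (y, h) ∈ U} := ⟨_, rfl⟩
  have hg : Measurable g := by rw [hgd]; exact measurable_section U hU
  have hterm : ∀ k : Fin Q, Measurable fun τ : ℝ =>
      g (c0 - N ^ 2 * ((((k : ℕ) : ℝ) + τ) / (8 * Q)) / 2) := by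
    intro k
    refine hg.comp ?_
    fun_prop
  have hf : Measurable fun τ : ℝ => ∑ k : Fin Q,
      g (c0 - N ^ 2 * ((((k : ℕ) : ℝ) + τ) / (8 * Q)) / 2) :=
    Finset.measurable_fun_sum _ fun k _ => hterm k
  have hvol : (volume : Measure ℝ) (Set.Icc (0 : ℝ) 1) = 1 := by
    rw [Real.volume_Icc]
    norm_num
  have h0 : (volume : Measure ℝ) (Set.Icc (0 : ℝ) 1) ≠ 0 := by
    rw [hvol]
    simp
  have h1 : (volume : Measure ℝ) (Set.Icc (0 : ℝ) 1) ≠ ⊤ := by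
    rw [hvol]
    simp
  obtain ⟨s, hs, hle⟩ := exists_le_setLAverage (μ := volume) h0 h1 hf.aemeasurable
  refine ⟨s, hs, ?_⟩
  have e1 : ∀ k : Fin Q, ∫⁻ τ : ℝ, g (c0 - N ^ 2 * ((((k : ℕ) : ℝ) + τ) / (8 * Q)) / 2) =
      ENNReal.ofReal (16 * Q * (N ^ 2)⁻¹) * volume U := by
    intro k
    have ha : -(N ^ 2 / (16 * Q)) ≠ 0 := by
      have : 0 < N ^ 2 / (16 * Q) := by positivity
      linarith
    have h2 : ∀ τ : ℝ, g (c0 - N ^ 2 * ((((k : ℕ) : ℝ) + τ) / (8 * Q)) / 2) =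
        (fun x => g (-(N ^ 2 / (16 * Q)) * x))
          (τ + (((k : ℕ) : ℝ) - c0 * (16 * Q) / N ^ 2)) := by
      intro τ
      show _ = g (-(N ^ 2 / (16 * Q)) * (τ + (((k : ℕ) : ℝ) - c0 * (16 * Q) / N ^ 2)))
      congr 1
      field_simp
      ring
    simp_rw [h2]
    rw [lintegral_add_right_eq_self (fun x => g (-(N ^ 2 / (16 * Q)) * x)), tubA_lint ha g hg,
      volume_eq_lintegral_pt U hU, hgd]
    congr 2
    rw [abs_inv, abs_neg, abs_of_pos (by positivity)]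
    field_simp
  have e2 : ∫⁻ τ : ℝ, ∑ k : Fin Q, g (c0 - N ^ 2 * ((((k : ℕ) : ℝ) + τ) / (8 * Q)) / 2) =
      Q * (ENNReal.ofReal (16 * Q * (N ^ 2)⁻¹) * volume U) := by
    rw [lintegral_finsetSum _ fun k _ => hterm k]
    simp_rw [e1]
    rw [Finset.sum_const, nsmul_eq_mul, Finset.card_univ, Fintype.card_fin]
  have e3 : (∑ k : Fin Q,
      volume {y : V d | pt (y, c0 - N ^ 2 * ((((k : ℕ) : ℝ) + s) / (8 * Q)) / 2) ∈ U}) =
      ∑ k : Fin Q, g (c0 - N ^ 2 * ((((k : ℕ) : ℝ) + s) / (8 * Q)) / 2) := by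
    rw [hgd]
  rw [e3]
  refine hle.trans ?_
  rw [setLAverage_eq, hvol, div_one]
  refine (setLIntegral_le_lintegral _ _).trans ?_
  rw [e2]

private theorem exists_good {Q : ℕ} (hQ : 1 ≤ Q) (P : Fin Q → Prop)
    (h : pr (fun _ : Fin Q => 1 / (Q : ℝ)) (fun k => ¬ P k) ≤ 1 / 2) : ∃ k, P k := by
  classical
  by_contra hcon
  rw [not_exists] at hcon
  have hQ0 : (0 : ℝ) < Q := by exact_mod_cast hQ
  have h1 : pr (fun _ : Fin Q => 1 / (Q : ℝ)) (fun k => ¬ P k) = 1 := by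
    unfold pr
    refine (Finset.sum_congr rfl (g := fun _ => 1 / (Q : ℝ)) fun k _ => ?_).trans ?_
    · exact if_pos (hcon k)
    · simp [Finset.sum_const]
      field_simp
  rw [h1] at h
  norm_num at h

theorem class_tubes {B d : ℕ} (hB : 2 ≤ B) (hd : 1 ≤ d) {A α : ℝ} (hA : 0 ≤ A) (hα : 0 < α) :
    ∃ (c : ℝ) (l0 : ℕ), 0 < c ∧ ∀ m k0 : ℕ, k0 + l0 ≤ m → ∀ (ι : Type) [Fintype ι]
      (θ : ι → Cap d) (x : ι → Sp d) (c0 : ℝ),
      (∀ i, |x i (Fin.last d) - c0| ≤ ((B : ℝ) ^ m) ^ 2 / 100) →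
      (∀ i j, (fun r => ⌊(B : ℝ) ^ k0 * (θ i).foot r⌋) = fun r => ⌊(B : ℝ) ^ k0 * (θ j).foot r⌋) →
      (∀ i j, (fun r => ⌊(B : ℝ) ^ m * (θ i).foot r⌋) = (fun r => ⌊(B : ℝ) ^ m * (θ j).foot r⌋) →
        i = j) →
      (∀ k, k0 ≤ k → k ≤ m → ∀ i j, (fun r => ⌊(B : ℝ) ^ k * (θ i).foot r⌋) = (fun r =>
        ⌊(B : ℝ) ^ k * (θ j).foot r⌋) →
        ∀ r, |x i r - x j r| ≤ A * ((B : ℝ) ^ m) ^ 2 * ((B : ℝ) ^ k)⁻¹) →
      ENNReal.ofReal (c * Fintype.card ι * ((B : ℝ) ^ m) ^ (d + 2) * (B : ℝ) ^ (-(α * m))) ≤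
        volume (⋃ i, tube ((B : ℝ) ^ m) (θ i) (x i)) := by
  classical
  have hBr : (1 : ℝ) ≤ B := by exact_mod_cast (show 1 ≤ B by omega)
  have hB0 : (0 : ℝ) < B := by linarith
  have hφ : Tendsto (fun j : ℕ => 17 / (j : ℝ)) atTop (𝓝 0) := tendsto_const_div_atTop_nhds_zero_nat 17
  obtain ⟨l0, hl0⟩ := count_form (d := d) hB (C0 := 3 * A + 1) (by linarith) hφ hα
    (show (0 : ℝ) < 1 / 2 by norm_num)
  obtain ⟨Q, hQd⟩ : ∃ Q : ℕ, Q = max l0 1 := ⟨_, rfl⟩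
  have hQl : l0 ≤ Q := by rw [hQd]; exact le_max_left _ _
  have hQ1 : 1 ≤ Q := by rw [hQd]; exact le_max_right _ _
  have hQ0 : (0 : ℝ) < Q := by exact_mod_cast hQ1
  obtain ⟨C, hC, hcount⟩ := SD.section_count (d := d) hd 1 le_rfl 1 zero_le_one
  refine ⟨1 / (16 * C * Q ^ 2), l0, by positivity, ?_⟩
  intro m k0 hm ι _ θ x c0 hx hbase hdist hlip
  obtain ⟨l, hl⟩ : ∃ l : ℕ, m = k0 + l := ⟨m - k0, by omega⟩
  have hll : l0 ≤ l := by omega
  obtain ⟨N, hNd⟩ : ∃ N : ℝ, N = (B : ℝ) ^ m := ⟨_, rfl⟩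
  have hN : 1 ≤ N := by rw [hNd]; exact one_le_pow₀ hBr
  have hN0 : 0 < N := by linarith
  have hN2 : 0 < N ^ 2 := by positivity
  rw [← hNd] at hx hlip ⊢
  set U : Set (Sp d) := ⋃ i, tube N (θ i) (x i) with hU
  have hUm : MeasurableSet U := MeasurableSet.iUnion fun i => measurableSet_tube N (θ i) (x i)
  obtain ⟨τ, hτ, hsum⟩ := tubA_avg U hUm Q hQ1 c0 N hN
  by_cases htop : volume U = ⊤
  · rw [htop]; exact le_top
  obtain ⟨F, hF⟩ : ∃ F : ι → Fin d → ℝ, F = fun i k => (x i k.castSucc -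
    2 * (c0 - x i (Fin.last d)) * (θ i).foot k) / N ^ 2 := ⟨_, rfl⟩
  have hfoot : ∀ i (r : Fin d), |(θ i).foot r| ≤ 1 := by
    intro i r
    have h1 := (θ i).foot_mem
    have h2 : (θ i).foot r ^ 2 ≤ ∑ i_1, (θ i).foot i_1 ^ 2 :=
      Finset.single_le_sum (f := fun r => (θ i).foot r ^ 2) (fun _ _ => sq_nonneg _)
        (Finset.mem_univ r)
    rw [← sq_le_one_iff_abs_le_one]
    linarith
  have hFlip : ∀ k, k0 ≤ k → k ≤ k0 + l → ∀ i j, (fun r => ⌊(B : ℝ) ^ k * (θ i).foot r⌋) = (fun r =>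
        ⌊(B : ℝ) ^ k * (θ j).foot r⌋) → ∀ r, |F i r - F j r| ≤ (3 * A + 1) * ((B : ℝ) ^ k)⁻¹ := by
    intro k hk hkl i j hij r
    have hBk : (0 : ℝ) < (B : ℝ) ^ k := by positivity
    obtain ⟨b, hb⟩ : ∃ b : ℝ, b = ((B : ℝ) ^ k)⁻¹ := ⟨_, rfl⟩
    have hb0 : 0 < b := by rw [hb]; positivity
    have h1 := hlip k hk (by omega) i j hij r.castSucc
    have h2 := hlip k hk (by omega) i j hij (Fin.last d)
    have h3 : |(θ i).foot r - (θ j).foot r| ≤ b := by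
      have h4 : ⌊(B : ℝ) ^ k * (θ i).foot r⌋ = ⌊(B : ℝ) ^ k * (θ j).foot r⌋ := congrFun hij r
      have h5 := Int.abs_sub_lt_one_of_floor_eq_floor h4
      rw [← mul_sub, abs_mul, abs_of_pos hBk] at h5
      rw [hb, ← one_div, le_div_iff₀ hBk, mul_comm]
      exact h5.le
    rw [← hb] at h1 h2 ⊢
    have h6 := hfoot j r
    have h7 := hx i
    rw [hF]
    simp only []
    rw [← sub_div, abs_div, abs_of_pos hN2, div_le_iff₀ hN2]
    have e1 : x i r.castSucc - 2 * (c0 - x i (Fin.last d)) * (θ i).foot r -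
        (x j r.castSucc - 2 * (c0 - x j (Fin.last d)) * (θ j).foot r) =
        (x i r.castSucc - x j r.castSucc) +
          2 * (x i (Fin.last d) - c0) * ((θ i).foot r - (θ j).foot r) +
          2 * (x i (Fin.last d) - x j (Fin.last d)) * (θ j).foot r := by ring
    rw [e1]
    refine (abs_add_three _ _ _).trans ?_
    have h8 : |2 * (x i (Fin.last d) - c0) * ((θ i).foot r - (θ j).foot r)| ≤
        2 * (N ^ 2 / 100) * b := by
      rw [abs_mul, abs_mul, abs_two]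
      gcongr
    have h9 : |2 * (x i (Fin.last d) - x j (Fin.last d)) * (θ j).foot r| ≤
        2 * (A * N ^ 2 * b) * 1 := by
      rw [abs_mul, abs_mul, abs_two]
      gcongr
    have h10 : 0 ≤ N ^ 2 * b := by positivity
    nlinarith
  have hcf := hl0 l Q hll hQl (Fin Q) (fun _ => 1 / (Q : ℝ))
    (fun k => (((k : ℕ) : ℝ) + τ) / (8 * Q)) (line_hts hQ1 hτ.1 hτ.2) k0 ι
    (fun i => (θ i).foot) F hbase (by rw [← hl]; exact hdist) hFlip
  obtain ⟨k, hk⟩ := exists_good hQ1 (fun h => ¬ ((((univ : Finset ι).image (fun i r =>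
          ⌊(B : ℝ) ^ (k0 + l) * (F i r + (((h : ℕ) : ℝ) + τ) / (8 * Q) * (θ i).foot r)⌋)).card : ℝ) *
            (B : ℝ) ^ (α * l) < Fintype.card ι)) (by simpa only [not_not] using hcf)
  simp only [not_lt] at hk
  rw [← hl, ← hNd] at hk
  obtain ⟨s, hs⟩ : ∃ s : ℝ, s = (((k : ℕ) : ℝ) + τ) / (8 * Q) := ⟨_, rfl⟩
  have hs0 : 0 ≤ s := by
    rw [hs]
    have := hτ.1
    positivity
  have hs1 : s ≤ 1 / 8 := by
    have h2 : ((k : ℕ) : ℝ) + 1 ≤ Q := by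
      have := k.2
      exact_mod_cast this
    rw [hs, div_le_iff₀ (by positivity)]
    have := hτ.2
    linarith
  rw [← hs] at hk
  obtain ⟨h, hh⟩ : ∃ h : ℝ, h = c0 - N ^ 2 * s / 2 := ⟨_, rfl⟩
  -- the section
  have hsec := hcount N hN ι θ x h (fun i r => ((⌊N * (F i r + s * (θ i).foot r)⌋ : ℤ) : ℚ))
    (fun i => by
      have h1 := hx i
      rw [hh]
      have e1 : c0 - N ^ 2 * s / 2 - x i (Fin.last d) =
        -(N ^ 2 * s / 2) - (x i (Fin.last d) - c0) := by ring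
      rw [e1]
      refine (abs_sub _ _).trans ?_
      rw [abs_neg, abs_of_nonneg (by positivity)]
      nlinarith)
    (fun i r => ⟨⌊N * (F i r + s * (θ i).foot r)⌋, by simp⟩)
    (fun i r => by
      have hfl := Int.floor_le (N * (F i r + s * (θ i).foot r))
      have hfl2 := Int.lt_floor_add_one (N * (F i r + s * (θ i).foot r))
      have e1 : x i r.castSucc - 2 * (h - x i (Fin.last d)) * (θ i).foot r =
          N * (N * (F i r + s * (θ i).foot r)) := by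
        rw [hh, hF]
        field_simp
        ring
      rw [e1]
      push_cast
      rw [← mul_sub, abs_mul, abs_of_pos hN0, abs_of_nonneg (by linarith), one_mul]
      calc N * (N * (F i r + s * (θ i).foot r) - (⌊N * (F i r + s * (θ i).foot r)⌋ : ℝ))
          ≤ N * 1 := mul_le_mul_of_nonneg_left (by linarith) hN0.le
        _ = N := mul_one N)
  have hcard : ((Finset.univ : Finset ι).image
      (fun i (r : Fin d) => ((⌊N * (F i r + s * (θ i).foot r)⌋ : ℤ) : ℚ))).card =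
      ((Finset.univ : Finset ι).image (fun i r => ⌊N * (F i r + s * (θ i).foot r)⌋)).card := by
    have hinj : Function.Injective (fun (z : Fin d → ℤ) (r : Fin d) => ((z r : ℤ) : ℚ)) := by
      intro z z' hz
      funext r
      have h5 : ((z r : ℤ) : ℚ) = ((z' r : ℤ) : ℚ) := congrFun hz r
      exact_mod_cast h5
    rw [← Finset.card_image_of_injective _ hinj, Finset.image_image]
    rfl
  have hsec2 : ENNReal.ofReal
      ((((Finset.univ : Finset ι).image (fun i r => ⌊N * (F i r + s * (θ i).foot r)⌋)).card : ℝ) *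
        N ^ d) ≤ ENNReal.ofReal C * (Q * (ENNReal.ofReal (16 * Q * (N ^ 2)⁻¹) * volume U)) := by
    have h1 : volume {y : V d | pt (y, h) ∈ U} ≤
        Q * (ENNReal.ofReal (16 * Q * (N ^ 2)⁻¹) * volume U) := by
      refine le_trans ?_ hsum
      have h2 := Finset.single_le_sum (s := (Finset.univ : Finset (Fin Q)))
        (f := fun k : Fin Q =>
          volume {y : V d | pt (y, c0 - N ^ 2 * ((((k : ℕ) : ℝ) + τ) / (8 * Q)) / 2) ∈ U})
        (fun _ _ => zero_le) (Finset.mem_univ k)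
      refine le_trans (le_of_eq ?_) h2
      rw [hh, hs]
    have h3 := hsec
    refine le_trans (le_of_eq ?_) (h3.trans (mul_le_mul_right h1 _))
    congr 3
    exact_mod_cast hcard.symm
  obtain ⟨n, hn⟩ : ∃ n : ℝ, n =
    (((Finset.univ : Finset ι).image (fun i r => ⌊N * (F i r + s * (θ i).foot r)⌋)).card : ℝ) :=
    ⟨_, rfl⟩
  have hn0 : 0 ≤ n := by rw [hn]; positivity
  rw [← hn] at hk hsec2
  obtain ⟨v, hv0, hvU⟩ : ∃ v : ℝ, 0 ≤ v ∧ volume U = ENNReal.ofReal v :=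
    ⟨(volume U).toReal, ENNReal.toReal_nonneg, (ENNReal.ofReal_toReal htop).symm⟩
  rw [hvU] at hsec2 ⊢
  have hQE : ((Q : ℕ) : ENNReal) = ENNReal.ofReal Q := by rw [ENNReal.ofReal_natCast]
  have hX0 : 0 ≤ 16 * (Q : ℝ) * (N ^ 2)⁻¹ := by positivity
  rw [hQE, ← ENNReal.ofReal_mul hX0, ← ENNReal.ofReal_mul hQ0.le, ← ENNReal.ofReal_mul hC.le] at hsec2
  have hreal := (ENNReal.ofReal_le_ofReal_iff (by positivity)).1 hsec2
  apply ENNReal.ofReal_le_ofReal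
  -- real arithmetic
  have hpow : (B : ℝ) ^ (-(α * m)) ≤ ((B : ℝ) ^ (α * l))⁻¹ := by
    rw [← Real.rpow_neg hB0.le]
    apply Real.rpow_le_rpow_of_exponent_le hBr
    have : (l : ℝ) ≤ m := by
      rw [hl]
      push_cast
      have : (0 : ℝ) ≤ k0 := Nat.cast_nonneg _
      linarith
    nlinarith
  have hP0 : (0 : ℝ) < (B : ℝ) ^ (α * l) := Real.rpow_pos_of_pos hB0 _
  have h1 : (Fintype.card ι : ℝ) * (B : ℝ) ^ (-(α * m)) ≤ n := by
    calc (Fintype.card ι : ℝ) * (B : ℝ) ^ (-(α * m))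
        ≤ (n * (B : ℝ) ^ (α * l)) * ((B : ℝ) ^ (α * l))⁻¹ := by gcongr
      _ = n := by field_simp
  have h2 : n * N ^ (d + 2) ≤ 16 * C * Q ^ 2 * v := by
    have h3 := mul_le_mul_of_nonneg_right hreal hN2.le
    calc n * N ^ (d + 2) = n * N ^ d * N ^ 2 := by ring
      _ ≤ C * (Q * (16 * Q * (N ^ 2)⁻¹ * v)) * N ^ 2 := h3
      _ = 16 * C * Q ^ 2 * v := by field_simp
  have h3 : 0 < N ^ (d + 2) := by positivity
  calc 1 / (16 * C * (Q : ℝ) ^ 2) * (Fintype.card ι : ℝ) * N ^ (d + 2) * (B : ℝ) ^ (-(α * m))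
      = 1 / (16 * C * (Q : ℝ) ^ 2) * (((Fintype.card ι : ℝ) * (B : ℝ) ^ (-(α * m))) *
          N ^ (d + 2)) := by ring
    _ ≤ 1 / (16 * C * (Q : ℝ) ^ 2) * (n * N ^ (d + 2)) := by gcongr
    _ ≤ 1 / (16 * C * (Q : ℝ) ^ 2) * (16 * C * Q ^ 2 * v) := by gcongr
    _ = v := by field_simp

end STK
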