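import Pool.Agent.Lib.MP_ac5134_an.STK.KTubA
import Pool.Agent.Lib.MP_ac5134_an.Lip.T4

/-!
# STK-KTubB: all tubes

`AdicLip B A m θ x`: the centres are Lipschitz along the `B`-adic tree of the feet.
Proof of `all_tubes`.  `k0` with `100 A ≤ B^k0`; `c`, `l0` from `class_tubes` with `α` and `A`.
If `m < k0 + l0`: `N = B^m ≤ B^(k0+l0)`, `∑ |T_i| = |ι| N^(d+2) = |ι| |T_j| ≤ |ι| |⋃|`, `|ι| ≤ K (4N)^d`
(`Lip.card_le`, `volume_tube`); `ι` empty is trivial.
If `m ≥ k0 + l0`: choose the class (cell of level `k0`) with the largest number of indices; the entries of the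
cells of level `k0` lie in `[-B^k0, B^k0]`, so there are at most `(2 B^k0 + 1)^d` classes; in it choose one index
in every cell of level `m`: `ι' = ` subtype, `|ι| ≤ K (2 B^k0 + 1)^d |ι'|`.  `c0 = x_{i0,n}` for one `i0 ∈ ι'`;
`|x_{i,n} - c0| ≤ A N² B^(-k0) ≤ N²/100`.  `class_tubes` for `ι'` and
`∑_i |T_i| = |ι| N^(d+2) ≤ K (2 B^k0 + 1)^d |ι'| N^(d+2) ≤ C B^(α m) |⋃|`, `B^(α m) = (B^m)^α`.
-/

namespace STK
open Finset RFold Filter Topology MeasureTheory Pool.Agent.MPac5134 Pool.Agent.MPac5134.Lip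

/-- The centres `x i` are Lipschitz along the `B`-adic tree of the feet of the caps, down to scale
`B^(-m)`; distances are measured in units of the length `(B^m)^2` of the tubes. -/
def AdicLip {ι : Type*} {d : ℕ} (B : ℕ) (A : ℝ) (m : ℕ) (θ : ι → Cap d) (x : ι → Sp d) : Prop :=
  ∀ k ≤ m, ∀ i j, (∀ r, ⌊(B : ℝ) ^ k * (θ i).foot r⌋ = ⌊(B : ℝ) ^ k * (θ j).foot r⌋) →
    ∀ r, |x i r - x j r| ≤ A * ((B : ℝ) ^ m) ^ 2 * ((B : ℝ) ^ k)⁻¹

private theorem foot_abs_le {d : ℕ} (θ : Cap d) (r : Fin d) : |θ.foot r| ≤ 1 := by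
  have h1 := θ.foot_mem
  have h2 : θ.foot r ^ 2 ≤ ∑ i_1, θ.foot i_1 ^ 2 :=
    Finset.single_le_sum (f := fun r => θ.foot r ^ 2) (fun _ _ => sq_nonneg _)
      (Finset.mem_univ r)
  rw [← sq_le_one_iff_abs_le_one]
  linarith

private theorem cell_mem_box {B d : ℕ} (k0 : ℕ) (θ : Cap d) :
    (fun r => ⌊(B : ℝ) ^ k0 * θ.foot r⌋) ∈
      Fintype.piFinset (fun _ : Fin d => Finset.Icc (-((B : ℤ) ^ k0)) ((B : ℤ) ^ k0)) := by
  rw [Fintype.mem_piFinset]
  intro r
  have h1 := foot_abs_le θ r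
  rw [abs_le] at h1
  have hB : (0 : ℝ) ≤ (B : ℝ) ^ k0 := by positivity
  rw [Finset.mem_Icc]
  constructor
  · rw [Int.le_floor]
    push_cast
    nlinarith [h1.1]
  · have h2 : ((⌊(B : ℝ) ^ k0 * θ.foot r⌋ : ℤ) : ℝ) ≤ (((B : ℤ) ^ k0 : ℤ) : ℝ) := by
      refine (Int.floor_le _).trans ?_
      push_cast
      nlinarith [h1.2]
    exact_mod_cast h2

private theorem box_card (B d k0 : ℕ) :
    (Fintype.piFinset (fun _ : Fin d => Finset.Icc (-((B : ℤ) ^ k0)) ((B : ℤ) ^ k0))).card =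
      (2 * B ^ k0 + 1) ^ d := by
  rw [Fintype.card_piFinset_const, Int.card_Icc]
  congr 1
  have : ((B : ℤ) ^ k0 + 1 - -((B : ℤ) ^ k0)) = ((2 * B ^ k0 + 1 : ℕ) : ℤ) := by
    push_cast
    ring
  rw [this, Int.toNat_natCast]

private theorem sum_tube {d : ℕ} {ι : Type} [Fintype ι] {N : ℝ} (hN : 0 ≤ N) (θ : ι → Cap d)
    (x : ι → Sp d) :
    ∑ i, volume (tube N (θ i) (x i)) = ENNReal.ofReal (Fintype.card ι * N ^ (d + 2)) := by
  simp only [volume_tube hN]
  rw [Finset.sum_const, nsmul_eq_mul, ENNReal.ofReal_mul (by positivity), Finset.card_univ,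
    ENNReal.ofReal_natCast]

/-- the most popular class, with one representative in every cell of level `m` -/
private theorem exists_class {ι : Type} [Fintype ι] [Nonempty ι] {Z : Type} [DecidableEq Z]
    (cl cm : ι → Z) (box : Finset Z) (hbox : ∀ i, cl i ∈ box) (K : ℕ)
    (hK : ∀ (z : Z) (s : Finset ι), (∀ i ∈ s, cm i = z) → s.card ≤ K) :
    ∃ (G : Finset Z) (f : G → ι), (∀ z, cm (f z) = z) ∧ (∀ z w, cl (f z) = cl (f w)) ∧
      Fintype.card ι ≤ box.card * (K * G.card) := by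
  classical
  have hcount : (Finset.univ : Finset ι).card = ∑ z ∈ box, (univ.filter (fun i => cl i = z)).card :=
    Finset.card_eq_sum_card_fiberwise (fun i _ => hbox i)
  have hne : box.Nonempty := ⟨cl (Classical.arbitrary ι), hbox _⟩
  obtain ⟨z0, hz0, hmax⟩ := box.exists_max_image (fun z => (univ.filter (fun i => cl i = z)).card) hne
  set S : Finset ι := univ.filter (fun i => cl i = z0) with hS
  have hSK : S.card ≤ K * (S.image cm).card := by
    refine Finset.card_le_mul_card_image (f := cm) S K ?_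
    intro z hz
    exact hK z _ (fun i hi => (Finset.mem_filter.1 hi).2)
  have hf : ∀ z : (S.image cm), ∃ i, i ∈ S ∧ cm i = z := by
    intro z
    obtain ⟨i, hi, hiz⟩ := Finset.mem_image.1 z.2
    exact ⟨i, hi, hiz⟩
  choose f hf1 hf2 using hf
  refine ⟨S.image cm, f, hf2, ?_, ?_⟩
  · intro z w
    have h1 := (Finset.mem_filter.1 (hf1 z)).2
    have h2 := (Finset.mem_filter.1 (hf1 w)).2
    rw [h1, h2]
  · rw [← Finset.card_univ, hcount]
    calc ∑ z ∈ box, (univ.filter (fun i => cl i = z)).card ≤ ∑ z ∈ box, S.card :=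
          Finset.sum_le_sum hmax
      _ = box.card * S.card := by rw [Finset.sum_const, smul_eq_mul]
      _ ≤ box.card * (K * (S.image cm).card) := Nat.mul_le_mul_left _ hSK

theorem adic_tubes {B d : ℕ} (hB : 2 ≤ B) (hd : 1 ≤ d) (K : ℕ) (A : ℝ) {ε : ℝ} (hε : 0 < ε) :
    ∃ C : ℝ, ∀ (m : ℕ) (ι : Type) [Fintype ι] (θ : ι → Cap d) (x : ι → Sp d),
      (∀ (z : Fin d → ℤ) (s : Finset ι), (∀ i ∈ s, cell ((B : ℝ) ^ m) (θ i) = z) → s.card ≤ K) →
      AdicLip B A m θ x →
      ∑ i, volume (tube ((B : ℝ) ^ m) (θ i) (x i)) ≤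
        ENNReal.ofReal (C * ((B : ℝ) ^ m) ^ ε) * volume (⋃ i, tube ((B : ℝ) ^ m) (θ i) (x i)) := by
  classical
  have hBr : (1 : ℝ) < B := by exact_mod_cast (show 1 < B by omega)
  have hBr1 : (1 : ℝ) ≤ B := hBr.le
  have hB0 : (0 : ℝ) < B := by linarith
  obtain ⟨A', hA'⟩ : ∃ A' : ℝ, A' = max A 0 := ⟨_, rfl⟩
  have hA0 : 0 ≤ A' := by rw [hA']; exact le_max_right _ _
  have hAA : A ≤ A' := by rw [hA']; exact le_max_left _ _
  obtain ⟨k0, hk0⟩ := pow_unbounded_of_one_lt (100 * A') hBr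
  obtain ⟨c, l0, hc, hcls⟩ := class_tubes (B := B) (d := d) hB hd (A := A') (α := ε) hA0 hε
  obtain ⟨N1, hN1⟩ : ∃ N1 : ℝ, N1 = (B : ℝ) ^ (k0 + l0) := ⟨_, rfl⟩
  obtain ⟨M, hM⟩ : ∃ M : ℕ, M = (2 * B ^ k0 + 1) ^ d := ⟨_, rfl⟩
  refine ⟨max (K * (4 * N1) ^ d) (M * K / c), ?_⟩
  intro m ι _ θ x hov hlip
  obtain ⟨N, hN⟩ : ∃ N : ℝ, N = (B : ℝ) ^ m := ⟨_, rfl⟩
  have hN1' : 1 ≤ N := by rw [hN]; exact one_le_pow₀ hBr1
  have hN0 : 0 < N := by linarith
  have hNε : 1 ≤ N ^ ε := Real.one_le_rpow hN1' hε.le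
  rw [← hN] at hov ⊢
  rw [sum_tube hN0.le]
  rcases isEmpty_or_nonempty ι with he | hne
  · simp
  by_cases hm : m < k0 + l0
  · have hcard := Lip.card_le hN1' θ hov
    have hNN : N ≤ N1 := by
      rw [hN, hN1]
      exact pow_le_pow_right₀ hBr1 hm.le
    have h1 : (Fintype.card ι : ℝ) ≤ max (K * (4 * N1) ^ d) (M * K / c) * N ^ ε := by
      calc (Fintype.card ι : ℝ) ≤ K * (4 * N) ^ d := hcard
        _ ≤ K * (4 * N1) ^ d := by gcongr
        _ ≤ max (K * (4 * N1) ^ d) (M * K / c) := le_max_left _ _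
        _ = max (K * (4 * N1) ^ d) (M * K / c) * 1 := (mul_one _).symm
        _ ≤ _ := by
          refine mul_le_mul_of_nonneg_left hNε (le_trans ?_ (le_max_left _ _))
          rw [hN1]
          positivity
    rw [ENNReal.ofReal_mul (by positivity)]
    refine mul_le_mul' (ENNReal.ofReal_le_ofReal h1) ?_
    rw [← volume_tube hN0.le (θ (Classical.arbitrary ι)) (x (Classical.arbitrary ι))]
    exact measure_mono (Set.subset_iUnion (fun i => tube N (θ i) (x i)) _)
  · obtain ⟨G, f, hf1, hf2, hcard⟩ := exists_class (ι := ι)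
      (fun i r => ⌊(B : ℝ) ^ k0 * (θ i).foot r⌋) (fun i => cell N (θ i)) _
      (fun i => cell_mem_box (B := B) k0 (θ i)) K hov
    rw [box_card, ← hM] at hcard
    have hk0m : k0 ≤ m := by omega
    have hG : Nonempty G := by
      by_contra hemp
      have h0 : G.card = 0 := by
        rw [Finset.card_eq_zero]
        by_contra hG0
        exact hemp (Finset.nonempty_iff_ne_empty.2 hG0).to_subtype
      rw [h0] at hcard
      have : 0 < Fintype.card ι := Fintype.card_pos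
      omega
    obtain ⟨g0⟩ := hG
    have hlip' : ∀ k, k ≤ m → ∀ i j, (fun r => ⌊(B : ℝ) ^ k * (θ i).foot r⌋) = (fun r =>
        ⌊(B : ℝ) ^ k * (θ j).foot r⌋) →
        ∀ r, |x i r - x j r| ≤ A' * ((B : ℝ) ^ m) ^ 2 * ((B : ℝ) ^ k)⁻¹ := by
      intro k hk i j hij r
      refine (hlip k hk i j (fun r => congrFun hij r) r).trans ?_
      gcongr
    have hmain := hcls m k0 (by omega) G (fun z => θ (f z)) (fun z => x (f z))
      (x (f g0) (Fin.last d)) (by
        intro z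
        refine (hlip' k0 hk0m (f z) (f g0) (hf2 z g0) (Fin.last d)).trans ?_
        have hBk : (0 : ℝ) < (B : ℝ) ^ k0 := by positivity
        rw [← div_eq_mul_inv, div_le_iff₀ hBk]
        have h2 : (0 : ℝ) < ((B : ℝ) ^ m) ^ 2 := by positivity
        nlinarith) hf2 (by
        intro z w hzw
        have h1 := hf1 z
        have h2 := hf1 w
        apply Subtype.ext
        rw [← h1, ← h2]
        unfold cell
        rw [hN]
        exact hzw) (fun k _ hk z w hzw r => hlip' k hk (f z) (f w) hzw r)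
    rw [← hN] at hmain
    have hsub : volume (⋃ z : G, tube N (θ (f z)) (x (f z))) ≤ volume (⋃ i, tube N (θ i) (x i)) := by
      apply measure_mono
      apply Set.iUnion_subset
      intro z
      exact Set.subset_iUnion (fun i => tube N (θ i) (x i)) (f z)
    have hBm : N ^ ε * (B : ℝ) ^ (-(ε * m)) = 1 := by
      rw [hN, ← Real.rpow_natCast, ← Real.rpow_mul hB0.le, ← Real.rpow_add hB0]
      have : (m : ℝ) * ε + -(ε * m) = 0 := by ring
      rw [this, Real.rpow_zero]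
    have hcardR : (Fintype.card ι : ℝ) ≤ M * (K * Fintype.card G) := by
      rw [Fintype.card_coe]
      exact_mod_cast hcard
    have hrp : 0 < (B : ℝ) ^ (-(ε * m)) := Real.rpow_pos_of_pos hB0 _
    have hid : (M * (K * (Fintype.card G : ℝ))) * N ^ (d + 2) =
        (M * K / c * N ^ ε) *
          (c * Fintype.card G * N ^ (d + 2) * (B : ℝ) ^ (-(ε * m))) := by
      have : (M * K / c * N ^ ε) *
          (c * Fintype.card G * N ^ (d + 2) * (B : ℝ) ^ (-(ε * m))) =
          (M * (K * (Fintype.card G : ℝ))) * N ^ (d + 2) * (N ^ ε * (B : ℝ) ^ (-(ε * m))) := by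
        field_simp
      rw [this, hBm, mul_one]
    calc ENNReal.ofReal (Fintype.card ι * N ^ (d + 2))
        ≤ ENNReal.ofReal ((M * (K * (Fintype.card G : ℝ))) * N ^ (d + 2)) := by
          apply ENNReal.ofReal_le_ofReal
          gcongr
      _ = ENNReal.ofReal (M * K / c * N ^ ε) * ENNReal.ofReal
          (c * Fintype.card G * N ^ (d + 2) * (B : ℝ) ^ (-(ε * m))) := by
          rw [hid, ENNReal.ofReal_mul (by positivity)]
      _ ≤ ENNReal.ofReal (max (K * (4 * N1) ^ d) (M * K / c) * N ^ ε) *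
          volume (⋃ i, tube N (θ i) (x i)) := by
          refine mul_le_mul' (ENNReal.ofReal_le_ofReal ?_) (hmain.trans hsub)
          exact mul_le_mul_of_nonneg_right (le_max_right _ _) (by positivity)

end STK
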