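import Pool.Agent.Lib.MP_ac5134_an.STK.KLoc
import Pool.Agent.Lib.MP_ac5134_an.STK.KTubA
import Pool.Agent.Lib.MP_ac5134_an.STK.KInj

/-!
# STK-KTubC: one slab of tubes

`LocInj B A N θ x k i`: the tubes with the same direction cell of level `k + 1` whose centres are `A N² B^(-k)`-close
to that of `T_i` are `A N² B^(-(k+1))`-close.  `N` is real, `N ≥ B^m`.

`slab_vol`: the same proof as `class_tubes` in KTubA (`tubA_avg` for the measurable set
`U ∩ {z | c0 - N²/16 ≤ z_n ≤ c0}`, whose sections at the heights `c0 - N² s/2`, `0 ≤ s ≤ 1/8`, are those of `U`;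
`|h - x_{i,n}| ≤ N²/16 + N²/30 ≤ N²/10`, `SD.section_count` with `q = 1`, `R = 1`), with the hypothesis that for
every `τ ∈ [0,1]` some height of the line has at least `n` cells (instead of `count_form`).

`slab_inj`: `Ω = ι`, `p` uniform (`ι` nonempty), `e = 2 d + 1`, `Z_i = (x_i / N², foot_i)` (for instance
`Fin.append (fun r : Fin (d+1) => x i r / N^2) (θ i).foot`, `e = (d+1) + d`), `Y_i = (F_i, foot_i)`,
`F_i = (x_i' - 2 (c0 - x_{i,n}) foot_i)/N²`; `C1 = 4` (`|x_{i,n} - c0| ≤ N²/30`, `|foot| ≤ 1`).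
* `Good B A p Z Y i l ω` holds if `LocInj` holds for `(k, ω)`, `i ≤ k < i + l`: for `ω'` in the same cell `V_i`
  the centres are `N² B^(-i)`-close (`A ≥ 1`), and by induction on `j`, `i ≤ j ≤ k`, they are
  `A N² B^(-j)`-close (the cells `W_{j+1}` agree because `W_k` agree); `|foot - foot'| ≤ B^(-k)`.
  So `∑_{k < m+1-l} pr p (¬ Good k l) ≤ l ∑_{k<m} pr p (¬ LocInj k) ≤ l η' m`; `η' = η / l` (`loc_glob` with the
  constants `A`, `C1 = 4`, `ε`).
* `cent p V_0 X_0 ≤ (2d+1) log 9` (`cent_le_diam` with `K = 4`): given `X_0` (`|s| ≤ 1/8`), `F` is known up to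
  `± 5/4`, `x'/N² = F + 2 (c0 - x_n)/N² foot` up to `± 3/2`, `x_n/N²` is within `1/30` of `c0/N²`, `|foot| ≤ 1`.
* (General `N ≥ B^m`: the cells `⌊N (F + s foot)⌋` determine `X_m = ⌊B^m (F + s foot)⌋` up to 2 values per
  coordinate, because `B^m ≤ N`; so `#{⌊N (F + s foot)⌋} ≥ 2^(-d) #{X_m}`.)
* So for every `τ` (`line_hts`) some height has `cent p V_m X_m ≤ ε m log B + (2d+1) log 9`; `V_m` is injective (the
  cells of level `m` of the feet are distinct), `log |ι| = H(V_m) ≤ H(X_m) + cent p V_m X_m`,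
  `H(X_m) ≤ log #cells`; `n = |ι| B^(-ε m) 9^(-(2d+1))`.  (`N (F + s foot)`: `Xc B m 0`.)
-/

namespace STK
open Finset RFold Filter Topology MeasureTheory Pool.Agent.MPac5134 Pool.Agent.MPac5134.Lip

private theorem tubC_lint {a : ℝ} (ha : a ≠ 0) (g : ℝ → ENNReal) (hg : Measurable g) :
    ∫⁻ h : ℝ, g (a * h) = ENNReal.ofReal |a⁻¹| * ∫⁻ h : ℝ, g h := by
  have h1 := Real.map_volume_mul_left ha
  have h2 : ∫⁻ h : ℝ, g (a * h) = ∫⁻ y : ℝ, g y ∂(Measure.map (a * ·) volume) :=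
    (lintegral_map hg (measurable_const_mul a)).symm
  rw [h2, h1, lintegral_smul_measure, smul_eq_mul]

private theorem tubC_avg {d : ℕ} (U : Set (Sp d)) (hU : MeasurableSet U) (Q : ℕ) (hQ : 1 ≤ Q)
    (c0 N : ℝ) (hN : 1 ≤ N) :
    ∃ τ ∈ Set.Icc (0 : ℝ) 1,
      ∑ k : Fin Q, volume {y : V d | pt (y, c0 - N ^ 2 * ((((k : ℕ) : ℝ) + τ) / (8 * Q)) / 2) ∈ U} ≤
        Q * (ENNReal.ofReal (16 * Q * (N ^ 2)⁻¹) * volume U) := by
  have hN0 : 0 < N := by linarith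
  have hN2 : 0 < N ^ 2 := by positivity
  have hQ0 : (0 : ℝ) < Q := by exact_mod_cast hQ
  obtain ⟨g, hgd⟩ : ∃ g : ℝ → ENNReal, g = fun h => volume {y : V d | pt (y, h) ∈ U} := ⟨_, rfl⟩
  have hg : Measurable g := by rw [hgd]; exact measurable_section U hU
  have hterm : ∀ k : Fin Q, Measurable fun τ : ℝ =>
      g (c0 - N ^ 2 * ((((k : ℕ) : ℝ) + τ) / (8 * Q)) / 2) := by
    intro k
    refine hg.comp ?_
    fun_prop
  have hf : Measurable fun τ : ℝ => ∑ k : Fin Q,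
      g (c0 - N ^ 2 * ((((k : ℕ) : ℝ) + τ) / (8 * Q)) / 2) :=
    Finset.measurable_fun_sum _ fun k _ => hterm k
  have hvol : (volume : Measure ℝ) (Set.Icc (0 : ℝ) 1) = 1 := by
    rw [Real.volume_Icc]
    norm_num
  have h0 : (volume : Measure ℝ) (Set.Icc (0 : ℝ) 1) ≠ 0 := by
    rw [hvol]
    simp
  have h1 : (volume : Measure ℝ) (Set.Icc (0 : ℝ) 1) ≠ ⊤ := by
    rw [hvol]
    simp
  obtain ⟨s, hs, hle⟩ := exists_le_setLAverage (μ := volume) h0 h1 hf.aemeasurable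
  refine ⟨s, hs, ?_⟩
  have e1 : ∀ k : Fin Q, ∫⁻ τ : ℝ, g (c0 - N ^ 2 * ((((k : ℕ) : ℝ) + τ) / (8 * Q)) / 2) =
      ENNReal.ofReal (16 * Q * (N ^ 2)⁻¹) * volume U := by
    intro k
    have ha : -(N ^ 2 / (16 * Q)) ≠ 0 := by
      have : 0 < N ^ 2 / (16 * Q) := by positivity
      linarith
    have h2 : ∀ τ : ℝ, g (c0 - N ^ 2 * ((((k : ℕ) : ℝ) + τ) / (8 * Q)) / 2) =
        (fun x => g (-(N ^ 2 / (16 * Q)) * x))
          (τ + (((k : ℕ) : ℝ) - c0 * (16 * Q) / N ^ 2)) := by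
      intro τ
      show _ = g (-(N ^ 2 / (16 * Q)) * (τ + (((k : ℕ) : ℝ) - c0 * (16 * Q) / N ^ 2)))
      congr 1
      field_simp
      ring
    simp_rw [h2]
    rw [lintegral_add_right_eq_self (fun x => g (-(N ^ 2 / (16 * Q)) * x)), tubC_lint ha g hg,
      volume_eq_lintegral_pt U hU, hgd]
    congr 2
    rw [abs_inv, abs_neg, abs_of_pos (by positivity)]
    field_simp
  have e2 : ∫⁻ τ : ℝ, ∑ k : Fin Q, g (c0 - N ^ 2 * ((((k : ℕ) : ℝ) + τ) / (8 * Q)) / 2) =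
      Q * (ENNReal.ofReal (16 * Q * (N ^ 2)⁻¹) * volume U) := by
    rw [lintegral_finsetSum _ fun k _ => hterm k]
    simp_rw [e1]
    rw [Finset.sum_const, nsmul_eq_mul, Finset.card_univ, Fintype.card_fin]
  have e3 : (∑ k : Fin Q,
      volume {y : V d | pt (y, c0 - N ^ 2 * ((((k : ℕ) : ℝ) + s) / (8 * Q)) / 2) ∈ U}) =
      ∑ k : Fin Q, g (c0 - N ^ 2 * ((((k : ℕ) : ℝ) + s) / (8 * Q)) / 2) := by
    rw [hgd]
  rw [e3]
  refine hle.trans ?_
  rw [setLAverage_eq, hvol, div_one]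
  refine (setLIntegral_le_lintegral _ _).trans ?_
  rw [e2]


private theorem tubC_pt_last {d : ℕ} (y : V d) (h : ℝ) : (pt (y, h)) (Fin.last d) = h := by
  simp [pt]

theorem slab_vol {d : ℕ} (hd : 1 ≤ d) : ∃ C : ℝ, 0 < C ∧ ∀ (N : ℝ), 1 ≤ N → ∀ (Q : ℕ), 1 ≤ Q →
    ∀ (ι : Type) [Fintype ι] (θ : ι → Cap d) (x : ι → Sp d) (c0 n : ℝ), 0 ≤ n →
      (∀ i, |x i (Fin.last d) - c0| ≤ N ^ 2 / 30) →
      (∀ τ : ℝ, 0 ≤ τ → τ ≤ 1 → ∃ k : Fin Q, n ≤ (((univ : Finset ι).image (fun i (r : Fin d) =>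
        ⌊N * ((x i r.castSucc - 2 * (c0 - x i (Fin.last d)) * (θ i).foot r) / N ^ 2 +
          ((k : ℕ) + τ) / (8 * Q) * (θ i).foot r)⌋)).card : ℝ)) →
      ENNReal.ofReal (n * N ^ (d + 2)) ≤ ENNReal.ofReal (C * Q ^ 2) *
        volume ((⋃ i, tube N (θ i) (x i)) ∩ {z | c0 - N ^ 2 / 16 ≤ z (Fin.last d) ∧
          z (Fin.last d) ≤ c0}) := by
  classical
  obtain ⟨C, hC, hcount⟩ := SD.section_count (d := d) hd 1 le_rfl 1 zero_le_one
  refine ⟨16 * C, by positivity, ?_⟩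
  intro N hN Q hQ ι _ θ x c0 n hn hx hcells
  have hN0 : 0 < N := by linarith
  have hN2 : 0 < N ^ 2 := by positivity
  have hQ0 : (0 : ℝ) < Q := by exact_mod_cast hQ
  set U : Set (Sp d) := (⋃ i, tube N (θ i) (x i)) ∩ {z | c0 - N ^ 2 / 16 ≤ z (Fin.last d) ∧
          z (Fin.last d) ≤ c0} with hU
  have hUm : MeasurableSet U := by
    refine (MeasurableSet.iUnion fun i => measurableSet_tube N (θ i) (x i)).inter ?_
    have h1 : Measurable fun z : Sp d => z (Fin.last d) := by fun_prop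
    exact (measurableSet_le measurable_const h1).inter (measurableSet_le h1 measurable_const)
  obtain ⟨τ, hτ, hsum⟩ := tubC_avg U hUm Q hQ c0 N hN
  obtain ⟨k, hk⟩ := hcells τ hτ.1 hτ.2
  obtain ⟨s, hs⟩ : ∃ s : ℝ, s = (((k : ℕ) : ℝ) + τ) / (8 * Q) := ⟨_, rfl⟩
  have hs0 : 0 ≤ s := by
    rw [hs]
    have := hτ.1
    positivity
  have hs1 : s ≤ 1 / 8 := by
    have h2 : ((k : ℕ) : ℝ) + 1 ≤ Q := by
      have := k.2
      exact_mod_cast this
    rw [hs, div_le_iff₀ (by positivity)]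
    have := hτ.2
    linarith
  rw [← hs] at hk
  obtain ⟨h, hh⟩ : ∃ h : ℝ, h = c0 - N ^ 2 * s / 2 := ⟨_, rfl⟩
  -- the section
  have hsec := hcount N hN ι θ x h (fun i r => ((⌊N * ((x i r.castSucc -
      2 * (c0 - x i (Fin.last d)) * (θ i).foot r) / N ^ 2 + s * (θ i).foot r)⌋ : ℤ) : ℚ))
    (fun i => by
      have h1 := hx i
      rw [hh]
      have e1 : c0 - N ^ 2 * s / 2 - x i (Fin.last d) =
        -(N ^ 2 * s / 2) - (x i (Fin.last d) - c0) := by ring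
      rw [e1]
      refine (abs_sub _ _).trans ?_
      rw [abs_neg, abs_of_nonneg (by positivity)]
      nlinarith)
    (fun i r => ⟨⌊N * ((x i r.castSucc -
      2 * (c0 - x i (Fin.last d)) * (θ i).foot r) / N ^ 2 + s * (θ i).foot r)⌋, by simp⟩)
    (fun i r => by
      obtain ⟨F, hF⟩ : ∃ F : ℝ, F = (x i r.castSucc -
        2 * (c0 - x i (Fin.last d)) * (θ i).foot r) / N ^ 2 := ⟨_, rfl⟩
      rw [← hF]
      have hfl := Int.floor_le (N * (F + s * (θ i).foot r))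
      have hfl2 := Int.lt_floor_add_one (N * (F + s * (θ i).foot r))
      have e1 : x i r.castSucc - 2 * (h - x i (Fin.last d)) * (θ i).foot r =
          N * (N * (F + s * (θ i).foot r)) := by
        rw [hh, hF]
        field_simp
        ring
      rw [e1]
      push_cast
      rw [← mul_sub, abs_mul, abs_of_pos hN0, abs_of_nonneg (by linarith), one_mul]
      calc N * (N * (F + s * (θ i).foot r) - (⌊N * (F + s * (θ i).foot r)⌋ : ℝ))
          ≤ N * 1 := mul_le_mul_of_nonneg_left (by linarith) hN0.le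
        _ = N := mul_one N)
  have hcard : ((Finset.univ : Finset ι).image
      (fun i (r : Fin d) => ((⌊N * ((x i r.castSucc -
      2 * (c0 - x i (Fin.last d)) * (θ i).foot r) / N ^ 2 + s * (θ i).foot r)⌋ : ℤ) : ℚ))).card =
      ((Finset.univ : Finset ι).image (fun i (r : Fin d) => ⌊N * ((x i r.castSucc -
      2 * (c0 - x i (Fin.last d)) * (θ i).foot r) / N ^ 2 + s * (θ i).foot r)⌋)).card := by
    have hinj : Function.Injective (fun (z : Fin d → ℤ) (r : Fin d) => ((z r : ℤ) : ℚ)) := by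
      intro z z' hz
      funext r
      have h5 : ((z r : ℤ) : ℚ) = ((z' r : ℤ) : ℚ) := congrFun hz r
      exact_mod_cast h5
    rw [← Finset.card_image_of_injective _ hinj, Finset.image_image]
    rfl
  have hseceq : {y : V d | pt (y, h) ∈ ⋃ i, tube N (θ i) (x i)} ⊆ {y : V d | pt (y, h) ∈ U} := by
    intro y hy
    rw [Set.mem_ofPred_eq] at hy ⊢
    refine ⟨hy, ?_, ?_⟩
    · show c0 - N ^ 2 / 16 ≤ (pt (y, h)) (Fin.last d)
      rw [tubC_pt_last, hh]
      nlinarith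
    · show (pt (y, h)) (Fin.last d) ≤ c0
      rw [tubC_pt_last, hh]
      nlinarith
  have hsec2 : ENNReal.ofReal (n * N ^ d) ≤
      ENNReal.ofReal C * (Q * (ENNReal.ofReal (16 * Q * (N ^ 2)⁻¹) * volume U)) := by
    have h1 : volume {y : V d | pt (y, h) ∈ U} ≤
        Q * (ENNReal.ofReal (16 * Q * (N ^ 2)⁻¹) * volume U) := by
      refine le_trans ?_ hsum
      have h2 := Finset.single_le_sum (s := (Finset.univ : Finset (Fin Q)))
        (f := fun k : Fin Q =>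
          volume {y : V d | pt (y, c0 - N ^ 2 * ((((k : ℕ) : ℝ) + τ) / (8 * Q)) / 2) ∈ U})
        (fun _ _ => zero_le) (Finset.mem_univ k)
      refine le_trans (le_of_eq ?_) h2
      rw [hh, hs]
    refine le_trans ?_ (hsec.trans (mul_le_mul_right ((measure_mono hseceq).trans h1) _))
    apply ENNReal.ofReal_le_ofReal
    apply mul_le_mul_of_nonneg_right _ (by positivity)
    refine hk.trans (le_of_eq ?_)
    exact_mod_cast hcard.symm
  have hQE : ((Q : ℕ) : ENNReal) = ENNReal.ofReal Q := by rw [ENNReal.ofReal_natCast]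
  have h3 : ENNReal.ofReal (n * N ^ (d + 2)) = ENNReal.ofReal (N ^ 2) * ENNReal.ofReal (n * N ^ d) := by
    rw [← ENNReal.ofReal_mul hN2.le]
    congr 1
    ring
  have h4 : ENNReal.ofReal (16 * C * Q ^ 2) * volume U = ENNReal.ofReal (N ^ 2) *
      (ENNReal.ofReal C * (Q * (ENNReal.ofReal (16 * Q * (N ^ 2)⁻¹) * volume U))) := by
    rw [hQE, ← mul_assoc, ← mul_assoc, ← mul_assoc, ← ENNReal.ofReal_mul hN2.le,
      ← ENNReal.ofReal_mul (by positivity), ← ENNReal.ofReal_mul (by positivity)]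
    congr 2
    field_simp
  rw [h3, h4]
  exact mul_le_mul_right hsec2 _

private theorem tubC_foot {d : ℕ} (θ : Cap d) (r : Fin d) : |θ.foot r| ≤ 1 := by
  have h1 := θ.foot_mem
  have h2 : θ.foot r ^ 2 ≤ ∑ i_1, θ.foot i_1 ^ 2 :=
    Finset.single_le_sum (f := fun r => θ.foot r ^ 2) (fun _ _ => sq_nonneg _) (Finset.mem_univ r)
  rw [← sq_le_one_iff_abs_le_one]
  linarith

/-- local injectivity at the levels `i0 ≤ k < i0 + l` implies `Good i0 l` -/
private theorem tubC_good {B d : ℕ} (hB : 2 ≤ B) {A N : ℝ} (hA : 1 ≤ A) (hN : 0 < N) {ι : Type}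
    [Fintype ι] {p : ι → ℝ} (θ : ι → Cap d) (x : ι → Sp d) (Z : ι → Fin (d + 1 + d) → ℝ)
    (Y : ι → Co d → ℝ) (hZ1 : ∀ i (r : Fin (d + 1)), Z i (Fin.castAdd d r) = x i r / N ^ 2)
    (hZ2 : ∀ i (r : Fin d), Z i (Fin.natAdd (d + 1) r) = (θ i).foot r)
    (hY : ∀ i (r : Fin d), Y i (Sum.inr r) = (θ i).foot r)
    {i0 l : ℕ} {ω : ι} (h : ∀ k, i0 ≤ k → k < i0 + l → LocInj B A N θ x k ω) :
    Good B A p Z Y i0 l ω := by
  intro k hk hkl ω' _ hV hW
  have hB0 : (0 : ℝ) < B := by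
    have : 0 < B := by omega
    exact_mod_cast this
  have hBk : ∀ j : ℕ, (0 : ℝ) < (B : ℝ) ^ j := fun j => by positivity
  have hN2 : 0 < N ^ 2 := by positivity
  have h1 : ∀ r : Fin (d + 1), |x ω r - x ω' r| ≤ A * N ^ 2 * ((B : ℝ) ^ i0)⁻¹ := by
    intro r
    have e := congrFun hV (Fin.castAdd d r)
    simp only [Xc, Pi.zero_apply, add_zero, hZ1] at e
    have h5 := Int.abs_sub_lt_one_of_floor_eq_floor e.symm
    rw [← mul_sub, ← sub_div, abs_mul, abs_div, abs_of_pos (hBk i0), abs_of_pos hN2] at h5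
    have h6 : |x ω r - x ω' r| ≤ N ^ 2 * ((B : ℝ) ^ i0)⁻¹ := by
      rw [← div_le_iff₀' hN2, ← one_div, le_div_iff₀ (hBk i0), mul_comm]
      exact h5.le
    have h7 : N ^ 2 ≤ A * N ^ 2 := le_mul_of_one_le_left hN2.le hA
    exact h6.trans (mul_le_mul_of_nonneg_right h7 (inv_pos.2 (hBk i0)).le)
  have hfl : ∀ j, j ≤ k → ∀ r : Fin d,
      ⌊(B : ℝ) ^ j * (θ ω).foot r⌋ = ⌊(B : ℝ) ^ j * (θ ω').foot r⌋ := by
    intro j hj r
    have e := congrFun hW r
    simp only [Wc, hY] at e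
    rw [floor_coarse (by omega) hj, floor_coarse (by omega) hj ((θ ω').foot r), e]
  have h2 : ∀ j, i0 ≤ j → j ≤ k → ∀ r : Fin (d + 1),
      |x ω r - x ω' r| ≤ A * N ^ 2 * ((B : ℝ) ^ j)⁻¹ := by
    intro j hj
    induction j, hj using Nat.le_induction with
    | base => intro _; exact h1
    | succ j hj ih =>
      intro hjk
      exact h j hj (by omega) ω' (hfl (j + 1) hjk) (ih (by omega))
  intro r
  refine Fin.addCases (fun r => ?_) (fun r => ?_) r
  · rw [hZ1, hZ1, ← sub_div, abs_div, abs_of_pos hN2, div_le_iff₀ hN2]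
    have := h2 k hk le_rfl r
    linarith
  · rw [hZ2, hZ2]
    have h4 := hfl k le_rfl r
    have h5 := Int.abs_sub_lt_one_of_floor_eq_floor h4
    rw [← mul_sub, abs_mul, abs_of_pos (hBk k)] at h5
    have h6 : |(θ ω).foot r - (θ ω').foot r| ≤ ((B : ℝ) ^ k)⁻¹ := by
      rw [← one_div, le_div_iff₀ (hBk k), mul_comm]
      exact h5.le
    have h7 : (0 : ℝ) < ((B : ℝ) ^ k)⁻¹ := inv_pos.2 (hBk k)
    exact h6.trans (le_mul_of_one_le_left h7.le hA)

private theorem tubC_pr_uni {ι : Type} [Fintype ι] (P : ι → Prop) [DecidablePred P] :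
    pr (uni ι) P = ((univ.filter P).card : ℝ) / Fintype.card ι := by
  unfold pr uni
  rw [div_eq_mul_inv, ← nsmul_eq_mul, ← Finset.sum_const, Finset.sum_filter]
  refine Finset.sum_congr rfl fun i _ => ?_
  by_cases h : P i
  · rw [if_pos h, if_pos h]
  · rw [if_neg h, if_neg h]

open Classical in
private theorem tubC_sum {ι : Type} [Fintype ι] [Nonempty ι] (G L : ℕ → ι → Prop) {m l : ℕ}
    (h : ∀ i ω, (∀ k, i ≤ k → k < i + l → L k ω) → G i ω) {b : ℝ}
    (hb : ((∑ k ∈ range m, (univ.filter fun i => ¬ L k i).card : ℕ) : ℝ) ≤ b * Fintype.card ι) :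
    ∑ k ∈ range (m + 1 - l), pr (uni ι) (fun ω => ¬ G k ω) ≤ l * b := by
  have hp : IsPr (uni ι) := isPr_uni
  have hc : (0 : ℝ) < Fintype.card ι := by exact_mod_cast Fintype.card_pos
  have h1 : ∀ k, pr (uni ι) (fun ω => ¬ G k ω) ≤
      ∑ t ∈ range l, pr (uni ι) (fun ω => ¬ L (k + t) ω) := by
    intro k
    rw [← Fin.sum_univ_eq_sum_range (fun t => pr (uni ι) (fun ω => ¬ L (k + t) ω)) l]
    refine le_trans (pr_mono hp ?_) (pr_exists_le hp fun (t : Fin l) ω => ¬ L (k + t) ω)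
    intro ω _ hG
    by_contra hcon
    push Not at hcon
    apply hG
    apply h
    intro k' hk hk'
    have := hcon ⟨k' - k, by omega⟩
    simpa [Nat.add_sub_cancel' hk] using this
  have h2 : ∀ t, t < l → ∑ k ∈ range (m + 1 - l), pr (uni ι) (fun ω => ¬ L (k + t) ω) ≤
      ∑ k ∈ range m, pr (uni ι) (fun ω => ¬ L k ω) := by
    intro t ht
    rw [← Finset.sum_image (s := range (m + 1 - l)) (g := fun k => k + t)
      (f := fun k => pr (uni ι) (fun ω => ¬ L k ω)) (fun a _ b _ hab => Nat.add_right_cancel hab)]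
    refine Finset.sum_le_sum_of_subset_of_nonneg ?_ fun k _ _ => pr_nonneg hp _
    intro k hk
    rw [Finset.mem_image] at hk
    obtain ⟨j, hj, rfl⟩ := hk
    rw [Finset.mem_range] at hj ⊢
    omega
  have h3 : ∑ k ∈ range m, pr (uni ι) (fun ω => ¬ L k ω) ≤ b := by
    have e1 : ∑ k ∈ range m, pr (uni ι) (fun ω => ¬ L k ω) =
        ((∑ k ∈ range m, (univ.filter fun i => ¬ L k i).card : ℕ) : ℝ) / Fintype.card ι := by
      push_cast
      rw [Finset.sum_div]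
      refine Finset.sum_congr rfl fun k _ => ?_
      rw [tubC_pr_uni]
    rw [e1, div_le_iff₀ hc]
    exact hb
  calc ∑ k ∈ range (m + 1 - l), pr (uni ι) (fun ω => ¬ G k ω)
      ≤ ∑ k ∈ range (m + 1 - l), ∑ t ∈ range l, pr (uni ι) (fun ω => ¬ L (k + t) ω) :=
        Finset.sum_le_sum fun k _ => h1 k
    _ = ∑ t ∈ range l, ∑ k ∈ range (m + 1 - l), pr (uni ι) (fun ω => ¬ L (k + t) ω) :=
        Finset.sum_comm
    _ ≤ ∑ t ∈ range l, b := Finset.sum_le_sum fun t ht =>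
        (h2 t (Finset.mem_range.1 ht)).trans h3
    _ = l * b := by rw [Finset.sum_const, Finset.card_range, nsmul_eq_mul]

private theorem tubC_floor {y y' : ℝ} (h : y ≤ y' + 3) : ⌊y⌋ ≤ ⌊y'⌋ + 4 := by
  have h1 := Int.floor_le y
  have h2 := Int.lt_floor_add_one y'
  have h3 : (⌊y⌋ : ℝ) < ((⌊y'⌋ + 4 : ℤ) : ℝ) := by
    push_cast
    linarith
  exact (Int.cast_lt.1 h3).le

private theorem tubC_base {B d : ℕ} {N c0 : ℝ} (hN : 0 < N) {ι : Type}
    [Fintype ι] {p : ι → ℝ} (hp : IsPr p) (θ : ι → Cap d) (x : ι → Sp d)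
    (Z : ι → Fin (d + 1 + d) → ℝ)
    (Y : ι → Co d → ℝ) (hZ1 : ∀ i (r : Fin (d + 1)), Z i (Fin.castAdd d r) = x i r / N ^ 2)
    (hZ2 : ∀ i (r : Fin d), Z i (Fin.natAdd (d + 1) r) = (θ i).foot r)
    (hY1 : ∀ i (r : Fin d), Y i (Sum.inl r) =
      (x i r.castSucc - 2 * (c0 - x i (Fin.last d)) * (θ i).foot r) / N ^ 2)
    (hY2 : ∀ i (r : Fin d), Y i (Sum.inr r) = (θ i).foot r)
    (hx : ∀ i, |x i (Fin.last d) - c0| ≤ N ^ 2 / 30) {s : ℝ} (hs0 : 0 ≤ s) (hs1 : s ≤ 1 / 8) :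
    cent p (Xc B 0 0 Z) (Xc B 0 0 (fun ω r => Y ω (Sum.inl r) + s * Y ω (Sum.inr r))) ≤
      ((d + 1 + d : ℕ) : ℝ) * Real.log 9 := by
  have hN2 : 0 < N ^ 2 := by positivity
  have h1 := cent_le_diam hp (Xc B 0 0 Z)
    (Xc B 0 0 (fun ω r => Y ω (Sum.inl r) + s * Y ω (Sum.inr r))) 4 (by
    intro ω ω' _ _ e r
    have ha : ∀ i, |(x i (Fin.last d) - c0) / N ^ 2| ≤ 1 / 30 := by
      intro i
      rw [abs_div, abs_of_pos hN2, div_le_iff₀ hN2]
      have := hx i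
      linarith
    simp only [Xc, pow_zero, one_mul, Pi.zero_apply, add_zero, Nat.cast_ofNat]
    refine tubC_floor ?_
    refine Fin.addCases (fun r => ?_) (fun r => ?_) r
    · rw [hZ1, hZ1]
      refine Fin.lastCases ?_ (fun r => ?_) r
      · have a1 := abs_le.1 (ha ω)
        have a2 := abs_le.1 (ha ω')
        have a3 : x ω (Fin.last d) / N ^ 2 - x ω' (Fin.last d) / N ^ 2 =
            (x ω (Fin.last d) - c0) / N ^ 2 - (x ω' (Fin.last d) - c0) / N ^ 2 := by ring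
        linarith [a1.2, a2.1]
      · have e1 := congrFun e r
        simp only [Xc, pow_zero, one_mul, Pi.zero_apply, add_zero, hY2] at e1
        have e2 := Int.abs_sub_lt_one_of_floor_eq_floor e1
        have f1 := tubC_foot (θ ω) r
        have f2 := tubC_foot (θ ω') r
        have g : ∀ i, x i r.castSucc / N ^ 2 = Y i (Sum.inl r) -
            2 * ((x i (Fin.last d) - c0) / N ^ 2 * (θ i).foot r) := by
          intro i
          rw [hY1]
          field_simp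
          ring
        have g1 : ∀ i, |(x i (Fin.last d) - c0) / N ^ 2 * (θ i).foot r| ≤ 1 / 30 * 1 := by
          intro i
          rw [abs_mul]
          exact mul_le_mul (ha i) (tubC_foot (θ i) r) (abs_nonneg _) (by norm_num)
        have g2 : ∀ i, |s * (θ i).foot r| ≤ 1 / 8 * 1 := by
          intro i
          rw [abs_mul, abs_of_nonneg hs0]
          exact mul_le_mul hs1 (tubC_foot (θ i) r) (abs_nonneg _) (by norm_num)
        have k1 := abs_le.1 (g1 ω)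
        have k2 := abs_le.1 (g1 ω')
        have k3 := abs_le.1 (g2 ω)
        have k4 := abs_le.1 (g2 ω')
        have k5 := abs_lt.1 e2
        rw [g ω, g ω']
        linarith [k1.1, k1.2, k2.1, k2.2, k3.1, k3.2, k4.1, k4.2, k5.1, k5.2]
    · rw [hZ2, hZ2]
      have f1 := abs_le.1 (tubC_foot (θ ω) r)
      have f2 := abs_le.1 (tubC_foot (θ ω') r)
      linarith [f1.2, f2.1])
  refine h1.trans (le_of_eq ?_)
  norm_num

private theorem tubC_cells {B m b : ℕ} {N : ℝ} (hB : 0 < B) (hN : (B : ℝ) ^ m ≤ N) {Ω : Type}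
    [Fintype Ω] {p : Ω → ℝ} (hp : IsPr p) (X : Ω → Fin b → ℝ) :
    cent p (Xc B m 0 X) (fun ω r => ⌊N * X ω r⌋) ≤ b * Real.log 2 := by
  have hB0 : (0 : ℝ) < B := by exact_mod_cast hB
  have hBm : (0 : ℝ) < (B : ℝ) ^ m := by positivity
  have hN0 : 0 < N := by linarith
  have h := cent_le_box hp (Xc B m 0 X) (fun ω r => ⌊N * X ω r⌋) 2 (fun ω₀ _ =>
    ⟨fun r => ⌊(B : ℝ) ^ m / N * (⌊N * X ω₀ r⌋ : ℝ)⌋, fun ω _ e r => by
      have e1 : ⌊N * X ω r⌋ = ⌊N * X ω₀ r⌋ := congrFun e r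
      obtain ⟨u, hu⟩ : ∃ u : ℤ, u = ⌊N * X ω₀ r⌋ := ⟨_, rfl⟩
      have hρ0 : 0 < (B : ℝ) ^ m / N := by positivity
      have hρ1 : (B : ℝ) ^ m / N ≤ 1 := by
        rw [div_le_one hN0]
        exact hN
      obtain ⟨ρ, hρ⟩ : ∃ ρ : ℝ, ρ = (B : ℝ) ^ m / N := ⟨_, rfl⟩
      have e2 : (B : ℝ) ^ m * X ω r = ρ * (N * X ω r) := by
        rw [hρ]
        field_simp
      simp only [Xc, Pi.zero_apply, add_zero]
      rw [e2, ← hρ, ← hu]
      rw [← hρ] at hρ0 hρ1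
      rw [← hu] at e1
      have l1 := Int.floor_le (N * X ω r)
      have l2 := Int.lt_floor_add_one (N * X ω r)
      rw [e1] at l1 l2
      have l3 : ρ * u ≤ ρ * (N * X ω r) := mul_le_mul_of_nonneg_left l1 hρ0.le
      have l4 : ρ * (N * X ω r) < ρ * (u + 1) := mul_lt_mul_of_pos_left l2 hρ0
      constructor
      · exact Int.floor_le_floor l3
      · have l5 := Int.floor_le (ρ * (N * X ω r))
        have l6 := Int.lt_floor_add_one (ρ * (u : ℝ))
        have l7 : ((⌊ρ * (N * X ω r)⌋ : ℤ) : ℝ) < ((⌊ρ * (u : ℝ)⌋ + 2 : ℤ) : ℝ) := by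
          push_cast
          nlinarith
        have l8 := Int.cast_lt.1 l7
        push_cast
        exact l8⟩)
  exact_mod_cast h

open Classical in
theorem slab_inj {B d : ℕ} (hB : 2 ≤ B) (hd : 1 ≤ d) {A ε : ℝ} (hA : 1 ≤ A) (hε : 0 < ε) :
    ∃ (c η : ℝ) (m0 : ℕ), 0 < c ∧ 0 < η ∧ ∀ m, m0 ≤ m → ∀ N : ℝ, (B : ℝ) ^ m ≤ N →
      ∀ (ι : Type) [Fintype ι] (θ : ι → Cap d) (x : ι → Sp d) (c0 : ℝ),
      (∀ i, |x i (Fin.last d) - c0| ≤ N ^ 2 / 30) →
      (∀ i j, (∀ r, ⌊(B : ℝ) ^ m * (θ i).foot r⌋ = ⌊(B : ℝ) ^ m * (θ j).foot r⌋) → i = j) →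
      ((∑ k ∈ range m, (univ.filter fun i => ¬ LocInj B A N θ x k i).card : ℕ) : ℝ) ≤
        η * m * Fintype.card ι →
      ENNReal.ofReal (c * Fintype.card ι * N ^ (d + 2) * (B : ℝ) ^ (-(ε * m))) ≤
        volume ((⋃ i, tube N (θ i) (x i)) ∩
          {z | c0 - N ^ 2 / 16 ≤ z (Fin.last d) ∧ z (Fin.last d) ≤ c0}) := by
  obtain ⟨C, hC, hvol⟩ := slab_vol hd
  have hφ : Tendsto (fun j : ℕ => 17 / (j : ℝ)) atTop (𝓝 0) :=
    tendsto_const_div_atTop_nhds_zero_nat 17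
  have hBn : 0 < B := by omega
  have hB0 : (0 : ℝ) < B := by exact_mod_cast hBn
  have hB1 : (1 : ℝ) ≤ B := by exact_mod_cast (show 1 ≤ B by omega)
  obtain ⟨l, η, m0, hl1, hη, hglob⟩ := loc_glob (B := B) (d := d) (e := d + 1 + d) hB (by omega)
    (A := A) (C1 := 4) (by linarith) (by norm_num) hφ hε
  have hl0 : (0 : ℝ) < l := by
    have : 0 < l := by omega
    exact_mod_cast this
  obtain ⟨Q, hQd⟩ : ∃ Q : ℕ, Q = max m0 1 := ⟨_, rfl⟩
  have hQm : m0 ≤ Q := by rw [hQd]; exact le_max_left _ _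
  have hQ1 : 1 ≤ Q := by rw [hQd]; exact le_max_right _ _
  have hQ0 : (0 : ℝ) < Q := by exact_mod_cast hQ1
  obtain ⟨K, hK⟩ : ∃ K : ℝ, K = 9 ^ (d + 1 + d) * 2 ^ d := ⟨_, rfl⟩
  have hK0 : 0 < K := by rw [hK]; positivity
  refine ⟨1 / (C * Q ^ 2 * K), η / l, m0, by positivity, by positivity, ?_⟩
  intro m hm N hN ι _ θ x c0 hx hdist hbad
  rcases isEmpty_or_nonempty ι with hι | hι
  · simp
  have hBm : (0 : ℝ) < (B : ℝ) ^ m := by positivity
  have hBm1 : (1 : ℝ) ≤ (B : ℝ) ^ m := one_le_pow₀ hB1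
  have hN1 : 1 ≤ N := hBm1.trans hN
  have hN0 : 0 < N := by linarith
  have hN2 : 0 < N ^ 2 := by positivity
  have hp : IsPr (uni ι) := isPr_uni
  have hcard : (0 : ℝ) < Fintype.card ι := by exact_mod_cast Fintype.card_pos
  obtain ⟨Z, hZ⟩ : ∃ Z : ι → Fin (d + 1 + d) → ℝ, Z = fun i =>
    Fin.append (fun r : Fin (d + 1) => x i r / N ^ 2) (θ i).foot := ⟨_, rfl⟩
  have hZ1 : ∀ i (r : Fin (d + 1)), Z i (Fin.castAdd d r) = x i r / N ^ 2 := by
    intro i r
    rw [hZ]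
    exact Fin.append_left _ _ _
  have hZ2 : ∀ i (r : Fin d), Z i (Fin.natAdd (d + 1) r) = (θ i).foot r := by
    intro i r
    rw [hZ]
    exact Fin.append_right _ _ _
  obtain ⟨Y, hY⟩ : ∃ Y : ι → Co d → ℝ, Y = fun i => Sum.elim (fun r : Fin d =>
    (x i r.castSucc - 2 * (c0 - x i (Fin.last d)) * (θ i).foot r) / N ^ 2) (θ i).foot :=
    ⟨_, rfl⟩
  have hY1 : ∀ i (r : Fin d), Y i (Sum.inl r) =
      (x i r.castSucc - 2 * (c0 - x i (Fin.last d)) * (θ i).foot r) / N ^ 2 := by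
    intro i r
    rw [hY]
    rfl
  have hY2 : ∀ i (r : Fin d), Y i (Sum.inr r) = (θ i).foot r := by
    intro i r
    rw [hY]
    rfl
  have ha : ∀ i, |(x i (Fin.last d) - c0) / N ^ 2| ≤ 1 / 30 := by
    intro i
    rw [abs_div, abs_of_pos hN2, div_le_iff₀ hN2]
    have := hx i
    linarith
  -- Lipschitz
  have hLip : ∀ ω ω' c, ∀ t : ℝ, (∀ r, |Z ω r - Z ω' r| ≤ t) → |Y ω c - Y ω' c| ≤ 4 * t := by
    intro ω ω' c t ht
    have ht0 : 0 ≤ t := (abs_nonneg _).trans (ht (Fin.castAdd d (Fin.last d)))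
    rcases c with r | r
    · have h1 := ht (Fin.castAdd d r.castSucc)
      have h2 := ht (Fin.castAdd d (Fin.last d))
      have h3 := ht (Fin.natAdd (d + 1) r)
      rw [hZ1, hZ1] at h1 h2
      rw [hZ2, hZ2] at h3
      rw [hY1, hY1]
      have e1 : (x ω r.castSucc - 2 * (c0 - x ω (Fin.last d)) * (θ ω).foot r) / N ^ 2 -
          (x ω' r.castSucc - 2 * (c0 - x ω' (Fin.last d)) * (θ ω').foot r) / N ^ 2 =
          (x ω r.castSucc / N ^ 2 - x ω' r.castSucc / N ^ 2) +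
          2 * (((x ω (Fin.last d) - c0) / N ^ 2) * ((θ ω).foot r - (θ ω').foot r)) +
          2 * ((x ω (Fin.last d) / N ^ 2 - x ω' (Fin.last d) / N ^ 2) * (θ ω').foot r) := by
        ring
      rw [e1]
      refine (abs_add_three _ _ _).trans ?_
      have h8 : |2 * (((x ω (Fin.last d) - c0) / N ^ 2) * ((θ ω).foot r - (θ ω').foot r))| ≤
          2 * (1 / 30 * t) := by
        rw [abs_mul, abs_mul, abs_two]
        exact mul_le_mul_of_nonneg_left (mul_le_mul (ha ω) h3 (abs_nonneg _) (by norm_num))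
          (by norm_num)
      have h9 : |2 * ((x ω (Fin.last d) / N ^ 2 - x ω' (Fin.last d) / N ^ 2) * (θ ω').foot r)| ≤
          2 * (t * 1) := by
        rw [abs_mul, abs_mul, abs_two]
        exact mul_le_mul_of_nonneg_left (mul_le_mul h2 (tubC_foot (θ ω') r) (abs_nonneg _) ht0)
          (by norm_num)
      linarith
    · have h3 := ht (Fin.natAdd (d + 1) r)
      rw [hZ2, hZ2] at h3
      rw [hY2, hY2]
      linarith
  -- Good
  have hgood : ∑ k ∈ range (m + 1 - l), pr (uni ι) (fun ω => ¬ Good B A (uni ι) Z Y k l ω) ≤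
      η * m := by
    have h1 := tubC_sum (fun k ω => Good B A (uni ι) Z Y k l ω)
      (fun k ω => LocInj B A N θ x k ω) (m := m) (l := l) (b := η / l * m)
      (fun i ω h => tubC_good hB hA hN0 θ x Z Y hZ1 hZ2 hY2 h) hbad
    refine h1.trans (le_of_eq ?_)
    field_simp
  -- the count
  obtain ⟨n, hn⟩ : ∃ n : ℝ, n = Fintype.card ι * (B : ℝ) ^ (-(ε * m)) / K := ⟨_, rfl⟩
  have hpow : (0 : ℝ) < (B : ℝ) ^ (-(ε * m)) := Real.rpow_pos_of_pos hB0 _
  have hn0 : 0 < n := by rw [hn]; positivity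
  have key : ∀ τ : ℝ, 0 ≤ τ → τ ≤ 1 → ∃ k : Fin Q, n ≤ (((univ : Finset ι).image
      (fun i (r : Fin d) =>
        ⌊N * ((x i r.castSucc - 2 * (c0 - x i (Fin.last d)) * (θ i).foot r) / N ^ 2 +
          ((k : ℕ) + τ) / (8 * Q) * (θ i).foot r)⌋)).card : ℝ) := by
    intro τ h0 h1
    have hH := line_hts hQ1 h0 h1
    have hg := hglob m Q hm hQm (Fin Q) (fun _ => 1 / (Q : ℝ))
      (fun k => ((k : ℕ) + τ) / (8 * Q)) hH ι (uni ι) Z Y hp
      (fun r => ⟨Fin.natAdd (d + 1) r, fun ω => by rw [hZ2, hY2]⟩) hLip hgood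
    have hs : ∀ k : Fin Q, 0 ≤ (((k : ℕ) : ℝ) + τ) / (8 * Q) ∧
        (((k : ℕ) : ℝ) + τ) / (8 * Q) ≤ 1 / 8 := by
      intro k
      constructor
      · positivity
      · have h2 : ((k : ℕ) : ℝ) + 1 ≤ Q := by
          have := k.2
          exact_mod_cast this
        rw [div_le_iff₀ (by positivity)]
        linarith
    have hb : ∀ k : Fin Q, cent (uni ι) (Xc B 0 0 Z) (Xc B 0 0 (fun ω r => Y ω (Sum.inl r) +
        (((k : ℕ) : ℝ) + τ) / (8 * Q) * Y ω (Sum.inr r))) ≤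
        ((d + 1 + d : ℕ) : ℝ) * Real.log 9 := fun k =>
      tubC_base hN0 hp θ x Z Y hZ1 hZ2 hY1 hY2 hx (hs k).1 (hs k).2
    have hb2 : ∑ k : Fin Q, 1 / (Q : ℝ) * cent (uni ι) (Xc B 0 0 Z)
        (Xc B 0 0 (fun ω r => Y ω (Sum.inl r) +
        (((k : ℕ) : ℝ) + τ) / (8 * Q) * Y ω (Sum.inr r))) ≤
        ((d + 1 + d : ℕ) : ℝ) * Real.log 9 := by
      refine (Finset.sum_le_sum fun k _ =>
        mul_le_mul_of_nonneg_left (hb k) (by positivity)).trans (le_of_eq ?_)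
      rw [← Finset.sum_mul, hH.isPr.sum_eq, one_mul]
    obtain ⟨T, hT⟩ : ∃ T : ℝ, T = ε * m * Real.log B + ((d + 1 + d : ℕ) : ℝ) * Real.log 9 :=
      ⟨_, rfl⟩
    have hsum : ∑ k : Fin Q, 1 / (Q : ℝ) * cent (uni ι) (Xc B m 0 Z)
        (Xc B m 0 (fun ω r => Y ω (Sum.inl r) +
        (((k : ℕ) : ℝ) + τ) / (8 * Q) * Y ω (Sum.inr r))) ≤ T := by
      rw [hT]
      linarith
    have hex : ∃ k : Fin Q, cent (uni ι) (Xc B m 0 Z)
        (Xc B m 0 (fun ω r => Y ω (Sum.inl r) +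
        (((k : ℕ) : ℝ) + τ) / (8 * Q) * Y ω (Sum.inr r))) ≤ T := by
      by_contra hcon
      push Not at hcon
      have h2 : ∑ k : Fin Q, 1 / (Q : ℝ) * T < ∑ k : Fin Q, 1 / (Q : ℝ) * cent (uni ι)
          (Xc B m 0 Z) (Xc B m 0 (fun ω r => Y ω (Sum.inl r) +
          (((k : ℕ) : ℝ) + τ) / (8 * Q) * Y ω (Sum.inr r))) := by
        have : Nonempty (Fin Q) := ⟨⟨0, by omega⟩⟩
        exact Finset.sum_lt_sum_of_nonempty Finset.univ_nonempty fun k _ =>
          mul_lt_mul_of_pos_left (hcon k) (by positivity)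
      rw [← Finset.sum_mul, hH.isPr.sum_eq, one_mul] at h2
      linarith
    obtain ⟨k, hk⟩ := hex
    refine ⟨k, ?_⟩
    obtain ⟨s, hsd⟩ : ∃ s : ℝ, s = (((k : ℕ) : ℝ) + τ) / (8 * Q) := ⟨_, rfl⟩
    rw [← hsd] at hk ⊢
    obtain ⟨X, hX⟩ : ∃ X : ι → Fin d → ℝ, X = fun ω r => Y ω (Sum.inl r) + s * Y ω (Sum.inr r) :=
      ⟨_, rfl⟩
    rw [← hX] at hk
    obtain ⟨U, hU⟩ : ∃ U : ι → Fin d → ℤ, U = fun ω r => ⌊N * X ω r⌋ := ⟨_, rfl⟩
    have hUi : (fun i (r : Fin d) =>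
        ⌊N * ((x i r.castSucc - 2 * (c0 - x i (Fin.last d)) * (θ i).foot r) / N ^ 2 +
          s * (θ i).foot r)⌋) = U := by
      rw [hU, hX]
      funext i r
      simp only [hY1, hY2]
    rw [hUi]
    obtain ⟨S, hS⟩ : ∃ S : Finset (Fin d → ℤ), S = (univ : Finset ι).image U := ⟨_, rfl⟩
    rw [← hS]
    have hmem : ∀ i, U i ∈ S := by
      intro i
      rw [hS]
      exact Finset.mem_image_of_mem _ (Finset.mem_univ i)
    have hSpos : (0 : ℝ) < S.card := by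
      have : 0 < S.card := Finset.card_pos.mpr ⟨_, hmem (Classical.arbitrary ι)⟩
      exact_mod_cast this
    have c1 : ent (uni ι) U ≤ Real.log S.card := ent_le_log_card hp U S fun i _ => hmem i
    have c2 : ent (uni ι) (Xc B m 0 Z) = Real.log (Fintype.card ι) := by
      refine ent_uni_inj fun i j hij => hdist i j fun r => ?_
      have e := congrFun hij (Fin.natAdd (d + 1) r)
      simpa only [Xc, Pi.zero_apply, add_zero, hZ2] using e
    have c3 : ent (uni ι) (Xc B m 0 Z) ≤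
        ent (uni ι) (fun i => (Xc B m 0 Z i, Xc B m 0 X i)) := ent_mono hp (Det.fst (Det.refl _))
    have c4 : ent (uni ι) (fun i => (Xc B m 0 Z i, Xc B m 0 X i)) =
        ent (uni ι) (Xc B m 0 X) + cent (uni ι) (Xc B m 0 Z) (Xc B m 0 X) := ent_pair _ _
    have c5 : ent (uni ι) (Xc B m 0 X) ≤
        ent (uni ι) (fun i => (Xc B m 0 X i, U i)) := ent_mono hp (Det.fst (Det.refl _))
    have c6 : ent (uni ι) (fun i => (Xc B m 0 X i, U i)) =
        ent (uni ι) U + cent (uni ι) (Xc B m 0 X) U := ent_pair _ _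
    have c7 : cent (uni ι) (Xc B m 0 X) U ≤ d * Real.log 2 := by
      rw [hU]
      exact tubC_cells hBn hN hp X
    have c8 : Real.log n ≤ Real.log S.card := by
      rw [hn, Real.log_div (by positivity) hK0.ne', Real.log_mul hcard.ne' hpow.ne',
        Real.log_rpow hB0, hK, Real.log_mul (by positivity) (by positivity), Real.log_pow,
        Real.log_pow]
      rw [hT] at hk
      linarith
    exact (Real.log_le_log_iff hn0 hSpos).1 c8
  have hfin := hvol N hN1 Q hQ1 ι θ x c0 n hn0.le hx key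
  have hCQ : 0 < C * (Q : ℝ) ^ 2 := by positivity
  have h1 : ENNReal.ofReal (1 / (C * Q ^ 2 * K) * Fintype.card ι * N ^ (d + 2) *
      (B : ℝ) ^ (-(ε * m))) = ENNReal.ofReal (1 / (C * Q ^ 2)) * ENNReal.ofReal (n * N ^ (d + 2)) := by
    rw [← ENNReal.ofReal_mul (by positivity)]
    congr 1
    rw [hn]
    field_simp
  rw [h1]
  refine (mul_le_mul_right hfin _).trans (le_of_eq ?_)
  rw [← mul_assoc, ← ENNReal.ofReal_mul (by positivity), one_div_mul_cancel hCQ.ne',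
    ENNReal.ofReal_one, one_mul]

end STK
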