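import Pool.Agent.Lib.MP_ac5134_an.STK.KTubC
import Pool.Agent.Lib.MP_ac5134_an.Lip.T4

/-!
# STK-KTubD: all tubes, local injectivity at most (scale, tube) pairs

Proof.  `c, η1, m0` from `slab_inj`; `K' = K (B+1)^d`; `η = η1 / (2 (K'+1))`.  `B^m ≤ N ≤ B^(m+1)`, so a direction cell
of level `m` meets at most `(B+1)^d` cells `⌊N ω⌋` and contains at most `K'` feet (below `K` stands for `K'`).
`m < m0`: `∑ |T_i| = |ι| N^(d+2) = |ι| |T_j| ≤ |ι| |⋃|`, `|ι| ≤ K (4N)^d` (`Lip.card_le`, `volume_tube`), `N ≤ B^(m0+1)`;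
`ι` empty is trivial.
`m ≥ m0`: slab class of `i`: the integer `q_i = ⌊15 x_{i,n} / N²⌋`, `c0_q = (q + 1/2) N²/15`, so
`|x_{i,n} - c0_q| ≤ N²/30`, and the slabs `{c0_q - N²/16 ≤ z_n ≤ c0_q}` are disjoint (`1/16 < 1/15`).
In every slab class choose one tube in every direction cell of level `m` that occurs: `ι'_q` (subtype),
`∑_q |ι'_q| ≥ |ι|/K` (at most `K'` tubes of `ι` per cell of level `m`).
A pair `(k, i)`, `i ∈ ι'_q`, that is bad for the family `ι'_q` is bad for `ι` (`LocInj` for `ι` implies `LocInj` for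
a subfamily), so `∑_q b_q ≤ η m |ι|`, `b_q` the number of bad pairs of `ι'_q`.  The classes with
`b_q > η1 m |ι'_q|` have `∑ |ι'_q| ≤ η |ι| / η1 ≤ |ι|/(2K)` (if `m ≥ 1`, `K ≥ 1`), so the others have
`∑ |ι'_q| ≥ |ι|/(2K)`, and for them `slab_inj` (with exponent `ε`) gives
`c |ι'_q| N^(d+2) B^(-ε m) ≤ volume (⋃ ∩ slab_q)`.  Sum (disjoint slabs, measurable:
`measure_biUnion_finset`, `measurableSet_tube`): `c (|ι|/(2K)) N^(d+2) B^(-ε m) ≤ volume ⋃`, and
`∑ |T_i| = |ι| N^(d+2)`, `B^(ε m) = (B^m)^ε ≤ N^ε`.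
-/

namespace STK
open Finset RFold Filter Topology MeasureTheory Pool.Agent.MPac5134 Pool.Agent.MPac5134.Lip

/-- a direction cell of level `m` contains at most `K (B+1)^d` feet. -/
private theorem ktd_cell {B d : ℕ} (hB : 2 ≤ B) (K m : ℕ) {N : ℝ} (hN1 : (B : ℝ) ^ m ≤ N)
    (hN2 : N ≤ (B : ℝ) ^ (m + 1)) {ι : Type} [Fintype ι] (θ : ι → Cap d)
    (hov : ∀ (z : Fin d → ℤ) (s : Finset ι), (∀ i ∈ s, cell N (θ i) = z) → s.card ≤ K)
    (w : Fin d → ℤ) (F : Finset ι) (hF : ∀ i ∈ F, (fun r => ⌊(B : ℝ) ^ m * (θ i).foot r⌋) = w) :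
    F.card ≤ K * (B + 1) ^ d := by
  classical
  have hB0 : (0 : ℝ) < B := by
    have : (2 : ℝ) ≤ B := by exact_mod_cast hB
    linarith
  have hP : (0 : ℝ) < (B : ℝ) ^ m := by positivity
  have hN0 : 0 < N := lt_of_lt_of_le hP hN1
  have hmaps : ∀ i ∈ F, cell N (θ i) ∈ Fintype.piFinset (fun r : Fin d =>
      Finset.Icc ⌊N * (w r / (B : ℝ) ^ m)⌋ (⌊N * (w r / (B : ℝ) ^ m)⌋ + B)) := by
    intro i hi
    rw [Fintype.mem_piFinset]
    intro r
    have h1 := congrFun (hF i hi) r
    rw [Int.floor_eq_iff] at h1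
    have h2 : (w r : ℝ) / (B : ℝ) ^ m ≤ (θ i).foot r := by
      rw [div_le_iff₀ hP]
      linarith [h1.1]
    have h3 : (θ i).foot r < (w r : ℝ) / (B : ℝ) ^ m + 1 / (B : ℝ) ^ m := by
      rw [← add_div, lt_div_iff₀ hP]
      linarith [h1.2]
    rw [Finset.mem_Icc]
    unfold cell
    constructor
    · exact Int.floor_le_floor (mul_le_mul_of_nonneg_left h2 hN0.le)
    · have h4 : N * (θ i).foot r < N * ((w r : ℝ) / (B : ℝ) ^ m) + B := by
        have h5 : N * (1 / (B : ℝ) ^ m) ≤ B := by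
          rw [mul_one_div, div_le_iff₀ hP]
          calc N ≤ (B : ℝ) ^ (m + 1) := hN2
            _ = B * (B : ℝ) ^ m := by ring
        have h6 := mul_lt_mul_of_pos_left h3 hN0
        linarith
      have h7 : ⌊N * (θ i).foot r⌋ < ⌊N * ((w r : ℝ) / (B : ℝ) ^ m)⌋ + B + 1 := by
        rw [Int.floor_lt]
        push_cast
        have := Int.lt_floor_add_one (N * ((w r : ℝ) / (B : ℝ) ^ m))
        linarith
      omega
  have h1 := Finset.card_le_mul_card_image_of_maps_to hmaps K (fun z _ =>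
    hov z _ fun i hi => (Finset.mem_filter.1 hi).2)
  rw [Fintype.card_piFinset] at h1
  have h2 : ∀ r : Fin d, (Finset.Icc ⌊N * ((w r : ℝ) / (B : ℝ) ^ m)⌋
      (⌊N * ((w r : ℝ) / (B : ℝ) ^ m)⌋ + B)).card = B + 1 := by
    intro r
    rw [Int.card_Icc]
    omega
  rw [Finset.prod_congr rfl fun r _ => h2 r, Finset.prod_const, Finset.card_univ,
    Fintype.card_fin] at h1
  exact h1

/-- representatives of the direction cells of level `m` in `F`. -/
private theorem ktd_rep {B d : ℕ} (hB : 2 ≤ B) (K m : ℕ) {N : ℝ} (hN1 : (B : ℝ) ^ m ≤ N)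
    (hN2 : N ≤ (B : ℝ) ^ (m + 1)) {ι : Type} [Fintype ι] (θ : ι → Cap d)
    (hov : ∀ (z : Fin d → ℤ) (s : Finset ι), (∀ i ∈ s, cell N (θ i) = z) → s.card ≤ K)
    (F : Finset ι) : ∃ S : Finset ι, S ⊆ F ∧
      (∀ i ∈ S, ∀ j ∈ S, (∀ r, ⌊(B : ℝ) ^ m * (θ i).foot r⌋ = ⌊(B : ℝ) ^ m * (θ j).foot r⌋) → i = j) ∧
      F.card ≤ K * (B + 1) ^ d * S.card := by
  classical
  obtain ⟨f, hf⟩ : ∃ f : ι → Fin d → ℤ, f = fun i r => ⌊(B : ℝ) ^ m * (θ i).foot r⌋ := ⟨_, rfl⟩
  have hsurj : Set.SurjOn f (F : Set ι) ((F.image f : Finset (Fin d → ℤ)) : Set (Fin d → ℤ)) := by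
    intro y hy
    rw [Finset.coe_image] at hy
    exact hy
  obtain ⟨S, hSF, hinj, himg⟩ := Finset.exists_subset_injOn_image_eq_of_surjOn _ _ hsurj
  refine ⟨S, by exact_mod_cast hSF, ?_, ?_⟩
  · intro i hi j hj h
    refine hinj (by exact_mod_cast hi) (by exact_mod_cast hj) ?_
    rw [hf]
    funext r
    exact h r
  · have h1 : F.card ≤ K * (B + 1) ^ d * (F.image f).card := by
      refine Finset.card_le_mul_card_image _ _ ?_
      intro w _
      refine ktd_cell hB K m hN1 hN2 θ hov w _ ?_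
      intro i hi
      have := (Finset.mem_filter.1 hi).2
      rw [hf] at this
      exact this
    rw [← himg, Finset.card_image_of_injOn hinj] at h1
    exact h1

open Classical in
theorem inj_tubes {B d : ℕ} (hB : 2 ≤ B) (hd : 1 ≤ d) (K : ℕ) {A ε : ℝ} (hA : 1 ≤ A) (hε : 0 < ε) :
    ∃ η C : ℝ, 0 < η ∧ ∀ (m : ℕ) (N : ℝ), (B : ℝ) ^ m ≤ N → N ≤ (B : ℝ) ^ (m + 1) →
      ∀ (ι : Type) [Fintype ι] (θ : ι → Cap d) (x : ι → Sp d),
      (∀ (z : Fin d → ℤ) (s : Finset ι), (∀ i ∈ s, cell N (θ i) = z) → s.card ≤ K) →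
      ((∑ k ∈ range m, (univ.filter fun i => ¬ LocInj B A N θ x k i).card : ℕ) : ℝ) ≤
        η * m * Fintype.card ι →
      ∑ i, volume (tube N (θ i) (x i)) ≤
        ENNReal.ofReal (C * N ^ ε) * volume (⋃ i, tube N (θ i) (x i)) := by
  obtain ⟨c, η1, m0, hc, hη1, hslab⟩ := slab_inj (B := B) (d := d) hB hd hA hε
  have hB2 : (2 : ℝ) ≤ B := by exact_mod_cast hB
  have hB0 : (0 : ℝ) < B := by linarith
  have hB1 : (1 : ℝ) ≤ B := by linarith
  obtain ⟨K', hK'⟩ : ∃ K' : ℕ, K' = K * (B + 1) ^ d := ⟨_, rfl⟩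
  refine ⟨η1 / (2 * (K' + 1)), max (K * (4 * (B : ℝ) ^ m0) ^ d) (2 * (K' + 1) / c), by positivity, ?_⟩
  intro m N hN1 hN2 ι _ θ x hov hbad
  have hNB : (1 : ℝ) ≤ (B : ℝ) ^ m := one_le_pow₀ hB1
  have hN : 1 ≤ N := hNB.trans hN1
  have hN0 : 0 < N := by linarith
  have hNε : 1 ≤ N ^ ε := Real.one_le_rpow hN hε.le
  have hsum : ∑ i, volume (tube N (θ i) (x i)) =
      ENNReal.ofReal (Fintype.card ι * N ^ (d + 2)) := by
    simp_rw [volume_tube hN0.le]
    rw [Finset.sum_const, Finset.card_univ, nsmul_eq_mul, ← ENNReal.ofReal_natCast,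
      ← ENNReal.ofReal_mul (Nat.cast_nonneg _)]
  rcases isEmpty_or_nonempty ι with hem | hne
  · rw [Finset.univ_eq_empty, Finset.sum_empty]
    exact zero_le
  obtain ⟨j0⟩ := hne
  rcases lt_or_ge m m0 with hm | hm
  · -- small scales
    have h1 : (Fintype.card ι : ℝ) ≤ K * (4 * N) ^ d := card_le hN θ hov
    have h2 : N ≤ (B : ℝ) ^ m0 := hN2.trans (pow_le_pow_right₀ hB1 hm)
    have h3 : (Fintype.card ι : ℝ) ≤ max (K * (4 * (B : ℝ) ^ m0) ^ d) (2 * (K' + 1) / c) * N ^ ε := by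
      calc (Fintype.card ι : ℝ) ≤ K * (4 * N) ^ d := h1
        _ ≤ K * (4 * (B : ℝ) ^ m0) ^ d := by gcongr
        _ ≤ max (K * (4 * (B : ℝ) ^ m0) ^ d) (2 * (K' + 1) / c) := le_max_left _ _
        _ ≤ max (K * (4 * (B : ℝ) ^ m0) ^ d) (2 * (K' + 1) / c) * N ^ ε := by
            refine le_mul_of_one_le_right ?_ hNε
            exact le_max_of_le_left (by positivity)
    have h4 : volume (tube N (θ j0) (x j0)) ≤ volume (⋃ i, tube N (θ i) (x i)) :=
      measure_mono (Set.subset_iUnion (fun i => tube N (θ i) (x i)) j0)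
    rw [hsum, ENNReal.ofReal_mul (Nat.cast_nonneg _)]
    rw [volume_tube hN0.le] at h4
    gcongr
  · -- large scales
    obtain ⟨q, hq⟩ : ∃ q : ι → ℤ, q = fun i => ⌊15 * x i (Fin.last d) / N ^ 2⌋ := ⟨_, rfl⟩
    obtain ⟨c0, hc0⟩ : ∃ c0 : ℤ → ℝ, c0 = (fun a : ℤ => ((a : ℝ) + 1 / 2) * N ^ 2 / 15) := ⟨_, rfl⟩
    have hNsq : 0 < N ^ 2 := by positivity
    have hcq : ∀ i, |x i (Fin.last d) - c0 (q i)| ≤ N ^ 2 / 30 := by
      intro i
      have h1 := Int.floor_le (15 * x i (Fin.last d) / N ^ 2)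
      have h2 := Int.lt_floor_add_one (15 * x i (Fin.last d) / N ^ 2)
      rw [le_div_iff₀ hNsq] at h1
      rw [div_lt_iff₀ hNsq] at h2
      rw [hq, hc0, abs_le]
      simp only
      constructor <;> linarith
    choose S hSF hSinj hScard using fun a : ℤ => ktd_rep hB K m hN1 hN2 θ hov
      (univ.filter fun i => q i = a)
    rw [← hK'] at hScard
    obtain ⟨Qs, hQs⟩ : ∃ Qs : Finset ℤ, Qs = univ.image q := ⟨_, rfl⟩
    have hSq : ∀ a, ∀ i ∈ S a, q i = a := fun a i hi => (Finset.mem_filter.1 (hSF a hi)).2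
    -- bad pairs
    obtain ⟨b, hb⟩ : ∃ b : ℤ → ℕ, b = fun a => ∑ k ∈ range m,
      ((S a).filter fun i => ¬ LocInj B A N θ x k i).card := ⟨_, rfl⟩
    have hbsum : ∑ a ∈ Qs, b a ≤ ∑ k ∈ range m, (univ.filter fun i => ¬ LocInj B A N θ x k i).card := by
      rw [hb]
      simp only
      rw [Finset.sum_comm]
      refine Finset.sum_le_sum fun k _ => ?_
      rw [← Finset.card_biUnion]
      · refine Finset.card_le_card ?_
        intro i hi
        rw [Finset.mem_biUnion] at hi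
        obtain ⟨a, _, hi⟩ := hi
        rw [Finset.mem_filter] at hi ⊢
        exact ⟨Finset.mem_univ _, hi.2⟩
      · intro a _ a' _ haa'
        rw [Function.onFun, Finset.disjoint_left]
        intro i hi hi'
        exact haa' ((hSq a i (Finset.mem_filter.1 hi).1).symm.trans
          (hSq a' i (Finset.mem_filter.1 hi').1))
    -- total number of representatives
    have htot : Fintype.card ι ≤ K' * ∑ a ∈ Qs, (S a).card := by
      have h1 : Fintype.card ι = ∑ a ∈ Qs, (univ.filter fun i => q i = a).card := by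
        rw [← Finset.card_univ]
        refine Finset.card_eq_sum_card_fiberwise ?_
        intro i _
        rw [hQs]
        exact_mod_cast Finset.mem_image_of_mem q (Finset.mem_univ i)
      rw [h1, Finset.mul_sum]
      exact Finset.sum_le_sum fun a _ => hScard a
    -- good classes
    obtain ⟨G, hG⟩ : ∃ G : Finset ℤ, G = Qs.filter fun a => (b a : ℝ) ≤ η1 * m * (S a).card := ⟨_, rfl⟩
    have hcardpos : (0 : ℝ) < Fintype.card ι := by
      exact_mod_cast Fintype.card_pos_iff.2 ⟨j0⟩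
    have hbadtot : ((∑ a ∈ Qs.filter (fun a => ¬ (b a : ℝ) ≤ η1 * m * (S a).card),
        (S a).card : ℕ) : ℝ) ≤ Fintype.card ι / (2 * (K' + 1)) := by
      rcases Nat.eq_zero_or_pos m with hm0 | hm0
      · have h1 : Qs.filter (fun a => ¬ (b a : ℝ) ≤ η1 * m * (S a).card) = ∅ := by
          rw [Finset.filter_eq_empty_iff]
          intro a _
          rw [not_not, hb, hm0]
          simp
        rw [h1, Finset.sum_empty]
        simp only [Nat.cast_zero]
        positivity
      · have hm1 : (0 : ℝ) < m := by exact_mod_cast hm0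
        have h1 : η1 * m * ((∑ a ∈ Qs.filter (fun a => ¬ (b a : ℝ) ≤ η1 * m * (S a).card),
            (S a).card : ℕ) : ℝ) ≤ η1 / (2 * (K' + 1)) * m * Fintype.card ι := by
          calc η1 * m * ((∑ a ∈ Qs.filter (fun a => ¬ (b a : ℝ) ≤ η1 * m * (S a).card),
            (S a).card : ℕ) : ℝ) = ∑ a ∈ Qs.filter (fun a => ¬ (b a : ℝ) ≤ η1 * m * (S a).card),
              η1 * m * ((S a).card : ℝ) := by
                push_cast
                rw [Finset.mul_sum]
            _ ≤ ∑ a ∈ Qs.filter (fun a => ¬ (b a : ℝ) ≤ η1 * m * (S a).card), (b a : ℝ) := by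
                refine Finset.sum_le_sum fun a ha => ?_
                exact (not_le.1 (Finset.mem_filter.1 ha).2).le
            _ ≤ ∑ a ∈ Qs, (b a : ℝ) := by
                refine Finset.sum_le_sum_of_subset_of_nonneg (Finset.filter_subset _ _) ?_
                intro a _ _
                positivity
            _ = ((∑ a ∈ Qs, b a : ℕ) : ℝ) := by push_cast; rfl
            _ ≤ ((∑ k ∈ range m, (univ.filter fun i => ¬ LocInj B A N θ x k i).card : ℕ) : ℝ) := by
                exact_mod_cast hbsum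
            _ ≤ _ := hbad
        have h2 : η1 * m * (Fintype.card ι / (2 * ((K' : ℝ) + 1))) =
            η1 / (2 * (K' + 1)) * m * Fintype.card ι := by
          ring
        rw [← h2] at h1
        exact le_of_mul_le_mul_left h1 (by positivity)
    have hgood : (Fintype.card ι : ℝ) / (2 * (K' + 1)) ≤ ((∑ a ∈ G, (S a).card : ℕ) : ℝ) := by
      have h1 : ((∑ a ∈ Qs, (S a).card : ℕ) : ℝ) = ((∑ a ∈ G, (S a).card : ℕ) : ℝ) +
          ((∑ a ∈ Qs.filter (fun a => ¬ (b a : ℝ) ≤ η1 * m * (S a).card), (S a).card : ℕ) : ℝ) := by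
        rw [hG, ← Nat.cast_add, Finset.sum_filter_add_sum_filter_not]
      have h2 : (Fintype.card ι : ℝ) ≤ K' * ((∑ a ∈ Qs, (S a).card : ℕ) : ℝ) := by
        exact_mod_cast htot
      have h3 : (Fintype.card ι : ℝ) / (K' + 1) ≤ ((∑ a ∈ Qs, (S a).card : ℕ) : ℝ) := by
        rw [div_le_iff₀ (by positivity)]
        have : (0 : ℝ) ≤ ((∑ a ∈ Qs, (S a).card : ℕ) : ℝ) := Nat.cast_nonneg _
        linarith
      have h4 : (Fintype.card ι : ℝ) / (K' + 1) = Fintype.card ι / (2 * (K' + 1)) +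
          Fintype.card ι / (2 * (K' + 1)) := by
        field_simp
        norm_num
      linarith
    -- slabs
    obtain ⟨U, hU⟩ : ∃ U : Set (Sp d), U = ⋃ i, tube N (θ i) (x i) := ⟨_, rfl⟩
    have hUm : MeasurableSet U := by
      rw [hU]
      exact MeasurableSet.iUnion fun i => measurableSet_tube _ _ _
    obtain ⟨sl, hsl⟩ : ∃ sl : ℤ → Set (Sp d), sl = fun a => {z | c0 a - N ^ 2 / 16 ≤ z (Fin.last d) ∧
      z (Fin.last d) ≤ c0 a} := ⟨_, rfl⟩
    have hslm : ∀ a, MeasurableSet (sl a) := by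
      intro a
      rw [hsl]
      have h1 : Continuous fun z : Sp d => z (Fin.last d) := by fun_prop
      exact ((isClosed_le continuous_const h1).inter (isClosed_le h1 continuous_const)).measurableSet
    have hsld : ∀ a a', a < a' → Disjoint (sl a) (sl a') := by
      intro a a' haa'
      rw [Set.disjoint_left]
      intro z hz hz'
      rw [hsl] at hz hz'
      simp only [Set.mem_ofPred_eq] at hz hz'
      rw [hc0] at hz hz'
      simp only at hz hz'
      have h1 : (a : ℝ) + 1 ≤ a' := by exact_mod_cast haa'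
      have h2 := hz.2
      have h3 := hz'.1
      nlinarith
    have hcls : ∀ a ∈ G, ENNReal.ofReal (c * (S a).card * N ^ (d + 2) * (B : ℝ) ^ (-(ε * m))) ≤
        volume (U ∩ sl a) := by
      intro a ha
      rw [hG, Finset.mem_filter] at ha
      have h1 := hslab m hm N hN1 {i // i ∈ S a} (fun i => θ i.1) (fun i => x i.1) (c0 a)
        (fun i => by
          have := hcq i.1
          rwa [hSq a i.1 i.2] at this)
        (fun i j h => Subtype.ext (hSinj a i.1 i.2 j.1 j.2 h)) ?_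
      · rw [Fintype.card_coe] at h1
        refine h1.trans (measure_mono ?_)
        rw [hU, hsl]
        refine Set.inter_subset_inter_left _ ?_
        intro z hz
        rw [Set.mem_iUnion] at hz ⊢
        obtain ⟨i, hi⟩ := hz
        exact ⟨i.1, hi⟩
      · rw [Fintype.card_coe]
        refine le_trans ?_ ha.2
        rw [hb]
        simp only
        have h2 : ∀ k ∈ range m, (univ.filter fun i : {i // i ∈ S a} =>
            ¬ LocInj B A N (fun i : {i // i ∈ S a} => θ i.1) (fun i => x i.1) k i).card ≤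
            ((S a).filter fun i => ¬ LocInj B A N θ x k i).card := by
          intro k _
          rw [← Finset.card_map (Function.Embedding.subtype _)]
          refine Finset.card_le_card ?_
          intro i hi
          rw [Finset.mem_map] at hi
          obtain ⟨j, hj, rfl⟩ := hi
          rw [Finset.mem_filter] at hj ⊢
          refine ⟨j.2, fun h => hj.2 ?_⟩
          intro j' h3 h4
          exact h j'.1 h3 h4
        exact_mod_cast Finset.sum_le_sum h2
    have hvol : ENNReal.ofReal (c * ((∑ a ∈ G, (S a).card : ℕ) : ℝ) * N ^ (d + 2) *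
        (B : ℝ) ^ (-(ε * m))) ≤ volume U := by
      calc ENNReal.ofReal (c * ((∑ a ∈ G, (S a).card : ℕ) : ℝ) * N ^ (d + 2) *
            (B : ℝ) ^ (-(ε * m))) =
            ∑ a ∈ G, ENNReal.ofReal (c * (S a).card * N ^ (d + 2) * (B : ℝ) ^ (-(ε * m))) := by
              rw [← ENNReal.ofReal_sum_of_nonneg (fun a _ => by positivity)]
              congr 1
              push_cast
              rw [Finset.mul_sum, Finset.sum_mul, Finset.sum_mul]
        _ ≤ ∑ a ∈ G, volume (U ∩ sl a) := Finset.sum_le_sum hcls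
        _ = volume (⋃ a ∈ G, U ∩ sl a) := by
              rw [measure_biUnion_finset]
              · intro a _ a' _ haa'
                rw [Function.onFun]
                rcases lt_or_gt_of_ne haa' with h | h
                · exact (hsld a a' h).mono Set.inter_subset_right Set.inter_subset_right
                · exact (hsld a' a h).symm.mono Set.inter_subset_right Set.inter_subset_right
              · intro a _
                exact hUm.inter (hslm a)
        _ ≤ volume U := by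
              refine measure_mono ?_
              intro z hz
              simp only [Set.mem_iUnion] at hz
              obtain ⟨a, _, hz⟩ := hz
              exact hz.1
    rw [hsum, ← hU]
    have hBε : (B : ℝ) ^ (-(ε * m)) * ((B : ℝ) ^ m) ^ ε = 1 := by
      rw [← Real.rpow_natCast (B : ℝ) m, ← Real.rpow_mul hB0.le, ← Real.rpow_add hB0]
      have : -(ε * (m : ℝ)) + (m : ℝ) * ε = 0 := by ring
      rw [this, Real.rpow_zero]
    have hNB : ((B : ℝ) ^ m) ^ ε ≤ N ^ ε := Real.rpow_le_rpow (by positivity) hN1 hε.le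
    have hkey : (Fintype.card ι : ℝ) * N ^ (d + 2) ≤
        (max (K * (4 * (B : ℝ) ^ m0) ^ d) (2 * (K' + 1) / c) * N ^ ε) *
        (c * ((∑ a ∈ G, (S a).card : ℕ) : ℝ) * N ^ (d + 2) * (B : ℝ) ^ (-(ε * m))) := by
      obtain ⟨g, hg⟩ : ∃ g : ℝ, g = ((∑ a ∈ G, (S a).card : ℕ) : ℝ) := ⟨_, rfl⟩
      rw [← hg] at hgood ⊢
      have hg0 : 0 ≤ g := le_trans (by positivity) hgood
      have h1 : (Fintype.card ι : ℝ) ≤ 2 * (K' + 1) * g := by
        rw [div_le_iff₀ (by positivity)] at hgood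
        linarith
      calc (Fintype.card ι : ℝ) * N ^ (d + 2) ≤ (2 * (K' + 1) * g) * N ^ (d + 2) := by gcongr
        _ = (2 * (K' + 1) / c * ((B : ℝ) ^ m) ^ ε) *
            (c * g * N ^ (d + 2) * (B : ℝ) ^ (-(ε * m))) := by
            have h2 : (2 * ((K' : ℝ) + 1) / c * ((B : ℝ) ^ m) ^ ε) *
              (c * g * N ^ (d + 2) * (B : ℝ) ^ (-(ε * m))) = (2 * ((K' : ℝ) + 1) / c * c) * g *
                N ^ (d + 2) * ((B : ℝ) ^ (-(ε * m)) * ((B : ℝ) ^ m) ^ ε) := by ring
            rw [h2, hBε, div_mul_cancel₀ _ hc.ne']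
            ring
        _ ≤ _ := by
            gcongr
            exact le_max_right _ _
    refine (ENNReal.ofReal_le_ofReal hkey).trans ?_
    have hmx : (0 : ℝ) ≤ max (K * (4 * (B : ℝ) ^ m0) ^ d) (2 * (K' + 1) / c) * N ^ ε := by
      have : (0 : ℝ) ≤ max (K * (4 * (B : ℝ) ^ m0) ^ d) (2 * (K' + 1) / c) :=
        le_max_of_le_left (by positivity)
      positivity
    rw [ENNReal.ofReal_mul hmx]
    gcongr

end STK
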