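import Pool.Agent.Lib.MP_ac5134_an.Defs

/-!
# Position and direction cells of a family of tubes

`T_i` has centre `x i ∈ R^(d+1)` and foot (direction) `(θ i).foot ∈ R^d`.  Its position is measured by the
point where its axis meets the hyperplane `{z_n = N² h}`, `h = ⌊(x i)_n / N²⌋`, together with `h`.
-/

namespace STK
open Finset Pool.Agent.MPac5134

/-- The position of a tube with cap `θ` and centre `c`: the horizontal coordinates (divided by `N²`) of the
point where the axis `{c + t (-2ω, 1)}` meets the hyperplane `{z_n = N² h}`, `h = ⌊c_n / N²⌋`, and `h`. -/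
noncomputable def axisPos {d : ℕ} (N : ℝ) (θ : Cap d) (c : Sp d) : Fin (d + 1) → ℝ :=
  Fin.snoc (fun r : Fin d => (c r.castSucc +
    2 * (c (Fin.last d) - N ^ 2 * ⌊c (Fin.last d) / N ^ 2⌋) * θ.foot r) / N ^ 2)
    (⌊c (Fin.last d) / N ^ 2⌋ : ℝ)

/-- The position cell of level `k`: `⌊B^k (axisPos)⌋`. -/
noncomputable def posCell {d : ℕ} (B : ℕ) (N : ℝ) (k : ℕ) (θ : Cap d) (c : Sp d) :
    Fin (d + 1) → ℤ :=
  fun r => ⌊(B : ℝ) ^ k * axisPos N θ c r⌋

/-- The direction cell `⌊B^k ω⌋` of level `k` of a cap with foot `ω`. -/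
noncomputable def dirCell {d : ℕ} (B k : ℕ) (θ : Cap d) : Fin d → ℤ :=
  fun r => ⌊(B : ℝ) ^ k * θ.foot r⌋

section
variable {ι : Type*} [Fintype ι] {d : ℕ}

open Classical in
/-- The number of tubes with the same position cell and the same direction cell of level `k` as `T_i`. -/
noncomputable def numSame (B : ℕ) (N : ℝ) (θ : ι → Cap d) (x : ι → Sp d) (k : ℕ) (i : ι) : ℕ :=
  (univ.filter fun j => posCell B N k (θ j) (x j) = posCell B N k (θ i) (x i) ∧
    dirCell B k (θ j) = dirCell B k (θ i)).card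

open Classical in
/-- The number of tubes with the same position cell of level `k` and the same direction cell of level
`k + 1` as `T_i`. -/
noncomputable def numClass (B : ℕ) (N : ℝ) (θ : ι → Cap d) (x : ι → Sp d) (k : ℕ) (i : ι) : ℕ :=
  (univ.filter fun j => posCell B N k (θ j) (x j) = posCell B N k (θ i) (x i) ∧
    dirCell B (k + 1) (θ j) = dirCell B (k + 1) (θ i)).card

open Classical in
/-- `M_k(i)`: the number of different position cells of level `k + 1` of the tubes with the same position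
cell of level `k` and the same direction cell of level `k + 1` as `T_i`. -/
noncomputable def numPos (B : ℕ) (N : ℝ) (θ : ι → Cap d) (x : ι → Sp d) (k : ℕ) (i : ι) : ℕ :=
  ((univ.filter fun j => posCell B N k (θ j) (x j) = posCell B N k (θ i) (x i) ∧
    dirCell B (k + 1) (θ j) = dirCell B (k + 1) (θ i)).image
      fun j => posCell B N (k + 1) (θ j) (x j)).card

open Classical in
/-- `S_k(i)`: the number of different position cells of level `k` of the tubes with the same direction cell
of level `k` as `T_i`. -/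
noncomputable def numStick (B : ℕ) (N : ℝ) (θ : ι → Cap d) (x : ι → Sp d) (k : ℕ) (i : ι) : ℕ :=
  ((univ.filter fun j => dirCell B k (θ j) = dirCell B k (θ i)).image
      fun j => posCell B N k (θ j) (x j)).card

/-- The factor of `T_i`: the number of tubes in its cell of level `m` times the product over `k < m` of the
number of tubes in its class at level `k` divided by the number of those that stay in the same cell. -/
noncomputable def factor (B : ℕ) (N : ℝ) (θ : ι → Cap d) (x : ι → Sp d) (m : ℕ) (i : ι) : ℝ :=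
  numSame B N θ x m i * ∏ k ∈ range m, ((numClass B N θ x k i : ℝ) / numSame B N θ x (k + 1) i)

/-- The factor of `T_i`: the number of tubes in its cell of level `m` times `∏_{k<m} M_k(i)`. -/
noncomputable def factorPos (B : ℕ) (N : ℝ) (θ : ι → Cap d) (x : ι → Sp d) (m : ℕ) (i : ι) : ℝ :=
  numSame B N θ x m i * ∏ k ∈ range m, (numPos B N θ x k i : ℝ)

end

open MeasureTheory in
/-- `∑ |T_i| exp (mean of G over T_i) / D_i` -/
noncomputable def meanSum {ι : Type*} [Fintype ι] {d : ℕ} (N : ℝ) (θ : ι → Cap d) (x : ι → Sp d)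
    (G : Sp d → ℝ) (D : ι → ℝ) : ENNReal :=
  ∑ i, ENNReal.ofReal (Real.exp (⨍ z in tube N (θ i) (x i), G z) / D i) *
    volume (tube N (θ i) (x i))

open MeasureTheory in
/-- `exp (mean over i of the means of G over T_i) ∑ |T_i|` -/
noncomputable def meanAll {ι : Type*} [Fintype ι] {d : ℕ} (N : ℝ) (θ : ι → Cap d) (x : ι → Sp d)
    (G : Sp d → ℝ) : ENNReal :=
  ENNReal.ofReal (Real.exp ((∑ i, ⨍ z in tube N (θ i) (x i), G z) / Fintype.card ι)) *
    ∑ i, volume (tube N (θ i) (x i))

open MeasureTheory in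
/-- `∫ e^G` over the union of the tubes -/
noncomputable def expInt {ι : Type*} {d : ℕ} (N : ℝ) (θ : ι → Cap d) (x : ι → Sp d)
    (G : Sp d → ℝ) : ENNReal :=
  ∫⁻ z in ⋃ i, tube N (θ i) (x i), ENNReal.ofReal (Real.exp (G z))

/-- at most `K` of the caps have their foot in one cell of the grid `(1/N) Z^d` -/
def FewFeet {ι : Type*} {d : ℕ} (K : ℕ) (N : ℝ) (θ : ι → Cap d) : Prop :=
  ∀ (z : Fin d → ℤ) (s : Finset ι), (∀ i ∈ s, cell N (θ i) = z) → s.card ≤ K

/-- The geometric mean. -/
noncomputable def gmean {ι : Type*} [Fintype ι] (f : ι → ℝ) : ℝ :=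
  (∏ i, f i) ^ ((Fintype.card ι : ℝ)⁻¹)

/-- the unit vector in the direction of `(-2ω, 1)` -/
noncomputable def dirVec {d : ℕ} (ω : Fin d → ℝ) : Sp d := ‖normalVec ω‖⁻¹ • normalVec ω

/-- The position of the line through `a` in the direction `(-2ω, 1)`: the horizontal coordinates of the point where
it meets the hyperplane `{x_n = h}`, `h = ⌊a_n⌋`, and `h`. -/
noncomputable def linePos {d : ℕ} (ω : Fin d → ℝ) (a : Sp d) : Fin (d + 1) → ℝ :=
  Fin.snoc (fun r : Fin d => a r.castSucc + 2 * (a (Fin.last d) - ⌊a (Fin.last d)⌋) * ω r)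
    (⌊a (Fin.last d)⌋ : ℝ)

/-- For every `k` and `w` the lines with directions `ω ∈ A`, `⌊B^k ω⌋ = w`, through the points `a ω` have at most `K'`
different cells `⌊B^k linePos⌋`. -/
def StickyLines {d : ℕ} (B K' : ℕ) (A : Set (Fin d → ℝ)) (a : (Fin d → ℝ) → Sp d) : Prop :=
  ∀ (k : ℕ) (w : Fin d → ℤ), ((fun ω (r : Fin (d + 1)) => ⌊(B : ℝ) ^ k * linePos ω (a ω) r⌋) ''
    {ω ∈ A | (fun r => ⌊(B : ℝ) ^ k * ω r⌋) = w}).encard ≤ K'

end STK
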