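import Pool.Agent.Lib.MP_ac5134_an.STK.KLocE
import Pool.Agent.Lib.MP_ac5134_an.STK.KTubC
import Pool.Agent.Lib.MP_ac5134_an.STK.MDefs

/-!
# STK-KWinA: the entropy inequality in a window of heights, all weights

`win_ent`: heights `h = c0 + λ N² (k + τ) / (2 Q)`, `k < Q`; for every probability weight `p` on the tubes
whose support has its centres at height `c0 + O(N²)` the average over `k` of `H(V_m | axis cell at height h)` is at
most `ε m log B + C + ∑_{k<m} H(P_{k+1} | P_k, D_{k+1})` (`locEnt`).  `loc_ent` with `Z = (axisPos, foot)` and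
`Y = (axis at height c0, foot)` (clipped outside the support).
-/

namespace STK
open Finset RFold Filter Topology MeasureTheory Pool.Agent.MPac5134 Pool.Agent.MPac5134.Lip

/-- the cell of level `m` of the point where the axis has height `h` -/
noncomputable def axCell {d : ℕ} (B : ℕ) (N : ℝ) (m : ℕ) (θ : Cap d) (c : Sp d) (h : ℝ) :
    Fin d → ℤ :=
  fun r => ⌊(B : ℝ) ^ m * ((c r.castSucc - 2 * (h - c (Fin.last d)) * θ.foot r) / N ^ 2)⌋

/-- the position and direction cell of level `m` -/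
noncomputable def Vc {d : ℕ} (B : ℕ) (N : ℝ) (m : ℕ) (θ : Cap d) (c : Sp d) :
    (Fin (d + 1) → ℤ) × (Fin d → ℤ) := (posCell B N m θ c, dirCell B m θ)

/-- the local entropy `H(P_{k+1} | P_k, D_{k+1})` of a weight `p` (`P`, `D` the position and direction cells) -/
noncomputable def locEnt {ι : Type} [Fintype ι] {d : ℕ} (B : ℕ) (N : ℝ) (θ : ι → Cap d)
    (x : ι → Sp d) (p : ι → ℝ) (k : ℕ) : ℝ :=
  cent p (fun i => posCell B N (k + 1) (θ i) (x i))
    (fun i => (posCell B N k (θ i) (x i), dirCell B (k + 1) (θ i)))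

private theorem win_foot {d : ℕ} (θ : Cap d) (r : Fin d) : |θ.foot r| ≤ 1 := by
  have h1 := θ.foot_mem
  have h2 : θ.foot r ^ 2 ≤ ∑ i_1, θ.foot i_1 ^ 2 :=
    Finset.single_le_sum (f := fun r => θ.foot r ^ 2) (fun _ _ => sq_nonneg _) (Finset.mem_univ r)
  rw [← sq_le_one_iff_abs_le_one]
  linarith

private theorem cnt_int (S : Finset ℕ) (a b : ℝ) (hab : a ≤ b) (h : ∀ k ∈ S, a ≤ (k : ℝ) ∧ (k : ℝ) ≤ b) :
    (S.card : ℝ) ≤ b - a + 1 := by
  have h1 : S.image (fun k : ℕ => (k : ℤ)) ⊆ Finset.Icc ⌈a⌉ ⌊b⌋ := by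
    intro z hz
    rw [Finset.mem_image] at hz
    obtain ⟨k, hk, rfl⟩ := hz
    obtain ⟨h2, h3⟩ := h k hk
    rw [Finset.mem_Icc]
    constructor
    · rw [Int.ceil_le]; exact_mod_cast h2
    · rw [Int.le_floor]; exact_mod_cast h3
  have h2 : S.card ≤ (Finset.Icc ⌈a⌉ ⌊b⌋).card := by
    rw [← Finset.card_image_of_injective S (f := fun k : ℕ => (k : ℤ)) Nat.cast_injective]
    exact Finset.card_le_card h1
  rw [Int.card_Icc] at h2
  have h3 : ((⌊b⌋ + 1 - ⌈a⌉).toNat : ℝ) ≤ b - a + 1 := by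
    rcases le_total (⌊b⌋ + 1 - ⌈a⌉) 0 with h4 | h4
    · rw [Int.toNat_of_nonpos h4]
      push_cast
      linarith
    · have h5 : (((⌊b⌋ + 1 - ⌈a⌉).toNat : ℤ) : ℝ) = ((⌊b⌋ + 1 - ⌈a⌉ : ℤ) : ℝ) := by
        rw [Int.toNat_of_nonneg h4]
      have h6 : ((⌊b⌋ + 1 - ⌈a⌉).toNat : ℝ) = ((⌊b⌋ + 1 - ⌈a⌉ : ℤ) : ℝ) := by
        rw [← h5]; norm_cast
      rw [h6]
      push_cast
      have h7 := Int.floor_le b
      have h8 := Int.le_ceil a
      linarith
  have h9 : (S.card : ℝ) ≤ ((⌊b⌋ + 1 - ⌈a⌉).toNat : ℝ) := by exact_mod_cast h2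
  linarith

theorem win_hts {lam : ℝ} (hl : 0 < lam) (hl1 : lam ≤ 1) {Q : ℕ} (hQ : 1 ≤ Q) {τ : ℝ}
    (h0 : 0 ≤ τ) (h1 : τ ≤ 1) :
    IsHts (fun j => (2 / lam + 1) / (j : ℝ)) Q (fun _ : Fin Q => 1 / (Q : ℝ))
      (fun k => -(lam * (((k : ℕ) + τ) / Q))) := by
  classical
  have hQ0 : (0 : ℝ) < Q := by exact_mod_cast hQ
  refine ⟨⟨fun _ => by positivity, ?_⟩, ?_, ?_⟩
  · simp [Finset.sum_const]
    field_simp
  · intro k
    have h2 : ((k : ℕ) : ℝ) + 1 ≤ Q := by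
      have := k.2
      exact_mod_cast this
    have h3 : (0 : ℝ) ≤ ((k : ℕ) : ℝ) := Nat.cast_nonneg _
    have h4 : (((k : ℕ) : ℝ) + τ) / Q ≤ 1 := by
      rw [div_le_one hQ0]
      linarith
    have h5 : 0 ≤ (((k : ℕ) : ℝ) + τ) / Q := by positivity
    rw [abs_neg, abs_of_nonneg (by positivity)]
    nlinarith
  · intro j hj hjQ t
    have hj0 : (0 : ℝ) < j := by exact_mod_cast hj
    have hjQ' : (j : ℝ) ≤ Q := by exact_mod_cast hjQ
    unfold pr
    rw [← Finset.sum_filter, Finset.sum_const, nsmul_eq_mul]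
    set S : Finset (Fin Q) := Finset.univ.filter
      (fun k : Fin Q => (j : ℝ) * |-(lam * ((((k : ℕ) : ℝ) + τ) / Q)) - t| ≤ 1) with hS
    have hcard : S.card = (S.map Fin.valEmbedding).card := by rw [Finset.card_map]
    have h2 : ((S.map Fin.valEmbedding).card : ℝ) ≤
        (Q / lam * (-t + 1 / j) - τ) - (Q / lam * (-t - 1 / j) - τ) + 1 := by
      refine cnt_int _ _ _ ?_ ?_
      · have : (0 : ℝ) ≤ Q / lam * (1 / j) := by positivity
        nlinarith
      · intro k hk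
        rw [Finset.mem_map] at hk
        obtain ⟨k', hk', rfl⟩ := hk
        rw [hS, Finset.mem_filter] at hk'
        have h3 := hk'.2
        have h4 : |-(lam * ((((k' : ℕ) : ℝ) + τ) / Q)) - t| ≤ 1 / j := by
          rw [le_div_iff₀ hj0, mul_comm]
          exact h3
        rw [abs_le] at h4
        have h5 : lam * ((((k' : ℕ) : ℝ) + τ) / Q) * (Q / lam) = ((k' : ℕ) : ℝ) + τ := by
          field_simp
        have h8 : (0 : ℝ) < Q / lam := by positivity
        have h6 := mul_le_mul_of_nonneg_right h4.1 h8.le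
        have h7 := mul_le_mul_of_nonneg_right h4.2 h8.le
        have h5' : -(lam * ((((k' : ℕ) : ℝ) + τ) / Q)) * (Q / lam) = -(((k' : ℕ) : ℝ) + τ) := by
          rw [neg_mul, h5]
        rw [sub_mul, h5'] at h6 h7
        simp only [Fin.valEmbedding_apply]
        constructor
        · nlinarith
        · nlinarith
    have h3 : (Q / lam * (-t + 1 / j) - τ) - (Q / lam * (-t - 1 / j) - τ) + 1 =
        2 / lam * Q / j + 1 := by
      field_simp
      ring
    rw [h3, ← hcard] at h2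
    calc (S.card : ℝ) * (1 / Q) ≤ (2 / lam * Q / j + 1) * (1 / Q) := by gcongr
      _ = 2 / lam / j + 1 / Q := by field_simp
      _ ≤ 2 / lam / j + 1 / j := by gcongr
      _ = (2 / lam + 1) / j := by ring

private theorem clip_abs {K : ℝ} (hK : 0 ≤ K) (x : ℝ) : |max (-K) (min K x)| ≤ K := by
  rw [abs_le]
  exact ⟨le_max_left _ _, max_le (by linarith) (min_le_left _ _)⟩

private theorem clip_sub (K x y : ℝ) :
    |max (-K) (min K x) - max (-K) (min K y)| ≤ |x - y| := by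
  refine (abs_max_sub_max_le_max _ _ _ _).trans ?_
  rw [sub_self, abs_zero]
  refine max_le (abs_nonneg _) ?_
  refine (abs_min_sub_min_le_max _ _ _ _).trans ?_
  rw [sub_self, abs_zero]
  exact max_le (abs_nonneg _) le_rfl

private theorem clip_eq {K x : ℝ} (h : |x| ≤ K) : max (-K) (min K x) = x := by
  rw [abs_le] at h
  rw [min_eq_right h.2, max_eq_right h.1]

private theorem win_floor {y y' : ℝ} {D : ℕ} (h : y ≤ y' + D) : ⌊y⌋ ≤ ⌊y'⌋ + D := by
  have h1 : ⌊y⌋ ≤ ⌊y' + (D : ℝ)⌋ := Int.floor_le_floor h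
  rwa [Int.floor_add_natCast] at h1

section
variable {B d : ℕ} {N : ℝ} {ι : Type} {θ : ι → Cap d} {x : ι → Sp d}
  {Z : ι → Fin (d + 1 + d) → ℝ} {Y : ι → Co d → ℝ}

private theorem win_Xc (hZ1 : ∀ i (r : Fin (d + 1)), Z i (Fin.castAdd d r) = axisPos N (θ i) (x i) r)
    (hZ2 : ∀ i (r : Fin d), Z i (Fin.natAdd (d + 1) r) = (θ i).foot r) (q : ℕ) (i j : ι) :
    Xc B q 0 Z j = Xc B q 0 Z i ↔
      Vc B N q (θ j) (x j) = Vc B N q (θ i) (x i) := by
  unfold Vc
  rw [Prod.mk.injEq]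
  constructor
  · intro h
    refine ⟨funext fun r => ?_, funext fun r => ?_⟩
    · have e := congrFun h (Fin.castAdd d r)
      simpa only [posCell, Xc, Pi.zero_apply, add_zero, hZ1] using e
    · have e := congrFun h (Fin.natAdd (d + 1) r)
      simpa only [dirCell, Xc, Pi.zero_apply, add_zero, hZ2] using e
  · intro h
    funext r
    refine Fin.addCases (fun r => ?_) (fun r => ?_) r
    · simpa only [posCell, Xc, Pi.zero_apply, add_zero, hZ1] using congrFun h.1 r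
    · simpa only [dirCell, Xc, Pi.zero_apply, add_zero, hZ2] using congrFun h.2 r

private theorem win_Wc (hY2 : ∀ i (r : Fin d), Y i (Sum.inr r) = (θ i).foot r) (q : ℕ) (i : ι) :
    Wc B q Y i = dirCell B q (θ i) := by
  funext r
  simp only [dirCell, Wc, hY2]

/-- the local entropies -/
private theorem win_hloc [Fintype ι] {p : ι → ℝ} (hp : IsPr p)
    (hZ1 : ∀ i (r : Fin (d + 1)), Z i (Fin.castAdd d r) = axisPos N (θ i) (x i) r)
    (hZ2 : ∀ i (r : Fin d), Z i (Fin.natAdd (d + 1) r) = (θ i).foot r)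
    (hY2 : ∀ i (r : Fin d), Y i (Sum.inr r) = (θ i).foot r) (k : ℕ) :
    hloc B p Z Y k ≤ locEnt B N θ x p k := by
  unfold hloc locEnt
  refine cent_mono hp ?_ ?_
  · intro i j _ _ e
    simp only [Prod.mk.injEq, win_Wc hY2] at e
    rw [win_Xc hZ1 hZ2 (k + 1) j i]
    unfold Vc
    rw [Prod.mk.injEq]
    exact ⟨e.1, e.2.2⟩
  · intro i j _ _ e
    simp only [Prod.mk.injEq, win_Wc hY2] at e ⊢
    rw [win_Xc hZ1 hZ2 k j i] at e
    exact ⟨congrArg Prod.fst e.1, e.2⟩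

end

theorem axisPos_cast {d : ℕ} (N : ℝ) (θ : Cap d) (c : Sp d) (r : Fin d) :
    axisPos N θ c r.castSucc = (c r.castSucc +
      2 * (c (Fin.last d) - N ^ 2 * ⌊c (Fin.last d) / N ^ 2⌋) * θ.foot r) / N ^ 2 := by
  unfold axisPos
  rw [Fin.snoc_castSucc]

theorem axisPos_last {d : ℕ} (N : ℝ) (θ : Cap d) (c : Sp d) :
    axisPos N θ c (Fin.last d) = ⌊c (Fin.last d) / N ^ 2⌋ := by
  unfold axisPos
  rw [Fin.snoc_last]

/-- THE ENTROPY INEQUALITY IN A WINDOW. -/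
theorem win_ent {B d : ℕ} (hB : 2 ≤ B) {lam : ℝ} (hl : 0 < lam) (hl1 : lam ≤ 1) {ε : ℝ}
    (hε : 0 < ε) :
    ∃ (Q : ℕ) (C : ℝ), 1 ≤ Q ∧ 0 ≤ C ∧ ∀ (m : ℕ) (N : ℝ), 0 < N →
      ∀ (ι : Type) [Fintype ι] (θ : ι → Cap d) (x : ι → Sp d) (c0 : ℝ) (p : ι → ℝ), IsPr p →
      (∀ i, p i ≠ 0 → |x i (Fin.last d) - c0| ≤ (d / 2 + 2) * N ^ 2) →
      ∀ τ : ℝ, 0 ≤ τ → τ ≤ 1 →
      ∑ k : Fin Q, 1 / (Q : ℝ) * cent p (fun i => Vc B N m (θ i) (x i))
        (fun i => axCell B N m (θ i) (x i) (c0 + lam * N ^ 2 * (((k : ℕ) + τ) / Q) / 2)) ≤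
      ε * m * Real.log B + C + ∑ k ∈ range m, locEnt B N θ x p k := by
  have hφ : Tendsto (fun j : ℕ => (2 / lam + 1) / (j : ℝ)) atTop (𝓝 0) :=
    tendsto_const_div_atTop_nhds_zero_nat _
  have hBn : 0 < B := by omega
  have hB0 : (0 : ℝ) < B := by exact_mod_cast hBn
  have hB1 : (1 : ℝ) ≤ B := by exact_mod_cast (show 1 ≤ B by omega)
  have hlogB : 0 ≤ Real.log B := Real.log_nonneg hB1
  obtain ⟨K0, hK0⟩ : ∃ K0 : ℝ, K0 = d / 2 + 3 := ⟨_, rfl⟩
  have hK00 : 0 ≤ K0 := by rw [hK0]; positivity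
  obtain ⟨m0, hglob⟩ := loc_ent (B := B) (d := d) (e := d + 1 + d) hB (by omega)
    (C1 := 3 + 2 * K0) (by positivity) hφ hε
  obtain ⟨Q, hQd⟩ : ∃ Q : ℕ, Q = max m0 1 := ⟨_, rfl⟩
  have hQm : m0 ≤ Q := by rw [hQd]; exact le_max_left _ _
  have hQ1 : 1 ≤ Q := by rw [hQd]; exact le_max_right _ _
  have hQ0 : (0 : ℝ) < Q := by exact_mod_cast hQ1
  obtain ⟨D, hD⟩ : ∃ D : ℕ, D = 2 * d + 15 := ⟨_, rfl⟩
  obtain ⟨Cb, hCb⟩ : ∃ Cb : ℝ, Cb = ((d + 1 + d : ℕ) : ℝ) * Real.log (2 * D + 1) := ⟨_, rfl⟩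
  have hCb0 : 0 ≤ Cb := by
    rw [hCb]
    have : 0 ≤ Real.log (2 * (D : ℝ) + 1) := Real.log_nonneg (by
      have : (0 : ℝ) ≤ D := Nat.cast_nonneg D
      linarith)
    positivity
  refine ⟨Q, Cb + ((d + 1 + d : ℕ) : ℝ) * (m0 * Real.log B), hQ1, by positivity, ?_⟩
  intro m N hN ι _ θ x c0 p hp hx τ h0 h1
  have hN2 : 0 < N ^ 2 := by positivity
  obtain ⟨κ, hκ⟩ : ∃ κ : ι → ℝ, κ = fun i =>
    max (-K0) (min K0 ((⌊x i (Fin.last d) / N ^ 2⌋ : ℝ) - c0 / N ^ 2)) := ⟨_, rfl⟩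
  have hκK : ∀ i, |κ i| ≤ K0 := fun i => by
    rw [hκ]
    exact clip_abs hK00 _
  have hκs : ∀ i j, |κ i - κ j| ≤
      |(⌊x i (Fin.last d) / N ^ 2⌋ : ℝ) - (⌊x j (Fin.last d) / N ^ 2⌋ : ℝ)| := fun i j => by
    rw [hκ]
    refine (clip_sub K0 _ _).trans (le_of_eq ?_)
    congr 1
    ring
  have hκe : ∀ i, p i ≠ 0 → |(⌊x i (Fin.last d) / N ^ 2⌋ : ℝ) - c0 / N ^ 2| ≤ K0 := by
    intro i hi
    have e1 := hx i hi
    have e2 : |x i (Fin.last d) / N ^ 2 - c0 / N ^ 2| ≤ d / 2 + 2 := by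
      rw [← sub_div, abs_div, abs_of_pos hN2, div_le_iff₀ hN2]
      exact e1
    have e3 := Int.floor_le (x i (Fin.last d) / N ^ 2)
    have e4 := Int.lt_floor_add_one (x i (Fin.last d) / N ^ 2)
    rw [abs_le] at e2 ⊢
    rw [hK0]
    constructor <;> linarith [e2.1, e2.2]
  obtain ⟨Z, hZ⟩ : ∃ Z : ι → Fin (d + 1 + d) → ℝ, Z = fun i =>
    Fin.append (axisPos N (θ i) (x i)) (θ i).foot := ⟨_, rfl⟩
  have hZ1 : ∀ i (r : Fin (d + 1)), Z i (Fin.castAdd d r) = axisPos N (θ i) (x i) r := by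
    intro i r
    rw [hZ]
    exact Fin.append_left _ _ _
  have hZ2 : ∀ i (r : Fin d), Z i (Fin.natAdd (d + 1) r) = (θ i).foot r := by
    intro i r
    rw [hZ]
    exact Fin.append_right _ _ _
  obtain ⟨Y, hY⟩ : ∃ Y : ι → Co d → ℝ, Y = fun i => Sum.elim (fun r : Fin d =>
    axisPos N (θ i) (x i) r.castSucc + 2 * κ i * (θ i).foot r) (θ i).foot := ⟨_, rfl⟩
  have hY1 : ∀ i (r : Fin d), Y i (Sum.inl r) =
      axisPos N (θ i) (x i) r.castSucc + 2 * κ i * (θ i).foot r := by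
    intro i r
    rw [hY]
    rfl
  have hY2 : ∀ i (r : Fin d), Y i (Sum.inr r) = (θ i).foot r := by
    intro i r
    rw [hY]
    rfl
  -- Lipschitz
  have hLip : ∀ ω ω' c, ∀ t : ℝ, (∀ r, |Z ω r - Z ω' r| ≤ t) →
      |Y ω c - Y ω' c| ≤ (3 + 2 * K0) * t := by
    intro ω ω' c t ht
    have ht0 : 0 ≤ t := (abs_nonneg _).trans (ht (Fin.castAdd d (Fin.last d)))
    rcases c with r | r
    · have a1 := ht (Fin.castAdd d r.castSucc)
      have a2 := ht (Fin.castAdd d (Fin.last d))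
      have a3 := ht (Fin.natAdd (d + 1) r)
      rw [hZ1, hZ1] at a1 a2
      rw [hZ2, hZ2] at a3
      rw [axisPos_last, axisPos_last] at a2
      have a4 := (hκs ω ω').trans a2
      rw [hY1, hY1]
      have e1 : axisPos N (θ ω) (x ω) r.castSucc + 2 * κ ω * (θ ω).foot r -
          (axisPos N (θ ω') (x ω') r.castSucc + 2 * κ ω' * (θ ω').foot r) =
          (axisPos N (θ ω) (x ω) r.castSucc - axisPos N (θ ω') (x ω') r.castSucc) +
          2 * ((κ ω - κ ω') * (θ ω).foot r) +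
          2 * (κ ω' * ((θ ω).foot r - (θ ω').foot r)) := by
        ring
      rw [e1]
      refine (abs_add_three _ _ _).trans ?_
      have h8 : |2 * ((κ ω - κ ω') * (θ ω).foot r)| ≤ 2 * (t * 1) := by
        rw [abs_mul, abs_mul, abs_two]
        exact mul_le_mul_of_nonneg_left (mul_le_mul a4 (win_foot (θ ω) r) (abs_nonneg _) ht0)
          (by norm_num)
      have h9 : |2 * (κ ω' * ((θ ω).foot r - (θ ω').foot r))| ≤ 2 * (K0 * t) := by
        rw [abs_mul, abs_mul, abs_two]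
        exact mul_le_mul_of_nonneg_left (mul_le_mul (hκK ω') a3 (abs_nonneg _) hK00)
          (by norm_num)
      linarith
    · have a3 := ht (Fin.natAdd (d + 1) r)
      rw [hZ2, hZ2] at a3
      rw [hY2, hY2]
      nlinarith
  obtain ⟨s, hs⟩ : ∃ s : Fin Q → ℝ, s = fun k : Fin Q => -(lam * ((((k : ℕ) : ℝ) + τ) / Q)) :=
    ⟨_, rfl⟩
  have hsabs : ∀ k, |s k| ≤ 1 := by
    intro k
    rw [hs]
    exact (win_hts hl hl1 hQ1 h0 h1).abs_le k
  have hH : IsHts (fun j => (2 / lam + 1) / (j : ℝ)) Q (fun _ : Fin Q => 1 / (Q : ℝ)) s := by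
    rw [hs]
    exact win_hts hl hl1 hQ1 h0 h1
  -- base
  have hbase : ∀ k : Fin Q, cent p (Xc B 0 0 Z)
      (Xc B 0 0 (fun ω r => Y ω (Sum.inl r) + s k * Y ω (Sum.inr r))) ≤ Cb := by
    intro k
    rw [hCb]
    refine cent_le_diam hp _ _ D ?_
    intro ω ω' hω hω' e r
    simp only [Xc, pow_zero, one_mul, Pi.zero_apply, add_zero]
    refine win_floor ?_
    have hDR : (D : ℝ) = 2 * d + 15 := by rw [hD]; push_cast; ring
    have hd0 : (0 : ℝ) ≤ d := Nat.cast_nonneg d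
    rw [hDR]
    refine Fin.addCases (fun r => ?_) (fun r => ?_) r
    · rw [hZ1, hZ1]
      refine Fin.lastCases ?_ (fun r => ?_) r
      · rw [axisPos_last, axisPos_last]
        have b1 := abs_le.1 (hκe ω hω)
        have b2 := abs_le.1 (hκe ω' hω')
        rw [hK0] at b1 b2
        linarith [b1.2, b2.1]
      · have e1 := congrFun e r
        simp only [Xc, pow_zero, one_mul, Pi.zero_apply, add_zero, hY1, hY2] at e1
        have e2 := Int.abs_sub_lt_one_of_floor_eq_floor e1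
        have g1 : ∀ i, |κ i * (θ i).foot r| ≤ K0 * 1 := by
          intro i
          rw [abs_mul]
          exact mul_le_mul (hκK i) (win_foot (θ i) r) (abs_nonneg _) hK00
        have g2 : ∀ i, |s k * (θ i).foot r| ≤ 1 * 1 := by
          intro i
          rw [abs_mul]
          exact mul_le_mul (hsabs k) (win_foot (θ i) r) (abs_nonneg _) (by norm_num)
        have k1 := abs_le.1 (g1 ω)
        have k2 := abs_le.1 (g1 ω')
        have k3 := abs_le.1 (g2 ω)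
        have k4 := abs_le.1 (g2 ω')
        have k5 := abs_lt.1 e2
        rw [hK0] at k1 k2
        linarith [k1.1, k1.2, k2.1, k2.2, k3.1, k3.2, k4.1, k4.2, k5.1, k5.2]
    · rw [hZ2, hZ2]
      have f1 := abs_le.1 (win_foot (θ ω) r)
      have f2 := abs_le.1 (win_foot (θ ω') r)
      linarith [f1.2, f2.1]
  have hb2 : ∑ k : Fin Q, 1 / (Q : ℝ) * cent p (Xc B 0 0 Z)
      (Xc B 0 0 (fun ω r => Y ω (Sum.inl r) + s k * Y ω (Sum.inr r))) ≤ Cb := by
    refine (Finset.sum_le_sum fun k _ =>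
      mul_le_mul_of_nonneg_left (hbase k) (by positivity)).trans (le_of_eq ?_)
    rw [← Finset.sum_mul, hH.isPr.sum_eq, one_mul]
  -- local entropies
  obtain ⟨g, hg⟩ : ∃ g : ℝ, g = ∑ k ∈ range m, hloc B p Z Y k := ⟨_, rfl⟩
  have hg0 : 0 ≤ g := by
    rw [hg]
    exact Finset.sum_nonneg fun k _ => hloc_nonneg hp Z Y k
  have hg1 : g ≤ ∑ k ∈ range m, locEnt B N θ x p k := by
    rw [hg]
    exact Finset.sum_le_sum fun k _ => win_hloc (N := N) (θ := θ) (x := x) hp hZ1 hZ2 hY2 k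
  have hsum : ∑ k : Fin Q, 1 / (Q : ℝ) * cent p (Xc B m 0 Z)
      (Xc B m 0 (fun ω r => Y ω (Sum.inl r) + s k * Y ω (Sum.inr r))) ≤
      g + ε * m * Real.log B + Cb + ((d + 1 + d : ℕ) : ℝ) * (m0 * Real.log B) := by
    have hm0B : (0 : ℝ) ≤ ((d + 1 + d : ℕ) : ℝ) * (m0 * Real.log B) := by positivity
    rcases le_or_gt m0 m with hm | hm
    · have hgl := hglob m Q hm hQm (Fin Q) (fun _ => 1 / (Q : ℝ)) s hH ι p Z Y hp
        (fun r => ⟨Fin.natAdd (d + 1) r, fun ω => by rw [hZ2, hY2]⟩) hLip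
      rw [← hg] at hgl
      linarith
    · have h3 : ∀ k : Fin Q, cent p (Xc B m 0 Z)
          (Xc B m 0 (fun ω r => Y ω (Sum.inl r) + s k * Y ω (Sum.inr r))) ≤
          g + ε * m * Real.log B + Cb + ((d + 1 + d : ℕ) : ℝ) * (m0 * Real.log B) := by
        intro k
        obtain ⟨X, hX⟩ : ∃ X : ι → Fin d → ℝ, X = fun ω r => Y ω (Sum.inl r) +
          s k * Y ω (Sum.inr r) := ⟨_, rfl⟩
        have hbk := hbase k
        rw [← hX] at hbk ⊢
        have a1 : cent p (Xc B m 0 Z) (Xc B m 0 X) ≤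
            cent p (fun ω => (Xc B 0 0 Z ω, Xc B m 0 Z ω)) (Xc B m 0 X) :=
          cent_mono hp (Det.fst (Det.snd (Det.refl _))) (Det.refl _)
        have a2 := cent_chain hp (Xc B 0 0 Z) (Xc B m 0 Z) (Xc B m 0 X)
        have a3 : cent p (Xc B 0 0 Z) (Xc B m 0 X) ≤
            cent p (Xc B 0 0 Z) (Xc B 0 0 X) :=
          cent_anti hp _ (Xc_nest hBn (Nat.zero_le m) 0 _)
        have a4 : cent p (Xc B m 0 Z) (fun ω => (Xc B 0 0 Z ω, Xc B m 0 X ω)) ≤
            cent p (Xc B m 0 Z) (Xc B 0 0 Z) := cent_anti hp _ (Det.fst (Det.refl _))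
        have a5 := cent_X_X hBn hp (Nat.zero_le m) 0 Z
        have a6 : ((m - 0 : ℕ) : ℝ) ≤ m0 := by
          have : m - 0 ≤ m0 := by omega
          exact_mod_cast this
        have a7 : ((d + 1 + d : ℕ) : ℝ) * (((m - 0 : ℕ) : ℝ) * Real.log B) ≤
            ((d + 1 + d : ℕ) : ℝ) * (m0 * Real.log B) :=
          mul_le_mul_of_nonneg_left (mul_le_mul_of_nonneg_right a6 hlogB) (Nat.cast_nonneg _)
        have a8 : 0 ≤ ε * m * Real.log B := by positivity
        linarith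
      refine (Finset.sum_le_sum fun k _ =>
        mul_le_mul_of_nonneg_left (h3 k) (by positivity)).trans (le_of_eq ?_)
      rw [← Finset.sum_mul, hH.isPr.sum_eq, one_mul]
  -- the cells
  have hcell : ∀ k : Fin Q, ∀ i, p i ≠ 0 →
      Xc B m 0 (fun ω r => Y ω (Sum.inl r) + s k * Y ω (Sum.inr r)) i =
      axCell B N m (θ i) (x i) (c0 + lam * N ^ 2 * (((k : ℕ) + τ) / Q) / 2) := by
    intro k i hi
    funext r
    simp only [Xc, axCell, Pi.zero_apply, add_zero, hY1, hY2]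
    congr 2
    have e1 : κ i = (⌊x i (Fin.last d) / N ^ 2⌋ : ℝ) - c0 / N ^ 2 := by
      rw [hκ]
      exact clip_eq (hκe i hi)
    rw [e1, axisPos_cast, hs]
    field_simp
    ring
  have hcent : ∀ k : Fin Q, cent p (fun i => Vc B N m (θ i) (x i))
      (fun i => axCell B N m (θ i) (x i) (c0 + lam * N ^ 2 * (((k : ℕ) + τ) / Q) / 2)) =
      cent p (Xc B m 0 Z) (Xc B m 0 (fun ω r => Y ω (Sum.inl r) + s k * Y ω (Sum.inr r))) := by
    intro k
    refine cent_congr hp ?_ ?_ ?_ ?_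
    · intro i j hi hj e
      rw [hcell k i hi, hcell k j hj]
      exact e
    · intro i j hi hj e
      rw [hcell k i hi, hcell k j hj] at e
      exact e
    · intro i j hi hj e
      rw [win_Xc hZ1 hZ2 m j i]
      exact congrArg Prod.fst e
    · intro i j hi hj e
      exact (win_Xc hZ1 hZ2 m j i).1 (congrArg Prod.fst e)
  rw [Finset.sum_congr rfl fun k _ => by rw [hcent k]]
  linarith

end STK
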