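import Pool.Agent.Lib.MP_ac5134_an.STK.KWinA
import Pool.Agent.Lib.MP_ac5134_an.Lip.T3

/-!
# STK-KWinB: horizontal slices of a tube

The slices `{y : pt (y, h) ∈ T}` are contained in translates of one set (`fullSlice`), of volume `area`; they are
empty for `|h - c_n| > H` and equal to these translates for `|h - c_n| ≤ H'`; `H, H' = N² |a| / 2 ± d N / 2`.
-/

namespace STK
open Finset RFold Filter Topology MeasureTheory Pool.Agent.MPac5134 Pool.Agent.MPac5134.Lip
open scoped InnerProductSpace ENNReal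

variable {d : ℕ}

private lemma win_mp : MeasurePreserving (pt : V d × ℝ → Sp d) volume volume := by
  have h1 : MeasurePreserving (Prod.swap : V d × ℝ → ℝ × V d) volume volume :=
    Measure.measurePreserving_swap
  have h2 := (volume_preserving_piFinSuccAbove (fun _ : Fin (d + 1) => ℝ) (Fin.last d)).symm
  have h3 := PiLp.volume_preserving_toLp (Fin (d + 1))
  have h4 := h3.comp (h2.comp h1)
  have h5 : (pt : V d × ℝ → Sp d) = (@WithLp.toLp 2 (Fin (d + 1) → ℝ)) ∘
      ((MeasurableEquiv.piFinSuccAbove (fun _ : Fin (d + 1) => ℝ) (Fin.last d)).symm ∘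
        (Prod.swap : V d × ℝ → ℝ × V d)) := by
    funext p
    show WithLp.toLp 2 (Fin.snoc p.1 p.2 : Fin (d + 1) → ℝ) =
      WithLp.toLp 2 (Fin.insertNth (Fin.last d) p.2 p.1 : Fin (d + 1) → ℝ)
    rw [Fin.insertNth_last']
  rw [h5]
  exact h4

theorem pt_last (y : V d) (h : ℝ) : (pt (y, h)) (Fin.last d) = h := by
  simp [pt]

theorem pt_cast (y : V d) (h : ℝ) (r : Fin d) : (pt (y, h)) r.castSucc = y r := by
  simp [pt]

/-- integration over `Sp d` by horizontal slices -/
theorem lintegral_pt (F : Sp d → ℝ≥0∞) (hF : Measurable F) :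
    ∫⁻ z, F z = ∫⁻ h : ℝ, ∫⁻ y : V d, F (pt (y, h)) := by
  rw [← win_mp.lintegral_comp hF, Measure.volume_eq_prod]
  exact lintegral_prod_symm' _ (hF.comp continuous_pt.measurable)

/-- the full slice at height `h` -/
def fullSlice (N : ℝ) (θ : Cap d) (c : Sp d) (h : ℝ) : Set (V d) :=
  {y | ∀ j : Fin d, |⟪θ.frame j.castSucc, pt (y, h) - c⟫_ℝ| ≤ N / 2}

/-- its volume -/
noncomputable def area (N : ℝ) (θ : Cap d) (c : Sp d) : ℝ := (volume (fullSlice N θ c 0)).toReal

theorem slice_sub (N : ℝ) (θ : Cap d) (c : Sp d) (h : ℝ) :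
    {y : V d | pt (y, h) ∈ tube N θ c} ⊆ fullSlice N θ c h := fun _ hy => hy.1

private theorem frame_normal (θ : Cap d) (j : Fin d) :
    ⟪θ.frame j.castSucc, normalVec θ.foot⟫_ℝ = 0 := by
  obtain ⟨a, ha, ha3⟩ := θ.exists_scalar
  have h1 : ⟪θ.frame j.castSucc, θ.frame (Fin.last d)⟫_ℝ = 0 :=
    θ.frame.orthonormal.2 (Fin.castSucc_lt_last j).ne
  rw [ha, inner_smul_right] at h1
  rcases mul_eq_zero.1 h1 with h2 | h2
  · rw [h2, abs_zero] at ha3
    norm_num at ha3
  · exact h2

private theorem fullSlice_eq (N : ℝ) (θ : Cap d) (c : Sp d) (h h' : ℝ) :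
    fullSlice N θ c h' = (fun y : V d => y + fun r => 2 * (h' - h) * θ.foot r) ⁻¹'
      fullSlice N θ c h := by
  ext y
  unfold fullSlice
  simp only [Set.mem_preimage, Set.mem_ofPred_eq]
  refine forall_congr' fun j => ?_
  have e : pt (y + fun r => 2 * (h' - h) * θ.foot r, h) - c =
      (pt (y, h') - c) + (h - h') • normalVec θ.foot := by
    ext r
    refine Fin.lastCases ?_ (fun r => ?_) r
    · simp only [PiLp.sub_apply, PiLp.add_apply, PiLp.smul_apply, smul_eq_mul, pt_last,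
        normalVec_last]
      ring
    · simp only [PiLp.sub_apply, PiLp.add_apply, PiLp.smul_apply, smul_eq_mul, pt_cast,
        normalVec_castSucc, Pi.add_apply]
      ring
  rw [e, inner_add_right, inner_smul_right, frame_normal, mul_zero, add_zero]

theorem vol_fullSlice' (N : ℝ) (θ : Cap d) (c : Sp d) (h h' : ℝ) :
    volume (fullSlice N θ c h') = volume (fullSlice N θ c h) := by
  rw [fullSlice_eq N θ c h h', measure_preimage_add_right]

private theorem expand_bd {N : ℝ} (hN : 0 ≤ N) (θ : Cap d) (z : Sp d)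
    (hz : ∀ j : Fin d, |⟪θ.frame j.castSucc, z⟫_ℝ| ≤ N / 2) (j : Fin (d + 1)) :
    |∑ i : Fin d, ⟪θ.frame i.castSucc, z⟫_ℝ * (θ.frame i.castSucc) j| ≤ d * N / 2 := by
  refine (Finset.abs_sum_le_sum_abs _ _).trans ?_
  have h1 : ∀ i ∈ (univ : Finset (Fin d)),
      |⟪θ.frame i.castSucc, z⟫_ℝ * (θ.frame i.castSucc) j| ≤ N / 2 := by
    intro i _
    rw [abs_mul]
    have := mul_le_mul (hz i) (abs_coord_le_one θ.frame i.castSucc j) (abs_nonneg _) (by linarith)
    linarith
  refine (Finset.sum_le_sum h1).trans (le_of_eq ?_)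
  rw [Finset.sum_const, Finset.card_univ, Fintype.card_fin, nsmul_eq_mul]
  ring

/-- the slice is near the axis -/
theorem slice_pos {N : ℝ} (hN : 0 ≤ N) (θ : Cap d) (c : Sp d) {h : ℝ} {y : V d}
    (hy : y ∈ fullSlice N θ c h) (r : Fin d) :
    |y r - (c r.castSucc - 2 * (h - c (Fin.last d)) * θ.foot r)| ≤ 3 * d * N / 2 := by
  obtain ⟨a, ha, ha3⟩ := θ.exists_scalar
  obtain ⟨z, hz⟩ : ∃ z, z = pt (y, h) - c := ⟨_, rfl⟩
  have hy' : ∀ j : Fin d, |⟪θ.frame j.castSucc, z⟫_ℝ| ≤ N / 2 := by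
    rw [hz]
    exact hy
  have e1 := expand_coord θ.frame z (Fin.last d)
  have e2 := expand_coord θ.frame z r.castSucc
  have b1 := expand_bd hN θ z hy' (Fin.last d)
  have b2 := expand_bd hN θ z hy' r.castSucc
  have z1 : z (Fin.last d) = h - c (Fin.last d) := by
    rw [hz, PiLp.sub_apply, pt_last]
  have z2 : z r.castSucc = y r - c r.castSucc := by
    rw [hz, PiLp.sub_apply, pt_cast]
  have c1 : (θ.frame (Fin.last d)) (Fin.last d) = a := by
    rw [ha, PiLp.smul_apply, normalVec_last, smul_eq_mul, mul_one]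
  have c2 : (θ.frame (Fin.last d)) r.castSucc = a * (-2 * θ.foot r) := by
    rw [ha, PiLp.smul_apply, normalVec_castSucc, smul_eq_mul]
  rw [z1, c1] at e1
  rw [z2, c2] at e2
  obtain ⟨E1, hE1⟩ : ∃ E1, E1 = ∑ i : Fin d, ⟪θ.frame i.castSucc, z⟫_ℝ *
    (θ.frame i.castSucc) (Fin.last d) := ⟨_, rfl⟩
  obtain ⟨E2, hE2⟩ : ∃ E2, E2 = ∑ i : Fin d, ⟪θ.frame i.castSucc, z⟫_ℝ *
    (θ.frame i.castSucc) r.castSucc := ⟨_, rfl⟩
  rw [← hE1] at e1 b1
  rw [← hE2] at e2 b2
  obtain ⟨s, hs⟩ : ∃ s, s = ⟪θ.frame (Fin.last d), z⟫_ℝ := ⟨_, rfl⟩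
  rw [← hs] at e1 e2
  have e3 : y r - (c r.castSucc - 2 * (h - c (Fin.last d)) * θ.foot r) =
      E2 + 2 * (E1 * θ.foot r) := by
    have : s * (a * (-2 * θ.foot r)) = -2 * (h - c (Fin.last d) - E1) * θ.foot r := by
      rw [e1]
      ring
    rw [this] at e2
    linarith
  have hf : |θ.foot r| ≤ 1 := by
    rw [← sq_le_one_iff_abs_le_one]
    exact (Finset.single_le_sum (f := fun r => θ.foot r ^ 2) (fun _ _ => sq_nonneg _)
      (Finset.mem_univ r)).trans θ.foot_mem
  have h9 : |2 * (E1 * θ.foot r)| ≤ 2 * (d * N / 2 * 1) := by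
    rw [abs_mul, abs_mul, abs_two]
    exact mul_le_mul_of_nonneg_left (mul_le_mul b1 hf (abs_nonneg _) (by positivity))
      (by norm_num)
  rw [e3]
  refine (abs_add_le _ _).trans ?_
  linarith

/-- the heights of a tube -/
theorem slice_range {N : ℝ} (hN : 0 ≤ N) (θ : Cap d) (c : Sp d) {a : ℝ}
    (ha : θ.frame (Fin.last d) = a • normalVec θ.foot) {z : Sp d} (hz : z ∈ tube N θ c) :
    |z (Fin.last d) - c (Fin.last d)| ≤ N ^ 2 * |a| / 2 + d * N / 2 := by
  have e1 := expand_coord θ.frame (z - c) (Fin.last d)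
  have b1 := expand_bd hN θ (z - c) hz.1 (Fin.last d)
  have c1 : (θ.frame (Fin.last d)) (Fin.last d) = a := by
    rw [ha, PiLp.smul_apply, normalVec_last, smul_eq_mul, mul_one]
  rw [c1, PiLp.sub_apply] at e1
  rw [e1]
  refine (abs_add_le _ _).trans ?_
  have h2 : |⟪θ.frame (Fin.last d), z - c⟫_ℝ * a| ≤ N ^ 2 / 2 * |a| := by
    rw [abs_mul]
    exact mul_le_mul_of_nonneg_right hz.2 (abs_nonneg _)
  linarith

theorem slice_full {N : ℝ} (hN : 0 ≤ N) (θ : Cap d) (c : Sp d) {a : ℝ}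
    (ha : θ.frame (Fin.last d) = a • normalVec θ.foot) (ha0 : 0 < |a|) {h : ℝ}
    (hh : |h - c (Fin.last d)| ≤ N ^ 2 * |a| / 2 - d * N / 2) :
    {y : V d | pt (y, h) ∈ tube N θ c} = fullSlice N θ c h := by
  refine Set.Subset.antisymm (slice_sub N θ c h) ?_
  intro y hy
  refine ⟨hy, ?_⟩
  have e1 := expand_coord θ.frame (pt (y, h) - c) (Fin.last d)
  have b1 := expand_bd hN θ (pt (y, h) - c) hy (Fin.last d)
  have c1 : (θ.frame (Fin.last d)) (Fin.last d) = a := by
    rw [ha, PiLp.smul_apply, normalVec_last, smul_eq_mul, mul_one]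
  rw [c1, PiLp.sub_apply, pt_last] at e1
  obtain ⟨E1, hE1⟩ : ∃ E1, E1 = ∑ i : Fin d, ⟪θ.frame i.castSucc, pt (y, h) - c⟫_ℝ *
    (θ.frame i.castSucc) (Fin.last d) := ⟨_, rfl⟩
  rw [← hE1] at e1 b1
  have h2 : |⟪θ.frame (Fin.last d), pt (y, h) - c⟫_ℝ| * |a| ≤ N ^ 2 / 2 * |a| := by
    rw [← abs_mul]
    have e2 : ⟪θ.frame (Fin.last d), pt (y, h) - c⟫_ℝ * a = (h - c (Fin.last d)) - E1 := by
      linarith
    rw [e2]
    refine (abs_sub _ _).trans ?_
    linarith
  exact le_of_mul_le_mul_right h2 ha0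

private theorem vol_le {N : ℝ} (hN : 0 ≤ N) (θ : Cap d) (c : Sp d) (h : ℝ) :
    volume (fullSlice N θ c h) ≤ ENNReal.ofReal ((3 * d * N) ^ d) := by
  have h1 : fullSlice N θ c h ⊆ Set.Icc
      (fun r => c r.castSucc - 2 * (h - c (Fin.last d)) * θ.foot r - 3 * d * N / 2)
      (fun r => c r.castSucc - 2 * (h - c (Fin.last d)) * θ.foot r + 3 * d * N / 2) := by
    intro y hy
    rw [Set.mem_Icc]
    constructor
    · intro r
      have := abs_le.1 (slice_pos hN θ c hy r)
      simp only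
      linarith [this.1]
    · intro r
      have := abs_le.1 (slice_pos hN θ c hy r)
      simp only
      linarith [this.2]
  refine (measure_mono h1).trans (le_of_eq ?_)
  rw [Real.volume_Icc_pi]
  have h2 : ∀ r : Fin d, ENNReal.ofReal
      ((c r.castSucc - 2 * (h - c (Fin.last d)) * θ.foot r + 3 * d * N / 2) -
        (c r.castSucc - 2 * (h - c (Fin.last d)) * θ.foot r - 3 * d * N / 2)) =
      ENNReal.ofReal (3 * d * N) := by
    intro r
    congr 1
    ring
  rw [Finset.prod_congr rfl fun r _ => h2 r, Finset.prod_const, Finset.card_univ,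
    Fintype.card_fin, ENNReal.ofReal_pow (by positivity)]

theorem vol_fullSlice {N : ℝ} (hN : 0 ≤ N) (θ : Cap d) (c : Sp d) (h : ℝ) :
    volume (fullSlice N θ c h) = ENNReal.ofReal (area N θ c) := by
  unfold area
  rw [ENNReal.ofReal_toReal (ne_top_of_le_ne_top ENNReal.ofReal_ne_top (vol_le hN θ c 0)),
    vol_fullSlice' N θ c 0 h]

theorem area_nonneg (N : ℝ) (θ : Cap d) (c : Sp d) : 0 ≤ area N θ c := ENNReal.toReal_nonneg

theorem area_le {N : ℝ} (hN : 0 ≤ N) (θ : Cap d) (c : Sp d) : area N θ c ≤ (3 * d * N) ^ d :=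
  ENNReal.toReal_le_of_le_ofReal (by positivity) (vol_le hN θ c 0)

/-- integrals of functions of the height over a tube -/
theorem lintegral_tube_le {N : ℝ} (hN : 0 ≤ N) (θ : Cap d) (c : Sp d) {a : ℝ}
    (ha : θ.frame (Fin.last d) = a • normalVec θ.foot) {f : ℝ → ℝ≥0∞} (hf : Measurable f) :
    ∫⁻ z in tube N θ c, f (z (Fin.last d)) ≤ ENNReal.ofReal (area N θ c) *
      ∫⁻ h in Set.Icc (c (Fin.last d) - (N ^ 2 * |a| / 2 + d * N / 2))
        (c (Fin.last d) + (N ^ 2 * |a| / 2 + d * N / 2)), f h := by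
  have hm : MeasurableSet (tube N θ c) := measurableSet_tube _ _ _
  have hlast : Measurable fun z : Sp d => z (Fin.last d) := by fun_prop
  have hF : Measurable ((tube N θ c).indicator fun z : Sp d => f (z (Fin.last d))) :=
    (hf.comp hlast).indicator hm
  rw [← lintegral_indicator hm, lintegral_pt _ hF,
    ← lintegral_const_mul _ hf, ← lintegral_indicator measurableSet_Icc]
  refine lintegral_mono fun h => ?_
  have e1 : ∀ y : V d, (tube N θ c).indicator (fun z : Sp d => f (z (Fin.last d))) (pt (y, h)) =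
      {y : V d | pt (y, h) ∈ tube N θ c}.indicator (fun _ => f h) y := by
    intro y
    by_cases hy : pt (y, h) ∈ tube N θ c
    · rw [Set.indicator_of_mem hy, Set.indicator_of_mem (show y ∈ {y : V d | pt (y, h) ∈
        tube N θ c} from hy), pt_last]
    · rw [Set.indicator_of_notMem hy, Set.indicator_of_notMem (show y ∉ {y : V d | pt (y, h) ∈
        tube N θ c} from hy)]
  simp_rw [e1]
  have hms : MeasurableSet {y : V d | pt (y, h) ∈ tube N θ c} := by
    have h1 : Measurable fun y : V d => pt (y, h) :=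
      continuous_pt.measurable.comp (measurable_id.prodMk measurable_const)
    exact h1 hm
  rw [lintegral_indicator_const hms]
  by_cases hh : h ∈ Set.Icc (c (Fin.last d) - (N ^ 2 * |a| / 2 + d * N / 2))
      (c (Fin.last d) + (N ^ 2 * |a| / 2 + d * N / 2))
  · rw [Set.indicator_of_mem hh, mul_comm]
    refine mul_le_mul_left ?_ _
    rw [← vol_fullSlice hN θ c h]
    exact measure_mono (slice_sub N θ c h)
  · rw [Set.indicator_of_notMem hh]
    have : {y : V d | pt (y, h) ∈ tube N θ c} = ∅ := by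
      ext y
      simp only [Set.mem_ofPred_eq, Set.mem_empty_iff_false, iff_false]
      intro hy
      have h1 := slice_range hN θ c ha hy
      rw [pt_last, abs_le] at h1
      apply hh
      rw [Set.mem_Icc]
      constructor <;> linarith [h1.1, h1.2]
    rw [this, measure_empty, mul_zero]

theorem area_mul_le {N : ℝ} (hN : 0 < N) (θ : Cap d) (c : Sp d) {a : ℝ}
    (ha : θ.frame (Fin.last d) = a • normalVec θ.foot) (ha0 : 0 < |a|) :
    area N θ c * (N ^ 2 * |a| - d * N) ≤ N ^ (d + 2) := by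
  rcases le_or_gt (N ^ 2 * |a| - d * N) 0 with h0 | h0
  · have h1 : area N θ c * (N ^ 2 * |a| - d * N) ≤ 0 :=
      mul_nonpos_of_nonneg_of_nonpos (area_nonneg _ _ _) h0
    have : 0 ≤ N ^ (d + 2) := by positivity
    linarith
  · have hm : MeasurableSet (tube N θ c) := measurableSet_tube _ _ _
    have h1 : ENNReal.ofReal (area N θ c * (N ^ 2 * |a| - d * N)) ≤
        ENNReal.ofReal (N ^ (d + 2)) := by
      rw [← volume_tube hN.le θ c, volume_eq_lintegral_pt _ hm,
        ENNReal.ofReal_mul (area_nonneg _ _ _)]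
      have h2 : ENNReal.ofReal (N ^ 2 * |a| - d * N) = volume (Set.Icc
          (c (Fin.last d) - (N ^ 2 * |a| / 2 - d * N / 2))
          (c (Fin.last d) + (N ^ 2 * |a| / 2 - d * N / 2))) := by
        rw [Real.volume_Icc]
        congr 1
        ring
      rw [h2, ← lintegral_indicator_const measurableSet_Icc]
      refine lintegral_mono fun h => ?_
      by_cases hh : h ∈ Set.Icc (c (Fin.last d) - (N ^ 2 * |a| / 2 - d * N / 2))
          (c (Fin.last d) + (N ^ 2 * |a| / 2 - d * N / 2))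
      · rw [Set.indicator_of_mem hh, ← vol_fullSlice hN.le θ c h]
        rw [slice_full hN.le θ c ha ha0 (by
          rw [Set.mem_Icc] at hh
          rw [abs_le]
          constructor <;> linarith [hh.1, hh.2])]
      · rw [Set.indicator_of_notMem hh]
        exact zero_le
    exact (ENNReal.ofReal_le_ofReal_iff (by positivity)).1 h1

theorem area_pos {N : ℝ} (hN : 0 < N) (θ : Cap d) (c : Sp d) : 0 < area N θ c := by
  obtain ⟨a, ha, ha3⟩ := θ.exists_scalar
  have h1 := lintegral_tube_le hN.le θ c ha (f := fun _ => 1) measurable_const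
  rw [setLIntegral_const, one_mul, setLIntegral_const, one_mul, volume_tube hN.le,
    Real.volume_Icc] at h1
  rcases (area_nonneg N θ c).lt_or_eq with h2 | h2
  · exact h2
  · rw [← h2, ENNReal.ofReal_zero, zero_mul, nonpos_iff_eq_zero, ENNReal.ofReal_eq_zero] at h1
    have : 0 < N ^ (d + 2) := by positivity
    linarith

end STK
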