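import Pool.Agent.Lib.MP_ac5134_an.STK.KWinB

/-!
# STK-KWinC: the pointwise inequality; averages over a window

`sum_q_le`: `∑_{i ∈ S} P(V_i | X_i) / n_i ≤ |G|` if the `X_i`, `i ∈ S`, are in `G` and `n_i ≥ #{j : V_j = V_i}`.
`pt_ineq`: `1 + t ≤ e^t`.  `window_le`: the integral over a window is the average over `Q` translates.
-/

namespace STK
open Finset RFold Filter Topology MeasureTheory Pool.Agent.MPac5134 Pool.Agent.MPac5134.Lip
open scoped InnerProductSpace ENNReal

section
variable {Ω : Type*} [Fintype Ω] {β γ : Type*} {p : Ω → ℝ}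

private theorem law_nn (hp : ∀ ω, 0 ≤ p ω) (f : Ω → β) (b : β) : 0 ≤ law p f b := by
  classical
  unfold law pr
  exact Finset.sum_nonneg fun ω _ => by split_ifs <;> [exact hp ω; exact le_rfl]

private theorem sum_law_pair (hp : ∀ ω, 0 ≤ p ω) (V : Ω → β) (X : Ω → γ) (G : Finset β) (u : γ) :
    ∑ v ∈ G, law p (fun ω => (V ω, X ω)) (v, u) ≤ law p X u := by
  classical
  unfold law pr
  simp only
  rw [Finset.sum_comm]
  refine Finset.sum_le_sum fun ω _ => ?_
  by_cases hX : X ω = u
  · rw [if_pos hX]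
    refine (Finset.sum_congr rfl (g := fun v => if V ω = v then p ω else 0) fun v _ => ?_).trans_le
      ?_
    · by_cases hv : V ω = v
      · rw [if_pos hv, if_pos (by rw [hX, hv])]
      · rw [if_neg hv, if_neg (fun h => hv (congrArg Prod.fst h))]
    · rw [Finset.sum_ite_eq]
      split_ifs
      · exact le_rfl
      · exact hp ω
  · rw [if_neg hX]
    refine le_of_eq (Finset.sum_eq_zero fun v _ => ?_)
    rw [if_neg]
    rw [Prod.mk.injEq]
    exact fun h => hX h.2

open Classical in
theorem sum_q_le (hp : ∀ ω, 0 ≤ p ω) (V : Ω → β) (X : Ω → γ) (S : Finset Ω) (G : Finset γ)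
    (hG : ∀ i ∈ S, X i ∈ G) (n : Ω → ℕ) (hn : ∀ i, (univ.filter fun j => V j = V i).card ≤ n i) :
    ∑ i ∈ S, law p (fun ω => (V ω, X ω)) (V i, X i) / law p X (X i) / n i ≤ G.card := by
  obtain ⟨F, hF⟩ : ∃ F : Ω → ℝ, F = fun i =>
    law p (fun ω => (V ω, X ω)) (V i, X i) / law p X (X i) / n i := ⟨_, rfl⟩
  have hF0 : ∀ i, 0 ≤ F i := by
    intro i
    rw [hF]
    exact div_nonneg (div_nonneg (law_nn hp _ _) (law_nn hp _ _)) (Nat.cast_nonneg _)
  have h1 : ∑ i ∈ S, F i ≤ ∑ i ∈ univ.filter (fun i => X i ∈ G), F i := by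
    refine Finset.sum_le_sum_of_subset_of_nonneg ?_ fun i _ _ => hF0 i
    intro i hi
    rw [Finset.mem_filter]
    exact ⟨mem_univ _, hG i hi⟩
  have h2 : ∑ i ∈ univ.filter (fun i => X i ∈ G), F i =
      ∑ u ∈ G, ∑ i ∈ univ.filter (fun i => X i = u), F i := by
    rw [← Finset.sum_fiberwise_of_maps_to (s := univ.filter (fun i => X i ∈ G)) (t := G) (g := X)
      (fun i hi => (Finset.mem_filter.1 hi).2)]
    refine Finset.sum_congr rfl fun u hu => ?_
    refine Finset.sum_congr ?_ fun _ _ => rfl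
    ext i
    simp only [Finset.mem_filter, mem_univ, true_and]
    constructor
    · rintro ⟨_, h⟩
      exact h
    · intro h
      exact ⟨by rw [h]; exact hu, h⟩
  have h3 : ∀ u ∈ G, ∑ i ∈ univ.filter (fun i => X i = u), F i ≤ 1 := by
    intro u _
    obtain ⟨T, hT⟩ : ∃ T : Finset Ω, T = univ.filter (fun i => X i = u) := ⟨_, rfl⟩
    rw [← hT, ← Finset.sum_fiberwise_of_maps_to (s := T) (t := T.image V) (g := V)
      (fun i hi => Finset.mem_image_of_mem V hi)]
    have h4 : ∀ v ∈ T.image V, ∑ i ∈ T.filter (fun i => V i = v), F i ≤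
        law p (fun ω => (V ω, X ω)) (v, u) / law p X u := by
      intro v _
      obtain ⟨T', hT'⟩ : ∃ T' : Finset Ω, T' = T.filter (fun i => V i = v) := ⟨_, rfl⟩
      rw [← hT']
      rcases T'.eq_empty_or_nonempty with he | hne
      · rw [he, Finset.sum_empty]
        exact div_nonneg (law_nn hp _ _) (law_nn hp _ _)
      have hc : (0 : ℝ) < T'.card := by exact_mod_cast hne.card_pos
      have h5 : ∀ i ∈ T', F i ≤ law p (fun ω => (V ω, X ω)) (v, u) / law p X u / T'.card := by
        intro i hi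
        rw [hT', Finset.mem_filter] at hi
        have hXi : X i = u := by
          have := hi.1
          rw [hT, Finset.mem_filter] at this
          exact this.2
        rw [hF]
        simp only
        rw [hi.2, hXi]
        refine div_le_div_of_nonneg_left (div_nonneg (law_nn hp _ _) (law_nn hp _ _)) hc ?_
        have h6 : T'.card ≤ n i := by
          refine le_trans (Finset.card_le_card ?_) (hn i)
          intro j hj
          rw [hT', Finset.mem_filter] at hj
          rw [Finset.mem_filter]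
          exact ⟨mem_univ _, by rw [hj.2, hi.2]⟩
        exact_mod_cast h6
      refine (Finset.sum_le_sum h5).trans (le_of_eq ?_)
      rw [Finset.sum_const, nsmul_eq_mul]
      field_simp
    refine (Finset.sum_le_sum h4).trans ?_
    rw [← Finset.sum_div]
    refine (div_le_div_of_nonneg_right (sum_law_pair hp V X _ u) (law_nn hp _ _)).trans ?_
    exact div_self_le_one _
  have h7 : ∑ i ∈ S, law p (fun ω => (V ω, X ω)) (V i, X i) / law p X (X i) / n i =
      ∑ i ∈ S, F i := by rw [hF]
  rw [h7]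
  refine h1.trans ?_
  rw [h2]
  refine (Finset.sum_le_sum h3).trans (le_of_eq ?_)
  rw [Finset.sum_const, nsmul_eq_mul, mul_one]

end

theorem pt_ineq {p q G c : ℝ} (hp : 0 < p) (hq : 0 < q) :
    p * (1 + G - Real.log p - c) ≤ p * (-Real.log q) + Real.exp (G - c) * q := by
  have h1 := Real.add_one_le_exp (G - Real.log p + Real.log q - c)
  have h2 : p * Real.exp (G - Real.log p + Real.log q - c) = Real.exp (G - c) * q := by
    have e : G - Real.log p + Real.log q - c = (G - c) + (Real.log q - Real.log p) := by ring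
    rw [e, Real.exp_add, Real.exp_sub (Real.log q), Real.exp_log hq, Real.exp_log hp]
    field_simp
  have h3 := mul_le_mul_of_nonneg_left h1 hp.le
  rw [h2] at h3
  linarith

/-- the integral over a window from the sums over `Q` translates -/
theorem window_le {g : ℝ → ℝ≥0∞} (hg : Measurable g) {a L : ℝ} (hL : 0 < L) {Q : ℕ} (hQ : 1 ≤ Q)
    {T : ℝ≥0∞} (h : ∀ τ : ℝ, 0 ≤ τ → τ ≤ 1 →
      ∑ k : Fin Q, g (a + L * ((((k : ℕ) : ℝ) + τ) / Q)) ≤ T) :
    ∫⁻ s in Set.Ico a (a + L), g s ≤ ENNReal.ofReal (L / Q) * T := by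
  have hQ0 : (0 : ℝ) < Q := by exact_mod_cast hQ
  obtain ⟨δ, hδ⟩ : ∃ δ : ℝ, δ = L / Q := ⟨_, rfl⟩
  have hδ0 : 0 < δ := by rw [hδ]; positivity
  have hLQ : L = δ * Q := by rw [hδ]; field_simp
  -- the window is a union of `Q` intervals
  have h1 : ∀ n : ℕ, ∫⁻ s in Set.Ico a (a + δ * n), g s ≤
      ∑ k ∈ range n, ∫⁻ s in Set.Ico (a + δ * k) (a + δ * (k + 1)), g s := by
    intro n
    induction n with
    | zero => simp
    | succ n ih =>
      rw [Finset.sum_range_succ]
      have e : Set.Ico a (a + δ * ((n + 1 : ℕ) : ℝ)) =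
          Set.Ico a (a + δ * n) ∪ Set.Ico (a + δ * n) (a + δ * (n + 1)) := by
        rw [Set.Ico_union_Ico_eq_Ico]
        · push_cast
          rfl
        · have : 0 ≤ δ * (n : ℝ) := by positivity
          linarith
        · nlinarith
      rw [e]
      exact (lintegral_union_le _ _ _).trans (add_le_add ih le_rfl)
  have h2 : ∀ k : ℕ, ∫⁻ s in Set.Ico (a + δ * k) (a + δ * (k + 1)), g s =
      ∫⁻ t in Set.Ico (0 : ℝ) δ, g (a + δ * k + t) := by
    intro k
    rw [← lintegral_indicator measurableSet_Ico, ← lintegral_indicator measurableSet_Ico,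
      ← lintegral_add_left_eq_self _ (a + δ * k)]
    refine lintegral_congr fun t => ?_
    by_cases ht : t ∈ Set.Ico (0 : ℝ) δ
    · rw [Set.indicator_of_mem ht, Set.indicator_of_mem]
      rw [Set.mem_Ico] at ht ⊢
      constructor <;> nlinarith [ht.1, ht.2]
    · rw [Set.indicator_of_notMem ht, Set.indicator_of_notMem]
      intro h3
      apply ht
      rw [Set.mem_Ico] at h3 ⊢
      constructor <;> nlinarith [h3.1, h3.2]
  have h3 := h1 Q
  rw [← hLQ] at h3
  refine h3.trans ?_
  have h6 : ∀ k ∈ range Q, Measurable fun t : ℝ => g (a + δ * k + t) := fun k _ =>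
    hg.comp (measurable_const_add _)
  rw [Finset.sum_congr rfl fun k _ => h2 k, ← lintegral_finsetSum _ h6]
  rw [← hδ]
  have h4 : ∀ t ∈ Set.Ico (0 : ℝ) δ, ∑ k ∈ range Q, g (a + δ * k + t) ≤ T := by
    intro t ht
    rw [Set.mem_Ico] at ht
    have h5 := h (t / δ) (div_nonneg ht.1 hδ0.le) (by rw [div_le_one hδ0]; exact ht.2.le)
    rw [Finset.sum_range fun k : ℕ => g (a + δ * k + t)]
    refine le_trans (le_of_eq ?_) h5
    refine Finset.sum_congr rfl fun k _ => ?_
    congr 1
    rw [hLQ]
    field_simp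
    ring
  refine (setLIntegral_mono measurable_const h4).trans (le_of_eq ?_)
  rw [setLIntegral_const, Real.volume_Ico, sub_zero, mul_comm]

end STK
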