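import Pool.Agent.Lib.MP_ac5134_an.STK.KWinC

/-!
# STK-KWinD: the integral over a window and the pointwise inequality of the tubes

`psi`: `-log P(V_i | X_i)`, so that `H(V | X) = ∑ p_i psi_i`.
-/

namespace STK
open Finset RFold Filter Topology MeasureTheory Pool.Agent.MPac5134 Pool.Agent.MPac5134.Lip
open scoped InnerProductSpace ENNReal

section
variable {ι : Type} [Fintype ι] {d : ℕ} (B : ℕ) (N : ℝ) (m : ℕ) (θ : ι → Cap d) (x : ι → Sp d)

/-- `-log P(V_i | X_i)` at height `h` -/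
noncomputable def psi (w : ι → ℝ) (i : ι) (h : ℝ) : ℝ :=
  Real.log (law w (fun j => axCell B N m (θ j) (x j) h) (axCell B N m (θ i) (x i) h)) -
    Real.log (law w (fun j => (Vc B N m (θ j) (x j), axCell B N m (θ j) (x j) h))
      (Vc B N m (θ i) (x i), axCell B N m (θ i) (x i) h))

theorem cent_psi (w : ι → ℝ) (h : ℝ) :
    cent w (fun i => Vc B N m (θ i) (x i)) (fun i => axCell B N m (θ i) (x i) h) =
      ∑ i, w i * psi B N m θ x w i h := by
  unfold cent ent psi
  rw [← Finset.sum_sub_distrib]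
  refine Finset.sum_congr rfl fun i _ => ?_
  ring

theorem psi_nonneg {w : ι → ℝ} (hw : IsPr w) {i : ι} (hi : w i ≠ 0) (h : ℝ) :
    0 ≤ psi B N m θ x w i h := by
  unfold psi
  have h1 : 0 < law w (fun j => (Vc B N m (θ j) (x j), axCell B N m (θ j) (x j) h))
      (Vc B N m (θ i) (x i), axCell B N m (θ i) (x i) h) :=
    law_pos hw (fun j => (Vc B N m (θ j) (x j), axCell B N m (θ j) (x j) h)) hi
  have h2 := law_mono hw (f := fun j => (Vc B N m (θ j) (x j), axCell B N m (θ j) (x j) h))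
    (g := fun j => axCell B N m (θ j) (x j) h) (Det.snd (Det.refl _)) hi
  have := Real.log_le_log h1 h2
  linarith

theorem measurable_axCell (θ : Cap d) (c : Sp d) :
    Measurable fun h : ℝ => axCell B N m θ c h := by
  refine measurable_pi_lambda _ fun r => ?_
  unfold axCell
  refine Int.measurable_floor.comp ?_
  fun_prop

theorem psi_measurable (w : ι → ℝ) (i : ι) : Measurable (psi B N m θ x w i) := by
  classical
  have h1 : ∀ j, MeasurableSet {h : ℝ | axCell B N m (θ j) (x j) h = axCell B N m (θ i) (x i) h} :=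
    fun j => measurableSet_eq_fun (measurable_axCell B N m (θ j) (x j))
      (measurable_axCell B N m (θ i) (x i))
  have e1 : (fun h : ℝ => law w (fun j => axCell B N m (θ j) (x j) h)
      (axCell B N m (θ i) (x i) h)) = fun h => ∑ j, {h : ℝ | axCell B N m (θ j) (x j) h =
        axCell B N m (θ i) (x i) h}.indicator (fun _ => w j) h := by
    funext h
    unfold law pr
    refine Finset.sum_congr rfl fun j _ => ?_
    rw [Set.indicator_apply]
    simp only [Set.mem_ofPred_eq]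
    congr
  have e2 : (fun h : ℝ => law w (fun j => (Vc B N m (θ j) (x j), axCell B N m (θ j) (x j) h))
      (Vc B N m (θ i) (x i), axCell B N m (θ i) (x i) h)) = fun h => ∑ j,
      if Vc B N m (θ j) (x j) = Vc B N m (θ i) (x i) then {h : ℝ | axCell B N m (θ j) (x j) h =
        axCell B N m (θ i) (x i) h}.indicator (fun _ => w j) h else 0 := by
    funext h
    unfold law pr
    refine Finset.sum_congr rfl fun j _ => ?_
    rw [Set.indicator_apply]
    simp only [Prod.mk.injEq, Set.mem_ofPred_eq]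
    by_cases hv : Vc B N m (θ j) (x j) = Vc B N m (θ i) (x i)
    · simp only [hv, true_and, if_true]
    · simp only [hv, false_and, if_false]
  have m1 : Measurable fun h : ℝ => law w (fun j => axCell B N m (θ j) (x j) h)
      (axCell B N m (θ i) (x i) h) := by
    rw [e1]
    exact Finset.measurable_fun_sum _ fun j _ => measurable_const.indicator (h1 j)
  have m2 : Measurable fun h : ℝ => law w (fun j => (Vc B N m (θ j) (x j),
      axCell B N m (θ j) (x j) h)) (Vc B N m (θ i) (x i), axCell B N m (θ i) (x i) h) := by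
    rw [e2]
    refine Finset.measurable_fun_sum _ fun j _ => ?_
    split_ifs
    · exact measurable_const.indicator (h1 j)
    · exact measurable_const
  exact (Real.measurable_log.comp m1).sub (Real.measurable_log.comp m2)

theorem numSame_eq (i : ι) [DecidablePred fun j => Vc B N m (θ j) (x j) = Vc B N m (θ i) (x i)] :
    (univ.filter fun j => Vc B N m (θ j) (x j) = Vc B N m (θ i) (x i)).card =
      numSame B N θ x m i := by
  classical
  unfold numSame
  congr 1
  ext j
  simp only [mem_filter, mem_univ, true_and, Vc, Prod.mk.injEq]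

theorem numSame_pos' (i : ι) : 0 < numSame B N θ x m i := by
  classical
  unfold numSame
  exact Finset.card_pos.mpr ⟨i, Finset.mem_filter.2 ⟨mem_univ _, rfl, rfl⟩⟩

/-- the pointwise inequality at `pt (y, h)` -/
theorem tubes_pt (hd : 1 ≤ d) (hB : 0 < B) (hN : (B : ℝ) ^ m ≤ N) {w : ι → ℝ} (hw : IsPr w)
    (p : ι → ℝ) (S : Finset ι) (y : V d) (h : ℝ)
    (hS : ∀ i ∈ S, pt (y, h) ∈ tube N (θ i) (x i)) (hwS : ∀ i ∈ S, w i ≠ 0)
    (hp : ∀ i ∈ S, 0 < p i) (G c : ℝ) :
    ∑ i ∈ S, p i * (1 + G - Real.log (p i) - c) ≤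
      ∑ i ∈ S, p i * (Real.log ((4 * d + 1) ^ d) + Real.log (numSame B N θ x m i) +
        psi B N m θ x w i h) + Real.exp (G - c) := by
  classical
  have hBr : (1 : ℝ) ≤ B := by exact_mod_cast hB
  have hBm : (1 : ℝ) ≤ (B : ℝ) ^ m := one_le_pow₀ hBr
  have hN1 : 1 ≤ N := hBm.trans hN
  have hN0 : 0 < N := by linarith
  have hC1 : (0 : ℝ) < (4 * d + 1) ^ d := by positivity
  obtain ⟨X, hX⟩ : ∃ X : ι → Fin d → ℤ, X = fun j => axCell B N m (θ j) (x j) h := ⟨_, rfl⟩
  obtain ⟨Vv, hV⟩ : ∃ Vv : ι → (Fin (d + 1) → ℤ) × (Fin d → ℤ), Vv = fun j =>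
    Vc B N m (θ j) (x j) := ⟨_, rfl⟩
  obtain ⟨Gb, hGb⟩ : ∃ Gb : Finset (Fin d → ℤ), Gb = Fintype.piFinset (fun r =>
    Finset.Icc (⌊(B : ℝ) ^ m * (y r / N ^ 2)⌋ - 2 * d) (⌊(B : ℝ) ^ m * (y r / N ^ 2)⌋ + 2 * d)) :=
    ⟨_, rfl⟩
  have hGcard : (Gb.card : ℝ) = (4 * d + 1) ^ d := by
    rw [hGb, Fintype.card_piFinset]
    have h1 : ∀ r : Fin d, (Finset.Icc (⌊(B : ℝ) ^ m * (y r / N ^ 2)⌋ - 2 * (d : ℤ))
        (⌊(B : ℝ) ^ m * (y r / N ^ 2)⌋ + 2 * d)).card = 4 * d + 1 := by
      intro r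
      rw [Int.card_Icc]
      omega
    rw [Finset.prod_congr rfl fun r _ => h1 r, Finset.prod_const, Finset.card_univ,
      Fintype.card_fin]
    push_cast
    rfl
  have hXG : ∀ i ∈ S, X i ∈ Gb := by
    intro i hi
    rw [hGb, Fintype.mem_piFinset]
    intro r
    have h1 := slice_pos hN0.le (θ i) (x i) (slice_sub N (θ i) (x i) h (hS i hi)) r
    rw [hX]
    show axCell B N m (θ i) (x i) h r ∈ _
    unfold axCell
    obtain ⟨P, hP⟩ : ∃ P : ℝ, P = (x i) r.castSucc - 2 * (h - (x i) (Fin.last d)) * (θ i).foot r :=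
      ⟨_, rfl⟩
    rw [← hP] at h1 ⊢
    have hdR : (1 : ℝ) ≤ d := by exact_mod_cast hd
    have h2 : |(B : ℝ) ^ m * (y r / N ^ 2) - (B : ℝ) ^ m * (P / N ^ 2)| ≤ 2 * d := by
      rw [← mul_sub, ← sub_div, abs_mul, abs_div, abs_of_pos (by positivity : 0 < (B : ℝ) ^ m),
        abs_of_pos (by positivity : 0 < N ^ 2)]
      calc (B : ℝ) ^ m * (|y r - P| / N ^ 2) ≤ N * ((3 * (d : ℝ) * N / 2) / N ^ 2) := by gcongr
        _ = 3 * (d : ℝ) / 2 := by field_simp
        _ ≤ 2 * (d : ℝ) := by linarith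
    rw [abs_le] at h2
    rw [Finset.mem_Icc]
    have h3 : (((2 * d : ℕ) : ℤ) : ℝ) = 2 * d := by push_cast; ring
    constructor
    · have h4 : ⌊(B : ℝ) ^ m * (y r / N ^ 2)⌋ ≤ ⌊(B : ℝ) ^ m * (P / N ^ 2) + ((2 * d : ℕ) : ℝ)⌋ := by
        refine Int.floor_le_floor ?_
        push_cast
        linarith [h2.2]
      rw [Int.floor_add_natCast] at h4
      push_cast at h4
      linarith
    · have h4 : ⌊(B : ℝ) ^ m * (P / N ^ 2)⌋ ≤ ⌊(B : ℝ) ^ m * (y r / N ^ 2) + ((2 * d : ℕ) : ℝ)⌋ := by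
        refine Int.floor_le_floor ?_
        push_cast
        linarith [h2.1]
      rw [Int.floor_add_natCast] at h4
      push_cast at h4
      linarith
  obtain ⟨q, hq⟩ : ∃ q : ι → ℝ, q = fun i =>
    law w (fun ω => (Vv ω, X ω)) (Vv i, X i) / law w X (X i) / numSame B N θ x m i := ⟨_, rfl⟩
  have hqsum : ∑ i ∈ S, q i ≤ (4 * d + 1) ^ d := by
    rw [← hGcard, hq]
    refine sum_q_le hw.nonneg Vv X S Gb hXG (fun i => numSame B N θ x m i) fun i => ?_
    rw [hV, ← numSame_eq B N m θ x i]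
    exact Finset.card_le_card fun j hj => by simpa using hj
  have hq0 : ∀ i ∈ S, 0 < q i ∧ -Real.log (q i) = Real.log (numSame B N θ x m i) +
      psi B N m θ x w i h := by
    intro i hi
    have l1 : 0 < law w (fun ω => (Vv ω, X ω)) (Vv i, X i) :=
      law_pos hw (fun ω => (Vv ω, X ω)) (hwS i hi)
    have l2 : 0 < law w X (X i) := law_pos hw X (hwS i hi)
    have l3 : (0 : ℝ) < numSame B N θ x m i := by exact_mod_cast numSame_pos' B N m θ x i
    rw [hq]
    simp only
    refine ⟨by positivity, ?_⟩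
    rw [Real.log_div (div_pos l1 l2).ne' l3.ne', Real.log_div l1.ne' l2.ne']
    unfold psi
    rw [hV, hX]
    ring
  have h5 : ∀ i ∈ S, p i * (1 + G - Real.log (p i) - c) ≤
      p i * (Real.log ((4 * d + 1) ^ d) + Real.log (numSame B N θ x m i) +
        psi B N m θ x w i h) + Real.exp (G - c) * (q i / (4 * d + 1) ^ d) := by
    intro i hi
    have h6 := pt_ineq (G := G) (c := c) (hp i hi) (div_pos (hq0 i hi).1 hC1)
    rw [Real.log_div (hq0 i hi).1.ne' hC1.ne'] at h6
    have h7 := (hq0 i hi).2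
    have e : -(Real.log (q i) - Real.log ((4 * d + 1) ^ d)) =
        Real.log ((4 * d + 1) ^ d) + Real.log (numSame B N θ x m i) + psi B N m θ x w i h := by
      linarith
    rw [e] at h6
    exact h6
  refine (Finset.sum_le_sum h5).trans ?_
  rw [Finset.sum_add_distrib, ← Finset.mul_sum, ← Finset.sum_div]
  have h8 : (∑ i ∈ S, q i) / (4 * d + 1) ^ d ≤ 1 := by
    rw [div_le_one hC1]
    exact hqsum
  have h9 := mul_le_mul_of_nonneg_left h8 (Real.exp_pos (G - c)).le
  linarith

end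

end STK
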