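import Pool.Agent.Lib.MP_ac5134_an.STK.KWinD

/-!
# STK-KWinE: all windows

`win_int`: the integral of `∑ w_i psi_i` over a window.  `exists_Psi`: for all positive weights `p` there are
functions `Ψ_i` of the height with the pointwise inequality on every horizontal hyperplane and
`∑ area_i ∫ Ψ_i ≤ N^(d+2) (1 + η) ∑ p_i (E0 + ∑_k κ_k(i))`, `η = (3d)^d (2d/N + lam)`, if
`locEnt w k ≤ ∑ w_i κ_k(i)` for all weights `w`.
-/

namespace STK
open Finset RFold Filter Topology MeasureTheory Pool.Agent.MPac5134 Pool.Agent.MPac5134.Lip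
open scoped InnerProductSpace ENNReal

theorem win_int {B d : ℕ} (hB : 2 ≤ B) {lam : ℝ} (hl : 0 < lam) (hl1 : lam ≤ 1) {ε : ℝ}
    (hε : 0 < ε) :
    ∃ C : ℝ, 0 ≤ C ∧ ∀ (m : ℕ) (N : ℝ), 0 < N →
      ∀ (ι : Type) [Fintype ι] (θ : ι → Cap d) (x : ι → Sp d) (c0 : ℝ) (w : ι → ℝ), IsPr w →
      (∀ i, w i ≠ 0 → |x i (Fin.last d) - c0| ≤ (d / 2 + 2) * N ^ 2) →
      ∫⁻ h in Set.Ico c0 (c0 + lam * N ^ 2 / 2),
          ENNReal.ofReal (∑ i, w i * psi B N m θ x w i h) ≤
        ENNReal.ofReal (lam * N ^ 2 / 2 * (ε * m * Real.log B + C +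
          ∑ k ∈ range m, locEnt B N θ x w k)) := by
  obtain ⟨Q, C, hQ, hC, hmain⟩ := win_ent (B := B) (d := d) hB hl hl1 hε
  have hQ0 : (0 : ℝ) < Q := by exact_mod_cast hQ
  refine ⟨C, hC, ?_⟩
  intro m N hN ι _ θ x c0 w hw hx
  obtain ⟨T, hT⟩ : ∃ T : ℝ, T = ε * m * Real.log B + C +
    ∑ k ∈ range m, locEnt B N θ x w k := ⟨_, rfl⟩
  rw [← hT]
  have hL : 0 < lam * N ^ 2 / 2 := by positivity
  have hmeas : Measurable fun h : ℝ => ENNReal.ofReal (∑ i, w i * psi B N m θ x w i h) :=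
    ENNReal.measurable_ofReal.comp (Finset.measurable_fun_sum _ fun i _ =>
      (psi_measurable B N m θ x w i).const_mul _)
  have h1 := window_le hmeas (a := c0) hL hQ (T := ENNReal.ofReal (Q * T)) (fun τ h0 h1 => by
    have h2 := hmain m N hN ι θ x c0 w hw hx τ h0 h1
    rw [← hT] at h2
    have h3 : ∀ k : Fin Q, ∑ i, w i * psi B N m θ x w i
        (c0 + lam * N ^ 2 / 2 * ((((k : ℕ) : ℝ) + τ) / Q)) =
        cent w (fun i => Vc B N m (θ i) (x i))
        (fun i => axCell B N m (θ i) (x i) (c0 + lam * N ^ 2 * (((k : ℕ) + τ) / Q) / 2)) := by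
      intro k
      rw [cent_psi]
      have e : c0 + lam * N ^ 2 / 2 * ((((k : ℕ) : ℝ) + τ) / Q) =
          c0 + lam * N ^ 2 * (((k : ℕ) + τ) / Q) / 2 := by ring
      rw [e]
    rw [Finset.sum_congr rfl fun k _ => by rw [h3 k], ← ENNReal.ofReal_sum_of_nonneg
      fun k _ => cent_nonneg hw _ _]
    refine ENNReal.ofReal_le_ofReal ?_
    rw [← Finset.mul_sum] at h2
    rw [one_div, inv_mul_le_iff₀ hQ0] at h2
    exact h2)
  refine h1.trans (le_of_eq ?_)
  rw [← ENNReal.ofReal_mul (by positivity)]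
  congr 1
  field_simp

theorem scalar_le_one {d : ℕ} (θ : Cap d) {a : ℝ}
    (ha : θ.frame (Fin.last d) = a • normalVec θ.foot) : |a| ≤ 1 := by
  have h1 : ‖θ.frame (Fin.last d)‖ = 1 := θ.frame.orthonormal.1 _
  rw [ha, norm_smul, Real.norm_eq_abs] at h1
  have h2 := norm_normalVec_sq θ.foot
  have h3 : 0 ≤ ∑ i, θ.foot i ^ 2 := Finset.sum_nonneg fun i _ => sq_nonneg _
  have h4 : 1 ≤ ‖normalVec θ.foot‖ := by
    by_contra h5
    push Not at h5
    have := norm_nonneg (normalVec θ.foot)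
    nlinarith
  nlinarith [abs_nonneg a]

open Classical in
theorem exists_Psi {B d : ℕ} (hB : 2 ≤ B) (hd : 1 ≤ d) {lam : ℝ} (hl : 0 < lam) (hl1 : lam ≤ 1)
    {ε : ℝ} (hε : 0 < ε) :
    ∃ C : ℝ, 0 ≤ C ∧ ∀ (m : ℕ) (N : ℝ), (B : ℝ) ^ m ≤ N →
      ∀ (ι : Type) [Fintype ι] (θ : ι → Cap d) (x : ι → Sp d) (κ : ℕ → ι → ℝ),
      (∀ k i, 0 ≤ κ k i) → (∀ k w, IsPr w → locEnt B N θ x w k ≤ ∑ i, w i * κ k i) →
      ∀ (p : ι → ℝ), (∀ i, 0 < p i) →
      ∃ Ψ : ι → ℝ → ℝ≥0∞, (∀ i, Measurable (Ψ i)) ∧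
      (∀ (y : V d) (h : ℝ), (univ.filter fun i => pt (y, h) ∈ tube N (θ i) (x i)).Nonempty →
        ∀ G c : ℝ, ENNReal.ofReal (∑ i ∈ univ.filter fun i => pt (y, h) ∈ tube N (θ i) (x i),
          p i * (1 + G - Real.log (p i) - c)) ≤
        ∑ i ∈ univ.filter fun i => pt (y, h) ∈ tube N (θ i) (x i),
          (ENNReal.ofReal (p i * (Real.log ((4 * d + 1) ^ d) + Real.log (numSame B N θ x m i))) +
            Ψ i h) + ENNReal.ofReal (Real.exp (G - c))) ∧
      ∑ i, ENNReal.ofReal (area N (θ i) (x i)) * ∫⁻ h, Ψ i h ≤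
        ENNReal.ofReal (∑ i, p i * (ε * m * Real.log B + C + ∑ k ∈ range m, κ k i) *
          (N ^ (d + 2) * (1 + (3 * d) ^ d * (2 * d / N + lam)))) := by
  obtain ⟨C, hC, hwin⟩ := win_int (B := B) (d := d) hB hl hl1 hε
  refine ⟨C, hC, ?_⟩
  intro m N hN ι _ θ x κ hκ0 hκ p hp
  have hBn : 0 < B := by omega
  have hBr : (1 : ℝ) ≤ B := by exact_mod_cast (show 1 ≤ B by omega)
  have hlogB : 0 ≤ Real.log B := Real.log_nonneg hBr
  have hBm : (1 : ℝ) ≤ (B : ℝ) ^ m := one_le_pow₀ hBr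
  have hN1 : 1 ≤ N := hBm.trans hN
  have hN0 : 0 < N := by linarith
  have hdR : (1 : ℝ) ≤ d := by exact_mod_cast hd
  choose a ha ha3 using fun i => (θ i).exists_scalar
  have ha1 : ∀ i, |a i| ≤ 1 := fun i => scalar_le_one (θ i) (ha i)
  have ha0 : ∀ i, 0 < |a i| := fun i => by linarith [ha3 i]
  obtain ⟨H, hH⟩ : ∃ H : ι → ℝ, H = fun i => N ^ 2 * |a i| / 2 + d * N / 2 := ⟨_, rfl⟩
  obtain ⟨L, hL⟩ : ∃ L : ℝ, L = lam * N ^ 2 / 2 := ⟨_, rfl⟩
  have hL0 : 0 < L := by rw [hL]; positivity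
  have hN2 : N ≤ N ^ 2 := by nlinarith
  have hLN : L ≤ N ^ 2 / 2 := by
    rw [hL]
    nlinarith [sq_nonneg N]
  have hHN : ∀ i, H i ≤ N ^ 2 / 2 + d * N ^ 2 / 2 := by
    intro i
    rw [hH]
    simp only
    have h1 : N ^ 2 * |a i| ≤ N ^ 2 * 1 := mul_le_mul_of_nonneg_left (ha1 i) (by positivity)
    have h2 : (d : ℝ) * N ≤ d * N ^ 2 := mul_le_mul_of_nonneg_left hN2 (by positivity)
    linarith
  have hH0 : ∀ i, 0 ≤ H i := by
    intro i
    rw [hH]
    positivity
  obtain ⟨I, hI⟩ : ∃ I : ι → Finset ℤ, I = fun i =>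
    Finset.Icc ⌊(x i (Fin.last d) - H i) / L⌋ ⌊(x i (Fin.last d) + H i) / L⌋ := ⟨_, rfl⟩
  obtain ⟨A, hA⟩ : ∃ A : ι → ℝ, A = fun i => area N (θ i) (x i) := ⟨_, rfl⟩
  have hA0 : ∀ i, 0 < A i := fun i => by rw [hA]; exact area_pos hN0 _ _
  obtain ⟨K, hK⟩ : ∃ K : ι → ℝ, K = fun i => ∑ k ∈ range m, κ k i := ⟨_, rfl⟩
  have hK0 : ∀ i, 0 ≤ K i := by
    intro i
    rw [hK]
    exact Finset.sum_nonneg fun k _ => hκ0 k i
  obtain ⟨E0, hE0⟩ : ∃ E0 : ℝ, E0 = ε * m * Real.log B + C := ⟨_, rfl⟩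
  have hE00 : 0 ≤ E0 := by rw [hE0]; positivity
  obtain ⟨J, hJ⟩ : ∃ J : ℤ → Finset ι, J = fun q => univ.filter fun i => q ∈ I i := ⟨_, rfl⟩
  have hJm : ∀ q i, i ∈ J q ↔ q ∈ I i := by
    intro q i
    rw [hJ]
    simp
  obtain ⟨M, hM⟩ : ∃ M : ℤ → ℝ, M = fun q => ∑ i ∈ J q, p i * A i := ⟨_, rfl⟩
  obtain ⟨w, hw⟩ : ∃ w : ℤ → ι → ℝ, w = fun q i => if i ∈ J q then p i * A i / M q else 0 :=
    ⟨_, rfl⟩
  have hM0 : ∀ q, (J q).Nonempty → 0 < M q := by
    intro q hq
    rw [hM]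
    exact Finset.sum_pos (fun i _ => mul_pos (hp i) (hA0 i)) hq
  have hwpos : ∀ q i, i ∈ J q → 0 < w q i := by
    intro q i hi
    rw [hw]
    simp only
    rw [if_pos hi]
    exact div_pos (mul_pos (hp i) (hA0 i)) (hM0 q ⟨i, hi⟩)
  have hwpr : ∀ q, (J q).Nonempty → IsPr (w q) := by
    intro q hq
    refine ⟨fun i => ?_, ?_⟩
    · by_cases hi : i ∈ J q
      · exact (hwpos q i hi).le
      · rw [hw]
        simp only
        rw [if_neg hi]
    · have h1 : ∑ i, w q i = ∑ i ∈ J q, p i * A i / M q := by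
        rw [hw, ← Finset.sum_filter]
        refine Finset.sum_congr ?_ fun _ _ => rfl
        ext i
        simp
      rw [h1, ← Finset.sum_div]
      have h2 : ∑ i ∈ J q, p i * A i = M q := by rw [hM]
      rw [h2, div_self (hM0 q hq).ne']
  have hwsum : ∀ q (f : ι → ℝ), (J q).Nonempty → M q * ∑ i, w q i * f i =
      ∑ i ∈ J q, p i * A i * f i := by
    intro q f hq
    have h1 : ∑ i, w q i * f i = ∑ i ∈ J q, p i * A i / M q * f i := by
      rw [hw]
      simp only [ite_mul, zero_mul]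
      rw [← Finset.sum_filter]
      refine Finset.sum_congr ?_ fun _ _ => rfl
      ext i
      simp
    rw [h1, Finset.mul_sum]
    refine Finset.sum_congr rfl fun i _ => ?_
    have := (hM0 q hq).ne'
    field_simp
  obtain ⟨𝒬, h𝒬⟩ : ∃ 𝒬 : Finset ℤ, 𝒬 = univ.biUnion I := ⟨_, rfl⟩
  have h𝒬m : ∀ i, I i ⊆ 𝒬 := by
    intro i
    rw [h𝒬]
    exact Finset.subset_biUnion_of_mem I (Finset.mem_univ i)
  have hJne : ∀ q ∈ 𝒬, (J q).Nonempty := by
    intro q hq
    rw [h𝒬, Finset.mem_biUnion] at hq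
    obtain ⟨i, _, hi⟩ := hq
    exact ⟨i, (hJm q i).2 hi⟩
  have hpsim : ∀ q i, Measurable fun h : ℝ => ENNReal.ofReal (p i * psi B N m θ x (w q) i h) :=
    fun q i => ENNReal.measurable_ofReal.comp ((psi_measurable B N m θ x (w q) i).const_mul _)
  obtain ⟨Ψ, hΨ⟩ : ∃ Ψ : ι → ℝ → ℝ≥0∞, Ψ = fun i h => ∑ q ∈ I i,
    (Set.Ico (q * L) (q * L + L)).indicator
      (fun h => ENNReal.ofReal (p i * psi B N m θ x (w q) i h)) h := ⟨_, rfl⟩
  have hΨm : ∀ i, Measurable (Ψ i) := by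
    intro i
    rw [hΨ]
    exact Finset.measurable_fun_sum _ fun q _ => (hpsim q i).indicator measurableSet_Ico
  refine ⟨Ψ, hΨm, ?_, ?_⟩
  · -- the pointwise inequality
    intro y h hne G c
    obtain ⟨S, hS⟩ : ∃ S : Finset ι, S = univ.filter fun i => pt (y, h) ∈ tube N (θ i) (x i) :=
      ⟨_, rfl⟩
    rw [← hS] at hne ⊢
    have hSm : ∀ i ∈ S, pt (y, h) ∈ tube N (θ i) (x i) := by
      intro i hi
      rw [hS, Finset.mem_filter] at hi
      exact hi.2
    obtain ⟨q, hq⟩ : ∃ q : ℤ, q = ⌊h / L⌋ := ⟨_, rfl⟩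
    have hhq : h ∈ Set.Ico (q * L) (q * L + L) := by
      have h1 := Int.floor_le (h / L)
      have h2 := Int.lt_floor_add_one (h / L)
      rw [le_div_iff₀ hL0] at h1
      rw [div_lt_iff₀ hL0] at h2
      rw [hq, Set.mem_Ico]
      constructor <;> linarith
    have hqI : ∀ i ∈ S, q ∈ I i := by
      intro i hi
      have h1 := slice_range hN0.le (θ i) (x i) (ha i) (hSm i hi)
      rw [pt_last, abs_le] at h1
      have h2 : H i = N ^ 2 * |a i| / 2 + d * N / 2 := by rw [hH]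
      rw [← h2] at h1
      rw [hI, hq]
      simp only
      rw [Finset.mem_Icc]
      constructor
      · exact Int.floor_le_floor (div_le_div_of_nonneg_right (by linarith [h1.1]) hL0.le)
      · exact Int.floor_le_floor (div_le_div_of_nonneg_right (by linarith [h1.2]) hL0.le)
    have hJq : (J q).Nonempty := by
      obtain ⟨i, hi⟩ := hne
      exact ⟨i, (hJm q i).2 (hqI i hi)⟩
    have h3 := tubes_pt B N m θ x hd hBn hN (hwpr q hJq) p S y h hSm
      (fun i hi => (hwpos q i ((hJm q i).2 (hqI i hi))).ne') (fun i _ => hp i) G c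
    have hC1 : 0 ≤ Real.log ((4 * (d : ℝ) + 1) ^ d) := Real.log_nonneg (one_le_pow₀ (by linarith))
    have hn0 : ∀ i, 0 ≤ Real.log (numSame B N θ x m i : ℝ) := fun i => Real.log_natCast_nonneg _
    refine (ENNReal.ofReal_le_ofReal h3).trans (ENNReal.ofReal_add_le.trans ?_)
    refine add_le_add ?_ le_rfl
    have hps : ∀ i ∈ S, 0 ≤ psi B N m θ x (w q) i h := fun i hi =>
      psi_nonneg B N m θ x (hwpr q hJq) (hwpos q i ((hJm q i).2 (hqI i hi))).ne' h
    rw [ENNReal.ofReal_sum_of_nonneg fun i hi => mul_nonneg (hp i).le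
      (add_nonneg (add_nonneg hC1 (hn0 i)) (hps i hi))]
    refine Finset.sum_le_sum fun i hi => ?_
    rw [mul_add]
    refine ENNReal.ofReal_add_le.trans (add_le_add le_rfl ?_)
    rw [hΨ]
    simp only
    refine le_trans (le_of_eq ?_) (Finset.single_le_sum (s := I i) (f := fun q : ℤ =>
      (Set.Ico ((q : ℝ) * L) (q * L + L)).indicator
      (fun h => ENNReal.ofReal (p i * psi B N m θ x (w q) i h)) h) (fun _ _ => zero_le) (hqI i hi))
    rw [Set.indicator_of_mem hhq]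
  · -- the integrals
    have h1 : ∀ i, ∫⁻ h, Ψ i h = ∑ q ∈ I i, ∫⁻ h in Set.Ico ((q : ℝ) * L) (q * L + L),
        ENNReal.ofReal (p i * psi B N m θ x (w q) i h) := by
      intro i
      rw [hΨ]
      simp only
      rw [lintegral_finsetSum _ fun q _ => (hpsim q i).indicator measurableSet_Ico]
      refine Finset.sum_congr rfl fun q _ => ?_
      rw [lintegral_indicator measurableSet_Ico]
    have h2 : ∑ i, ENNReal.ofReal (area N (θ i) (x i)) * ∫⁻ h, Ψ i h =
        ∑ q ∈ 𝒬, ∑ i ∈ J q, ENNReal.ofReal (A i) * ∫⁻ h in Set.Ico ((q : ℝ) * L) (q * L + L),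
        ENNReal.ofReal (p i * psi B N m θ x (w q) i h) := by
      have e1 : ∀ i ∈ (univ : Finset ι), ENNReal.ofReal (area N (θ i) (x i)) * ∫⁻ h, Ψ i h =
          ∑ q ∈ I i, ENNReal.ofReal (A i) * ∫⁻ h in Set.Ico ((q : ℝ) * L) (q * L + L),
          ENNReal.ofReal (p i * psi B N m θ x (w q) i h) := by
        intro i _
        rw [h1, Finset.mul_sum, hA]
      rw [Finset.sum_congr rfl e1]
      refine Finset.sum_comm' ?_
      intro i q
      rw [hJm]
      simp only [Finset.mem_univ, true_and]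
      exact ⟨fun h => ⟨h, h𝒬m i h⟩, fun h => h.1⟩
    have h3 : ∀ q ∈ 𝒬, ∑ i ∈ J q, ENNReal.ofReal (A i) *
        ∫⁻ h in Set.Ico ((q : ℝ) * L) (q * L + L),
        ENNReal.ofReal (p i * psi B N m θ x (w q) i h) ≤
        ENNReal.ofReal (∑ i ∈ J q, L * (p i * A i * (E0 + K i))) := by
      intro q hq
      have hJq := hJne q hq
      have e1 : ∑ i ∈ J q, ENNReal.ofReal (A i) * ∫⁻ h in Set.Ico ((q : ℝ) * L) (q * L + L),
          ENNReal.ofReal (p i * psi B N m θ x (w q) i h) =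
          ∫⁻ h in Set.Ico ((q : ℝ) * L) (q * L + L), ENNReal.ofReal (M q) *
            ENNReal.ofReal (∑ i, w q i * psi B N m θ x (w q) i h) := by
        have e2 : ∀ i ∈ J q, ENNReal.ofReal (A i) * ∫⁻ h in Set.Ico ((q : ℝ) * L) (q * L + L),
            ENNReal.ofReal (p i * psi B N m θ x (w q) i h) =
            ∫⁻ h in Set.Ico ((q : ℝ) * L) (q * L + L), ENNReal.ofReal (A i) *
            ENNReal.ofReal (p i * psi B N m θ x (w q) i h) := by
          intro i _
          rw [lintegral_const_mul _ (hpsim q i)]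
        rw [Finset.sum_congr rfl e2, ← lintegral_finsetSum _ fun i _ => (hpsim q i).const_mul _]
        refine lintegral_congr fun h => ?_
        rw [← ENNReal.ofReal_mul (hM0 q hJq).le, hwsum q (fun i => psi B N m θ x (w q) i h) hJq,
          ENNReal.ofReal_sum_of_nonneg fun i hi => mul_nonneg (mul_nonneg (hp i).le (hA0 i).le)
            (psi_nonneg B N m θ x (hwpr q hJq) (hwpos q i hi).ne' h)]
        refine Finset.sum_congr rfl fun i _ => ?_
        rw [← ENNReal.ofReal_mul (hA0 i).le]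
        congr 1
        ring
      rw [e1, lintegral_const_mul']
      · have e3 := hwin m N hN0 ι θ x (q * L) (w q) (hwpr q hJq) (fun i hi => by
          have hiJ : i ∈ J q := by
            by_contra hcon
            apply hi
            rw [hw]
            simp only
            rw [if_neg hcon]
          have hqI := (hJm q i).1 hiJ
          rw [hI] at hqI
          simp only at hqI
          rw [Finset.mem_Icc] at hqI
          have b1 : ((q : ℤ) : ℝ) ≤ (x i (Fin.last d) + H i) / L :=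
            (Int.cast_le.2 hqI.2).trans (Int.floor_le _)
          have b2 : (x i (Fin.last d) - H i) / L < q + 1 := by
            have b3 := Int.lt_floor_add_one ((x i (Fin.last d) - H i) / L)
            have b4 : (⌊(x i (Fin.last d) - H i) / L⌋ : ℝ) ≤ q := Int.cast_le.2 hqI.1
            linarith
          rw [le_div_iff₀ hL0] at b1
          rw [div_lt_iff₀ hL0] at b2
          have b5 := hHN i
          have b6 := hH0 i
          rw [abs_le]
          constructor <;> nlinarith)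
        rw [← hL, ← hE0] at e3
        have e8 : ∑ k ∈ range m, locEnt B N θ x (w q) k ≤ ∑ i, w q i * K i := by
          refine (Finset.sum_le_sum fun k _ => hκ k (w q) (hwpr q hJq)).trans (le_of_eq ?_)
          rw [Finset.sum_comm, hK]
          refine Finset.sum_congr rfl fun i _ => ?_
          rw [Finset.mul_sum]
        have e9 := e3.trans (ENNReal.ofReal_le_ofReal (mul_le_mul_of_nonneg_left
          (add_le_add (le_refl E0) e8) hL0.le))
        refine (mul_le_mul_right e9 _).trans (le_of_eq ?_)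
        rw [← ENNReal.ofReal_mul (hM0 q hJq).le]
        congr 1
        have e4 := hwsum q K hJq
        have e6 : M q * (L * (E0 + ∑ i, w q i * K i)) = L * (M q * E0 + M q * ∑ i, w q i * K i) := by
          ring
        rw [e6, e4, ← Finset.mul_sum]
        congr 1
        have e7 : M q * E0 = ∑ i ∈ J q, p i * A i * E0 := by rw [hM, Finset.sum_mul]
        rw [e7, ← Finset.sum_add_distrib]
        refine Finset.sum_congr rfl fun i _ => ?_
        ring
      · exact ENNReal.ofReal_ne_top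
    rw [h2]
    refine (Finset.sum_le_sum h3).trans ?_
    rw [← ENNReal.ofReal_sum_of_nonneg fun q _ => Finset.sum_nonneg fun i _ =>
      mul_nonneg hL0.le (mul_nonneg (mul_nonneg (hp i).le (hA0 i).le)
        (add_nonneg hE00 (hK0 i)))]
    refine ENNReal.ofReal_le_ofReal ?_
    have h4 : ∑ q ∈ 𝒬, ∑ i ∈ J q, L * (p i * A i * (E0 + K i)) =
        ∑ i, ∑ q ∈ I i, L * (p i * A i * (E0 + K i)) := by
      refine Finset.sum_comm' ?_
      intro q i
      rw [hJm]
      simp only [Finset.mem_univ, and_true]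
      exact ⟨fun h => h.2, fun h => ⟨h𝒬m i h, h⟩⟩
    rw [h4]
    refine Finset.sum_le_sum fun i _ => ?_
    rw [Finset.sum_const, nsmul_eq_mul]
    have h5 : ((I i).card : ℝ) * L ≤ 2 * H i + 2 * L := by
      have c1 : (((I i).card : ℕ) : ℝ) ≤ (x i (Fin.last d) + H i) / L -
          (x i (Fin.last d) - H i) / L + 2 := by
        rw [hI]
        simp only
        rw [Int.card_Icc]
        have c2 : ⌊(x i (Fin.last d) - H i) / L⌋ ≤ ⌊(x i (Fin.last d) + H i) / L⌋ :=
          Int.floor_le_floor (div_le_div_of_nonneg_right (by linarith [hH0 i]) hL0.le)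
        have c3 : (((⌊(x i (Fin.last d) + H i) / L⌋ + 1 -
            ⌊(x i (Fin.last d) - H i) / L⌋).toNat : ℤ) : ℝ) =
            ((⌊(x i (Fin.last d) + H i) / L⌋ + 1 - ⌊(x i (Fin.last d) - H i) / L⌋ : ℤ) : ℝ) := by
          rw [Int.toNat_of_nonneg (by omega)]
        rw [Int.cast_natCast] at c3
        rw [c3]
        push_cast
        have c4 := Int.floor_le ((x i (Fin.last d) + H i) / L)
        have c5 := Int.lt_floor_add_one ((x i (Fin.last d) - H i) / L)
        linarith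
      have c6 := mul_le_mul_of_nonneg_right c1 hL0.le
      refine c6.trans (le_of_eq ?_)
      field_simp
      ring
    have h6 : A i * (2 * H i + 2 * L) ≤ N ^ (d + 2) * (1 + (3 * d) ^ d * (2 * d / N + lam)) := by
      have c1 : A i * (N ^ 2 * |a i| - d * N) ≤ N ^ (d + 2) := by
        rw [hA]
        exact area_mul_le hN0 (θ i) (x i) (ha i) (ha0 i)
      have c2 : A i ≤ (3 * d * N) ^ d := by
        rw [hA]
        exact area_le hN0.le _ _
      have c3 : 2 * H i + 2 * L = (N ^ 2 * |a i| - d * N) + (2 * d * N + lam * N ^ 2) := by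
        rw [hH, hL]
        ring
      have c4 : A i * (2 * d * N + lam * N ^ 2) ≤ (3 * d * N) ^ d * (2 * d * N + lam * N ^ 2) :=
        mul_le_mul_of_nonneg_right c2 (by positivity)
      have c5 : (3 * (d : ℝ) * N) ^ d * (2 * d * N + lam * N ^ 2) =
          N ^ (d + 2) * ((3 * d) ^ d * (2 * d / N + lam)) := by
        rw [mul_pow, pow_add]
        field_simp
      rw [c3, mul_add]
      rw [c5] at c4
      linarith
    have h7 : (E0 + K i) = ε * m * Real.log B + C + ∑ k ∈ range m, κ k i := by rw [hE0, hK]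
    rw [← h7]
    have h8 : 0 ≤ p i * (E0 + K i) := mul_nonneg (hp i).le (add_nonneg hE00 (hK0 i))
    calc ((I i).card : ℝ) * (L * (p i * A i * (E0 + K i)))
        = (p i * (E0 + K i)) * (A i * (((I i).card : ℝ) * L)) := by ring
      _ ≤ (p i * (E0 + K i)) * (A i * (2 * H i + 2 * L)) :=
          mul_le_mul_of_nonneg_left (mul_le_mul_of_nonneg_left h5 (hA0 i).le) h8
      _ ≤ (p i * (E0 + K i)) * (N ^ (d + 2) * (1 + (3 * d) ^ d * (2 * d / N + lam))) :=
          mul_le_mul_of_nonneg_left h6 h8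

end STK
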