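import Pool.Agent.Lib.MP_ac5134_an.STK.KWinE

/-!
# STK-KWinF: the geometric mean inequality for all families

`max_gen`: `∑ (|T_i| / D_i) exp (mean of G over T_i) ≤ C N^ε ∫_{⋃ T_i} e^G`, `D_i = numSame_m(i) exp (∑_k κ_k(i))`, if
`locEnt w k ≤ ∑ w_i κ_k(i)` for all weights `w` and `0 ≤ κ ≤ b`.
Proof.  `a_i` the mean of `G` over `T_i`, `p_i = e^(a_i) / (D_i Z)`; integrate the pointwise inequality of
`exists_Psi` with the constant `c = log (∫ e^G / N^(d+2))`.
-/

namespace STK
open Finset RFold Filter Topology MeasureTheory Pool.Agent.MPac5134 Pool.Agent.MPac5134.Lip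
open scoped InnerProductSpace ENNReal

theorem numPos_pos {B d : ℕ} {N : ℝ} {ι : Type*} [Fintype ι] (θ : ι → Cap d) (x : ι → Sp d)
    (k : ℕ) (i : ι) : 0 < numPos B N θ x k i := by
  classical
  unfold numPos
  refine Finset.card_pos.mpr ⟨posCell B N (k + 1) (θ i) (x i), ?_⟩
  rw [Finset.mem_image]
  exact ⟨i, by simp, rfl⟩

theorem numPos_le {B d : ℕ} (hB : 0 < B) {N : ℝ} {ι : Type*} [Fintype ι] (θ : ι → Cap d)
    (x : ι → Sp d) (k : ℕ) (i : ι) : numPos B N θ x k i ≤ B ^ (d + 1) := by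
  classical
  unfold numPos
  have h1 : ((univ.filter fun j => posCell B N k (θ j) (x j) = posCell B N k (θ i) (x i) ∧
      dirCell B (k + 1) (θ j) = dirCell B (k + 1) (θ i)).image
      fun j => posCell B N (k + 1) (θ j) (x j)) ⊆ Fintype.piFinset (fun r : Fin (d + 1) =>
        Finset.Icc ((B : ℤ) * posCell B N k (θ i) (x i) r)
          ((B : ℤ) * posCell B N k (θ i) (x i) r + (B - 1))) := by
    intro v hv
    rw [Finset.mem_image] at hv
    obtain ⟨j, hj, rfl⟩ := hv
    rw [Finset.mem_filter] at hj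
    rw [Fintype.mem_piFinset]
    intro r
    rw [← hj.2.1]
    unfold posCell
    have h2 := floor_coarse hB (Nat.le_succ k) (axisPos N (θ j) (x j) r)
    have h3 : k.succ - k = 1 := by omega
    rw [h3, pow_one] at h2
    rw [h2]
    have hB' : (0 : ℤ) < B := by exact_mod_cast hB
    have h4 := Int.mul_ediv_self_le (x := ⌊(B : ℝ) ^ k.succ * axisPos N (θ j) (x j) r⌋) hB'.ne'
    have h5 := Int.lt_mul_ediv_self_add (x := ⌊(B : ℝ) ^ k.succ * axisPos N (θ j) (x j) r⌋) hB'
    rw [Finset.mem_Icc]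
    constructor
    · exact h4
    · show ⌊(B : ℝ) ^ k.succ * axisPos N (θ j) (x j) r⌋ ≤ _
      omega
  refine (Finset.card_le_card h1).trans (le_of_eq ?_)
  rw [Fintype.card_piFinset]
  have h2 : ∀ r : Fin (d + 1), (Finset.Icc ((B : ℤ) * posCell B N k (θ i) (x i) r)
      ((B : ℤ) * posCell B N k (θ i) (x i) r + (B - 1))).card = B := by
    intro r
    rw [Int.card_Icc]
    omega
  rw [Finset.prod_congr rfl fun r _ => h2 r, Finset.prod_const, Finset.card_univ,
    Fintype.card_fin]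

theorem pt_surj {d : ℕ} (z : Sp d) : pt (fun r => z r.castSucc, z (Fin.last d)) = z := by
  ext r
  refine Fin.lastCases ?_ (fun r => ?_) r
  · rw [pt_last]
  · rw [pt_cast]

private theorem integral_le_of {α : Type*} [MeasurableSpace α] {μ : Measure α} {F : α → ℝ}
    (hF : Integrable F μ) {R : ℝ} (hR : 0 ≤ R)
    (h : ∫⁻ z, ENNReal.ofReal (F z) ∂μ ≤ ENNReal.ofReal R) : ∫ z, F z ∂μ ≤ R := by
  rw [integral_eq_lintegral_pos_part_sub_lintegral_neg_part hF]
  have h1 : (∫⁻ z, ENNReal.ofReal (F z) ∂μ).toReal ≤ R := by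
    rw [← ENNReal.toReal_ofReal hR]
    exact ENNReal.toReal_mono ENNReal.ofReal_ne_top h
  have h2 : 0 ≤ (∫⁻ z, ENNReal.ofReal (-F z) ∂μ).toReal := ENNReal.toReal_nonneg
  linarith

open Classical in
/-- the inequality for positive weights `p`, integrated -/
theorem weights_ineq {B d : ℕ} (hB : 2 ≤ B) (hd : 1 ≤ d) {lam : ℝ} (hl : 0 < lam) (hl1 : lam ≤ 1)
    {ε : ℝ} (hε : 0 < ε) :
    ∃ C : ℝ, 0 ≤ C ∧ ∀ (m : ℕ) (N : ℝ), (B : ℝ) ^ m ≤ N →
      ∀ (ι : Type) [Fintype ι] (θ : ι → Cap d) (x : ι → Sp d) (κ : ℕ → ι → ℝ),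
      (∀ k i, 0 ≤ κ k i) → (∀ k w, IsPr w → locEnt B N θ x w k ≤ ∑ i, w i * κ k i) →
      ∀ (p : ι → ℝ), (∀ i, 0 < p i) →
      ∀ (G : Sp d → ℝ), (∀ i, IntegrableOn G (tube N (θ i) (x i))) →
      ∀ (c E : ℝ), 0 ≤ E →
      ∫⁻ z in ⋃ i, tube N (θ i) (x i), ENNReal.ofReal (Real.exp (G z)) = ENNReal.ofReal E →
      ∑ i, p i * ((1 - Real.log (p i) - c) * N ^ (d + 2) + ∫ z in tube N (θ i) (x i), G z) ≤
        ∑ i, p i * (Real.log ((4 * d + 1) ^ d) + Real.log (numSame B N θ x m i)) * N ^ (d + 2) +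
        ∑ i, p i * (ε * m * Real.log B + C + ∑ k ∈ range m, κ k i) *
          (N ^ (d + 2) * (1 + (3 * d) ^ d * (2 * d / N + lam))) + Real.exp (-c) * E := by
  obtain ⟨C, hC, hPsi⟩ := exists_Psi (B := B) (d := d) hB hd hl hl1 hε
  refine ⟨C, hC, ?_⟩
  intro m N hN ι _ θ x κ hκ0 hκ p hp G hG c E hE hEG
  have hBr : (1 : ℝ) ≤ B := by exact_mod_cast (show 1 ≤ B by omega)
  have hlogB : 0 ≤ Real.log B := Real.log_nonneg hBr
  have hBm : (1 : ℝ) ≤ (B : ℝ) ^ m := one_le_pow₀ hBr
  have hN1 : 1 ≤ N := hBm.trans hN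
  have hN0 : 0 < N := by linarith
  obtain ⟨Ψ, hΨm, hpt, hint⟩ := hPsi m N hN ι θ x κ hκ0 hκ p hp
  obtain ⟨T, hT⟩ : ∃ T : ι → Set (Sp d), T = fun i => tube N (θ i) (x i) := ⟨_, rfl⟩
  have hTi : ∀ i, tube N (θ i) (x i) = T i := fun i => by rw [hT]
  simp only [hTi] at hG hEG hpt ⊢
  have hTm : ∀ i, MeasurableSet (T i) := fun i => by rw [hT]; exact measurableSet_tube _ _ _
  have hTv : ∀ i, volume (T i) = ENNReal.ofReal (N ^ (d + 2)) := fun i => by
    rw [hT]
    exact volume_tube hN0.le _ _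
  have hTr : ∀ i, volume.real (T i) = N ^ (d + 2) := fun i => by
    rw [Measure.real, hTv, ENNReal.toReal_ofReal (by positivity)]
  have hUm : MeasurableSet (⋃ i, T i) := MeasurableSet.iUnion hTm
  -- the function
  obtain ⟨F, hF⟩ : ∃ F : Sp d → ℝ, F = fun z => ∑ i, (T i).indicator
    (fun z => p i * (1 + G z - Real.log (p i) - c)) z := ⟨_, rfl⟩
  have hint1 : ∀ i, IntegrableOn (fun z => p i * (1 + G z - Real.log (p i) - c)) (T i) := by
    intro i
    have h1 : IntegrableOn (fun _ : Sp d => (1 - Real.log (p i) - c : ℝ)) (T i) :=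
      integrableOn_const (by rw [hTv]; exact ENNReal.ofReal_ne_top)
    have h2 : (fun z => p i * (1 + G z - Real.log (p i) - c)) =
        fun z => p i * ((1 - Real.log (p i) - c) + G z) := by
      funext z
      ring
    rw [h2]
    exact (h1.add (hG i)).const_mul _
  have hFint : Integrable F := by
    rw [hF]
    exact integrable_finsetSum _ fun i _ => (integrable_indicator_iff (hTm i)).2 (hint1 i)
  have hFval : ∫ z, F z = ∑ i, p i * ((1 - Real.log (p i) - c) * N ^ (d + 2) +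
      ∫ z in T i, G z) := by
    rw [hF]
    simp only
    rw [integral_finsetSum _ fun i _ => (integrable_indicator_iff (hTm i)).2 (hint1 i)]
    refine Finset.sum_congr rfl fun i _ => ?_
    rw [integral_indicator (hTm i), integral_const_mul]
    congr 1
    have h1 : IntegrableOn (fun _ : Sp d => (1 - Real.log (p i) - c : ℝ)) (T i) :=
      integrableOn_const (by rw [hTv]; exact ENNReal.ofReal_ne_top)
    have h2 : ∀ z, 1 + G z - Real.log (p i) - c = (1 - Real.log (p i) - c) + G z := fun z => by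
      ring
    simp_rw [h2]
    rw [integral_add h1 (hG i), setIntegral_const, hTr, smul_eq_mul, mul_comm (N ^ (d + 2))]
  rw [← hFval]
  -- the bound
  have hC1 : 0 ≤ Real.log ((4 * (d : ℝ) + 1) ^ d) := by
    have : (0 : ℝ) ≤ d := Nat.cast_nonneg d
    exact Real.log_nonneg (one_le_pow₀ (by linarith))
  have hn0 : ∀ i, 0 ≤ Real.log (numSame B N θ x m i : ℝ) := fun i => Real.log_natCast_nonneg _
  have hK0 : ∀ i, 0 ≤ ∑ k ∈ range m, κ k i := fun i => Finset.sum_nonneg fun k _ => hκ0 k i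
  have hlast : Measurable fun z : Sp d => z (Fin.last d) := by fun_prop
  obtain ⟨b, hb⟩ : ∃ b : ι → ℝ, b = fun i =>
    p i * (Real.log ((4 * d + 1) ^ d) + Real.log (numSame B N θ x m i)) := ⟨_, rfl⟩
  have hb0 : ∀ i, 0 ≤ b i := fun i => by
    rw [hb]
    exact mul_nonneg (hp i).le (add_nonneg hC1 (hn0 i))
  have hptz : ∀ z : Sp d, ENNReal.ofReal (F z) ≤ ∑ i, (T i).indicator
      (fun z => ENNReal.ofReal (b i) + Ψ i (z (Fin.last d))) z +
      (⋃ i, T i).indicator (fun z => ENNReal.ofReal (Real.exp (G z - c))) z := by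
    intro z
    obtain ⟨S, hS⟩ : ∃ S : Finset ι, S = univ.filter fun i => z ∈ T i := ⟨_, rfl⟩
    have hFz : F z = ∑ i ∈ S, p i * (1 + G z - Real.log (p i) - c) := by
      rw [hF, hS, Finset.sum_filter]
      simp only
      refine Finset.sum_congr rfl fun i _ => ?_
      rw [Set.indicator_apply]
    have hSz : ∑ i, (T i).indicator (fun z => ENNReal.ofReal (b i) + Ψ i (z (Fin.last d))) z =
        ∑ i ∈ S, (ENNReal.ofReal (b i) + Ψ i (z (Fin.last d))) := by
      rw [hS, Finset.sum_filter]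
      refine Finset.sum_congr rfl fun i _ => ?_
      rw [Set.indicator_apply]
    rw [hFz, hSz]
    rcases S.eq_empty_or_nonempty with he | hne
    · rw [he, Finset.sum_empty, ENNReal.ofReal_zero]
      exact zero_le
    · have h1 := hpt (fun r => z r.castSucc) (z (Fin.last d))
      rw [pt_surj, ← hS] at h1
      have h2 := h1 hne (G z) c
      have hzU : z ∈ ⋃ i, T i := by
        obtain ⟨i, hi⟩ := hne
        rw [hS, Finset.mem_filter] at hi
        exact Set.mem_iUnion.2 ⟨i, hi.2⟩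
      rw [Set.indicator_of_mem hzU]
      rw [hb]
      exact h2
  have hmi : ∀ i ∈ (univ : Finset ι), Measurable ((T i).indicator
      (fun z : Sp d => ENNReal.ofReal (b i) + Ψ i (z (Fin.last d)))) := fun i _ =>
    (measurable_const.add ((hΨm i).comp hlast)).indicator (hTm i)
  have hR1 : 0 ≤ ∑ i, b i * N ^ (d + 2) := Finset.sum_nonneg fun i _ =>
    mul_nonneg (hb0 i) (by positivity)
  obtain ⟨R2, hR2⟩ : ∃ R2 : ℝ, R2 = ∑ i, p i * (ε * m * Real.log B + C +
          ∑ k ∈ range m, κ k i) *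
          (N ^ (d + 2) * (1 + (3 * d) ^ d * (2 * d / N + lam))) := ⟨_, rfl⟩
  have hR20 : 0 ≤ R2 := by
    rw [hR2]
    refine Finset.sum_nonneg fun i _ => mul_nonneg (mul_nonneg (hp i).le ?_) (by positivity)
    have := hK0 i
    positivity
  rw [← hR2] at hint ⊢
  have hlin : ∫⁻ z, ENNReal.ofReal (F z) ≤
      ENNReal.ofReal (∑ i, b i * N ^ (d + 2) + R2 + Real.exp (-c) * E) := by
    refine (lintegral_mono hptz).trans ?_
    rw [lintegral_add_left (Finset.measurable_fun_sum _ hmi), lintegral_finsetSum _ hmi,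
      ENNReal.ofReal_add (add_nonneg hR1 hR20) (by positivity), ENNReal.ofReal_add hR1 hR20]
    refine add_le_add ?_ (le_of_eq ?_)
    · have h1 : ∀ i ∈ (univ : Finset ι), ∫⁻ z, (T i).indicator
          (fun z : Sp d => ENNReal.ofReal (b i) + Ψ i (z (Fin.last d))) z ≤
          ENNReal.ofReal (b i * N ^ (d + 2)) +
          ENNReal.ofReal (area N (θ i) (x i)) * ∫⁻ h, Ψ i h := by
        intro i _
        obtain ⟨a, ha, _⟩ := (θ i).exists_scalar
        rw [lintegral_indicator (hTm i), lintegral_add_left measurable_const, setLIntegral_const,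
          hTv, ← ENNReal.ofReal_mul (hb0 i)]
        refine add_le_add le_rfl ?_
        have h2 := lintegral_tube_le hN0.le (θ i) (x i) ha (hΨm i)
        rw [hTi] at h2
        refine h2.trans (mul_le_mul_right (setLIntegral_le_lintegral _ _) _)
      refine (Finset.sum_le_sum h1).trans ?_
      rw [Finset.sum_add_distrib]
      refine add_le_add (le_of_eq ?_) hint
      rw [ENNReal.ofReal_sum_of_nonneg fun i _ => mul_nonneg (hb0 i) (by positivity)]
    · rw [lintegral_indicator hUm]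
      have h3 : ∀ z, ENNReal.ofReal (Real.exp (G z - c)) =
          ENNReal.ofReal (Real.exp (-c)) * ENNReal.ofReal (Real.exp (G z)) := by
        intro z
        rw [← ENNReal.ofReal_mul (Real.exp_pos _).le, ← Real.exp_add]
        congr 2
        ring
      simp_rw [h3]
      rw [lintegral_const_mul' _ _ ENNReal.ofReal_ne_top, hEG,
        ← ENNReal.ofReal_mul (Real.exp_pos _).le]
  have hfin := integral_le_of hFint (add_nonneg (add_nonneg hR1 hR20) (by positivity)) hlin
  rw [hb] at hfin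
  exact hfin

private theorem log_div_le {N : ℝ} (hN : 1 ≤ N) : Real.log N / N ≤ 1 := by
  rw [div_le_one (by linarith)]
  have := Real.log_le_sub_one_of_pos (show 0 < N by linarith)
  linarith

theorem factorPos_pos {B d m : ℕ} {N : ℝ} {ι : Type} [Fintype ι] (θ : ι → Cap d) (x : ι → Sp d)
    (i : ι) : 0 < factorPos B N θ x m i := by
  unfold factorPos
  have h1 : (0 : ℝ) < numSame B N θ x m i := by exact_mod_cast numSame_pos' B N m θ x i
  have h2 : ∀ k, (0 : ℝ) < numPos B N θ x k i := fun k => by exact_mod_cast numPos_pos θ x k i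
  exact mul_pos h1 (Finset.prod_pos fun k _ => h2 k)

open Classical in
/-- THE GEOMETRIC MEAN INEQUALITY, general bounds for the local entropies. -/
theorem max_gen {B d : ℕ} (hB : 2 ≤ B) (hd : 1 ≤ d) {ε : ℝ} (hε : 0 < ε) {b : ℝ} (hb : 0 ≤ b) :
    ∃ C : ℝ, 0 < C ∧ ∀ (m : ℕ) (N : ℝ), (B : ℝ) ^ m ≤ N →
      ∀ (ι : Type) [Fintype ι] (θ : ι → Cap d) (x : ι → Sp d) (κ : ℕ → ι → ℝ),
      (∀ k i, 0 ≤ κ k i) → (∀ k i, κ k i ≤ b) →
      (∀ k w, IsPr w → locEnt B N θ x w k ≤ ∑ i, w i * κ k i) → ∀ (G : Sp d → ℝ),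
      (∀ i, IntegrableOn G (tube N (θ i) (x i))) →
      ∑ i, ENNReal.ofReal (N ^ (d + 2) / (numSame B N θ x m i * Real.exp (∑ k ∈ range m, κ k i)) *
          Real.exp (⨍ z in tube N (θ i) (x i), G z)) ≤
        ENNReal.ofReal (C * N ^ ε) *
          ∫⁻ z in ⋃ i, tube N (θ i) (x i), ENNReal.ofReal (Real.exp (G z)) := by
  have hdR : (1 : ℝ) ≤ d := by exact_mod_cast hd
  obtain ⟨P, hP⟩ : ∃ P : ℝ, P = (3 * (d : ℝ)) ^ d := ⟨_, rfl⟩
  have hP0 : 0 < P := by rw [hP]; positivity
  obtain ⟨A1, hA1⟩ : ∃ A1 : ℝ, A1 = P * (2 * d + 1) := ⟨_, rfl⟩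
  have hA10 : 0 < A1 := by rw [hA1]; positivity
  have hB2 : (2 : ℝ) ≤ B := by exact_mod_cast hB
  have hlogB0 : 0 < Real.log B := Real.log_pos (by linarith)
  obtain ⟨b', hb'⟩ : ∃ b' : ℝ, b' = b / Real.log B + 1 := ⟨_, rfl⟩
  have hb'0 : 0 < b' := by rw [hb']; positivity
  obtain ⟨lam, hlam⟩ : ∃ lam : ℝ, lam = min 1 (ε / (2 * P * b')) := ⟨_, rfl⟩
  have hl : 0 < lam := by rw [hlam]; exact lt_min one_pos (by positivity)
  have hl1 : lam ≤ 1 := by rw [hlam]; exact min_le_left _ _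
  have hl2 : P * lam * b' ≤ ε / 2 := by
    have h1 : lam ≤ ε / (2 * P * b') := by rw [hlam]; exact min_le_right _ _
    rw [le_div_iff₀ (by positivity)] at h1
    linarith
  obtain ⟨ε', hε'⟩ : ∃ ε' : ℝ, ε' = ε / (2 * (1 + A1)) := ⟨_, rfl⟩
  have hε'0 : 0 < ε' := by rw [hε']; positivity
  have hε'1 : ε' * (1 + A1) = ε / 2 := by
    rw [hε']
    field_simp
  obtain ⟨C, hC, hmain⟩ := weights_ineq (B := B) (d := d) hB hd hl hl1 hε'0
  obtain ⟨A2, hA2⟩ : ∃ A2 : ℝ, A2 = Real.log ((4 * d + 1) ^ d) + C * (1 + A1) +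
    P * (2 * d) * b' := ⟨_, rfl⟩
  refine ⟨Real.exp A2, Real.exp_pos _, ?_⟩
  intro m N hN ι _ θ x κ hκ0 hκb hκ G hG
  rcases isEmpty_or_nonempty ι with hem | hne
  · rw [Finset.univ_eq_empty, Finset.sum_empty]
    exact zero_le
  have hBr : (1 : ℝ) ≤ B := by exact_mod_cast (show 1 ≤ B by omega)
  have hB0 : (0 : ℝ) < B := by linarith
  have hlogB : 0 ≤ Real.log B := Real.log_nonneg hBr
  have hBm : (1 : ℝ) ≤ (B : ℝ) ^ m := one_le_pow₀ hBr
  have hN1 : 1 ≤ N := hBm.trans hN
  have hN0 : 0 < N := by linarith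
  have hNε : 0 < N ^ ε := Real.rpow_pos_of_pos hN0 _
  have hlogN : 0 ≤ Real.log N := Real.log_nonneg hN1
  have hmlog : m * Real.log B ≤ Real.log N := by
    rw [← Real.log_pow]
    exact Real.log_le_log (by positivity) hN
  have hT0 : (0 : ℝ) < N ^ (d + 2) := by positivity
  obtain ⟨EE, hEE⟩ : ∃ EE : ℝ≥0∞, EE = ∫⁻ z in ⋃ i, tube N (θ i) (x i),
    ENNReal.ofReal (Real.exp (G z)) := ⟨_, rfl⟩
  rw [← hEE]
  by_cases htop : EE = ⊤
  · rw [htop, ENNReal.mul_top]
    · exact le_top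
    · rw [ne_eq, ENNReal.ofReal_eq_zero, not_le]
      exact mul_pos (Real.exp_pos _) hNε
  obtain ⟨E, hE⟩ : ∃ E : ℝ, E = EE.toReal := ⟨_, rfl⟩
  have hEE' : EE = ENNReal.ofReal E := by rw [hE, ENNReal.ofReal_toReal htop]
  have hE0 : 0 ≤ E := by rw [hE]; exact ENNReal.toReal_nonneg
  -- the weights
  obtain ⟨a, ha⟩ : ∃ a : ι → ℝ, a = fun i => ⨍ z in tube N (θ i) (x i), G z := ⟨_, rfl⟩
  have haint : ∀ i, ∫ z in tube N (θ i) (x i), G z = N ^ (d + 2) * a i := by
    intro i
    rw [ha]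
    simp only
    rw [setAverage_eq, Measure.real, volume_tube hN0.le, ENNReal.toReal_ofReal hT0.le,
      smul_eq_mul]
    field_simp
  have hnum0 : ∀ i, (0 : ℝ) < numSame B N θ x m i := fun i => by
    exact_mod_cast numSame_pos' B N m θ x i
  obtain ⟨D, hD⟩ : ∃ D : ι → ℝ, D = fun i =>
    numSame B N θ x m i * Real.exp (∑ k ∈ range m, κ k i) := ⟨_, rfl⟩
  have hD0 : ∀ i, 0 < D i := fun i => by
    rw [hD]
    exact mul_pos (hnum0 i) (Real.exp_pos _)
  obtain ⟨K, hK⟩ : ∃ K : ι → ℝ, K = fun i => ∑ k ∈ range m, κ k i := ⟨_, rfl⟩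
  have hK0 : ∀ i, 0 ≤ K i := by
    intro i
    rw [hK]
    exact Finset.sum_nonneg fun k _ => hκ0 k i
  have hK1 : ∀ i, K i ≤ b' * Real.log N := by
    intro i
    rw [hK]
    simp only
    have h1 : ∀ k ∈ range m, κ k i ≤ b' * Real.log B := by
      intro k _
      refine (hκb k i).trans ?_
      rw [hb', add_mul, div_mul_cancel₀ _ hlogB0.ne', one_mul]
      linarith
    refine (Finset.sum_le_sum h1).trans ?_
    rw [Finset.sum_const, Finset.card_range, nsmul_eq_mul]
    calc (m : ℝ) * (b' * Real.log B) = b' * (m * Real.log B) := by ring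
      _ ≤ b' * Real.log N := mul_le_mul_of_nonneg_left hmlog hb'0.le
  have hlogD : ∀ i, Real.log (D i) = Real.log (numSame B N θ x m i) + K i := by
    intro i
    rw [hD, hK]
    simp only
    rw [Real.log_mul (hnum0 i).ne' (Real.exp_pos _).ne', Real.log_exp]
  obtain ⟨Z, hZ⟩ : ∃ Z : ℝ, Z = ∑ i, Real.exp (a i) / D i := ⟨_, rfl⟩
  have hZ0 : 0 < Z := by
    rw [hZ]
    exact Finset.sum_pos (fun i _ => div_pos (Real.exp_pos _) (hD0 i)) Finset.univ_nonempty
  obtain ⟨p, hp⟩ : ∃ p : ι → ℝ, p = fun i => Real.exp (a i) / D i / Z := ⟨_, rfl⟩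
  have hp0 : ∀ i, 0 < p i := fun i => by
    rw [hp]
    exact div_pos (div_pos (Real.exp_pos _) (hD0 i)) hZ0
  have hp1 : ∑ i, p i = 1 := by
    rw [hp, ← Finset.sum_div, ← hZ, div_self hZ0.ne']
  have hlogp : ∀ i, Real.log (p i) = a i - Real.log (D i) - Real.log Z := by
    intro i
    rw [hp]
    simp only
    rw [Real.log_div (div_pos (Real.exp_pos _) (hD0 i)).ne' hZ0.ne',
      Real.log_div (Real.exp_pos _).ne' (hD0 i).ne', Real.log_exp]
  obtain ⟨ηN, hηN⟩ : ∃ ηN : ℝ, ηN = (3 * (d : ℝ)) ^ d * (2 * d / N + lam) := ⟨_, rfl⟩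
  have hη0 : 0 ≤ ηN := by rw [hηN]; positivity
  have hη1 : ηN ≤ A1 := by
    rw [hηN, hA1, ← hP]
    refine mul_le_mul_of_nonneg_left ?_ hP0.le
    have : 2 * (d : ℝ) / N ≤ 2 * d := div_le_self (by positivity) hN1
    linarith
  have hηlog : ηN * (b' * Real.log N) ≤ ε / 2 * Real.log N + P * (2 * d) * b' := by
    have h1 : ηN * (b' * Real.log N) = P * (2 * d) * b' * (Real.log N / N) +
        P * lam * b' * Real.log N := by
      rw [hηN, ← hP]
      field_simp
    rw [h1]
    have h2 : P * (2 * d) * b' * (Real.log N / N) ≤ P * (2 * d) * b' * 1 :=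
      mul_le_mul_of_nonneg_left (log_div_le hN1) (by positivity)
    have h3 := mul_le_mul_of_nonneg_right hl2 hlogN
    linarith
  -- the main inequality with any constant `c`
  have hkey : ∀ c : ℝ, 1 - c + Real.log Z ≤ Real.log ((4 * d + 1) ^ d) +
      (ε' * m * Real.log B + C) * (1 + ηN) + ηN * (b' * Real.log N) +
      Real.exp (-c) * E / N ^ (d + 2) := by
    intro c
    have h1 := hmain m N hN ι θ x κ hκ0 hκ p hp0 G hG c E hE0 (by rw [← hEE, hEE'])
    have h2 : ∑ i, p i * ((1 - Real.log (p i) - c) * N ^ (d + 2) +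
        ∫ z in tube N (θ i) (x i), G z) =
        N ^ (d + 2) * (1 - c + Real.log Z + ∑ i, p i * Real.log (D i)) := by
      have e1 : ∀ i ∈ (univ : Finset ι), p i * ((1 - Real.log (p i) - c) * N ^ (d + 2) +
          ∫ z in tube N (θ i) (x i), G z) =
          N ^ (d + 2) * (p i * (1 - c + Real.log Z) + p i * Real.log (D i)) := by
        intro i _
        rw [haint, hlogp]
        ring
      rw [Finset.sum_congr rfl e1, ← Finset.mul_sum, Finset.sum_add_distrib, ← Finset.sum_mul,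
        hp1, one_mul]
    have h3 : ∑ i, p i * (Real.log ((4 * d + 1) ^ d) + Real.log (numSame B N θ x m i)) *
        N ^ (d + 2) = N ^ (d + 2) * (Real.log ((4 * d + 1) ^ d) +
        ∑ i, p i * Real.log (numSame B N θ x m i)) := by
      have e1 : ∀ i ∈ (univ : Finset ι), p i * (Real.log ((4 * d + 1) ^ d) +
          Real.log (numSame B N θ x m i)) * N ^ (d + 2) = N ^ (d + 2) *
          (p i * Real.log ((4 * d + 1) ^ d) + p i * Real.log (numSame B N θ x m i)) := by
        intro i _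
        ring
      rw [Finset.sum_congr rfl e1, ← Finset.mul_sum, Finset.sum_add_distrib, ← Finset.sum_mul,
        hp1, one_mul]
    have h4 : ∑ i, p i * (ε' * m * Real.log B + C + ∑ k ∈ range m, κ k i) *
          (N ^ (d + 2) * (1 + (3 * d) ^ d * (2 * d / N + lam))) =
        N ^ (d + 2) * (1 + ηN) * ((ε' * m * Real.log B + C) + ∑ i, p i * K i) := by
      have e1 : ∀ i ∈ (univ : Finset ι), p i * (ε' * m * Real.log B + C +
          ∑ k ∈ range m, κ k i) *
          (N ^ (d + 2) * (1 + (3 * d) ^ d * (2 * d / N + lam))) =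
          N ^ (d + 2) * (1 + ηN) * (p i * (ε' * m * Real.log B + C) + p i * K i) := by
        intro i _
        rw [hηN, hK]
        ring
      rw [Finset.sum_congr rfl e1, ← Finset.mul_sum, Finset.sum_add_distrib, ← Finset.sum_mul,
        hp1, one_mul]
    have h5 : ∑ i, p i * Real.log (D i) = ∑ i, p i * Real.log (numSame B N θ x m i) +
        ∑ i, p i * K i := by
      rw [← Finset.sum_add_distrib]
      refine Finset.sum_congr rfl fun i _ => ?_
      rw [hlogD]
      ring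
    have h6 : ∑ i, p i * K i ≤ b' * Real.log N := by
      calc ∑ i, p i * K i ≤ ∑ i, p i * (b' * Real.log N) :=
            Finset.sum_le_sum fun i _ => mul_le_mul_of_nonneg_left (hK1 i) (hp0 i).le
        _ = b' * Real.log N := by rw [← Finset.sum_mul, hp1, one_mul]
    rw [h2, h3, h4, h5] at h1
    have h7 : Real.exp (-c) * E = N ^ (d + 2) * (Real.exp (-c) * E / N ^ (d + 2)) := by
      field_simp
    rw [h7, mul_assoc (N ^ (d + 2)), ← mul_add, ← mul_add] at h1
    have h8 := le_of_mul_le_mul_left h1 hT0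
    have h9 := mul_le_mul_of_nonneg_left h6 hη0
    linarith
  -- `E > 0`
  have hEpos : 0 < E := by
    rcases hE0.lt_or_eq with h1 | h1
    · exact h1
    · exfalso
      have h2 := hkey (1 + Real.log Z - (Real.log ((4 * d + 1) ^ d) +
        (ε' * m * Real.log B + C) * (1 + ηN) + ηN * (b' * Real.log N)) - 1)
      rw [← h1] at h2
      simp only [mul_zero, zero_div, add_zero] at h2
      linarith
  have hfin := hkey (Real.log (E / N ^ (d + 2)))
  have e1 : Real.exp (-Real.log (E / N ^ (d + 2))) * E / N ^ (d + 2) = 1 := by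
    rw [Real.exp_neg, Real.exp_log (div_pos hEpos hT0)]
    field_simp
  rw [e1] at hfin
  have e2 : (ε' * m * Real.log B + C) * (1 + ηN) ≤ ε / 2 * Real.log N + C * (1 + A1) := by
    have h1 : 0 ≤ ε' * m * Real.log B + C := by positivity
    have h2 : (ε' * m * Real.log B + C) * (1 + ηN) ≤ (ε' * m * Real.log B + C) * (1 + A1) :=
      mul_le_mul_of_nonneg_left (by linarith) h1
    have h3 : ε' * m * Real.log B ≤ ε' * Real.log N := by
      rw [mul_assoc]
      exact mul_le_mul_of_nonneg_left hmlog hε'0.le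
    have h4 : (ε' * m * Real.log B + C) * (1 + A1) ≤ (ε' * Real.log N + C) * (1 + A1) :=
      mul_le_mul_of_nonneg_right (by linarith) (by positivity)
    have h5 : (ε' * Real.log N + C) * (1 + A1) = ε' * (1 + A1) * Real.log N + C * (1 + A1) := by
      ring
    rw [hε'1] at h5
    linarith
  have hlogZ : Real.log Z ≤ A2 + ε * Real.log N + Real.log (E / N ^ (d + 2)) := by
    rw [hA2]
    linarith
  have hZle : Z ≤ Real.exp A2 * N ^ ε * (E / N ^ (d + 2)) := by
    rw [← Real.log_le_log_iff hZ0 (by positivity), Real.log_mul (by positivity) (by positivity),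
      Real.log_mul (by positivity) (by positivity), Real.log_exp, Real.log_rpow hN0]
    exact hlogZ
  rw [hEE', ← ENNReal.ofReal_mul (by positivity)]
  rw [← ENNReal.ofReal_sum_of_nonneg fun i _ => by
    have := hnum0 i
    positivity]
  refine ENNReal.ofReal_le_ofReal ?_
  have h1 : ∑ i, N ^ (d + 2) / (numSame B N θ x m i * Real.exp (∑ k ∈ range m, κ k i)) *
      Real.exp (⨍ z in tube N (θ i) (x i), G z) = N ^ (d + 2) * Z := by
    rw [hZ, Finset.mul_sum]
    refine Finset.sum_congr rfl fun i _ => ?_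
    rw [ha, hD]
    simp only
    ring
  rw [h1]
  calc N ^ (d + 2) * Z ≤ N ^ (d + 2) * (Real.exp A2 * N ^ ε * (E / N ^ (d + 2))) :=
        mul_le_mul_of_nonneg_left hZle hT0.le
    _ = Real.exp A2 * N ^ ε * E := by field_simp

end STK
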