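import Pool.Agent.Lib.MP_ac5134_an.STK.KWinF

/-!
# STK-KWinG: the two bounds for the local entropies

`locEnt w k ≤ ∑ w_i log M_k(i)` (`locEnt_pos`) and, with the uniform weight as reference (Gibbs),
`locEnt w k ≤ ∑ w_i (-log ((1 - t) numSame_{k+1}(i) / numClass_k(i) + t B^(-(d+1))))` (`locEnt_mix`).
`max_pos`, `max_factor`: the geometric mean inequality with `D_i = factorPos`, `D_i = factor`.
-/

namespace STK
open Finset RFold Filter Topology MeasureTheory Pool.Agent.MPac5134 Pool.Agent.MPac5134.Lip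
open scoped InnerProductSpace ENNReal

theorem posCell_coarse {B d : ℕ} (hB : 0 < B) {N : ℝ} {k : ℕ} {θ θ' : Cap d} {c c' : Sp d}
    (h : posCell B N (k + 1) θ c = posCell B N (k + 1) θ' c') :
    posCell B N k θ c = posCell B N k θ' c' := by
  funext r
  have e := congrFun h r
  simp only [posCell] at e ⊢
  rw [floor_coarse hB (Nat.le_succ k), floor_coarse hB (Nat.le_succ k)
    (axisPos N θ' c' r), e]

theorem numSame_le_numClass {B d : ℕ} (hB : 0 < B) {N : ℝ} {ι : Type*} [Fintype ι]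
    (θ : ι → Cap d) (x : ι → Sp d) (k : ℕ) (i : ι) :
    numSame B N θ x (k + 1) i ≤ numClass B N θ x k i := by
  classical
  unfold numSame numClass
  refine Finset.card_le_card ?_
  intro j hj
  rw [Finset.mem_filter] at hj ⊢
  exact ⟨mem_univ _, posCell_coarse hB hj.2.1, hj.2.2⟩

theorem locEnt_pos {B d : ℕ} {N : ℝ} {ι : Type} [Fintype ι] (θ : ι → Cap d) (x : ι → Sp d)
    (k : ℕ) (w : ι → ℝ) (hw : IsPr w) :
    locEnt B N θ x w k ≤ ∑ i, w i * Real.log (numPos B N θ x k i) := by
  classical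
  unfold locEnt
  have h2 := cent_le_log_card hw (fun i => posCell B N (k + 1) (θ i) (x i))
    (fun i => (posCell B N k (θ i) (x i), dirCell B (k + 1) (θ i)))
    (fun c => (univ.filter fun j => (posCell B N k (θ j) (x j), dirCell B (k + 1) (θ j)) = c).image
      fun j => posCell B N (k + 1) (θ j) (x j)) (fun i _ => by
        rw [Finset.mem_image]
        exact ⟨i, by simp, rfl⟩)
  refine h2.trans (le_of_eq ?_)
  refine Finset.sum_congr rfl fun i _ => ?_
  unfold numPos
  simp only [Prod.mk.injEq]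

/-- the reference weight of the next position cell of `T_i` in its class -/
noncomputable def refW {ι : Type} [Fintype ι] {d : ℕ} (t : ℝ) (B : ℕ) (N : ℝ) (θ : ι → Cap d)
    (x : ι → Sp d) (k : ℕ) (i : ι) : ℝ :=
  (1 - t) * ((numSame B N θ x (k + 1) i : ℝ) / numClass B N θ x k i) + t / (B : ℝ) ^ (d + 1)

theorem locEnt_mix {B d : ℕ} (hB : 0 < B) {N : ℝ} {ι : Type} [Fintype ι] (θ : ι → Cap d)
    (x : ι → Sp d) {t : ℝ} (ht0 : 0 < t) (ht1 : t < 1) (k : ℕ) (w : ι → ℝ) (hw : IsPr w) :
    locEnt B N θ x w k ≤ ∑ i, w i * (-Real.log (refW t B N θ x k i)) := by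
  classical
  have hB0 : (0 : ℝ) < B := by exact_mod_cast hB
  obtain ⟨f, hf⟩ : ∃ f : ι → (Fin (d + 1) → ℤ), f = fun i => posCell B N (k + 1) (θ i) (x i) :=
    ⟨_, rfl⟩
  obtain ⟨g, hg⟩ : ∃ g : ι → (Fin (d + 1) → ℤ) × (Fin d → ℤ), g = fun i =>
    (posCell B N k (θ i) (x i), dirCell B (k + 1) (θ i)) := ⟨_, rfl⟩
  have hle : locEnt B N θ x w k = cent w f g := by
    unfold locEnt
    rw [hf, hg]
  obtain ⟨cl, hcl⟩ : ∃ cl : (Fin (d + 1) → ℤ) × (Fin d → ℤ) → Finset ι, cl = fun c =>
    univ.filter fun j => g j = c := ⟨_, rfl⟩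
  obtain ⟨q, hq⟩ : ∃ q : (Fin (d + 1) → ℤ) × (Fin d → ℤ) → (Fin (d + 1) → ℤ) → ℝ, q = fun c b =>
    (1 - t) * ((((cl c).filter fun j => f j = b).card : ℝ) / (cl c).card) +
      t / (B : ℝ) ^ (d + 1) := ⟨_, rfl⟩
  have hq0 : ∀ c b, 0 < q c b := by
    intro c b
    rw [hq]
    have h1 : 0 ≤ 1 - t := by linarith
    simp only
    positivity
  have hnum : ∀ i, (cl (g i)).card = numClass B N θ x k i := by
    intro i
    rw [hcl, hg]
    unfold numClass
    simp only [Prod.mk.injEq]
  have hnum2 : ∀ i, ((cl (g i)).filter fun j => f j = f i).card = numSame B N θ x (k + 1) i := by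
    intro i
    rw [hcl, hg, hf]
    unfold numSame
    rw [Finset.filter_filter]
    congr 1
    ext j
    simp only [mem_filter, mem_univ, true_and, Prod.mk.injEq]
    constructor
    · rintro ⟨⟨_, a2⟩, a3⟩
      exact ⟨a3, a2⟩
    · rintro ⟨a3, a2⟩
      exact ⟨⟨posCell_coarse hB a3, a2⟩, a3⟩
  have hnum3 : ∀ i, ((cl (g i)).image f).card = numPos B N θ x k i := by
    intro i
    rw [hcl, hg, hf]
    unfold numPos
    simp only [Prod.mk.injEq]
  have h1 := cent_le_gibbs hw f g q (fun ω _ => hq0 _ _) (fun c => (cl c).image f)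
    (fun ω _ => by
      rw [Finset.mem_image]
      refine ⟨ω, ?_, rfl⟩
      rw [hcl]
      simp) (fun _ _ b _ => (hq0 _ b).le) (fun ω _ => by
      have hne : (0 : ℝ) < (cl (g ω)).card := by
        have : 0 < (cl (g ω)).card := Finset.card_pos.mpr ⟨ω, by rw [hcl]; simp⟩
        exact_mod_cast this
      rw [hq]
      simp only
      rw [Finset.sum_add_distrib, ← Finset.mul_sum, ← Finset.sum_div, Finset.sum_const,
        nsmul_eq_mul]
      have e1 : ∑ b ∈ (cl (g ω)).image f, (((cl (g ω)).filter fun j => f j = b).card : ℝ) =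
          (cl (g ω)).card := by
        rw [Finset.card_eq_sum_card_image f (cl (g ω))]
        push_cast
        rfl
      rw [e1, div_self hne.ne', mul_one, hnum3]
      have e2 : (numPos B N θ x k ω : ℝ) ≤ (B : ℝ) ^ (d + 1) := by
        exact_mod_cast numPos_le hB θ x k ω
      have e3 : (numPos B N θ x k ω : ℝ) * (t / (B : ℝ) ^ (d + 1)) ≤
          (B : ℝ) ^ (d + 1) * (t / (B : ℝ) ^ (d + 1)) :=
        mul_le_mul_of_nonneg_right e2 (by positivity)
      have e4 : (B : ℝ) ^ (d + 1) * (t / (B : ℝ) ^ (d + 1)) = t := by field_simp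
      linarith)
  rw [hle]
  refine h1.trans (le_of_eq ?_)
  refine Finset.sum_congr rfl fun i _ => ?_
  rw [hq]
  unfold refW
  simp only
  rw [hnum, hnum2]

open Classical in
/-- the inequality with `D_i = numSame_m(i) ∏_{k<m} M_k(i)` -/
theorem max_pos {B d : ℕ} (hB : 2 ≤ B) (hd : 1 ≤ d) {ε : ℝ} (hε : 0 < ε) :
    ∃ C : ℝ, 0 < C ∧ ∀ (m : ℕ) (N : ℝ), (B : ℝ) ^ m ≤ N →
      ∀ (ι : Type) [Fintype ι] (θ : ι → Cap d) (x : ι → Sp d) (G : Sp d → ℝ),
      (∀ i, IntegrableOn G (tube N (θ i) (x i))) →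
      ∑ i, ENNReal.ofReal (N ^ (d + 2) / factorPos B N θ x m i *
          Real.exp (⨍ z in tube N (θ i) (x i), G z)) ≤
        ENNReal.ofReal (C * N ^ ε) *
          ∫⁻ z in ⋃ i, tube N (θ i) (x i), ENNReal.ofReal (Real.exp (G z)) := by
  have hB2 : (2 : ℝ) ≤ B := by exact_mod_cast hB
  have hB0 : (0 : ℝ) < B := by linarith
  have hB1 : (1 : ℝ) ≤ (B : ℝ) ^ (d + 1) := one_le_pow₀ (by linarith)
  obtain ⟨C, hC, h⟩ := max_gen (B := B) (d := d) hB hd hε (b := Real.log ((B : ℝ) ^ (d + 1)))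
    (Real.log_nonneg hB1)
  refine ⟨C, hC, ?_⟩
  intro m N hN ι _ θ x G hG
  refine le_trans (le_of_eq ?_) (h m N hN ι θ x (fun k i => Real.log (numPos B N θ x k i))
    (fun _ _ => Real.log_natCast_nonneg _) (fun k i => Real.log_le_log (by
      exact_mod_cast numPos_pos θ x k i) (by
      exact_mod_cast numPos_le (by omega) θ x k i)) (fun k w hw => locEnt_pos θ x k w hw) G hG)
  refine Finset.sum_congr rfl fun i _ => ?_
  congr 3
  unfold factorPos
  congr 1
  rw [Real.exp_sum]
  refine Finset.prod_congr rfl fun k _ => ?_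
  rw [Real.exp_log]
  exact_mod_cast numPos_pos θ x k i

open Classical in
/-- the inequality with `D_i = numSame_m(i) ∏_{k<m} numClass_k(i) / numSame_{k+1}(i)` -/
theorem max_factor {B d : ℕ} (hB : 2 ≤ B) (hd : 1 ≤ d) {ε : ℝ} (hε : 0 < ε) :
    ∃ C : ℝ, 0 < C ∧ ∀ (m : ℕ) (N : ℝ), (B : ℝ) ^ m ≤ N →
      ∀ (ι : Type) [Fintype ι] (θ : ι → Cap d) (x : ι → Sp d) (G : Sp d → ℝ),
      (∀ i, IntegrableOn G (tube N (θ i) (x i))) →
      ∑ i, ENNReal.ofReal (N ^ (d + 2) / factor B N θ x m i *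
          Real.exp (⨍ z in tube N (θ i) (x i), G z)) ≤
        ENNReal.ofReal (C * N ^ ε) *
          ∫⁻ z in ⋃ i, tube N (θ i) (x i), ENNReal.ofReal (Real.exp (G z)) := by
  have hB2 : (2 : ℝ) ≤ B := by exact_mod_cast hB
  have hBn : 0 < B := by omega
  have hB0 : (0 : ℝ) < B := by linarith
  have hB1 : (1 : ℝ) ≤ (B : ℝ) ^ (d + 1) := one_le_pow₀ (by linarith)
  have hlogB : 0 < Real.log B := Real.log_pos (by linarith)
  obtain ⟨t, ht⟩ : ∃ t : ℝ, t = min (1 / 2) (ε * Real.log B / 4) := ⟨_, rfl⟩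
  have ht0 : 0 < t := by rw [ht]; exact lt_min (by norm_num) (by positivity)
  have ht2 : t ≤ 1 / 2 := by rw [ht]; exact min_le_left _ _
  have ht3 : 2 * t ≤ ε / 2 * Real.log B := by
    have : t ≤ ε * Real.log B / 4 := by rw [ht]; exact min_le_right _ _
    linarith
  have htlog : -Real.log (1 - t) ≤ ε / 2 * Real.log B := by
    have h1 : 0 < 1 - t := by linarith
    have h2 := Real.log_le_sub_one_of_pos (inv_pos.2 h1)
    rw [Real.log_inv] at h2
    have h3 : (1 - t)⁻¹ - 1 ≤ 2 * t := by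
      have h4 : (1 - t)⁻¹ - 1 = t / (1 - t) := by field_simp; ring
      rw [h4, div_le_iff₀ h1]
      nlinarith
    linarith
  obtain ⟨b, hb⟩ : ∃ b : ℝ, b = -Real.log (t / (B : ℝ) ^ (d + 1)) := ⟨_, rfl⟩
  have htB : t / (B : ℝ) ^ (d + 1) ≤ 1 := by
    rw [div_le_one (by positivity)]
    linarith
  have hb0 : 0 ≤ b := by
    rw [hb]
    have := Real.log_nonpos (by positivity) htB
    linarith
  obtain ⟨C, hC, h⟩ := max_gen (B := B) (d := d) hB hd (half_pos hε) hb0
  refine ⟨C, hC, ?_⟩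
  intro m N hN ι _ θ x G hG
  have hBm : (0 : ℝ) < (B : ℝ) ^ m := by positivity
  have hN0 : 0 < N := by linarith
  have hnS : ∀ k i, (0 : ℝ) < numSame B N θ x k i := fun k i => by
    exact_mod_cast numSame_pos' B N k θ x i
  have hnle : ∀ k i, (numSame B N θ x (k + 1) i : ℝ) ≤ numClass B N θ x k i := fun k i => by
    exact_mod_cast numSame_le_numClass hBn θ x k i
  have hnC : ∀ k i, (0 : ℝ) < numClass B N θ x k i := fun k i => (hnS (k + 1) i).trans_le (hnle k i)
  have href1 : ∀ k i, refW t B N θ x k i ≤ 1 := by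
    intro k i
    unfold refW
    have h1 : (numSame B N θ x (k + 1) i : ℝ) / numClass B N θ x k i ≤ 1 := by
      rw [div_le_one (hnC k i)]
      exact hnle k i
    have h2 : t / (B : ℝ) ^ (d + 1) ≤ t := div_le_self ht0.le hB1
    nlinarith
  have href0 : ∀ k i, t / (B : ℝ) ^ (d + 1) ≤ refW t B N θ x k i := by
    intro k i
    unfold refW
    have h1 : 0 ≤ (1 - t) * ((numSame B N θ x (k + 1) i : ℝ) / numClass B N θ x k i) :=
      mul_nonneg (by linarith) (div_nonneg (hnS _ _).le (hnC _ _).le)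
    linarith
  have hrefp : ∀ k i, 0 < refW t B N θ x k i := fun k i => lt_of_lt_of_le (by positivity) (href0 k i)
  have hmax := h m N hN ι θ x (fun k i => -Real.log (refW t B N θ x k i))
    (fun k i => by
      have := Real.log_nonpos (hrefp k i).le (href1 k i)
      linarith) (fun k i => by
      rw [hb]
      exact neg_le_neg (Real.log_le_log (by positivity) (href0 k i)))
    (fun k w hw => locEnt_mix hBn θ x ht0 (by linarith) k w hw) G hG
  have hNε : 0 < N ^ (ε / 2) := Real.rpow_pos_of_pos hN0 _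
  -- comparison of the factors
  have hfac : ∀ i, (numSame B N θ x m i : ℝ) *
      Real.exp (∑ k ∈ range m, -Real.log (refW t B N θ x k i)) ≤
      N ^ (ε / 2) * factor B N θ x m i := by
    intro i
    have h1 : Real.exp (∑ k ∈ range m, -Real.log (refW t B N θ x k i)) ≤
        Real.exp (∑ k ∈ range m, (Real.log ((numClass B N θ x k i : ℝ) /
          numSame B N θ x (k + 1) i) + ε / 2 * Real.log B)) := by
      refine Real.exp_le_exp.2 (Finset.sum_le_sum fun k _ => ?_)
      have h2 : (1 - t) * ((numSame B N θ x (k + 1) i : ℝ) / numClass B N θ x k i) ≤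
          refW t B N θ x k i := by
        unfold refW
        have : 0 < t / (B : ℝ) ^ (d + 1) := by positivity
        linarith
      have h3 : 0 < (numSame B N θ x (k + 1) i : ℝ) / numClass B N θ x k i :=
        div_pos (hnS _ _) (hnC _ _)
      have h4 := Real.log_le_log (mul_pos (by linarith) h3) h2
      rw [Real.log_mul (by linarith) h3.ne'] at h4
      have h5 : Real.log ((numClass B N θ x k i : ℝ) / numSame B N θ x (k + 1) i) =
          -Real.log ((numSame B N θ x (k + 1) i : ℝ) / numClass B N θ x k i) := by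
        rw [← Real.log_inv, inv_div]
      rw [h5]
      linarith
    have h6 : Real.exp (∑ k ∈ range m, (Real.log ((numClass B N θ x k i : ℝ) /
          numSame B N θ x (k + 1) i) + ε / 2 * Real.log B)) =
        (∏ k ∈ range m, ((numClass B N θ x k i : ℝ) / numSame B N θ x (k + 1) i)) *
        Real.exp ((m : ℝ) * (ε / 2 * Real.log B)) := by
      rw [Finset.sum_add_distrib, Real.exp_add, Real.exp_sum, Finset.sum_const,
        Finset.card_range, nsmul_eq_mul]
      congr 1
      exact Finset.prod_congr rfl fun k _ => Real.exp_log (div_pos (hnC _ _) (hnS _ _))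
    rw [h6] at h1
    have h7 : Real.exp ((m : ℝ) * (ε / 2 * Real.log B)) ≤ N ^ (ε / 2) := by
      rw [Real.rpow_def_of_pos hN0]
      refine Real.exp_le_exp.2 ?_
      have h8 : (m : ℝ) * Real.log B ≤ Real.log N := by
        rw [← Real.log_pow]
        exact Real.log_le_log hBm hN
      have h9 := mul_le_mul_of_nonneg_left h8 (half_pos hε).le
      linarith
    have h10 : 0 ≤ ∏ k ∈ range m, ((numClass B N θ x k i : ℝ) / numSame B N θ x (k + 1) i) :=
      Finset.prod_nonneg fun k _ => (div_pos (hnC _ _) (hnS _ _)).le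
    have h11 := h1.trans (mul_le_mul_of_nonneg_left h7 h10)
    have h12 := mul_le_mul_of_nonneg_left h11 (hnS m i).le
    refine h12.trans (le_of_eq ?_)
    unfold factor
    ring
  have hterm : ∀ i ∈ (univ : Finset ι), ENNReal.ofReal (N ^ (d + 2) / factor B N θ x m i *
      Real.exp (⨍ z in tube N (θ i) (x i), G z)) ≤ ENNReal.ofReal (N ^ (ε / 2)) *
      ENNReal.ofReal (N ^ (d + 2) / (numSame B N θ x m i *
        Real.exp (∑ k ∈ range m, -Real.log (refW t B N θ x k i))) *
      Real.exp (⨍ z in tube N (θ i) (x i), G z)) := by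
    intro i _
    rw [← ENNReal.ofReal_mul hNε.le]
    refine ENNReal.ofReal_le_ofReal ?_
    have hf0 : 0 < factor B N θ x m i := by
      unfold factor
      exact mul_pos (hnS m i) (Finset.prod_pos fun k _ => div_pos (hnC _ _) (hnS _ _))
    have hg0 : 0 < (numSame B N θ x m i : ℝ) *
        Real.exp (∑ k ∈ range m, -Real.log (refW t B N θ x k i)) :=
      mul_pos (hnS m i) (Real.exp_pos _)
    rw [← mul_assoc]
    refine mul_le_mul_of_nonneg_right ?_ (Real.exp_pos _).le
    rw [mul_div_assoc', div_le_div_iff₀ hf0 hg0]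
    have h1 := mul_le_mul_of_nonneg_left (hfac i) (show (0 : ℝ) ≤ N ^ (d + 2) by positivity)
    linarith
  refine (Finset.sum_le_sum hterm).trans ?_
  rw [← Finset.mul_sum]
  refine (mul_le_mul_right hmax _).trans (le_of_eq ?_)
  rw [← mul_assoc, ← ENNReal.ofReal_mul hNε.le]
  congr 2
  rw [← mul_assoc, mul_comm (N ^ (ε / 2)) C, mul_assoc, ← Real.rpow_add hN0, add_halves]

end STK
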